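import Mathlib

set_option autoImplicit false

open Finset

namespace Pool.Agent.X155.CubeMix

/-- general Hall lemma with degree condition -/
theorem hall_deg {X Y : Type*} [DecidableEq X] [DecidableEq Y] [Nonempty Y] (s : Finset X)
    (t : X → Finset Y)
    (hne : ∀ x ∈ s, (t x).Nonempty)
    (h : ∀ x ∈ s, ∀ y ∈ t x, (s.filter (fun x' => y ∈ t x')).card ≤ (t x).card) :
    ∃ f : X → Y, Set.InjOn f s ∧ ∀ x ∈ s, f x ∈ t x := by
  classical
  have key : ∀ A : Finset {x // x ∈ s}, A.card ≤ (A.biUnion (fun x => t x.1)).card := by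
    intro A
    have h1 : ((A.card : ℕ) : ℚ) = ∑ x ∈ A, ∑ y ∈ t x.1, (1 / ((t x.1).card : ℚ)) := by
      rw [card_eq_sum_ones]
      push_cast
      refine sum_congr rfl fun x hx => ?_
      rw [sum_const, nsmul_eq_mul]
      have : ((t x.1).card : ℚ) ≠ 0 := by
        have := (hne x.1 x.2).card_pos
        positivity
      field_simp
    have h2 : (∑ x ∈ A, ∑ y ∈ t x.1, (1 / ((t x.1).card : ℚ))) =
        ∑ y ∈ A.biUnion (fun x => t x.1), ∑ x ∈ A.filter (fun x => y ∈ t x.1),
          (1 / ((t x.1).card : ℚ)) := by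
      have : ∀ x ∈ A, ∑ y ∈ t x.1, (1 / ((t x.1).card : ℚ)) =
          ∑ y ∈ A.biUnion (fun x => t x.1), if y ∈ t x.1 then (1 / ((t x.1).card : ℚ)) else 0 := by
        intro x hx
        rw [← sum_filter]
        refine sum_congr ?_ fun _ _ => rfl
        ext y
        simp only [mem_filter, mem_biUnion]
        constructor
        · intro hy
          exact ⟨⟨x, hx, hy⟩, hy⟩
        · rintro ⟨_, hy⟩
          exact hy
      rw [sum_congr rfl this, sum_comm]
      refine sum_congr rfl fun y _ => ?_
      rw [sum_filter]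
    have h3 : (∑ y ∈ A.biUnion (fun x => t x.1), ∑ x ∈ A.filter (fun x => y ∈ t x.1),
          (1 / ((t x.1).card : ℚ))) ≤ ∑ y ∈ A.biUnion (fun x => t x.1), (1 : ℚ) := by
      refine sum_le_sum fun y hy => ?_
      set m := (s.filter (fun x' => y ∈ t x')).card with hm
      have hmpos : 0 < m := by
        rw [mem_biUnion] at hy
        obtain ⟨x, hx, hyx⟩ := hy
        apply card_pos.2
        exact ⟨x.1, mem_filter.2 ⟨x.2, hyx⟩⟩
      have hcard : (A.filter (fun x => y ∈ t x.1)).card ≤ m := by
        rw [hm]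
        apply card_le_card_of_injOn (fun x => x.1)
        · intro x hx
          have hx' := mem_filter.1 (mem_coe.1 hx)
          exact mem_coe.2 (mem_filter.2 ⟨x.2, hx'.2⟩)
        · intro a _ b _ hab
          exact Subtype.ext hab
      calc ∑ x ∈ A.filter (fun x => y ∈ t x.1), (1 / ((t x.1).card : ℚ))
          ≤ ∑ x ∈ A.filter (fun x => y ∈ t x.1), (1 / (m : ℚ)) := by
            refine sum_le_sum fun x hx => ?_
            have hx' := (mem_filter.1 hx).2
            have := h x.1 x.2 y hx'
            apply one_div_le_one_div_of_le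
            · exact_mod_cast hmpos
            · exact_mod_cast this
        _ = ((A.filter (fun x => y ∈ t x.1)).card : ℚ) * (1 / (m : ℚ)) := by
            rw [sum_const, nsmul_eq_mul]
        _ ≤ (m : ℚ) * (1 / (m : ℚ)) := by
            apply mul_le_mul_of_nonneg_right
            · exact_mod_cast hcard
            · positivity
        _ = 1 := by
            have : (m : ℚ) ≠ 0 := by positivity
            field_simp
    have h4 : ((A.card : ℕ) : ℚ) ≤ ((A.biUnion (fun x => t x.1)).card : ℚ) := by
      rw [h1, h2]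
      refine h3.trans ?_
      simp
    exact_mod_cast h4
  obtain ⟨f, hf, hft⟩ := (Finset.all_card_le_biUnion_card_iff_exists_injective
    (fun x : {x // x ∈ s} => t x.1)).1 key
  refine ⟨fun x => if hx : x ∈ s then f ⟨x, hx⟩ else Classical.arbitrary Y, ?_, ?_⟩
  · intro a ha b hb hab
    have ha' : a ∈ s := ha
    have hb' : b ∈ s := hb
    simp only [ha', hb', dif_pos] at hab
    have := hf hab
    exact congrArg Subtype.val this
  · intro x hx
    simp only [hx, dif_pos]
    exact hft ⟨x, hx⟩

/-- number of supersets of `x` of given size -/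
theorem card_supersets {d : ℕ} (x : Finset (Fin d)) (c : ℕ) (hc : x.card ≤ c) :
    ((univ : Finset (Finset (Fin d))).filter (fun y => x ⊆ y ∧ y.card = c)).card =
      (d - x.card).choose (c - x.card) := by
  have h1 : (powersetCard (c - x.card) xᶜ).card = (d - x.card).choose (c - x.card) := by
    rw [card_powersetCard, card_compl, Fintype.card_fin]
  rw [← h1]
  apply card_bij' (fun y _ => y \ x) (fun z _ => z ∪ x)
  · intro y hy
    obtain ⟨_, h2, h3⟩ := mem_filter.1 hy
    rw [mem_powersetCard]
    refine ⟨?_, ?_⟩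
    · intro i hi
      rw [mem_compl]
      exact (mem_sdiff.1 hi).2
    · rw [card_sdiff_of_subset h2, h3]
  · intro z hz
    rw [mem_powersetCard] at hz
    have hd : Disjoint z x := by
      rw [disjoint_left]
      intro i hi
      exact mem_compl.1 (hz.1 hi)
    rw [mem_filter]
    refine ⟨mem_univ _, subset_union_right, ?_⟩
    rw [card_union_of_disjoint hd, hz.2]
    omega
  · intro y hy
    obtain ⟨_, h2, h3⟩ := mem_filter.1 hy
    exact sdiff_union_of_subset h2
  · intro z hz
    rw [mem_powersetCard] at hz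
    have hd : Disjoint z x := by
      rw [disjoint_left]
      intro i hi
      exact mem_compl.1 (hz.1 hi)
    rw [union_sdiff_right, sdiff_eq_self_of_disjoint hd]

/-- number of sets between `K` and `y` of given size -/
theorem card_between {d : ℕ} (K y : Finset (Fin d)) (hK : K ⊆ y) (c : ℕ) (hc : K.card ≤ c) :
    ((univ : Finset (Finset (Fin d))).filter (fun x => K ⊆ x ∧ x ⊆ y ∧ x.card = c)).card =
      (y.card - K.card).choose (c - K.card) := by
  have h1 : (powersetCard (c - K.card) (y \ K)).card = (y.card - K.card).choose (c - K.card) := by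
    rw [card_powersetCard, card_sdiff_of_subset hK]
  rw [← h1]
  apply card_bij' (fun x _ => x \ K) (fun z _ => z ∪ K)
  · intro x hx
    obtain ⟨_, h2, h3, h4⟩ := mem_filter.1 hx
    rw [mem_powersetCard]
    exact ⟨sdiff_subset_sdiff h3 le_rfl, by rw [card_sdiff_of_subset h2, h4]⟩
  · intro z hz
    rw [mem_powersetCard] at hz
    have hd : Disjoint z K := by
      rw [disjoint_left]
      intro i hi
      exact (mem_sdiff.1 (hz.1 hi)).2
    rw [mem_filter]
    refine ⟨mem_univ _, subset_union_right, ?_, ?_⟩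
    · exact union_subset (hz.1.trans sdiff_subset) hK
    · rw [card_union_of_disjoint hd, hz.2]
      omega
  · intro x hx
    obtain ⟨_, h2, h3, h4⟩ := mem_filter.1 hx
    exact sdiff_union_of_subset h2
  · intro z hz
    rw [mem_powersetCard] at hz
    have hd : Disjoint z K := by
      rw [disjoint_left]
      intro i hi
      exact (mem_sdiff.1 (hz.1 hi)).2
    rw [union_sdiff_right, sdiff_eq_self_of_disjoint hd]

/-- matching of the lower half of the subcube `{x | K ⊆ x}` into its upper half -/
theorem exists_lower_matching {d k n : ℕ} (K : Finset (Fin d)) (hK : K.card = k)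
    (hd : d = k + (2 * n + 1)) :
    ∃ f : Finset (Fin d) → Finset (Fin d),
      Set.InjOn f ((univ : Finset (Finset (Fin d))).filter (fun x => K ⊆ x ∧ x.card ≤ k + n)) ∧
      ∀ x : Finset (Fin d), K ⊆ x → x.card ≤ k + n →
        x ⊆ f x ∧ (f x).card + x.card = 2 * k + (2 * n + 1) := by
  classical
  have hne : ∀ x ∈ (univ : Finset (Finset (Fin d))).filter (fun x => K ⊆ x ∧ x.card ≤ k + n),
      ((univ : Finset (Finset (Fin d))).filter
      (fun y => x ⊆ y ∧ y.card = 2 * k + (2 * n + 1) - x.card)).Nonempty := by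
    intro x hx
    obtain ⟨_, h2, h3⟩ := mem_filter.1 hx
    have hkx : k ≤ x.card := hK ▸ card_le_card h2
    rw [← card_pos, card_supersets x _ (by omega)]
    apply Nat.choose_pos
    omega
  have hdeg : ∀ x ∈ (univ : Finset (Finset (Fin d))).filter (fun x => K ⊆ x ∧ x.card ≤ k + n),
      ∀ y ∈ (univ : Finset (Finset (Fin d))).filter
      (fun y => x ⊆ y ∧ y.card = 2 * k + (2 * n + 1) - x.card),
      (((univ : Finset (Finset (Fin d))).filter (fun x => K ⊆ x ∧ x.card ≤ k + n)).filter
        (fun x' => y ∈ (univ : Finset (Finset (Fin d))).filter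
      (fun y => x' ⊆ y ∧ y.card = 2 * k + (2 * n + 1) - x'.card))).card ≤
      ((univ : Finset (Finset (Fin d))).filter
      (fun y => x ⊆ y ∧ y.card = 2 * k + (2 * n + 1) - x.card)).card := by
    intro x hx y hy
    obtain ⟨_, h2, h3⟩ := mem_filter.1 hx
    obtain ⟨_, h4, h5⟩ := mem_filter.1 hy
    have hkx : k ≤ x.card := hK ▸ card_le_card h2
    have hKy : K ⊆ y := h2.trans h4
    rw [card_supersets x _ (by omega)]
    have hsub : (((univ : Finset (Finset (Fin d))).filter (fun x => K ⊆ x ∧ x.card ≤ k + n)).filter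
        (fun x' => y ∈ (univ : Finset (Finset (Fin d))).filter
      (fun y => x' ⊆ y ∧ y.card = 2 * k + (2 * n + 1) - x'.card))) ⊆
        (univ : Finset (Finset (Fin d))).filter (fun x' => K ⊆ x' ∧ x' ⊆ y ∧ x'.card = x.card) := by
      intro x' hx'
      obtain ⟨h6, h7⟩ := mem_filter.1 hx'
      obtain ⟨_, h8, h9⟩ := mem_filter.1 h6
      obtain ⟨_, h10, h11⟩ := mem_filter.1 h7
      rw [mem_filter]
      refine ⟨mem_univ _, h8, h10, ?_⟩
      omega
    refine (card_le_card hsub).trans ?_
    rw [card_between K y hKy _ (by omega), h5, hK]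
    have e1 : 2 * k + (2 * n + 1) - x.card - k = d - x.card := by omega
    have e2 : x.card - k = (d - x.card) - (2 * k + (2 * n + 1) - x.card - x.card) := by omega
    rw [e1, e2, Nat.choose_symm (by omega)]
  obtain ⟨f, hf, hft⟩ := hall_deg _ _ hne hdeg
  refine ⟨f, hf, ?_⟩
  intro x hx hx2
  have := hft x (mem_filter.2 ⟨mem_univ _, hx, hx2⟩)
  obtain ⟨_, h2, h3⟩ := mem_filter.1 this
  refine ⟨h2, ?_⟩
  omega

/-- telescoping sum -/
theorem sum_choose_dev (m : ℕ) (j : ℕ) :
    ∑ i ∈ range (j + 1), (((m + 1).choose i : ℕ) : ℤ) * ((m : ℤ) + 1 - 2 * i) =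
      ((m : ℤ) + 1) * (m.choose j : ℕ) := by
  induction j with
  | zero => simp
  | succ j ih =>
    rw [sum_range_succ, ih]
    have h1 : ((m : ℤ) + 1) * (m.choose j : ℕ) = ((m + 1).choose (j + 1) : ℕ) * ((j : ℤ) + 1) := by
      have := Nat.add_one_mul_choose_eq m j
      have h := congrArg (Nat.cast : ℕ → ℤ) this
      push_cast at h
      linarith
    have h2 : (((m + 1).choose (j + 1) : ℕ) : ℤ) = (m.choose j : ℕ) + (m.choose (j + 1) : ℕ) := by
      rw [Nat.choose_succ_succ]
      push_cast
      ring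
    push_cast
    have h3 : (((m + 1).choose (j + 1) : ℕ) : ℤ) * ((m : ℤ) + 1 - 2 * ((j : ℤ) + 1)) =
        ((m : ℤ) + 1) * ((m + 1).choose (j + 1) : ℕ) - 2 * (((m : ℤ) + 1) * (m.choose j : ℕ)) := by
      rw [h1]; ring
    rw [h3, h2]
    ring

theorem centralBinom_upper (n : ℕ) : (2 * n + 1) * (n.centralBinom) ^ 2 ≤ 16 ^ n := by
  induction n with
  | zero => simp
  | succ n ih =>
    have h := Nat.succ_mul_centralBinom_succ n
    have h2 : (n + 1) ^ 2 * ((2 * (n + 1) + 1) * ((n + 1).centralBinom) ^ 2) ≤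
        (n + 1) ^ 2 * 16 ^ (n + 1) := by
      calc (n + 1) ^ 2 * ((2 * (n + 1) + 1) * ((n + 1).centralBinom) ^ 2)
          = (2 * n + 3) * ((n + 1) * (n + 1).centralBinom) ^ 2 := by ring
        _ = (2 * n + 3) * (2 * (2 * n + 1) * n.centralBinom) ^ 2 := by rw [h]
        _ = 4 * (2 * n + 3) * (2 * n + 1) * ((2 * n + 1) * n.centralBinom ^ 2) := by ring
        _ ≤ 4 * (2 * n + 3) * (2 * n + 1) * 16 ^ n := Nat.mul_le_mul_left _ ih
        _ ≤ (16 * (n + 1) ^ 2) * 16 ^ n := by
            apply Nat.mul_le_mul_right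
            nlinarith
        _ = (n + 1) ^ 2 * 16 ^ (n + 1) := by ring
    exact Nat.le_of_mul_le_mul_left h2 (by positivity)

theorem centralBinom_lower (n : ℕ) (hn : 1 ≤ n) : 16 ^ n ≤ 4 * n * (n.centralBinom) ^ 2 := by
  induction n, hn using Nat.le_induction with
  | base => decide
  | succ n hn ih =>
    have h := Nat.succ_mul_centralBinom_succ n
    have h2 : (n + 1) * 16 ^ (n + 1) ≤
        (n + 1) * (4 * (n + 1) * ((n + 1).centralBinom) ^ 2) := by
      calc (n + 1) * 16 ^ (n + 1) = (16 * (n + 1)) * 16 ^ n := by ring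
        _ ≤ (16 * (n + 1)) * (4 * n * (n.centralBinom) ^ 2) := Nat.mul_le_mul_left _ ih
        _ = (16 * (4 * n * (n + 1))) * (n.centralBinom) ^ 2 := by ring
        _ ≤ (16 * (2 * n + 1) ^ 2) * (n.centralBinom) ^ 2 := by
            apply Nat.mul_le_mul_right
            nlinarith
        _ = 4 * (2 * (2 * n + 1) * n.centralBinom) ^ 2 := by ring
        _ = 4 * ((n + 1) * (n + 1).centralBinom) ^ 2 := by rw [h]
        _ = (n + 1) * (4 * (n + 1) * ((n + 1).centralBinom) ^ 2) := by ring
    exact Nat.le_of_mul_le_mul_left h2 (by positivity)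

end Pool.Agent.X155.CubeMix
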