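import Mathlib

/-!
# The repulsion matrix: a domination principle for the kernel `1/(1+|x-y|)` in the plane
-/

set_option autoImplicit false

open Filter Topology

namespace Pool.Agent.X155.Repulsion

/-- second derivative at `0` of `t ↦ 1/(1+√(r²+2mt+t²))` -/
noncomputable def h2 (r m : ℝ) : ℝ :=
  -1 / (r * (1 + r) ^ 2) + m ^ 2 * (1 / (r ^ 3 * (1 + r) ^ 2) + 2 / (r ^ 2 * (1 + r) ^ 3))

/-- first derivative at `0` -/
noncomputable def h1 (r m : ℝ) : ℝ := -m / (r * (1 + r) ^ 2)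

lemma h2_add {r u v : ℝ} (hr : 0 < r) (huv : u ^ 2 + v ^ 2 = r ^ 2) :
    h2 r u + h2 r v = (r - 1) / (r * (1 + r) ^ 3) := by
  unfold h2
  have hv : v ^ 2 = r ^ 2 - u ^ 2 := by linarith
  rw [hv]
  field_simp
  ring

lemma alg_identity {β μ ρ r s u v : ℝ} (hρ : 0 < ρ) (hr : 0 < r) (hs : 0 < s)
    (hsu : s ^ 2 = r ^ 2 - 2 * ρ * u + ρ ^ 2) (huv : u ^ 2 + v ^ 2 = r ^ 2) :
    (ρ * h1 r u + β * ρ ^ 2 * h2 r v + μ * ρ ^ 2 * (h2 r u + h2 r v) -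
      (1 / (1 + r) - 1 / (1 + s))) * (r * (1 + r) ^ 3) =
    β * (-ρ ^ 2 * (1 + r) + (3 * r + 1) * (ρ ^ 2 - (s - r) ^ 2) *
      (1 + (s - r) / r - (ρ ^ 2 - (s - r) ^ 2) / (4 * r ^ 2))) + μ * ρ ^ 2 * (r - 1) -
      (ρ ^ 2 - (s - r) ^ 2) * (1 + r) / 2 + (s - r) ^ 2 * (r * (1 + r)) / (1 + s) := by
  rw [h2_add hr huv]
  have hu : u = (r ^ 2 + ρ ^ 2 - s ^ 2) / (2 * ρ) := by field_simp; linarith
  have hv : v ^ 2 = r ^ 2 - ((r ^ 2 + ρ ^ 2 - s ^ 2) / (2 * ρ)) ^ 2 := by rw [← hu]; linarith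
  unfold h1 h2
  rw [hv, hu]
  field_simp
  ring

lemma x_sq_le {ρ r s u v : ℝ} (hρ : 0 < ρ) (hr : 0 < r) (hs : 0 < s) (hsr : ρ < r + s)
    (hsu : s ^ 2 = r ^ 2 - 2 * ρ * u + ρ ^ 2) (huv : u ^ 2 + v ^ 2 = r ^ 2) :
    (s - r) ^ 2 ≤ ρ ^ 2 := by
  have h1 : 4 * ρ ^ 2 * v ^ 2 = (ρ ^ 2 - (s - r) ^ 2) * ((r + s) ^ 2 - ρ ^ 2) := by
    have hu : 2 * ρ * u = r ^ 2 + ρ ^ 2 - s ^ 2 := by linarith
    have : 4 * ρ ^ 2 * v ^ 2 = 4 * ρ ^ 2 * r ^ 2 - (2 * ρ * u) ^ 2 := by nlinarith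
    rw [this, hu]; ring
  have h2 : 0 < (r + s) ^ 2 - ρ ^ 2 := by nlinarith
  have h3 : 0 ≤ (ρ ^ 2 - (s - r) ^ 2) * ((r + s) ^ 2 - ρ ^ 2) := by rw [← h1]; positivity
  have h4 : 0 ≤ ρ ^ 2 - (s - r) ^ 2 := nonneg_of_mul_nonneg_left h3 h2
  linarith

lemma poly1 {r x : ℝ} (hr : 1 ≤ r) (hx : x ^ 2 ≤ 1) (hs : 2 ≤ r + x) :
    0 ≤ 56 * r ^ 3 + 60 * x * r ^ 2 - 96 * r ^ 2 + 20 * x * r - 5 * (3 * r + 1) * (1 - x ^ 2) := by
  obtain ⟨y, rfl⟩ : ∃ y, r = 2 - x + y := ⟨r + x - 2, by ring⟩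
  have hy : 0 ≤ y := by linarith
  have hx1 : 0 ≤ 1 - x := by nlinarith
  have hx2 : 0 ≤ 1 + x := by nlinarith
  nlinarith [mul_nonneg hy hx1, mul_nonneg hy hx2, mul_nonneg hx1 hx2, mul_nonneg hy (mul_nonneg hx1 hx2), mul_nonneg (mul_nonneg hy hy) hx1, mul_nonneg (mul_nonneg hy hy) hx2, mul_nonneg hy (mul_nonneg hy hy), mul_nonneg hx1 (mul_nonneg hx1 hx2), sq_nonneg x, sq_nonneg y, mul_nonneg hx1 (sq_nonneg x), mul_nonneg hx2 (sq_nonneg x)]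


lemma polyB {r x : ℝ} (hr : 1 ≤ r) (hx : x ^ 2 ≤ 1) (hs : 2 ≤ r + x) :
    0 ≤ (9 * r / 20 - 19 / 20) + r * (1 + r) / (1 + (r + x)) := by
  have hx1 : x ≤ 1 := by nlinarith
  rw [← sub_nonneg, sub_zero]
  have h1 : 0 < 1 + (r + x) := by linarith
  have : (9 * r / 20 - 19 / 20) + r * (1 + r) / (1 + (r + x)) =
      ((9 * r / 20 - 19 / 20) * (1 + (r + x)) + r * (1 + r)) / (1 + (r + x)) := by
    field_simp
  rw [this]
  apply div_nonneg _ h1.le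
  by_cases hc : 9 * r / 20 - 19 / 20 ≤ 0
  · nlinarith [mul_nonneg (sub_nonneg.mpr hc) (sub_nonneg.mpr hx1)]
  · push Not at hc
    nlinarith [mul_pos hc h1]

/-- Pointwise inequality, interior case. -/
lemma pointwise_interior {ρ r s u v : ℝ} (hρ : 0 < ρ) (hρ1 : ρ ≤ 1) (hr : 1 ≤ r) (hs : 2 ≤ s)
    (hsu : s ^ 2 = r ^ 2 - 2 * ρ * u + ρ ^ 2) (huv : u ^ 2 + v ^ 2 = r ^ 2) :
    1 / (1 + r) - 1 / (1 + s) ≤
      ρ * h1 r u + 1 / 4 * ρ ^ 2 * h2 r v + 7 / 10 * ρ ^ 2 * (h2 r u + h2 r v) := by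
  have hr0 : 0 < r := by linarith
  have hs0 : 0 < s := by linarith
  have hid := alg_identity (β := 1 / 4) (μ := 7 / 10) hρ hr0 hs0 hsu huv
  have hx := x_sq_le hρ hr0 hs0 (by linarith) hsu huv
  have hpos : 0 < r * (1 + r) ^ 3 := by positivity
  suffices h : 0 ≤ 1 / 4 * (-ρ ^ 2 * (1 + r) + (3 * r + 1) * (ρ ^ 2 - (s - r) ^ 2) *
      (1 + (s - r) / r - (ρ ^ 2 - (s - r) ^ 2) / (4 * r ^ 2))) + 7 / 10 * ρ ^ 2 * (r - 1) -
      (ρ ^ 2 - (s - r) ^ 2) * (1 + r) / 2 + (s - r) ^ 2 * (r * (1 + r)) / (1 + s) by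
    rw [← hid] at h
    have := nonneg_of_mul_nonneg_left h hpos
    linarith
  obtain ⟨x, rfl⟩ : ∃ x, s = r + x := ⟨s - r, by ring⟩
  have e : r + x - r = x := by ring
  rw [e] at hx ⊢
  set W : ℝ := ρ ^ 2 - x ^ 2 with hW
  have hW0 : 0 ≤ W := by linarith
  have hρ2 : ρ ^ 2 = W + x ^ 2 := by rw [hW]; ring
  have hρ2' : ρ ^ 2 ≤ 1 := by nlinarith
  have hW1 : W ≤ 1 - x ^ 2 := by linarith
  have hx1 : x ^ 2 ≤ 1 := by linarith
  have hA : 0 ≤ 1 / 4 * (-(1 + r) + (3 * r + 1) * (1 + x / r - W / (4 * r ^ 2))) +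
      7 / 10 * (r - 1) - (1 + r) / 2 := by
    have h1 : 0 ≤ 1 / 4 * (-(1 + r) + (3 * r + 1) * (1 + x / r - (1 - x ^ 2) / (4 * r ^ 2))) +
      7 / 10 * (r - 1) - (1 + r) / 2 := by
      have : 1 / 4 * (-(1 + r) + (3 * r + 1) * (1 + x / r - (1 - x ^ 2) / (4 * r ^ 2))) +
        7 / 10 * (r - 1) - (1 + r) / 2 =
        (56 * r ^ 3 + 60 * x * r ^ 2 - 96 * r ^ 2 + 20 * x * r - 5 * (3 * r + 1) * (1 - x ^ 2)) /
          (80 * r ^ 2) := by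
        field_simp
        ring
      rw [this]
      exact div_nonneg (poly1 hr hx1 hs) (by positivity)
    have h2 : W / (4 * r ^ 2) ≤ (1 - x ^ 2) / (4 * r ^ 2) := by gcongr
    nlinarith [mul_le_mul_of_nonneg_left h2 (show 0 ≤ 3 * r + 1 by linarith)]
  have hB := polyB hr hx1 hs
  have key : 1 / 4 * (-ρ ^ 2 * (1 + r) + (3 * r + 1) * W *
      (1 + x / r - W / (4 * r ^ 2))) + 7 / 10 * ρ ^ 2 * (r - 1) -
      W * (1 + r) / 2 + x ^ 2 * (r * (1 + r)) / (1 + (r + x)) =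
      W * (1 / 4 * (-(1 + r) + (3 * r + 1) * (1 + x / r - W / (4 * r ^ 2))) +
      7 / 10 * (r - 1) - (1 + r) / 2) +
      x ^ 2 * ((9 * r / 20 - 19 / 20) + r * (1 + r) / (1 + (r + x))) := by
    rw [hρ2]
    ring
  rw [key]
  exact add_nonneg (mul_nonneg hW0 hA) (mul_nonneg (sq_nonneg x) hB)

lemma c3 {x : ℝ} (h1 : x ≤ 1 / 2) :
    0 ≤ 124 + 6 * x + 224 * x ^ 2 - 448 * x ^ 3 := by
  nlinarith [mul_nonneg (sub_nonneg.mpr h1) (sq_nonneg x)]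

lemma c2 {x : ℝ} (h1 : x ≤ 1 / 2) (h2 : -(1 / 2) ≤ x) :
    0 ≤ 2693 / 8 + 100 * x + 1459 / 2 * x ^ 2 - 3064 * x ^ 3 + 984 * x ^ 4 := by
  nlinarith [mul_nonneg (sub_nonneg.mpr h1) (sq_nonneg x), sq_nonneg (x ^ 2),
    mul_nonneg (sub_nonneg.mpr h1) (neg_le_iff_add_nonneg.mp h2)]

lemma c1 {x : ℝ} (h1 : x ≤ 1 / 2) (h2 : -(1 / 2) ≤ x) :
    0 ≤ 366 + 3115 / 8 * x + 918 * x ^ 2 - 13887 / 2 * x ^ 3 + 4520 * x ^ 4 - 720 * x ^ 5 := by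
  obtain ⟨a, rfl⟩ : ∃ a, x = 1 / 2 - a := ⟨1 / 2 - x, by ring⟩
  have ha : 0 ≤ a := by linarith
  have hb : 0 ≤ 1 - a := by linarith
  nlinarith [mul_nonneg ha hb, mul_nonneg ha (mul_nonneg ha hb),
    mul_nonneg (mul_nonneg ha ha) (mul_nonneg ha hb),
    mul_nonneg (mul_nonneg ha ha) (mul_nonneg (mul_nonneg ha ha) hb),
    mul_nonneg (mul_nonneg ha ha) (mul_nonneg hb hb), mul_nonneg (mul_nonneg ha hb) hb,
    mul_nonneg (mul_nonneg ha hb) (mul_nonneg hb hb)]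

lemma c0 {x : ℝ} (h1 : x ≤ 1 / 2) (h2 : -(1 / 2) ≤ x) :
    0 ≤ 963 / 8 + 3441 / 8 * x + 585 / 2 * x ^ 2 - 10381 / 2 * x ^ 3 + 5184 * x ^ 4 -
      1680 * x ^ 5 + 160 * x ^ 6 := by
  obtain ⟨a, rfl⟩ : ∃ a, x = 1 / 2 - a := ⟨1 / 2 - x, by ring⟩
  have ha : 0 ≤ a := by linarith
  have hb : 0 ≤ 1 - a := by linarith
  nlinarith [mul_nonneg ha hb, mul_nonneg ha (mul_nonneg ha hb),
    mul_nonneg (mul_nonneg ha ha) (mul_nonneg ha hb),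
    mul_nonneg (mul_nonneg ha ha) (mul_nonneg (mul_nonneg ha ha) hb),
    mul_nonneg (mul_nonneg ha ha) (mul_nonneg hb hb), mul_nonneg (mul_nonneg ha hb) hb,
    mul_nonneg (mul_nonneg ha hb) (mul_nonneg hb hb), sq_nonneg (a ^ 3), sq_nonneg (a ^ 2 - a)]

lemma polyI {r x : ℝ} (hx : x ^ 2 ≤ 1 / 4) (hs : 2 ≤ r + x) :
    0 ≤ (1 / 4 - x ^ 2) * (64 * r ^ 3 + (216 * x - 80) * r ^ 2 + 72 * x * r - 9 / 2 * (3 * r + 1)) *
      (1 + r + x) + 160 * x ^ 2 * r ^ 2 * (1 + r) * (r - 9 / 20 * (1 + r + x)) := by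
  obtain ⟨y, rfl⟩ : ∃ y, r = 2 - x + y := ⟨r + x - 2, by ring⟩
  have hy : 0 ≤ y := by linarith
  have hx1 : x ≤ 1 / 2 := by nlinarith
  have hx2 : -(1 / 2) ≤ x := by nlinarith
  have e0 := c0 hx1 hx2
  have e1 := mul_nonneg (c1 hx1 hx2) hy
  have e2 := mul_nonneg (c2 hx1 hx2) (pow_nonneg hy 2)
  have e3 := mul_nonneg (c3 hx1) (pow_nonneg hy 3)
  have e4 : 0 ≤ (16 + 24 * x ^ 2) * y ^ 4 := by positivity
  have := add_nonneg (add_nonneg (add_nonneg (add_nonneg e0 e1) e2) e3) e4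
  refine this.trans (le_of_eq ?_)
  ring

/-- Pointwise inequality, boundary case. -/
lemma pointwise_boundary {r s u v : ℝ} (hr : 0 < r) (hs : 2 ≤ s)
    (hsu : s ^ 2 = r ^ 2 - 2 * (1 / 2) * u + (1 / 2) ^ 2) (huv : u ^ 2 + v ^ 2 = r ^ 2) :
    1 / (1 + r) - 1 / (1 + s) ≤
      1 / 2 * h1 r u + 9 / 20 * (1 / 2) ^ 2 * h2 r v := by
  have hs0 : 0 < s := by linarith
  have hid := alg_identity (β := 9 / 20) (μ := 0) (ρ := 1 / 2) (by norm_num) hr hs0 hsu huv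
  have hx := x_sq_le (ρ := 1 / 2) (by norm_num) hr hs0 (by linarith) hsu huv
  have hpos : 0 < r * (1 + r) ^ 3 := by positivity
  suffices h : 0 ≤ 9 / 20 * (-(1 / 2) ^ 2 * (1 + r) + (3 * r + 1) * ((1 / 2) ^ 2 - (s - r) ^ 2) *
      (1 + (s - r) / r - ((1 / 2) ^ 2 - (s - r) ^ 2) / (4 * r ^ 2))) +
      0 * (1 / 2) ^ 2 * (r - 1) -
      ((1 / 2) ^ 2 - (s - r) ^ 2) * (1 + r) / 2 + (s - r) ^ 2 * (r * (1 + r)) / (1 + s) by
    rw [← hid] at h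
    have := nonneg_of_mul_nonneg_left h hpos
    linarith
  obtain ⟨x, rfl⟩ : ∃ x, s = r + x := ⟨s - r, by ring⟩
  have e : r + x - r = x := by ring
  rw [e] at hx ⊢
  have hx4 : x ^ 2 ≤ 1 / 4 := by linarith
  have h1 : 0 < 1 + r + x := by linarith
  have hp := polyI hx4 hs
  -- lower bound of the bracket
  have hle : (1 / 4 - x ^ 2) * (9 / 20 * (-(1 + r) + (3 * r + 1) *
      (1 + x / r - 1 / 4 / (4 * r ^ 2))) - (1 + r) / 2) +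
      x ^ 2 * (-(9 / 20) * (1 + r) + r * (1 + r) / (1 + r + x)) ≤
      9 / 20 * (-(1 / 2) ^ 2 * (1 + r) + (3 * r + 1) * ((1 / 2) ^ 2 - x ^ 2) *
      (1 + x / r - ((1 / 2) ^ 2 - x ^ 2) / (4 * r ^ 2))) +
      0 * (1 / 2) ^ 2 * (r - 1) -
      ((1 / 2) ^ 2 - x ^ 2) * (1 + r) / 2 + x ^ 2 * (r * (1 + r)) / (1 + (r + x)) := by
    have hq : ((1 / 2) ^ 2 - x ^ 2) / (4 * r ^ 2) ≤ 1 / 4 / (4 * r ^ 2) := by
      gcongr
      nlinarith [sq_nonneg x]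
    have hq2 : 0 ≤ (3 * r + 1) * (1 / 4 - x ^ 2) := mul_nonneg (by linarith) (by linarith)
    have hq3 := mul_le_mul_of_nonneg_left hq hq2
    have e2 : 1 + (r + x) = 1 + r + x := by ring
    rw [e2]
    have e3 : x ^ 2 * (r * (1 + r)) / (1 + r + x) = x ^ 2 * (r * (1 + r) / (1 + r + x)) := by
      ring
    rw [e3]
    nlinarith
  refine le_trans ?_ hle
  have : (1 / 4 - x ^ 2) * (9 / 20 * (-(1 + r) + (3 * r + 1) *
      (1 + x / r - 1 / 4 / (4 * r ^ 2))) - (1 + r) / 2) +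
      x ^ 2 * (-(9 / 20) * (1 + r) + r * (1 + r) / (1 + r + x)) =
      ((1 / 4 - x ^ 2) * (64 * r ^ 3 + (216 * x - 80) * r ^ 2 + 72 * x * r -
        9 / 2 * (3 * r + 1)) *
      (1 + r + x) + 160 * x ^ 2 * r ^ 2 * (1 + r) * (r - 9 / 20 * (1 + r + x))) /
      (160 * r ^ 2 * (1 + r + x)) := by
    field_simp
    ring
  rw [this]
  exact div_nonneg hp (by positivity)

lemma second_deriv_test {f f' : ℝ → ℝ} {D : ℝ} (hf : ∀ᶠ t in 𝓝 (0 : ℝ), HasDerivAt f (f' t) t)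
    (hf' : HasDerivAt f' D 0) (hmax : IsLocalMax f 0) : f' 0 = 0 ∧ D ≤ 0 := by
  have h0 : f' 0 = 0 := hmax.hasDerivAt_eq_zero hf.self_of_nhds
  refine ⟨h0, ?_⟩
  by_contra hD
  push Not at hD
  have hslope := (hasDerivAt_iff_tendsto_slope.mp hf').eventually (eventually_gt_nhds hD)
  have hpos : ∀ᶠ t in 𝓝[>] (0 : ℝ), 0 < f' t := by
    have h1 : ∀ᶠ t in 𝓝[>] (0 : ℝ), 0 < slope f' 0 t :=
      hslope.filter_mono (nhdsWithin_mono _ (fun t ht => ne_of_gt ht))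
    filter_upwards [h1, self_mem_nhdsWithin] with t ht htpos
    rw [slope_def_field, h0, sub_zero, sub_zero] at ht
    have htpos' : (0 : ℝ) < t := htpos
    exact (div_pos_iff_of_pos_right htpos').mp ht
  have hall : ∀ᶠ t in 𝓝[>] (0 : ℝ), 0 < f' t ∧ HasDerivAt f (f' t) t ∧ f t ≤ f 0 :=
    hpos.and ((hf.filter_mono nhdsWithin_le_nhds).and (hmax.filter_mono nhdsWithin_le_nhds))
  obtain ⟨ε, hε, hall'⟩ := (mem_nhdsGT_iff_exists_Ioo_subset).mp hall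
  have hε' : (0 : ℝ) < ε := hε
  set a : ℝ := ε / 2 with ha
  have ha0 : 0 < a := by positivity
  have haε : a < ε := by rw [ha]; linarith
  have hmono : StrictMonoOn f (Set.Icc 0 a) := by
    refine strictMonoOn_of_deriv_pos (convex_Icc 0 a) ?_ ?_
    · intro t ht
      rcases eq_or_lt_of_le ht.1 with h | h
      · rw [← h]; exact hf.self_of_nhds.continuousAt.continuousWithinAt
      · exact (hall' ⟨h, lt_of_le_of_lt ht.2 haε⟩).2.1.continuousAt.continuousWithinAt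
    · intro t ht
      rw [interior_Icc] at ht
      have := hall' (show t ∈ Set.Ioo 0 ε from ⟨ht.1, ht.2.trans haε⟩)
      rw [this.2.1.deriv]
      exact this.1
  have h1 := hmono (Set.left_mem_Icc.mpr ha0.le) (Set.right_mem_Icc.mpr ha0.le) ha0
  have h2 := (hall' (show a ∈ Set.Ioo 0 ε from ⟨ha0, haε⟩)).2.2
  linarith

lemma hasDerivAt_q (r m t : ℝ) :
    HasDerivAt (fun t : ℝ => r ^ 2 + 2 * m * t + t ^ 2) (2 * m + 2 * t) t := by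
  have h1 : HasDerivAt (fun t : ℝ => r ^ 2 + 2 * m * t) (2 * m) t := by
    have := ((hasDerivAt_id t).const_mul (2 * m)).const_add (r ^ 2)
    exact this.congr_deriv (by ring)
  have h2 : HasDerivAt (fun t : ℝ => t ^ 2) (2 * t) t :=
    (hasDerivAt_pow 2 t).congr_deriv (by norm_num)
  exact h1.fun_add h2

lemma hasDerivAt_K {r m t : ℝ} (hq : 0 < r ^ 2 + 2 * m * t + t ^ 2) :
    HasDerivAt (fun t : ℝ => 1 / (1 + √(r ^ 2 + 2 * m * t + t ^ 2)))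
      (-(m + t) / (√(r ^ 2 + 2 * m * t + t ^ 2) * (1 + √(r ^ 2 + 2 * m * t + t ^ 2)) ^ 2)) t := by
  have hs := (hasDerivAt_q r m t).sqrt hq.ne'
  have hs1 := hs.const_add 1
  have hpos : 0 < 1 + √(r ^ 2 + 2 * m * t + t ^ 2) := by positivity
  have hsq : 0 < √(r ^ 2 + 2 * m * t + t ^ 2) := Real.sqrt_pos.mpr hq
  have hinv := hs1.fun_inv hpos.ne'
  have e : (fun t : ℝ => 1 / (1 + √(r ^ 2 + 2 * m * t + t ^ 2))) =
      fun t : ℝ => (1 + √(r ^ 2 + 2 * m * t + t ^ 2))⁻¹ := by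
    funext t; rw [one_div]
  rw [e]
  refine hinv.congr_deriv ?_
  field_simp

lemma hasDerivAt_K' {r m : ℝ} (hr : 0 < r) :
    HasDerivAt (fun t : ℝ =>
      -(m + t) / (√(r ^ 2 + 2 * m * t + t ^ 2) * (1 + √(r ^ 2 + 2 * m * t + t ^ 2)) ^ 2))
      (h2 r m) 0 := by
  have e0 : √(r ^ 2 + 2 * m * 0 + 0 ^ 2) = r := by
    rw [mul_zero, add_zero, zero_pow two_ne_zero, add_zero, Real.sqrt_sq hr.le]
  have hq0 : r ^ 2 + 2 * m * 0 + 0 ^ 2 ≠ 0 := by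
    rw [mul_zero, add_zero, zero_pow two_ne_zero, add_zero]; positivity
  have hs : HasDerivAt (fun t : ℝ => √(r ^ 2 + 2 * m * t + t ^ 2)) (m / r) 0 := by
    have := (hasDerivAt_q r m 0).sqrt hq0
    rw [e0] at this
    refine this.congr_deriv ?_
    field_simp
    ring
  have hn : HasDerivAt (fun t : ℝ => -(m + t)) (-1) 0 := by
    have := ((hasDerivAt_id (0 : ℝ)).const_add m).fun_neg
    exact this
  have hd : HasDerivAt (fun t : ℝ =>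
      √(r ^ 2 + 2 * m * t + t ^ 2) * (1 + √(r ^ 2 + 2 * m * t + t ^ 2)) ^ 2)
      (m / r * (1 + r) ^ 2 + r * (2 * (1 + r) * (m / r))) 0 := by
    have h2 := (hs.const_add 1).fun_pow 2
    have h3 := hs.fun_mul h2
    simp only [e0] at h3
    refine h3.congr_deriv ?_
    norm_num
  have hdne : √(r ^ 2 + 2 * m * 0 + 0 ^ 2) * (1 + √(r ^ 2 + 2 * m * 0 + 0 ^ 2)) ^ 2 ≠ 0 := by
    rw [e0]; positivity
  have := hn.fun_div hd hdne
  simp only [e0] at this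
  refine this.congr_deriv ?_
  unfold h2
  field_simp
  ring

variable {ι : Type*} (T : Finset ι) (x r m : ι → ℝ)

/-- The potential along a line. -/
noncomputable def Phi (t : ℝ) : ℝ :=
  ∑ l ∈ T, x l * (1 / (1 + √(r l ^ 2 + 2 * m l * t + t ^ 2)))

lemma eventually_q_pos (hr : ∀ l ∈ T, 0 < r l) :
    ∀ᶠ t in 𝓝 (0 : ℝ), ∀ l ∈ T, 0 < r l ^ 2 + 2 * m l * t + t ^ 2 := by
  rw [Filter.eventually_all_finset]
  intro l hl
  have hc : Continuous (fun t : ℝ => r l ^ 2 + 2 * m l * t + t ^ 2) := by fun_prop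
  have h0 : 0 < r l ^ 2 + 2 * m l * 0 + 0 ^ 2 := by
    have := hr l hl
    rw [mul_zero, add_zero, zero_pow two_ne_zero, add_zero]; positivity
  exact hc.continuousAt.eventually (eventually_gt_nhds h0)

lemma Phi_hasDerivAt {t : ℝ} (ht : ∀ l ∈ T, 0 < r l ^ 2 + 2 * m l * t + t ^ 2) :
    HasDerivAt (Phi T x r m) (∑ l ∈ T, x l * (-(m l + t) / (√(r l ^ 2 + 2 * m l * t + t ^ 2) *
      (1 + √(r l ^ 2 + 2 * m l * t + t ^ 2)) ^ 2))) t := by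
  unfold Phi
  exact HasDerivAt.fun_sum fun l hl => (hasDerivAt_K (ht l hl)).const_mul (x l)

lemma deriv_zero_eq (hr : ∀ l ∈ T, 0 < r l) :
    (∑ l ∈ T, x l * (-(m l + 0) / (√(r l ^ 2 + 2 * m l * 0 + 0 ^ 2) *
      (1 + √(r l ^ 2 + 2 * m l * 0 + 0 ^ 2)) ^ 2))) = ∑ l ∈ T, x l * h1 (r l) (m l) := by
  refine Finset.sum_congr rfl fun l hl => ?_
  have e0 : √(r l ^ 2 + 2 * m l * 0 + 0 ^ 2) = r l := by
    rw [mul_zero, add_zero, zero_pow two_ne_zero, add_zero, Real.sqrt_sq (hr l hl).le]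
  rw [e0, add_zero]
  rfl

lemma Phi_first (hr : ∀ l ∈ T, 0 < r l) :
    HasDerivAt (Phi T x r m) (∑ l ∈ T, x l * h1 (r l) (m l)) 0 := by
  have h := Phi_hasDerivAt T x r m (t := 0) (fun l hl => by
    have := hr l hl
    rw [mul_zero, add_zero, zero_pow two_ne_zero, add_zero]; positivity)
  rwa [deriv_zero_eq T x r m hr] at h

lemma Phi_second (hr : ∀ l ∈ T, 0 < r l) (hmax : IsLocalMax (Phi T x r m) 0) :
    ∑ l ∈ T, x l * h1 (r l) (m l) = 0 ∧ ∑ l ∈ T, x l * h2 (r l) (m l) ≤ 0 := by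
  have h := second_deriv_test (f := Phi T x r m)
    (f' := fun t => ∑ l ∈ T, x l * (-(m l + t) / (√(r l ^ 2 + 2 * m l * t + t ^ 2) *
      (1 + √(r l ^ 2 + 2 * m l * t + t ^ 2)) ^ 2))) (D := ∑ l ∈ T, x l * h2 (r l) (m l))
    ?_ ?_ hmax
  · rwa [deriv_zero_eq T x r m hr] at h
  · filter_upwards [eventually_q_pos T r m hr] with t ht
    exact Phi_hasDerivAt T x r m ht
  · exact HasDerivAt.fun_sum fun l hl => (hasDerivAt_K' (hr l hl)).const_mul (x l)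

lemma Phi_onesided (hr : ∀ l ∈ T, 0 < r l)
    (hmax : ∀ᶠ t in 𝓝[>] (0 : ℝ), Phi T x r m t ≤ Phi T x r m 0) :
    ∑ l ∈ T, x l * h1 (r l) (m l) ≤ 0 := by
  have h := Phi_first T x r m hr
  have h2 : Tendsto (slope (Phi T x r m) 0) (𝓝[>] 0) (𝓝 (∑ l ∈ T, x l * h1 (r l) (m l))) :=
    (hasDerivAt_iff_tendsto_slope.mp h).mono_left
      (nhdsWithin_mono _ (fun t ht => ne_of_gt ht))
  refine le_of_tendsto h2 ?_
  filter_upwards [hmax, self_mem_nhdsWithin] with t ht htpos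
  have htpos' : (0 : ℝ) < t := htpos
  rw [slope_def_field, sub_zero]
  exact div_nonpos_of_nonpos_of_nonneg (by linarith) htpos'.le

end Pool.Agent.X155.Repulsion
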