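import Mathlib
import Pool.Agent.X155.RepulsionBase

/-!
# The repulsion matrix: a domination principle for the kernel `1/(1+|x-y|)` in the plane
-/

set_option autoImplicit false

open Filter Topology

namespace Pool.Agent.X155.Repulsion

lemma norm_line_sq {p d : ℂ} (hd : ‖d‖ = 1) (t : ℝ) :
    ‖p + t * d‖ ^ 2 = ‖p‖ ^ 2 + 2 * (p * (starRingEnd ℂ) d).re * t + t ^ 2 := by
  have h1 : d.re ^ 2 + d.im ^ 2 = 1 := by
    have := Complex.sq_norm d
    rw [hd, Complex.normSq_apply] at this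
    nlinarith
  rw [Complex.sq_norm, Complex.sq_norm, Complex.normSq_apply, Complex.normSq_apply]
  simp only [Complex.add_re, Complex.mul_re, Complex.ofReal_re, Complex.ofReal_im,
    Complex.add_im, Complex.mul_im, Complex.conj_re, Complex.conj_im]
  linear_combination t ^ 2 * h1

lemma norm_line {p d : ℂ} (hd : ‖d‖ = 1) (t : ℝ) :
    ‖p + t * d‖ = √(‖p‖ ^ 2 + 2 * (p * (starRingEnd ℂ) d).re * t + t ^ 2) := by
  rw [← norm_line_sq hd, Real.sqrt_sq (norm_nonneg _)]

variable {ι : Type*} (T : Finset ι) (x : ι → ℝ) (z : ι → ℂ)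

/-- The potential of the weights `x` on the points `z`. -/
noncomputable def U (w : ℂ) : ℝ := ∑ l ∈ T, x l * (1 / (1 + ‖w - z l‖))

lemma continuous_U : Continuous (U T x z) := by
  unfold U
  refine continuous_finsetSum _ fun l _ => continuous_const.mul ?_
  refine continuous_const.div (by fun_prop) fun w => ?_
  positivity

lemma U_line {d : ℂ} (hd : ‖d‖ = 1) (w : ℂ) (t : ℝ) :
    U T x z (w + t * d) =
      Phi T x (fun l => ‖w - z l‖) (fun l => ((w - z l) * (starRingEnd ℂ) d).re) t := by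
  unfold U Phi
  refine Finset.sum_congr rfl fun l _ => ?_
  rw [← norm_line hd]
  congr 4
  ring

lemma U_line_zero {d : ℂ} (hd : ‖d‖ = 1) (w : ℂ) :
    U T x z w =
      Phi T x (fun l => ‖w - z l‖) (fun l => ((w - z l) * (starRingEnd ℂ) d).re) 0 := by
  rw [← U_line T x z hd]
  simp

/-- components along `d` and `i d` -/
lemma comp_sq {p d : ℂ} (hd : ‖d‖ = 1) :
    (p * (starRingEnd ℂ) d).re ^ 2 + (p * (starRingEnd ℂ) (Complex.I * d)).re ^ 2 = ‖p‖ ^ 2 := by
  have h1 : d.re ^ 2 + d.im ^ 2 = 1 := by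
    have := Complex.sq_norm d
    rw [hd, Complex.normSq_apply] at this
    nlinarith
  rw [Complex.sq_norm, Complex.normSq_apply]
  simp only [Complex.mul_re, Complex.mul_im, Complex.conj_re, Complex.conj_im, Complex.I_re,
    Complex.I_im]
  linear_combination (p.re ^ 2 + p.im ^ 2) * h1

lemma norm_I_mul {d : ℂ} (hd : ‖d‖ = 1) : ‖Complex.I * d‖ = 1 := by
  rw [norm_mul, Complex.norm_I, hd, one_mul]

/-- The first and second order conditions at a maximum along the direction `d`. -/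
lemma second_cond {d : ℂ} (hd : ‖d‖ = 1) {w : ℂ} (hr : ∀ l ∈ T, 0 < ‖w - z l‖)
    (hmax : ∀ᶠ t : ℝ in 𝓝 0, U T x z (w + t * d) ≤ U T x z w) :
    ∑ l ∈ T, x l * h1 ‖w - z l‖ ((w - z l) * (starRingEnd ℂ) d).re = 0 ∧
      ∑ l ∈ T, x l * h2 ‖w - z l‖ ((w - z l) * (starRingEnd ℂ) d).re ≤ 0 := by
  refine Phi_second T x _ _ hr ?_
  filter_upwards [hmax] with t ht
  rw [← U_line T x z hd, ← U_line_zero T x z hd]
  exact ht

lemma onesided_cond {d : ℂ} (hd : ‖d‖ = 1) {w : ℂ} (hr : ∀ l ∈ T, 0 < ‖w - z l‖)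
    (hmax : ∀ᶠ t : ℝ in 𝓝[>] 0, U T x z (w + t * d) ≤ U T x z w) :
    ∑ l ∈ T, x l * h1 ‖w - z l‖ ((w - z l) * (starRingEnd ℂ) d).re ≤ 0 := by
  refine Phi_onesided T x _ _ hr ?_
  filter_upwards [hmax] with t ht
  rw [← U_line T x z hd, ← U_line_zero T x z hd]
  exact ht

lemma eventually_far {w d : ℂ} {l : ι} (h : 1 / 2 < ‖w - z l‖) :
    ∀ᶠ t : ℝ in 𝓝 0, 1 / 2 ≤ ‖w + t * d - z l‖ := by
  have hc : Continuous (fun t : ℝ => ‖w + t * d - z l‖) := by fun_prop
  have h0 : 1 / 2 < (fun t : ℝ => ‖w + t * d - z l‖) 0 := by simpa using h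
  filter_upwards [hc.continuousAt.eventually (eventually_gt_nhds h0)] with t ht
  exact ht.le

/-- **Domination principle.** If the potential of nonnegative weights on a `2`-separated set is at
most `1` on that set, it is at most `1` at every point at distance at least `2` from the set. -/
theorem domination (hx : ∀ l ∈ T, 0 ≤ x l)
    (hz : ∀ i ∈ T, ∀ j ∈ T, i ≠ j → 2 ≤ ‖z i - z j‖) (hU : ∀ j ∈ T, U T x z (z j) ≤ 1)
    {z0 : ℂ} (h0 : ∀ l ∈ T, 2 ≤ ‖z0 - z l‖) : U T x z z0 ≤ 1 := by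
  by_contra hgt
  push Not at hgt
  -- the compact set
  set Om : Set ℂ := {w | ∀ l ∈ T, 1 / 2 ≤ ‖w - z l‖} with hOm
  set S : Set ℂ := {w | w ∈ Om ∧ U T x z z0 ≤ U T x z w} with hS
  set M : ℝ := ∑ l ∈ T, x l with hM
  set R : ℝ := ∑ l ∈ T, ‖z l‖ with hR
  have hM0 : 0 ≤ M := Finset.sum_nonneg hx
  have hOmc : IsClosed Om := by
    have : Om = ⋂ l ∈ T, {w | 1 / 2 ≤ ‖w - z l‖} := by
      ext w; simp [hOm]
    rw [this]
    exact isClosed_biInter fun l _ => isClosed_le continuous_const (by fun_prop)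
  have hSc : IsClosed S := hOmc.inter (isClosed_le continuous_const (continuous_U T x z))
  have hSb : S ⊆ Metric.closedBall 0 (R + M) := by
    rintro w ⟨_, hw⟩
    rw [mem_closedBall_zero_iff]
    by_contra hbig
    push Not at hbig
    have hle : U T x z w ≤ ∑ l ∈ T, x l * (1 / (1 + M)) := by
      unfold U
      refine Finset.sum_le_sum fun l hl => mul_le_mul_of_nonneg_left ?_ (hx l hl)
      refine one_div_le_one_div_of_le (by linarith) ?_
      have h1 : ‖z l‖ ≤ R := Finset.single_le_sum (f := fun l => ‖z l‖)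
        (fun i _ => norm_nonneg _) hl
      have h2 : ‖w‖ - ‖z l‖ ≤ ‖w - z l‖ := norm_sub_norm_le _ _
      linarith
    rw [← Finset.sum_mul, ← hM] at hle
    have h3 : M * (1 / (1 + M)) < 1 := by
      rw [mul_one_div, div_lt_one (by linarith)]
      linarith
    linarith
  have hScomp : IsCompact S := (isCompact_closedBall 0 (R + M)).of_isClosed_subset hSc hSb
  have hz0S : z0 ∈ S := ⟨fun l hl => by linarith [h0 l hl], le_rfl⟩
  obtain ⟨w, hwS, hwmax⟩ := hScomp.exists_isMaxOn ⟨z0, hz0S⟩ (continuous_U T x z).continuousOn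
  have hwOm : w ∈ Om := hwS.1
  have hw1 : 1 < U T x z w := lt_of_lt_of_le hgt hwS.2
  have hmax : ∀ w' ∈ Om, U T x z w' ≤ U T x z w := by
    intro w' hw'
    by_cases h : U T x z z0 ≤ U T x z w'
    · exact hwmax ⟨hw', h⟩
    · push Not at h; linarith [hwS.2]
  -- the nearest point
  have hTne : T.Nonempty := by
    rw [Finset.nonempty_iff_ne_empty]
    rintro rfl
    simp [U] at hw1
    linarith
  obtain ⟨j, hj, hjmin⟩ := Finset.exists_min_image T (fun l => ‖w - z l‖) hTne
  set ρ : ℝ := ‖w - z j‖ with hρ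
  have hρ2 : 1 / 2 ≤ ρ := hwOm j hj
  have hρ0 : 0 < ρ := by linarith
  have hr : ∀ l ∈ T, 0 < ‖w - z l‖ := fun l hl => by linarith [hwOm l hl]
  rcases lt_or_ge 1 ρ with hρ1 | hρ1
  · -- all distances are larger than one
    have hfar : ∀ d : ℂ, ∀ᶠ t : ℝ in 𝓝 0, U T x z (w + t * d) ≤ U T x z w := by
      intro d
      have : ∀ᶠ t : ℝ in 𝓝 0, ∀ l ∈ T, 1 / 2 ≤ ‖w + t * d - z l‖ := by
        rw [Filter.eventually_all_finset]
        exact fun l hl => eventually_far z (by linarith [hjmin l hl])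
      filter_upwards [this] with t ht
      exact hmax _ ht
    have hd1 : ‖(1 : ℂ)‖ = 1 := norm_one
    have c1 := (second_cond T x z hd1 hr (hfar 1)).2
    have c2 := (second_cond T x z (norm_I_mul hd1) hr (hfar (Complex.I * 1))).2
    have hsum : ∑ l ∈ T, x l * ((‖w - z l‖ - 1) / (‖w - z l‖ * (1 + ‖w - z l‖) ^ 3)) ≤ 0 := by
      calc _ = ∑ l ∈ T, (x l * h2 ‖w - z l‖ ((w - z l) * (starRingEnd ℂ) 1).re +
            x l * h2 ‖w - z l‖ ((w - z l) * (starRingEnd ℂ) (Complex.I * 1)).re) := by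
            refine Finset.sum_congr rfl fun l hl => ?_
            rw [← mul_add, h2_add (hr l hl) (comp_sq hd1)]
        _ ≤ 0 := by rw [Finset.sum_add_distrib]; linarith
    have hterm : ∀ l ∈ T, 0 ≤ x l * ((‖w - z l‖ - 1) / (‖w - z l‖ * (1 + ‖w - z l‖) ^ 3)) := by
      intro l hl
      have h1 : 1 < ‖w - z l‖ := lt_of_lt_of_le hρ1 (hjmin l hl)
      exact mul_nonneg (hx l hl) (div_nonneg (by linarith) (by positivity))
    have hz' := (Finset.sum_eq_zero_iff_of_nonneg hterm).mp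
      (le_antisymm hsum (Finset.sum_nonneg hterm))
    have hx0 : ∀ l ∈ T, x l = 0 := by
      intro l hl
      have h1 : 1 < ‖w - z l‖ := lt_of_lt_of_le hρ1 (hjmin l hl)
      have h2 : 0 < (‖w - z l‖ - 1) / (‖w - z l‖ * (1 + ‖w - z l‖) ^ 3) :=
        div_pos (by linarith) (by positivity)
      rcases mul_eq_zero.mp (hz' l hl) with h | h
      · exact h
      · exact absurd h h2.ne'
    have : U T x z w = 0 := by
      unfold U
      exact Finset.sum_eq_zero fun l hl => by rw [hx0 l hl, zero_mul]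
    linarith
  -- the nearest point is at distance at most one
  have hother : ∀ l ∈ T, l ≠ j → 2 - ρ ≤ ‖w - z l‖ := by
    intro l hl hlj
    have h1 := hz j hj l hl (Ne.symm hlj)
    have h2 : ‖z j - z l‖ ≤ ‖w - z l‖ + ‖w - z j‖ := by
      have : z j - z l = (w - z l) - (w - z j) := by ring
      rw [this]
      exact norm_sub_le _ _
    linarith
  set e : ℂ := (w - z j) / ρ with he
  have hρC : (ρ : ℂ) ≠ 0 := by exact_mod_cast hρ0.ne'
  have he1 : ‖e‖ = 1 := by
    rw [he, norm_div, Complex.norm_real, Real.norm_of_nonneg hρ0.le, ← hρ, div_self hρ0.ne']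
  have hwe : w - z j = ρ * e := by rw [he]; field_simp
  have hee : e * (starRingEnd ℂ) e = 1 := by
    rw [Complex.mul_conj, Complex.normSq_eq_norm_sq, he1]; simp
  -- quantities for `l = j`
  have huj : ((w - z j) * (starRingEnd ℂ) e).re = ρ := by
    rw [hwe, mul_assoc, hee]; simp
  have hvj : ((w - z j) * (starRingEnd ℂ) (Complex.I * e)).re = 0 := by
    rw [hwe, map_mul, Complex.conj_I]
    have : (ρ : ℂ) * e * (-Complex.I * (starRingEnd ℂ) e) = -Complex.I * ρ * (e * (starRingEnd ℂ) e) := by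
      ring
    rw [this, hee]; simp
  -- distance relation
  have hs : ∀ l, ‖z j - z l‖ ^ 2 = ‖w - z l‖ ^ 2 - 2 * ρ * ((w - z l) * (starRingEnd ℂ) e).re +
      ρ ^ 2 := by
    intro l
    have h1 : z j - z l = (w - z l) + ((-ρ : ℝ) : ℂ) * e := by
      rw [Complex.ofReal_neg, neg_mul, ← hwe]; ring
    rw [h1, norm_line_sq he1]
    ring
  have hUdiff : U T x z w - U T x z (z j) =
      ∑ l ∈ T, x l * (1 / (1 + ‖w - z l‖) - 1 / (1 + ‖z j - z l‖)) := by
    unfold U
    rw [← Finset.sum_sub_distrib]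
    exact Finset.sum_congr rfl fun l _ => by ring
  rcases eq_or_lt_of_le hρ2 with hb | hb
  · -- boundary case
    have hfar : ∀ᶠ t : ℝ in 𝓝 0, U T x z (w + t * (Complex.I * e)) ≤ U T x z w := by
      have : ∀ᶠ t : ℝ in 𝓝 0, ∀ l ∈ T, 1 / 2 ≤ ‖w + t * (Complex.I * e) - z l‖ := by
        rw [Filter.eventually_all_finset]
        intro l hl
        by_cases hlj : l = j
        · subst hlj
          refine Eventually.of_forall fun t => ?_
          have h1 : w + t * (Complex.I * e) - z l = (w - z l) + t * (Complex.I * e) := by ring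
          have h2 : ‖w + t * (Complex.I * e) - z l‖ ^ 2 = ρ ^ 2 + t ^ 2 := by
            rw [h1, norm_line_sq (norm_I_mul he1), hvj]; ring
          have h3 : 0 ≤ ‖w + t * (Complex.I * e) - z l‖ := norm_nonneg _
          nlinarith [sq_nonneg t]
        · exact eventually_far z (by linarith [hother l hl hlj])
      filter_upwards [this] with t ht
      exact hmax _ ht
    have hout : ∀ᶠ t : ℝ in 𝓝[>] 0, U T x z (w + t * e) ≤ U T x z w := by
      have : ∀ᶠ t : ℝ in 𝓝[>] 0, ∀ l ∈ T, 1 / 2 ≤ ‖w + t * e - z l‖ := by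
        rw [Filter.eventually_all_finset]
        intro l hl
        by_cases hlj : l = j
        · subst hlj
          filter_upwards [self_mem_nhdsWithin] with t ht
          have ht' : (0 : ℝ) < t := ht
          have h1 : w + t * e - z l = ((ρ + t : ℝ) : ℂ) * e := by
            rw [Complex.ofReal_add, add_mul, ← hwe]; ring
          rw [h1, norm_mul, he1, mul_one, Complex.norm_real, Real.norm_of_nonneg (by linarith)]
          linarith
        · exact (eventually_far z (by linarith [hother l hl hlj])).filter_mono nhdsWithin_le_nhds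
      filter_upwards [this] with t ht
      exact hmax _ ht
    have c1 := onesided_cond T x z he1 hr hout
    have c2 := (second_cond T x z (norm_I_mul he1) hr hfar).2
    have hfinal : U T x z w - U T x z (z j) ≤
        1 / 2 * ∑ l ∈ T, x l * h1 ‖w - z l‖ ((w - z l) * (starRingEnd ℂ) e).re +
        9 / 20 * (1 / 2) ^ 2 *
          ∑ l ∈ T, x l * h2 ‖w - z l‖ ((w - z l) * (starRingEnd ℂ) (Complex.I * e)).re := by
      rw [hUdiff, Finset.mul_sum, Finset.mul_sum, ← Finset.sum_add_distrib]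
      refine Finset.sum_le_sum fun l hl => ?_
      by_cases hlj : l = j
      · subst hlj
        rw [huj, hvj, sub_self, norm_zero, ← hρ, ← hb]
        have : (1 / (1 + 1 / 2) - 1 / (1 + 0) : ℝ) ≤
            1 / 2 * h1 (1 / 2) (1 / 2) + 9 / 20 * (1 / 2) ^ 2 * h2 (1 / 2) 0 := by
          unfold h1 h2; norm_num
        nlinarith [hx l hl]
      · have hp := pointwise_boundary (hr l hl) (hz j hj l hl (Ne.symm hlj))
          (by rw [hs l, ← hb]) (comp_sq (p := w - z l) he1)
        nlinarith [mul_le_mul_of_nonneg_left hp (hx l hl)]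
    linarith [hU j hj]
  · -- interior case
    have hfar : ∀ d : ℂ, ∀ᶠ t : ℝ in 𝓝 0, U T x z (w + t * d) ≤ U T x z w := by
      intro d
      have : ∀ᶠ t : ℝ in 𝓝 0, ∀ l ∈ T, 1 / 2 ≤ ‖w + t * d - z l‖ := by
        rw [Filter.eventually_all_finset]
        exact fun l hl => eventually_far z (lt_of_lt_of_le hb (hjmin l hl))
      filter_upwards [this] with t ht
      exact hmax _ ht
    have c1 := second_cond T x z he1 hr (hfar e)
    have c2 := second_cond T x z (norm_I_mul he1) hr (hfar (Complex.I * e))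
    have hfinal : U T x z w - U T x z (z j) ≤
        ρ * ∑ l ∈ T, x l * h1 ‖w - z l‖ ((w - z l) * (starRingEnd ℂ) e).re +
        1 / 4 * ρ ^ 2 *
          ∑ l ∈ T, x l * h2 ‖w - z l‖ ((w - z l) * (starRingEnd ℂ) (Complex.I * e)).re +
        7 / 10 * ρ ^ 2 * (∑ l ∈ T, x l * h2 ‖w - z l‖ ((w - z l) * (starRingEnd ℂ) e).re +
          ∑ l ∈ T, x l * h2 ‖w - z l‖ ((w - z l) * (starRingEnd ℂ) (Complex.I * e)).re) := by
      rw [hUdiff, ← Finset.sum_add_distrib, Finset.mul_sum, Finset.mul_sum, Finset.mul_sum,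
        ← Finset.sum_add_distrib, ← Finset.sum_add_distrib]
      refine Finset.sum_le_sum fun l hl => ?_
      by_cases hlj : l = j
      · subst hlj
        rw [huj, hvj, sub_self, norm_zero, ← hρ]
        have : (1 / (1 + ρ) - 1 / (1 + 0) : ℝ) ≤
            ρ * h1 ρ ρ + 1 / 4 * ρ ^ 2 * h2 ρ 0 + 7 / 10 * ρ ^ 2 * (h2 ρ ρ + h2 ρ 0) := by
          rw [h2_add hρ0 (by ring)]
          unfold h1 h2
          rw [← sub_nonneg]
          have : ρ * (-ρ / (ρ * (1 + ρ) ^ 2)) + 1 / 4 * ρ ^ 2 *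
              (-1 / (ρ * (1 + ρ) ^ 2) + 0 ^ 2 * (1 / (ρ ^ 3 * (1 + ρ) ^ 2) +
              2 / (ρ ^ 2 * (1 + ρ) ^ 3))) + 7 / 10 * ρ ^ 2 * ((ρ - 1) / (ρ * (1 + ρ) ^ 3)) -
              (1 / (1 + ρ) - 1 / (1 + 0)) =
              ρ * (ρ ^ 2 + 29 / 20 * ρ - 19 / 20) / (1 + ρ) ^ 3 := by
            field_simp
            ring
          rw [this]
          refine div_nonneg (mul_nonneg hρ0.le ?_) (by positivity)
          nlinarith
        nlinarith [mul_le_mul_of_nonneg_left this (hx l hl)]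
      · have hp := pointwise_interior hρ0 hρ1 (by linarith [hother l hl hlj])
          (hz j hj l hl (Ne.symm hlj)) (hs l) (comp_sq (p := w - z l) he1)
        nlinarith [mul_le_mul_of_nonneg_left hp (hx l hl)]
    rw [c1.1] at hfinal
    have hρsq : 0 < ρ ^ 2 := by positivity
    nlinarith [hU j hj, mul_nonneg hρsq.le (neg_nonneg.mpr c1.2),
      mul_nonneg hρsq.le (neg_nonneg.mpr c2.2)]

end Pool.Agent.X155.Repulsion
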