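import Mathlib
import Pool.Agent.X155.Repulsion

/-!
# The repulsion matrix: existence of a nonnegative solution
-/

set_option autoImplicit false

open Filter Topology Matrix

namespace Pool.Agent.X155.Repulsion

section KKT

variable {ι : Type*} [Fintype ι] [DecidableEq ι]

/-- The quadratic functional. -/
noncomputable def Q (B : Matrix ι ι ℝ) (x : ι → ℝ) : ℝ := 1 / 2 * (x ⬝ᵥ B *ᵥ x) - ∑ i, x i

omit [DecidableEq ι] in
lemma Q_lower {B : Matrix ι ι ℝ} (hB : ∀ i j, 0 ≤ B i j) (hd : ∀ i, B i i = 1) {x : ι → ℝ}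
    (hx : ∀ i, 0 ≤ x i) : ∑ i, (1 / 2 * x i ^ 2 - x i) ≤ Q B x := by
  unfold Q
  rw [Finset.sum_sub_distrib, ← Finset.mul_sum]
  have h1 : ∑ i, x i ^ 2 ≤ x ⬝ᵥ B *ᵥ x := by
    unfold dotProduct
    refine Finset.sum_le_sum fun i _ => ?_
    have h2 : x i ≤ (B *ᵥ x) i := by
      have h3 : B i i * x i ≤ ∑ j, B i j * x j :=
        Finset.single_le_sum (f := fun j => B i j * x j)
          (fun j _ => mul_nonneg (hB i j) (hx j)) (Finset.mem_univ i)
      rw [hd, one_mul] at h3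
      exact h3
    nlinarith [hx i]
  linarith

lemma Q_line {B : Matrix ι ι ℝ} (hs : B.IsSymm) (hd : ∀ i, B i i = 1) (x : ι → ℝ) (i : ι) (t : ℝ) :
    Q B (x + t • Pi.single i 1) = Q B x + t * ((B *ᵥ x) i - 1) + 1 / 2 * t ^ 2 := by
  unfold Q
  have h1 : ∑ j, (x + t • (Pi.single i (1 : ℝ) : ι → ℝ)) j = ∑ j, x j + t := by
    simp only [Pi.add_apply, Pi.smul_apply, smul_eq_mul, Finset.sum_add_distrib]
    rw [← Finset.mul_sum]
    simp
  rw [h1, Matrix.mulVec_add, Matrix.mulVec_smul, add_dotProduct, dotProduct_add, dotProduct_add,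
    smul_dotProduct, smul_dotProduct, dotProduct_smul, dotProduct_smul]
  have h2 : Pi.single i (1 : ℝ) ⬝ᵥ B *ᵥ x = (B *ᵥ x) i := by simp
  have h3 : Pi.single i (1 : ℝ) ⬝ᵥ B *ᵥ Pi.single i (1 : ℝ) = 1 := by
    simp [hd]
  have h4 : x ⬝ᵥ B *ᵥ Pi.single i (1 : ℝ) = (B *ᵥ x) i := by
    rw [dotProduct_mulVec, ← Matrix.mulVec_transpose, hs.eq, dotProduct_comm, h2]
  rw [h2, h3, h4]
  simp only [smul_eq_mul]
  ring

/-- Solution of the linear complementarity problem. -/
theorem exists_lcp {B : Matrix ι ι ℝ} (hs : B.IsSymm) (hB : ∀ i j, 0 ≤ B i j)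
    (hd : ∀ i, B i i = 1) :
    ∃ x : ι → ℝ, (∀ i, 0 ≤ x i) ∧ (∀ i, 1 ≤ (B *ᵥ x) i) ∧ (∀ i, 0 < x i → (B *ᵥ x) i ≤ 1) := by
  set n : ℝ := (Fintype.card ι : ℝ) with hn
  have hn0 : 0 ≤ n := Nat.cast_nonneg _
  set M : ℝ := n + 3 with hM
  have hcont : Continuous (Q B) := by
    unfold Q
    have h1 : Continuous (fun x : ι → ℝ => x ⬝ᵥ B *ᵥ x) := by
      unfold dotProduct Matrix.mulVec dotProduct
      fun_prop
    have h2 : Continuous (fun x : ι → ℝ => ∑ i, x i) := by fun_prop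
    exact (continuous_const.mul h1).sub h2
  have hcomp : IsCompact (Set.Icc (0 : ι → ℝ) (fun _ => M)) := isCompact_Icc
  obtain ⟨x, hxbox, hxmin⟩ := hcomp.exists_isMinOn
    ⟨0, ⟨le_rfl, fun i => by simp only [Pi.zero_apply]; linarith⟩⟩ hcont.continuousOn
  have hx0 : ∀ i, 0 ≤ x i := fun i => hxbox.1 i
  have hQ0 : Q B x ≤ 0 := by
    have h := hxmin (show (0 : ι → ℝ) ∈ Set.Icc (0 : ι → ℝ) (fun _ => M) from
      ⟨le_rfl, fun i => by simp only [Pi.zero_apply]; linarith⟩)
    have h0 : Q B (0 : ι → ℝ) = 0 := by simp [Q]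
    simpa [h0] using h
  have hglob : ∀ y : ι → ℝ, (∀ i, 0 ≤ y i) → Q B x ≤ Q B y := by
    intro y hy
    by_cases hbox : ∀ i, y i ≤ M
    · exact hxmin ⟨fun i => hy i, fun i => hbox i⟩
    · push Not at hbox
      obtain ⟨k, hk⟩ := hbox
      have h1 := Q_lower hB hd hy
      have h2 : ∑ i, (1 / 2 * y i ^ 2 - y i) ≥ (1 / 2 * M ^ 2 - M) + ∑ i ∈ Finset.univ.erase k,
          (-(1 / 2) : ℝ) := by
        rw [← Finset.add_sum_erase Finset.univ _ (Finset.mem_univ k)]
        refine add_le_add ?_ (Finset.sum_le_sum fun i _ => ?_)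
        · nlinarith
        · nlinarith [sq_nonneg (y i - 1)]
      have h3 : ∑ i ∈ Finset.univ.erase k, (-(1 / 2) : ℝ) ≥ -(1 / 2) * n := by
        rw [Finset.sum_const, nsmul_eq_mul]
        have h4 : ((Finset.univ.erase k).card : ℝ) ≤ n := by
          rw [hn]
          exact_mod_cast (Finset.card_le_univ _)
        linarith
      nlinarith
  refine ⟨x, hx0, fun i => ?_, fun i hi => ?_⟩
  · by_contra hlt
    push Not at hlt
    set c : ℝ := 1 - (B *ᵥ x) i with hc
    have hc0 : 0 < c := by linarith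
    have h := hglob (x + c • Pi.single i 1) (fun j => by
      simp only [Pi.add_apply, Pi.smul_apply, smul_eq_mul]
      have : (0 : ℝ) ≤ (Pi.single i (1 : ℝ) : ι → ℝ) j := by
        by_cases hj : j = i
        · subst hj; simp
        · simp [Pi.single_eq_of_ne hj]
      have := hx0 j
      positivity)
    rw [Q_line hs hd] at h
    have e1 : (B *ᵥ x) i - 1 = -c := by rw [hc]; ring
    rw [e1] at h
    nlinarith
  · by_contra hgt
    push Not at hgt
    set c : ℝ := (B *ᵥ x) i - 1 with hc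
    have hc0 : 0 < c := by linarith
    set t : ℝ := min (x i) c with ht
    have ht0 : 0 < t := lt_min hi hc0
    have h := hglob (x + (-t) • Pi.single i 1) (fun j => by
      simp only [Pi.add_apply, Pi.smul_apply, smul_eq_mul]
      by_cases hj : j = i
      · subst hj
        simp only [Pi.single_eq_same, mul_one]
        linarith [min_le_left (x j) c]
      · rw [Pi.single_eq_of_ne hj]
        linarith [hx0 j])
    rw [Q_line hs hd, ← hc] at h
    nlinarith [min_le_right (x i) c]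

end KKT

/-- For a `2`-separated configuration in `ℂ` the system `B x = 1`, `B i j = 1/(1+|z i - z j|)`, has a
nonnegative solution. -/
theorem exists_nonneg_solution {n : ℕ} (z : Fin n → ℂ)
    (hz : ∀ i j, i ≠ j → 2 ≤ ‖z i - z j‖) :
    ∃ x : Fin n → ℝ, (∀ i, 0 ≤ x i) ∧ ∀ i, ∑ j, 1 / (1 + ‖z i - z j‖) * x j = 1 := by
  set B : Matrix (Fin n) (Fin n) ℝ := Matrix.of fun i j => 1 / (1 + ‖z i - z j‖) with hB
  have hs : B.IsSymm := by
    ext i j
    simp only [hB, Matrix.transpose_apply, Matrix.of_apply]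
    rw [norm_sub_rev]
  have hB0 : ∀ i j, 0 ≤ B i j := fun i j => by
    simp only [hB, Matrix.of_apply]; positivity
  have hd : ∀ i, B i i = 1 := fun i => by simp [hB]
  obtain ⟨x, hx0, hx1, hx2⟩ := exists_lcp hs hB0 hd
  refine ⟨x, hx0, fun i => ?_⟩
  have hmv : ∀ i, (B *ᵥ x) i = ∑ j, 1 / (1 + ‖z i - z j‖) * x j := fun i => rfl
  rw [← hmv]
  refine le_antisymm ?_ (hx1 i)
  rcases (hx0 i).lt_or_eq with hi | hi
  · exact hx2 i hi
  set T : Finset (Fin n) := Finset.univ.filter fun l => 0 < x l with hT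
  have hUeq : ∀ k, U T x z (z k) = (B *ᵥ x) k := by
    intro k
    rw [hmv]
    unfold U
    have h1 : ∑ j, 1 / (1 + ‖z k - z j‖) * x j = ∑ j ∈ T, 1 / (1 + ‖z k - z j‖) * x j := by
      symm
      refine Finset.sum_subset (Finset.subset_univ T) fun l _ hl => ?_
      have : ¬ 0 < x l := fun h => hl (by simp [hT, h])
      have h0 : x l = 0 := le_antisymm (not_lt.mp this) (hx0 l)
      rw [h0, mul_zero]
    rw [h1]
    exact Finset.sum_congr rfl fun l _ => mul_comm _ _
  rw [← hUeq i]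
  refine domination T x z (fun l _ => hx0 l) (fun a _ b _ hab => hz a b hab) (fun j hj => ?_)
    (fun l hl => ?_)
  · rw [hUeq j]
    exact hx2 j (by simpa [hT] using hj)
  · refine hz i l ?_
    rintro rfl
    have : 0 < x i := by simpa [hT] using hl
    linarith

end Pool.Agent.X155.Repulsion
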