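import Pool.Agent.X155.CoshZero

set_option autoImplicit false

open CategoryTheory TopologicalSpace

namespace Pool.Agent.X155.Cosh

section

variable {P : Type} [LinearOrder P] [Nonempty P] [WellFoundedLT P]

variable (hP : ∀ a : P, (Set.Iio a).Countable) (hU : ∀ F : P → ℕ, ¬ Function.Injective F)

/-- the first cosheaf -/
noncomputable def objA : CS (Sp P) := ⟨CA P, isCosheaf_CA hP hU⟩

/-- the second cosheaf -/
noncomputable def objB : CS (Sp P) := ⟨CB P, isCosheaf_CB hP hU⟩

/-- the morphism -/
noncomputable def morF : objA hP hU ⟶ objB hP hU := ObjectProperty.homMk (quo P)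

theorem epiF : Epi (morF hP hU) := by
  constructor
  intro D g h hgh
  apply ObjectProperty.hom_ext
  apply NatTrans.ext
  funext U
  apply AddCommGrpCat.hom_ext
  apply AddMonoidHom.ext
  intro y
  obtain ⟨x, rfl⟩ := quo_surj U y
  have h1 := congrArg (fun k => k.hom.app U x) hgh
  exact h1

theorem monoF : Mono (morF hP hU) := by
  constructor
  intro D g h hgh
  apply ObjectProperty.hom_ext
  apply NatTrans.ext
  funext U
  apply AddCommGrpCat.hom_ext
  apply AddMonoidHom.ext
  intro d
  have key := zero_all hP hU D.obj D.property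
    (fun U => (g.hom.app U).hom - (h.hom.app U).hom) ?_ ?_ U d
  · exact sub_eq_zero.1 key
  · intro U V hUV d
    have h1 : g.hom.app V (D.obj.map (homOfLE hUV) d) =
        (CA P).map (homOfLE hUV) (g.hom.app U d) :=
      congrArg (fun k => k d) (g.hom.naturality (homOfLE hUV))
    have h2 : h.hom.app V (D.obj.map (homOfLE hUV) d) =
        (CA P).map (homOfLE hUV) (h.hom.app U d) :=
      congrArg (fun k => k d) (h.hom.naturality (homOfLE hUV))
    refine (congrArg₂ (· - ·) h1 h2).trans ?_
    exact (map_sub ((CA P).map (homOfLE hUV)).hom _ _).symm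
  · intro U hUn d
    apply quo_inj U hUn
    have h1 : (quo P).app U (g.hom.app U d) = (quo P).app U (h.hom.app U d) :=
      congrArg (fun k => k.hom.app U d) hgh
    refine (map_sub ((quo P).app U).hom _ _).trans ?_
    exact sub_eq_zero.2 h1

theorem not_isoF : ¬ IsIso (morF hP hU) := by
  intro hiso
  have h1 : IsIso ((morF hP hU).hom.app ⊤) := by
    have : IsIso (morF hP hU).hom := inferInstance
    infer_instance
  have h2 : Function.Injective ((quo P).app (⊤ : Opens (Sp P))) :=
    (ConcreteCategory.bijective_of_isIso ((morF hP hU).hom.app ⊤)).1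
  have hmem : (Sp.infty : Sp P) ∈ (⊤ : Opens (Sp P)) := trivial
  have h3 : ∀ x : (CA P).obj (⊤ : Opens (Sp P)), x = 0 := by
    intro x
    apply h2
    rw [CB_zero _ hmem ((quo P).app ⊤ x), map_zero]
  have hemp : seg (⊤ : Opens (Sp P)) = ∅ := by
    apply Set.eq_empty_of_forall_notMem
    intro x hx
    exact lt_irrefl x (hx x trivial)
  have hie : IsEmpty (seg (⊤ : Opens (Sp P))) := by
    rw [hemp]
    infer_instance
  let f : Inj (seg (⊤ : Opens (Sp P))) := ⟨fun x => isEmptyElim x, fun x => isEmptyElim x, by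
    rw [Set.range_eq_empty, Set.compl_empty]
    exact Set.infinite_univ⟩
  have h4 : (Finsupp.single f (1 : ℤ) : Inj (seg (⊤ : Opens (Sp P))) →₀ ℤ) = 0 := h3 _
  have h5 := DFunLike.congr_fun h4 f
  rw [Finsupp.single_eq_same, Finsupp.zero_apply] at h5
  exact one_ne_zero h5

end

/-- the order type `ω₁` -/
abbrev W1 : Type := (Cardinal.aleph 1).ord.ToType

theorem W1_countable (a : W1) : (Set.Iio a).Countable := by
  rw [Cardinal.countable_iff_lt_aleph_one]
  have h := Cardinal.mk_Iio_lt a (by simp)
  simpa using h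

theorem W1_inj (F : W1 → ℕ) : ¬ Function.Injective F := by
  intro hF
  have h1 : Countable W1 := hF.countable
  have h2 : Cardinal.mk W1 ≤ Cardinal.aleph0 := Cardinal.mk_le_aleph0_iff.2 h1
  rw [Cardinal.mk_ord_toType] at h2
  exact absurd h2 (not_le.2 Cardinal.aleph0_lt_aleph_one)

instance : Nonempty W1 := by
  rw [← not_isEmpty_iff]
  intro h
  exact W1_inj (fun x => isEmptyElim x) (fun x => isEmptyElim x)

end Pool.Agent.X155.Cosh
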