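import Mathlib

/-!
# Perimeter in a metric measure space, and a snowflake on which it vanishes for open sets
-/

noncomputable section

open MeasureTheory Filter Topology Set
open scoped ENNReal

namespace Pool.Agent.X155.SnowPer

section Defs

variable {X : Type*} [MetricSpace X]

/-- The least Lipschitz constant (possibly `∞`) of `f` restricted to `s`:
the supremum over `y, z ∈ s` of `|f y - f z| / d (y, z)` (where `0 / 0 = 0`). -/
def lipOn (f : X → ℝ) (s : Set X) : ℝ≥0∞ :=
  ⨆ (y ∈ s) (z ∈ s), edist (f y) (f z) / edist y z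

/-- The asymptotic slope `lip_a f (x) = inf_{r > 0} Lip (f|_{B_r(x)})`. -/
def asymSlope (f : X → ℝ) (x : X) : ℝ≥0∞ :=
  ⨅ (r : ℝ) (_ : 0 < r), lipOn f (Metric.ball x r)

variable [MeasurableSpace X]

/-- `u n → f` in `L¹_loc` of the restriction of `m` to `A`: every point of `A` has a neighbourhood
`U` with `∫_{U ∩ A} |u n - f| dm → 0`. -/
def TendstoL1Loc (m : Measure X) (A : Set X) (u : ℕ → X → ℝ) (f : X → ℝ) : Prop :=
  ∀ x ∈ A, ∃ U ∈ 𝓝 x, Tendsto (fun n => ∫⁻ y in U ∩ A, ‖u n y - f y‖ₑ ∂m) atTop (𝓝 0)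

/-- The total variation `|Df|(A)` of `f` on the open set `A`: the infimum of
`liminf ∫_A lip_a (u n) dm` over the sequences `u n` of functions locally Lipschitz on `A` with
`u n → f` in `L¹_loc`. -/
def totalVariation (m : Measure X) (f : X → ℝ) (A : Set X) : ℝ≥0∞ :=
  ⨅ (u : ℕ → X → ℝ) (_ : ∀ n, LocallyLipschitzOn A (u n)) (_ : TendstoL1Loc m A u f),
    liminf (fun n => ∫⁻ y in A, asymSlope (u n) y ∂m) atTop

/-- The total variation measure `|Df|(B)`, as the infimum of `|Df|(A)` over the open `A ⊇ B`. -/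
def variationOn (m : Measure X) (f : X → ℝ) (B : Set X) : ℝ≥0∞ :=
  ⨅ (A : Set X) (_ : IsOpen A) (_ : B ⊆ A), totalVariation m f A

/-- The perimeter `Per (E) = |D χ_E| (X)`. -/
def perimeter (m : Measure X) (E : Set X) : ℝ≥0∞ :=
  variationOn m (E.indicator fun _ => (1 : ℝ)) univ

/-- The functional `M_lam (A) = Per (A) + lam * m (Ω \ A)`. -/
def functionalM (m : Measure X) (Ω : Set X) (lam : ℝ) (A : Set X) : ℝ≥0∞ :=
  perimeter m A + ENNReal.ofReal lam * m (Ω \ A)

/-- The functional `M̃_lam (A) = Per (A) + lam * m (Ω Δ A)`. -/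
def functionalMtilde (m : Measure X) (Ω : Set X) (lam : ℝ) (A : Set X) : ℝ≥0∞ :=
  perimeter m A + ENNReal.ofReal lam * m (symmDiff Ω A)

/-- `E` is a minimiser of `M_lam` among the Borel subsets of `Ω`. -/
def IsMinimizerM (m : Measure X) (Ω : Set X) (lam : ℝ) (E : Set X) : Prop :=
  MeasurableSet E ∧ E ⊆ Ω ∧
    ∀ A : Set X, MeasurableSet A → A ⊆ Ω → functionalM m Ω lam E ≤ functionalM m Ω lam A

/-- `E` is a minimiser of `M̃_lam` among the Borel subsets of `X`. -/
def IsMinimizerMtilde (m : Measure X) (Ω : Set X) (lam : ℝ) (E : Set X) : Prop :=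
  MeasurableSet E ∧
    ∀ A : Set X, MeasurableSet A → functionalMtilde m Ω lam E ≤ functionalMtilde m Ω lam A

/-- `E` has a closed representative. -/
def HasClosedRepresentative (m : Measure X) (E : Set X) : Prop :=
  ∃ C : Set X, IsClosed C ∧ m (symmDiff E C) = 0

end Defs

section Domain

/-! ### The planar domain -/

/-- There is an open set `U` of reals containing all rationals, of measure at most `1/2`. -/
lemma exists_open_dense_small : ∃ U : Set ℝ, IsOpen U ∧ (∀ q : ℚ, (q : ℝ) ∈ U) ∧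
    volume U < ENNReal.ofReal (1 / 2) := by
  have h0 : volume (Set.range ((↑) : ℚ → ℝ)) = 0 := (Set.countable_range _).measure_zero _
  obtain ⟨U, hU, hUo, hlt⟩ := Set.exists_isOpen_lt_of_lt (μ := (volume : Measure ℝ))
    (Set.range ((↑) : ℚ → ℝ)) (ENNReal.ofReal (1 / 2)) (by rw [h0]; positivity)
  exact ⟨U, hUo, fun q => hU ⟨q, rfl⟩, hlt⟩

/-- The planar domain built from `U`. -/
def dom (U : Set ℝ) : Set (ℝ × ℝ) :=
  (Ioo (0 : ℝ) 1 ×ˢ Ioo (0 : ℝ) 1) ∩ ({p | 1 / 2 < p.2} ∪ {p | p.1 ∈ U})

lemma isOpen_dom {U : Set ℝ} (hU : IsOpen U) : IsOpen (dom U) := by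
  refine (isOpen_Ioo.prod isOpen_Ioo).inter (IsOpen.union ?_ ?_)
  · exact isOpen_lt continuous_const continuous_snd
  · exact hU.preimage continuous_fst

lemma isBounded_dom (U : Set ℝ) : Bornology.IsBounded (dom U) :=
  ((Metric.isBounded_Ioo 0 1).prod (Metric.isBounded_Ioo 0 1)).subset inter_subset_left

lemma center_mem_dom (U : Set ℝ) : ((1 / 2 : ℝ), (3 / 4 : ℝ)) ∈ dom U := by
  refine ⟨⟨⟨by norm_num, by norm_num⟩, ⟨by norm_num, by norm_num⟩⟩, Or.inl ?_⟩
  show (1 / 2 : ℝ) < 3 / 4
  norm_num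

lemma isConnected_dom (U : Set ℝ) : IsConnected (dom U) := by
  refine ⟨⟨_, center_mem_dom U⟩, ?_⟩
  refine isPreconnected_of_forall ((1 / 2 : ℝ), (3 / 4 : ℝ)) ?_
  rintro ⟨x, y⟩ ⟨⟨hx, hy⟩, h⟩
  simp only at hx hy
  set T : Set (ℝ × ℝ) := Ioo (0 : ℝ) 1 ×ˢ Ioo (1 / 2 : ℝ) 1 with hT
  have hTpre : IsPreconnected T :=
    ((convex_Ioo _ _).prod (convex_Ioo _ _)).isPreconnected
  have hTsub : T ⊆ dom U := by
    rintro ⟨a, b⟩ ⟨ha, hb⟩
    exact ⟨⟨ha, ⟨by linarith [hb.1], hb.2⟩⟩, Or.inl hb.1⟩
  set S : Set (ℝ × ℝ) := {x} ×ˢ Icc (min y (3 / 4)) (max y (3 / 4)) with hS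
  have hSpre : IsPreconnected S :=
    ((convex_singleton x).prod (convex_Icc _ _)).isPreconnected
  have hSsub : S ⊆ dom U := by
    rintro ⟨a, b⟩ ⟨ha, hb⟩
    simp only [mem_singleton_iff] at ha
    subst ha
    have hb1 : min y (3 / 4) ≤ b := hb.1
    have hb2 : b ≤ max y (3 / 4) := hb.2
    have h01 : 0 < b := lt_of_lt_of_le (lt_min hy.1 (by norm_num)) hb1
    have h11 : b < 1 := lt_of_le_of_lt hb2 (max_lt hy.2 (by norm_num))
    refine ⟨⟨hx, ⟨h01, h11⟩⟩, ?_⟩
    rcases h with h | h
    · left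
      have h' : (1 : ℝ) / 2 < y := h
      exact lt_of_lt_of_le (lt_min h' (by norm_num)) hb1
    · right
      exact h
  refine ⟨T ∪ S, union_subset hTsub hSsub, ?_, ?_, ?_⟩
  · left
    exact ⟨⟨by norm_num, by norm_num⟩, ⟨by norm_num, by norm_num⟩⟩
  · right
    exact ⟨rfl, ⟨min_le_left _ _, le_max_left _ _⟩⟩
  · refine IsPreconnected.union (x, (3 / 4 : ℝ)) ?_ ?_ hTpre hSpre
    · exact ⟨hx, ⟨by norm_num, by norm_num⟩⟩
    · exact ⟨rfl, ⟨min_le_right _ _, le_max_right _ _⟩⟩

/-- No set that agrees with `dom U` up to a null set is closed up to a null set. -/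
lemma dom_no_closed {U : Set ℝ} (hU : IsOpen U) (hQ : ∀ q : ℚ, (q : ℝ) ∈ U)
    (hvol : volume U < ENNReal.ofReal (1 / 2)) {C : Set (ℝ × ℝ)} (hC : IsClosed C)
    (h0 : volume (symmDiff (dom U) C) = 0) : False := by
  -- the domain is contained in `C`
  have hsub : dom U ⊆ C := by
    by_contra hne
    have hne' : (dom U \ C).Nonempty := by
      rw [Set.not_subset] at hne
      obtain ⟨p, hp, hpC⟩ := hne
      exact ⟨p, hp, hpC⟩
    have hopen : IsOpen (dom U \ C) := (isOpen_dom hU).sdiff hC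
    have hpos : 0 < volume (dom U \ C) := hopen.measure_pos _ hne'
    have hle : volume (dom U \ C) ≤ volume (symmDiff (dom U) C) :=
      measure_mono (fun p hp => Or.inl hp)
    rw [h0] at hle
    exact absurd hpos (not_lt.mpr hle)
  -- so the whole open square is contained in `C`
  have hsq : Ioo (0 : ℝ) 1 ×ˢ Ioo (0 : ℝ) 1 ⊆ C := by
    rintro ⟨x, y⟩ ⟨hx, hy⟩
    simp only at hx hy
    have hdense : x ∈ closure (Ioo (0 : ℝ) 1 ∩ Set.range ((↑) : ℚ → ℝ)) := by
      have := (Rat.denseRange_cast (𝕜 := ℝ)).open_subset_closure_inter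
        (isOpen_Ioo (a := (0 : ℝ)) (b := 1))
      exact this hx
    have hcont : Continuous (fun t : ℝ => ((t, y) : ℝ × ℝ)) := by fun_prop
    have hmaps : MapsTo (fun t : ℝ => ((t, y) : ℝ × ℝ))
        (Ioo (0 : ℝ) 1 ∩ Set.range ((↑) : ℚ → ℝ)) C := by
      rintro t ⟨ht, ⟨q, rfl⟩⟩
      exact hsub ⟨⟨ht, hy⟩, Or.inr (hQ q)⟩
    have := hmaps.closure hcont hdense
    rwa [hC.closure_eq] at this
  -- but the missing part has positive measure
  have hmiss : (Ioo (0 : ℝ) 1 \ U) ×ˢ Ioo (0 : ℝ) (1 / 2) ⊆ symmDiff (dom U) C := by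
    rintro ⟨x, y⟩ ⟨⟨hx, hxU⟩, hy⟩
    simp only at hx hxU hy
    refine Or.inr ⟨hsq ⟨hx, ⟨hy.1, by linarith [hy.2]⟩⟩, ?_⟩
    rintro ⟨_, h | h⟩
    · have h' : (1 : ℝ) / 2 < y := h
      linarith [hy.2]
    · exact hxU h
  have hvol2 : volume ((Ioo (0 : ℝ) 1 \ U) ×ˢ Ioo (0 : ℝ) (1 / 2)) = 0 := by
    refine le_antisymm ?_ zero_le
    calc _ ≤ volume (symmDiff (dom U) C) := measure_mono hmiss
      _ = 0 := h0
  rw [Measure.volume_eq_prod, Measure.prod_prod, Real.volume_Ioo, mul_eq_zero] at hvol2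
  rcases hvol2 with h | h
  · have h1 : volume (Ioo (0 : ℝ) 1) ≤ volume (Ioo (0 : ℝ) 1 \ U) + volume U := by
      calc volume (Ioo (0 : ℝ) 1) ≤ volume ((Ioo (0 : ℝ) 1 \ U) ∪ U) :=
            measure_mono (by
              intro t ht
              by_cases hu : t ∈ U
              · exact Or.inr hu
              · exact Or.inl ⟨ht, hu⟩)
        _ ≤ _ := measure_union_le _ _
    rw [h, Real.volume_Ioo, zero_add] at h1
    have h2 := lt_of_le_of_lt h1 hvol
    rw [ENNReal.ofReal_lt_ofReal_iff (by norm_num)] at h2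
    norm_num at h2
  · simp at h

end Domain

section Snow

/-- The plane with the metric `√(d∞)`, where `d∞` is the maximum metric. -/
abbrev Snow : Type := Metric.Snowflaking (ℝ × ℝ) (1 / 2 : ℝ) (by norm_num) (by norm_num)

open Metric.Snowflaking

instance : MeasurableSpace Snow := borel _

instance : BorelSpace Snow := ⟨rfl⟩

/-- The area measure of the plane, seen on `Snow`. -/
def area : Measure Snow := (volume : Measure (ℝ × ℝ)).map toSnowflaking

lemma area_apply (s : Set Snow) : area s = volume (toSnowflaking ⁻¹' s) := by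
  have : MeasurableEmbedding (toSnowflaking : ℝ × ℝ → Snow) :=
    (homeomorph (X := ℝ × ℝ) (α := (1 / 2 : ℝ))).symm.measurableEmbedding
  exact this.map_apply _ _

instance : CompleteSpace Snow :=
  (uniformEquiv (X := ℝ × ℝ) (α := (1 / 2 : ℝ)) (hα₀ := by norm_num)
      (hα₁ := by norm_num)).symm.completeSpace_iff.mp inferInstance

lemma dist_snow (p q : Snow) : dist (ofSnowflaking p) (ofSnowflaking q) = dist p q ^ 2 := by
  rw [dist_ofSnowflaking_ofSnowflaking]
  norm_num

lemma area_ball (x : Snow) {r : ℝ} (hr : 0 ≤ r) :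
    area (Metric.ball x r) = ENNReal.ofReal (4 * r ^ 4) := by
  rw [area_apply, preimage_toSnowflaking_ball x hr]
  have h : r ^ ((1 / 2 : ℝ)⁻¹) = r ^ 2 := by norm_num
  rw [h, ← ball_prod_same, Measure.volume_eq_prod, Measure.prod_prod, Real.volume_ball,
    Real.volume_ball, ← ENNReal.ofReal_mul (by positivity)]
  congr 1
  ring

lemma area_lt_top {s : Set Snow} (hs : Bornology.IsBounded s) : area s < ∞ := by
  rw [area_apply]
  have : Bornology.IsBounded (toSnowflaking ⁻¹' s) := isBounded_preimage_toSnowflaking_iff.mpr hs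
  exact this.measure_lt_top

/-- A function that is Lipschitz for the Euclidean metric has asymptotic slope zero. -/
lemma asymSlope_eq_zero {g : ℝ × ℝ → ℝ} {K : NNReal} (hg : LipschitzWith K g) (x : Snow) :
    asymSlope (fun p : Snow => g (ofSnowflaking p)) x = 0 := by
  refine le_antisymm ?_ zero_le
  -- bound by `2 * r * K`
  have key : ∀ r : ℝ, 0 < r →
      lipOn (fun p : Snow => g (ofSnowflaking p)) (Metric.ball x r) ≤
        ENNReal.ofReal (K * (2 * r)) := by
    intro r hr
    unfold lipOn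
    refine iSup₂_le fun y hy => iSup₂_le fun z hz => ?_
    have hyz : dist y z < 2 * r := by
      have h1 : dist y x < r := hy
      have h2 : dist z x < r := hz
      calc dist y z ≤ dist y x + dist z x := dist_triangle_right y z x
        _ < 2 * r := by linarith
    refine ENNReal.div_le_of_le_mul ?_
    rw [edist_dist, edist_dist, ← ENNReal.ofReal_mul (by positivity)]
    refine ENNReal.ofReal_le_ofReal ?_
    calc dist (g (ofSnowflaking y)) (g (ofSnowflaking z))
        ≤ K * dist (ofSnowflaking y) (ofSnowflaking z) := hg.dist_le_mul _ _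
      _ = K * dist y z * dist y z := by rw [dist_snow]; ring
      _ ≤ K * (2 * r) * dist y z := by
          have h0 : 0 ≤ dist y z := dist_nonneg
          have hK : (0 : ℝ) ≤ K := K.2
          gcongr
  have hle : ∀ r : ℝ, 0 < r →
      asymSlope (fun p : Snow => g (ofSnowflaking p)) x ≤ ENNReal.ofReal (K * (2 * r)) := by
    intro r hr
    exact (iInf₂_le r hr).trans (key r hr)
  have hlim : Tendsto (fun r : ℝ => ENNReal.ofReal (K * (2 * r))) (𝓝[>] 0) (𝓝 0) := by
    have h1 : Tendsto (fun r : ℝ => (K : ℝ) * (2 * r)) (𝓝[>] 0) (𝓝 ((K : ℝ) * (2 * 0))) := by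
      refine Tendsto.mono_left ?_ nhdsWithin_le_nhds
      exact (Continuous.tendsto (by fun_prop) 0)
    have h2 := (ENNReal.continuous_ofReal.tendsto ((K : ℝ) * (2 * 0))).comp h1
    rw [mul_zero, mul_zero, ENNReal.ofReal_zero] at h2
    exact h2
  refine ge_of_tendsto hlim ?_
  filter_upwards [self_mem_nhdsWithin] with r hr
  exact hle r hr

/-- The Euclidean-Lipschitz approximations of an indicator function. -/
def cutoff (O : Set (ℝ × ℝ)) (n : ℕ) (p : ℝ × ℝ) : ℝ := min 1 (n * Metric.infDist p Oᶜ)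

lemma cutoff_lipschitz (O : Set (ℝ × ℝ)) (n : ℕ) : ∃ K : NNReal, LipschitzWith K (cutoff O n) := by
  refine ⟨n, ?_⟩
  have h1 : LipschitzWith (n : NNReal) (fun p : ℝ × ℝ => (n : ℝ) * Metric.infDist p Oᶜ) := by
    refine LipschitzWith.of_dist_le_mul fun p q => ?_
    have h := (Metric.lipschitz_infDist_pt (Oᶜ)).dist_le_mul p q
    rw [Real.dist_eq, ← mul_sub, abs_mul]
    rw [Real.dist_eq] at h
    have hn : |(n : ℝ)| = n := abs_of_nonneg (Nat.cast_nonneg n)
    rw [hn]
    have hn0 : (0 : ℝ) ≤ n := Nat.cast_nonneg n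
    have : |Metric.infDist p Oᶜ - Metric.infDist q Oᶜ| ≤ dist p q := by simpa using h
    simpa using mul_le_mul_of_nonneg_left this hn0
  exact h1.const_min 1

lemma cutoff_nonneg (O : Set (ℝ × ℝ)) (n : ℕ) (p : ℝ × ℝ) : 0 ≤ cutoff O n p :=
  le_min zero_le_one (mul_nonneg (Nat.cast_nonneg n) Metric.infDist_nonneg)

lemma cutoff_le_one (O : Set (ℝ × ℝ)) (n : ℕ) (p : ℝ × ℝ) : cutoff O n p ≤ 1 := min_le_left _ _

lemma cutoff_of_notMem {O : Set (ℝ × ℝ)} (n : ℕ) {p : ℝ × ℝ} (hp : p ∉ O) : cutoff O n p = 0 := by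
  unfold cutoff
  rw [Metric.infDist_zero_of_mem (show p ∈ Oᶜ from hp)]
  simp

lemma cutoff_tendsto {O : Set (ℝ × ℝ)} (hO : IsOpen O) (hne : (Oᶜ).Nonempty) (p : ℝ × ℝ) :
    Tendsto (fun n => cutoff O n p) atTop (𝓝 (O.indicator (fun _ => (1 : ℝ)) p)) := by
  by_cases hp : p ∈ O
  · rw [indicator_of_mem hp]
    have hpos : 0 < Metric.infDist p Oᶜ :=
      (hO.isClosed_compl.notMem_iff_infDist_pos hne).mp (fun h => h hp)
    obtain ⟨N, hN⟩ := exists_nat_gt (1 / Metric.infDist p Oᶜ)
    refine tendsto_const_nhds.congr' ?_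
    filter_upwards [eventually_ge_atTop N] with n hn
    unfold cutoff
    rw [min_eq_left]
    have : 1 / Metric.infDist p Oᶜ < n := lt_of_lt_of_le hN (by exact_mod_cast hn)
    rw [div_lt_iff₀ hpos] at this
    exact this.le
  · rw [indicator_of_notMem hp]
    refine tendsto_const_nhds.congr' ?_
    exact Eventually.of_forall fun n => (cutoff_of_notMem n hp).symm

/-- `L¹` convergence of the cutoffs in the plane. -/
lemma cutoff_tendsto_L1 {O : Set (ℝ × ℝ)} (hO : IsOpen O) (hb : Bornology.IsBounded O) :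
    Tendsto (fun n => ∫⁻ p, ‖cutoff O n p - O.indicator (fun _ => (1 : ℝ)) p‖ₑ) atTop (𝓝 0) := by
  have hne : (Oᶜ).Nonempty := by
    by_contra h
    rw [not_nonempty_iff_eq_empty, compl_empty_iff] at h
    rw [h] at hb
    exact (NoncompactSpace.noncompact_univ (X := ℝ × ℝ)) (hb.isCompact_closure.of_isClosed_subset
      isClosed_univ subset_closure)
  have hmeasO : MeasurableSet O := hO.measurableSet
  have hmeas : ∀ n, Measurable (fun p => cutoff O n p) := by
    intro n
    obtain ⟨K, hK⟩ := cutoff_lipschitz O n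
    exact hK.continuous.measurable
  have hlim := tendsto_lintegral_of_dominated_convergence
    (μ := (volume : Measure (ℝ × ℝ)))
    (F := fun n p => ‖cutoff O n p - O.indicator (fun _ => (1 : ℝ)) p‖ₑ)
    (f := fun _ => 0) (O.indicator (fun _ => (1 : ℝ≥0∞))) ?_ ?_ ?_ ?_
  · simpa using hlim
  · intro n
    exact ((hmeas n).sub (measurable_const.indicator hmeasO)).enorm
  · intro n
    refine Eventually.of_forall fun p => ?_
    by_cases hp : p ∈ O
    · simp only [indicator_of_mem hp]
      rw [Real.enorm_eq_ofReal_abs]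
      have h1 := cutoff_nonneg O n p
      have h2 := cutoff_le_one O n p
      have : |cutoff O n p - 1| ≤ 1 := by rw [abs_le]; constructor <;> linarith
      calc ENNReal.ofReal |cutoff O n p - 1| ≤ ENNReal.ofReal 1 := ENNReal.ofReal_le_ofReal this
        _ = 1 := ENNReal.ofReal_one
    · simp only [indicator_of_notMem hp, cutoff_of_notMem n hp]
      simp
  · rw [lintegral_indicator hmeasO]
    simp only [lintegral_const, Measure.restrict_apply MeasurableSet.univ, univ_inter, one_mul]
    exact hb.measure_lt_top.ne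
  · refine Eventually.of_forall fun p => ?_
    have h := cutoff_tendsto hO hne p
    have h2 : Tendsto (fun n => cutoff O n p - O.indicator (fun _ => (1 : ℝ)) p) atTop
        (𝓝 0) := by
      simpa using h.sub_const (O.indicator (fun _ => (1 : ℝ)) p)
    have h3 := (continuous_enorm.tendsto (0 : ℝ)).comp h2
    rw [enorm_zero] at h3
    exact h3

lemma totalVariation_open_eq_zero {O : Set (ℝ × ℝ)} (hO : IsOpen O)
    (hb : Bornology.IsBounded O) :
    totalVariation area ((ofSnowflaking ⁻¹' O : Set Snow).indicator fun _ => (1 : ℝ)) univ = 0 := by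
  refine le_antisymm ?_ zero_le
  unfold totalVariation
  refine (iInf_le _ (fun n p => cutoff O n (ofSnowflaking p))).trans ?_
  have hLip : ∀ n, LocallyLipschitzOn univ (fun p : Snow => cutoff O n (ofSnowflaking p)) := by
    intro n
    obtain ⟨K, hK⟩ := cutoff_lipschitz O n
    intro x _
    refine ⟨K * 2, Metric.ball x 1, mem_nhdsWithin_of_mem_nhds (Metric.ball_mem_nhds x one_pos), ?_⟩
    refine LipschitzOnWith.of_dist_le_mul fun y hy z hz => ?_
    have hyz : dist y z < 2 := by
      have h1 : dist y x < 1 := hy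
      have h2 : dist z x < 1 := hz
      calc dist y z ≤ dist y x + dist z x := dist_triangle_right y z x
        _ < 2 := by linarith
    calc dist (cutoff O n (ofSnowflaking y)) (cutoff O n (ofSnowflaking z))
        ≤ K * dist (ofSnowflaking y) (ofSnowflaking z) := hK.dist_le_mul _ _
      _ = K * dist y z * dist y z := by rw [dist_snow]; ring
      _ ≤ K * 2 * dist y z := by
          have h0 : 0 ≤ dist y z := dist_nonneg
          have hK0 : (0 : ℝ) ≤ K := K.2
          gcongr
      _ = ((K * 2 : NNReal) : ℝ) * dist y z := by push_cast; ring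
  refine (iInf_le _ hLip).trans ?_
  have hL1 : TendstoL1Loc area univ (fun n p => cutoff O n (ofSnowflaking p))
      ((ofSnowflaking ⁻¹' O : Set Snow).indicator fun _ => (1 : ℝ)) := by
    intro x _
    refine ⟨univ, univ_mem, ?_⟩
    have hemb : MeasurableEmbedding (toSnowflaking : ℝ × ℝ → Snow) :=
      (homeomorph (X := ℝ × ℝ) (α := (1 / 2 : ℝ))).symm.measurableEmbedding
    have := cutoff_tendsto_L1 hO hb
    simp only [inter_self, Measure.restrict_univ]
    refine this.congr fun n => ?_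
    rw [area, hemb.lintegral_map]
    rfl
  refine (iInf_le _ hL1).trans ?_
  have hz : (fun n => ∫⁻ y in univ, asymSlope (fun p : Snow => cutoff O n (ofSnowflaking p)) y ∂area)
      = fun _ => 0 := by
    funext n
    obtain ⟨K, hK⟩ := cutoff_lipschitz O n
    have : (fun y => asymSlope (fun p : Snow => cutoff O n (ofSnowflaking p)) y) = fun _ => 0 := by
      funext y
      exact asymSlope_eq_zero hK y
    rw [this]
    simp
  rw [hz]
  simp

/-- The perimeter of a bounded open subset of `Snow` is zero. -/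
lemma perimeter_open_eq_zero {O : Set (ℝ × ℝ)} (hO : IsOpen O)
    (hb : Bornology.IsBounded O) :
    perimeter area (ofSnowflaking ⁻¹' O : Set Snow) = 0 := by
  refine le_antisymm ?_ zero_le
  unfold perimeter variationOn
  refine (iInf_le _ univ).trans ((iInf_le _ isOpen_univ).trans ((iInf_le _ subset_rfl).trans ?_))
  exact (totalVariation_open_eq_zero hO hb).le

/-- The domain in `Snow`. -/
def domS (U : Set ℝ) : Set Snow := ofSnowflaking ⁻¹' dom U

lemma isOpen_domS {U : Set ℝ} (hU : IsOpen U) : IsOpen (domS U) :=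
  (isOpen_dom hU).preimage continuous_ofSnowflaking

lemma isBounded_domS (U : Set ℝ) : Bornology.IsBounded (domS U) :=
  isBounded_preimage_ofSnowflaking_iff.mpr (isBounded_dom U)

lemma isConnected_domS (U : Set ℝ) : IsConnected (domS U) := by
  have h := (isConnected_dom U).image (toSnowflaking : ℝ × ℝ → Snow)
    continuous_toSnowflaking.continuousOn
  rw [image_toSnowflaking_eq_preimage] at h
  exact h

/-- A set equal to the domain up to a null set has no closed representative. -/
lemma not_closedRep {U : Set ℝ} (hU : IsOpen U) (hQ : ∀ q : ℚ, (q : ℝ) ∈ U)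
    (hvol : volume U < ENNReal.ofReal (1 / 2)) {E : Set Snow}
    (hE : area (symmDiff (domS U) E) = 0) : ¬ HasClosedRepresentative area E := by
  rintro ⟨C, hC, hC0⟩
  have h1 : area (symmDiff (domS U) C) = 0 := by
    refine le_antisymm ?_ zero_le
    calc area (symmDiff (domS U) C)
        ≤ area (symmDiff (domS U) E ∪ symmDiff E C) := measure_mono (symmDiff_triangle _ _ _)
      _ ≤ area (symmDiff (domS U) E) + area (symmDiff E C) := measure_union_le _ _
      _ = 0 := by rw [hE, hC0, add_zero]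
  rw [area_apply, preimage_symmDiff] at h1
  refine dom_no_closed hU hQ hvol (hC.preimage continuous_toSnowflaking) (C := toSnowflaking ⁻¹' C)
    ?_
  exact h1

lemma functionalM_domS {U : Set ℝ} (hU : IsOpen U) (lam : ℝ) :
    functionalM area (domS U) lam (domS U) = 0 := by
  unfold functionalM
  have : perimeter area (domS U) = 0 := perimeter_open_eq_zero (isOpen_dom hU) (isBounded_dom U)
  rw [this]
  simp

lemma functionalMtilde_domS {U : Set ℝ} (hU : IsOpen U) (lam : ℝ) :
    functionalMtilde area (domS U) lam (domS U) = 0 := by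
  unfold functionalMtilde
  have : perimeter area (domS U) = 0 := perimeter_open_eq_zero (isOpen_dom hU) (isBounded_dom U)
  rw [this]
  simp

lemma null_of_mul {lam : ℝ} (hlam : 0 < lam) {a b : ℝ≥0∞}
    (h : a + ENNReal.ofReal lam * b = 0) : b = 0 := by
  have h1 : ENNReal.ofReal lam * b = 0 := (add_eq_zero.mp h).2
  rcases mul_eq_zero.mp h1 with h2 | h2
  · rw [ENNReal.ofReal_eq_zero] at h2
    linarith
  · exact h2

theorem mainM {U : Set ℝ} (hU : IsOpen U) (hQ : ∀ q : ℚ, (q : ℝ) ∈ U)
    (hvol : volume U < ENNReal.ofReal (1 / 2)) {lam : ℝ} (hlam : 0 < lam) :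
    IsMinimizerM area (domS U) lam (domS U) ∧
      ∀ E, IsMinimizerM area (domS U) lam E → ¬ HasClosedRepresentative area E := by
  constructor
  · refine ⟨(isOpen_domS hU).measurableSet, subset_rfl, fun A _ _ => ?_⟩
    rw [functionalM_domS hU]
    exact zero_le
  · intro E hE
    have h0 : functionalM area (domS U) lam E = 0 := by
      refine le_antisymm ?_ zero_le
      have := hE.2.2 (domS U) (isOpen_domS hU).measurableSet subset_rfl
      rwa [functionalM_domS hU] at this
    have h1 : area (domS U \ E) = 0 := null_of_mul hlam h0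
    refine not_closedRep hU hQ hvol ?_
    have h2 : symmDiff (domS U) E = domS U \ E := by
      have : E \ domS U = ∅ := by rw [Set.diff_eq_empty]; exact hE.2.1
      rw [Set.symmDiff_def, this, union_empty]
    rw [h2, h1]

theorem mainMtilde {U : Set ℝ} (hU : IsOpen U) (hQ : ∀ q : ℚ, (q : ℝ) ∈ U)
    (hvol : volume U < ENNReal.ofReal (1 / 2)) {lam : ℝ} (hlam : 0 < lam) :
    IsMinimizerMtilde area (domS U) lam (domS U) ∧
      ∀ E, IsMinimizerMtilde area (domS U) lam E → ¬ HasClosedRepresentative area E := by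
  constructor
  · refine ⟨(isOpen_domS hU).measurableSet, fun A _ => ?_⟩
    rw [functionalMtilde_domS hU]
    exact zero_le
  · intro E hE
    have h0 : functionalMtilde area (domS U) lam E = 0 := by
      refine le_antisymm ?_ zero_le
      have := hE.2 (domS U) (isOpen_domS hU).measurableSet
      rwa [functionalMtilde_domS hU] at this
    exact not_closedRep hU hQ hvol (null_of_mul hlam h0)

end Snow

end Pool.Agent.X155.SnowPer
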