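import Pool.Agent.TH54.BExt
import Pool.Agent.TH54.BU.Iter
import Pool.Agent.TH54.BU.AppTop
import Pool.Agent.Y321.HM.Gen
import Pool.Agent.Y321.HM.Ext

/-!
# Nondiscrete Hausdorff group topologies on the quotient of a hereditarily minimal group by its
open centre (helper155)
-/

set_option autoImplicit false

namespace Pool.Agent.X155.BQ

open Topology Filter Pool.Agent.TH54 Pool.Agent.TH54.BU Pool.Agent.Y321.HM

/-- the free Burnside group of countable rank carries a nondiscrete Hausdorff group topology -/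
theorem exists_top {p : ℕ} {Q : Type} [Group Q]
    (e : Q ≃* FreeGroup ℕ ⧸ powSub (FreeGroup ℕ) p)
    (hcomm : ∀ i j : ℕ, i ≠ j →
      (FreeGroup.of i : FreeGroup ℕ ⧸ powSub (FreeGroup ℕ) p) * FreeGroup.of j ≠
        FreeGroup.of j * FreeGroup.of i) :
    ∃ σ : TopologicalSpace Q, @IsTopologicalGroup Q σ _ ∧ @T2Space Q σ ∧ σ ≠ ⊥ := by
  let Θ : Q →* (ℕ → FreeGroup ℕ ⧸ powSub (FreeGroup ℕ) p) := (emb p).comp e.toMonoidHom
  have hΘ : Function.Injective Θ := (emb_inj p).comp e.injective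
  let _ : TopologicalSpace (FreeGroup ℕ ⧸ powSub (FreeGroup ℕ) p) := ⊥
  have _ : DiscreteTopology (FreeGroup ℕ ⧸ powSub (FreeGroup ℕ) p) := ⟨rfl⟩
  refine ⟨TopologicalSpace.induced Θ inferInstance, topologicalGroup_induced Θ,
    @T2Space.of_injective_continuous _ _ (TopologicalSpace.induced Θ inferInstance) _ _ Θ hΘ
      continuous_induced_dom, ?_⟩
  intro hbot
  let x : ℕ → Q := fun m => e.symm (FreeGroup.of m : FreeGroup ℕ)
  have hxΘ : ∀ m n, n ≤ m → Θ (x m) n = 1 := by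
    intro m n hnm
    change retr p n (e (e.symm _)) = 1
    rw [MulEquiv.apply_symm_apply]
    exact retr_of_le p n m hnm
  have hlim : Tendsto (fun m => Θ (x m)) atTop (𝓝 (Θ 1)) := by
    rw [tendsto_pi_nhds]
    intro n
    rw [map_one]
    refine tendsto_nhds_of_eventually_eq ?_
    filter_upwards [eventually_ge_atTop n] with m hm
    exact hxΘ m n hm
  have hlim2 : ∀ t : TopologicalSpace Q,
      TopologicalSpace.induced Θ inferInstance = t → Tendsto x atTop (@nhds _ t 1) := by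
    rintro t rfl
    rw [nhds_induced, tendsto_comap_iff]
    exact hlim
  have h3 := hlim2 ⊥ hbot
  have hpure : @nhds Q ⊥ 1 = pure 1 :=
    congrFun (@nhds_discrete _ ⊥ (@DiscreteTopology.mk _ ⊥ rfl)) 1
  rw [hpure, tendsto_pure] at h3
  obtain ⟨m, hm⟩ := h3.exists
  have h4 : (FreeGroup.of m : FreeGroup ℕ ⧸ powSub (FreeGroup ℕ) p) = 1 := by
    have := congrArg e hm
    rw [map_one] at this
    change e (e.symm _) = 1 at this
    rw [MulEquiv.apply_symm_apply] at this
    exact this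
  apply hcomm m (m + 1) (by omega)
  rw [h4, one_mul, mul_one]

/-- the groups: hereditarily minimal, with open centre `ℤ_p`, the central quotient being the free
Burnside group of countable rank -/
theorem exists_group : ∃ p0 : ℕ, ∀ (p : ℕ) [Fact p.Prime], p0 ≤ p →
    ∃ (M : Type) (_ : Group M) (_ : TopologicalSpace M), IsTopologicalGroup M ∧ T2Space M ∧
      IsOpen (Subgroup.center M : Set M) ∧
      Nonempty (Multiplicative ℤ_[p] ≃ₜ* Subgroup.center M) ∧
      Nonempty (M ⧸ Subgroup.center M ≃* FreeGroup ℕ ⧸ powSub (FreeGroup ℕ) p) ∧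
      (∀ (H : Subgroup M) (σ : TopologicalSpace H), @IsTopologicalGroup H σ _ → @T2Space H σ →
        (instTopologicalSpaceSubtype : TopologicalSpace H) ≤ σ →
        σ = instTopologicalSpaceSubtype) ∧
      LocallyCompactSpace M ∧ Subgroup.center M ≠ ⊥ ∧
      (∀ i j : ℕ, i ≠ j →
        (FreeGroup.of i : FreeGroup ℕ ⧸ powSub (FreeGroup ℕ) p) * FreeGroup.of j ≠
        FreeGroup.of j * FreeGroup.of i) := by
  obtain ⟨p0, h⟩ := Pool.Agent.TH54.BU.burnside
  refine ⟨p0, fun p hp hle => ?_⟩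
  have hB : Burn p := h p hp.out hle
  obtain ⟨M, hG, hTop, hTG, hT2, htf, hopen, hZ, ⟨e⟩, -⟩ := exists_ext_gen hB ℕ
  have hinf : Infinite (FreeGroup ℕ ⧸ powSub (FreeGroup ℕ) p) := infinite_burn hp.out hB ℕ
  have hinf' : Infinite (M ⧸ Subgroup.center M) := e.toEquiv.infinite_iff.2 hinf
  have hexp : ∃ n : ℕ, 0 < n ∧ ∀ x : M ⧸ Subgroup.center M, x ^ n = 1 := by
    refine ⟨p, hp.out.pos, fun x => ?_⟩
    apply e.injective
    rw [map_pow, map_one]
    obtain ⟨w, hw⟩ := QuotientGroup.mk_surjective (e x)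
    rw [← hw, ← QuotientGroup.mk_pow]
    exact (QuotientGroup.eq_one_iff _).2 (Subgroup.subset_normalClosure ⟨w, rfl⟩)
  obtain ⟨h1, h2, -, -, h3, -⟩ :=
    Pool.Agent.TH54.bounded_exponent_extensions p M htf hopen hZ hexp hinf'
  obtain ⟨A, hA, z, φ, hφ, hker, hz, hzo, hpow, hcomm⟩ := hB ℕ
  exact ⟨M, hG, hTop, hTG, hT2, hopen, hZ, ⟨e⟩, h1, h2, h3, hcomm⟩

end Pool.Agent.X155.BQ
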