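import Mathlib

/-!
A countable Hausdorff topological semilattice which is `c`-complete but not `s`-complete.
-/

set_option autoImplicit false

open Filter Topology Set

namespace Pool.Agent.X155.CSemi

/-- nonzero elements: a nonincreasing `f : ℕ → ℕ∞` and `m` with `f m ≠ ∞` -/
@[ext] structure El where
  f : ℕ → ℕ∞
  m : ℕ
  anti : Antitone f
  fin : f m ≠ ⊤

/-- the meet -/
noncomputable def meet (x y : El) : El where
  f a := x.f a ⊔ y.f a
  m := max x.m y.m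
  anti := fun a b hab => sup_le_sup (x.anti hab) (y.anti hab)
  fin := by
    have h1 : x.f (max x.m y.m) ≠ ⊤ :=
      ne_top_of_le_ne_top x.fin (x.anti (le_max_left _ _))
    have h2 : y.f (max x.m y.m) ≠ ⊤ :=
      ne_top_of_le_ne_top y.fin (y.anti (le_max_right _ _))
    rcases le_total (x.f (max x.m y.m)) (y.f (max x.m y.m)) with h | h
    · rw [sup_eq_right.2 h]
      exact h2
    · rw [sup_eq_left.2 h]
      exact h1

noncomputable instance : SemilatticeInf El where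
  le := fun x y => (∀ a, y.f a ≤ x.f a) ∧ y.m ≤ x.m
  le_refl := fun x => ⟨fun _ => le_rfl, le_rfl⟩
  le_trans := fun x y z h1 h2 => ⟨fun a => (h2.1 a).trans (h1.1 a), h2.2.trans h1.2⟩
  le_antisymm := fun x y h1 h2 => El.ext (funext fun a => le_antisymm (h2.1 a) (h1.1 a))
    (le_antisymm h2.2 h1.2)
  inf := meet
  inf_le_left := fun x y => ⟨fun a => le_sup_left, le_max_left _ _⟩
  inf_le_right := fun x y => ⟨fun a => le_sup_right, le_max_right _ _⟩
  le_inf := fun x y z h1 h2 => ⟨fun a => sup_le (h1.1 a) (h2.1 a), max_le h1.2 h2.2⟩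

theorem le_def (x y : El) : x ≤ y ↔ (∀ a, y.f a ≤ x.f a) ∧ y.m ≤ x.m := Iff.rfl

theorem inf_f (x y : El) (a : ℕ) : (x ⊓ y).f a = x.f a ⊔ y.f a := rfl

theorem inf_m (x y : El) : (x ⊓ y).m = max x.m y.m := rfl

/-- the membership coordinates -/
def Mem (x : El) (p : ℕ × ℕ × ℕ) : Prop := x.m ≤ p.1 + p.2.1 ∧ x.f p.1 ≤ (p.2.2 : ℕ∞)

theorem mem_inf (x y : El) (p : ℕ × ℕ × ℕ) : Mem (x ⊓ y) p ↔ Mem x p ∧ Mem y p := by
  show (max x.m y.m ≤ p.1 + p.2.1 ∧ x.f p.1 ⊔ y.f p.1 ≤ (p.2.2 : ℕ∞)) ↔ _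
  rw [max_le_iff, sup_le_iff]
  unfold Mem
  tauto

open Classical in
/-- the coordinates -/
noncomputable def Phi (x : El) : ℕ × ℕ × ℕ → Bool := fun p => decide (Mem x p)

theorem Phi_eq (x y : El) (p : ℕ × ℕ × ℕ) : Phi x p = Phi y p ↔ (Mem x p ↔ Mem y p) := by
  unfold Phi
  rw [decide_eq_decide]

theorem le_of_nat {u v : ℕ∞} (h : ∀ k : ℕ, u ≤ k → v ≤ k) : v ≤ u := by
  by_cases hu : u = ⊤
  · rw [hu]
    exact le_top
  · obtain ⟨k, rfl⟩ := ENat.ne_top_iff_exists.1 hu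
    exact h k le_rfl

theorem exists_nat_ge {u : ℕ∞} (h : u ≠ ⊤) : ∃ k : ℕ, u ≤ (k : ℕ∞) := by
  obtain ⟨k, hk⟩ := ENat.ne_top_iff_exists.1 h
  exact ⟨k, hk ▸ le_rfl⟩

theorem ext_mem (x y : El) (h : ∀ p, Mem x p ↔ Mem y p) : x = y := by
  have key : ∀ u v : El, (∀ p, Mem u p ↔ Mem v p) → v.m ≤ u.m := by
    intro u v huv
    obtain ⟨k, hk⟩ := exists_nat_ge u.fin
    have h1 := (huv (u.m, 0, k)).1 ⟨by simp, hk⟩
    simpa using h1.1
  have hm : x.m = y.m := le_antisymm (key y x (fun p => (h p).symm)) (key x y h)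
  apply El.ext _ hm
  funext a
  apply le_antisymm
  · apply le_of_nat
    intro k hk
    exact ((h (a, x.m, k)).2 ⟨by rw [← hm]; exact Nat.le_add_left _ _, hk⟩).2
  · apply le_of_nat
    intro k hk
    exact ((h (a, x.m, k)).1 ⟨Nat.le_add_left _ _, hk⟩).2

theorem Phi_injective : Function.Injective Phi := by
  intro x y h
  apply ext_mem
  intro p
  exact (Phi_eq x y p).1 (congrFun h p)

noncomputable instance : TopologicalSpace El := TopologicalSpace.induced Phi inferInstance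

theorem ind : Topology.IsInducing Phi := ⟨rfl⟩

theorem cont : Continuous Phi := continuous_induced_dom

instance : T2Space El := T2Space.of_injective_continuous Phi_injective cont

theorem isOpen_mem (p : ℕ × ℕ × ℕ) : IsOpen {x | Mem x p} := by
  have h : {x | Mem x p} = (fun x => Phi x p) ⁻¹' {true} := by
    ext x
    simp [Phi]
  rw [h]
  exact (isOpen_discrete _).preimage ((continuous_apply p).comp cont)

theorem isOpen_not_mem (p : ℕ × ℕ × ℕ) : IsOpen {x | ¬ Mem x p} := by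
  have h : {x | ¬ Mem x p} = (fun x => Phi x p) ⁻¹' {false} := by
    ext x
    simp [Phi]
  rw [h]
  exact (isOpen_discrete _).preimage ((continuous_apply p).comp cont)

theorem continuous_meet : Continuous (fun q : El × El => q.1 ⊓ q.2) := by
  rw [ind.continuous_iff]
  apply continuous_pi
  intro p
  have h : (fun q : El × El => (Phi ∘ fun q : El × El => q.1 ⊓ q.2) q p) =
      fun q : El × El => (Phi q.1 p && Phi q.2 p) := by
    funext q
    by_cases h1 : Mem q.1 p <;> by_cases h2 : Mem q.2 p <;> simp [Phi, mem_inf, h1, h2]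
  have h2 : (fun q : El × El => (Phi ∘ fun q : El × El => q.1 ⊓ q.2) q p) =
      (fun b : Bool × Bool => (b.1 && b.2)) ∘ fun q : El × El => (Phi q.1 p, Phi q.2 p) := h
  show Continuous (fun q : El × El => (Phi ∘ fun q : El × El => q.1 ⊓ q.2) q p)
  rw [h2]
  apply continuous_of_discreteTopology.comp
  exact (((continuous_apply p).comp cont).comp continuous_fst).prodMk
    (((continuous_apply p).comp cont).comp continuous_snd)

/-- closure criterion -/
theorem mem_closure_of (D : Set El) (hne : D.Nonempty) (R : El → El → Prop)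
    (hdir : ∀ x ∈ D, ∀ y ∈ D, ∃ w ∈ D, (∀ v, R v w → R v x ∧ R v y)) (hrefl : ∀ x, R x x)
    (φ : El → El) (z : El)
    (h : ∀ p, ∃ x0 ∈ D, ∀ x ∈ D, R x x0 → (Mem (φ x) p ↔ Mem z p)) : z ∈ closure (φ '' D) := by
  rw [ind.closure_eq_preimage_closure_image, Set.mem_preimage, mem_closure_iff]
  intro U hU hz
  obtain ⟨I, u, hu, hsub⟩ := isOpen_pi_iff.1 hU _ hz
  have key : ∃ x0 ∈ D, ∀ x ∈ D, R x x0 → ∀ p ∈ I, (Mem (φ x) p ↔ Mem z p) := by
    clear hu hsub
    induction I using Finset.induction_on with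
    | empty =>
      obtain ⟨x, hx⟩ := hne
      exact ⟨x, hx, fun _ _ _ p hp => absurd hp (Finset.notMem_empty p)⟩
    | insert q I _ ih =>
      obtain ⟨x1, hx1, h1⟩ := ih
      obtain ⟨x2, hx2, h2⟩ := h q
      obtain ⟨w, hw, hw'⟩ := hdir x1 hx1 x2 hx2
      refine ⟨w, hw, fun x hx hxw p hp => ?_⟩
      obtain ⟨h3, h4⟩ := hw' x hxw
      rcases Finset.mem_insert.1 hp with rfl | hp'
      · exact h2 x hx h4
      · exact h1 x hx h3 p hp'
  obtain ⟨x0, hx0, h0⟩ := key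
  refine ⟨Phi (φ x0), hsub ?_, ⟨φ x0, ⟨x0, hx0, rfl⟩, rfl⟩⟩
  intro p hp
  have h1 := h0 x0 hx0 (hrefl x0) p hp
  rw [(Phi_eq _ _ _).2 h1]
  exact (hu p hp).2

/-- neighbourhoods of zero -/
def N (r : ℕ) : Set El := {x | r ≤ x.m ∧ 1 ≤ x.m ∧ x.f (x.m - 1) ≠ ⊤}

theorem N_anti {r s : ℕ} (h : r ≤ s) : N s ⊆ N r := fun _ hx => ⟨h.trans hx.1, hx.2⟩

theorem N_open (r : ℕ) : IsOpen (N r) := by
  rw [isOpen_iff_forall_mem_open]
  rintro x ⟨h1, h2, h3⟩
  obtain ⟨k, hk⟩ := exists_nat_ge h3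
  refine ⟨{y | Mem y (x.m - 1, 1, k)} ∩ {y | ¬ Mem y (x.m - 1, 0, k)}, ?_,
    (isOpen_mem _).inter (isOpen_not_mem _), ?_, ?_⟩
  · rintro y ⟨⟨h4, h5⟩, h6⟩
    have h7 : y.m ≤ x.m - 1 + 1 := h4
    have h8 : ¬ (y.m ≤ x.m - 1 + 0) := fun h => h6 ⟨h, h5⟩
    have h9 : y.m = x.m := by omega
    refine ⟨by omega, by omega, ?_⟩
    rw [h9]
    exact ne_top_of_le_ne_top (ENat.natCast_ne_top k) h5
  · exact ⟨by show x.m ≤ x.m - 1 + 1; omega, hk⟩
  · intro h
    have : x.m ≤ x.m - 1 + 0 := h.1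
    omega

theorem N_sep (x : El) : ∃ V : Set El, IsOpen V ∧ x ∈ V ∧ ∀ y ∈ V, y ∉ N (x.m + 1) := by
  obtain ⟨k, hk⟩ := exists_nat_ge x.fin
  refine ⟨{y | Mem y (x.m, 0, k)}, isOpen_mem _, ⟨by simp, hk⟩, ?_⟩
  rintro y ⟨h1, _⟩ ⟨h2, _⟩
  have h3 : y.m ≤ x.m + 0 := h1
  omega

theorem N_mul (x : El) (r : ℕ) : ∃ V : Set El, IsOpen V ∧ x ∈ V ∧ ∃ s : ℕ, ∀ y ∈ V, ∀ z ∈ N s,
    y ⊓ z ∈ N r := by
  obtain ⟨k, hk⟩ := exists_nat_ge x.fin
  refine ⟨{y | Mem y (x.m, 0, k)}, isOpen_mem _, ⟨by simp, hk⟩, max r (x.m + 1), ?_⟩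
  rintro y ⟨h1, h1'⟩ z ⟨h2, h3, h4⟩
  have h5 : y.m ≤ x.m + 0 := h1
  have h6 : (y ⊓ z).m = z.m := by
    rw [inf_m]
    apply max_eq_right
    omega
  refine ⟨?_, ?_, ?_⟩
  · rw [h6]
    omega
  · rw [h6]
    exact h3
  · rw [h6, inf_f]
    have h7 : y.f (z.m - 1) ≠ ⊤ := by
      apply ne_top_of_le_ne_top (ENat.natCast_ne_top k)
      exact (y.anti (by omega : x.m ≤ z.m - 1)).trans h1'
    rcases le_total (y.f (z.m - 1)) (z.f (z.m - 1)) with h | h
    · rw [sup_eq_right.2 h]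
      exact h4
    · rw [sup_eq_left.2 h]
      exact h7

theorem N_mul' (r : ℕ) (y z : El) (hy : y ∈ N r) (hz : z ∈ N r) : y ⊓ z ∈ N r := by
  have key : ∀ y z : El, y ∈ N r → z ∈ N r → y.m ≤ z.m → y ⊓ z ∈ N r := by
    rintro y z ⟨h1, h2, h3⟩ ⟨h4, h5, h6⟩ hle
    have h7 : (y ⊓ z).m = z.m := by
      rw [inf_m]
      exact max_eq_right hle
    refine ⟨by omega, by omega, ?_⟩
    rw [h7, inf_f]
    have h8 : y.f (z.m - 1) ≠ ⊤ := ne_top_of_le_ne_top h3 (y.anti (by omega))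
    rcases le_total (y.f (z.m - 1)) (z.f (z.m - 1)) with h | h
    · rw [sup_eq_right.2 h]
      exact h6
    · rw [sup_eq_left.2 h]
      exact h8
  rcases le_total y.m z.m with h | h
  · exact key y z hy hz h
  · rw [inf_comm]
    exact key z y hz hy h

/-! ### the semilattice with zero -/

/-- the semilattice: the elements of `El` and a zero -/
def X : Type := WithBot El

noncomputable instance : SemilatticeInf X := inferInstanceAs (SemilatticeInf (WithBot El))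
noncomputable instance : OrderBot X := inferInstanceAs (OrderBot (WithBot El))

/-- the inclusion -/
def inc (x : El) : X := WithBot.some x

theorem inc_le (x y : El) : inc x ≤ inc y ↔ x ≤ y := WithBot.coe_le_coe

theorem inc_inf (x y : El) : inc (x ⊓ y) = inc x ⊓ inc y := rfl

theorem inc_injective : Function.Injective inc := WithBot.coe_injective

theorem inc_ne (x : El) : inc x ≠ ⊥ := WithBot.coe_ne_bot

theorem not_le_bot (x : El) : ¬ inc x ≤ ⊥ := fun h => inc_ne x (le_bot_iff.1 h)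

theorem x_cases {C : X → Prop} (h1 : C ⊥) (h2 : ∀ x, C (inc x)) (x : X) : C x := by
  cases x with
  | none => exact h1
  | some a => exact h2 a

instance : TopologicalSpace X where
  IsOpen U := IsOpen (inc ⁻¹' U) ∧ (⊥ ∈ U → ∃ r, ∀ x ∈ N r, inc x ∈ U)
  isOpen_univ := ⟨isOpen_univ, fun _ => ⟨0, fun _ _ => trivial⟩⟩
  isOpen_inter := by
    rintro U V ⟨h1, h2⟩ ⟨h3, h4⟩
    refine ⟨h1.inter h3, ?_⟩
    rintro ⟨h5, h6⟩
    obtain ⟨r, hr⟩ := h2 h5
    obtain ⟨s, hs⟩ := h4 h6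
    exact ⟨max r s, fun x hx => ⟨hr x (N_anti (le_max_left _ _) hx),
      hs x (N_anti (le_max_right _ _) hx)⟩⟩
  isOpen_sUnion := by
    intro S hS
    refine ⟨?_, ?_⟩
    · rw [Set.preimage_sUnion]
      exact isOpen_biUnion (fun U hU => (hS U hU).1)
    · rintro ⟨U, hU, hb⟩
      obtain ⟨r, hr⟩ := (hS U hU).2 hb
      exact ⟨r, fun x hx => ⟨U, hU, hr x hx⟩⟩

theorem isOpen_iff (U : Set X) : IsOpen U ↔ IsOpen (inc ⁻¹' U) ∧
    (⊥ ∈ U → ∃ r, ∀ x ∈ N r, inc x ∈ U) := Iff.rfl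

theorem inc_image_open (V : Set El) (hV : IsOpen V) : IsOpen (inc '' V) := by
  rw [isOpen_iff]
  refine ⟨?_, ?_⟩
  · rw [Set.preimage_image_eq _ inc_injective]
    exact hV
  · rintro ⟨x, _, hx⟩
    exact absurd hx (inc_ne x)

theorem continuous_inc : Continuous inc := by
  rw [continuous_def]
  intro U hU
  exact hU.1

theorem nb_open (r : ℕ) : IsOpen (insert ⊥ (inc '' N r)) := by
  rw [isOpen_iff]
  refine ⟨?_, fun _ => ⟨r, fun x hx => Or.inr ⟨x, hx, rfl⟩⟩⟩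
  have : inc ⁻¹' (insert ⊥ (inc '' N r)) = N r := by
    ext x
    constructor
    · rintro (h | ⟨y, hy, hxy⟩)
      · exact absurd h (inc_ne x)
      · rwa [← inc_injective hxy]
    · intro h
      exact Or.inr ⟨x, h, rfl⟩
  rw [this]
  exact N_open r

instance : T2Space X := by
  constructor
  have key : ∀ x : El, ∃ u v : Set X, IsOpen u ∧ IsOpen v ∧ inc x ∈ u ∧ ⊥ ∈ v ∧ Disjoint u v := by
    intro x
    obtain ⟨V, hV, hx, hd⟩ := N_sep x
    refine ⟨inc '' V, insert ⊥ (inc '' N (x.m + 1)), inc_image_open V hV, nb_open _,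
      ⟨x, hx, rfl⟩, Or.inl rfl, ?_⟩
    rw [Set.disjoint_left]
    rintro _ ⟨y, hy, rfl⟩ (h | ⟨z, hz, hyz⟩)
    · exact inc_ne y h
    · rw [inc_injective hyz] at hz
      exact hd y hy hz
  intro x y
  revert x y
  apply x_cases
  · apply x_cases
    · intro h
      exact absurd rfl h
    · intro y _
      obtain ⟨u, v, hu, hv, h1, h2, h3⟩ := key y
      exact ⟨v, u, hv, hu, h2, h1, h3.symm⟩
  · intro x
    apply x_cases
    · intro _
      exact key x
    · intro y hxy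
      have hne : x ≠ y := fun h => hxy (by rw [h])
      obtain ⟨u, v, hu, hv, h1, h2, h3⟩ := t2_separation hne
      exact ⟨inc '' u, inc '' v, inc_image_open u hu, inc_image_open v hv, ⟨x, h1, rfl⟩,
        ⟨y, h2, rfl⟩, (Set.disjoint_image_iff inc_injective).2 h3⟩

instance : ContinuousInf X := by
  constructor
  rw [continuous_iff_continuousAt]
  rintro ⟨x, y⟩
  revert x y
  apply x_cases
  · -- first argument is zero
    apply x_cases
    · intro U hU
      have h0 : (⊥ : X) ⊓ ⊥ = ⊥ := inf_idem _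
      change U ∈ 𝓝 ((⊥ : X) ⊓ ⊥) at hU
      rw [h0] at hU
      obtain ⟨W, hWU, hW, hb⟩ := mem_nhds_iff.1 hU
      obtain ⟨r, hr⟩ := hW.2 hb
      have h1 : insert ⊥ (inc '' N r) ∈ 𝓝 (⊥ : X) := (nb_open r).mem_nhds (Or.inl rfl)
      rw [Filter.mem_map, nhds_prod_eq]
      refine Filter.mem_of_superset (Filter.prod_mem_prod h1 h1) ?_
      rintro ⟨u, v⟩ ⟨hu, hv⟩
      apply hWU
      show u ⊓ v ∈ W
      rcases hu with rfl | ⟨u, hu, rfl⟩
      · rw [bot_inf_eq]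
        exact hb
      · rcases hv with rfl | ⟨v, hv, rfl⟩
        · rw [inf_bot_eq]
          exact hb
        · rw [← inc_inf]
          exact hr _ (N_mul' r u v hu hv)
    · intro y U hU
      have h0 : (⊥ : X) ⊓ inc y = ⊥ := bot_inf_eq _
      change U ∈ 𝓝 ((⊥ : X) ⊓ inc y) at hU
      rw [h0] at hU
      obtain ⟨W, hWU, hW, hb⟩ := mem_nhds_iff.1 hU
      obtain ⟨r, hr⟩ := hW.2 hb
      obtain ⟨V, hV, hy, s, hs⟩ := N_mul y r
      have h1 : insert ⊥ (inc '' N s) ∈ 𝓝 (⊥ : X) := (nb_open s).mem_nhds (Or.inl rfl)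
      have h2 : inc '' V ∈ 𝓝 (inc y) := (inc_image_open V hV).mem_nhds ⟨y, hy, rfl⟩
      rw [Filter.mem_map, nhds_prod_eq]
      refine Filter.mem_of_superset (Filter.prod_mem_prod h1 h2) ?_
      rintro ⟨u, v⟩ ⟨hu, hv⟩
      apply hWU
      show u ⊓ v ∈ W
      obtain ⟨v, hv, rfl⟩ := hv
      rcases hu with rfl | ⟨u, hu, rfl⟩
      · rw [bot_inf_eq]
        exact hb
      · rw [inf_comm, ← inc_inf]
        exact hr _ (hs v hv u hu)
  · intro x
    apply x_cases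
    · intro U hU
      have h0 : inc x ⊓ (⊥ : X) = ⊥ := inf_bot_eq _
      change U ∈ 𝓝 (inc x ⊓ (⊥ : X)) at hU
      rw [h0] at hU
      obtain ⟨W, hWU, hW, hb⟩ := mem_nhds_iff.1 hU
      obtain ⟨r, hr⟩ := hW.2 hb
      obtain ⟨V, hV, hy, s, hs⟩ := N_mul x r
      have h1 : insert ⊥ (inc '' N s) ∈ 𝓝 (⊥ : X) := (nb_open s).mem_nhds (Or.inl rfl)
      have h2 : inc '' V ∈ 𝓝 (inc x) := (inc_image_open V hV).mem_nhds ⟨x, hy, rfl⟩
      rw [Filter.mem_map, nhds_prod_eq]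
      refine Filter.mem_of_superset (Filter.prod_mem_prod h2 h1) ?_
      rintro ⟨v, u⟩ ⟨hv, hu⟩
      apply hWU
      show v ⊓ u ∈ W
      obtain ⟨v, hv, rfl⟩ := hv
      rcases hu with rfl | ⟨u, hu, rfl⟩
      · rw [inf_bot_eq]
        exact hb
      · rw [← inc_inf]
        exact hr _ (hs v hv u hu)
    · intro y U hU
      change U ∈ 𝓝 (inc x ⊓ inc y) at hU
      rw [← inc_inf] at hU
      have h1 := (continuous_inc.comp continuous_meet).tendsto (x, y) hU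
      rw [nhds_prod_eq, Filter.mem_map, Filter.mem_prod_iff] at h1
      obtain ⟨A, hA, B, hB, hAB⟩ := h1
      obtain ⟨A', hA', hA'o, hxA⟩ := mem_nhds_iff.1 hA
      obtain ⟨B', hB', hB'o, hyB⟩ := mem_nhds_iff.1 hB
      have h2 : inc '' A' ∈ 𝓝 (inc x) := (inc_image_open A' hA'o).mem_nhds ⟨x, hxA, rfl⟩
      have h3 : inc '' B' ∈ 𝓝 (inc y) := (inc_image_open B' hB'o).mem_nhds ⟨y, hyB, rfl⟩
      rw [Filter.mem_map, nhds_prod_eq]
      refine Filter.mem_of_superset (Filter.prod_mem_prod h2 h3) ?_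
      rintro ⟨u, v⟩ ⟨⟨u, hu, rfl⟩, ⟨v, hv, rfl⟩⟩
      exact hAB (Set.mk_mem_prod (hA' hu) (hB' hv))

end Pool.Agent.X155.CSemi
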