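import Pool.Agent.X155.CSemi

/-!
Completeness properties of the semilattice of `CSemi`.
-/

set_option autoImplicit false

open Filter Topology Set

namespace Pool.Agent.X155.CSemi

/-- the function `(f a on [0, a], 0 beyond)` -/
noncomputable def trunc (a : ℕ) (v : ℕ∞) (n : ℕ) : ℕ∞ := if n ≤ a then v else 0

theorem trunc_anti (a : ℕ) (v : ℕ∞) : Antitone (trunc a v) := by
  intro m n hmn
  unfold trunc
  by_cases h : n ≤ a
  · rw [if_pos h, if_pos (hmn.trans h)]
  · rw [if_neg h]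
    exact zero_le

/-- `y_m` -/
def yy (m : ℕ) : El where
  f _ := 0
  m := m
  anti := fun _ _ _ => le_rfl
  fin := ENat.zero_ne_top

/-- `p_{a+1}` -/
noncomputable def pp (a : ℕ) : El where
  f := trunc a ⊤
  m := a + 1
  anti := trunc_anti a ⊤
  fin := by
    unfold trunc
    rw [if_neg (by omega)]
    exact ENat.zero_ne_top

open Classical in
/-- truncations of an element at `a` -/
noncomputable def hh (a : ℕ) (x : El) : El where
  f := trunc a (if x.f a = ⊤ then 0 else x.f a)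
  m := 0
  anti := trunc_anti a _
  fin := by
    unfold trunc
    rw [if_pos (Nat.zero_le a)]
    by_cases h : x.f a = ⊤
    · rw [if_pos h]
      exact ENat.zero_ne_top
    · rw [if_neg h]
      exact h

theorem hh_f (a : ℕ) (x : El) (h : x.f a ≠ ⊤) : (hh a x).f = trunc a (x.f a) := by
  show trunc a _ = _
  rw [if_neg h]

theorem le_hh (a : ℕ) (x : El) (h : x.f a ≠ ⊤) : x ≤ hh a x := by
  refine ⟨fun b => ?_, Nat.zero_le _⟩
  rw [hh_f a x h]
  unfold trunc
  by_cases hb : b ≤ a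
  · rw [if_pos hb]
    exact x.anti hb
  · rw [if_neg hb]
    exact zero_le

theorem yy_mem (r m : ℕ) (h : r ≤ m) (h1 : 1 ≤ m) : yy m ∈ N r := ⟨h, h1, ENat.zero_ne_top⟩

theorem pp_le_yy (a : ℕ) : pp a ≤ yy (a + 1) := ⟨fun _ => zero_le, le_rfl⟩

variable {F : Set El} {D : Set El}

/-- if a closed upper set contains elements of all `N r`, the point zero is in its closure -/
theorem zero_mem (G : Set X) (hG : IsClosed G) (h : ∀ r, ∃ x ∈ N r, inc x ∈ G) : ⊥ ∈ G := by
  by_contra hb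
  have h1 : IsOpen Gᶜ := hG.isOpen_compl
  obtain ⟨r, hr⟩ := h1.2 hb
  obtain ⟨x, hx, hx'⟩ := h r
  exact hr x hx hx'

/-- chains of `El` are directed downwards -/
theorem dir_down (hD : IsChain (· ≤ ·) D) : ∀ x ∈ D, ∀ y ∈ D, ∃ w ∈ D,
    (∀ v : El, v ≤ w → v ≤ x ∧ v ≤ y) := by
  intro x hx y hy
  rcases hD.total hx hy with h | h
  · exact ⟨x, hx, fun v hv => ⟨hv, hv.trans h⟩⟩
  · exact ⟨y, hy, fun v hv => ⟨hv.trans h, hv⟩⟩

theorem dir_up (hD : IsChain (· ≤ ·) D) : ∀ x ∈ D, ∀ y ∈ D, ∃ w ∈ D,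
    (∀ v : El, w ≤ v → x ≤ v ∧ y ≤ v) := by
  intro x hx y hy
  rcases hD.total hx hy with h | h
  · exact ⟨y, hy, fun v hv => ⟨h.trans hv, hv⟩⟩
  · exact ⟨x, hx, fun v hv => ⟨hv, h.trans hv⟩⟩

/-- pointwise supremum of the functions -/
noncomputable def gsup (D : Set El) (a : ℕ) : ℕ∞ := ⨆ x : D, x.1.f a

theorem gsup_anti (D : Set El) : Antitone (gsup D) := fun _ _ hab =>
  iSup_mono (fun x => x.1.anti hab)

theorem le_gsup {x : El} (hx : x ∈ D) (a : ℕ) : x.f a ≤ gsup D a :=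
  le_iSup (fun x : D => x.1.f a) ⟨x, hx⟩

theorem gsup_le {a : ℕ} {v : ℕ∞} (h : ∀ x ∈ D, x.f a ≤ v) : gsup D a ≤ v :=
  iSup_le (fun x => h x.1 x.2)

theorem lt_gsup {a : ℕ} {v : ℕ∞} (h : v < gsup D a) : ∃ x ∈ D, v < x.f a := by
  obtain ⟨x, hx⟩ := lt_iSup_iff.1 h
  exact ⟨x.1, x.2, hx⟩

/-- the regular case -/
theorem inf_regular (hne : D.Nonempty) (hD : IsChain (· ≤ ·) D) (B : ℕ) (hB : ∀ x ∈ D, x.m ≤ B)
    (a0 : ℕ) (ha0 : gsup D a0 ≠ ⊤) : ∃ z : El, z ∈ closure D ∧ (∀ x ∈ D, z ≤ x) ∧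
      (∀ w : El, (∀ x ∈ D, w ≤ x) → w ≤ z) := by
  classical
  have hex : ∃ a, gsup D a ≠ ⊤ := ⟨a0, ha0⟩
  have hex2 : ∃ x ∈ D, ∀ y ∈ D, y.m ≤ x.m := by
    have h1 : (El.m '' D).Nonempty := hne.image _
    have h2 : BddAbove (El.m '' D) := ⟨B, by rintro _ ⟨x, hx, rfl⟩; exact hB x hx⟩
    obtain ⟨x, hx, hx'⟩ := Nat.sSup_mem h1 h2
    refine ⟨x, hx, fun y hy => ?_⟩
    rw [hx']
    exact le_csSup h2 ⟨y, hy, rfl⟩
  obtain ⟨x1, hx1, hmax⟩ := hex2
  let n := max x1.m (Nat.find hex)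
  have hn : gsup D n ≠ ⊤ :=
    ne_top_of_le_ne_top (Nat.find_spec hex) (gsup_anti D (le_max_right _ _))
  refine ⟨⟨gsup D, n, gsup_anti D, hn⟩, ?_, ?_, ?_⟩
  · have h := mem_closure_of D hne (· ≤ ·) (dir_down hD) le_refl id
      ⟨gsup D, n, gsup_anti D, hn⟩ (by
        rintro ⟨a, d, k⟩
        by_cases hm : Mem ⟨gsup D, n, gsup_anti D, hn⟩ (a, d, k)
        · refine ⟨x1, hx1, fun x hx _ => ⟨fun _ => hm, fun _ => ?_⟩⟩
          obtain ⟨h1, h2⟩ := hm
          exact ⟨(hmax x hx).trans ((le_max_left _ _).trans h1), (le_gsup hx a).trans h2⟩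
        · by_cases hg : gsup D a ≤ (k : ℕ∞)
          · have hgn : ¬ n ≤ a + d := fun h => hm ⟨h, hg⟩
            have hfa : Nat.find hex ≤ a :=
              Nat.find_min' hex (ne_top_of_le_ne_top (ENat.natCast_ne_top k) hg)
            have hx1m : a + d < x1.m := by
              have h3 : n = max x1.m (Nat.find hex) := rfl
              omega
            refine ⟨x1, hx1, fun x hx hle => ⟨fun h => ?_, fun h => absurd h hm⟩⟩
            have h4 : x.m ≤ a + d := h.1
            have h5 := hle.2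
            omega
          · push Not at hg
            obtain ⟨x2, hx2, h2⟩ := lt_gsup hg
            refine ⟨x2, hx2, fun x hx hle => ⟨fun h => ?_, fun h => absurd h hm⟩⟩
            exact absurd (h2.trans_le (hle.1 a)) (not_lt.2 h.2))
    rwa [Set.image_id] at h
  · intro x hx
    exact ⟨fun a => le_gsup hx a, (hmax x hx).trans (le_max_left _ _)⟩
  · intro w hw
    refine ⟨fun a => gsup_le (fun x hx => (hw x hx).1 a), ?_⟩
    apply max_le (hw x1 hx1).2
    apply Nat.find_min' hex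
    exact ne_top_of_le_ne_top w.fin (gsup_le (fun x hx => (hw x hx).1 w.m))

/-- suprema of chains -/
theorem sup_chain (hne : D.Nonempty) (hD : IsChain (· ≤ ·) D) : ∃ z : El, z ∈ closure D ∧
    (∀ x ∈ D, x ≤ z) ∧ (∀ w : El, (∀ x ∈ D, x ≤ w) → z ≤ w) := by
  classical
  have hne' : Nonempty D := hne.to_subtype
  have hatt : ∀ a, ∃ x ∈ D, ∀ y ∈ D, x.f a ≤ y.f a := by
    intro a
    obtain ⟨x, hx⟩ := ciInf_mem (fun x : D => x.1.f a)
    refine ⟨x.1, x.2, fun y hy => ?_⟩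
    have h1 : x.1.f a = ⨅ x : D, x.1.f a := hx
    rw [h1]
    exact iInf_le (fun x : D => x.1.f a) ⟨y, hy⟩
  choose x hx hmin using hatt
  obtain ⟨x1, hx1, hm⟩ : ∃ x ∈ D, ∀ y ∈ D, x.m ≤ y.m := by
    have h1 : (El.m '' D).Nonempty := hne.image _
    obtain ⟨x, hx, hx'⟩ := Nat.sInf_mem h1
    refine ⟨x, hx, fun y hy => ?_⟩
    rw [hx']
    exact Nat.sInf_le ⟨y, hy, rfl⟩
  have hanti : Antitone (fun a => (x a).f a) := by
    intro a b hab
    exact (hmin b _ (hx a)).trans ((x a).anti hab)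
  have hfin : (x x1.m).f x1.m ≠ ⊤ := ne_top_of_le_ne_top x1.fin (hmin _ x1 hx1)
  refine ⟨⟨fun a => (x a).f a, x1.m, hanti, hfin⟩, ?_, ?_, ?_⟩
  · have h := mem_closure_of D hne (fun u v => v ≤ u) (dir_up hD) le_refl id
      ⟨fun a => (x a).f a, x1.m, hanti, hfin⟩ (by
        rintro ⟨a, d, k⟩
        obtain ⟨w, hw, hw'⟩ := dir_up hD x1 hx1 (x a) (hx a)
        refine ⟨w, hw, fun u hu huw => ?_⟩
        obtain ⟨h1, h2⟩ := hw' u huw
        have h3 : u.m = x1.m := le_antisymm h1.2 (hm u hu)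
        have h4 : u.f a = (x a).f a := le_antisymm (h2.1 a) (hmin a u hu)
        show (u.m ≤ a + d ∧ u.f a ≤ (k : ℕ∞)) ↔ (x1.m ≤ a + d ∧ (x a).f a ≤ (k : ℕ∞))
        rw [h3, h4])
    rwa [Set.image_id] at h
  · intro u hu
    exact ⟨fun a => hmin a u hu, hm u hu⟩
  · intro w hw
    exact ⟨fun a => (hw _ (hx a)).1 a, (hw _ hx1).2⟩

/-- chains in `X` avoiding zero come from chains in `El` -/
theorem chain_pre (C : Set X) (hC : IsChain (· ≤ ·) C) :
    IsChain (· ≤ ·) (inc ⁻¹' C) := by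
  intro x hx y hy hne
  have h1 : inc x ≠ inc y := fun h => hne (inc_injective h)
  rcases hC hx hy h1 with h | h
  · exact Or.inl ((inc_le x y).1 h)
  · exact Or.inr ((inc_le y x).1 h)

theorem glb_mem (G : Set X) (hG : IsClosed G) (hup : IsUpperSet G) (C : Set X) (hCG : C ⊆ G)
    (hne : C.Nonempty) (hC : IsChain (· ≤ ·) C) : ∃ i, IsGLB C i ∧ i ∈ G := by
  by_cases hb : (⊥ : X) ∈ C
  · exact ⟨⊥, ⟨fun x _ => bot_le, fun w hw => hw hb⟩, hCG hb⟩
  set D : Set El := inc ⁻¹' C with hDdef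
  have hDC : ∀ c ∈ C, ∃ x ∈ D, inc x = c := by
    intro c
    refine x_cases (C := fun c => c ∈ C → ∃ x ∈ D, inc x = c) ?_ ?_ c
    · intro h
      exact absurd h hb
    · intro x hx
      exact ⟨x, hx, rfl⟩
  have hDne : D.Nonempty := by
    obtain ⟨c, hc⟩ := hne
    obtain ⟨x, hx, _⟩ := hDC c hc
    exact ⟨x, hx⟩
  have hD : IsChain (· ≤ ·) D := chain_pre C hC
  have hF : IsClosed (inc ⁻¹' G) := hG.preimage continuous_inc
  have hFup : ∀ x y : El, inc x ∈ G → x ≤ y → inc y ∈ G := fun x y hx hxy =>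
    hup ((inc_le x y).2 hxy) hx
  -- zero is the infimum as soon as `El` has no lower bound
  have hbot : (∀ w : El, ¬ ∀ x ∈ D, w ≤ x) → IsGLB C ⊥ := by
    intro h
    refine ⟨fun x _ => bot_le, fun w => ?_⟩
    refine x_cases (C := fun w => w ∈ lowerBounds C → w ≤ ⊥) (fun _ => le_rfl) ?_ w
    intro w hw
    exact absurd (fun x hx => (inc_le w x).1 (hw hx)) (h w)
  by_cases hg : ∃ a0, gsup D a0 ≠ ⊤
  · obtain ⟨a0, ha0⟩ := hg
    by_cases hB : ∃ B, ∀ x ∈ D, x.m ≤ B
    · obtain ⟨B, hB⟩ := hB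
      obtain ⟨z, hz, hz1, hz2⟩ := inf_regular hDne hD B hB a0 ha0
      refine ⟨inc z, ⟨?_, ?_⟩, ?_⟩
      · intro c hc
        obtain ⟨x, hx, rfl⟩ := hDC c hc
        exact (inc_le z x).2 (hz1 x hx)
      · intro w
        refine x_cases (C := fun w => w ∈ lowerBounds C → w ≤ inc z) (fun _ => bot_le) ?_ w
        intro w hw
        exact (inc_le w z).2 (hz2 w (fun x hx => (inc_le w x).1 (hw hx)))
      · exact closure_minimal (s := D) (t := inc ⁻¹' G) (fun x hx => hCG hx) hF hz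
    · push Not at hB
      refine ⟨⊥, hbot ?_, zero_mem G hG ?_⟩
      · intro w hw
        obtain ⟨x, hx, hlt⟩ := hB w.m
        exact absurd (hw x hx).2 (not_le.2 hlt)
      · intro r
        obtain ⟨x, hx, hlt⟩ := hB (max r (a0 + 1))
        refine ⟨x, ⟨by omega, by omega, ?_⟩, hCG hx⟩
        have h1 : x.f (x.m - 1) ≤ gsup D a0 := (x.anti (by omega)).trans (le_gsup hx a0)
        exact ne_top_of_le_ne_top ha0 h1
  · push Not at hg
    refine ⟨⊥, hbot ?_, zero_mem G hG ?_⟩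
    · intro w hw
      apply w.fin
      rw [← top_le_iff, ← hg w.m]
      exact gsup_le (fun x hx => (hw x hx).1 w.m)
    · by_cases hi : ∀ r, ∃ x ∈ D, x.f r = ⊤
      · intro r
        obtain ⟨x, hx, hxr⟩ := hi r
        have hm : r < x.m := by
          by_contra hle
          push Not at hle
          apply x.fin
          rw [← top_le_iff, ← hxr]
          exact x.anti hle
        exact ⟨yy x.m, yy_mem r x.m hm.le (by omega),
          hFup x _ (hCG hx) ⟨fun _ => zero_le, le_rfl⟩⟩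
      · push Not at hi
        obtain ⟨r0, hr0⟩ := hi
        intro r
        set a := max r0 r with ha
        have hfa : ∀ x ∈ D, x.f a ≠ ⊤ := fun x hx =>
          ne_top_of_le_ne_top (hr0 x hx) (x.anti (le_max_left _ _))
        have hpp : inc (pp a) ∈ G := by
          have h := mem_closure_of D hDne (· ≤ ·) (dir_down hD) le_refl (hh a) (pp a) (by
            rintro ⟨b, d, k⟩
            obtain ⟨x0, hx0, hlt⟩ := lt_gsup (D := D) (a := a) (v := (k : ℕ∞)) (by
              rw [hg a]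
              exact ENat.natCast_lt_top k)
            refine ⟨x0, hx0, fun x hx hle => ?_⟩
            show ((hh a x).m ≤ b + d ∧ (hh a x).f b ≤ (k : ℕ∞)) ↔
              (a + 1 ≤ b + d ∧ trunc a ⊤ b ≤ (k : ℕ∞))
            rw [hh_f a x (hfa x hx)]
            unfold trunc
            by_cases hb' : b ≤ a
            · rw [if_pos hb', if_pos hb']
              constructor
              · rintro ⟨_, h1⟩
                exact absurd (hlt.trans_le (hle.1 a)) (not_lt.2 h1)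
              · rintro ⟨_, h1⟩
                exact absurd (top_le_iff.1 h1) (ENat.natCast_ne_top k)
            · rw [if_neg hb', if_neg hb']
              constructor
              · intro _
                exact ⟨by omega, zero_le⟩
              · intro _
                exact ⟨Nat.zero_le _, zero_le⟩)
          refine closure_minimal ?_ hF h
          rintro _ ⟨x, hx, rfl⟩
          exact hFup x _ (hCG hx) (le_hh a x (hfa x hx))
        exact ⟨yy (a + 1), yy_mem r (a + 1) (by omega) (by omega), hFup _ _ hpp (pp_le_yy a)⟩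

theorem lub_mem (C : Set X) (hne : C.Nonempty) (hC : IsChain (· ≤ ·) C) :
    ∃ s, IsLUB C s ∧ s ∈ closure {x | ∃ c ∈ C, x ≤ c} := by
  by_cases hD : (inc ⁻¹' C).Nonempty
  · obtain ⟨z, hz, hz1, hz2⟩ := sup_chain hD (chain_pre C hC)
    refine ⟨inc z, ⟨?_, ?_⟩, ?_⟩
    · intro c
      refine x_cases (C := fun c => c ∈ C → c ≤ inc z) (fun _ => bot_le) ?_ c
      intro x hx
      exact (inc_le x z).2 (hz1 x hx)
    · intro w
      refine x_cases (C := fun w => w ∈ upperBounds C → inc z ≤ w) ?_ ?_ w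
      · intro h
        obtain ⟨x, hx⟩ := hD
        exact absurd (h hx) (not_le_bot x)
      · intro w hw
        exact (inc_le z w).2 (hz2 w (fun x hx => (inc_le x w).1 (hw hx)))
    · have h1 : inc z ∈ closure (inc '' (inc ⁻¹' C)) :=
        image_closure_subset_closure_image continuous_inc ⟨z, hz, rfl⟩
      refine closure_mono ?_ h1
      rintro _ ⟨x, hx, rfl⟩
      exact ⟨inc x, hx, le_rfl⟩
  · have hall : ∀ c ∈ C, c = ⊥ := by
      intro c
      refine x_cases (C := fun c => c ∈ C → c = ⊥) (fun _ => rfl) ?_ c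
      intro x hx
      exact absurd ⟨x, hx⟩ hD
    obtain ⟨c, hc⟩ := hne
    have hcb := hall c hc
    subst hcb
    refine ⟨⊥, ⟨fun x hx => (hall x hx).le, fun w _ => bot_le⟩, subset_closure ⟨⊥, hc, le_rfl⟩⟩

/-- `c_k` -/
def cc (k : ℕ) : El where
  f _ := (k : ℕ∞)
  m := 0
  anti := fun _ _ _ => le_rfl
  fin := ENat.natCast_ne_top k

theorem cc_chain : IsChain (· ≤ ·) (Set.range fun k => inc (cc k)) := by
  rintro _ ⟨k, rfl⟩ _ ⟨l, rfl⟩ _
  rcases le_total k l with h | h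
  · right
    exact (inc_le _ _).2 ⟨fun _ => by show (k : ℕ∞) ≤ (l : ℕ∞); exact_mod_cast h, le_rfl⟩
  · left
    exact (inc_le _ _).2 ⟨fun _ => by show (l : ℕ∞) ≤ (k : ℕ∞); exact_mod_cast h, le_rfl⟩

theorem cc_glb : IsGLB (Set.range fun k => inc (cc k)) (⊥ : X) := by
  refine ⟨fun x _ => bot_le, fun w => ?_⟩
  refine x_cases (C := fun w => w ∈ lowerBounds (Set.range fun k => inc (cc k)) → w ≤ ⊥)
    (fun _ => le_rfl) ?_ w
  intro w hw
  exfalso
  obtain ⟨k, hk⟩ := exists_nat_ge w.fin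
  have h1 := (inc_le _ _).1 (hw ⟨k + 1, rfl⟩)
  have h2 : ((k + 1 : ℕ) : ℕ∞) ≤ w.f w.m := h1.1 w.m
  have h3 : ((k + 1 : ℕ) : ℕ∞) ≤ (k : ℕ∞) := h2.trans hk
  have h4 : k + 1 ≤ k := by exact_mod_cast h3
  omega

theorem cc_not_closure :
    (⊥ : X) ∉ closure {x | ∃ c ∈ Set.range (fun k => inc (cc k)), c ≤ x} := by
  intro h
  rw [mem_closure_iff] at h
  obtain ⟨x, hx1, c, ⟨k, rfl⟩, hx2⟩ := h _ (nb_open 1) (Or.inl rfl)
  rcases hx1 with rfl | ⟨y, hy, rfl⟩
  · exact not_le_bot _ hx2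
  · have h1 := (inc_le _ _).1 hx2
    have h2 : y.m ≤ 0 := h1.2
    have h3 := hy.2.1
    omega

end Pool.Agent.X155.CSemi
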