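import Mathlib

/-! A group of order `243` and class `2` in which all word counts are invariant under powers. -/

namespace X155.ClassTwo

/-- The additive group `ZMod 27 × ZMod 9`. -/
abbrev L := ZMod 27 × ZMod 9

/-- Reduction modulo `9`. -/
def c9 : ZMod 27 →+* ZMod 9 := ZMod.castHom (by norm_num : 9 ∣ 27) (ZMod 9)

/-- The Lie bracket on `L`. -/
def br (p q : L) : L := (0, 3 * (p.2 * c9 q.1 - c9 p.1 * q.2))

theorem br_add_left (p p' q : L) : br (p + p') q = br p q + br p' q := by
  apply Prod.ext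
  · simp [br]
  · simp [br]; ring

theorem br_add_right (p q q' : L) : br p (q + q') = br p q + br p q' := by
  apply Prod.ext
  · simp [br]
  · simp [br]; ring

theorem br_self (p : L) : br p p = 0 := by
  apply Prod.ext
  · simp [br]
  · simp [br]; ring

theorem br_zero_left (q : L) : br 0 q = 0 := by simp [br]

theorem br_zero_right (q : L) : br q 0 = 0 := by simp [br]

theorem br_swap (p q : L) : br p q = -br q p := by
  have h := br_self (p + q)
  rw [br_add_left, br_add_right, br_add_right, br_self, br_self] at h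
  simp at h
  exact eq_neg_of_add_eq_zero_left h

theorem nine9 : (9 : ZMod 9) = 0 := by decide

theorem br_br_left (p q r : L) : br (br p q) r = 0 := by
  apply Prod.ext
  · simp [br]
  · simp only [br, map_zero, zero_mul, sub_zero, Prod.snd_zero]
    linear_combination (p.2 * c9 q.1 - c9 p.1 * q.2) * c9 r.1 * nine9

theorem br_br_right (p q r : L) : br r (br p q) = 0 := by
  rw [br_swap, br_br_left, neg_zero]

/-- Bracket as a biadditive map. -/
def brHom : L →+ L →+ L := AddMonoidHom.mk' (fun p => AddMonoidHom.mk' (br p) (br_add_right p))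
  (fun p p' => by ext q <;> simp [br_add_left])

theorem brHom_apply (p q : L) : brHom p q = br p q := rfl

theorem br_zsmul_left (n : ℤ) (p q : L) : br (n • p) q = n • br p q := by
  have : brHom (n • p) q = n • brHom p q := by rw [map_zsmul]; rfl
  exact this

theorem br_zsmul_right (n : ℤ) (p q : L) : br p (n • q) = n • br p q := by
  have : brHom p (n • q) = n • brHom p q := by rw [map_zsmul]
  exact this

theorem br_sum_left {ι : Type*} (s : Finset ι) (f : ι → L) (q : L) :
    br (∑ i ∈ s, f i) q = ∑ i ∈ s, br (f i) q := by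
  have : brHom (∑ i ∈ s, f i) q = ∑ i ∈ s, brHom (f i) q := by
    rw [map_sum, AddMonoidHom.finsetSum_apply]
  exact this

theorem br_sum_right {ι : Type*} (s : Finset ι) (f : ι → L) (q : L) :
    br q (∑ i ∈ s, f i) = ∑ i ∈ s, br q (f i) := by
  have : brHom q (∑ i ∈ s, f i) = ∑ i ∈ s, brHom q (f i) := by rw [map_sum]
  exact this

theorem tor (v : L) : (27 : ℤ) • v = 0 := by
  apply Prod.ext
  · rw [Prod.smul_fst, zsmul_eq_mul]
    have : ((27 : ℤ) : ZMod 27) = 0 := by decide
    rw [this, zero_mul]; rfl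
  · rw [Prod.smul_snd, zsmul_eq_mul]
    have : ((27 : ℤ) : ZMod 9) = 0 := by decide
    rw [this, zero_mul]; rfl

/-- The group: pairs `(x, y)` in `ZMod 27 × ZMod 9`, with multiplication `p + q + (1/2) [p, q]`. -/
@[ext] structure G where
  /-- The underlying pair. -/
  v : L

/-- The underlying pair, as a bijection. -/
def gEquiv : G ≃ L := ⟨G.v, G.mk, fun _ => rfl, fun _ => rfl⟩

instance : Fintype G := Fintype.ofEquiv L gEquiv.symm
instance : DecidableEq G := fun p q => decidable_of_iff (p.v = q.v) G.ext_iff.symm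

theorem assoc_aux (p q r : L) : p + q + (14 : ℤ) • br p q + r + (14 : ℤ) • br (p + q + (14 : ℤ) • br p q) r
    = p + (q + r + (14 : ℤ) • br q r) + (14 : ℤ) • br p (q + r + (14 : ℤ) • br q r) := by
  rw [br_add_left, br_add_left, br_add_right, br_add_right, br_zsmul_left, br_zsmul_right,
    br_br_left, br_br_right]
  simp only [smul_add, smul_zero, add_zero]
  abel

instance : Mul G := ⟨fun p q => ⟨p.v + q.v + (14 : ℤ) • br p.v q.v⟩⟩
instance : One G := ⟨⟨0⟩⟩
instance : Inv G := ⟨fun p => ⟨-p.v⟩⟩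

theorem mul_v (p q : G) : (p * q).v = p.v + q.v + (14 : ℤ) • br p.v q.v := rfl
theorem one_v : (1 : G).v = 0 := rfl
theorem inv_v (p : G) : (p⁻¹).v = -p.v := rfl

instance : Group G :=
  Group.ofLeftAxioms (fun p q r => G.ext (assoc_aux p.v q.v r.v))
    (fun p => by
      apply G.ext
      rw [mul_v, one_v, br_zero_left, smul_zero, add_zero, zero_add])
    (fun p => by
      apply G.ext
      rw [mul_v, one_v, inv_v]
      have : br (-p.v) p.v = 0 := by
        have := br_zsmul_left (-1) p.v p.v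
        rw [br_self, smul_zero, neg_one_zsmul] at this
        exact this
      rw [this, smul_zero, add_zero, neg_add_cancel])

/-- Powers are multiples. -/
theorem pow_v (p : G) (k : ℕ) : (p ^ k).v = (k : ℤ) • p.v := by
  induction k with
  | zero => rw [pow_zero]; simp [one_v]
  | succ k ih =>
    rw [pow_succ, mul_v, ih, br_zsmul_left, br_self]
    simp only [smul_zero, add_zero]
    push_cast
    rw [add_smul, one_smul]

/-- The additive form of a word value. -/
def ev {r : ℕ} (a : Fin r → ℤ) (m : Fin r → Fin r → ℤ) (p : Fin r → L) : L :=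
  ∑ i, a i • p i + ∑ i, ∑ j, m i j • br (p i) (p j)

theorem br_ev {r : ℕ} (a a' : Fin r → ℤ) (m m' : Fin r → Fin r → ℤ) (p : Fin r → L) :
    br (ev a m p) (ev a' m' p) = ∑ i, ∑ j, (a i * a' j) • br (p i) (p j) := by
  have h1 : ∀ q : L, br (∑ i, ∑ j, m i j • br (p i) (p j)) q = 0 := by
    intro q
    rw [br_sum_left]
    refine Finset.sum_eq_zero fun i _ => ?_
    rw [br_sum_left]
    refine Finset.sum_eq_zero fun j _ => ?_
    rw [br_zsmul_left, br_br_left, smul_zero]
  have h2 : ∀ q : L, br q (∑ i, ∑ j, m' i j • br (p i) (p j)) = 0 := by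
    intro q
    rw [br_sum_right]
    refine Finset.sum_eq_zero fun i _ => ?_
    rw [br_sum_right]
    refine Finset.sum_eq_zero fun j _ => ?_
    rw [br_zsmul_right, br_br_right, smul_zero]
  rw [ev, ev, br_add_left, h1, add_zero, br_add_right, h2, add_zero, br_sum_left]
  refine Finset.sum_congr rfl fun i _ => ?_
  rw [br_sum_right]
  refine Finset.sum_congr rfl fun j _ => ?_
  rw [br_zsmul_left, br_zsmul_right, smul_smul]

/-- Every word is of the form `ev a m`. -/
theorem word_form {r : ℕ} (w : FreeGroup (Fin r)) :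
    ∃ (a : Fin r → ℤ) (m : Fin r → Fin r → ℤ), ∀ p : Fin r → G,
      (FreeGroup.lift p w).v = ev a m (fun i => (p i).v) := by
  induction w using FreeGroup.induction_on with
  | C1 =>
    refine ⟨0, 0, fun p => ?_⟩
    rw [map_one]; simp [ev, one_v]
  | of i =>
    refine ⟨Pi.single i 1, 0, fun p => ?_⟩
    rw [FreeGroup.lift_apply_of]
    have : ∑ j, (Pi.single i (1 : ℤ) : Fin r → ℤ) j • (p j).v = (p i).v := by
      rw [Finset.sum_eq_single i]
      · simp
      · intro j _ hj; simp [hj]
      · simp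
    rw [ev, this]
    simp
  | inv_of i h =>
    obtain ⟨a, m, h⟩ := h
    refine ⟨-a, -m, fun p => ?_⟩
    rw [map_inv, inv_v, h]
    simp [ev, Finset.sum_neg_distrib]
    abel
  | mul u v hu hv =>
    obtain ⟨a, m, hu⟩ := hu
    obtain ⟨a', m', hv⟩ := hv
    refine ⟨a + a', fun i j => m i j + m' i j + 14 * (a i * a' j), fun p => ?_⟩
    rw [map_mul, mul_v, hu, hv, br_ev]
    simp only [ev, Pi.add_apply, add_smul, Finset.sum_add_distrib, mul_smul, Finset.smul_sum]
    abel

/-! ### Scaling transformations -/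

/-- `T` multiplies the linear part `∑ a i p i` and the quadratic part by `k`. -/
def Scales {r : ℕ} (k : ℤ) (a : Fin r → ℤ) (m : Fin r → Fin r → ℤ)
    (T : (Fin r → L) ≃ (Fin r → L)) : Prop :=
  ∀ p, ∑ i, a i • T p i = k • ∑ i, a i • p i ∧
    ∑ i, ∑ j, m i j • br (T p i) (T p j) = k • ∑ i, ∑ j, m i j • br (p i) (p j)

/-- Multiplication by `k` on `Fin r → L`, when it is bijective on `L`. -/
def smulEquiv {k l : ℤ} (hkl : ∀ v : L, k • l • v = v) (hlk : ∀ v : L, l • k • v = v) (r : ℕ) :
    (Fin r → L) ≃ (Fin r → L) where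
  toFun p := fun i => k • p i
  invFun p := fun i => l • p i
  left_inv p := by funext i; exact hlk _
  right_inv p := by funext i; exact hkl _

theorem scale_pivot {k l : ℤ} (hkl : ∀ v : L, k • l • v = v) (hlk : ∀ v : L, l • k • v = v)
    {r : ℕ} (ih : ∀ (a : Fin r → ℤ) (m : Fin r → Fin r → ℤ), ∃ T, Scales k a m T)
    (a : Fin (r + 1) → ℤ) (m : Fin (r + 1) → Fin (r + 1) → ℤ) (n : Fin r → ℤ)
    (hn : ∀ j : Fin r, ∀ v : L, a j.succ • v = n j • a 0 • v) : ∃ T, Scales k a m T := by
  -- the remaining quadratic form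
  set c : Fin r → ℤ := fun j => m 0 j.succ - m j.succ 0 with hc
  set m' : Fin r → Fin r → ℤ := fun i j => m i.succ j.succ - n i * c j with hm'
  obtain ⟨T', hT'⟩ := ih c m'
  -- coordinates
  let E : L × (Fin r → L) ≃ (Fin (r + 1) → L) :=
    { toFun := fun x => Fin.cons (x.1 - ∑ j, n j • x.2 j) x.2
      invFun := fun p => (p 0 + ∑ j, n j • p (Fin.succ j), fun j => p j.succ)
      left_inv := fun x => by simp
      right_inv := fun p => by
        funext i
        refine Fin.cases ?_ (fun j => ?_) i <;> simp }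
  have hE0 : ∀ x, E x 0 = x.1 - ∑ j, n j • x.2 j := fun x => rfl
  have hEs : ∀ x j, E x (Fin.succ j) = x.2 j := fun x j => rfl
  -- the linear part in the new coordinates
  have hlin : ∀ x, ∑ i, a i • E x i = a 0 • x.1 := by
    intro x
    rw [Fin.sum_univ_succ, hE0]
    simp only [hEs]
    have : ∑ j, a (Fin.succ j) • x.2 j = a 0 • ∑ j, n j • x.2 j := by
      rw [Finset.smul_sum]
      refine Finset.sum_congr rfl fun j _ => ?_
      rw [hn, smul_comm]
    rw [this, smul_sub]; abel
  -- the quadratic part in the new coordinates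
  have hquad : ∀ x, ∑ i, ∑ j, m i j • br (E x i) (E x j) =
      br x.1 (∑ j, c j • x.2 j) + ∑ i, ∑ j, m' i j • br (x.2 i) (x.2 j) := by
    intro x
    rw [Fin.sum_univ_succ]
    simp only [Fin.sum_univ_succ, hE0, hEs, br_self, smul_zero, zero_add]
    rw [Finset.sum_add_distrib]
    have h1 : ∑ i : Fin r, m i.succ 0 • br (x.2 i) (x.1 - ∑ j, n j • x.2 j) =
        -∑ i : Fin r, m i.succ 0 • br (x.1 - ∑ j, n j • x.2 j) (x.2 i) := by
      rw [← Finset.sum_neg_distrib]
      refine Finset.sum_congr rfl fun i _ => ?_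
      rw [br_swap, smul_neg]
    have h2 : ∑ i : Fin r, m 0 i.succ • br (x.1 - ∑ j, n j • x.2 j) (x.2 i) -
        ∑ i : Fin r, m i.succ 0 • br (x.1 - ∑ j, n j • x.2 j) (x.2 i) =
        br (x.1 - ∑ j, n j • x.2 j) (∑ j, c j • x.2 j) := by
      rw [br_sum_right, ← Finset.sum_sub_distrib]
      refine Finset.sum_congr rfl fun i _ => ?_
      rw [br_zsmul_right, hc, sub_smul]
    have h3 : br (x.1 - ∑ j, n j • x.2 j) (∑ j, c j • x.2 j) = br x.1 (∑ j, c j • x.2 j) -
        ∑ i, ∑ j, (n i * c j) • br (x.2 i) (x.2 j) := by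
      have h4 : ∀ u v w : L, br (u - v) w = br u w - br v w := by
        intro u v w
        have : brHom (u - v) w = brHom u w - brHom v w := by rw [map_sub]; rfl
        exact this
      rw [h4, br_sum_left]
      congr 1
      refine Finset.sum_congr rfl fun i _ => ?_
      rw [br_sum_right]
      refine Finset.sum_congr rfl fun j _ => ?_
      rw [br_zsmul_left, br_zsmul_right, smul_smul]
    have h5 : ∑ i, ∑ j, m' i j • br (x.2 i) (x.2 j) =
        ∑ i : Fin r, ∑ j : Fin r, m i.succ j.succ • br (x.2 i) (x.2 j) -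
        ∑ i, ∑ j, (n i * c j) • br (x.2 i) (x.2 j) := by
      rw [← Finset.sum_sub_distrib]
      refine Finset.sum_congr rfl fun i _ => ?_
      rw [← Finset.sum_sub_distrib]
      refine Finset.sum_congr rfl fun j _ => ?_
      rw [hm', sub_smul]
    rw [h1, h5]
    have h6 : ∀ A B D Y Z W : L, A - B = W → W = Y - Z → A + (-B + D) = Y + (D - Z) := by
      intro A B D Y Z W e1 e2
      rw [e2] at e1
      have : A = Y - Z + B := by rw [← e1]; abel
      rw [this]; abel
    exact h6 _ _ _ _ _ _ h2 h3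
  -- the transformation
  let S : L × (Fin r → L) ≃ L × (Fin r → L) :=
    { toFun := fun x => (k • x.1, fun i => k • T'.symm x.2 i)
      invFun := fun x => (l • x.1, T' (fun i => l • x.2 i))
      left_inv := fun x => by
        apply Prod.ext
        · exact hlk _
        · have : (fun i => l • k • T'.symm x.2 i) = T'.symm x.2 := by funext i; exact hlk _
          change T' (fun i => l • k • T'.symm x.2 i) = x.2
          rw [this, Equiv.apply_symm_apply]
      right_inv := fun x => by
        apply Prod.ext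
        · exact hkl _
        · funext i
          change k • T'.symm (T' (fun i => l • x.2 i)) i = x.2 i
          rw [Equiv.symm_apply_apply]; exact hkl _ }
  have hS1 : ∀ x, (S x).1 = k • x.1 := fun x => rfl
  have hS2 : ∀ x i, (S x).2 i = k • T'.symm x.2 i := fun x i => rfl
  have hSlin : ∀ x : L × (Fin r → L), k • ∑ j, c j • (T'.symm x.2) j = ∑ j, c j • x.2 j := by
    intro x
    have := (hT' (T'.symm x.2)).1
    rw [Equiv.apply_symm_apply] at this
    exact this.symm
  have hSquad : ∀ x : L × (Fin r → L), k • ∑ i, ∑ j, m' i j • br (T'.symm x.2 i) (T'.symm x.2 j) =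
      ∑ i, ∑ j, m' i j • br (x.2 i) (x.2 j) := by
    intro x
    have := (hT' (T'.symm x.2)).2
    rw [Equiv.apply_symm_apply] at this
    exact this.symm
  refine ⟨(E.symm.trans S).trans E, fun p => ?_⟩
  set x := E.symm p with hx
  have hp : p = E x := by rw [hx, Equiv.apply_symm_apply]
  have hT : ∀ i, ((E.symm.trans S).trans E) p i = E (S x) i := fun i => rfl
  simp only [hT]
  rw [hlin, hquad, hp, hlin, hquad]
  refine ⟨?_, ?_⟩
  · rw [hS1, smul_comm]
  · rw [smul_add]
    congr 1
    · rw [hS1, br_zsmul_left]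
      congr 1
      have : ∑ j, c j • (S x).2 j = ∑ j, c j • x.2 j := by
        rw [← hSlin x, Finset.smul_sum]
        refine Finset.sum_congr rfl fun j _ => ?_
        rw [hS2, smul_comm]
      rw [this]
    · rw [← hSquad x, smul_smul, Finset.smul_sum]
      refine Finset.sum_congr rfl fun i _ => ?_
      rw [Finset.smul_sum]
      refine Finset.sum_congr rfl fun j _ => ?_
      rw [hS2, hS2, br_zsmul_left, br_zsmul_right, smul_smul, smul_smul, smul_smul]
      congr 1; ring

theorem gcd_dvd : ∀ x y : ZMod 27, Nat.gcd x.val 27 ≤ Nat.gcd y.val 27 → ∃ n, y = n * x := by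
  decide +kernel

theorem exists_pivot {r : ℕ} (a : Fin (r + 1) → ℤ) :
    ∃ i0, ∀ j, ∃ n : ℤ, ∀ v : L, a j • v = n • a i0 • v := by
  obtain ⟨i0, -, hi0⟩ := Finset.exists_min_image (Finset.univ : Finset (Fin (r + 1)))
    (fun i => Nat.gcd ((a i : ZMod 27)).val 27) Finset.univ_nonempty
  refine ⟨i0, fun j => ?_⟩
  obtain ⟨n, hn⟩ := gcd_dvd _ _ (hi0 j (Finset.mem_univ j))
  refine ⟨(n.val : ℤ), fun v => ?_⟩
  have h1 : ((a j - (n.val : ℤ) * a i0 : ℤ) : ZMod 27) = 0 := by
    push_cast
    rw [ZMod.natCast_zmod_val, hn, sub_self]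
  obtain ⟨t, ht⟩ := (ZMod.intCast_zmod_eq_zero_iff_dvd _ 27).mp h1
  have h2 : a j = n.val * a i0 + t * 27 := by
    have : ((27 : ℕ) : ℤ) = 27 := rfl
    rw [this] at ht; linarith
  rw [h2, add_smul, mul_smul, mul_smul, tor, smul_zero, add_zero]

theorem scale {k l : ℤ} (hkl : ∀ v : L, k • l • v = v) (hlk : ∀ v : L, l • k • v = v) (r : ℕ) :
    ∀ (a : Fin r → ℤ) (m : Fin r → Fin r → ℤ), ∃ T, Scales k a m T := by
  induction r with
  | zero =>
    intro a m
    exact ⟨Equiv.refl _, fun p => by simp⟩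
  | succ r ih =>
    intro a m
    obtain ⟨i0, hi0⟩ := exists_pivot a
    let σ : Equiv.Perm (Fin (r + 1)) := Equiv.swap 0 i0
    have hσ0 : σ 0 = i0 := Equiv.swap_apply_left _ _
    choose n hn using fun j : Fin r => hi0 (σ j.succ)
    obtain ⟨T, hT⟩ := scale_pivot hkl hlk ih (fun i => a (σ i)) (fun i j => m (σ i) (σ j)) n
      (fun j v => by
        have := hn j v
        rw [← hσ0] at this
        exact this)
    -- transport along `σ`
    let P : (Fin (r + 1) → L) ≃ (Fin (r + 1) → L) := Equiv.arrowCongr σ.symm (Equiv.refl L)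
    have hP : ∀ p i, P p i = p (σ i) := fun p i => rfl
    have hPs : ∀ p i, P.symm p (σ i) = p i := fun p i => by
      have := hP (P.symm p) i
      rw [Equiv.apply_symm_apply] at this
      exact this.symm
    refine ⟨(P.trans T).trans P.symm, fun p => ?_⟩
    have h1 := hT (P p)
    have e1 : ∀ q : Fin (r + 1) → L, ∑ i, a i • q i = ∑ i, a (σ i) • q (σ i) := fun q =>
      (Equiv.sum_comp σ (fun i => a i • q i)).symm
    have e2 : ∀ q : Fin (r + 1) → L, ∑ i, ∑ j, m i j • br (q i) (q j) =
        ∑ i, ∑ j, m (σ i) (σ j) • br (q (σ i)) (q (σ j)) := fun q => by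
      rw [← Equiv.sum_comp σ]
      refine Finset.sum_congr rfl fun i _ => ?_
      exact (Equiv.sum_comp σ (fun j => m (σ i) j • br (q (σ i)) (q j))).symm
    have hval : ∀ i, ((P.trans T).trans P.symm) p (σ i) = T (P p) i := fun i => hPs _ _
    rw [e1, e2, e1 p, e2 p]
    simp only [hval]
    exact h1

/-- The number of solutions of `w = g` in `G`. -/
noncomputable def count {r : ℕ} (w : FreeGroup (Fin r)) (g : G) : ℕ :=
  Nat.card {p : Fin r → G // FreeGroup.lift p w = g}

theorem count_pow {k l : ℕ} (hkl : k * l ≡ 1 [MOD 27]) {r : ℕ} (w : FreeGroup (Fin r)) (g : G) :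
    count w (g ^ k) = count w g := by
  have hk : ∀ v : L, (k : ℤ) • (l : ℤ) • v = v := by
    intro v
    obtain ⟨t, ht⟩ := (Nat.modEq_iff_dvd.mp hkl)
    have h1 : (k : ℤ) * l = 1 - t * 27 := by push_cast at ht; linarith
    rw [smul_smul, h1, sub_smul, one_smul, mul_smul, tor, smul_zero, sub_zero]
  have hl : ∀ v : L, (l : ℤ) • (k : ℤ) • v = v := fun v => by rw [smul_comm]; exact hk v
  obtain ⟨a, m, hw⟩ := word_form w
  obtain ⟨T, hT⟩ := scale hk hl r a m
  -- the transformation of `Fin r → G`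
  let e : (Fin r → G) ≃ (Fin r → L) := Equiv.arrowCongr (Equiv.refl _) gEquiv
  have he : ∀ p i, e p i = (p i).v := fun p i => rfl
  let T' : (Fin r → G) ≃ (Fin r → G) := (e.trans T).trans e.symm
  have hT' : ∀ p, e (T' p) = T (e p) := fun p => Equiv.apply_symm_apply _ _
  have hev : ∀ p : Fin r → G, (FreeGroup.lift (T' p) w) = (FreeGroup.lift p w) ^ k := by
    intro p
    apply G.ext
    rw [hw, pow_v, hw]
    have h1 : (fun i => (T' p i).v) = T (e p) := hT' p
    rw [h1, ev, ev, (hT (e p)).1, (hT (e p)).2, smul_add]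
    rfl
  have hinj : ∀ x y : G, x ^ k = y ^ k → x = y := by
    intro x y hxy
    apply G.ext
    have h1 := congrArg G.v hxy
    rw [pow_v, pow_v] at h1
    rw [← hl x.v, ← hl y.v, h1]
  refine (Nat.card_congr (Equiv.subtypeEquiv T' fun p => ?_)).symm
  rw [hev]
  exact ⟨fun h => by rw [h], fun h => hinj _ _ h⟩

theorem pow_27 (g : G) : g ^ 27 = 1 := by
  apply G.ext
  rw [pow_v, one_v]
  exact_mod_cast tor g.v

theorem zpowers_eq {g h : G} (hgh : Subgroup.zpowers g = Subgroup.zpowers h) :
    ∃ k l : ℕ, k * l ≡ 1 [MOD 27] ∧ h = g ^ k := by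
  have h1 : h ∈ Subgroup.zpowers g := by rw [hgh]; exact Subgroup.mem_zpowers h
  have h2 : g ∈ Subgroup.zpowers h := by rw [← hgh]; exact Subgroup.mem_zpowers g
  rw [← mem_powers_iff_mem_zpowers] at h1 h2
  obtain ⟨n, rfl⟩ := h1
  obtain ⟨m, hm⟩ := h2
  simp only at hm
  by_cases h3 : 3 ∣ n
  · -- then `g = 1`
    have hg : g = 1 := by
      have h4 : orderOf g ∣ 27 := orderOf_dvd_of_pow_eq_one (pow_27 g)
      have h5 : g ^ (n * m) = g := by rw [pow_mul]; exact hm
      rcases Nat.eq_zero_or_pos (n * m) with h0 | h0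
      · rw [h0, pow_zero] at h5; exact h5.symm
      · have h6 : g ^ (n * m - 1) = 1 := by
          have : g ^ (n * m - 1) * g = 1 * g := by
            rw [← pow_succ, Nat.sub_add_cancel h0, h5, one_mul]
          exact mul_right_cancel this
        have h7 : orderOf g ∣ n * m - 1 := orderOf_dvd_of_pow_eq_one h6
        have h8 : Nat.Coprime (n * m - 1) 27 := by
          have : Nat.Coprime (n * m - 1) 3 := by
            rw [Nat.coprime_comm, (Nat.prime_three).coprime_iff_not_dvd]
            intro h9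
            have h10 : 3 ∣ n * m := h3.mul_right m
            omega
          exact Nat.Coprime.pow_right 3 this
        have h9 : orderOf g = 1 := Nat.eq_one_of_dvd_coprimes h8 h7 h4
        exact orderOf_eq_one_iff.mp h9
    exact ⟨1, 1, rfl, by rw [hg]; simp⟩
  · have h4 : Nat.Coprime n 27 := by
      have : Nat.Coprime n 3 := by
        rw [Nat.coprime_comm, (Nat.prime_three).coprime_iff_not_dvd]; exact h3
      exact Nat.Coprime.pow_right 3 this
    obtain ⟨l, hl⟩ := Nat.exists_mul_mod_eq_one_of_coprime h4 (by norm_num)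
    exact ⟨n, l, hl.2, rfl⟩

theorem auto_lemma : ∀ i : ZMod 27, ∀ l : ZMod 9, 3 * l ≠ 0 → 3 * l = 3 * (l * c9 i) → 9 * i = 9 := by
  decide +kernel

theorem auto_lemma2 : ∀ k : ZMod 27, 3 * k = 0 → c9 k = 0 := by
  decide +kernel

/-- Commutation in terms of the bracket. -/
theorem comm_v (p q : G) : q * p * ⟨br p.v q.v⟩ = p * q := by
  apply G.ext
  rw [mul_v, mul_v, mul_v]
  simp only
  rw [br_br_right, smul_zero, add_zero, br_swap q.v p.v]
  have h := tor (br p.v q.v)
  have h1 : (14 : ℤ) • br p.v q.v = (27 : ℤ) • br p.v q.v + (14 : ℤ) • -br p.v q.v + br p.v q.v := by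
    rw [smul_neg, ← neg_smul, ← add_smul]
    have : br p.v q.v = (1 : ℤ) • br p.v q.v := (one_smul _ _).symm
    nth_rewrite 3 [this]
    rw [← add_smul]
    norm_num
  rw [h1, h]; abel

/-- The element `(9, 0)` is fixed by all automorphisms. -/
theorem fixed (φ : G ≃* G) : φ ⟨(9, 0)⟩ = ⟨(9, 0)⟩ := by
  set B : G := ⟨(1, 0)⟩ with hB
  set D : G := ⟨(0, 1)⟩ with hD
  have hD3 : (⟨br D.v B.v⟩ : G) = D ^ 3 := by
    apply G.ext
    rw [pow_v]
    decide
  have hB9 : (⟨(9, 0)⟩ : G) = B ^ 9 := by
    apply G.ext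
    rw [pow_v]
    decide
  have h1 := comm_v D B
  rw [hD3] at h1
  have h2 := congrArg φ h1
  rw [map_mul, map_mul, map_mul, map_pow, ← comm_v (φ D) (φ B)] at h2
  have h3 := congrArg G.v (mul_left_cancel h2)
  rw [pow_v] at h3
  simp only at h3
  -- coordinates
  have h4 : 3 * (φ D).v.1 = 0 := by
    have := congrArg Prod.fst h3
    rw [Prod.smul_fst, zsmul_eq_mul] at this
    simpa [br] using this
  have h5 : 3 * (φ D).v.2 = 3 * ((φ D).v.2 * c9 (φ B).v.1) := by
    have := congrArg Prod.snd h3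
    rw [Prod.smul_snd, zsmul_eq_mul] at this
    have h6 := auto_lemma2 _ h4
    simpa [br, h6] using this
  have h6 : 3 * (φ D).v.2 ≠ 0 := by
    intro h7
    have h8 : (φ D) ^ 3 = 1 := by
      apply G.ext
      rw [pow_v, one_v]
      apply Prod.ext
      · rw [Prod.smul_fst, zsmul_eq_mul]; simpa using h4
      · rw [Prod.smul_snd, zsmul_eq_mul]; simpa using h7
    rw [← map_pow] at h8
    have h9 : D ^ 3 = 1 := φ.injective (by rw [h8, map_one])
    have h10 := congrArg G.v h9
    rw [pow_v, one_v] at h10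
    revert h10
    decide
  have h7 := auto_lemma _ _ h6 h5
  rw [hB9, map_pow]
  apply G.ext
  rw [pow_v, pow_v]
  apply Prod.ext
  · rw [Prod.smul_fst, Prod.smul_fst, zsmul_eq_mul, zsmul_eq_mul]
    have : (((9 : ℕ) : ℤ) : ZMod 27) = 9 := by decide
    rw [this, h7]; rfl
  · rw [Prod.smul_snd, Prod.smul_snd, zsmul_eq_mul, zsmul_eq_mul]
    have : (((9 : ℕ) : ℤ) : ZMod 9) = 0 := by decide
    rw [this, zero_mul, zero_mul]

theorem order_z : (⟨(9, 0)⟩ : G) ^ 2 ≠ 1 := by
  intro h
  have h10 := congrArg G.v h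
  rw [pow_v, one_v] at h10
  revert h10
  decide

end X155.ClassTwo
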