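import Pool.Agent.X155.CoshSpace

set_option autoImplicit false

open CategoryTheory TopologicalSpace

namespace Pool.Agent.X155.Cosh

section

variable {P : Type} [LinearOrder P] [Nonempty P]
variable (hP : ∀ a : P, (Set.Iio a).Countable) (hU : ∀ F : P → ℕ, ¬ Function.Injective F)

theorem exists_min [WellFoundedLT P] {ι : Type} (U : ι → Opens (Sp P))
    (h : ∃ i, ∃ a : P, Sp.pt a ∈ U i) :
    ∃ i0, ∃ m : P, Sp.pt m ∈ U i0 ∧ seg (U i0) ⊆ seg (⨆ i, U i) := by
  let S : Set P := {a | ∃ i, Sp.pt a ∈ U i}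
  have hS : S.Nonempty := by
    obtain ⟨i, a, ha⟩ := h
    exact ⟨a, i, ha⟩
  have hwf : WellFounded ((· < ·) : P → P → Prop) := wellFounded_lt
  obtain ⟨i0, hi0⟩ := hwf.min_mem S hS
  refine ⟨i0, hwf.min S hS, hi0, ?_⟩
  intro x hx a ha
  obtain ⟨i, hi⟩ := Opens.mem_iSup.1 ha
  exact lt_of_lt_of_le (hx _ hi0) (not_lt.1 (hwf.not_lt_min S ⟨i, hi⟩))

include hP hU in
theorem isCosheaf_CA [WellFoundedLT P] : IsCosheaf (CA P) := by
  intro ι U
  by_cases h : ∃ i, ∃ a : P, Sp.pt a ∈ U i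
  · obtain ⟨i0, m, hm, hseg⟩ := exists_min U h
    apply exact_of (CA P) U i0 (CA_inj _ hseg) (CA_surj hP hU _ fun _ => ⟨m, hm⟩)
    intro i
    apply CA_surj hP hU
    rintro ⟨a, ha⟩
    exact ⟨max a m, up _ (le_max_left _ _) ha, up _ (le_max_right _ _) hm⟩
  · apply exact_of_zero
    · intro i
      exact CA_zero hU _ fun a ha => h ⟨i, a, ha⟩
    · apply CA_zero hU
      intro a ha
      obtain ⟨i, hi⟩ := Opens.mem_iSup.1 ha
      exact h ⟨i, a, hi⟩

include hP hU in
theorem CB_surj {U V : Opens (Sp P)} (h : U ≤ V)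
    (h2 : (∃ a : P, Sp.pt a ∈ V) → ∃ a : P, Sp.pt a ∈ U) :
    Function.Surjective ((CB P).map (homOfLE h)) := by
  intro y
  obtain ⟨x, rfl⟩ := quo_surj V y
  obtain ⟨w, rfl⟩ := CA_surj hP hU h h2 x
  exact ⟨(quo P).app U w, rfl⟩

include hP hU in
theorem isCosheaf_CB [WellFoundedLT P] : IsCosheaf (CB P) := by
  intro ι U
  by_cases hn : Sp.infty ∈ ⨆ i, U i
  · obtain ⟨i1, hi1⟩ := Opens.mem_iSup.1 hn
    obtain ⟨m, hm⟩ := ex (U i1) hi1
    apply exact_of (CB P) U i1
    · intro x y _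
      rw [CB_zero _ hi1 x, CB_zero _ hi1 y]
    · intro y
      exact ⟨0, by rw [map_zero, CB_zero _ hn y]⟩
    · intro i
      apply CB_surj hP hU
      rintro ⟨a, ha⟩
      exact ⟨max a m, up _ (le_max_left _ _) ha, up _ (le_max_right _ _) hm⟩
  · by_cases h : ∃ i, ∃ a : P, Sp.pt a ∈ U i
    · obtain ⟨i0, m, hm, hseg⟩ := exists_min U h
      apply exact_of (CB P) U i0
      · rw [injective_iff_map_eq_zero]
        intro y hy
        obtain ⟨x, rfl⟩ := quo_surj _ y
        have h1 : (quo P).app (⨆ i, U i) ((CA P).map (homOfLE (le_iSup U i0)) x) = 0 := hy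
        have h2 := quo_inj _ hn _ h1
        have h3 : x = 0 := CA_inj _ hseg (h2.trans (map_zero _).symm)
        rw [h3, map_zero]
      · exact CB_surj hP hU _ fun _ => ⟨m, hm⟩
      · intro i
        apply CB_surj hP hU
        rintro ⟨a, ha⟩
        exact ⟨max a m, up _ (le_max_left _ _) ha, up _ (le_max_right _ _) hm⟩
    · apply exact_of_zero
      · intro i y
        obtain ⟨x, rfl⟩ := quo_surj _ y
        rw [CA_zero hU _ (fun a ha => h ⟨i, a, ha⟩) x, map_zero]
      · intro y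
        obtain ⟨x, rfl⟩ := quo_surj _ y
        rw [CA_zero hU _ (fun a ha => ?_) x, map_zero]
        obtain ⟨i, hi⟩ := Opens.mem_iSup.1 ha
        exact h ⟨i, a, hi⟩

/-- the points `≥ a` of `P` -/
def WW (a : P) : Opens (Sp P) where
  carrier := {x | ∃ b : P, a ≤ b ∧ x = Sp.pt b}
  is_open' := by
    refine ⟨?_, ?_⟩
    · rintro b c hbc ⟨b', h1, h2⟩
      obtain rfl : b = b' := Sp.pt.inj h2
      exact ⟨c, h1.trans hbc, rfl⟩
    · rintro ⟨b, -, h⟩
      exact absurd h (by simp)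

/-- the points `≥ a` of `P` and the additional point -/
def NN (a : P) : Opens (Sp P) where
  carrier := {x | ∀ b : P, x = Sp.pt b → a ≤ b}
  is_open' := by
    refine ⟨?_, ?_⟩
    · intro b c hbc hb c' hc'
      obtain rfl : c = c' := Sp.pt.inj hc'
      exact (hb b rfl).trans hbc
    · intro _
      refine ⟨a, ?_⟩
      intro b hb
      obtain rfl : a = b := Sp.pt.inj hb
      exact le_rfl

theorem mem_WW {a b : P} : Sp.pt b ∈ WW a ↔ a ≤ b := by
  constructor
  · rintro ⟨b', h1, h2⟩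
    obtain rfl : b = b' := Sp.pt.inj h2
    exact h1
  · intro h
    exact ⟨b, h, rfl⟩

theorem none_WW (a : P) : Sp.infty ∉ WW a := by
  rintro ⟨b, -, h⟩
  exact absurd h (by simp)

theorem mem_NN {a b : P} : Sp.pt b ∈ NN a ↔ a ≤ b := by
  constructor
  · intro h
    exact h b rfl
  · intro h c hc
    obtain rfl : b = c := Sp.pt.inj hc
    exact h

theorem none_NN (a : P) : Sp.infty ∈ NN a := fun _ h => absurd h (by simp)

theorem NN_anti {a b : P} (h : a ≤ b) : NN b ≤ NN a := fun _ hx c hc => h.trans (hx c hc)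

/-- two open sets as a family -/
def fam (U V : Opens (Sp P)) : Bool → Opens (Sp P)
  | false => U
  | true => V

theorem le_fam {U V W : Opens (Sp P)} (h : ∀ x, x ∈ W → x ∈ U ∨ x ∈ V) :
    W ≤ ⨆ i, fam U V i := by
  intro x hx
  rcases h x hx with h1 | h1
  · exact Opens.mem_iSup.2 ⟨false, h1⟩
  · exact Opens.mem_iSup.2 ⟨true, h1⟩

theorem fam_le {U V W : Opens (Sp P)} (hU : U ≤ W) (hV : V ≤ W) :
    ⨆ i, fam U V i ≤ W := by
  apply iSup_le
  rintro (_ | _)
  · exact hU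
  · exact hV

end

end Pool.Agent.X155.Cosh
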