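import Mathlib

/-!
# Cosheaves of abelian groups on a topological space (helper155)
-/

set_option autoImplicit false

open CategoryTheory TopologicalSpace

namespace Pool.Agent.X155.Cosh

/-- precosheaves of abelian groups on `X`: covariant functors from the poset of open sets to the
category of abelian groups; the morphisms are the natural transformations -/
abbrev Precosheaf (X : Type) [TopologicalSpace X] : Type 1 := Opens X ⥤ AddCommGrpCat.{0}

/-- the map `⨁ i, 𝒜(U i) → 𝒜(⋃ i, U i)` -/
noncomputable def aug {X : Type} [TopologicalSpace X] (𝒜 : Precosheaf X) {ι : Type}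
    (U : ι → Opens X) : (DirectSum ι fun i => 𝒜.obj (U i)) →+ 𝒜.obj (⨆ i, U i) :=
  open scoped Classical in
  DirectSum.toAddMonoid fun i => (𝒜.map (homOfLE (le_iSup U i))).hom

/-- the difference map `⨁ i j, 𝒜(U i ∩ U j) → ⨁ i, 𝒜(U i)` -/
noncomputable def diffMap {X : Type} [TopologicalSpace X] (𝒜 : Precosheaf X) {ι : Type}
    (U : ι → Opens X) : (DirectSum (ι × ι) fun p => 𝒜.obj (U p.1 ⊓ U p.2)) →+
      (DirectSum ι fun i => 𝒜.obj (U i)) :=
  open scoped Classical in
  DirectSum.toAddMonoid fun p =>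
    (DirectSum.of (fun i => 𝒜.obj (U i)) p.1).comp
        (𝒜.map (homOfLE (inf_le_left : U p.1 ⊓ U p.2 ≤ U p.1))).hom -
      (DirectSum.of (fun i => 𝒜.obj (U i)) p.2).comp
        (𝒜.map (homOfLE (inf_le_right : U p.1 ⊓ U p.2 ≤ U p.2))).hom

/-- `𝒜` is a cosheaf: for every family `U i` of open sets, with union `⋃ i, U i`, the sequence
`⨁ i j, 𝒜(U i ∩ U j) → ⨁ i, 𝒜(U i) → 𝒜(⋃ i, U i) → 0` is exact -/
def IsCosheaf {X : Type} [TopologicalSpace X] (𝒜 : Precosheaf X) : Prop :=
  ∀ (ι : Type) (U : ι → Opens X),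
    Function.Exact (diffMap 𝒜 U) (aug 𝒜 U) ∧ Function.Surjective (aug 𝒜 U)

/-- the category of cosheaves of abelian groups on `X`, a full subcategory of the category of
precosheaves -/
abbrev CS (X : Type) [TopologicalSpace X] : Type 1 :=
  ObjectProperty.FullSubcategory (fun 𝒜 : Precosheaf X => IsCosheaf 𝒜)

end Pool.Agent.X155.Cosh
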