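import Mathlib

/-!
# Inverse systems of free abelian groups with surjective maps and zero limit (helper155)
-/

set_option autoImplicit false

namespace Pool.Agent.X155.Cosh

/-- the injections `A → ℕ` whose range has infinite complement -/
def Inj {P : Type} (A : Set P) : Type :=
  {f : A → ℕ // Function.Injective f ∧ ((Set.range f)ᶜ).Infinite}

/-- restriction of injections -/
def res {P : Type} {A B : Set P} (h : A ⊆ B) (f : Inj B) : Inj A :=
  ⟨f.1 ∘ Set.inclusion h, f.2.1.comp (Set.inclusion_injective h), f.2.2.mono (by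
    intro n hn hn'
    apply hn
    rcases hn' with ⟨a, rfl⟩
    exact ⟨_, rfl⟩)⟩

theorem res_res {P : Type} {A B C : Set P} (h1 : A ⊆ B) (h2 : B ⊆ C) (f : Inj C) :
    res h1 (res h2 f) = res (h1.trans h2) f := rfl

theorem res_surj {P : Type} {A B : Set P} (h : A ⊆ B) (hB : B.Countable) :
    Function.Surjective (res h) := by
  classical
  intro f
  have : Countable B := hB.to_subtype
  obtain ⟨j, hj⟩ := exists_injective_nat B
  let e : ℕ ↪ ((Set.range f.1)ᶜ : Set ℕ) := f.2.2.natEmbedding
  let g : B → ℕ := fun x => if hx : x.1 ∈ A then f.1 ⟨x, hx⟩ else (e (2 * j x)).1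
  have hg1 : ∀ (x : B) (hx : x.1 ∈ A), g x = f.1 ⟨x, hx⟩ := fun x hx => dif_pos hx
  have hg2 : ∀ (x : B), x.1 ∉ A → g x = (e (2 * j x)).1 := fun x hx => dif_neg hx
  refine ⟨⟨g, ?_, ?_⟩, ?_⟩
  · intro x y hxy
    by_cases hx : x.1 ∈ A
    · by_cases hy : y.1 ∈ A
      · rw [hg1 x hx, hg1 y hy] at hxy
        exact Subtype.ext (Subtype.mk.inj (f.2.1 hxy))
      · rw [hg1 x hx, hg2 y hy] at hxy
        exact absurd ⟨_, hxy⟩ (e (2 * j y)).2
    · by_cases hy : y.1 ∈ A
      · rw [hg2 x hx, hg1 y hy] at hxy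
        exact absurd ⟨_, hxy.symm⟩ (e (2 * j x)).2
      · rw [hg2 x hx, hg2 y hy] at hxy
        have h1 := e.injective (Subtype.ext hxy)
        exact hj (by omega)
  · have hinf : (Set.range fun n : ℕ => (e (2 * n + 1)).1).Infinite := by
      apply Set.infinite_range_of_injective
      intro m n hmn
      have h1 := e.injective (Subtype.ext hmn)
      omega
    refine hinf.mono ?_
    rintro _ ⟨n, rfl⟩ ⟨x, hx⟩
    simp only at hx
    by_cases hxA : x.1 ∈ A
    · rw [hg1 x hxA] at hx
      exact (e (2 * n + 1)).2 ⟨_, hx⟩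
    · rw [hg2 x hxA] at hx
      have h1 := e.injective (Subtype.ext hx)
      omega
  · apply Subtype.ext
    funext x
    exact hg1 _ x.2

/-- The inverse limit is zero. -/
theorem zero_lim {P I : Type} [LinearOrder I] (A : I → Set P) (hmono : Monotone A) (a : I)
    (hcov : ∀ x, ∃ b, a ≤ b ∧ x ∈ A b) (hσ : ∀ s : ℕ → I, ∃ b, ∀ n, s n ≤ b)
    (hP : ∀ F : P → ℕ, ¬ Function.Injective F) (z : ∀ b, Inj (A b) →₀ ℤ)
    (hz : ∀ b c (_ : a ≤ b) (h : b ≤ c), (z c).mapDomain (res (hmono h)) = z b) :
    ∀ b, a ≤ b → z b = 0 := by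
  classical
  have hsub : ∀ b c (_ : a ≤ b) (h : b ≤ c),
      (z b).support ⊆ (z c).support.image (res (hmono h)) := by
    intro b c hab h
    rw [← hz b c hab h]
    exact Finsupp.mapDomain_support
  have hle : ∀ b c (_ : a ≤ b) (h : b ≤ c), (z b).support.card ≤ (z c).support.card := by
    intro b c hab h
    exact (Finset.card_le_card (hsub b c hab h)).trans Finset.card_image_le
  have hbdd : BddAbove {n | ∃ b, a ≤ b ∧ (z b).support.card = n} := by
    by_contra hcon
    rw [not_bddAbove_iff] at hcon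
    choose n hn hn2 using fun k : ℕ => hcon k
    choose s hs hs2 using hn
    obtain ⟨b, hb⟩ := hσ s
    have h1 := hle (s (z b).support.card) b (hs _) (hb _)
    rw [hs2] at h1
    exact absurd (hn2 (z b).support.card) (not_lt.2 h1)
  have hnemp : {n | ∃ b, a ≤ b ∧ (z b).support.card = n}.Nonempty :=
    ⟨(z a).support.card, a, le_rfl, rfl⟩
  obtain ⟨b1, hb1, hN⟩ : ∃ b, a ≤ b ∧ (z b).support.card =
      sSup {n | ∃ b, a ≤ b ∧ (z b).support.card = n} := Nat.sSup_mem hnemp hbdd
  have hmax : ∀ b, a ≤ b → (z b).support.card ≤ (z b1).support.card := by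
    intro b hb
    rw [hN]
    exact le_csSup hbdd ⟨b, hb, rfl⟩
  by_contra hcon
  push Not at hcon
  obtain ⟨b0, hb0, hz0⟩ := hcon
  have hne : (z b1).support.Nonempty := by
    rw [← Finset.card_pos]
    exact lt_of_lt_of_le (Finset.card_pos.2 (Finsupp.support_nonempty_iff.2 hz0)) (hmax b0 hb0)
  obtain ⟨f1, hf1⟩ := hne
  have hcard : ∀ b, b1 ≤ b → (z b).support.card = (z b1).support.card := fun b hb =>
    le_antisymm (hmax b (hb1.trans hb)) (hle b1 b hb1 hb)
  have heq : ∀ b c (_ : b1 ≤ b) (h : b ≤ c),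
      (z b).support = (z c).support.image (res (hmono h)) := by
    intro b c hb h
    apply Finset.eq_of_subset_of_card_le (hsub b c (hb1.trans hb) h)
    rw [hcard b hb, ← hcard c (hb.trans h)]
    exact Finset.card_image_le
  have hinj : ∀ b c (_ : b1 ≤ b) (h : b ≤ c),
      Set.InjOn (res (hmono h)) (z c).support := by
    intro b c hb h
    rw [← Finset.card_image_iff, ← heq b c hb h, hcard b hb, hcard c (hb.trans h)]
  have hex : ∀ b (h : b1 ≤ b), ∃ g ∈ (z b).support, res (hmono h) g = f1 := by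
    intro b h
    have := hf1
    rw [heq b1 b le_rfl h, Finset.mem_image] at this
    exact this
  choose g hg hg2 using hex
  have hcompat : ∀ b c (hb : b1 ≤ b) (h : b ≤ c),
      res (hmono h) (g c (hb.trans h)) = g b hb := by
    intro b c hb h
    apply hinj b1 b le_rfl hb
    · rw [Finset.mem_coe, heq b c hb h]
      exact Finset.mem_image_of_mem _ (hg c _)
    · exact hg b hb
    · rw [res_res, hg2, hg2]
  choose β hβ hβ2 using hcov
  let F : P → ℕ := fun x => (g (max (β x) b1) (le_max_right _ _)).1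
    ⟨x, hmono (le_max_left _ _) (hβ2 x)⟩
  have hF : ∀ (x : P) (c : I) (hc : max (β x) b1 ≤ c),
      F x = (g c ((le_max_right _ _).trans hc)).1 ⟨x, hmono ((le_max_left _ _).trans hc) (hβ2 x)⟩ := by
    intro x c hc
    have h1 := hcompat (max (β x) b1) c (le_max_right _ _) hc
    change (g (max (β x) b1) (le_max_right _ _)).1 _ = _
    rw [← h1]
    rfl
  apply hP F
  intro x y hxy
  rw [hF x (max (max (β x) b1) (max (β y) b1)) (le_max_left _ _),
    hF y (max (max (β x) b1) (max (β y) b1)) (le_max_right _ _)] at hxy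
  have h2 := (g (max (max (β x) b1) (max (β y) b1)) _).2.1 hxy
  exact congrArg Subtype.val h2

end Pool.Agent.X155.Cosh
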