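import Pool.Agent.X155.CoshDefs
import Pool.Agent.X155.CoshInj

set_option autoImplicit false

open CategoryTheory TopologicalSpace

namespace Pool.Agent.X155.Cosh

section general

variable {X : Type} [TopologicalSpace X]

open scoped Classical in
/-- the inclusion of a summand -/
noncomputable def inc (𝒜 : Precosheaf X) {ι : Type} (U : ι → Opens X) (i : ι) :
    𝒜.obj (U i) →+ (DirectSum ι fun i => 𝒜.obj (U i)) :=
  DirectSum.of (fun i => 𝒜.obj (U i)) i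

open scoped Classical in
/-- the inclusion of a summand -/
noncomputable def inc2 (𝒜 : Precosheaf X) {ι : Type} (U : ι → Opens X) (p : ι × ι) :
    𝒜.obj (U p.1 ⊓ U p.2) →+ (DirectSum (ι × ι) fun p => 𝒜.obj (U p.1 ⊓ U p.2)) :=
  DirectSum.of (fun p : ι × ι => 𝒜.obj (U p.1 ⊓ U p.2)) p

open scoped Classical in
/-- maps from the direct sum -/
noncomputable def fromSum (𝒜 : Precosheaf X) {ι : Type} (U : ι → Opens X) {G : Type}
    [AddCommGroup G] (φ : ∀ i, 𝒜.obj (U i) →+ G) : (DirectSum ι fun i => 𝒜.obj (U i)) →+ G :=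
  DirectSum.toAddMonoid φ

theorem fromSum_inc (𝒜 : Precosheaf X) {ι : Type} (U : ι → Opens X) {G : Type}
    [AddCommGroup G] (φ : ∀ i, 𝒜.obj (U i) →+ G) (i : ι) (x : 𝒜.obj (U i)) :
    fromSum 𝒜 U φ (inc 𝒜 U i x) = φ i x := by
  classical
  exact DirectSum.toAddMonoid_of φ i x

theorem aug_inc (𝒜 : Precosheaf X) {ι : Type} (U : ι → Opens X) (i : ι)
    (x : 𝒜.obj (U i)) :
    aug 𝒜 U (inc 𝒜 U i x) = 𝒜.map (homOfLE (le_iSup U i)) x := by
  classical
  exact DirectSum.toAddMonoid_of (fun i => (𝒜.map (homOfLE (le_iSup U i))).hom) i x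

theorem diffMap_inc2 (𝒜 : Precosheaf X) {ι : Type} (U : ι → Opens X) (p : ι × ι)
    (x : 𝒜.obj (U p.1 ⊓ U p.2)) :
    diffMap 𝒜 U (inc2 𝒜 U p x) =
      inc 𝒜 U p.1 (𝒜.map (homOfLE (inf_le_left : U p.1 ⊓ U p.2 ≤ U p.1)) x) -
      inc 𝒜 U p.2 (𝒜.map (homOfLE (inf_le_right : U p.1 ⊓ U p.2 ≤ U p.2)) x) := by
  classical
  exact DirectSum.toAddMonoid_of (fun p : ι × ι =>
    (DirectSum.of (fun i => 𝒜.obj (U i)) p.1).comp
        (𝒜.map (homOfLE (inf_le_left : U p.1 ⊓ U p.2 ≤ U p.1))).hom -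
      (DirectSum.of (fun i => 𝒜.obj (U i)) p.2).comp
        (𝒜.map (homOfLE (inf_le_right : U p.1 ⊓ U p.2 ≤ U p.2))).hom) p x

theorem sum_induction (𝒜 : Precosheaf X) {ι : Type} (U : ι → Opens X)
    {M : (DirectSum ι fun i => 𝒜.obj (U i)) → Prop} (h0 : M 0)
    (h1 : ∀ i x, M (inc 𝒜 U i x)) (h2 : ∀ x y, M x → M y → M (x + y)) (x) : M x := by
  classical
  exact DirectSum.induction_on x h0 h1 h2

theorem sum_induction2 (𝒜 : Precosheaf X) {ι : Type} (U : ι → Opens X)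
    {M : (DirectSum (ι × ι) fun p => 𝒜.obj (U p.1 ⊓ U p.2)) → Prop} (h0 : M 0)
    (h1 : ∀ i x, M (inc2 𝒜 U i x)) (h2 : ∀ x y, M x → M y → M (x + y)) (x) : M x := by
  classical
  exact DirectSum.induction_on x h0 h1 h2

theorem map_map (𝒜 : Precosheaf X) {U V W : Opens X} (h1 : U ≤ V) (h2 : V ≤ W) (h3 : U ≤ W)
    (x : 𝒜.obj U) : 𝒜.map (homOfLE h2) (𝒜.map (homOfLE h1) x) = 𝒜.map (homOfLE h3) x := by
  have : homOfLE h3 = homOfLE h1 ≫ homOfLE h2 := Subsingleton.elim _ _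
  rw [this, 𝒜.map_comp]
  rfl

theorem map_self (𝒜 : Precosheaf X) {U : Opens X} (h1 : U ≤ U)
    (x : 𝒜.obj U) : 𝒜.map (homOfLE h1) x = x := by
  have : homOfLE h1 = 𝟙 U := Subsingleton.elim _ _
  rw [this, 𝒜.map_id]
  rfl

theorem aug_diff (𝒜 : Precosheaf X) {ι : Type} (U : ι → Opens X) (x) :
    aug 𝒜 U (diffMap 𝒜 U x) = 0 := by
  refine sum_induction2 𝒜 U (M := fun x => aug 𝒜 U (diffMap 𝒜 U x) = 0) ?_ ?_ ?_ x
  · rw [map_zero, map_zero]
  · intro p x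
    rw [diffMap_inc2, map_sub, aug_inc, aug_inc,
      map_map 𝒜 inf_le_left (le_iSup U p.1) (inf_le_left.trans (le_iSup U p.1)),
      map_map 𝒜 inf_le_right (le_iSup U p.2) (inf_le_left.trans (le_iSup U p.1)), sub_self]
  · intro x y hx hy
    rw [map_add, map_add, hx, hy, add_zero]

/-- a criterion -/
theorem exact_of (𝒜 : Precosheaf X) {ι : Type} (U : ι → Opens X) (i0 : ι)
    (hinj : Function.Injective (𝒜.map (homOfLE (le_iSup U i0))))
    (hsurj : Function.Surjective (𝒜.map (homOfLE (le_iSup U i0))))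
    (hs : ∀ i, Function.Surjective (𝒜.map (homOfLE (inf_le_left : U i ⊓ U i0 ≤ U i)))) :
    Function.Exact (diffMap 𝒜 U) (aug 𝒜 U) ∧ Function.Surjective (aug 𝒜 U) := by
  refine ⟨?_, ?_⟩
  · intro x
    constructor
    · intro hx
      have key : ∀ x : (DirectSum ι fun i => 𝒜.obj (U i)), ∃ y : 𝒜.obj (U i0),
          ∃ w, x = inc 𝒜 U i0 y + diffMap 𝒜 U w := by
        intro x
        refine sum_induction 𝒜 U (M := fun x => ∃ y : 𝒜.obj (U i0),
          ∃ w, x = inc 𝒜 U i0 y + diffMap 𝒜 U w) ?_ ?_ ?_ x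
        · exact ⟨0, 0, by rw [map_zero, map_zero, add_zero]⟩
        · intro i x
          obtain ⟨w, rfl⟩ := hs i x
          refine ⟨𝒜.map (homOfLE (inf_le_right : U i ⊓ U i0 ≤ U i0)) w, inc2 𝒜 U (i, i0) w, ?_⟩
          rw [diffMap_inc2, add_sub_cancel]
        · rintro _ _ ⟨y, w, rfl⟩ ⟨y', w', rfl⟩
          refine ⟨y + y', w + w', ?_⟩
          rw [map_add, map_add]
          abel
      obtain ⟨y, w, rfl⟩ := key x
      rw [map_add, aug_diff, add_zero, aug_inc] at hx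
      have h0 : y = 0 := hinj (hx.trans (map_zero _).symm)
      exact ⟨w, by rw [h0, map_zero, zero_add]⟩
    · rintro ⟨w, rfl⟩
      exact aug_diff 𝒜 U w
  · intro y
    obtain ⟨x, rfl⟩ := hsurj y
    exact ⟨inc 𝒜 U i0 x, aug_inc 𝒜 U i0 x⟩

theorem exact_of_zero (𝒜 : Precosheaf X) {ι : Type} (U : ι → Opens X)
    (h : ∀ i, ∀ x : 𝒜.obj (U i), x = 0) (h' : ∀ x : 𝒜.obj (⨆ i, U i), x = 0) :
    Function.Exact (diffMap 𝒜 U) (aug 𝒜 U) ∧ Function.Surjective (aug 𝒜 U) := by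
  have key : ∀ x : (DirectSum ι fun i => 𝒜.obj (U i)), x = 0 := by
    intro x
    refine sum_induction 𝒜 U (M := fun x => x = 0) rfl ?_ ?_ x
    · intro i x
      rw [h i x, map_zero]
    · rintro _ _ rfl rfl
      rw [add_zero]
  refine ⟨fun x => ⟨fun _ => ⟨0, ?_⟩, fun _ => h' _⟩, fun y => ⟨0, ?_⟩⟩
  · rw [map_zero, key x]
  · rw [map_zero, h' y]

end general

end Pool.Agent.X155.Cosh
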