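import Pool.Agent.X155.CoshMain

set_option autoImplicit false

open CategoryTheory TopologicalSpace

namespace Pool.Agent.X155.Cosh

/-- the linear order `P` with a further point -/
inductive Sp (P : Type) : Type
  | pt (a : P) : Sp P
  | infty : Sp P

section

variable {P : Type} [LinearOrder P] [Nonempty P]

instance : TopologicalSpace (Sp P) where
  IsOpen U := (∀ a b : P, a ≤ b → Sp.pt a ∈ U → Sp.pt b ∈ U) ∧ (Sp.infty ∈ U → ∃ a : P, Sp.pt a ∈ U)
  isOpen_univ := ⟨fun _ _ _ _ => trivial, fun _ => ⟨Classical.arbitrary P, trivial⟩⟩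
  isOpen_inter U V hU hV := by
    refine ⟨fun a b hab h => ⟨hU.1 a b hab h.1, hV.1 a b hab h.2⟩, fun h => ?_⟩
    obtain ⟨a, ha⟩ := hU.2 h.1
    obtain ⟨b, hb⟩ := hV.2 h.2
    exact ⟨max a b, hU.1 _ _ (le_max_left _ _) ha, hV.1 _ _ (le_max_right _ _) hb⟩
  isOpen_sUnion S hS := by
    refine ⟨fun a b hab h => ?_, fun h => ?_⟩
    · obtain ⟨U, hU, ha⟩ := h
      exact ⟨U, hU, (hS U hU).1 a b hab ha⟩
    · obtain ⟨U, hU, ha⟩ := h
      obtain ⟨b, hb⟩ := (hS U hU).2 ha
      exact ⟨b, U, hU, hb⟩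

theorem up (U : Opens (Sp P)) {a b : P} (hab : a ≤ b) (h : Sp.pt a ∈ U) :
    Sp.pt b ∈ U := U.isOpen.1 a b hab h

theorem ex (U : Opens (Sp P)) (h : Sp.infty ∈ U) : ∃ a : P, Sp.pt a ∈ U :=
  U.isOpen.2 h

/-- the strict lower bounds of the part of `U` in `P` -/
def seg (U : Opens (Sp P)) : Set P := {x | ∀ a : P, Sp.pt a ∈ U → x < a}

theorem seg_anti {U V : Opens (Sp P)} (h : U ≤ V) : seg V ⊆ seg U :=
  fun _ hx a ha => hx a (h ha)

variable (hP : ∀ a : P, (Set.Iio a).Countable) (hU : ∀ F : P → ℕ, ¬ Function.Injective F)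

/-- the first cosheaf -/
noncomputable def CA (P : Type) [LinearOrder P] [Nonempty P] : Precosheaf (Sp P) where
  obj U := AddCommGrpCat.of (Inj (seg U) →₀ ℤ)
  map h := AddCommGrpCat.ofHom (Finsupp.mapDomain.addMonoidHom (res (seg_anti h.le)))
  map_id U := by
    apply AddCommGrpCat.hom_ext
    apply AddMonoidHom.ext
    intro x
    exact Finsupp.mapDomain_id (v := x)
  map_comp f g := by
    apply AddCommGrpCat.hom_ext
    apply AddMonoidHom.ext
    intro x
    exact Finsupp.mapDomain_comp (v := x) (f := res (seg_anti f.le)) (g := res (seg_anti g.le))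

/-- the subgroup which is killed -/
def KU (U : Opens (Sp P)) : AddSubgroup (Inj (seg U) →₀ ℤ) where
  carrier := {x | x = 0 ∨ Sp.infty ∈ U}
  zero_mem' := Or.inl rfl
  add_mem' := by
    rintro x y (rfl | h) (rfl | h')
    · exact Or.inl (add_zero 0)
    · exact Or.inr h'
    · exact Or.inr h
    · exact Or.inr h
  neg_mem' := by
    rintro x (rfl | h)
    · exact Or.inl neg_zero
    · exact Or.inr h

theorem KU_le {U V : Opens (Sp P)} (h : U ≤ V) :
    KU U ≤ (KU V).comap (Finsupp.mapDomain.addMonoidHom (res (seg_anti h))) := by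
  rintro x (rfl | hx)
  · exact Or.inl (map_zero _)
  · exact Or.inr (h hx)

/-- the second cosheaf -/
noncomputable def CB (P : Type) [LinearOrder P] [Nonempty P] : Precosheaf (Sp P) where
  obj U := AddCommGrpCat.of ((Inj (seg U) →₀ ℤ) ⧸ KU U)
  map {U V} h := AddCommGrpCat.ofHom (QuotientAddGroup.map (KU U) (KU V)
    (Finsupp.mapDomain.addMonoidHom (res (seg_anti h.le))) (KU_le h.le))
  map_id U := by
    apply AddCommGrpCat.hom_ext
    apply AddMonoidHom.ext
    intro x
    obtain ⟨x, rfl⟩ := QuotientAddGroup.mk_surjective x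
    exact congrArg (QuotientAddGroup.mk (s := KU U)) (Finsupp.mapDomain_id (v := x))
  map_comp {U V W} f g := by
    apply AddCommGrpCat.hom_ext
    apply AddMonoidHom.ext
    intro x
    obtain ⟨x, rfl⟩ := QuotientAddGroup.mk_surjective x
    exact congrArg (QuotientAddGroup.mk (s := KU W))
      (Finsupp.mapDomain_comp (v := x) (f := res (seg_anti f.le)) (g := res (seg_anti g.le)))

/-- the quotient map -/
noncomputable def quo (P : Type) [LinearOrder P] [Nonempty P] : CA P ⟶ CB P where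
  app U := AddCommGrpCat.ofHom (QuotientAddGroup.mk' (KU U))
  naturality {U V} h := by
    apply AddCommGrpCat.hom_ext
    apply AddMonoidHom.ext
    intro x
    rfl

theorem quo_surj (U : Opens (Sp P)) : Function.Surjective ((quo P).app U) :=
  QuotientAddGroup.mk_surjective

theorem quo_inj (U : Opens (Sp P)) (hU : Sp.infty ∉ U) (x : (CA P).obj U)
    (hx : (quo P).app U x = 0) : x = 0 := by
  have h1 : x ∈ KU U :=
    (QuotientAddGroup.eq_zero_iff (G := Inj (seg U) →₀ ℤ) (N := KU U) x).1 hx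
  rcases h1 with h1 | h1
  · exact h1
  · exact absurd h1 hU

theorem CB_zero (U : Opens (Sp P)) (hU : Sp.infty ∈ U) (x : (CB P).obj U) : x = 0 := by
  obtain ⟨x, rfl⟩ := quo_surj U x
  exact (QuotientAddGroup.eq_zero_iff (G := Inj (seg U) →₀ ℤ) (N := KU U) x).2 (Or.inr hU)

include hU in
theorem CA_zero (U : Opens (Sp P)) (h : ∀ a : P, Sp.pt a ∉ U) (x : (CA P).obj U) :
    x = 0 := by
  have : IsEmpty (Inj (seg U)) := by
    refine ⟨fun f => hU (fun a => f.1 ⟨a, fun b hb => absurd hb (h b)⟩) ?_⟩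
    intro a b hab
    exact Subtype.mk.inj (f.2.1 hab)
  exact Subsingleton.elim (α := Inj (seg U) →₀ ℤ) _ _

include hP hU in
theorem CA_surj {U V : Opens (Sp P)} (h : U ≤ V)
    (h2 : (∃ a : P, Sp.pt a ∈ V) → ∃ a : P, Sp.pt a ∈ U) :
    Function.Surjective ((CA P).map (homOfLE h)) := by
  by_cases hV : ∃ a : P, Sp.pt a ∈ V
  · obtain ⟨a, ha⟩ := h2 hV
    have hc : (seg U).Countable := (hP a).mono fun x hx => hx a ha
    exact Finsupp.mapDomain_surjective (res_surj (seg_anti h) hc)
  · intro x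
    rw [CA_zero hU V (fun a ha => hV ⟨a, ha⟩) x]
    exact ⟨0, map_zero _⟩

theorem CA_inj {U V : Opens (Sp P)} (h : U ≤ V) (h2 : seg U ⊆ seg V) :
    Function.Injective ((CA P).map (homOfLE h)) := by
  have h3 : Function.Injective (res (seg_anti h)) := by
    intro f g hfg
    apply Subtype.ext
    funext x
    have := congrArg (fun k => k.1 ⟨x.1, h2 x.2⟩) hfg
    exact this
  exact Finsupp.mapDomain_injective h3

end

end Pool.Agent.X155.Cosh
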