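import Pool.Agent.X155.CoshCat

set_option autoImplicit false

open CategoryTheory TopologicalSpace

namespace Pool.Agent.X155.Cosh

section pairs

variable {P : Type} [LinearOrder P] [Nonempty P]

/-- the union of two open sets -/
def uni (U V : Opens (Sp P)) : Opens (Sp P) := ⨆ i, fam U V i

theorem left_le (U V : Opens (Sp P)) : U ≤ uni U V := le_iSup (fam U V) false

theorem right_le (U V : Opens (Sp P)) : V ≤ uni U V := le_iSup (fam U V) true

/-- the direct sum of two values -/
def PS (D : Precosheaf (Sp P)) (U V : Opens (Sp P)) : Type :=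
  DirectSum Bool fun i => D.obj (fam U V i)

noncomputable instance (D : Precosheaf (Sp P)) (U V : Opens (Sp P)) : AddCommGroup (PS D U V) :=
  inferInstanceAs (AddCommGroup (DirectSum Bool fun i => D.obj (fam U V i)))

/-- the first inclusion -/
noncomputable def incL (D : Precosheaf (Sp P)) (U V : Opens (Sp P)) : D.obj U →+ PS D U V :=
  inc D (fam U V) false

/-- the second inclusion -/
noncomputable def incR (D : Precosheaf (Sp P)) (U V : Opens (Sp P)) : D.obj V →+ PS D U V :=
  inc D (fam U V) true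

/-- maps from the sum -/
noncomputable def pairMap (D : Precosheaf (Sp P)) (U V : Opens (Sp P)) {G : Type} [AddCommGroup G]
    (φ : D.obj U →+ G) (ψ : D.obj V →+ G) : PS D U V →+ G :=
  fromSum D (fam U V) (fun i => match i with
    | false => φ
    | true => ψ)

theorem pairMap_L (D : Precosheaf (Sp P)) (U V : Opens (Sp P)) {G : Type} [AddCommGroup G]
    (φ : D.obj U →+ G) (ψ : D.obj V →+ G) (x : D.obj U) :
    pairMap D U V φ ψ (incL D U V x) = φ x := fromSum_inc D (fam U V) _ false x

theorem pairMap_R (D : Precosheaf (Sp P)) (U V : Opens (Sp P)) {G : Type} [AddCommGroup G]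
    (φ : D.obj U →+ G) (ψ : D.obj V →+ G) (x : D.obj V) :
    pairMap D U V φ ψ (incR D U V x) = ψ x := fromSum_inc D (fam U V) _ true x

theorem pair_induction (D : Precosheaf (Sp P)) (U V : Opens (Sp P))
    {M : PS D U V → Prop} (h0 : M 0)
    (h1 : ∀ x : D.obj U, M (incL D U V x))
    (h1' : ∀ x : D.obj V, M (incR D U V x))
    (h2 : ∀ x y, M x → M y → M (x + y)) (x) : M x := by
  refine sum_induction D (fam U V) (M := M) h0 ?_ h2 x
  rintro (_ | _) x
  · exact h1 x
  · exact h1' x

/-- the augmentation -/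
noncomputable def augP (D : Precosheaf (Sp P)) (U V : Opens (Sp P)) :
    PS D U V →+ D.obj (uni U V) := aug D (fam U V)

theorem augP_L (D : Precosheaf (Sp P)) (U V : Opens (Sp P)) (x : D.obj U) :
    augP D U V (incL D U V x) = D.map (homOfLE (left_le U V)) x := aug_inc D (fam U V) false x

theorem augP_R (D : Precosheaf (Sp P)) (U V : Opens (Sp P)) (x : D.obj V) :
    augP D U V (incR D U V x) = D.map (homOfLE (right_le U V)) x := aug_inc D (fam U V) true x

theorem eq_of_augP (D : Precosheaf (Sp P)) (hD : IsCosheaf D) (U V : Opens (Sp P))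
    {G : Type} [AddCommGroup G] (ψ : PS D U V →+ G)
    (h1 : ∀ y : D.obj (U ⊓ V), ψ (incL D U V (D.map (homOfLE inf_le_left) y)) =
      ψ (incR D U V (D.map (homOfLE inf_le_right) y)))
    (h2 : ∀ y : D.obj (V ⊓ U), ψ (incR D U V (D.map (homOfLE inf_le_left) y)) =
      ψ (incL D U V (D.map (homOfLE inf_le_right) y)))
    (x y : PS D U V) (hxy : augP D U V x = augP D U V y) : ψ x = ψ y := by
  have key : ∀ w, ψ (diffMap D (fam U V) w) = 0 := by
    intro w
    refine sum_induction2 D (fam U V) (M := fun w => ψ (diffMap D (fam U V) w) = 0) ?_ ?_ ?_ w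
    · exact (congrArg ψ (map_zero _)).trans (map_zero ψ)
    · rintro ⟨i, j⟩ y
      refine (congrArg ψ (diffMap_inc2 D (fam U V) (i, j) y)).trans ?_
      refine (map_sub ψ _ _).trans ?_
      rcases i with _ | _ <;> rcases j with _ | _
      · exact sub_self _
      · exact sub_eq_zero.2 (h1 y)
      · exact sub_eq_zero.2 (h2 y)
      · exact sub_self _
    · intro u v hu hv
      refine (congrArg ψ (map_add _ u v)).trans ((map_add ψ _ _).trans ?_)
      exact (congrArg₂ (· + ·) hu hv).trans (add_zero 0)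
  have h3 : aug D (fam U V) (x - y) = 0 := by
    refine (map_sub (aug D (fam U V)) x y).trans ?_
    exact sub_eq_zero.2 hxy
  obtain ⟨w, hw⟩ := ((hD Bool (fam U V)).1 _).1 h3
  have h4 := key w
  rw [hw] at h4
  exact sub_eq_zero.1 ((map_sub ψ x y).symm.trans h4)

theorem augP_surj (D : Precosheaf (Sp P)) (hD : IsCosheaf D) (U V : Opens (Sp P)) :
    Function.Surjective (augP D U V) := (hD Bool (fam U V)).2

theorem le_uni {U V W : Opens (Sp P)} (h : ∀ x, x ∈ W → x ∈ U ∨ x ∈ V) : W ≤ uni U V := le_fam h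

theorem uni_le {U V W : Opens (Sp P)} (hU : U ≤ W) (hV : V ≤ W) : uni U V ≤ W := fam_le hU hV

end pairs

section

variable {P : Type} [LinearOrder P] [Nonempty P]

variable (hP : ∀ a : P, (Set.Iio a).Countable) (hU : ∀ F : P → ℕ, ¬ Function.Injective F)

omit [Nonempty P] in
include hP hU in
theorem exists_above (s : ℕ → P) : ∃ b, ∀ n, s n < b := by
  by_contra hcon
  push Not at hcon
  have h1 : (Set.univ : Set P) ⊆ ⋃ n, Set.Iic (s n) := by
    intro b _
    obtain ⟨n, hn⟩ := hcon b
    exact Set.mem_iUnion.2 ⟨n, hn⟩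
  have h2 : (⋃ n, Set.Iic (s n)).Countable := by
    apply Set.countable_iUnion
    intro n
    have : Set.Iic (s n) ⊆ insert (s n) (Set.Iio (s n)) := by
      intro x hx
      rcases eq_or_lt_of_le hx with h | h
      · exact Or.inl h
      · exact Or.inr h
    exact ((hP (s n)).insert _).mono this
  have h3 : Countable P := Set.countable_univ_iff.1 (h2.mono h1)
  obtain ⟨F, hF⟩ := exists_injective_nat P
  exact hU F hF

variable (D : Precosheaf (Sp P)) (hD : IsCosheaf D)
  (e : ∀ U : Opens (Sp P), D.obj U →+ (CA P).obj U)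
  (hnat : ∀ (U V : Opens (Sp P)) (h : U ≤ V) (d : D.obj U),
    e V (D.map (homOfLE h) d) = (CA P).map (homOfLE h) (e U d))
  (h0 : ∀ U : Opens (Sp P), Sp.infty ∉ U → ∀ d : D.obj U, e U d = 0)

/-- the map `Φ` -/
noncomputable def Phi (a b : P) : PS D (WW a) (NN b) →+ (CA P).obj (NN b) :=
  pairMap D (WW a) (NN b) 0 (e (NN b))

theorem Phi_L (a b : P) (x : D.obj (WW a)) : Phi D e a b (incL D (WW a) (NN b) x) = 0 :=
  pairMap_L D _ _ _ _ x

theorem Phi_R (a b : P) (x : D.obj (NN b)) :
    Phi D e a b (incR D (WW a) (NN b) x) = e (NN b) x :=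
  pairMap_R D _ _ _ _ x

include hD hnat h0 in
theorem Phi_eq (a b : P) (x y) (h : augP D (WW a) (NN b) x = augP D (WW a) (NN b) y) :
    Phi D e a b x = Phi D e a b y := by
  apply eq_of_augP D hD _ _ (Phi D e a b) _ _ x y h
  · intro y
    have h1 : Sp.infty ∉ WW a ⊓ NN b := fun h => none_WW a h.1
    rw [Phi_L, Phi_R, hnat, h0 _ h1, map_zero]
  · intro y
    have h1 : Sp.infty ∉ NN b ⊓ WW a := fun h => none_WW a h.2
    rw [Phi_L, Phi_R, hnat, h0 _ h1, map_zero]

include hnat h0 in
theorem Phi_aug (a b : P) (x) : e (uni (WW a) (NN b)) (augP D (WW a) (NN b) x) =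
    (CA P).map (homOfLE (right_le (WW a) (NN b))) (Phi D e a b x) := by
  refine pair_induction D (WW a) (NN b)
    (M := fun x => e (uni (WW a) (NN b)) (augP D (WW a) (NN b) x) =
    (CA P).map (homOfLE (right_le (WW a) (NN b))) (Phi D e a b x)) ?_ ?_ ?_ ?_ x
  · rw [map_zero, map_zero, map_zero, map_zero]
  · intro x
    rw [augP_L, hnat, h0 (WW a) (none_WW a) x, map_zero, Phi_L, map_zero]
  · intro x
    rw [augP_R, hnat, Phi_R]
  · intro x y hx hy
    rw [map_add, map_add, map_add, map_add, hx, hy]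

/-- change of the second open set -/
noncomputable def tau (a : P) {b c : P} (h : b ≤ c) :
    PS D (WW a) (NN c) →+ PS D (WW a) (NN b) :=
  pairMap D (WW a) (NN c) (incL D (WW a) (NN b))
    ((incR D (WW a) (NN b)).comp (D.map (homOfLE (NN_anti h))).hom)

theorem tau_L (a : P) {b c : P} (h : b ≤ c) (x : D.obj (WW a)) :
    tau D a h (incL D (WW a) (NN c) x) = incL D (WW a) (NN b) x := pairMap_L D _ _ _ _ x

theorem tau_R (a : P) {b c : P} (h : b ≤ c) (x : D.obj (NN c)) :
    tau D a h (incR D (WW a) (NN c) x) =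
      incR D (WW a) (NN b) (D.map (homOfLE (NN_anti h)) x) := pairMap_R D _ _ _ _ x

theorem NN_fam {a b : P} : NN a ≤ uni (WW a) (NN b) := by
  apply le_uni
  rintro (c | _) hx
  · exact Or.inl (mem_WW.2 (mem_NN.1 hx))
  · exact Or.inr (none_NN b)

theorem fam_NN {a b : P} (h : a ≤ b) : uni (WW a) (NN b) ≤ NN a := by
  apply uni_le _ (NN_anti h)
  rintro (c | _) hx
  · exact mem_NN.2 (mem_WW.1 hx)
  · exact absurd hx (none_WW a)

theorem aug_tau (a : P) {b c : P} (hab : a ≤ b) (h : b ≤ c) (x) :
    D.map (homOfLE (fam_NN hab)) (augP D (WW a) (NN b) (tau D a h x)) =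
      D.map (homOfLE (fam_NN (hab.trans h))) (augP D (WW a) (NN c) x) := by
  refine pair_induction D (WW a) (NN c)
    (M := fun x => D.map (homOfLE (fam_NN hab)) (augP D (WW a) (NN b) (tau D a h x)) =
      D.map (homOfLE (fam_NN (hab.trans h))) (augP D (WW a) (NN c) x)) ?_ ?_ ?_ ?_ x
  · simp only [map_zero]
  · intro x
    rw [tau_L, augP_L, augP_L, map_map D _ _ (le_trans (left_le (WW a) (NN b)) (fam_NN hab)),
      map_map D _ _ (le_trans (left_le (WW a) (NN b)) (fam_NN hab))]
  · intro x
    rw [tau_R, augP_R, augP_R, map_map D _ _ (le_trans (right_le (WW a) (NN b)) (fam_NN hab)),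
      map_map D _ _ (NN_anti (hab.trans h)), map_map D _ _ (NN_anti (hab.trans h))]
  · intro x y hx hy
    simp only [map_add]
    rw [hx, hy]

include hnat in
theorem Phi_tau (a : P) {b c : P} (h : b ≤ c) (x) :
    Phi D e a b (tau D a h x) = (CA P).map (homOfLE (NN_anti h)) (Phi D e a c x) := by
  refine pair_induction D (WW a) (NN c)
    (M := fun x => Phi D e a b (tau D a h x) =
      (CA P).map (homOfLE (NN_anti h)) (Phi D e a c x)) ?_ ?_ ?_ ?_ x
  · simp only [map_zero]
  · intro x
    rw [tau_L, Phi_L, Phi_L, map_zero]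
  · intro x
    rw [tau_R, Phi_R, Phi_R, hnat]
  · intro x y hx hy
    simp only [map_add]
    rw [hx, hy]

theorem seg_NN {a x : P} (h : x < a) : x ∈ seg (NN a) := fun _ hb => lt_of_lt_of_le h (mem_NN.1 hb)

include hP hU hD hnat h0 in
theorem zero_NN (a : P) (d : D.obj (NN a)) : e (NN a) d = 0 := by
  have hex : ∀ b : P, ∃ x, augP D (WW a) (NN b) x = D.map (homOfLE NN_fam) d := fun b =>
    augP_surj D hD _ _ _
  choose x hx using hex
  have hx2 : ∀ b (h : a ≤ b), D.map (homOfLE (fam_NN h)) (augP D (WW a) (NN b) (x b)) = d := by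
    intro b h
    rw [hx, map_map D _ _ le_rfl, map_self]
  have hxi : ∀ b (h : a ≤ b) (u v), D.map (homOfLE (fam_NN h)) (augP D (WW a) (NN b) u) =
      D.map (homOfLE (fam_NN h)) (augP D (WW a) (NN b) v) →
      augP D (WW a) (NN b) u = augP D (WW a) (NN b) v := by
    intro b h u v huv
    have h1 := congrArg (D.map (homOfLE (NN_fam (a := a) (b := b)))) huv
    rw [map_map D _ _ le_rfl, map_map D _ _ le_rfl, map_self, map_self] at h1
    exact h1
  have hz := zero_lim (fun b : P => seg (NN b)) (fun b c h => seg_anti (NN_anti h)) a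
    (by
      intro y
      obtain ⟨b, hb⟩ := exists_above hP hU (fun n => if n = 0 then a else y)
      refine ⟨b, (hb 0).le, seg_NN ?_⟩
      have := hb 1
      simpa using this)
    (by
      intro s
      obtain ⟨b, hb⟩ := exists_above hP hU s
      exact ⟨b, fun n => (hb n).le⟩) hU (fun b => Phi D e a b (x b))
    (by
      intro b c hab hbc
      have h1 : Phi D e a b (tau D a hbc (x c)) = Phi D e a b (x b) := by
        apply Phi_eq D hD e hnat h0
        apply hxi b hab
        rw [aug_tau D a hab hbc, hx2 b hab, hx2 c (hab.trans hbc)]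
      have h2 := Phi_tau D e hnat a hbc (x c)
      exact h2.symm.trans h1)
  have h1 := hz a le_rfl
  have h2 := Phi_aug D e hnat h0 a a (x a)
  have h3 : Phi D e a a (x a) = 0 := h1
  rw [h3, map_zero] at h2
  rw [← hx2 a le_rfl, hnat, h2, map_zero]

include hP hU hD hnat h0 in
theorem zero_all (U : Opens (Sp P)) (d : D.obj U) : e U d = 0 := by
  by_cases hn : Sp.infty ∈ U
  · obtain ⟨a, ha⟩ := ex U hn
    let U' : Opens (Sp P) := ⟨{x | x ∈ U ∧ x ≠ Sp.infty}, ⟨fun b c hbc hb => ⟨up U hbc hb.1, by simp⟩,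
      fun h => absurd rfl h.2⟩⟩
    have hle : U ≤ uni U' (NN a) := by
      apply le_uni
      rintro (c | _) hx
      · exact Or.inl ⟨hx, by simp⟩
      · exact Or.inr (none_NN a)
    have hge : uni U' (NN a) ≤ U := by
      apply uni_le
      · exact fun x hx => hx.1
      · rintro (c | _) hx
        · exact up U (mem_NN.1 hx) ha
        · exact hn
    have key : ∀ x, e (uni U' (NN a)) (augP D U' (NN a) x) = 0 := by
      intro x
      refine pair_induction D U' (NN a)
        (M := fun x => e (uni U' (NN a)) (augP D U' (NN a) x) = 0) ?_ ?_ ?_ ?_ x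
      · rw [map_zero, map_zero]
      · intro x
        rw [augP_L, hnat, h0 U' (fun h => h.2 rfl) x, map_zero]
      · intro x
        rw [augP_R, hnat, zero_NN hP hU D hD e hnat h0 a x, map_zero]
      · intro x y hx hy
        rw [map_add, map_add, hx, hy, add_zero]
    obtain ⟨x, hx⟩ := augP_surj D hD U' (NN a) (D.map (homOfLE hle) d)
    have h1 : d = D.map (homOfLE hge) (augP D U' (NN a) x) := by
      rw [hx, map_map D _ _ le_rfl, map_self]
    rw [h1, hnat, key, map_zero]
  · exact h0 U hn d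

end

end Pool.Agent.X155.Cosh
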