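import Mathlib

/-! Dihedral groups of order at least `16` are not direct factors of unit groups which are
2-groups. -/

namespace X155.DihU

theorem eq_one_of_odd_pow {G : Type*} [Group G] (hG : IsPGroup 2 G) {g : G} {b : ℕ} (hb : Odd b)
    (h : g ^ b = 1) : g = 1 := by
  obtain ⟨m, hm⟩ := hG g
  have h1 := orderOf_dvd_of_pow_eq_one h
  have h2 := orderOf_dvd_of_pow_eq_one hm
  have hc : Nat.Coprime b (2 ^ m) := (Nat.coprime_two_right.mpr hb).pow_right m
  have h3 : orderOf g = 1 := Nat.eq_one_of_dvd_coprimes hc h1 h2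
  exact orderOf_eq_one_iff.mp h3

theorem one_add_pow {R : Type*} [Ring R] {y : R} (hy : y * y = 0) (m : ℕ) :
    (1 + y) ^ m = 1 + m * y := by
  induction m with
  | zero => simp
  | succ m ih =>
    rw [pow_succ, ih]
    have : (1 + (m : R) * y) * (1 + y) = 1 + (m * y + y) + m * (y * y) := by noncomm_ring
    rw [this, hy]; push_cast; noncomm_ring

theorem core {R : Type*} [Ring R] [Finite R] (hR : IsPGroup 2 Rˣ) (r s : Rˣ) (hs : s * s = 1)
    (hsr : s * r = r⁻¹ * s) {k : ℕ} (hr : r ^ (2 ^ k) = 1)
    (hconj : ∀ g : Rˣ, g * r = r * g ∨ g * r = r⁻¹ * g) (h2 : r * r ≠ 1) : r ^ 4 = 1 := by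
  obtain ⟨N, hN⟩ := CharP.exists R
  have hN0 : N ≠ 0 := CharP.char_ne_zero_of_finite R N
  obtain ⟨a, b, hb, hNab⟩ := Nat.exists_eq_two_pow_mul_odd hN0
  have hcop : Nat.Coprime (2 ^ a) b := (Nat.coprime_two_left.mpr hb).pow_left a
  obtain ⟨c, hc1, hc2⟩ := Nat.chineseRemainder hcop 1 0
  set C : R := (c : R) with hC
  have hCc : ∀ y : R, C * y = y * C := fun y => (Nat.cast_commute c y).eq
  -- `2 ^ a * C = 0` and `b * C = b`
  have hC2 : (2 : R) ^ a * C = 0 := by
    have h1 : N ∣ 2 ^ a * c := by
      rw [hNab]; exact mul_dvd_mul_left _ ((Nat.modEq_zero_iff_dvd).mp hc2)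
    have := (CharP.cast_eq_zero_iff R N (2 ^ a * c)).mpr h1
    push_cast at this; exact this
  have hCb : (b : R) * C = b := by
    have h1 : b * c ≡ b * 1 [MOD N] := by
      rw [hNab, mul_comm (2 ^ a) b]
      exact Nat.ModEq.mul_left' b hc1
    have := (CharP.natCast_eq_natCast R N).mpr h1
    push_cast at this; rw [mul_one] at this; exact this
  set x : R := (r : R) with hx
  set xi : R := ((r⁻¹ : Rˣ) : R) with hxi
  set S : R := (s : R) with hSdef
  have hxxi : x * xi = 1 := by rw [hx, hxi, ← Units.val_mul]; simp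
  have hxix : xi * x = 1 := by rw [hx, hxi, ← Units.val_mul]; simp
  have hSS : S * S = 1 := by rw [hSdef, ← Units.val_mul, hs, Units.val_one]
  have hSx : S * x = xi * S := by
    rw [hSdef, hx, hxi, ← Units.val_mul, ← Units.val_mul, hsr]
  have hne : x ≠ xi := by
    intro h
    apply h2
    apply Units.ext
    rw [Units.val_mul, Units.val_one, ← hx]
    nth_rewrite 2 [h]
    exact hxxi
  -- a nilpotent element `w` with `w x = x⁻¹ w` satisfies `x⁻¹ w = x w`
  have hcase : ∀ w : R, IsNilpotent w → w * x = xi * w → xi * w = x * w := by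
    intro w hw hwx
    obtain ⟨g, hg⟩ := hw.isUnit_one_add
    rcases hconj g with h | h
    · have h3 := congrArg (fun u : Rˣ => (u : R)) h
      simp only [Units.val_mul, hg, ← hx] at h3
      have h4 : x + w * x = x + x * w := by
        calc x + w * x = (1 + w) * x := by noncomm_ring
          _ = x * (1 + w) := h3
          _ = _ := by noncomm_ring
      rw [← hwx]; exact add_left_cancel h4
    · have h3 := congrArg (fun u : Rˣ => (u : R)) h
      simp only [Units.val_mul, hg, ← hx, ← hxi] at h3
      have h4 : x + w * x = xi + w * x := by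
        calc x + w * x = (1 + w) * x := by noncomm_ring
          _ = xi * (1 + w) := h3
          _ = xi + xi * w := by noncomm_ring
          _ = _ := by rw [hwx]
      exact absurd (add_right_cancel h4) hne
  have hCpow : ∀ n : ℕ, ∀ y : R, C ^ n * y = y * C ^ n := fun n y =>
    ((show Commute C y from hCc y).pow_left n).eq
  have h2c : ∀ y : R, 2 * y = y * 2 := fun y => by noncomm_ring
  -- `C * 2` is nilpotent and central
  have hDc : ∀ y : R, Commute (C * 2) y := fun y => by
    change C * 2 * y = y * (C * 2)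
    rw [mul_assoc, h2c, ← mul_assoc, hCc, mul_assoc]
  have hD : IsNilpotent (C * 2) := by
    refine ⟨a + 1, ?_⟩
    have h3 : Commute C 2 := hCc 2
    rw [h3.mul_pow, pow_succ C a, pow_succ (2 : R) a]
    have : C ^ a * C * (2 ^ a * 2) = C ^ a * (2 ^ a * C) * 2 := by
      have h4 : C * 2 ^ a = 2 ^ a * C := hCc _
      calc C ^ a * C * (2 ^ a * 2) = C ^ a * (C * 2 ^ a) * 2 := by noncomm_ring
        _ = _ := by rw [h4]
    rw [this, hC2]; simp
  -- `C (x - 1)` is nilpotent
  have hxk : x ^ 2 ^ k = 1 := by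
    rw [hx, ← Units.val_pow_eq_pow_val, hr, Units.val_one]
  have hnil1 : IsNilpotent (C * (x - 1)) := by
    have hz : ∃ z, (x - 1) ^ 2 ^ k = 2 * z := by
      rcases Nat.eq_zero_or_pos k with h0 | h0
      · subst h0
        refine ⟨0, ?_⟩
        simp only [pow_zero, pow_one] at hxk
        simp [hxk]
      · have hcomm : Commute x (-1 : R) := (Commute.one_right x).neg_right
        obtain ⟨z, hz⟩ := hcomm.exists_add_pow_prime_pow_eq Nat.prime_two k
        refine ⟨1 - x * z, ?_⟩
        have hev : Even (2 ^ k) := (Nat.even_pow).mpr ⟨even_two, h0.ne'⟩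
        rw [hev.neg_one_pow, hxk] at hz
        rw [sub_eq_add_neg, hz]; push_cast; noncomm_ring
    obtain ⟨z, hz⟩ := hz
    have h3 : Commute C (x - 1) := hCc _
    have h5 : (C * (x - 1)) ^ 2 ^ k = C * 2 * (C ^ (2 ^ k - 1) * z) := by
      have h6 : C ^ 2 ^ k = C * C ^ (2 ^ k - 1) := by
        rw [← pow_succ']; congr 1
        have : 1 ≤ 2 ^ k := Nat.one_le_two_pow
        omega
      rw [h3.mul_pow, hz, h6]
      calc C * C ^ (2 ^ k - 1) * (2 * z) = C * (C ^ (2 ^ k - 1) * 2) * z := by noncomm_ring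
        _ = C * (2 * C ^ (2 ^ k - 1)) * z := by rw [h2c]
        _ = _ := by noncomm_ring
    have h7 : IsNilpotent ((C * (x - 1)) ^ 2 ^ k) := by
      rw [h5]; exact (hDc _).isNilpotent_mul_right hD
    exact (IsNilpotent.pow_iff_pos (by positivity)).mp h7
  have hxixm : xi - 1 = -(xi * (x - 1)) := by rw [mul_sub, hxix]; noncomm_ring
  have hSxm : S * (x - 1) = (xi - 1) * S := by rw [mul_sub, hSx]; noncomm_ring
  have hxmxi : (x - 1) * xi = xi * (x - 1) := by rw [sub_mul, mul_sub, hxxi, hxix]; simp
  have hnil2 : IsNilpotent (C * (x - 1) * S) := by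
    have h3 : (C * (x - 1) * S) ^ 2 = -(xi * (C * (x - 1)) ^ 2) := by
      rw [sq, sq]
      calc C * (x - 1) * S * (C * (x - 1) * S)
          = C * (x - 1) * (S * C) * (x - 1) * S := by noncomm_ring
        _ = C * (x - 1) * (C * S) * (x - 1) * S := by rw [hCc S]
        _ = C * (x - 1) * C * (S * (x - 1)) * S := by noncomm_ring
        _ = C * (x - 1) * C * (xi - 1) * (S * S) := by rw [hSxm]; noncomm_ring
        _ = C * (x - 1) * C * (xi - 1) := by rw [hSS, mul_one]
        _ = -(C * (x - 1) * (C * xi) * (x - 1)) := by rw [hxixm]; noncomm_ring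
        _ = -(C * ((x - 1) * xi) * (C * (x - 1))) := by rw [hCc xi]; noncomm_ring
        _ = -(C * xi * (x - 1) * (C * (x - 1))) := by rw [hxmxi]; noncomm_ring
        _ = -(xi * (C * (x - 1) * (C * (x - 1)))) := by rw [hCc xi]; noncomm_ring
    have h4 : Commute xi ((C * (x - 1)) ^ 2) := by
      refine Commute.pow_right ?_ 2
      change xi * (C * (x - 1)) = C * (x - 1) * xi
      rw [mul_assoc, hxmxi, ← mul_assoc, ← mul_assoc, hCc xi]
    have h5 : IsNilpotent ((C * (x - 1) * S) ^ 2) := by
      rw [h3]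
      exact (h4.isNilpotent_mul_left (hnil1.pow_succ 1)).neg
    exact (IsNilpotent.pow_iff_pos two_ne_zero).mp h5
  have hnil3 : IsNilpotent (C * 2 * S) := (hDc S).isNilpotent_mul_right hD
  have e1 : C * ((x - 1) * (x * x - 1)) = 0 := by
    have h3 := hcase _ hnil2 (by
      calc C * (x - 1) * S * x = C * (x - 1) * (S * x) := by noncomm_ring
        _ = C * ((x - 1) * xi) * S := by rw [hSx]; noncomm_ring
        _ = C * xi * (x - 1) * S := by rw [hxmxi]; noncomm_ring
        _ = xi * (C * (x - 1) * S) := by rw [hCc xi]; noncomm_ring)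
    have h4 : x * (xi * (C * (x - 1) * S)) * S = x * (x * (C * (x - 1) * S)) * S := by rw [h3]
    have h5 : x * (xi * (C * (x - 1) * S)) * S = C * (x - 1) := by
      calc _ = (x * xi) * (C * (x - 1)) * (S * S) := by noncomm_ring
        _ = _ := by rw [hxxi, hSS]; simp
    have h6 : x * (x * (C * (x - 1) * S)) * S = C * (x * x * (x - 1)) := by
      calc _ = (x * x * C) * (x - 1) * (S * S) := by noncomm_ring
        _ = _ := by rw [hSS, ← hCc (x * x)]; noncomm_ring
    rw [h5, h6] at h4
    calc C * ((x - 1) * (x * x - 1)) = C * (x * x * (x - 1)) - C * (x - 1) := by noncomm_ring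
      _ = 0 := by rw [← h4, sub_self]
  have e2 : C * (2 * (x * x - 1)) = 0 := by
    have h3 := hcase _ hnil3 (by
      calc C * 2 * S * x = C * 2 * (S * x) := by noncomm_ring
        _ = C * 2 * xi * S := by rw [hSx]; noncomm_ring
        _ = xi * (C * 2 * S) := by rw [(hDc xi).eq]; noncomm_ring)
    have h4 : x * (xi * (C * 2 * S)) * S = x * (x * (C * 2 * S)) * S := by rw [h3]
    have h5 : x * (xi * (C * 2 * S)) * S = C * 2 := by
      calc _ = (x * xi) * (C * 2) * (S * S) := by noncomm_ring
        _ = _ := by rw [hxxi, hSS]; simp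
    have h6 : x * (x * (C * 2 * S)) * S = C * 2 * (x * x) := by
      calc _ = (x * x * (C * 2)) * (S * S) := by noncomm_ring
        _ = _ := by rw [hSS, ← (hDc (x * x)).eq]; noncomm_ring
    rw [h5, h6] at h4
    calc C * (2 * (x * x - 1)) = C * 2 * (x * x) - C * 2 := by noncomm_ring
      _ = 0 := by rw [← h4, sub_self]
  have e3 : C * (x ^ 4 - 1) = 0 := by
    have : C * (x ^ 4 - 1) = C * ((x - 1) * (x * x - 1)) * (x + 1) + C * (2 * (x * x - 1)) := by
      noncomm_ring
    rw [this, e1, e2]; simp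
  have e4 : (1 - C) * (x ^ 4 - 1) = 0 := by
    have hdc : ∀ y : R, (1 - C) * y = y * (1 - C) := fun y => by
      rw [sub_mul, mul_sub, hCc y]; simp
    have hbd : (b : R) * (1 - C) = 0 := by rw [mul_sub, hCb]; simp
    have hzero : ∀ p q : R, q * p = 0 → (1 - C) * (p * x * q) = 0 := by
      intro p q hpq
      have hy : (1 - C) * (p * x * q) * ((1 - C) * (p * x * q)) = 0 := by
        calc _ = (1 - C) * (p * x * (q * (1 - C)) * (p * x * q)) := by noncomm_ring
          _ = (1 - C) * (p * x * ((1 - C) * q) * (p * x * q)) := by rw [hdc q]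
          _ = (1 - C) * (p * x * (1 - C) * (q * p) * (x * q)) := by noncomm_ring
          _ = 0 := by rw [hpq]; simp
      have hny : IsNilpotent ((1 - C) * (p * x * q)) := ⟨2, by rw [sq]; exact hy⟩
      obtain ⟨g, hg⟩ := hny.isUnit_one_add
      have hgb : g ^ b = 1 := by
        apply Units.ext
        rw [Units.val_pow_eq_pow_val, hg, one_add_pow hy, Units.val_one, ← mul_assoc, hbd]
        simp
      have hg1 := eq_one_of_odd_pow hR hb hgb
      rw [hg1, Units.val_one] at hg
      exact left_eq_add.mp hg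
    have h3 := hzero (1 + S) (1 - S) (by
      calc (1 - S) * (1 + S) = 1 - S * S := by noncomm_ring
        _ = 0 := by rw [hSS]; simp)
    have h4 := hzero (1 - S) (1 + S) (by
      calc (1 + S) * (1 - S) = 1 - S * S := by noncomm_ring
        _ = 0 := by rw [hSS]; simp)
    have h5 : 2 * ((1 - C) * (S * x - x * S)) = 0 := by
      calc _ = (1 - C) * ((1 + S) * x * (1 - S)) - (1 - C) * ((1 - S) * x * (1 + S)) := by
            noncomm_ring
        _ = 0 := by rw [h3, h4, sub_self]
    obtain ⟨t, ht⟩ := hb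
    have h6 : (1 - C) * (S * x - x * S) = 0 := by
      have h7 : (b : R) * ((1 - C) * (S * x - x * S)) = 0 := by rw [← mul_assoc, hbd, zero_mul]
      rw [ht] at h7
      push_cast at h7
      have h8 : (2 * (t : R) + 1) * ((1 - C) * (S * x - x * S)) =
          t * (2 * ((1 - C) * (S * x - x * S))) + (1 - C) * (S * x - x * S) := by noncomm_ring
      rw [h8, h5, mul_zero, zero_add] at h7
      exact h7
    have h9 : (1 - C) * (x * x - 1) = 0 := by
      have h10 : x * ((1 - C) * (S * x - x * S)) * S = (1 - C) * (1 - x * x) := by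
        calc _ = (x * (1 - C)) * (S * x - x * S) * S := by noncomm_ring
          _ = (1 - C) * x * (xi * S - x * S) * S := by rw [← hdc x, hSx]
          _ = (1 - C) * (x * xi) * (S * S) - (1 - C) * (x * x) * (S * S) := by noncomm_ring
          _ = _ := by rw [hxxi, hSS]; noncomm_ring
      rw [h6] at h10
      calc (1 - C) * (x * x - 1) = -((1 - C) * (1 - x * x)) := by noncomm_ring
        _ = 0 := by rw [← h10]; simp
    calc (1 - C) * (x ^ 4 - 1) = (1 - C) * (x * x - 1) * (x * x + 1) := by noncomm_ring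
      _ = 0 := by rw [h9, zero_mul]
  have e5 : x ^ 4 = 1 := by
    have : x ^ 4 - 1 = C * (x ^ 4 - 1) + (1 - C) * (x ^ 4 - 1) := by noncomm_ring
    rw [e3, e4, add_zero] at this
    exact sub_eq_zero.mp this
  apply Units.ext
  rw [Units.val_pow_eq_pow_val, Units.val_one]
  exact e5

/-- Dihedral groups of order `2 ^ (j + 1)`, `j ≥ 3`, are not direct factors of 2-groups which are
unit groups of finite rings. -/
theorem dihedral {R : Type*} [Ring R] [Finite R] (j : ℕ) (hj : 3 ≤ j) {H : Type*} [Group H]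
    (hH : IsPGroup 2 H) (e : Rˣ ≃* DihedralGroup (2 ^ j) × H) : False := by
  have hnz : NeZero (2 ^ j) := ⟨by positivity⟩
  have hD : IsPGroup 2 (DihedralGroup (2 ^ j)) := by
    refine IsPGroup.of_card (n := j + 1) ?_
    rw [DihedralGroup.nat_card]; ring
  have hR : IsPGroup 2 Rˣ := by
    intro g
    obtain ⟨m, hm⟩ := hD (e g).1
    obtain ⟨m', hm'⟩ := hH (e g).2
    refine ⟨m + m', ?_⟩
    apply e.injective
    rw [map_pow, map_one]
    apply Prod.ext
    · rw [Prod.pow_fst, pow_add, pow_mul, hm, one_pow]; rfl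
    · rw [Prod.pow_snd, pow_add, mul_comm, pow_mul, hm', one_pow]; rfl
  set r : Rˣ := e.symm (DihedralGroup.r 1, 1) with hr
  set s : Rˣ := e.symm (DihedralGroup.sr 0, 1) with hs
  have er : e r = (DihedralGroup.r 1, 1) := by rw [hr]; simp
  have es : e s = (DihedralGroup.sr 0, 1) := by rw [hs]; simp
  have hpow : ∀ n : ℕ, e (r ^ n) = (DihedralGroup.r (n : ZMod (2 ^ j)), 1) := by
    intro n
    rw [map_pow, er]
    apply Prod.ext
    · simp
    · simp
  have h4 := core hR r s (k := j) ?_ ?_ ?_ ?_ ?_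
  · have h5 := hpow 4
    rw [h4, map_one] at h5
    have h6 := congrArg Prod.fst h5
    simp only [Prod.fst_one, DihedralGroup.one_def] at h6
    have h7 : ((4 : ℕ) : ZMod (2 ^ j)) = 0 := by
      have := DihedralGroup.r.inj h6
      exact this.symm
    rw [ZMod.natCast_eq_zero_iff] at h7
    have h8 : 2 ^ 3 ∣ 2 ^ j := pow_dvd_pow 2 hj
    have h9 := h8.trans h7
    norm_num at h9
  · apply e.injective
    rw [map_mul, es, map_one]
    simp
  · apply e.injective
    rw [map_mul, map_mul, map_inv, es, er]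
    simp
  · apply e.injective
    rw [hpow, map_one]
    simp
  · intro g
    rcases h : (e g).1 with i | i
    · left
      apply e.injective
      rw [map_mul, map_mul, er]
      apply Prod.ext
      · simp [h, add_comm]
      · simp
    · right
      apply e.injective
      rw [map_mul, map_mul, map_inv, er]
      apply Prod.ext
      · simp [h, sub_eq_add_neg]
      · simp
  · intro h
    have h5 := hpow 2
    rw [sq, h, map_one] at h5
    have h6 := congrArg Prod.fst h5
    simp only [Prod.fst_one, DihedralGroup.one_def] at h6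
    have h7 : ((2 : ℕ) : ZMod (2 ^ j)) = 0 := (DihedralGroup.r.inj h6).symm
    rw [ZMod.natCast_eq_zero_iff] at h7
    have h8 : 2 ^ 3 ∣ 2 ^ j := pow_dvd_pow 2 hj
    have h9 := h8.trans h7
    norm_num at h9

end X155.DihU
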