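import Mathlib

/-! Polish semigroup topologies on the monoid of strictly increasing maps. -/

set_option autoImplicit false

namespace X155.EndN

open Set Filter Topology ENNReal

/-- A set cut out by countably many open conditions from a closed set is Polish. -/
lemma polish_of_gdelta {S Y ι : Type} [TopologicalSpace Y] [PolishSpace Y] [Countable ι]
    [TopologicalSpace S] (Ψ : S → Y) (hΨ : IsEmbedding Ψ) (C : Set Y) (hC : IsClosed C)
    (U : ι → Set Y) (hU : ∀ i, IsOpen (U i)) (hr : range Ψ = C ∩ ⋂ i, U i) : PolishSpace S := by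
  have hmem : ∀ x, Ψ x ∈ C ∩ ⋂ i, U i := fun x => hr ▸ mem_range_self x
  have : PolishSpace C := hC.polishSpace
  have : ∀ i, PolishSpace (U i) := fun i => (hU i).polishSpace
  let D : S → C × (∀ i, U i) := fun x => (⟨Ψ x, (hmem x).1⟩, fun i => ⟨Ψ x, mem_iInter.1 (hmem x).2 i⟩)
  have hD : Continuous D := by
    refine Continuous.prodMk (hΨ.continuous.subtype_mk _) ?_
    exact continuous_pi fun i => hΨ.continuous.subtype_mk _
  have hDe : IsEmbedding D :=
    IsEmbedding.of_comp hD (continuous_subtype_val.comp continuous_fst) hΨ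
  have hcl : IsClosed (range D) := by
    have h1 : range D = ⋂ i, {p : C × (∀ i, U i) | ((p.2 i : U i) : Y) = (p.1 : Y)} := by
      ext p
      constructor
      · rintro ⟨x, rfl⟩
        exact mem_iInter.2 fun i => rfl
      · intro hp
        have hp' := mem_iInter.1 hp
        have h2 : (p.1 : Y) ∈ C ∩ ⋂ i, U i := by
          refine ⟨p.1.2, mem_iInter.2 fun i => ?_⟩
          have h3 : ((p.2 i : U i) : Y) = (p.1 : Y) := hp' i
          rw [← h3]
          exact (p.2 i).2
        rw [← hr] at h2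
        obtain ⟨x, hx⟩ := h2
        refine ⟨x, ?_⟩
        refine Prod.ext (Subtype.ext hx) ?_
        funext i
        refine Subtype.ext ?_
        have h3 : ((p.2 i : U i) : Y) = (p.1 : Y) := hp' i
        rw [h3]
        exact hx
    rw [h1]
    refine isClosed_iInter fun i => ?_
    refine isClosed_eq ?_ ?_
    · exact continuous_subtype_val.comp ((continuous_apply i).comp continuous_snd)
    · exact continuous_subtype_val.comp continuous_fst
  exact (IsClosedEmbedding.mk hDe hcl).polishSpace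

/-- Two lower semicontinuous functions with continuous finite sum. -/
lemma tendsto_of_lsc {X : Type} {l : Filter X} {A q : X → ℝ≥0∞} {a b : ℝ≥0∞}
    (hA : ∀ c, c < a → ∀ᶠ x in l, c < A x) (hq : ∀ c, c < b → ∀ᶠ x in l, c < q x)
    (hs : Tendsto (fun x => A x + q x) l (𝓝 (a + b))) (hfin : a + b ≠ ⊤) :
    Tendsto A l (𝓝 a) := by
  refine tendsto_order.2 ⟨hA, fun c hc => ?_⟩
  obtain ⟨r, hr, hrc⟩ := ENNReal.lt_iff_exists_add_pos_lt.1 hc
  have hb : b ≠ ⊤ := fun h => hfin (by rw [h, add_top])
  have ha : a ≠ ⊤ := fun h => hfin (by rw [h, top_add])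
  have hr2 : (0 : ℝ≥0∞) < ((r / 2 : NNReal) : ℝ≥0∞) := by
    rw [ENNReal.coe_pos]; positivity
  have hrr : ((r / 2 : NNReal) : ℝ≥0∞) + ((r / 2 : NNReal) : ℝ≥0∞) = r := by
    rw [← ENNReal.coe_add, add_halves]
  have h1 : ∀ᶠ x in l, b < q x + ((r / 2 : NNReal) : ℝ≥0∞) := by
    by_cases hb0 : b = 0
    · rw [hb0]
      exact Eventually.of_forall fun x => lt_of_lt_of_le hr2 le_add_self
    · filter_upwards [hq _ (ENNReal.sub_lt_self hb hb0 hr2.ne')] with x hx
      exact ENNReal.lt_add_of_sub_lt_right (Or.inl hb) hx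
  have h2 : ∀ᶠ x in l, A x + q x < a + b + ((r / 2 : NNReal) : ℝ≥0∞) :=
    (tendsto_order.1 hs).2 _ (ENNReal.lt_add_right hfin hr2.ne')
  filter_upwards [h1, h2] with x hx1 hx2
  have h3 : A x + q x < a + r + q x := by
    calc A x + q x < a + b + ((r / 2 : NNReal) : ℝ≥0∞) := hx2
      _ ≤ a + (q x + ((r / 2 : NNReal) : ℝ≥0∞)) + ((r / 2 : NNReal) : ℝ≥0∞) := by gcongr
      _ = a + r + q x := by rw [← hrr]; ring
  have h4 : q x ≠ ⊤ := by
    intro h
    rw [h, add_top] at hx2
    exact absurd hx2 (not_lt.2 le_top)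
  exact lt_trans ((ENNReal.add_lt_add_iff_right h4).1 h3) hrc

/-- The strictly increasing maps of `ℕ`. -/
abbrev E : Type := {f : ℕ → ℕ // StrictMono f}

instance : PolishSpace E := by
  have h : IsClosed {f : ℕ → ℕ | StrictMono f} := by
    have h1 : {f : ℕ → ℕ | StrictMono f} = ⋂ n : ℕ, {f : ℕ → ℕ | f n < f (n + 1)} := by
      ext f
      rw [mem_iInter]
      exact ⟨fun h n => h (Nat.lt_succ_self n), fun h => strictMono_nat_of_lt_succ h⟩
    rw [h1]
    refine isClosed_iInter fun n => ?_
    have h2 : Continuous fun f : ℕ → ℕ => (f n, f (n + 1)) :=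
      (continuous_apply n).prodMk (continuous_apply (n + 1))
    exact (isClosed_discrete {p : ℕ × ℕ | p.1 < p.2}).preimage h2
  exact h.polishSpace

/-- composition -/
def comp (f g : E) : E := ⟨f.1 ∘ g.1, f.2.comp g.2⟩

lemma continuous_comp : Continuous fun p : E × E => comp p.1 p.2 := by
  refine Continuous.subtype_mk ?_ _
  refine continuous_pi fun n => ?_
  rw [continuous_iff_continuousAt]
  rintro ⟨f, g⟩
  have h1 : ∀ᶠ p : E × E in 𝓝 (f, g), p.2.1 n = g.1 n := by
    have : Continuous fun p : E × E => p.2.1 n :=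
      (continuous_apply n).comp (continuous_subtype_val.comp continuous_snd)
    have h := this.tendsto (f, g)
    rw [nhds_discrete ℕ] at h
    exact tendsto_pure.1 h
  have h2 : ∀ᶠ p : E × E in 𝓝 (f, g), p.1.1 (g.1 n) = f.1 (g.1 n) := by
    have : Continuous fun p : E × E => p.1.1 (g.1 n) :=
      (continuous_apply (g.1 n)).comp (continuous_subtype_val.comp continuous_fst)
    have h := this.tendsto (f, g)
    rw [nhds_discrete ℕ] at h
    exact tendsto_pure.1 h
  refine tendsto_nhds_of_eventually_eq ?_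
  filter_upwards [h1, h2] with p hp1 hp2
  change p.1.1 (p.2.1 n) = f.1 (g.1 n)
  rw [hp1, hp2]

open Classical in
/-- the part of `w` outside the range -/
noncomputable def ind (w : ℕ → ℝ≥0∞) (f : E) (a : ℕ) : ℝ≥0∞ := if a ∈ range f.1 then 0 else w a

/-- the weight of the complement of the range -/
noncomputable def s (w : ℕ → ℝ≥0∞) (f : E) : ℝ≥0∞ := ∑' a, ind w f a

lemma mem_range_iff (f : E) (a : ℕ) : a ∈ range f.1 ↔ ∃ i : Fin (a + 1), f.1 i = a := by
  constructor
  · rintro ⟨i, hi⟩
    have : i ≤ f.1 i := f.2.le_apply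
    exact ⟨⟨i, by omega⟩, hi⟩
  · rintro ⟨i, hi⟩
    exact ⟨i, hi⟩

lemma continuous_restrict (a : ℕ) : Continuous fun f : E => fun i : Fin (a + 1) => f.1 i :=
  continuous_pi fun i => (continuous_apply (i : ℕ)).comp continuous_subtype_val

lemma continuous_ind (w : ℕ → ℝ≥0∞) (a : ℕ) : Continuous fun f : E => ind w f a := by
  classical
  let F : (Fin (a + 1) → ℕ) → ℝ≥0∞ := fun v => if ∃ i, v i = a then 0 else w a
  have h1 : (fun f : E => ind w f a) = F ∘ fun f : E => fun i : Fin (a + 1) => f.1 i := by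
    funext f
    simp only [ind, F, Function.comp, mem_range_iff]
  rw [h1]
  exact (continuous_of_discreteTopology (f := F)).comp (continuous_restrict a)

lemma lsc_s (w : ℕ → ℝ≥0∞) : LowerSemicontinuous (s w) :=
  lowerSemicontinuous_tsum fun a => (continuous_ind w a).lowerSemicontinuous

open Classical in
/-- the defect -/
noncomputable def q (w : ℕ → ℝ≥0∞) (p : E × E) : ℝ≥0∞ :=
  ∑' b, if b ∈ range p.2.1 then 0 else w b - w (p.1.1 b)

lemma lsc_q (w : ℕ → ℝ≥0∞) : LowerSemicontinuous (q w) := by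
  classical
  refine lowerSemicontinuous_tsum fun b => Continuous.lowerSemicontinuous ?_
  let F : ℕ × (Fin (b + 1) → ℕ) → ℝ≥0∞ := fun v => if ∃ i, v.2 i = b then 0 else w b - w v.1
  have h1 : (fun p : E × E => if b ∈ range p.2.1 then 0 else w b - w (p.1.1 b)) =
      F ∘ fun p : E × E => (p.1.1 b, fun i : Fin (b + 1) => p.2.1 i) := by
    funext p
    simp only [F, Function.comp, mem_range_iff]
  rw [h1]
  refine (continuous_of_discreteTopology (f := F)).comp (Continuous.prodMk ?_ ?_)
  · exact (continuous_apply b).comp (continuous_subtype_val.comp continuous_fst)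
  · exact (continuous_restrict b).comp continuous_snd

open Classical in
lemma s_comp (w : ℕ → ℝ≥0∞) (f g : E) :
    s w (comp f g) = s w f + ∑' b, if b ∈ range g.1 then 0 else w (f.1 b) := by
  have h1 : (∑' b, if b ∈ range g.1 then 0 else w (f.1 b)) =
      ∑' a, if a ∈ f.1 '' (range g.1)ᶜ then w a else 0 := by
    have h0 := Function.Injective.tsum_eq f.2.injective
      (f := fun a => if a ∈ f.1 '' (range g.1)ᶜ then w a else 0) (by
        intro a ha
        by_contra h
        apply ha
        change (if a ∈ f.1 '' (range g.1)ᶜ then w a else 0) = 0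
        rw [if_neg]
        rintro ⟨b, -, rfl⟩
        exact h ⟨b, rfl⟩)
    rw [← h0]
    refine tsum_congr fun b => ?_
    by_cases hb : b ∈ range g.1
    · rw [if_pos hb, if_neg]
      rintro ⟨b', hb', he⟩
      rw [f.2.injective he] at hb'
      exact hb' hb
    · rw [if_neg hb, if_pos ⟨b, hb, rfl⟩]
  rw [h1, s, s, ← ENNReal.tsum_add]
  refine tsum_congr fun a => ?_
  simp only [ind]
  by_cases h2 : a ∈ range f.1
  · obtain ⟨b, rfl⟩ := h2
    rw [if_pos (mem_range_self b), zero_add]
    by_cases h3 : b ∈ range g.1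
    · obtain ⟨n, rfl⟩ := h3
      rw [if_pos ⟨n, rfl⟩, if_neg]
      rintro ⟨b', hb', he⟩
      rw [f.2.injective he] at hb'
      exact hb' (mem_range_self n)
    · rw [if_neg, if_pos ⟨b, h3, rfl⟩]
      rintro ⟨n, hn⟩
      exact h3 ⟨n, f.2.injective hn⟩
  · rw [if_neg h2, if_neg, if_neg, add_zero]
    · rintro ⟨b, -, rfl⟩
      exact h2 (mem_range_self b)
    · rintro ⟨n, rfl⟩
      exact h2 ⟨g.1 n, rfl⟩

/-- the conditions on the weight -/
structure Wt (w : ℕ → ℝ≥0∞) : Prop where
  anti : Antitone w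
  half : ∀ a, w a ≤ 2 * w (2 * a + 1)
  lower : ∀ a : ℕ, 1 ≤ (a + 1) * w a
  le_one : ∀ a, w a ≤ 1

lemma sum_identity {w : ℕ → ℝ≥0∞} (hw : Wt w) (f g : E) :
    s w (comp f g) + q w (f, g) = s w f + s w g := by
  classical
  rw [s_comp, add_assoc, q, ← ENNReal.tsum_add]
  congr 1
  refine tsum_congr fun b => ?_
  simp only [ind]
  by_cases hb : b ∈ range g.1
  · rw [if_pos hb, if_pos hb, if_pos hb, add_zero]
  · rw [if_neg hb, if_neg hb, if_neg hb]
    exact add_tsub_cancel_of_le (hw.anti f.2.le_apply)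

end X155.EndN
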