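import Pool.Agent.X155.EndN1

set_option autoImplicit false

namespace X155.EndN

open Set Filter Topology ENNReal

open Classical in
lemma card_missing (f : E) (b : ℕ) :
    (((Finset.range (f.1 b)).filter fun a => ¬ ∃ i, f.1 i = a)).card + b = f.1 b := by
  have h1 : ((Finset.range (f.1 b)).filter fun a => ∃ i, f.1 i = a).card = b := by
    have h2 : ((Finset.range (f.1 b)).filter fun a => ∃ i, f.1 i = a) =
        (Finset.range b).image f.1 := by
      ext a
      simp only [Finset.mem_filter, Finset.mem_range, Finset.mem_image]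
      constructor
      · rintro ⟨h, i, rfl⟩
        exact ⟨i, f.2.lt_iff_lt.1 h, rfl⟩
      · rintro ⟨i, h, rfl⟩
        exact ⟨f.2 h, i, rfl⟩
    rw [h2, Finset.card_image_of_injective _ f.2.injective, Finset.card_range]
  have h3 := Finset.card_filter_add_card_filter_not (s := Finset.range (f.1 b))
    (fun a => ∃ i, f.1 i = a)
  rw [Finset.card_range] at h3
  have h4 : ((Finset.range (f.1 b)).filter fun a => ¬ ∃ i, f.1 i = a).card =
    ((Finset.range (f.1 b)).filter fun a => ¬ ∃ i, f.1 i = a).card := rfl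
  omega

lemma linear_bound {w : ℕ → ℝ≥0∞} (hw : Wt w) (f : E) (hf : s w f ≠ ⊤) :
    ∃ M, ∀ b, f.1 b ≤ 2 * b + 2 * M := by
  classical
  -- a finite set outside of which the sum is small
  have h1 : ∃ M : ℕ, ∀ F : Finset ℕ, (∀ a ∈ F, M ≤ a) → 4 * ∑ a ∈ F, ind w f a ≤ 1 := by
    have h2 := ENNReal.tendsto_tsum_compl_atTop_zero hf
    have h3 : ∀ᶠ t : Finset ℕ in atTop, ∑' b : {x // x ∉ t}, ind w f b < 1 / 4 :=
      (tendsto_order.1 h2).2 _ (by simp)
    obtain ⟨t, ht⟩ := h3.exists
    refine ⟨t.sup id + 1, fun F hF => ?_⟩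
    have h4 : ∑ a ∈ F, ind w f a ≤ ∑' b : {x // x ∉ t}, ind w f b := by
      have h5 : ∀ a ∈ F, a ∉ t := by
        intro a ha hat
        have := hF a ha
        have h6 : id a ≤ t.sup id := Finset.le_sup hat
        simp only [id] at h6
        omega
      have h6 : ∑ a ∈ F, ind w f a = ∑ a ∈ F.subtype (· ∉ t), ind w f a := by
        rw [Finset.sum_subtype_of_mem (fun a => ind w f a) h5]
      rw [h6]
      exact ENNReal.sum_le_tsum _
    calc 4 * ∑ a ∈ F, ind w f a ≤ 4 * (1 / 4) := by gcongr; exact h4.trans ht.le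
      _ = 1 := by
        rw [ENNReal.mul_div_cancel] <;> norm_num
  obtain ⟨M, hM⟩ := h1
  refine ⟨M, fun b => ?_⟩
  have hc := card_missing f b
  set n := f.1 b with hn
  set K := (Finset.range n).filter fun a => ¬ ∃ i, f.1 i = a with hK
  have h2 : (K.filter fun a => M ≤ a).card + M ≥ K.card := by
    have h3 := Finset.card_filter_add_card_filter_not (s := K) (fun a => M ≤ a)
    have h4 : (K.filter fun a => ¬ M ≤ a).card ≤ M := by
      have h5 : (K.filter fun a => ¬ M ≤ a) ⊆ Finset.range M := by
        intro a ha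
        rw [Finset.mem_filter] at ha
        rw [Finset.mem_range]
        omega
      simpa using Finset.card_le_card h5
    omega
  have h3 : 4 * (K.filter fun a => M ≤ a).card ≤ n := by
    have h4 := hM (K.filter fun a => M ≤ a) (fun a ha => (Finset.mem_filter.1 ha).2)
    have h5 : ((K.filter fun a => M ≤ a).card : ℝ≥0∞) ≤
        n * ∑ a ∈ K.filter fun a => M ≤ a, ind w f a := by
      rw [Finset.mul_sum, ← nsmul_one, ← Finset.sum_const]
      refine Finset.sum_le_sum fun a ha => ?_
      have ha2 := (Finset.mem_filter.1 ha).1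
      rw [hK, Finset.mem_filter, Finset.mem_range] at ha2
      have h6 : ind w f a = w a := by
        simp only [ind]
        rw [if_neg]
        rintro ⟨i, hi⟩
        exact ha2.2 ⟨i, hi⟩
      rw [h6]
      calc (1 : ℝ≥0∞) ≤ (a + 1) * w a := hw.lower a
        _ ≤ n * w a := by
          gcongr
          exact_mod_cast ha2.1
    have h6 : (4 * (K.filter fun a => M ≤ a).card : ℝ≥0∞) ≤ n := by
      calc (4 * (K.filter fun a => M ≤ a).card : ℝ≥0∞)
          ≤ 4 * (n * ∑ a ∈ K.filter fun a => M ≤ a, ind w f a) := by gcongr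
        _ = n * (4 * ∑ a ∈ K.filter fun a => M ≤ a, ind w f a) := by ring
        _ ≤ n * 1 := by gcongr
        _ = n := mul_one _
    exact_mod_cast h6
  omega

/-- If the weights of the complements of the ranges of `f` and of `f ∘ g` are finite, then so is the
one for `g`. -/
lemma prime {w : ℕ → ℝ≥0∞} (hw : Wt w) (f g : E) (h : s w (comp f g) ≠ ⊤) :
    s w f + s w g ≠ ⊤ := by
  classical
  rw [s_comp] at h
  have hf : s w f ≠ ⊤ := fun h1 => h (by rw [h1, top_add])
  have hr : (∑' b, if b ∈ range g.1 then 0 else w (f.1 b)) ≠ ⊤ :=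
    fun h1 => h (by rw [h1, add_top])
  obtain ⟨M, hM⟩ := linear_bound hw f hf
  refine ENNReal.add_ne_top.2 ⟨hf, ?_⟩
  have h1 : s w g ≤ (∑' b, if b < M then 1 else 0) +
      4 * ∑' b, if b ∈ range g.1 then 0 else w (f.1 b) := by
    rw [s, ← ENNReal.tsum_mul_left, ← ENNReal.tsum_add]
    refine ENNReal.tsum_le_tsum fun b => ?_
    simp only [ind]
    by_cases hb : b ∈ range g.1
    · rw [if_pos hb]; exact zero_le
    · rw [if_neg hb, if_neg hb]
      by_cases hbM : b < M
      · rw [if_pos hbM]
        exact (hw.le_one b).trans le_self_add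
      · rw [if_neg hbM, zero_add]
        calc w b ≤ 2 * w (2 * b + 1) := hw.half b
          _ ≤ 2 * w (b + M) := by gcongr; exact hw.anti (by omega)
          _ ≤ 2 * (2 * w (2 * (b + M) + 1)) := by gcongr; exact hw.half _
          _ ≤ 2 * (2 * w (f.1 b)) := by
            gcongr
            exact hw.anti ((hM b).trans (by omega))
          _ = 4 * w (f.1 b) := by rw [← mul_assoc]; norm_num
  refine ne_top_of_le_ne_top ?_ h1
  refine ENNReal.add_ne_top.2 ⟨?_, ENNReal.mul_ne_top (by norm_num) hr⟩
  rw [tsum_eq_sum (s := Finset.range M)]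
  · exact ENNReal.sum_ne_top.2 fun b _ => by split_ifs <;> simp
  · intro b hb
    rw [if_neg]
    rwa [Finset.mem_range] at hb

/-- The monoid with the topology given by the weight `w`. -/
def EW (_w : ℕ → ℝ≥0∞) : Type := E

def toE (w : ℕ → ℝ≥0∞) (f : EW w) : E := f

noncomputable instance (w : ℕ → ℝ≥0∞) : TopologicalSpace (EW w) :=
  TopologicalSpace.induced (fun f : EW w => (toE w f, s w (toE w f))) inferInstance

lemma continuous_Ψ (w : ℕ → ℝ≥0∞) :
    Continuous (fun f : EW w => (toE w f, s w (toE w f))) := continuous_induced_dom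

lemma continuous_toE (w : ℕ → ℝ≥0∞) : Continuous (toE w) := (continuous_Ψ w).fst

lemma continuous_sw (w : ℕ → ℝ≥0∞) : Continuous (fun f : EW w => s w (toE w f)) :=
  (continuous_Ψ w).snd

instance (w : ℕ → ℝ≥0∞) : PolishSpace (EW w) := by
  have hinj : Function.Injective (fun f : EW w => (toE w f, s w (toE w f))) := by
    intro f g h
    exact (Prod.ext_iff.1 h).1
  let c : ℚ → ℝ≥0∞ := fun r => ((Real.toNNReal r : NNReal) : ℝ≥0∞)
  refine polish_of_gdelta (fun f : EW w => (toE w f, s w (toE w f)))
    ⟨⟨rfl⟩, hinj⟩ {y : E × ℝ≥0∞ | s w y.1 ≤ y.2} ?_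
    (fun i : ℚ × ℚ => {y : E × ℝ≥0∞ | c i.1 < c i.2 → (y.2 < c i.2 ∨ c i.1 < s w y.1)}) ?_ ?_
  · exact (lsc_s w).isClosed_epigraph
  · rintro ⟨i, j⟩
    by_cases h : c i < c j
    · have h1 : {y : E × ℝ≥0∞ | c i < c j → (y.2 < c j ∨ c i < s w y.1)} =
          {y : E × ℝ≥0∞ | y.2 < c j} ∪ {y | c i < s w y.1} := by
        ext y
        simp only [mem_ofPred_eq, mem_union, h, true_imp_iff]
      rw [h1]
      refine IsOpen.union ?_ ?_
      · exact isOpen_lt continuous_snd continuous_const
      · exact ((lsc_s w).isOpen_preimage (c i)).preimage continuous_fst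
    · have h1 : {y : E × ℝ≥0∞ | c i < c j → (y.2 < c j ∨ c i < s w y.1)} = univ := by
        ext y
        simp only [mem_ofPred_eq, mem_univ, iff_true]
        exact fun h2 => absurd h2 h
      rw [h1]
      exact isOpen_univ
  · ext ⟨f, t⟩
    constructor
    · rintro ⟨g, hg⟩
      obtain ⟨rfl, rfl⟩ := Prod.ext_iff.1 hg
      refine ⟨le_refl (s w (toE w g)), mem_iInter.2 fun i h => ?_⟩
      rcases lt_or_ge (s w (toE w g)) (c i.2) with h1 | h1
      · exact Or.inl h1
      · exact Or.inr (lt_of_lt_of_le h h1)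
    · rintro ⟨h1, h2⟩
      refine ⟨f, Prod.ext rfl ?_⟩
      apply le_antisymm h1
      by_contra h3
      rw [not_le] at h3
      obtain ⟨r, hr0, hr1, hr2⟩ := ENNReal.lt_iff_exists_rat_btwn.1 h3
      obtain ⟨r', hr0', hr1', hr2'⟩ := ENNReal.lt_iff_exists_rat_btwn.1 hr2
      have h4 := mem_iInter.1 h2 (r, r') hr1'
      rcases h4 with h4 | h4
      · exact absurd h4 (not_lt.2 hr2'.le)
      · exact absurd h4 (not_lt.2 hr1.le)

/-- composition -/
def mulW (w : ℕ → ℝ≥0∞) (f g : EW w) : EW w := comp (toE w f) (toE w g)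

lemma continuous_mul {w : ℕ → ℝ≥0∞} (hw : Wt w) :
    Continuous (fun p : EW w × EW w => mulW w p.1 p.2) := by
  refine continuous_induced_rng.2 ?_
  have hc1 : Continuous fun p : EW w × EW w => (toE w p.1, toE w p.2) :=
    ((continuous_toE w).comp continuous_fst).prodMk ((continuous_toE w).comp continuous_snd)
  have hc2 : Continuous fun p : EW w × EW w => comp (toE w p.1) (toE w p.2) :=
    continuous_comp.comp hc1
  suffices hc3 : Continuous fun p : EW w × EW w => s w (comp (toE w p.1) (toE w p.2)) from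
    hc2.prodMk hc3
  rw [continuous_iff_continuousAt]
  rintro ⟨f, g⟩
  have hA : LowerSemicontinuous fun p : EW w × EW w => s w (comp (toE w p.1) (toE w p.2)) :=
    (lsc_s w).comp hc2
  have hq : LowerSemicontinuous fun p : EW w × EW w => q w (toE w p.1, toE w p.2) :=
    (lsc_q w).comp hc1
  have hσ : Continuous fun p : EW w × EW w => s w (toE w p.1) + s w (toE w p.2) :=
    ((continuous_sw w).comp continuous_fst).add ((continuous_sw w).comp continuous_snd)
  by_cases hfin : s w (toE w f) + s w (toE w g) = ⊤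
  · have h1 : s w (comp (toE w f) (toE w g)) = ⊤ := by
      by_contra h
      exact prime hw _ _ h hfin
    change Tendsto _ _ (𝓝 (s w (comp (toE w f) (toE w g))))
    rw [h1]
    refine tendsto_order.2 ⟨fun c hc => ?_, fun c hc => absurd hc (not_lt.2 le_top)⟩
    exact hA (f, g) c (by change c < s w (comp (toE w f) (toE w g)); rw [h1]; exact hc)
  · refine tendsto_of_lsc (q := fun p => q w (toE w p.1, toE w p.2))
      (b := q w (toE w f, toE w g)) (fun c hc => hA (f, g) c hc) (fun c hc => hq (f, g) c hc) ?_ ?_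
    · have h1 : (fun p : EW w × EW w => s w (comp (toE w p.1) (toE w p.2)) +
          q w (toE w p.1, toE w p.2)) = fun p => s w (toE w p.1) + s w (toE w p.2) := by
        funext p
        exact sum_identity hw _ _
      change Tendsto (fun p : EW w × EW w => s w (comp (toE w p.1) (toE w p.2)) +
          q w (toE w p.1, toE w p.2)) _ _
      rw [h1]
      change Tendsto _ _ (𝓝 (s w (comp (toE w f) (toE w g)) + q w (toE w f, toE w g)))
      rw [sum_identity hw]
      exact hσ.tendsto (f, g)
    · change s w (comp (toE w f) (toE w g)) + q w (toE w f, toE w g) ≠ ⊤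
      rw [sum_identity hw]
      exact hfin

end X155.EndN
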