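import Pool.Agent.X155.EndN2

set_option autoImplicit false

namespace X155.EndN

open Set Filter Topology ENNReal

/-- A Polish topology on the set of strictly increasing maps for which composition is (jointly)
continuous. -/
def IsPolishSemigroupTopology (T : TopologicalSpace E) : Prop :=
  @PolishSpace E T ∧
    @Continuous (E × E) E (@instTopologicalSpaceProd E E T T) T (fun p => comp p.1 p.2)

/-- the topology given by the weight `w` -/
noncomputable def Tw (w : ℕ → ℝ≥0∞) : TopologicalSpace E :=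
  (inferInstance : TopologicalSpace (EW w))

lemma Tw_polish {w : ℕ → ℝ≥0∞} (hw : Wt w) : IsPolishSemigroupTopology (Tw w) :=
  ⟨(inferInstance : PolishSpace (EW w)), continuous_mul hw⟩

lemma Tw_open (w : ℕ → ℝ≥0∞) : IsOpen[Tw w] {f : E | s w f ≠ ⊤} := by
  have h : IsOpen {f : EW w | s w (toE w f) ≠ ⊤} :=
    (isOpen_ne (x := (⊤ : ℝ≥0∞))).preimage (continuous_sw w)
  exact h

open Classical in
lemma exists_next (C : ℕ → Set ℕ) (hC : ∀ n, (C n).Infinite) (m k : ℕ) :
    ∃ N, 2 * m + 2 ≤ N ∧ ∀ n ≤ k, k + 1 ≤ ((Finset.Ico m N).filter fun a => a ∈ C n).card := by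
  have h1 : ∀ n, ∃ N, k + 1 ≤ ((Finset.Ico m N).filter fun a => a ∈ C n).card := by
    intro n
    have h2 : (C n ∩ Ici m).Infinite := by
      have h3 : C n \ Finset.range m ⊆ C n ∩ Ici m := by
        rintro a ⟨h4, h5⟩
        exact ⟨h4, by simpa using h5⟩
      exact ((hC n).sdiff (Finset.finite_toSet _)).mono h3
    obtain ⟨t, ht, htc⟩ := h2.exists_subset_card_eq (k + 1)
    refine ⟨t.sup id + 1, ?_⟩
    rw [← htc]
    refine Finset.card_le_card fun a ha => ?_
    have h3 := ht ha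
    rw [Finset.mem_filter, Finset.mem_Ico]
    have h4 : id a ≤ t.sup id := Finset.le_sup ha
    exact ⟨⟨h3.2, Nat.lt_succ_of_le h4⟩, h3.1⟩
  choose N hN using h1
  refine ⟨(Finset.range (k + 1)).sup N + (2 * m + 2), by omega, fun n hn => (hN n).trans ?_⟩
  refine Finset.card_le_card (Finset.filter_subset_filter _ ?_)
  refine Finset.Ico_subset_Ico_right ?_
  have h4 : N n ≤ (Finset.range (k + 1)).sup N := Finset.le_sup (by simp; omega)
  omega

open Classical in
lemma exists_weight (C : ℕ → Set ℕ) (hC : ∀ n, (C n).Infinite) :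
    ∃ w : ℕ → ℝ≥0∞, Wt w ∧ (∀ n, ∑' a, (C n).indicator w a = ⊤) ∧
      ∃ D : Set ℕ, D.Infinite ∧ Dᶜ.Infinite ∧ ∑' a, D.indicator w a ≠ ⊤ := by
  choose nxt hnxt1 hnxt2 using exists_next C hC
  let N : ℕ → ℕ := fun k => Nat.rec 0 (fun k m => nxt m k) k
  have hN0 : N 0 = 0 := rfl
  have hNs : ∀ k, N (k + 1) = nxt (N k) k := fun k => rfl
  have hNd : ∀ k, 2 * N k + 2 ≤ N (k + 1) := fun k => by rw [hNs]; exact hnxt1 _ _
  have hNc : ∀ k n, n ≤ k →
      k + 1 ≤ ((Finset.Ico (N k) (N (k + 1))).filter fun a => a ∈ C n).card :=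
    fun k n h => by rw [hNs]; exact hnxt2 _ _ n h
  have hNm : StrictMono N := strictMono_nat_of_lt_succ fun k => by have := hNd k; omega
  clear_value N
  let κ : ℕ → ℕ := fun a => Nat.findGreatest (fun k => N k ≤ a) a
  have κ1 : ∀ a, N (κ a) ≤ a := fun a =>
    Nat.findGreatest_spec (P := fun k => N k ≤ a) (Nat.zero_le a) (by rw [hN0]; exact Nat.zero_le a)
  have κ4 : ∀ a k, N k ≤ a → k ≤ κ a := fun a k h =>
    Nat.le_findGreatest (hNm.le_apply.trans h) h
  have κ2 : ∀ a, a < N (κ a + 1) := by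
    intro a
    by_contra h
    have := κ4 a (κ a + 1) (not_lt.1 h)
    omega
  have κ3 : ∀ a, κ a ≤ a := fun a => Nat.findGreatest_le a
  clear_value κ
  have κm : ∀ a b, a ≤ b → κ a ≤ κ b := fun a b h => κ4 b _ ((κ1 a).trans h)
  have κh : ∀ a, κ (2 * a + 1) ≤ κ a + 1 := by
    intro a
    by_contra h
    have h1 : N (κ a + 1 + 1) ≤ N (κ (2 * a + 1)) := hNm.monotone (by omega)
    have h2 := κ1 (2 * a + 1)
    have h3 := hNd (κ a + 1)
    have h4 := κ2 a
    omega
  have hcast : ∀ k : ℕ, ((k + 1 : ℕ) : ℝ≥0∞) ≠ 0 := fun k => by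
    rw [Nat.cast_ne_zero]; omega
  have hcastt : ∀ k : ℕ, ((k + 1 : ℕ) : ℝ≥0∞) ≠ ⊤ := fun k => ENNReal.natCast_ne_top _
  let w : ℕ → ℝ≥0∞ := fun a => ((κ a + 1 : ℕ) : ℝ≥0∞)⁻¹
  have hw : ∀ a, w a = ((κ a + 1 : ℕ) : ℝ≥0∞)⁻¹ := fun a => rfl
  clear_value w
  have hWt : Wt w := by
    refine ⟨?_, ?_, ?_, ?_⟩
    · intro a b hab
      rw [hw, hw]
      exact ENNReal.inv_le_inv.2 (Nat.cast_le.2 (by have := κm a b hab; omega))
    · intro a
      rw [hw, hw]
      calc ((κ a + 1 : ℕ) : ℝ≥0∞)⁻¹ ≤ (((κ (2 * a + 1) + 1 : ℕ) : ℝ≥0∞) / 2)⁻¹ := by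
            refine ENNReal.inv_le_inv.2 (ENNReal.div_le_of_le_mul ?_)
            have := κh a
            have h2 : κ (2 * a + 1) + 1 ≤ (κ a + 1) * 2 := by omega
            calc ((κ (2 * a + 1) + 1 : ℕ) : ℝ≥0∞) ≤ (((κ a + 1) * 2 : ℕ) : ℝ≥0∞) :=
                  Nat.cast_le.2 h2
              _ = ((κ a + 1 : ℕ) : ℝ≥0∞) * 2 := by push_cast; ring
        _ = 2 / ((κ (2 * a + 1) + 1 : ℕ) : ℝ≥0∞) :=
            ENNReal.inv_div (Or.inl (by norm_num)) (Or.inl (by norm_num))
        _ = 2 * ((κ (2 * a + 1) + 1 : ℕ) : ℝ≥0∞)⁻¹ := ENNReal.div_eq_inv_mul.trans (mul_comm _ _)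
    · intro a
      rw [hw]
      calc (1 : ℝ≥0∞) = ((κ a + 1 : ℕ) : ℝ≥0∞) * ((κ a + 1 : ℕ) : ℝ≥0∞)⁻¹ :=
            (ENNReal.mul_inv_cancel (hcast _) (hcastt _)).symm
        _ ≤ (a + 1) * ((κ a + 1 : ℕ) : ℝ≥0∞)⁻¹ := by
            gcongr
            have := κ3 a
            calc ((κ a + 1 : ℕ) : ℝ≥0∞) ≤ ((a + 1 : ℕ) : ℝ≥0∞) := Nat.cast_le.2 (by omega)
              _ = a + 1 := by push_cast; rfl
    · intro a
      rw [hw]
      exact ENNReal.inv_le_one.2 (by
        calc (1 : ℝ≥0∞) = ((1 : ℕ) : ℝ≥0∞) := by simp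
          _ ≤ _ := Nat.cast_le.2 (by omega))
  refine ⟨w, hWt, ?_, ?_⟩
  · intro n
    simp only [Set.indicator_apply]
    have hblock : ∀ k, n ≤ k →
        (1 : ℝ≥0∞) ≤ ∑ a ∈ Finset.Ico (N k) (N (k + 1)), (if a ∈ C n then w a else 0) := by
      intro k hk
      rw [← Finset.sum_filter]
      have h1 : ∀ a ∈ (Finset.Ico (N k) (N (k + 1))).filter (fun a => a ∈ C n),
          ((k + 1 : ℕ) : ℝ≥0∞)⁻¹ ≤ w a := by
        intro a ha
        rw [Finset.mem_filter, Finset.mem_Ico] at ha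
        rw [hw]
        refine ENNReal.inv_le_inv.2 (Nat.cast_le.2 ?_)
        by_contra h
        have h2 : N (k + 1) ≤ N (κ a) := hNm.monotone (by omega)
        have h3 := κ1 a
        omega
      calc (1 : ℝ≥0∞) = ((k + 1 : ℕ) : ℝ≥0∞) * ((k + 1 : ℕ) : ℝ≥0∞)⁻¹ :=
            (ENNReal.mul_inv_cancel (hcast _) (hcastt _)).symm
        _ ≤ (((Finset.Ico (N k) (N (k + 1))).filter fun a => a ∈ C n).card : ℝ≥0∞) *
              ((k + 1 : ℕ) : ℝ≥0∞)⁻¹ := by
            gcongr
            exact hNc k n hk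
        _ = ∑ a ∈ (Finset.Ico (N k) (N (k + 1))).filter (fun a => a ∈ C n),
              ((k + 1 : ℕ) : ℝ≥0∞)⁻¹ := by rw [Finset.sum_const, nsmul_eq_mul]
        _ ≤ _ := Finset.sum_le_sum h1
    have hpart : ∀ m : ℕ, (m : ℝ≥0∞) ≤
        ∑ a ∈ Finset.Ico (N n) (N (n + m)), (if a ∈ C n then w a else 0) := by
      intro m
      induction m with
      | zero => simp
      | succ m ih =>
        rw [← Finset.sum_Ico_consecutive _ (hNm.monotone (Nat.le_add_right n m))
          (hNm.monotone (Nat.le_succ (n + m)) : N (n + m) ≤ N (n + (m + 1)))]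
        push_cast
        exact add_le_add ih (hblock (n + m) (by omega))
    by_contra h
    obtain ⟨m, hm⟩ := ENNReal.exists_nat_gt h
    have h1 := (hpart m).trans (ENNReal.sum_le_tsum _)
    exact absurd hm (not_lt.2 h1)
  · let d : ℕ → ℕ := fun i => 2 * N (2 ^ i)
    have hd : Function.Injective d := by
      intro i j h
      have h1 : N (2 ^ i) = N (2 ^ j) := by
        have : 2 * N (2 ^ i) = 2 * N (2 ^ j) := h
        omega
      exact Nat.pow_right_injective (le_refl 2) (hNm.injective h1)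
    refine ⟨range d, infinite_range_of_injective hd, ?_, ?_⟩
    · refine Set.infinite_of_injective_forall_mem (f := fun i : ℕ => 2 * i + 1) ?_ ?_
      · intro i j h
        simp only at h
        omega
      · rintro i ⟨j, hj⟩
        have : 2 * N (2 ^ j) = 2 * i + 1 := hj
        omega
    · simp only [Set.indicator_apply]
      have h0 := Function.Injective.tsum_eq hd (f := fun a => if a ∈ range d then w a else 0) (by
        intro a ha
        by_contra h
        apply ha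
        change (if a ∈ range d then w a else 0) = 0
        rw [if_neg h])
      rw [← h0]
      have h1 : ∀ i, (if d i ∈ range d then w (d i) else 0) ≤ (2⁻¹ : ℝ≥0∞) ^ i := by
        intro i
        rw [if_pos (mem_range_self i), hw, ← ENNReal.inv_pow]
        refine ENNReal.inv_le_inv.2 ?_
        have h2 : 2 ^ i ≤ κ (d i) := κ4 _ _ (by change N (2 ^ i) ≤ 2 * N (2 ^ i); omega)
        calc (2 : ℝ≥0∞) ^ i = ((2 ^ i : ℕ) : ℝ≥0∞) := by push_cast; rfl
          _ ≤ _ := Nat.cast_le.2 (by omega)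
      refine ne_top_of_le_ne_top ?_ (ENNReal.tsum_le_tsum h1)
      rw [ENNReal.tsum_geometric, ENNReal.one_sub_inv_two, inv_inv]
      norm_num

open Classical in
/-- No second countable topology contains all the Polish semigroup topologies. -/
theorem no_finest (T : TopologicalSpace E) (hT : @SecondCountableTopology E T) :
    ∃ T', IsPolishSemigroupTopology T' ∧ ¬ T ≤ T' := by
  by_contra hcon
  push Not at hcon
  let B : Set (Set E) := @TopologicalSpace.countableBasis E T hT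
  have hBc : B.Countable := @TopologicalSpace.countable_countableBasis E T hT
  have hBb : @TopologicalSpace.IsTopologicalBasis E T B :=
    @TopologicalSpace.isBasis_countableBasis E T hT
  obtain ⟨enum, henum⟩ := Set.countable_iff_exists_subset_range.1 hBc
  let h : Set E → Set ℕ := fun U =>
    if hU : ∃ g ∈ U, ((range g.1)ᶜ).Infinite then (range (hU.choose).1)ᶜ else univ
  have hh : ∀ U, (h U).Infinite := by
    intro U
    by_cases hU : ∃ g ∈ U, ((range g.1)ᶜ).Infinite
    · simp only [h, dif_pos hU]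
      exact hU.choose_spec.2
    · simp only [h, dif_neg hU]
      exact infinite_univ
  obtain ⟨w, hw, hdiv, D, hD1, hD2, hD3⟩ := exists_weight (fun n => h (enum n)) fun n => hh _
  have := hD2.to_subtype
  let f : E := ⟨Nat.orderEmbeddingOfSet Dᶜ, (Nat.orderEmbeddingOfSet Dᶜ).strictMono⟩
  have hf : range f.1 = Dᶜ := Nat.orderEmbeddingOfSet_range Dᶜ
  have hs : ∀ g : E, s w g = ∑' a, ((range g.1)ᶜ).indicator w a := by
    intro g
    rw [s]
    refine tsum_congr fun a => ?_
    simp only [ind]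
    by_cases h1 : a ∈ range g.1
    · rw [if_pos h1, Set.indicator_of_notMem (show a ∉ (range g.1)ᶜ from fun h2 => h2 h1)]
    · rw [if_neg h1, Set.indicator_of_mem h1]
  have hO : IsOpen[T] {g : E | s w g ≠ ⊤} := hcon _ (Tw_polish hw) _ (Tw_open w)
  have hfO : f ∈ {g : E | s w g ≠ ⊤} := by
    change s w f ≠ ⊤
    rw [hs, hf, compl_compl]
    exact hD3
  obtain ⟨U, hU, hfU, hUO⟩ :=
    @TopologicalSpace.IsTopologicalBasis.exists_subset_of_mem_open E T B hBb f _ hfO hO
  obtain ⟨n, rfl⟩ := henum hU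
  have hex : ∃ g ∈ enum n, ((range g.1)ᶜ).Infinite := ⟨f, hfU, by rw [hf, compl_compl]; exact hD1⟩
  have h1 : h (enum n) = (range (hex.choose).1)ᶜ := by
    simp only [h, dif_pos hex]
  have h2 : s w hex.choose = ⊤ := by
    rw [hs, ← h1]
    exact hdiv n
  exact hUO hex.choose_spec.1 h2

end X155.EndN
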