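import Mathlib

/-! Lamps on the cosets of a reflection in the infinite dihedral group. -/

namespace Pool.Agent.X155.Lamp

/-- sign of a position -/
def sg (p : ℤ) : ℤ := if p % 2 = 0 then 1 else -1

lemma sg_cases (p : ℤ) : (sg p = 1 ∧ p % 2 = 0) ∨ (sg p = -1 ∧ p % 2 = 1) := by
  unfold sg; split_ifs with h
  · left; exact ⟨rfl, h⟩
  · right; exact ⟨rfl, by omega⟩

lemma sg_even {p : ℤ} (h : p % 2 = 0) : sg p = 1 := by simp [sg, h]
lemma sg_odd {p : ℤ} (h : p % 2 = 1) : sg p = -1 := by simp [sg, h]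

/-- action of a position on the lamps -/
def e (p : ℤ) : ℤ ≃ ℤ where
  toFun x := p / 2 + sg p * x
  invFun x := sg p * (x - p / 2)
  left_inv x := by
    rcases sg_cases p with ⟨h, -⟩ | ⟨h, -⟩ <;> rw [h] <;> ring
  right_inv x := by
    rcases sg_cases p with ⟨h, -⟩ | ⟨h, -⟩ <;> rw [h] <;> ring

lemma e_apply (p x : ℤ) : e p x = p / 2 + sg p * x := rfl
lemma e_symm (p x : ℤ) : (e p).symm x = sg p * (x - p / 2) := rfl

/-- The group: lamp configurations and a position. -/
@[ext]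
structure G where
  /-- lamps -/
  f : ℤ →₀ ZMod 2
  /-- position -/
  p : ℤ

namespace G

noncomputable instance : Mul G := ⟨fun x y => ⟨x.f + y.f.equivMapDomain (e x.p), x.p + sg x.p * y.p⟩⟩
noncomputable instance : One G := ⟨⟨0, 0⟩⟩
noncomputable instance : Inv G := ⟨fun x => ⟨x.f.equivMapDomain (e x.p).symm, -(sg x.p * x.p)⟩⟩

lemma mul_f (x y : G) (i : ℤ) : (x * y).f i = x.f i + y.f (sg x.p * (i - x.p / 2)) := rfl
lemma mul_p (x y : G) : (x * y).p = x.p + sg x.p * y.p := rfl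
lemma one_f (i : ℤ) : (1 : G).f i = 0 := rfl
lemma one_p : (1 : G).p = 0 := rfl
lemma inv_f (x : G) (i : ℤ) : (x⁻¹).f i = x.f (x.p / 2 + sg x.p * i) := rfl
lemma inv_p (x : G) : (x⁻¹).p = -(sg x.p * x.p) := rfl

lemma ext' {x y : G} (h : ∀ i, x.f i = y.f i) (h' : x.p = y.p) : x = y :=
  G.ext (Finsupp.ext h) h'

noncomputable instance : Group G := Group.ofLeftAxioms
  (by
    intro x y z
    apply ext'
    · intro i
      simp only [mul_f, mul_p, add_assoc]
      congr 3
      rcases sg_cases x.p with ⟨h, h1⟩ | ⟨h, h1⟩ <;> rcases sg_cases y.p with ⟨h', h1'⟩ | ⟨h', h1'⟩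
      · have h2 : sg (x.p + sg x.p * y.p) = 1 := sg_even (by rw [h]; omega)
        rw [h2, h, h']; omega
      · have h2 : sg (x.p + sg x.p * y.p) = -1 := sg_odd (by rw [h]; omega)
        rw [h2, h, h']; omega
      · have h2 : sg (x.p + sg x.p * y.p) = -1 := sg_odd (by rw [h]; omega)
        rw [h2, h, h']; omega
      · have h2 : sg (x.p + sg x.p * y.p) = 1 := sg_even (by rw [h]; omega)
        rw [h2, h, h']; omega
    · simp only [mul_p]
      rcases sg_cases x.p with ⟨h, h1⟩ | ⟨h, h1⟩ <;> rcases sg_cases y.p with ⟨h', h1'⟩ | ⟨h', h1'⟩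
      · have h2 : sg (x.p + sg x.p * y.p) = 1 := sg_even (by rw [h]; omega)
        rw [h2, h, h']; ring
      · have h2 : sg (x.p + sg x.p * y.p) = -1 := sg_odd (by rw [h]; omega)
        rw [h2, h, h']; ring
      · have h2 : sg (x.p + sg x.p * y.p) = -1 := sg_odd (by rw [h]; omega)
        rw [h2, h, h']; ring
      · have h2 : sg (x.p + sg x.p * y.p) = 1 := sg_even (by rw [h]; omega)
        rw [h2, h, h']; ring)
  (by
    intro x
    apply ext'
    · intro i; simp [mul_f, one_f, one_p, sg]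
    · simp [mul_p, one_p, sg])
  (by
    intro x
    apply ext'
    · intro i
      simp only [mul_f, inv_f, inv_p, one_f]
      rcases sg_cases x.p with ⟨h, h1⟩ | ⟨h, h1⟩
      · have h2 : sg (-(sg x.p * x.p)) = 1 := sg_even (by rw [h]; omega)
        rw [h2, h]
        have : 1 * (i - -(1 * x.p) / 2) = x.p / 2 + 1 * i := by omega
        rw [this]
        exact CharTwo.add_self_eq_zero _
      · have h2 : sg (-(sg x.p * x.p)) = -1 := sg_odd (by rw [h]; omega)
        rw [h2, h]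
        have : -1 * (i - -(-1 * x.p) / 2) = x.p / 2 + -1 * i := by omega
        rw [this]
        exact CharTwo.add_self_eq_zero _
    · simp only [mul_p, inv_p, one_p]
      rcases sg_cases x.p with ⟨h, h1⟩ | ⟨h, h1⟩
      · have h2 : sg (-(sg x.p * x.p)) = 1 := sg_even (by rw [h]; omega)
        rw [h2, h]; ring
      · have h2 : sg (-(sg x.p * x.p)) = -1 := sg_odd (by rw [h]; omega)
        rw [h2, h]; ring)

/-- toggle the lamp at the current place -/
noncomputable def a : G := ⟨Finsupp.single 0 1, 0⟩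
/-- step `0 → 1` -/
noncomputable def s : G := ⟨0, 1⟩
/-- step `0 → -1` -/
noncomputable def t : G := ⟨0, -1⟩

/-- The generating set. -/
def S : Set G := {a, s, a * s, t, a * t, t * a, a * t * a}

lemma S_finite : S.Finite := by
  unfold S; exact Set.toFinite _

lemma zmod2 (x : ZMod 2) : x = 0 ∨ x = 1 := by
  revert x; decide

lemma single_iff (i j : ℤ) : (Finsupp.single i (1 : ZMod 2)) j = if i = j then 1 else 0 :=
  Finsupp.single_apply

lemma S_spec {x : G} (hx : x ∈ S) : (x.p = 0 ∨ x.p = 1 ∨ x.p = -1) ∧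
    ∀ i, i ≠ 0 → i ≠ x.p / 2 → x.f i = 0 := by
  rcases hx with rfl | rfl | rfl | rfl | rfl | rfl | rfl
  · refine ⟨Or.inl rfl, fun i h _ => ?_⟩
    simp [a, single_iff, Ne.symm h]
  · exact ⟨Or.inr (Or.inl rfl), fun i _ _ => rfl⟩
  · refine ⟨Or.inr (Or.inl ?_), fun i h _ => ?_⟩
    · simp [mul_p, a, s, sg]
    · simp [mul_f, a, s, single_iff, Ne.symm h]
  · exact ⟨Or.inr (Or.inr rfl), fun i _ _ => rfl⟩
  · refine ⟨Or.inr (Or.inr ?_), fun i h _ => ?_⟩
    · simp [mul_p, a, t, sg]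
    · simp [mul_f, a, t, single_iff, Ne.symm h]
  · refine ⟨Or.inr (Or.inr ?_), fun i h h' => ?_⟩
    · simp [mul_p, a, t, sg]
    · have h1 : (t * a).p = -1 := by simp [mul_p, a, t, sg]
      rw [h1] at h'
      have h2 : ¬ ((0 : ℤ) = -1 + -i) := by omega
      simp [mul_f, a, t, single_iff, sg, h2]
  · refine ⟨Or.inr (Or.inr ?_), fun i h h' => ?_⟩
    · simp [mul_p, a, t, sg]
    · have h1 : (a * t * a).p = -1 := by simp [mul_p, a, t, sg]
      rw [h1] at h'
      have h2 : ¬ ((0 : ℤ) = -1 + -i) := by omega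
      simp [mul_f, mul_p, a, t, single_iff, sg, h2, Ne.symm h]

end G

end Pool.Agent.X155.Lamp
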