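import Pool.Agent.X155.LampMain

/-! One-endedness and the barrier. -/

namespace Pool.Agent.X155.Lamp

namespace G

lemma conn_up {U : Set G} (f : ℤ →₀ ZMod 2) (p : ℤ) (m : ℕ)
    (h : ∀ q, p ≤ q → q ≤ p + m → (⟨f, q⟩ : G) ∈ U) :
    Conn S U ⟨f, p⟩ ⟨f, p + m⟩ := by
  induction m with
  | zero => simpa using Conn.refl (h p le_rfl (by simp))
  | succ m ih =>
    refine (ih fun q hq hq' => h q hq (by push_cast; omega)).trans ?_
    have h1 := adj_succ f (p + m)
    have h2 : p + ((m + 1 : ℕ) : ℤ) = p + m + 1 := by push_cast; ring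
    rw [h2]
    exact Conn.step (h _ (by omega) (by push_cast; omega)) (h _ (by omega) (by push_cast; omega)) h1

lemma conn_walk {U : Set G} (f : ℤ →₀ ZMod 2) (p p' : ℤ) (L : ℤ)
    (h : ∀ q, L ≤ q → (⟨f, q⟩ : G) ∈ U) (hp : L ≤ p) (hp' : L ≤ p') :
    Conn S U ⟨f, p⟩ ⟨f, p'⟩ := by
  rcases le_total p p' with hpp | hpp
  · have := conn_up (U := U) f p (p' - p).toNat (fun q hq _ => h q (by omega))
    rwa [Int.toNat_of_nonneg (by omega), add_sub_cancel] at this
  · have := conn_up (U := U) f p' (p - p').toNat (fun q hq _ => h q (by omega))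
    rw [Int.toNat_of_nonneg (by omega), add_sub_cancel] at this
    exact this.symm

/-- the box -/
def Box (M : ℤ) : Set G := {g | (-M ≤ g.p / 2 ∧ g.p / 2 ≤ M) ∧ ∀ i, g.f i ≠ 0 → -M ≤ i ∧ i ≤ M}

lemma Box_finite (M : ℤ) : (Box M).Finite := by
  classical
  have hinj : Function.Injective (fun g : G => (g.p, g.f.support)) := by
    intro g h hgh
    apply ext'
    · intro i
      have h1 : g.f.support = h.f.support := congrArg Prod.snd hgh
      by_cases hi : g.f i = 0
      · have : i ∉ h.f.support := by rw [← h1]; simpa using hi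
        rw [hi]; simpa using (Finsupp.notMem_support_iff.1 this).symm
      · have : i ∈ h.f.support := by rw [← h1]; simpa using hi
        have h2 := Finsupp.mem_support_iff.1 this
        rcases zmod2 (g.f i) with h3 | h3
        · exact absurd h3 hi
        · rcases zmod2 (h.f i) with h4 | h4
          · exact absurd h4 h2
          · rw [h3, h4]
    · exact congrArg Prod.fst hgh
  refine Set.Finite.of_finite_image ?_ hinj.injOn
  refine (((Finset.Icc (-2 * M) (2 * M + 1)) ×ˢ (Finset.Icc (-M) M).powerset :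
    Finset (ℤ × Finset ℤ)).finite_toSet).subset ?_
  rintro _ ⟨g, hg, rfl⟩
  obtain ⟨⟨h1, h2⟩, h3⟩ := hg
  simp only [Finset.coe_product, Set.mem_prod, Finset.mem_coe, Finset.mem_Icc,
    Finset.mem_powerset]
  refine ⟨by omega, fun i hi => ?_⟩
  rw [Finset.mem_Icc]
  exact h3 i (Finsupp.mem_support_iff.1 hi)

lemma mem_Box (g : G) : ∃ M : ℕ, g ∈ Box M := by
  classical
  refine ⟨(g.p.natAbs + g.f.support.sup Int.natAbs), ?_, ?_⟩
  · rw [Nat.cast_add]; omega
  · intro i hi
    have : i.natAbs ≤ g.f.support.sup Int.natAbs :=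
      Finset.le_sup (f := Int.natAbs) (Finsupp.mem_support_iff.2 hi)
    rw [Nat.cast_add]; omega

lemma Box_mono {M M' : ℤ} (h : M ≤ M') : Box M ⊆ Box M' := by
  rintro g ⟨⟨h1, h2⟩, h3⟩
  exact ⟨⟨by omega, by omega⟩, fun i hi => ⟨by have := h3 i hi; omega, by have := h3 i hi; omega⟩⟩

lemma finite_subset_Box {F : Set G} (hF : F.Finite) : ∃ M : ℕ, F ⊆ Box M := by
  induction F, hF using Set.Finite.induction_on with
  | empty => exact ⟨0, Set.empty_subset _⟩
  | insert _ _ ih =>
    rename_i g F' _ _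
    obtain ⟨M, hM⟩ := ih
    obtain ⟨M', hM'⟩ := mem_Box g
    refine ⟨max M M', ?_⟩
    rintro x (rfl | hx)
    · exact Box_mono (by push_cast; exact le_max_right _ _) hM'
    · exact Box_mono (by push_cast; exact le_max_left _ _) (hM hx)

/-- a lit lamp outside allows to walk and clear the others -/
lemma clear {M : ℤ} {j : ℤ} (hj : ¬ (-M ≤ j ∧ j ≤ M)) (m : ℕ) :
    ∀ (f : ℤ →₀ ZMod 2), f j ≠ 0 → f.support.card ≤ m → ∀ p p' : ℤ,
      Conn S (Box M)ᶜ ⟨f, p⟩ ⟨Finsupp.single j 1, p'⟩ := by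
  classical
  have hU : ∀ (f : ℤ →₀ ZMod 2), f j ≠ 0 → ∀ q, (⟨f, q⟩ : G) ∈ (Box M)ᶜ :=
    fun f hf q hq => hj (hq.2 j hf)
  induction m with
  | zero =>
    intro f hf hc
    have : f.support = ∅ := Finset.card_eq_zero.1 (by omega)
    exact absurd (by rw [Finsupp.support_eq_empty.1 this]; rfl) hf
  | succ m ih =>
    intro f hf hc p p'
    by_cases h : ∃ i, i ≠ j ∧ f i ≠ 0
    · obtain ⟨i, hij, hi⟩ := h
      have h1 := conn_walk (U := (Box M)ᶜ) f p (2 * i) (min p (2 * i)) (fun q _ => hU f hf q)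
        (min_le_left _ _) (min_le_right _ _)
      have hi1 : f i = 1 := (zmod2 (f i)).resolve_left hi
      have hg : (f + Finsupp.single i 1 : ℤ →₀ ZMod 2) j ≠ 0 := by
        rw [Finsupp.add_apply, single_iff, if_neg hij, add_zero]; exact hf
      have h2 := Conn.step (hU f hf (2 * i)) (hU _ hg (2 * i)) (adj_toggle f (2 * i) i (by omega))
      refine h1.trans (h2.trans (ih _ hg ?_ _ _))
      have hsub : (f + Finsupp.single i 1 : ℤ →₀ ZMod 2).support ⊆ f.support.erase i := by
        intro k hk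
        rw [Finsupp.mem_support_iff, Finsupp.add_apply, single_iff] at hk
        rw [Finset.mem_erase, Finsupp.mem_support_iff]
        by_cases hki : i = k
        · subst hki
          rw [if_pos rfl, hi1] at hk
          exact absurd (by decide) hk
        · rw [if_neg hki, add_zero] at hk
          exact ⟨fun h => hki h.symm, hk⟩
      have hcard := Finset.card_le_card hsub
      rw [Finset.card_erase_of_mem (Finsupp.mem_support_iff.2 hi)] at hcard
      have : 0 < f.support.card := Finset.card_pos.2 ⟨i, Finsupp.mem_support_iff.2 hi⟩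
      omega
    · push Not at h
      have hfs : f = Finsupp.single j 1 := by
        ext k
        rw [single_iff]
        by_cases hk : j = k
        · subst hk; rw [if_pos rfl]; exact (zmod2 _).resolve_left hf
        · rw [if_neg hk]; exact h k (fun h' => hk h'.symm)
      subst hfs
      exact conn_walk _ p p' (min p p') (fun q _ => hU _ hf q) (min_le_left _ _) (min_le_right _ _)

/-- everything outside the box is connected to a base point -/
lemma conn_base {M : ℤ} (hM : 0 ≤ M) {g : G} (hg : g ∉ Box M) :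
    Conn S (Box M)ᶜ g ⟨0, 2 * (M + 1)⟩ := by
  have hM1 : ¬ (-M ≤ M + 1 ∧ M + 1 ≤ M) := by omega
  -- from a lamp lit at `M + 1`
  have h1 : ∀ p, Conn S (Box M)ᶜ ⟨Finsupp.single (M + 1) 1, p⟩ (⟨0, 2 * (M + 1)⟩ : G) := by
    intro p
    refine (clear hM1 1 (Finsupp.single (M + 1) 1) (by simp) ?_ p (2 * (M + 1))).trans ?_
    · exact (Finset.card_le_card Finsupp.support_single_subset).trans (by simp)
    · refine Conn.step ?_ ?_ ?_
      · intro hq; exact hM1 (hq.2 (M + 1) (by simp))
      · intro hq; have := hq.1.2; simp at this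
      · have := (adj_toggle 0 (2 * (M + 1)) (M + 1) (by omega))
        rw [zero_add] at this
        exact this.symm
  -- from any lamp lit outside
  have h2 : ∀ (f : ℤ →₀ ZMod 2) (p j : ℤ), f j ≠ 0 → ¬ (-M ≤ j ∧ j ≤ M) →
      Conn S (Box M)ᶜ ⟨f, p⟩ (⟨0, 2 * (M + 1)⟩ : G) := by
    intro f p j hf hj
    by_cases hjM : j = M + 1
    · subst hjM
      exact (clear hj _ f hf le_rfl p (2 * (M + 1))).trans (h1 _)
    · have h3 := clear hj _ f hf le_rfl p (2 * (M + 1))
      have h4 := adj_toggle (Finsupp.single j 1) (2 * (M + 1)) (M + 1) (by omega)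
      have h5 : (Finsupp.single j 1 + Finsupp.single (M + 1) 1 : ℤ →₀ ZMod 2) (M + 1) ≠ 0 := by
        rw [Finsupp.add_apply, single_iff, single_iff, if_neg hjM, if_pos rfl]; decide
      refine h3.trans ((Conn.step ?_ ?_ h4).trans ((clear hM1 _ _ h5 le_rfl _ 0).trans (h1 _)))
      · intro hq; exact hj (hq.2 j (by simp))
      · intro hq; exact hM1 (hq.2 (M + 1) h5)
  obtain ⟨f, p⟩ := g
  by_cases hcase : ∃ j, f j ≠ 0 ∧ ¬ (-M ≤ j ∧ j ≤ M)
  · obtain ⟨j, hj, hj'⟩ := hcase
    exact h2 f p j hj hj'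
  · push Not at hcase
    have hp : ¬ (-M ≤ p / 2 ∧ p / 2 ≤ M) := by
      intro h
      exact hg ⟨h, fun i hi => hcase i hi⟩
    have h6 := adj_toggle f p (p / 2) rfl
    have h0 : f (p / 2) = 0 := by
      by_contra h
      exact hp (hcase _ h)
    have h5 : (f + Finsupp.single (p / 2) 1 : ℤ →₀ ZMod 2) (p / 2) ≠ 0 := by
      rw [Finsupp.add_apply, single_iff, if_pos rfl, h0]; decide
    refine (Conn.step hg ?_ h6).trans (h2 _ p (p / 2) h5 hp)
    intro hq
    exact hp (hq.2 _ h5)

instance : Infinite G :=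
  Infinite.of_injective (fun p : ℤ => (⟨0, p⟩ : G)) (fun p q h => congrArg G.p h)

theorem oneEnded : OneEnded S := by
  refine ⟨inferInstance, fun F hF => ?_⟩
  obtain ⟨M, hM⟩ := finite_subset_Box hF
  have hsub : (Box M)ᶜ ⊆ Fᶜ := Set.compl_subset_compl.2 hM
  set z : G := ⟨0, 2 * ((M : ℤ) + 1)⟩ with hz
  have hzB : z ∉ Box M := by
    intro hq; have := hq.1.2; simp [hz] at this
  have hbase : ∀ g, g ∉ Box M → Conn S Fᶜ g z := fun g hg =>
    (conn_base (by positivity) hg).mono hsub
  have hinf : (Box (M : ℤ))ᶜ.Infinite := (Box_finite M).infinite_compl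
  refine ⟨((cay S).induce Fᶜ).connectedComponentMk ⟨z, hsub hzB⟩, ?_, ?_⟩
  · -- infinite
    have h1 : (Subtype.val '' (((cay S).induce Fᶜ).connectedComponentMk ⟨z, hsub hzB⟩).supp).Infinite := by
      refine hinf.mono ?_
      intro g hg
      obtain ⟨h2, h3, h4⟩ := hbase g hg
      refine ⟨⟨g, h2⟩, ?_, rfl⟩
      rw [SimpleGraph.ConnectedComponent.mem_supp_iff, SimpleGraph.ConnectedComponent.eq]
      exact h4
    exact Set.Infinite.of_image _ h1
  · intro C hC
    have h1 : (Subtype.val '' C.supp).Infinite := hC.image Subtype.val_injective.injOn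
    obtain ⟨g, hgC, hgB⟩ := h1.exists_notMem_finite (Box_finite M)
    obtain ⟨g', hg', rfl⟩ := hgC
    obtain ⟨h2, h3, h4⟩ := hbase g' hgB
    rw [SimpleGraph.ConnectedComponent.mem_supp_iff] at hg'
    rw [← hg', SimpleGraph.ConnectedComponent.eq]
    exact h4

/-! ### distances -/

lemma dist_ge_abs (g : G) : |g.p| ≤ ((cay S).dist 1 g : ℤ) := by
  refine lip_dist closure_S (fun g => |g.p|) (by simp [one_p]) ?_ g
  intro g h hgh
  obtain ⟨h1, -⟩ := adj_spec hgh
  change |h.p| ≤ |g.p| + 1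
  rcases h1 with h1 | h1 | h1 <;> rw [h1]
  · omega
  · exact (abs_add_le _ _).trans (by simp)
  · exact (abs_sub _ _).trans (by simp)

open Classical in
/-- potential -/
noncomputable def Phi (i : ℤ) (g : G) : ℤ := if g.f i ≠ 0 then 2 * i + |g.p - 2 * i| else |g.p|

lemma dist_ge_lamp {i : ℤ} (hi : 1 ≤ i) {g : G} (hg : g.f i ≠ 0) :
    2 * i + |g.p - 2 * i| ≤ ((cay S).dist 1 g : ℤ) := by
  have := lip_dist closure_S (Phi i) (by simp [Phi, one_p, one_f]) ?_ g
  · simpa [Phi, hg] using this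
  · intro g h hgh
    obtain ⟨h1, h2⟩ := adj_spec hgh
    unfold Phi
    by_cases hsame : i ≠ g.p / 2 ∧ i ≠ h.p / 2
    · have h3 := h2 i hsame.1 hsame.2
      rw [h3]
      split_ifs
      · rcases h1 with h1 | h1 | h1 <;> rw [h1]
        · omega
        · rw [show g.p + 1 - 2 * i = (g.p - 2 * i) + 1 by ring]
          have := abs_add_le (g.p - 2 * i) 1
          simp at this; omega
        · rw [show g.p - 1 - 2 * i = (g.p - 2 * i) - 1 by ring]
          have := abs_sub (g.p - 2 * i) 1
          simp at this; omega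
      · rcases h1 with h1 | h1 | h1 <;> rw [h1]
        · omega
        · exact (abs_add_le _ _).trans (by simp)
        · exact (abs_sub _ _).trans (by simp)
    · have h4 : i = g.p / 2 ∨ i = h.p / 2 := by tauto
      have hgp : 2 * i - 1 ≤ g.p := by omega
      have hhp : 2 * i - 1 ≤ h.p := by omega
      have a1 : |g.p| = g.p := abs_of_nonneg (by omega)
      have a2 : |h.p| = h.p := abs_of_nonneg (by omega)
      have b1 : |g.p - 2 * i| = g.p - 2 * i ∨ (g.p = 2 * i - 1 ∧ |g.p - 2 * i| = 1) := by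
        by_cases h5 : 2 * i ≤ g.p
        · left; exact abs_of_nonneg (by omega)
        · right
          have : g.p = 2 * i - 1 := by omega
          refine ⟨this, ?_⟩
          rw [this]; simp
      have b2 : |h.p - 2 * i| = h.p - 2 * i ∨ (h.p = 2 * i - 1 ∧ |h.p - 2 * i| = 1) := by
        by_cases h5 : 2 * i ≤ h.p
        · left; exact abs_of_nonneg (by omega)
        · right
          have : h.p = 2 * i - 1 := by omega
          refine ⟨this, ?_⟩
          rw [this]; simp
      rw [a1, a2]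
      split_ifs <;> omega

/-- explicit upper bound -/
lemma dist_le (m : ℕ) : ∀ (f : ℤ →₀ ZMod 2), (∀ i, f i ≠ 0 → 0 ≤ i ∧ i ≤ ((m + 1 : ℕ) : ℤ) / 2) →
    (cay S).dist 1 (⟨f, ((m + 1 : ℕ) : ℤ)⟩ : G) ≤ m + 1 := by
  have hconn : (cay S).Connected := by
    refine ⟨fun g h => ?_⟩
    have h1 : (cay S).Reachable 1 g := reach_of_closure (by rw [closure_S]; trivial)
    have h2 : (cay S).Reachable 1 h := reach_of_closure (by rw [closure_S]; trivial)
    exact h1.symm.trans h2
  have hstep : ∀ {g h : G} {k : ℕ}, (cay S).Adj g h → (cay S).dist 1 g ≤ k →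
      (cay S).dist 1 h ≤ k + 1 := by
    intro g h k hgh hk
    have := hconn.dist_triangle (u := 1) (v := g) (w := h)
    rw [SimpleGraph.dist_eq_one_iff_adj.2 hgh] at this
    omega
  induction m with
  | zero =>
    intro f hf
    have hf0 : ∀ i, i ≠ 0 → f i = 0 := by
      intro i hi
      by_contra h
      have := hf i h
      simp at this
      omega
    have key : (cay S).Adj (1 : G) ⟨f, ((0 + 1 : ℕ) : ℤ)⟩ := by
      refine ⟨fun h => by have := congrArg G.p h; simp [one_p] at this, Or.inl ?_⟩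
      rw [inv_one, one_mul]
      rcases zmod2 (f 0) with h0 | h0
      · have : (⟨f, ((0 + 1 : ℕ) : ℤ)⟩ : G) = s := by
          apply ext'
          · intro i
            by_cases hi : i = 0
            · subst hi; rw [h0]; rfl
            · rw [hf0 i hi]; rfl
          · simp [s]
        rw [this]; simp [S]
      · have : (⟨f, ((0 + 1 : ℕ) : ℤ)⟩ : G) = a * s := by
          apply ext'
          · intro i
            rw [mul_f]
            by_cases hi : i = 0
            · subst hi; rw [h0]; simp [a, s]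
            · rw [hf0 i hi]; simp [a, s, Ne.symm hi]
          · simp [mul_p, a, s, sg]
        rw [this]; simp [S]
    have := hstep (k := 0) key (by simp)
    simpa using this
  | succ m ih =>
    intro f hf
    by_cases hpar : ((m + 1 : ℕ) : ℤ) % 2 = 1
    · -- odd to even: new lamp
      set j : ℤ := (((m + 1 : ℕ) : ℤ) + 1) / 2 with hj
      have hj2 : (((m + 1 + 1 : ℕ)) : ℤ) / 2 = j := by rw [hj]; push_cast; ring_nf
      have hpos : (((m + 1 + 1 : ℕ)) : ℤ) = ((m + 1 : ℕ) : ℤ) + 1 := by push_cast; ring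
      rcases zmod2 (f j) with h0 | h0
      · have h1 := adj_succ f ((m + 1 : ℕ) : ℤ)
        rw [← hpos] at h1
        refine hstep h1 (ih f fun i hi => ?_)
        have h2 := hf i hi
        have h3 : i ≠ j := fun h => hi (by rw [h, h0])
        omega
      · have h1 := adj_succ_toggle (f + Finsupp.single j 1) ((m + 1 : ℕ) : ℤ) j hpar hj
        have h4 : f + Finsupp.single j 1 + Finsupp.single j 1 = f := by
          ext i
          rw [Finsupp.add_apply, Finsupp.add_apply, add_assoc, CharTwo.add_self_eq_zero, add_zero]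
        rw [h4, ← hpos] at h1
        refine hstep h1 (ih _ fun i hi => ?_)
        rw [Finsupp.add_apply, single_iff] at hi
        by_cases h3 : j = i
        · subst h3
          rw [if_pos rfl, h0] at hi
          exact absurd (by decide) hi
        · rw [if_neg h3, add_zero] at hi
          have h2 := hf i hi
          omega
    · have hpos : (((m + 1 + 1 : ℕ)) : ℤ) = ((m + 1 : ℕ) : ℤ) + 1 := by push_cast; ring
      have h1 := adj_succ f ((m + 1 : ℕ) : ℤ)
      rw [← hpos] at h1
      refine hstep h1 (ih f fun i hi => ?_)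
      have h2 := hf i hi
      omega

/-- the region around the right point -/
def Reg (k : ℕ) : Set G := {g | 0 ≤ g.p ∧ (∀ i, g.f i ≠ 0 → 0 ≤ i) ∧
  (2 * (k : ℤ) + 1 ≤ g.p ∨ ∃ i, (k : ℤ) + 1 ≤ i ∧ g.f i ≠ 0)}

lemma reg_step {k : ℕ} (hk : 1 ≤ k) {g h : G} (hg : g ∈ Reg k) (hgh : (cay S).Adj g h)
    (h1 : 2 * k + 1 ≤ (cay S).dist 1 h) (h2 : (cay S).dist 1 h ≤ 4 * k + 4) : h ∈ Reg k := by
  obtain ⟨g1, g2, g3⟩ := hg
  obtain ⟨a1, a2⟩ := adj_spec hgh
  -- the walker stays on the right
  have hp : 0 ≤ h.p := by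
    by_contra hneg
    push Not at hneg
    have hh : h.p = -1 := by omega
    have hgp : g.p = 0 := by omega
    obtain ⟨i, hi, hi'⟩ : ∃ i, (k : ℤ) + 1 ≤ i ∧ g.f i ≠ 0 := by
      rcases g3 with g3 | g3
      · omega
      · exact g3
    have hi2 : h.f i ≠ 0 := by
      rw [a2 i (by omega) (by omega)]; exact hi'
    have := dist_ge_lamp (by omega) hi2
    rw [hh, abs_of_nonpos (by omega)] at this
    have h2' : ((cay S).dist 1 h : ℤ) ≤ 4 * k + 4 := by exact_mod_cast h2
    omega
  have hlamps : ∀ i, h.f i ≠ 0 → 0 ≤ i := by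
    intro i hi
    by_contra hneg
    push Not at hneg
    rw [a2 i (by omega) (by omega)] at hi
    have := g2 i hi
    omega
  refine ⟨hp, hlamps, ?_⟩
  by_contra hcon
  push Not at hcon
  obtain ⟨c1, c2⟩ := hcon
  rcases g3 with g3 | ⟨i, hi, hi'⟩
  · -- walker steps back to `2k`
    have hh : h.p = 2 * k := by omega
    have hle : (cay S).dist 1 h ≤ (2 * k - 1) + 1 := by
      have hform : h = ⟨h.f, (((2 * k - 1) + 1 : ℕ) : ℤ)⟩ := by
        apply ext'
        · intro i; rfl
        · simp only; rw [hh]; push_cast; omega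
      rw [hform]
      refine dist_le (2 * k - 1) h.f fun i hi => ⟨hlamps i hi, ?_⟩
      by_contra hbig
      push Not at hbig
      exact hi (c2 i (by omega))
    omega
  · have hi2 := c2 i hi
    by_cases hsame : i ≠ g.p / 2 ∧ i ≠ h.p / 2
    · rw [a2 i hsame.1 hsame.2] at hi2
      exact hi' hi2
    · omega

theorem not_conn {k : ℕ} (hk : 1 ≤ k) {r : ℕ} (hr : r ≤ 2 * k + 3) :
    ¬ ((cay S).induce (annulus S (2 * k + 1) r)).Connected := by
  intro hconn
  set n : ℕ := 2 * k + 1 with hn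
  -- points going to infinity
  have hballc : ∀ g : G, (n : ℤ) ≤ |g.p| → g ∈ (ball S ((n : ℤ) - 1))ᶜ := by
    intro g hg hb
    have h1 := dist_ge_abs g
    have h2 : ((cay S).dist 1 g : ℤ) ≤ (n : ℤ) - 1 := hb
    omega
  have hconn_up : ∀ m : ℕ, Conn S (ball S ((n : ℤ) - 1))ᶜ (⟨0, n⟩ : G) ⟨0, (n : ℤ) + m⟩ := by
    intro m
    refine conn_up _ _ _ fun q hq _ => hballc _ ?_
    exact hq.trans (le_abs_self _)
  have hconn_dn : ∀ m : ℕ, Conn S (ball S ((n : ℤ) - 1))ᶜ (⟨0, -(n : ℤ)⟩ : G)
      ⟨0, -(n : ℤ) - m⟩ := by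
    intro m
    have := conn_up (U := (ball S ((n : ℤ) - 1))ᶜ) 0 (-(n : ℤ) - m) m (fun q _ hq => hballc _ ?_)
    · rw [sub_add_cancel] at this
      exact this.symm
    · simp only
      rw [abs_of_nonpos (by omega)]
      omega
  have hdist : ∀ m : ℕ, (cay S).dist 1 (⟨0, ((m + 1 : ℕ) : ℤ)⟩ : G) ≤ m + 1 := fun m =>
    dist_le m 0 (by simp)
  have hx : (⟨0, n⟩ : G) ∈ annulus S n r := by
    refine ⟨?_, hballc _ (le_abs_self _), ?_⟩
    · have h1 := hdist (2 * k)
      rw [← hn] at h1
      change ((cay S).dist 1 (⟨0, n⟩ : G) : ℤ) ≤ (n : ℤ) + r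
      have h2 : ((cay S).dist 1 (⟨0, (n : ℤ)⟩ : G) : ℤ) ≤ n := by exact_mod_cast h1
      omega
    · refine Set.infinite_of_injective_forall_mem
        (f := fun m : ℕ => (⟨⟨0, (n : ℤ) + m⟩, (hconn_up m).2.1⟩ : ↑(ball S ((n : ℤ) - 1))ᶜ)) ?_ ?_
      · intro m m' h
        have h1 := congrArg (fun x : ↑(ball S ((n : ℤ) - 1))ᶜ => (x : G).p) h
        simpa using h1
      · intro m
        rw [SimpleGraph.ConnectedComponent.mem_supp_iff, SimpleGraph.ConnectedComponent.eq]
        exact (hconn_up m).2.2.symm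
  have hneg : ((cay S).dist 1 (⟨0, -(n : ℤ)⟩ : G) : ℤ) ≤ n := by
    -- reflect
    have hdn : ∀ m : ℕ, (cay S).dist 1 (⟨0, -(m : ℤ)⟩ : G) ≤ m := by
      intro m
      induction m with
      | zero =>
        have : (⟨0, -((0 : ℕ) : ℤ)⟩ : G) = 1 := by
          apply ext'
          · intro i; rfl
          · simp [one_p]
        rw [this]; simp
      | succ m ih =>
        have hc : (cay S).Connected := by
          refine ⟨fun g h => ?_⟩
          have h1 : (cay S).Reachable 1 g := reach_of_closure (by rw [closure_S]; trivial)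
          have h2 : (cay S).Reachable 1 h := reach_of_closure (by rw [closure_S]; trivial)
          exact h1.symm.trans h2
        have hadj := adj_succ 0 (-((m + 1 : ℕ) : ℤ))
        have he : -((m + 1 : ℕ) : ℤ) + 1 = -(m : ℤ) := by push_cast; ring
        rw [he] at hadj
        have := hc.dist_triangle (u := 1) (v := (⟨0, -(m : ℤ)⟩ : G))
          (w := ⟨0, -((m + 1 : ℕ) : ℤ)⟩)
        rw [SimpleGraph.dist_eq_one_iff_adj.2 hadj.symm] at this
        omega
    exact_mod_cast hdn n
  have hy : (⟨0, -(n : ℤ)⟩ : G) ∈ annulus S n r := by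
    refine ⟨?_, hballc _ (by simp), ?_⟩
    · change ((cay S).dist 1 (⟨0, -(n : ℤ)⟩ : G) : ℤ) ≤ (n : ℤ) + r
      omega
    · refine Set.infinite_of_injective_forall_mem
        (f := fun m : ℕ => (⟨⟨0, -(n : ℤ) - m⟩, (hconn_dn m).2.1⟩ : ↑(ball S ((n : ℤ) - 1))ᶜ)) ?_ ?_
      · intro m m' h
        have h1 := congrArg (fun x : ↑(ball S ((n : ℤ) - 1))ᶜ => (x : G).p) h
        simpa using h1
      · intro m
        rw [SimpleGraph.ConnectedComponent.mem_supp_iff, SimpleGraph.ConnectedComponent.eq]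
        exact (hconn_dn m).2.2.symm
  have hreach := hconn.preconnected ⟨_, hx⟩ ⟨_, hy⟩
  obtain ⟨w⟩ := hreach
  have key : ∀ {u v : annulus S n r} (w : ((cay S).induce (annulus S n r)).Walk u v),
      (u : G) ∈ Reg k → (v : G) ∈ Reg k := by
    intro u v w
    induction w with
    | nil => exact id
    | @cons u v' v h p ih =>
      intro hu
      apply ih
      have hadj : (cay S).Adj (u : G) (v' : G) := h
      have hv := v'.2
      refine reg_step hk hu hadj ?_ ?_
      · obtain ⟨-, hb, -⟩ := hv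
        have h3 : ¬ (((cay S).dist 1 (v' : G) : ℤ) ≤ (n : ℤ) - 1) := hb
        omega
      · have h3 : ((cay S).dist 1 (v' : G) : ℤ) ≤ (n : ℤ) + r := hv.1
        omega
  have hyR := key w ⟨by simp, by simp, Or.inl (by simp [hn])⟩
  have := hyR.1
  change 0 ≤ -(n : ℤ) at this
  omega

end G

end Pool.Agent.X155.Lamp
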