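import Pool.Agent.X155.LampDef

/-! Connection thickness of spheres. -/

namespace Pool.Agent.X155.Lamp

section General

variable {H : Type} [Group H]

/-- The Cayley graph. -/
def cay (S : Set H) : SimpleGraph H where
  Adj g h := g ≠ h ∧ (g⁻¹ * h ∈ S ∨ h⁻¹ * g ∈ S)
  symm := ⟨fun _ _ h => ⟨h.1.symm, h.2.symm⟩⟩
  loopless := ⟨fun _ h => h.1 rfl⟩

/-- The ball of radius `m` around the identity. -/
def ball (S : Set H) (m : ℤ) : Set H := {g | ((cay S).dist 1 g : ℤ) ≤ m}

/-- one-endedness -/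
def OneEnded (S : Set H) : Prop :=
  Infinite H ∧ ∀ F : Set H, F.Finite →
    ∃! C : ((cay S).induce Fᶜ).ConnectedComponent, C.supp.Infinite

/-- the infinite part of the complement of `B(n-1)` -/
def infPart (S : Set H) (n : ℕ) : Set H :=
  {g | ∃ hg : g ∈ (ball S ((n : ℤ) - 1))ᶜ,
    (((cay S).induce (ball S ((n : ℤ) - 1))ᶜ).connectedComponentMk ⟨g, hg⟩).supp.Infinite}

/-- `S(n,r)^∞` -/
def annulus (S : Set H) (n r : ℕ) : Set H := ball S ((n : ℤ) + r) ∩ infPart S n

/-- connection thickness -/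
noncomputable def th (S : Set H) (n : ℕ) : ℕ∞ :=
  ⨅ (r : ℕ) (_ : ((cay S).induce (annulus S n r)).Connected), (r : ℕ∞)

lemma reach_of_closure {S : Set H} {g : H} (hg : g ∈ Subgroup.closure S) :
    (cay S).Reachable 1 g := by
  induction hg using Subgroup.closure_induction_right with
  | one => exact SimpleGraph.Reachable.refl _
  | mul_right x _ y hy ih =>
    refine ih.trans ?_
    by_cases h : x = x * y
    · rw [← h]
    · exact SimpleGraph.Adj.reachable (G := cay S) ⟨h, Or.inl (by simpa using hy)⟩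
  | mul_inv_cancel x _ y hy ih =>
    refine ih.trans ?_
    by_cases h : x = x * y⁻¹
    · rw [← h]
    · exact SimpleGraph.Adj.reachable (G := cay S) ⟨h, Or.inr (by simpa using hy)⟩

/-- connected within a set -/
def Conn (S : Set H) (U : Set H) (g h : H) : Prop :=
  ∃ (hg : g ∈ U) (hh : h ∈ U), ((cay S).induce U).Reachable ⟨g, hg⟩ ⟨h, hh⟩

lemma Conn.refl {S U : Set H} {g : H} (hg : g ∈ U) : Conn S U g g :=
  ⟨hg, hg, SimpleGraph.Reachable.refl _⟩

lemma Conn.symm {S U : Set H} {g h : H} (h1 : Conn S U g h) : Conn S U h g := by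
  obtain ⟨a, b, c⟩ := h1
  exact ⟨b, a, c.symm⟩

lemma Conn.trans {S U : Set H} {g h k : H} (h1 : Conn S U g h) (h2 : Conn S U h k) :
    Conn S U g k := by
  obtain ⟨a, b, c⟩ := h1
  obtain ⟨a', b', c'⟩ := h2
  exact ⟨a, b', c.trans c'⟩

lemma Conn.step {S U : Set H} {g h : H} (hg : g ∈ U) (hh : h ∈ U) (h1 : (cay S).Adj g h) :
    Conn S U g h :=
  ⟨hg, hh, SimpleGraph.Adj.reachable (by simpa using h1)⟩

lemma Conn.mono {S U U' : Set H} (h : U ⊆ U') {g k : H} (h1 : Conn S U g k) : Conn S U' g k := by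
  obtain ⟨a, b, c⟩ := h1
  refine ⟨h a, h b, ?_⟩
  exact c.map (SimpleGraph.induceHomOfLE (cay S) h).toHom

lemma lip_dist {S : Set H} (hS : Subgroup.closure S = ⊤) (Φ : H → ℤ) (h1 : Φ 1 = 0)
    (hL : ∀ g h, (cay S).Adj g h → Φ h ≤ Φ g + 1) (g : H) : Φ g ≤ ((cay S).dist 1 g : ℤ) := by
  have hr : (cay S).Reachable 1 g := reach_of_closure (by rw [hS]; trivial)
  obtain ⟨w, hw⟩ := hr.exists_walk_length_eq_dist
  rw [← hw]
  have key : ∀ {x y : H} (w : (cay S).Walk x y), Φ y ≤ Φ x + w.length := by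
    intro x y w
    induction w with
    | nil => simp
    | cons h p ih =>
      have := hL _ _ h
      rw [SimpleGraph.Walk.length_cons]
      push_cast
      linarith
  have := key w
  rw [h1] at this
  linarith

end General

namespace G

lemma adj_spec {g h : G} (hgh : (cay S).Adj g h) :
    (h.p = g.p ∨ h.p = g.p + 1 ∨ h.p = g.p - 1) ∧
      ∀ i, i ≠ g.p / 2 → i ≠ h.p / 2 → h.f i = g.f i := by
  have key : ∀ {g h : G}, g⁻¹ * h ∈ S → (h.p = g.p ∨ h.p = g.p + 1 ∨ h.p = g.p - 1) ∧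
      ∀ i, i ≠ g.p / 2 → i ≠ h.p / 2 → h.f i = g.f i := by
    intro g h hx
    obtain ⟨h1, h2⟩ := S_spec hx
    set x := g⁻¹ * h with hxdef
    have hh : h = g * x := by rw [hxdef]; group
    have hp : h.p = g.p + sg g.p * x.p := by rw [hh]; rfl
    refine ⟨?_, fun i hi hi' => ?_⟩
    · rw [hp]
      rcases sg_cases g.p with ⟨hs, -⟩ | ⟨hs, -⟩ <;> rw [hs] <;>
        rcases h1 with h1 | h1 | h1 <;> rw [h1] <;> omega
    · have hf : h.f i = g.f i + x.f (sg g.p * (i - g.p / 2)) := by rw [hh]; rfl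
      rw [hf, h2, add_zero]
      · rcases sg_cases g.p with ⟨hs, -⟩ | ⟨hs, -⟩ <;> rw [hs] <;> omega
      · rw [hp] at hi'
        rcases sg_cases g.p with ⟨hs, hs'⟩ | ⟨hs, hs'⟩ <;> rw [hs] at hi' ⊢ <;>
          rcases h1 with h1 | h1 | h1 <;> rw [h1] at hi' ⊢ <;> omega
  rcases hgh.2 with h1 | h1
  · exact key h1
  · obtain ⟨h2, h3⟩ := key h1
    exact ⟨by omega, fun i hi hi' => (h3 i hi' hi).symm⟩

/-- a state -/
noncomputable def mk' (f : ℤ →₀ ZMod 2) (p : ℤ) : G := ⟨f, p⟩

lemma adj_toggle (f : ℤ →₀ ZMod 2) (p i : ℤ) (hi : i = p / 2) :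
    (cay S).Adj (⟨f, p⟩ : G) ⟨f + Finsupp.single i 1, p⟩ := by
  subst hi
  refine ⟨?_, Or.inl ?_⟩
  · intro h
    have h1 := congrArg (fun g : G => g.f (p / 2)) h
    simp at h1
  · have : (⟨f, p⟩ : G)⁻¹ * ⟨f + Finsupp.single (p / 2) 1, p⟩ = a := by
      rw [inv_mul_eq_iff_eq_mul]
      apply ext'
      · intro i
        rw [mul_f]
        simp only [a, Finsupp.add_apply, single_iff]
        congr 1
        rcases sg_cases p with ⟨hs, -⟩ | ⟨hs, -⟩ <;> rw [hs] <;> split_ifs <;> first | rfl | omega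
      · simp [mul_p, a]
    rw [this]; simp [S]

lemma adj_succ (f : ℤ →₀ ZMod 2) (p : ℤ) : (cay S).Adj (⟨f, p⟩ : G) ⟨f, p + 1⟩ := by
  refine ⟨fun h => by have := congrArg G.p h; simp at this, Or.inl ?_⟩
  rcases sg_cases p with ⟨hs, -⟩ | ⟨hs, -⟩
  · have : (⟨f, p⟩ : G)⁻¹ * ⟨f, p + 1⟩ = s := by
      rw [inv_mul_eq_iff_eq_mul]
      apply ext'
      · intro i; simp [mul_f, s]
      · simp [mul_p, s, hs]
    rw [this]; simp [S]
  · have : (⟨f, p⟩ : G)⁻¹ * ⟨f, p + 1⟩ = t := by
      rw [inv_mul_eq_iff_eq_mul]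
      apply ext'
      · intro i; simp [mul_f, t]
      · simp [mul_p, t, hs]
    rw [this]; simp [S]

/-- step right over a `t`-edge and toggle -/
lemma adj_succ_toggle (f : ℤ →₀ ZMod 2) (p i : ℤ) (hp : p % 2 = 1) (hi : i = (p + 1) / 2) :
    (cay S).Adj (⟨f, p⟩ : G) ⟨f + Finsupp.single i 1, p + 1⟩ := by
  subst hi
  refine ⟨fun h => by have := congrArg G.p h; simp at this, Or.inl ?_⟩
  have hs := sg_odd hp
  have : (⟨f, p⟩ : G)⁻¹ * ⟨f + Finsupp.single ((p + 1) / 2) 1, p + 1⟩ = t * a := by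
    rw [inv_mul_eq_iff_eq_mul]
    apply ext'
    · intro i
      rw [mul_f, mul_f]
      simp only [a, t, Finsupp.add_apply, single_iff, hs, sg, Finsupp.coe_zero, Pi.zero_apply]
      congr 1
      simp only [Int.reduceNeg, Int.reduceMod, one_ne_zero, if_false, Int.reduceDiv, zero_add]
      split_ifs <;> first | rfl | omega
    · simp [mul_p, a, t, hs]
  rw [this]; simp [S]

lemma closure_S : Subgroup.closure S = ⊤ := by
  have ha : a ∈ Subgroup.closure S := Subgroup.subset_closure (by simp [S])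
  have hs : s ∈ Subgroup.closure S := Subgroup.subset_closure (by simp [S])
  have ht : t ∈ Subgroup.closure S := Subgroup.subset_closure (by simp [S])
  have hadj : ∀ {g h : G}, (cay S).Adj g h → g ∈ Subgroup.closure S → h ∈ Subgroup.closure S := by
    intro g h hgh hg
    rcases hgh.2 with h1 | h1
    · have := (Subgroup.closure S).mul_mem hg (Subgroup.subset_closure h1)
      simpa using this
    · have := (Subgroup.closure S).mul_mem hg ((Subgroup.closure S).inv_mem
        (Subgroup.subset_closure h1))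
      simpa using this
  have hup : ∀ (f : ℤ →₀ ZMod 2) (p : ℤ) (m : ℕ), (⟨f, p⟩ : G) ∈ Subgroup.closure S →
      (⟨f, p + m⟩ : G) ∈ Subgroup.closure S := by
    intro f p m h
    induction m with
    | zero => simpa using h
    | succ m ih =>
      have := hadj (adj_succ f (p + m)) ih
      rw [add_assoc] at this
      exact_mod_cast this
  have hdown : ∀ (f : ℤ →₀ ZMod 2) (p : ℤ) (m : ℕ), (⟨f, p⟩ : G) ∈ Subgroup.closure S →
      (⟨f, p - m⟩ : G) ∈ Subgroup.closure S := by
    intro f p m h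
    induction m with
    | zero => simpa using h
    | succ m ih =>
      have h1 := adj_succ f (p - m - 1)
      rw [sub_add_cancel] at h1
      have := hadj h1.symm ih
      have h2 : p - ((m + 1 : ℕ) : ℤ) = p - m - 1 := by push_cast; ring
      rw [h2]; exact this
  have hall : ∀ (f : ℤ →₀ ZMod 2) (p q : ℤ), (⟨f, p⟩ : G) ∈ Subgroup.closure S →
      (⟨f, q⟩ : G) ∈ Subgroup.closure S := by
    intro f p q h
    rcases le_total p q with hpq | hpq
    · have := hup f p (q - p).toNat h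
      rwa [Int.toNat_of_nonneg (by omega), add_sub_cancel] at this
    · have := hdown f p (p - q).toNat h
      rwa [Int.toNat_of_nonneg (by omega), sub_sub_cancel] at this
  rw [eq_top_iff]
  rintro ⟨f, p⟩ -
  induction f using Finsupp.induction with
  | zero => exact hall 0 0 p (Subgroup.one_mem _)
  | single_add i b f hi hb ih =>
    have hb1 : b = 1 := by
      rcases zmod2 b with h | h
      · exact absurd h hb
      · exact h
    subst hb1
    have h1 := hall f p (2 * i) ih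
    have h2 := hadj (adj_toggle f (2 * i) i (by omega)) h1
    have h3 := hall _ _ p h2
    rwa [add_comm] at h3

end G

end Pool.Agent.X155.Lamp
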