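import Mathlib

/-!
Elementary lemmas on the circle used for precompact group topologies on `ℤ`.
-/

set_option autoImplicit false

open Filter Topology Set

namespace Pool.Agent.X155.Mack

/-- the circle -/
abbrev T1 : Type := AddCircle (1 : ℝ)

theorem norm_small {x : ℝ} (h : |x| ≤ 1 / 2) : ‖(x : T1)‖ = |x| := by
  rw [AddCircle.norm_coe_eq_abs_iff (p := (1 : ℝ)) one_ne_zero]
  simpa using h

theorem norm_coe_le (x : ℝ) : ‖(x : T1)‖ ≤ |x| := by
  by_cases h : |x| ≤ 1 / 2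
  · exact (norm_small h).le
  · have h1 : ‖(x : T1)‖ ≤ |(1 : ℝ)| / 2 := AddCircle.norm_le_half_period 1 one_ne_zero
    rw [abs_one] at h1
    push Not at h
    linarith

theorem norm_one_sub (x : ℝ) : ‖((1 - x : ℝ) : T1)‖ = ‖(x : T1)‖ := by
  have h1 : ((1 : ℝ) : T1) = 0 := AddCircle.coe_period 1
  rw [AddCircle.coe_sub, h1, zero_sub, norm_neg]

theorem norm_mid {x : ℝ} (h1 : 1 / 4 < x) (h2 : x < 3 / 4) : 1 / 4 < ‖(x : T1)‖ := by
  rcases le_total x (1 / 2) with h | h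
  · rw [norm_small (by rw [abs_of_nonneg (by linarith)]; exact h), abs_of_nonneg (by linarith)]
    exact h1
  · rw [← norm_one_sub, norm_small (by rw [abs_of_nonneg (by linarith)]; linarith),
      abs_of_nonneg (by linarith)]
    linarith

theorem exists_rep (θ : T1) : ∃ r : ℝ, (r : T1) = θ ∧ |r| = ‖θ‖ := by
  obtain ⟨x, rfl⟩ := QuotientAddGroup.mk_surjective θ
  refine ⟨x - round x, ?_, ?_⟩
  · have h1 : ((round x : ℝ) : T1) = 0 := by
      rw [AddCircle.coe_eq_zero_iff]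
      exact ⟨round x, by simp⟩
    rw [AddCircle.coe_sub, h1, sub_zero]
  · exact (UnitAddCircle.norm_eq (x := x)).symm

theorem exists_sign (θ : T1) : ∃ s : ℤ, (s = 1 ∨ s = -1) ∧ ((‖θ‖ : ℝ) : T1) = s • θ := by
  obtain ⟨r, hr, hr'⟩ := exists_rep θ
  rcases le_total 0 r with h | h
  · refine ⟨1, Or.inl rfl, ?_⟩
    rw [← hr', abs_of_nonneg h, one_zsmul, hr]
  · refine ⟨-1, Or.inr rfl, ?_⟩
    rw [← hr', abs_of_nonpos h, AddCircle.coe_neg, hr, neg_one_zsmul]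

theorem coe_mul (k : ℤ) (z : ℝ) : (((k : ℝ) * z : ℝ) : T1) = k • (z : T1) := by
  rw [← AddCircle.coe_zsmul, zsmul_eq_mul]

theorem coe_nmul (k : ℕ) (z : ℝ) : (((k : ℝ) * z : ℝ) : T1) = k • (z : T1) := by
  rw [← AddCircle.coe_nsmul, nsmul_eq_mul]

theorem norm_zsmul_le' (k : ℤ) (u : T1) : ‖k • u‖ ≤ |(k : ℝ)| * ‖u‖ := by
  obtain ⟨r, rfl, hr⟩ := exists_rep u
  rw [← coe_mul, ← hr, ← abs_mul]
  exact norm_coe_le _

/-- the bound for the norm by multiples -/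
theorem norm_of_mult (u : T1) (M : ℕ) (hM : 1 ≤ M)
    (h : ∀ j : ℕ, 1 ≤ j → j ≤ M → ‖j • u‖ ≤ 1 / 4) : ‖u‖ ≤ 1 / (4 * M) := by
  obtain ⟨r, rfl, hr⟩ := exists_rep u
  have key : ∀ j : ℕ, 1 ≤ j → j ≤ M → j * |r| ≤ 1 / 4 := by
    intro j
    induction j with
    | zero => intro h0; omega
    | succ j ih =>
      intro _ hj
      have h1 := h (j + 1) (by omega) hj
      rcases Nat.eq_zero_or_pos j with h0 | h0
      · subst h0
        rw [← coe_nmul] at h1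
        simp only [Nat.cast_one, zero_add, one_mul] at h1 ⊢
        rw [hr]
        exact h1
      · have h2 := ih h0 (by omega)
        have h3 : |r| ≤ 1 / 4 := by
          have h4 : (1 : ℝ) ≤ j := by exact_mod_cast h0
          have h5 : (1 : ℝ) * |r| ≤ j * |r| := mul_le_mul_of_nonneg_right h4 (abs_nonneg r)
          linarith
        have h6 : |((j + 1 : ℕ) : ℝ) * r| ≤ 1 / 2 := by
          rw [abs_mul, Nat.abs_cast]
          push_cast
          linarith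
        rw [← coe_nmul, norm_small h6, abs_mul, Nat.abs_cast] at h1
        exact h1
  have h1 := key M hM le_rfl
  have hM0 : (0 : ℝ) < M := by exact_mod_cast hM
  rw [← hr, le_div_iff₀ (by positivity)]
  linarith

/-- `Z` meets every interval of length `G` -/
def Gap (Z : Set ℤ) (G : ℕ) : Prop := ∀ a : ℤ, ∃ k ∈ Z, a ≤ k ∧ k ≤ a + G

theorem key {Z : Set ℤ} {G : ℕ} (hG : Gap Z G) (z σ N : ℝ) (hσ : σ ≤ 1 / 4)
    (hN : (G : ℝ) + 1 ≤ N) (hz : |z| * (G + 1) ≤ 1 / 8)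
    (h : ∀ k ∈ Z, 0 ≤ k → (k : ℝ) ≤ N → ‖k • (z : T1)‖ ≤ σ) : |z| * (N - G - 1) ≤ σ := by
  have h' : ∀ k ∈ Z, 0 ≤ k → (k : ℝ) ≤ N → ‖(((k : ℝ) * |z| : ℝ) : T1)‖ ≤ σ := by
    intro k hk hk0 hkN
    have h1 := h k hk hk0 hkN
    rw [← coe_mul] at h1
    rcases le_total 0 z with h2 | h2
    · rw [abs_of_nonneg h2]
      exact h1
    · rw [abs_of_nonpos h2, mul_neg, AddCircle.coe_neg, norm_neg]
      exact h1
  set z0 := |z| with hz0
  have hz0' : 0 ≤ z0 := abs_nonneg z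
  clear_value z0
  have hG0 : (0 : ℝ) ≤ G := Nat.cast_nonneg G
  obtain ⟨k0, hk0, hk1, hk2⟩ := hG (⌊N⌋ - G)
  have hk2' : (k0 : ℝ) ≤ N := by
    have h1 : k0 ≤ ⌊N⌋ := by omega
    have h2 : (k0 : ℝ) ≤ (⌊N⌋ : ℝ) := by exact_mod_cast h1
    exact h2.trans (Int.floor_le N)
  have hk1' : N - G - 1 ≤ (k0 : ℝ) := by
    have h1 : ((⌊N⌋ - G : ℤ) : ℝ) ≤ (k0 : ℝ) := by exact_mod_cast hk1
    push_cast at h1
    have h2 := Int.lt_floor_add_one N
    linarith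
  have hk00 : 0 ≤ k0 := by
    have h1 : (0 : ℝ) ≤ k0 := by linarith
    exact_mod_cast h1
  have hv := h' k0 hk0 hk00 hk2'
  by_contra hcon
  push Not at hcon
  have hv1 : σ < (k0 : ℝ) * z0 := by
    have h1 : (N - G - 1) * z0 ≤ k0 * z0 := mul_le_mul_of_nonneg_right hk1' hz0'
    linarith
  have hσ0 : 0 ≤ σ := (norm_nonneg _).trans hv
  have hzpos : 0 < z0 := by
    rcases hz0'.eq_or_lt with h1 | h1
    · rw [← h1, mul_zero] at hv1
      linarith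
    · exact h1
  have hv2 : 3 / 4 ≤ (k0 : ℝ) * z0 := by
    by_contra hc
    push Not at hc
    rcases le_or_gt ((k0 : ℝ) * z0) (1 / 4) with h1 | h1
    · rw [norm_small (by rw [abs_of_nonneg (by linarith)]; linarith),
        abs_of_nonneg (by linarith)] at hv
      linarith
    · have h2 := norm_mid h1 hc
      linarith
  obtain ⟨k, hk, hka, hkb⟩ := hG ⌈(9 / 32) / z0⌉
  have h1 : (9 / 32) / z0 ≤ (⌈(9 / 32) / z0⌉ : ℝ) := Int.le_ceil _
  have h2 : (⌈(9 / 32) / z0⌉ : ℝ) < (9 / 32) / z0 + 1 := Int.ceil_lt_add_one _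
  have h3 : (⌈(9 / 32) / z0⌉ : ℝ) ≤ (k : ℝ) := by exact_mod_cast hka
  have h4 : (k : ℝ) ≤ (⌈(9 / 32) / z0⌉ : ℝ) + G := by exact_mod_cast hkb
  have h5 : (9 : ℝ) / 32 ≤ k * z0 := by
    rw [div_le_iff₀ hzpos] at h1
    have := mul_le_mul_of_nonneg_right h3 hz0'
    linarith
  have h6 : (k : ℝ) * z0 ≤ 13 / 32 := by
    have h7 : (k : ℝ) ≤ (9 / 32) / z0 + (1 + G) := by linarith
    have h8 := mul_le_mul_of_nonneg_right h7 hz0'
    rw [add_mul, div_mul_cancel₀ _ hzpos.ne'] at h8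
    linarith
  have h9 : (k : ℝ) ≤ N := by
    have h10 : (k : ℝ) * z0 < k0 * z0 := by linarith
    have h11 := lt_of_mul_lt_mul_right h10 hz0'
    linarith
  have h12 : 0 ≤ k := by
    have h13 : (0 : ℝ) < k := by
      by_contra hc
      push Not at hc
      have := mul_nonpos_of_nonpos_of_nonneg hc hz0'
      linarith
    exact_mod_cast h13.le
  have h14 := h' k hk h12 h9
  have h15 := norm_mid (x := (k : ℝ) * z0) (by linarith) (by linarith)
  linarith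

/-- no small nonzero element is killed approximately by a set with small gaps -/
theorem eq_zero_of_gap {Z : Set ℤ} {G : ℕ} (hG : Gap Z G) (z : ℝ) (hz : |z| * (G + 1) ≤ 1 / 8)
    (h : ∀ k ∈ Z, 0 ≤ k → ‖k • (z : T1)‖ ≤ 1 / 4) : z = 0 := by
  by_contra hne
  have hpos : 0 < |z| := abs_pos.2 hne
  have h1 := key hG z (1 / 4) ((G : ℝ) + 1 + 1 / |z|) le_rfl
    (by have : 0 < 1 / |z| := by positivity
        linarith) hz (fun k hk hk0 _ => h k hk hk0)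
  have h2 : |z| * ((G : ℝ) + 1 + 1 / |z| - G - 1) = 1 := by
    field_simp
    ring
  rw [h2] at h1
  linarith

/-- compactness -/
theorem compact_step (Z : Set ℤ) (ρ e : ℝ) (he : 0 < e) : ∃ N0 : ℕ, ∀ N : ℝ, (N0 : ℝ) ≤ N →
    ∀ x : T1, (∀ k ∈ Z, |(k : ℝ)| ≤ N → ‖k • x‖ ≤ ρ) →
    ∃ y : T1, (∀ k ∈ Z, ‖k • y‖ ≤ ρ) ∧ ‖x - y‖ < e := by
  by_contra hcon
  push Not at hcon
  choose N hN x hx hy using hcon
  obtain ⟨y, _, φ, hφ, hlim⟩ := isCompact_univ.tendsto_subseq (fun n => Set.mem_univ (x n))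
  have hyP : ∀ k ∈ Z, ‖k • y‖ ≤ ρ := by
    intro k hk
    have h1 : Tendsto (fun n => ‖k • (x (φ n))‖) atTop (𝓝 ‖k • y‖) :=
      (((continuous_zsmul k).tendsto y).comp hlim).norm
    obtain ⟨m, hm⟩ := exists_nat_ge |(k : ℝ)|
    apply le_of_tendsto h1
    filter_upwards [eventually_ge_atTop m] with n hn
    apply hx _ k hk
    have h2 : (m : ℝ) ≤ (φ n : ℝ) := by exact_mod_cast hn.trans (hφ.id_le n)
    exact hm.trans (h2.trans (hN _))
  have h2 : Tendsto (fun n => ‖x (φ n) - y‖) atTop (𝓝 0) := by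
    have h3 := (hlim.sub_const y).norm
    rw [sub_self, norm_zero] at h3
    exact h3
  obtain ⟨n, hn⟩ := (h2.eventually_lt_const he).exists
  exact absurd (hy (φ n) y hyP) (not_le.2 hn)

theorem star {Z : Set ℤ} {G : ℕ} (hG : Gap Z G) (ρ : ℝ) (hρ : ρ ≤ 1 / 8) :
    ∃ N0 : ℝ, ∀ N : ℝ, N0 ≤ N →
    ∀ x : T1, (∀ k ∈ Z, |(k : ℝ)| ≤ N → ‖k • x‖ ≤ ρ) →
    ∃ y : T1, (∀ k ∈ Z, ‖k • y‖ ≤ ρ) ∧ ∃ z : ℝ, (z : T1) = x - y ∧ |z| * N ≤ 4 * ρ := by
  have hG0 : (0 : ℝ) ≤ G := Nat.cast_nonneg G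
  obtain ⟨N0, h0⟩ := compact_step Z ρ (1 / (8 * ((G : ℝ) + 1))) (by positivity)
  refine ⟨max N0 (2 * ((G : ℝ) + 1)), fun N hN x hx => ?_⟩
  obtain ⟨y, hy, hxy⟩ := h0 N ((le_max_left _ _).trans hN) x hx
  have hN2 : 2 * ((G : ℝ) + 1) ≤ N := (le_max_right _ _).trans hN
  obtain ⟨z, hz, hz'⟩ := exists_rep (x - y)
  refine ⟨y, hy, z, hz, ?_⟩
  have h1 : |z| * (G + 1) ≤ 1 / 8 := by
    rw [hz']
    have h2 := mul_le_mul_of_nonneg_right hxy.le (by positivity : (0 : ℝ) ≤ (G : ℝ) + 1)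
    have h3 : 1 / (8 * ((G : ℝ) + 1)) * (G + 1) = 1 / 8 := by
      field_simp
    linarith
  have h2 := key hG z (2 * ρ) N (by linarith) (by linarith) h1 (by
    intro k hk hk0 hkN
    rw [hz, smul_sub]
    have h3 := hx k hk (by
      rw [abs_of_nonneg (by exact_mod_cast hk0)]
      exact hkN)
    have h4 := hy k hk
    have h5 := norm_sub_le (k • x) (k • y)
    linarith)
  have h3 : |z| * (N / 2) ≤ |z| * (N - G - 1) :=
    mul_le_mul_of_nonneg_left (by linarith) (abs_nonneg z)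
  linarith

end Pool.Agent.X155.Mack
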