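import Pool.Agent.X155.MackCircle

/-!
The core argument: a rapidly decreasing sequence of characters gives a strictly finer compatible
topology.
-/

set_option autoImplicit false

open Filter Topology Set

namespace Pool.Agent.X155.Mack

/-- properties of the filter of neighbourhoods of zero of a precompact group topology on `ℤ` -/
structure NF (𝒩 : Filter ℤ) : Prop where
  zero : ∀ U ∈ 𝒩, (0 : ℤ) ∈ U
  mul : ∀ U ∈ 𝒩, ∀ j : ℤ, ∀ᶠ k in 𝒩, j * k ∈ U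
  add : ∀ U ∈ 𝒩, ∀ᶠ k in 𝒩, ∀ᶠ k' in 𝒩, k + k' ∈ U
  gap : ∀ U ∈ 𝒩, ∃ G, Gap U G

/-- continuous characters -/
def Ch (𝒩 : Filter ℤ) (x : T1) : Prop := ∀ ε : ℝ, 0 < ε → ∀ᶠ k in 𝒩, ‖k • x‖ ≤ ε

variable {𝒩 : Filter ℤ}

theorem ch_of_quarter (h : NF 𝒩) (U : Set ℤ) (hU : U ∈ 𝒩) (x : T1)
    (hx : ∀ k ∈ U, ‖k • x‖ ≤ 1 / 4) : Ch 𝒩 x := by
  intro ε hε
  obtain ⟨M, hM⟩ := exists_nat_gt (1 / ε)
  have hM0 : (0 : ℝ) < M := (one_div_pos.2 hε).trans hM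
  have h1 : ∀ᶠ k in 𝒩, ∀ j ∈ Finset.range (M + 1), ((j : ℕ) : ℤ) * k ∈ U :=
    (Filter.eventually_all_finset _).2 (fun j _ => h.mul U hU j)
  filter_upwards [h1] with k hk
  have h2 := norm_of_mult (k • x) M (by exact_mod_cast hM0) (by
    intro j _ hj
    have h3 := hx _ (hk j (Finset.mem_range.2 (by omega)))
    rwa [mul_zsmul, natCast_zsmul] at h3)
  refine h2.trans ?_
  rw [div_le_iff₀ (by positivity)]
  rw [div_lt_iff₀ hε] at hM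
  nlinarith

theorem tail_small (h : NF 𝒩) (c : ℕ → T1) (hc : ∀ n, Ch 𝒩 (c n))
    (hc0 : Tendsto c atTop (𝓝 0)) (x : T1) (O : Set ℤ) (hO : O ∈ 𝒩) (ε : ℝ) (hε : 0 < ε)
    (hx : ∀ k ∈ O, (∀ j, ‖k • c j‖ ≤ ε) → ‖k • x‖ ≤ 1 / 4) (ρ : ℝ) (hρ : 0 < ρ) :
    ∃ Z0 ∈ 𝒩, ∀ k ∈ Z0, (∀ j, ‖k • c j‖ ≤ ε / 2) → ‖k • x‖ ≤ ρ := by
  by_contra hcon
  push Not at hcon
  have key : ∀ i : ℕ, ∃ K : ℤ, (∀ᶠ k in 𝒩, K + k ∈ O) ∧ ∃ B : ℝ, B < ε ∧ (∀ j, ‖K • c j‖ ≤ B) ∧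
      ∃ θ : ℝ, (θ : T1) = K • x ∧ i * ρ ≤ θ ∧ θ ≤ 1 / 4 := by
    intro i
    induction i with
    | zero =>
      refine ⟨0, ?_, 0, hε, ?_, 0, ?_, ?_, ?_⟩
      · simp only [zero_add]
        exact hO
      · intro j
        rw [zero_zsmul, norm_zero]
      · rw [zero_zsmul]
        rfl
      · rw [Nat.cast_zero, zero_mul]
      · norm_num
    | succ i ih =>
      obtain ⟨K, hK, B, hB, hKc, θ, hθ, hθ1, hθ2⟩ := ih
      obtain ⟨κ, hκ, hκ'⟩ : ∃ κ : ℝ, 0 < κ ∧ max B (ε / 2) + κ < ε := by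
        have h1 : max B (ε / 2) < ε := max_lt hB (by linarith)
        exact ⟨(ε - max B (ε / 2)) / 2, by linarith, by linarith⟩
      have h1 : Tendsto (fun j => ‖K • c j‖) atTop (𝓝 0) := by
        have h2 := (((continuous_zsmul K).tendsto 0).comp hc0).norm
        rw [zsmul_zero, norm_zero] at h2
        exact h2
      obtain ⟨J, hJ⟩ := eventually_atTop.1 (h1.eventually_le_const hκ)
      have hA : ∀ᶠ k in 𝒩, ∀ᶠ k' in 𝒩, K + (k + k') ∈ O := h.add _ hK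
      have hA' : ∀ᶠ k in 𝒩, ∀ᶠ k' in 𝒩, K + (-1 * k + k') ∈ O := h.mul _ hA (-1)
      have hcJ : ∀ᶠ k in 𝒩, ∀ j ∈ Finset.range J, ‖k • c j‖ ≤ κ :=
        (Filter.eventually_all_finset _).2 (fun j _ => hc j κ hκ)
      obtain ⟨k, hk, hkc, hkx⟩ := hcon _ (((hA.and hA').and hcJ).and hO)
      obtain ⟨⟨⟨hk1, hk2⟩, hk3⟩, hk4⟩ := hk
      have hkq : ‖k • x‖ ≤ 1 / 4 := hx k hk4 (fun j => (hkc j).trans (by linarith))
      obtain ⟨s, hs, hs'⟩ := exists_sign (k • x)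
      have hsO : ∀ᶠ k' in 𝒩, K + s * k + k' ∈ O := by
        rcases hs with rfl | rfl
        · filter_upwards [hk1] with k' hk'
          rwa [one_mul, add_assoc]
        · filter_upwards [hk2] with k' hk'
          rwa [add_assoc]
      have hsn : ∀ u : T1, ‖(s * k) • u‖ = ‖k • u‖ := by
        intro u
        rcases hs with rfl | rfl
        · rw [one_mul]
        · rw [neg_one_mul, neg_zsmul, norm_neg]
      have hB' : ∀ j, ‖(K + s * k) • c j‖ ≤ max B (ε / 2) + κ := by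
        intro j
        rw [add_zsmul]
        refine (norm_add_le _ _).trans ?_
        rw [hsn]
        rcases lt_or_ge j J with hj | hj
        · exact add_le_add ((hKc j).trans (le_max_left _ _)) (hk3 j (Finset.mem_range.2 hj))
        · rw [add_comm]
          exact add_le_add ((hkc j).trans (le_max_right _ _)) (hJ j hj)
      have hθ' : ((θ + ‖k • x‖ : ℝ) : T1) = (K + s * k) • x := by
        rw [AddCircle.coe_add, hθ, hs', add_zsmul, mul_zsmul]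
      have hin : K + s * k ∈ O := by
        have := h.zero _ hsO
        simpa using this
      have hq := hx _ hin (fun j => (hB' j).trans hκ'.le)
      have hθ0 : 0 ≤ θ := le_trans (by positivity) hθ1
      have hnn := norm_nonneg (k • x)
      have habs : |θ + ‖k • x‖| ≤ 1 / 2 := by
        rw [abs_of_nonneg (by linarith)]
        linarith
      rw [← hθ', norm_small habs, abs_of_nonneg (by linarith)] at hq
      refine ⟨K + s * k, hsO, _, hκ', hB', θ + ‖k • x‖, hθ', ?_, hq⟩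
      push_cast
      linarith
  obtain ⟨i, hi⟩ := exists_nat_gt (1 / 4 / ρ)
  obtain ⟨K, _, B, _, _, θ, _, h1, h2⟩ := key i
  rw [div_lt_iff₀ hρ] at hi
  linarith

/-- the relation between consecutive stages of the construction -/
def Rn (U : ℕ → Set ℤ) (n : ℕ) (D : Set ℤ) (c : T1) (D' : Set ℤ) (c' : T1) : Prop :=
  D' ⊆ D ∧ D' ⊆ U (n + 1) ∧ (∀ k ∈ D', ‖k • c‖ ≤ 1 / (4 * ((n : ℝ) + 1))) ∧
  (∀ k ∈ D', ∀ i : ℕ, i ≤ n + 1 → (i : ℤ) * k ∈ D) ∧ ‖c'‖ ≤ ‖c‖ ∧ ‖c'‖ ≤ 1 / ((n : ℝ) + 1) ∧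
  (∃ G : ℕ, Gap D' G ∧ ((G : ℝ) + 1) * ‖c'‖ ≤ 1 / (8 * ((n : ℝ) + 1))) ∧
  (∀ l : ℕ, 1 ≤ l → l ≤ n + 1 → ∀ x : T1,
    (∀ k ∈ D, ‖k • c‖ ≤ 1 / (2 * (l : ℝ)) → |(k : ℝ)| ≤ 1 / (2 * (l : ℝ) * ‖c'‖) →
      ‖k • x‖ ≤ 1 / (128 * (l : ℝ))) →
    ∃ y : T1, (∀ k ∈ D, ‖k • c‖ ≤ 1 / (2 * (l : ℝ)) → ‖k • y‖ ≤ 1 / (128 * (l : ℝ))) ∧
      ∃ z : ℝ, (z : T1) = x - y ∧ |z| ≤ ‖c'‖ / 16)

theorem exists_next (h : NF 𝒩) (hs : ∀ η : ℝ, 0 < η → ∃ c, Ch 𝒩 c ∧ c ≠ 0 ∧ ‖c‖ < η)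
    (U : ℕ → Set ℤ) (hU : ∀ n, U n ∈ 𝒩) (n : ℕ) (D : Set ℤ) (hD : D ∈ 𝒩) (c : T1)
    (hc : Ch 𝒩 c) (hc0 : c ≠ 0) :
    ∃ D' ∈ 𝒩, ∃ c' : T1, Ch 𝒩 c' ∧ c' ≠ 0 ∧ Rn U n D c D' c' := by
  have hn0 : (0 : ℝ) < (n : ℝ) + 1 := by positivity
  have hD1 : ∀ᶠ k in 𝒩, ‖k • c‖ ≤ 1 / (4 * ((n : ℝ) + 1)) := hc _ (by positivity)
  have hD2 : ∀ᶠ k in 𝒩, ∀ i ∈ Finset.range (n + 2), ((i : ℕ) : ℤ) * k ∈ D :=
    (Filter.eventually_all_finset _).2 (fun j _ => h.mul D hD j)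
  let D' : Set ℤ := {k | k ∈ D ∧ k ∈ U (n + 1) ∧ ‖k • c‖ ≤ 1 / (4 * ((n : ℝ) + 1)) ∧
    ∀ i ∈ Finset.range (n + 2), ((i : ℕ) : ℤ) * k ∈ D}
  have hD' : D' ∈ 𝒩 := by
    filter_upwards [hD, hU (n + 1), hD1, hD2] with k h1 h2 h3 h4
    exact ⟨h1, h2, h3, h4⟩
  obtain ⟨G, hG⟩ := h.gap D' hD'
  have hZ : ∀ l : ℕ, 1 ≤ l → {k | k ∈ D ∧ ‖k • c‖ ≤ 1 / (2 * (l : ℝ))} ∈ 𝒩 := by
    intro l hl
    have hl0 : (0 : ℝ) < l := by exact_mod_cast hl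
    filter_upwards [hD, hc (1 / (2 * (l : ℝ))) (by positivity)] with k h1 h2
    exact ⟨h1, h2⟩
  have hN : ∀ l : ℕ, ∃ N0 : ℝ, 1 ≤ l → ∀ N : ℝ, N0 ≤ N →
      ∀ x : T1, (∀ k ∈ {k | k ∈ D ∧ ‖k • c‖ ≤ 1 / (2 * (l : ℝ))}, |(k : ℝ)| ≤ N →
        ‖k • x‖ ≤ 1 / (128 * (l : ℝ))) →
      ∃ y : T1, (∀ k ∈ {k | k ∈ D ∧ ‖k • c‖ ≤ 1 / (2 * (l : ℝ))}, ‖k • y‖ ≤ 1 / (128 * (l : ℝ))) ∧
        ∃ z : ℝ, (z : T1) = x - y ∧ |z| * N ≤ 4 * (1 / (128 * (l : ℝ))) := by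
    intro l
    by_cases hl : 1 ≤ l
    · obtain ⟨G', hG'⟩ := h.gap _ (hZ l hl)
      have hl1 : (1 : ℝ) ≤ l := by exact_mod_cast hl
      obtain ⟨N0, hN0⟩ := star hG' (1 / (128 * (l : ℝ))) (by
        rw [div_le_div_iff₀ (by positivity) (by positivity)]
        linarith)
      exact ⟨N0, fun _ => hN0⟩
    · exact ⟨0, fun h1 => absurd h1 hl⟩
  choose N0 hN0 using hN
  let S : ℝ := ∑ l ∈ Finset.range (n + 2), |N0 l| + 1
  have hS1 : ∀ l, l ≤ n + 1 → N0 l ≤ S := by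
    intro l hl
    have h1 : |N0 l| ≤ ∑ l ∈ Finset.range (n + 2), |N0 l| :=
      Finset.single_le_sum (f := fun l => |N0 l|) (fun i _ => abs_nonneg _)
        (Finset.mem_range.2 (by omega))
    have h2 := le_abs_self (N0 l)
    show N0 l ≤ ∑ l ∈ Finset.range (n + 2), |N0 l| + 1
    linarith
  have hS0 : 0 < S := by
    have h1 : 0 ≤ ∑ l ∈ Finset.range (n + 2), |N0 l| :=
      Finset.sum_nonneg (fun i _ => abs_nonneg _)
    show 0 < ∑ l ∈ Finset.range (n + 2), |N0 l| + 1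
    linarith
  clear_value S
  obtain ⟨c', hc', hc'0, hlt⟩ := hs (min (min ‖c‖ (1 / ((n : ℝ) + 1)))
    (min (1 / (8 * ((n : ℝ) + 1)) / ((G : ℝ) + 1)) (1 / (2 * ((n : ℝ) + 1) * S)))) (by
      have h1 : 0 < ‖c‖ := norm_pos_iff.2 hc0
      positivity)
  have hcp : 0 < ‖c'‖ := norm_pos_iff.2 hc'0
  rw [lt_min_iff, lt_min_iff, lt_min_iff] at hlt
  obtain ⟨⟨h1, h2⟩, h3, h4⟩ := hlt
  refine ⟨D', hD', c', hc', hc'0, ?_, ?_, ?_, ?_, h1.le, h2.le, ?_, ?_⟩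
  · exact fun k hk => hk.1
  · exact fun k hk => hk.2.1
  · exact fun k hk => hk.2.2.1
  · exact fun k hk i hi => hk.2.2.2 i (Finset.mem_range.2 (by omega))
  · refine ⟨G, hG, ?_⟩
    rw [lt_div_iff₀ (by positivity)] at h3
    rw [mul_comm]
    exact h3.le
  · intro l hl hln x hx
    have hl0 : (0 : ℝ) < l := by exact_mod_cast hl
    have hln' : (l : ℝ) ≤ (n : ℝ) + 1 := by exact_mod_cast hln
    have hSN : S ≤ 1 / (2 * (l : ℝ) * ‖c'‖) := by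
      rw [le_div_iff₀ (by positivity)]
      rw [lt_div_iff₀ (by positivity)] at h4
      have h5 : 2 * (l : ℝ) * ‖c'‖ ≤ 2 * ((n : ℝ) + 1) * ‖c'‖ :=
        mul_le_mul_of_nonneg_right (by linarith) hcp.le
      have h6 := mul_le_mul_of_nonneg_left h5 hS0.le
      nlinarith
    obtain ⟨y, hy, z, hz, hz'⟩ := hN0 l hl (1 / (2 * (l : ℝ) * ‖c'‖))
      ((hS1 l hln).trans hSN) x (fun k hk hk' => hx k hk.1 hk.2 hk')
    refine ⟨y, fun k hk hk' => hy k ⟨hk, hk'⟩, z, hz, ?_⟩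
    have h5 : |z| * (1 / (2 * (l : ℝ) * ‖c'‖)) = |z| / (2 * (l : ℝ) * ‖c'‖) := by ring
    rw [h5, div_le_iff₀ (by positivity)] at hz'
    have h6 : 4 * (1 / (128 * (l : ℝ))) * (2 * (l : ℝ) * ‖c'‖) = ‖c'‖ / 16 := by
      field_simp
      ring
    linarith

theorem exists_seq (h : NF 𝒩) (hs : ∀ η : ℝ, 0 < η → ∃ c, Ch 𝒩 c ∧ c ≠ 0 ∧ ‖c‖ < η)
    (U : ℕ → Set ℤ) (hU : ∀ n, U n ∈ 𝒩) :
    ∃ (D : ℕ → Set ℤ) (c : ℕ → T1), (∀ n, D n ∈ 𝒩) ∧ (∀ n, Ch 𝒩 (c n)) ∧ (∀ n, c n ≠ 0) ∧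
      ∀ n, Rn U n (D n) (c n) (D (n + 1)) (c (n + 1)) := by
  obtain ⟨c0, hc0, hc00, -⟩ := hs 1 one_pos
  let St := {p : Set ℤ × T1 // p.1 ∈ 𝒩 ∧ Ch 𝒩 p.2 ∧ p.2 ≠ 0}
  have hnext : ∀ (n : ℕ) (p : St), ∃ q : St, Rn U n p.1.1 p.1.2 q.1.1 q.1.2 := by
    intro n p
    obtain ⟨D', hD', c', hc', hc'0, hR⟩ := exists_next h hs U hU n p.1.1 p.2.1 p.1.2 p.2.2.1 p.2.2.2
    exact ⟨⟨(D', c'), hD', hc', hc'0⟩, hR⟩
  choose f hf using hnext
  let p : ℕ → St := fun n => Nat.rec ⟨(Set.univ, c0), univ_mem, hc0, hc00⟩ (fun n q => f n q) n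
  refine ⟨fun n => (p n).1.1, fun n => (p n).1.2, fun n => (p n).2.1, fun n => (p n).2.2.1,
    fun n => (p n).2.2.2, fun n => ?_⟩
  exact hf n (p n)

section main

variable {U : ℕ → Set ℤ} {D : ℕ → Set ℤ} {c : ℕ → T1}

theorem old_small (hR : ∀ n, Rn U n (D n) (c n) (D (n + 1)) (c (n + 1))) (n : ℕ) :
    ∀ j, j ≤ n → ∀ k ∈ D (n + 1), ‖k • c j‖ ≤ 1 / (4 * ((n : ℝ) + 1)) := by
  induction n with
  | zero =>
    intro j hj k hk
    obtain rfl : j = 0 := by omega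
    exact (hR 0).2.2.1 k hk
  | succ m ih =>
    intro j hj k hk
    rcases hj.eq_or_lt with rfl | hj'
    · exact (hR (m + 1)).2.2.1 k hk
    · have h1 := (hR (m + 1)).2.2.2.1 k hk
      have h2 := norm_of_mult (k • c j) (m + 1 + 1) (by omega) (by
        intro i _ hi
        have h3 := ih j (by omega) _ (h1 i hi)
        rw [mul_zsmul, natCast_zsmul] at h3
        refine h3.trans ?_
        have h4 : (0 : ℝ) ≤ m := Nat.cast_nonneg m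
        rw [div_le_div_iff₀ (by positivity) (by positivity)]
        linarith)
      push_cast at h2 ⊢
      exact h2

theorem norm_anti (hR : ∀ n, Rn U n (D n) (c n) (D (n + 1)) (c (n + 1))) :
    Antitone (fun n => ‖c n‖) :=
  antitone_nat_of_succ_le (fun n => (hR n).2.2.2.2.1)

theorem tendsto_zero (hR : ∀ n, Rn U n (D n) (c n) (D (n + 1)) (c (n + 1))) :
    Tendsto c atTop (𝓝 0) := by
  rw [tendsto_zero_iff_norm_tendsto_zero, ← tendsto_add_atTop_iff_nat 1]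
  refine squeeze_zero (fun n => norm_nonneg _) (fun n => (hR n).2.2.2.2.2.1) ?_
  exact tendsto_one_div_add_atTop_nhds_zero_nat

/-- the key rigidity step -/
theorem rigid (hc0 : ∀ n, c n ≠ 0) (hR : ∀ n, Rn U n (D n) (c n) (D (n + 1)) (c (n + 1)))
    (n l : ℕ) (hl : 1 ≤ l) (hln : l ≤ n + 1) (y y' : T1)
    (hy : ∀ k ∈ D n, ‖k • c n‖ ≤ 1 / (2 * (l : ℝ)) → ‖k • y‖ ≤ 1 / (128 * (l : ℝ)))
    (hy' : ∀ k ∈ D (n + 1), ‖k • c (n + 1)‖ ≤ 1 / (2 * (l : ℝ)) →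
      ‖k • y'‖ ≤ 1 / (128 * (l : ℝ)))
    (w : ℝ) (hw : (w : T1) = y' - y) (hw' : |w| ≤ ‖c (n + 1)‖ / 8) : y' = y := by
  have hγ : 0 < ‖c (n + 1)‖ := norm_pos_iff.2 (hc0 _)
  obtain ⟨σ, hσ, hσ'⟩ := exists_sign (c (n + 1))
  obtain ⟨G, hG, hG'⟩ := (hR n).2.2.2.2.2.2.1
  have hl0 : (1 : ℝ) ≤ l := by exact_mod_cast hl
  have hln' : (l : ℝ) ≤ (n : ℝ) + 1 := by exact_mod_cast hln
  have hlb : 1 / (8 * ((n : ℝ) + 1)) ≤ 1 / (2 * (l : ℝ)) := by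
    rw [div_le_div_iff₀ (by positivity) (by positivity)]
    linarith
  have hlb2 : 1 / (8 * ((n : ℝ) + 1)) ≤ 1 / 8 := by
    rw [div_le_div_iff₀ (by positivity) (by positivity)]
    linarith
  have hlb3 : 1 / (128 * (l : ℝ)) ≤ 1 / 128 := by
    rw [div_le_div_iff₀ (by positivity) (by positivity)]
    linarith
  have hlb4 : 1 / (4 * ((n : ℝ) + 1)) ≤ 1 / (2 * (l : ℝ)) := by
    rw [div_le_div_iff₀ (by positivity) (by positivity)]
    linarith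
  set γ := ‖c (n + 1)‖ with hγdef
  have hζ : |w / γ| ≤ 1 / 8 := by
    rw [abs_div, abs_of_pos hγ, div_le_iff₀ hγ]
    linarith
  have key2 : w / γ = 0 := by
    apply eq_zero_of_gap (Z := Set.univ) (G := 0) (fun a => ⟨a, Set.mem_univ a, le_rfl, by simp⟩)
    · push_cast
      linarith
    · intro s _ hs0
      obtain ⟨k, hk, hk1, hk2⟩ := hG ⌊(s : ℝ) / γ⌋
      have h1 : (s : ℝ) / γ < (⌊(s : ℝ) / γ⌋ : ℝ) + 1 := Int.lt_floor_add_one _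
      have h2 : (⌊(s : ℝ) / γ⌋ : ℝ) ≤ (s : ℝ) / γ := Int.floor_le _
      have h3 : (⌊(s : ℝ) / γ⌋ : ℝ) ≤ (k : ℝ) := by exact_mod_cast hk1
      have h4 : (k : ℝ) ≤ (⌊(s : ℝ) / γ⌋ : ℝ) + G := by exact_mod_cast hk2
      have h5 : (s : ℝ) - γ ≤ k * γ := by
        have h6 : (s : ℝ) / γ - 1 ≤ k := by linarith
        have h7 := mul_le_mul_of_nonneg_right h6 hγ.le
        rw [sub_mul, div_mul_cancel₀ _ hγ.ne'] at h7
        linarith
      have h6 : (k : ℝ) * γ ≤ s + G * γ := by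
        have h7 : (k : ℝ) ≤ (s : ℝ) / γ + G := by linarith
        have h8 := mul_le_mul_of_nonneg_right h7 hγ.le
        rw [add_mul, div_mul_cancel₀ _ hγ.ne'] at h8
        linarith
      have hG0 : (0 : ℝ) ≤ G := Nat.cast_nonneg G
      have h7 : |(k : ℝ) * γ - s| ≤ 1 / (8 * ((n : ℝ) + 1)) := by
        rw [abs_le]
        constructor <;> nlinarith
      have h8 : ‖k • c (n + 1)‖ ≤ 1 / (8 * ((n : ℝ) + 1)) := by
        have h9 : ‖k • c (n + 1)‖ = ‖k • (γ : T1)‖ := by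
          rw [hσ']
          rcases hσ with rfl | rfl
          · rw [one_zsmul]
          · rw [neg_one_zsmul, zsmul_neg, norm_neg]
        have h10 : k • (γ : T1) = (((k : ℝ) * γ - s : ℝ) : T1) := by
          rw [AddCircle.coe_sub, coe_mul]
          have : ((s : ℝ) : T1) = 0 := by
            rw [AddCircle.coe_eq_zero_iff]
            exact ⟨s, by simp⟩
          rw [this, sub_zero]
        rw [h9, h10]
        exact (norm_coe_le _).trans h7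
      have h11 := hy' k hk (h8.trans hlb)
      have h12 := hy k ((hR n).1 hk) (((hR n).2.2.1 k hk).trans hlb4)
      have h13 : ‖k • (w : T1)‖ ≤ 1 / 64 := by
        rw [hw, smul_sub]
        have := norm_sub_le (k • y') (k • y)
        linarith
      have h14 : s • ((w / γ : ℝ) : T1) =
          k • (w : T1) - ((((k : ℝ) * γ - s) * (w / γ) : ℝ) : T1) := by
        rw [← coe_mul, ← coe_mul, ← AddCircle.coe_sub]
        congr 1
        field_simp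
        ring
      rw [h14]
      have h15 := norm_sub_le (k • (w : T1)) ((((k : ℝ) * γ - s) * (w / γ) : ℝ) : T1)
      have h16 := norm_coe_le (((k : ℝ) * γ - s) * (w / γ))
      have h17 : |((k : ℝ) * γ - s) * (w / γ)| ≤ 1 / 8 * (1 / 8) := by
        rw [abs_mul]
        exact mul_le_mul (h7.trans hlb2) hζ (abs_nonneg _) (by norm_num)
      linarith
  have hw0 : w = 0 := by
    rcases div_eq_zero_iff.1 key2 with h1 | h1
    · exact h1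
    · exact absurd h1 hγ.ne'
  rw [hw0] at hw
  have h1 : (0 : T1) = y' - y := by
    rw [← hw]
    rfl
  exact sub_eq_zero.1 h1.symm

theorem main (h : NF 𝒩) (hUb : ∀ V ∈ 𝒩, ∃ n, ∀ m, n ≤ m → U m ⊆ V)
    (hD : ∀ n, D n ∈ 𝒩) (hc : ∀ n, Ch 𝒩 (c n)) (hc0 : ∀ n, c n ≠ 0)
    (hR : ∀ n, Rn U n (D n) (c n) (D (n + 1)) (c (n + 1))) (x : T1)
    (O : Set ℤ) (hO : O ∈ 𝒩) (ε : ℝ) (hε : 0 < ε)
    (hx : ∀ k ∈ O, (∀ j, ‖k • c j‖ ≤ ε) → ‖k • x‖ ≤ 1 / 4) : Ch 𝒩 x := by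
  obtain ⟨l, hl⟩ := exists_nat_gt (1 / ε)
  have hl0 : (0 : ℝ) < l := (one_div_pos.2 hε).trans hl
  have hl1 : 1 ≤ l := by exact_mod_cast hl0
  have hle : 1 / (l : ℝ) ≤ ε := by
    rw [div_le_iff₀ hl0]
    rw [div_lt_iff₀ hε] at hl
    linarith
  obtain ⟨Z0, hZ0, hZ⟩ := tail_small h c hc (tendsto_zero hR) x O hO (1 / (l : ℝ)) (by positivity)
    (fun k hk hk' => hx k hk (fun j => (hk' j).trans hle)) (1 / (128 * (l : ℝ))) (by positivity)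
  obtain ⟨n0, hn0⟩ := hUb Z0 hZ0
  have hex : ∀ n, max n0 l + 1 ≤ n → ∃ y : T1,
      (∀ k ∈ D n, ‖k • c n‖ ≤ 1 / (2 * (l : ℝ)) → ‖k • y‖ ≤ 1 / (128 * (l : ℝ))) ∧
      ∃ z : ℝ, (z : T1) = x - y ∧ |z| ≤ ‖c (n + 1)‖ / 16 := by
    intro n hn
    have hn1 : n0 ≤ n := by omega
    have hn2 : l + 1 ≤ n := by omega
    apply (hR n).2.2.2.2.2.2.2 l hl1 (by omega) x
    intro k hk hk1 hk2
    obtain ⟨m, rfl⟩ : ∃ m, n = m + 1 := ⟨n - 1, by omega⟩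
    apply hZ k (hn0 (m + 1) hn1 ((hR m).2.1 hk))
    intro j
    have hgoal : 1 / (l : ℝ) / 2 = 1 / (2 * (l : ℝ)) := by
      field_simp
    rw [hgoal]
    rcases lt_trichotomy j (m + 1) with hj | hj | hj
    · refine (old_small hR m j (by omega) k hk).trans ?_
      have h1 : (l : ℝ) ≤ m := by exact_mod_cast (by omega : l ≤ m)
      rw [div_le_div_iff₀ (by positivity) (by positivity)]
      linarith
    · rw [hj]
      exact hk1
    · have h1 : ‖c j‖ ≤ ‖c (m + 1 + 1)‖ := norm_anti hR (by omega : m + 1 + 1 ≤ j)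
      have hγ : 0 < ‖c (m + 1 + 1)‖ := norm_pos_iff.2 (hc0 _)
      refine (norm_zsmul_le' k (c j)).trans ?_
      have h2 : |(k : ℝ)| * ‖c j‖ ≤ 1 / (2 * (l : ℝ) * ‖c (m + 1 + 1)‖) * ‖c (m + 1 + 1)‖ :=
        mul_le_mul hk2 h1 (norm_nonneg _) (by positivity)
      have h3 : 1 / (2 * (l : ℝ) * ‖c (m + 1 + 1)‖) * ‖c (m + 1 + 1)‖ = 1 / (2 * (l : ℝ)) := by
        field_simp
      linarith
  choose! y hy z hz hz' using hex
  have hstep : ∀ n, max n0 l + 1 ≤ n → y (n + 1) = y n := by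
    intro n hn
    apply rigid hc0 hR n l hl1 (by omega) (y n) (y (n + 1)) (hy n hn) (hy (n + 1) (by omega))
      (z n - z (n + 1))
    · rw [AddCircle.coe_sub, hz n hn, hz (n + 1) (by omega)]
      abel
    · have h1 := hz' n hn
      have h2 := hz' (n + 1) (by omega)
      have h3 : ‖c (n + 1 + 1)‖ ≤ ‖c (n + 1)‖ := norm_anti hR (by omega : n + 1 ≤ n + 1 + 1)
      have h4 := abs_sub (z n) (z (n + 1))
      linarith
  have hall : ∀ n, max n0 l + 1 ≤ n → y n = y (max n0 l + 1) := by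
    intro n hn
    induction n, hn using Nat.le_induction with
    | base => rfl
    | succ n hn ih => rw [hstep n hn, ih]
  have hxy : x = y (max n0 l + 1) := by
    rw [← sub_eq_zero, ← norm_le_zero_iff]
    have h1 : Tendsto (fun n => ‖c (n + 1)‖ / 16) atTop (𝓝 0) := by
      have h2 := ((tendsto_add_atTop_iff_nat 1).2 (tendsto_zero hR)).norm.div_const 16
      rw [norm_zero, zero_div] at h2
      exact h2
    apply ge_of_tendsto h1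
    filter_upwards [eventually_ge_atTop (max n0 l + 1)] with n hn
    rw [← hall n hn, ← hz n hn]
    exact (norm_coe_le _).trans (hz' n hn)
  rw [hxy]
  apply ch_of_quarter h {k | k ∈ D (max n0 l + 1) ∧ ‖k • c (max n0 l + 1)‖ ≤ 1 / (2 * (l : ℝ))}
  · filter_upwards [hD _, hc _ (1 / (2 * (l : ℝ))) (by positivity)] with k h1 h2
    exact ⟨h1, h2⟩
  · intro k hk
    refine (hy _ le_rfl k hk.1 hk.2).trans ?_
    have h1 : (1 : ℝ) ≤ l := by exact_mod_cast hl1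
    rw [div_le_div_iff₀ (by positivity) (by positivity)]
    linarith

end main

end Pool.Agent.X155.Mack
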