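import Pool.Agent.X155.MackCore

/-!
No metrizable precompact group topology on `ℤ` is a Mackey topology.
-/

set_option autoImplicit false

open Filter Topology Set
open scoped BoundedContinuousFunction

namespace Pool.Agent.X155.Mack

section general

variable {A : Type} [AddCommGroup A] [TopologicalSpace A] [IsTopologicalAddGroup A]

theorem gen_add (U : Set A) (hU : U ∈ 𝓝 (0 : A)) :
    ∀ᶠ k in 𝓝 (0 : A), ∀ᶠ k' in 𝓝 (0 : A), k + k' ∈ U := by
  have h1 : Tendsto (fun p : A × A => p.1 + p.2) (𝓝 0 ×ˢ 𝓝 0) (𝓝 0) := by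
    have h2 := (continuous_add (M := A)).tendsto (0, 0)
    rw [nhds_prod_eq, add_zero] at h2
    exact h2
  have h3 : ∀ᶠ p in (𝓝 (0 : A) ×ˢ 𝓝 (0 : A)), p.1 + p.2 ∈ U := h1 hU
  exact h3.curry

theorem gen_mul (U : Set A) (hU : U ∈ 𝓝 (0 : A)) (j : ℤ) :
    ∀ᶠ k in 𝓝 (0 : A), j • k ∈ U := by
  have h1 := (continuous_zsmul (G := A) j).tendsto 0
  rw [zsmul_zero] at h1
  exact h1 hU

theorem gen_cont (χ : A →+ T1) :
    Continuous χ ↔ ∀ ε : ℝ, 0 < ε → ∀ᶠ k in 𝓝 (0 : A), ‖χ k‖ ≤ ε := by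
  constructor
  · intro h ε hε
    have h1 : Tendsto (fun k => ‖χ k‖) (𝓝 0) (𝓝 0) := by
      have h2 := (h.tendsto 0).norm
      rw [map_zero, norm_zero] at h2
      exact h2
    exact h1.eventually_le_const hε
  · intro h
    apply continuous_of_continuousAt_zero
    rw [ContinuousAt, map_zero, tendsto_zero_iff_norm_tendsto_zero]
    apply tendsto_order.2 ⟨fun a ha => ?_, fun a ha => ?_⟩
    · exact Eventually.of_forall (fun k => ha.trans_le (norm_nonneg _))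
    · filter_upwards [h (a / 2) (by linarith)] with k hk
      linarith

end general

/-- a group topology on `ℤ` -/
def IsGroupTop (t : TopologicalSpace ℤ) : Prop := @IsTopologicalAddGroup ℤ t _

/-- `𝕋₊ = [-1/4, 1/4] + ℤ` in the circle `𝕋 = ℝ/ℤ` -/
def TPlus : Set (AddCircle (1 : ℝ)) := {x | ∃ r : ℝ, |r| ≤ 1 / 4 ∧ (r : AddCircle (1 : ℝ)) = x}

/-- a `t`-continuous homomorphism `ℤ → 𝕋` -/
def IsChar (t : TopologicalSpace ℤ) (χ : ℤ →+ AddCircle (1 : ℝ)) : Prop :=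
  @Continuous ℤ (AddCircle (1 : ℝ)) t _ χ

/-- precompact: for every neighbourhood `U` of `0` there is a finite `F` with `F + U = ℤ` -/
def IsPrecompact (t : TopologicalSpace ℤ) : Prop :=
  ∀ U ∈ @nhds ℤ t 0, ∃ F : Finset ℤ, ∀ x : ℤ, ∃ f ∈ F, ∃ u ∈ U, x = f + u

/-- quasi-convex sets -/
def IsQuasiConvex (t : TopologicalSpace ℤ) (A : Set ℤ) : Prop :=
  ∀ x, x ∉ A → ∃ χ : ℤ →+ AddCircle (1 : ℝ), IsChar t χ ∧ (∀ a ∈ A, χ a ∈ TPlus) ∧ χ x ∉ TPlus

/-- locally quasi-convex: `0` has a neighbourhood base of quasi-convex sets -/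
def IsLocallyQuasiConvex (t : TopologicalSpace ℤ) : Prop :=
  ∀ U ∈ @nhds ℤ t 0, ∃ V ∈ @nhds ℤ t 0, V ⊆ U ∧ IsQuasiConvex t V

/-- compatible topologies: they have the same continuous characters -/
def IsCompatible (t t' : TopologicalSpace ℤ) : Prop :=
  ∀ χ : ℤ →+ AddCircle (1 : ℝ), IsChar t χ ↔ IsChar t' χ

theorem mem_TPlus (x : T1) : x ∈ TPlus ↔ ‖x‖ ≤ 1 / 4 := by
  constructor
  · rintro ⟨r, hr, rfl⟩
    exact (norm_coe_le r).trans hr
  · intro h
    obtain ⟨r, hr, hr'⟩ := exists_rep x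
    exact ⟨r, by rw [hr']; exact h, hr⟩

/-- the character `k ↦ k • x` -/
def chr (x : T1) : ℤ →+ T1 := zmultiplesHom T1 x

theorem chr_apply (x : T1) (k : ℤ) : chr x k = k • x := rfl

theorem char_eq (χ : ℤ →+ T1) : χ = chr (χ 1) := by
  ext
  rw [chr_apply, one_zsmul]

theorem char_eq' (χ : ℤ →+ T1) (k : ℤ) : χ k = k • χ 1 := by
  conv_lhs => rw [char_eq χ, chr_apply]

variable {t : TopologicalSpace ℤ}

theorem isChar_iff (ht : IsGroupTop t) (χ : ℤ →+ T1) : IsChar t χ ↔ Ch (@nhds ℤ t 0) (χ 1) := by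
  have h1 := @gen_cont ℤ _ t ht χ
  refine h1.trans ?_
  constructor
  · intro h ε hε
    filter_upwards [h ε hε] with k hk
    rwa [char_eq' χ k] at hk
  · intro h ε hε
    filter_upwards [h ε hε] with k hk
    rwa [char_eq' χ k]

theorem isChar_chr (ht : IsGroupTop t) (x : T1) : IsChar t (chr x) ↔ Ch (@nhds ℤ t 0) x := by
  rw [isChar_iff ht, chr_apply, one_zsmul]

theorem nf (ht : IsGroupTop t) (hp : IsPrecompact t) : NF (@nhds ℤ t 0) where
  zero := fun U hU => @mem_of_mem_nhds ℤ t 0 U hU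
  mul := fun U hU j => by
    have h1 := @gen_mul ℤ _ t ht U hU j
    filter_upwards [h1] with k hk
    rwa [smul_eq_mul] at hk
  add := fun U hU => @gen_add ℤ _ t ht U hU
  gap := fun U hU => by
    obtain ⟨F, hF⟩ := hp U hU
    obtain ⟨M, hM⟩ : ∃ M : ℕ, ∀ f ∈ F, |f| ≤ M := by
      refine ⟨∑ f ∈ F, f.natAbs, fun f hf => ?_⟩
      have h1 : f.natAbs ≤ ∑ f ∈ F, f.natAbs :=
        Finset.single_le_sum (f := fun f => f.natAbs) (fun _ _ => Nat.zero_le _) hf
      rw [Int.abs_eq_natAbs]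
      exact_mod_cast h1
    refine ⟨2 * M, fun a => ?_⟩
    obtain ⟨f, hf, u, hu, hfu⟩ := hF (a + M)
    have h1 := abs_le.1 (hM f hf)
    refine ⟨u, hu, ?_, ?_⟩
    · omega
    · push_cast
      omega

theorem ch_sub {𝒩 : Filter ℤ} {x y : T1} (hx : Ch 𝒩 x) (hy : Ch 𝒩 y) : Ch 𝒩 (x - y) := by
  intro ε hε
  filter_upwards [hx (ε / 2) (by linarith), hy (ε / 2) (by linarith)] with k h1 h2
  rw [zsmul_sub]
  have := norm_sub_le (k • x) (k • y)
  linarith

theorem ch_zero {𝒩 : Filter ℤ} : Ch 𝒩 0 := by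
  intro ε hε
  exact Eventually.of_forall (fun k => by rw [zsmul_zero, norm_zero]; exact hε.le)

/-- the continuous characters as a subgroup -/
def dual (𝒩 : Filter ℤ) : AddSubgroup T1 where
  carrier := {x | Ch 𝒩 x}
  zero_mem' := ch_zero
  add_mem' := by
    intro x y hx hy
    have h1 : x + y = x - (0 - y) := by abel
    show Ch 𝒩 (x + y)
    rw [h1]
    exact ch_sub hx (ch_sub ch_zero hy)
  neg_mem' := by
    intro x hx
    have h1 : -x = 0 - x := by abel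
    show Ch 𝒩 (-x)
    rw [h1]
    exact ch_sub ch_zero hx

theorem exists_small (ht : IsGroupTop t) (hT : @T2Space ℤ t) (hq : IsLocallyQuasiConvex t)
    (η : ℝ) (hη : 0 < η) : ∃ c, Ch (@nhds ℤ t 0) c ∧ c ≠ 0 ∧ ‖c‖ < η := by
  by_contra hcon
  push Not at hcon
  have hfin : Finite (dual (@nhds ℤ t 0)) := by
    obtain ⟨s, _, hs, hcov⟩ := finite_cover_balls_of_compact (isCompact_univ (X := T1))
      (half_pos hη)
    have hc : ∀ x : dual (@nhds ℤ t 0), ∃ y : s, dist (x : T1) y < η / 2 := by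
      intro x
      have h1 := hcov (Set.mem_univ (x : T1))
      simp only [Set.mem_iUnion, Metric.mem_ball] at h1
      obtain ⟨y, hy, h2⟩ := h1
      exact ⟨⟨y, hy⟩, h2⟩
    choose f hf using hc
    have hs' : Finite s := hs.to_subtype
    apply Finite.of_injective f
    intro x y hxy
    by_contra hne
    have h1 := hf x
    have h2 := hf y
    rw [← hxy] at h2
    have h3 : dist (x : T1) (y : T1) < η := by
      have h4 := dist_triangle_right (x : T1) (y : T1) (f x : T1)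
      linarith
    rw [dist_eq_norm] at h3
    have h4 := hcon ((x : T1) - y) (ch_sub x.2 y.2)
      (sub_ne_zero.2 (fun h => hne (Subtype.ext h)))
    linarith
  have hcard : 0 < Nat.card (dual (@nhds ℤ t 0)) := Nat.card_pos
  have hM : ((Nat.card (dual (@nhds ℤ t 0)) : ℕ) : ℤ) ≠ 0 := by exact_mod_cast hcard.ne'
  have hU : {((Nat.card (dual (@nhds ℤ t 0)) : ℕ) : ℤ)}ᶜ ∈ @nhds ℤ t 0 := by
    have h1 : @T1Space ℤ t := @T2Space.t1Space ℤ t hT
    have h2 : @IsClosed ℤ t {((Nat.card (dual (@nhds ℤ t 0)) : ℕ) : ℤ)} :=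
      @isClosed_singleton ℤ t h1 _
    exact @IsOpen.mem_nhds ℤ t 0 _ (@IsClosed.isOpen_compl ℤ t _ h2) (fun h => hM h.symm)
  obtain ⟨V, _, hVU, hVq⟩ := hq _ hU
  obtain ⟨χ, hχ, -, hχM⟩ := hVq _ (fun h => hVU h rfl)
  apply hχM
  have h1 : χ 1 ∈ dual (@nhds ℤ t 0) := (isChar_iff ht χ).1 hχ
  have h2 : Nat.card (dual (@nhds ℤ t 0)) • (⟨χ 1, h1⟩ : dual (@nhds ℤ t 0)) = 0 := by
    exact card_nsmul_eq_zero'
  have h3 : Nat.card (dual (@nhds ℤ t 0)) • χ 1 = 0 := congrArg Subtype.val h2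
  rw [char_eq' χ, natCast_zsmul, h3, mem_TPlus, norm_zero]
  norm_num

/-! ### the finer topology -/

/-- the sequence as a bounded function -/
noncomputable def seqB (c : ℕ → T1) : ℕ →ᵇ T1 :=
  BoundedContinuousFunction.ofNormedAddCommGroupDiscrete c (1 / 2) (fun n => by
    have h1 : ‖c n‖ ≤ |(1 : ℝ)| / 2 := AddCircle.norm_le_half_period 1 one_ne_zero
    rwa [abs_one] at h1)

theorem seqB_apply (c : ℕ → T1) (n : ℕ) : seqB c n = c n := rfl

/-- the homomorphism defining uniform convergence on the sequence -/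
noncomputable def Psi (c : ℕ → T1) : ℤ →+ (ℕ →ᵇ T1) := zmultiplesHom _ (seqB c)

theorem Psi_apply (c : ℕ → T1) (k : ℤ) (n : ℕ) : Psi c k n = k • c n := by
  have h1 : Psi c k = k • seqB c := rfl
  rw [h1]
  rfl

/-- the finer topology -/
noncomputable abbrev fine (t : TopologicalSpace ℤ) (c : ℕ → T1) : TopologicalSpace ℤ :=
  t ⊓ TopologicalSpace.induced (Psi c) inferInstance

theorem fine_le (t : TopologicalSpace ℤ) (c : ℕ → T1) : fine t c ≤ t := inf_le_left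

theorem nhds_fine (t : TopologicalSpace ℤ) (c : ℕ → T1) :
    @nhds ℤ (fine t c) 0 = @nhds ℤ t 0 ⊓ comap (Psi c) (𝓝 0) := by
  have h1 : @nhds ℤ (fine t c) 0 =
      @nhds ℤ t 0 ⊓ @nhds ℤ (TopologicalSpace.induced (Psi c) inferInstance) 0 := nhds_inf
  rw [h1, nhds_induced, map_zero]

theorem norm_Psi_le (c : ℕ → T1) (k : ℤ) (ε : ℝ) (hε : 0 ≤ ε) :
    ‖Psi c k‖ ≤ ε ↔ ∀ j, ‖k • c j‖ ≤ ε := by
  rw [BoundedContinuousFunction.norm_le hε]
  simp only [Psi_apply]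

theorem fine_mem (t : TopologicalSpace ℤ) (c : ℕ → T1) (O : Set ℤ) (hO : O ∈ @nhds ℤ t 0)
    (ε : ℝ) (hε : 0 < ε) : {k | k ∈ O ∧ ∀ j, ‖k • c j‖ ≤ ε} ∈ @nhds ℤ (fine t c) 0 := by
  rw [nhds_fine]
  have h1 : {k | ∀ j, ‖k • c j‖ ≤ ε} ∈ comap (Psi c) (𝓝 0) := by
    refine ⟨Metric.closedBall 0 ε, Metric.closedBall_mem_nhds 0 hε, ?_⟩
    intro k hk
    rw [Set.mem_preimage, mem_closedBall_zero_iff, norm_Psi_le c k ε hε.le] at hk
    exact hk
  exact Filter.inter_mem_inf hO h1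

theorem fine_mem' (t : TopologicalSpace ℤ) (c : ℕ → T1) (V : Set ℤ)
    (hV : V ∈ @nhds ℤ (fine t c) 0) : ∃ O ∈ @nhds ℤ t 0, ∃ ε : ℝ, 0 < ε ∧
      ∀ k ∈ O, (∀ j, ‖k • c j‖ ≤ ε) → k ∈ V := by
  rw [nhds_fine, Filter.mem_inf_iff_superset] at hV
  obtain ⟨O, hO, W, hW, hOW⟩ := hV
  obtain ⟨W', hW', hsub⟩ := hW
  obtain ⟨δ, hδ, hball⟩ := Metric.mem_nhds_iff.1 hW'
  refine ⟨O, hO, δ / 2, by linarith, fun k hk hk' => hOW ⟨hk, hsub (hball ?_)⟩⟩
  rw [mem_ball_zero_iff]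
  have := (norm_Psi_le c k (δ / 2) (by linarith)).2 hk'
  linarith

theorem fine_group (ht : IsGroupTop t) (c : ℕ → T1) : IsGroupTop (fine t c) :=
  topologicalAddGroup_inf ht (topologicalAddGroup_induced (Psi c))

theorem fine_T2 (hT : @T2Space ℤ t) (c : ℕ → T1) : @T2Space ℤ (fine t c) := by
  refine @T2Space.mk ℤ (fine t c) ?_
  intro x y hxy
  obtain ⟨u, v, hu, hv, hx, hy, huv⟩ := @t2_separation ℤ t hT x y hxy
  exact ⟨u, v, fine_le t c u hu, fine_le t c v hv, hx, hy, huv⟩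

theorem fine_qc (ht : IsGroupTop t) (hq : IsLocallyQuasiConvex t) (c : ℕ → T1)
    (hc : ∀ n, Ch (@nhds ℤ t 0) (c n)) : IsLocallyQuasiConvex (fine t c) := by
  intro U hU
  obtain ⟨O, hO, ε, hε, hsub⟩ := fine_mem' t c U hU
  obtain ⟨V, hV, hVO, hVq⟩ := hq O hO
  obtain ⟨M, hM⟩ := exists_nat_gt (1 / ε)
  have hM0 : (0 : ℝ) < M := (one_div_pos.2 hε).trans hM
  have hM1 : 1 ≤ M := by exact_mod_cast hM0
  have hMε : 1 / (4 * (M : ℝ)) ≤ ε := by
    rw [div_le_iff₀ (by positivity)]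
    rw [div_lt_iff₀ hε] at hM
    nlinarith
  refine ⟨{k | k ∈ V ∧ ∀ j, ∀ i : ℕ, 1 ≤ i → i ≤ M → ‖i • (k • c j)‖ ≤ 1 / 4}, ?_, ?_, ?_⟩
  · filter_upwards [fine_mem t c V hV (1 / (4 * (M : ℝ))) (by positivity)] with k hk
    refine ⟨hk.1, fun j i _ hi => ?_⟩
    have h1 := norm_zsmul_le' (i : ℤ) (k • c j)
    rw [natCast_zsmul] at h1
    refine h1.trans ?_
    have h2 : |((i : ℤ) : ℝ)| ≤ M := by
      rw [Int.cast_natCast, Nat.abs_cast]
      exact_mod_cast hi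
    have h3 := mul_le_mul h2 (hk.2 j) (norm_nonneg _) hM0.le
    have h4 : (M : ℝ) * (1 / (4 * M)) = 1 / 4 := by
      field_simp
    linarith
  · intro k hk
    apply hsub k (hVO hk.1)
    intro j
    exact (norm_of_mult (k • c j) M hM1 (hk.2 j)).trans hMε
  · intro x hx
    by_cases hxV : x ∈ V
    · have h1 : ∃ j, ∃ i : ℕ, 1 ≤ i ∧ i ≤ M ∧ 1 / 4 < ‖i • (x • c j)‖ := by
        by_contra hcon
        push Not at hcon
        exact hx ⟨hxV, hcon⟩
      obtain ⟨j, i, hi1, hi2, hij⟩ := h1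
      refine ⟨chr ((i : ℤ) • c j), ?_, ?_, ?_⟩
      · have h2 : IsChar t (chr ((i : ℤ) • c j)) := by
          rw [isChar_chr ht]
          exact (dual (@nhds ℤ t 0)).zsmul_mem (hc j) i
        exact continuous_le_dom (fine_le t c) h2
      · intro a ha
        rw [mem_TPlus, chr_apply, smul_comm, natCast_zsmul]
        exact ha.2 j i hi1 hi2
      · rw [mem_TPlus, chr_apply, smul_comm, natCast_zsmul]
        exact not_le.2 hij
    · obtain ⟨χ, h1, h2, h3⟩ := hVq x hxV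
      exact ⟨χ, continuous_le_dom (fine_le t c) h1, fun a ha => h2 a ha.1, h3⟩

theorem not_le (ht : IsGroupTop t) (hp : IsPrecompact t) (c : ℕ → T1)
    (hc0 : ∀ n, c n ≠ 0) (hlim : Tendsto c atTop (𝓝 0)) : ¬ t ≤ fine t c := by
  intro hle
  have h1 : {k | k ∈ (Set.univ : Set ℤ) ∧ ∀ j, ‖k • c j‖ ≤ 1 / 4} ∈ @nhds ℤ t 0 := by
    have h2 := fine_mem t c Set.univ univ_mem (1 / 4) (by norm_num)
    exact nhds_mono hle h2
  obtain ⟨G, hG⟩ := (nf ht hp).gap _ h1
  have hG0 : (0 : ℝ) < (G : ℝ) + 1 := by positivity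
  have h2 : ∀ᶠ n in atTop, ‖c n‖ ≤ 1 / (8 * ((G : ℝ) + 1)) := by
    have h3 := hlim.norm
    rw [norm_zero] at h3
    exact h3.eventually_le_const (by positivity)
  obtain ⟨n, hn⟩ := h2.exists
  obtain ⟨z, hz, hz'⟩ := exists_rep (c n)
  apply hc0 n
  have h3 : z = 0 := by
    apply eq_zero_of_gap hG z
    · rw [hz']
      rw [le_div_iff₀ (by positivity)] at hn
      linarith
    · intro k hk _
      rw [hz]
      exact hk.2 n
  rw [← hz, h3]
  rfl

/-- Every metrizable precompact locally quasi-convex group topology on `ℤ` has a strictly finer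
compatible one. -/
theorem exists_finer (ht : IsGroupTop t) (hm : @TopologicalSpace.MetrizableSpace ℤ t)
    (hp : IsPrecompact t) (hq : IsLocallyQuasiConvex t) :
    ∃ t' : TopologicalSpace ℤ, IsGroupTop t' ∧ @T2Space ℤ t' ∧ IsLocallyQuasiConvex t' ∧
      IsCompatible t t' ∧ t' < t := by
  have hT : @T2Space ℤ t := @TopologicalSpace.t2Space_of_metrizableSpace ℤ t hm
  have hcg : (@nhds ℤ t 0).IsCountablyGenerated := by
    have h1 : @FirstCountableTopology ℤ t := by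
      have h2 := @TopologicalSpace.PseudoMetrizableSpace.firstCountableTopology ℤ t
        (@TopologicalSpace.MetrizableSpace.toPseudoMetrizableSpace ℤ t hm)
      exact h2
    exact @FirstCountableTopology.nhds_generated_countable ℤ t h1 0
  obtain ⟨U, hU⟩ := (@nhds ℤ t 0).exists_antitone_basis
  have hnf := nf ht hp
  obtain ⟨D, c, hD, hc, hc0, hR⟩ := exists_seq hnf (exists_small ht hT hq) U
    (fun n => hU.toHasBasis.mem_of_mem trivial)
  have hlim := tendsto_zero hR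
  refine ⟨fine t c, fine_group ht c, fine_T2 hT c, fine_qc ht hq c hc, ?_, ?_⟩
  · intro χ
    constructor
    · intro h
      exact continuous_le_dom (fine_le t c) h
    · intro h
      rw [isChar_iff ht]
      have h1 : Ch (@nhds ℤ (fine t c) 0) (χ 1) := (isChar_iff (fine_group ht c) χ).1 h
      obtain ⟨O, hO, ε, hε, hsub⟩ := fine_mem' t c _ (h1 (1 / 4) (by norm_num))
      refine main hnf (U := U) ?_ hD hc hc0 hR (χ 1) O hO ε hε hsub
      intro V hV
      obtain ⟨n, _, hn⟩ := hU.toHasBasis.mem_iff.1 hV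
      exact ⟨n, fun m hm => (hU.antitone hm).trans hn⟩
  · exact lt_of_le_not_ge (fine_le t c) (not_le ht hp c hc0 hlim)

end Pool.Agent.X155.Mack
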