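import Pool.Agent.X155.McGroup

/-! Every cyclic subgroup of the group is subnormal. -/

namespace Pool.Agent.X155.McPoly

open MvPolynomial

section General

variable {H : Type*} [Group H]

lemma step_norm {g x : H} {N : Subgroup H} (h1 : x * g * x⁻¹ ∈ Subgroup.zpowers g ⊔ N)
    (h2 : ∀ n ∈ N, x * n * x⁻¹ ∈ Subgroup.zpowers g ⊔ N) :
    ∀ y ∈ Subgroup.zpowers g ⊔ N, x * y * x⁻¹ ∈ Subgroup.zpowers g ⊔ N := by
  have : Subgroup.zpowers g ⊔ N ≤ (Subgroup.zpowers g ⊔ N).comap (MulAut.conj x).toMonoidHom := by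
    apply sup_le
    · rw [Subgroup.zpowers_le]
      simpa [Subgroup.mem_comap] using h1
    · intro n hn
      simpa [Subgroup.mem_comap] using h2 n hn
  intro y hy
  have := this hy
  simpa [Subgroup.mem_comap] using this

/-- one step of a subnormal chain -/
lemma subn_step {g : H} {N M : Subgroup H} (hNM : M ≤ N)
    (hg : ∀ m ∈ M, g * m * g⁻¹ ∈ M) (hg' : ∀ m ∈ M, g⁻¹ * m * g ∈ M)
    (hx : ∀ x ∈ N, ∀ m ∈ M, x * m * x⁻¹ ∈ M) (hc : ∀ x ∈ N, x * g * x⁻¹ * g⁻¹ ∈ M)
    (h : (Subgroup.zpowers g ⊔ N).IsSubnormal) : (Subgroup.zpowers g ⊔ M).IsSubnormal := by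
  refine Subgroup.IsSubnormal.step _ (Subgroup.zpowers g ⊔ N) (sup_le_sup_left hNM _) h ?_
  rw [Subgroup.normal_subgroupOf_iff_le_normalizer (sup_le_sup_left hNM _)]
  have hgm : g ∈ Subgroup.zpowers g ⊔ M :=
    (le_sup_left : Subgroup.zpowers g ≤ _) (Subgroup.mem_zpowers g)
  have hMle : ∀ m ∈ M, m ∈ Subgroup.zpowers g ⊔ M := fun m hm =>
    (le_sup_right : M ≤ _) hm
  have key : ∀ x : H, (∀ y ∈ Subgroup.zpowers g ⊔ M, x * y * x⁻¹ ∈ Subgroup.zpowers g ⊔ M) →
      (∀ y ∈ Subgroup.zpowers g ⊔ M, x⁻¹ * y * x⁻¹⁻¹ ∈ Subgroup.zpowers g ⊔ M) →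
      x ∈ Subgroup.normalizer ((Subgroup.zpowers g ⊔ M : Subgroup H) : Set H) := by
    intro x h1 h2
    rw [Subgroup.mem_normalizer_iff]
    intro y
    refine ⟨h1 y, fun hy => ?_⟩
    have := h2 _ hy
    simpa [mul_assoc] using this
  apply sup_le
  · rw [Subgroup.zpowers_le]
    apply key
    · exact step_norm (by simpa using hgm) (fun n hn => hMle _ (hg n hn))
    · exact step_norm (by simpa using hgm) (fun n hn => hMle _ (by simpa using hg' n hn))
  · intro x hxN
    have aux : ∀ x ∈ N, ∀ y ∈ Subgroup.zpowers g ⊔ M, x * y * x⁻¹ ∈ Subgroup.zpowers g ⊔ M := by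
      intro x hxN
      apply step_norm
      · have h1 := hMle _ (hc x hxN)
        have h2 := Subgroup.mul_mem _ h1 hgm
        simpa using h2
      · intro n hn
        exact hMle _ (hx x hxN n hn)
    exact key x (aux x hxN) (aux _ (N.inv_mem hxN))

end General

/-- rank function attached to a finite set -/
def rk (T : Finset ℚ) (c : ℚ) : ℕ := (T.filter (· ≤ c)).card

lemma rk_mono (T : Finset ℚ) {c d : ℚ} (h : c ≤ d) : rk T c ≤ rk T d :=
  Finset.card_le_card (fun x hx => by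
    rw [Finset.mem_filter] at hx ⊢; exact ⟨hx.1, hx.2.trans h⟩)

lemma rk_lt {T : Finset ℚ} {c d : ℚ} (h : c < d) (hd : d ∈ T) : rk T c + 1 ≤ rk T d := by
  apply Finset.card_lt_card
  rw [Finset.ssubset_iff_of_subset]
  · exact ⟨d, by simp [hd], by simp [h]⟩
  · intro x hx
    rw [Finset.mem_filter] at hx ⊢; exact ⟨hx.1, hx.2.trans h.le⟩

lemma rk_le (T : Finset ℚ) (c : ℚ) : rk T c ≤ T.card := Finset.card_filter_le _ _

/-- the flag -/
noncomputable def W (T : Finset ℚ) (i : ℕ) : Submodule (ZMod 2) P := V {c | i ≤ rk T c}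

lemma W_anti (T : Finset ℚ) {i j : ℕ} (h : i ≤ j) : W T j ≤ W T i :=
  V_mono (fun c (hc : j ≤ rk T c) => (h.trans hc : i ≤ rk T c))

lemma W_bot {T : Finset ℚ} {i : ℕ} (h : T.card < i) : W T i = ⊥ := by
  rw [W, V, Submodule.span_eq_bot]
  rintro _ ⟨c, hc, rfl⟩
  have h1 : i ≤ rk T c := hc
  have := rk_le T c
  omega

lemma W_inv {T : Finset ℚ} {u : A} (hu : u ∈ E) {i : ℕ} {w : P} (hw : w ∈ W T i) : u w ∈ W T i := by
  obtain ⟨T', hT'⟩ := exists_supp hu
  refine map_V hT' ?_ hw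
  intro s hs t _ hst
  have hs : i ≤ rk T s := hs
  exact hs.trans (rk_mono T hst.le)

lemma W_step {T : Finset ℚ} {u : A} (hu : Supp T u) {i : ℕ} {w : P} (hw : w ∈ W T i) :
    u w - w ∈ W T (i + 1) := by
  have : W T i ≤ (W T (i + 1)).comap (u.toLinearMap - LinearMap.id) := by
    apply Submodule.span_le.2
    rintro _ ⟨s, hs, rfl⟩
    have hs : i ≤ rk T s := hs
    change u (X s) - X s ∈ W T (i + 1)
    refine V_mono ?_ (hu.2 s)
    rintro t ⟨ht, hst⟩
    have := rk_lt hst ht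
    change i + 1 ≤ rk T t
    omega
  exact this hw

/-- condition for the `j`-th term of the stability series -/
def Mc (T : Finset ℚ) (j : ℕ) (u : A) : Prop := ∀ i, ∀ w ∈ W T i, u w - w ∈ W T (i + j)

lemma Mc.mul' {T : Finset ℚ} {j : ℕ} {u v : A} (hu : Mc T j u) (hv : Mc T j v) (hv' : v ∈ E) :
    Mc T j (u * v) := by
  intro i w hw
  have h1 : (u * v) w - w = (u (v w) - v w) + (v w - w) := by
    rw [AlgEquiv.mul_apply]; ring
  rw [h1]
  exact Submodule.add_mem _ (hu i _ (W_inv hv' hw)) (hv i w hw)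

lemma Mc.inv' {T : Finset ℚ} {j : ℕ} {u : A} (hu : Mc T j u) (hu' : u ∈ E) : Mc T j u⁻¹ := by
  intro i w hw
  have h0 : u (u⁻¹ w) = w := by
    rw [← AlgEquiv.mul_apply, mul_inv_cancel]; rfl
  have h1 : u⁻¹ w - w = -(u (u⁻¹ w) - u⁻¹ w) := by rw [h0]; ring
  rw [h1]
  exact Submodule.neg_mem _ (hu i _ (W_inv (E.inv_mem hu') hw))

lemma Mc.sq {T : Finset ℚ} {j : ℕ} {u : A} (hu : Mc T j u) : Mc T (j + j) (u * u) := by
  intro i w hw
  have h1 : (u * u) w - w = u (u w - w) - (u w - w) := by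
    rw [AlgEquiv.mul_apply, map_sub]
    linear_combination two_add (u w) - two_add w
  rw [h1, ← add_assoc]
  exact hu _ _ (hu i w hw)

lemma Mc.comm {T : Finset ℚ} {j k : ℕ} {u e : A} (hu : Mc T j u) (he : Mc T k e) (hu' : u ∈ E)
    (he' : e ∈ E) : Mc T (j + k) (u * e * u⁻¹ * e⁻¹) := by
  intro i w hw
  set y := u⁻¹ (e⁻¹ w) with hy
  have hyW : y ∈ W T i := W_inv (E.inv_mem hu') (W_inv (E.inv_mem he') hw)
  have h0 : e (u y) = w := by
    rw [hy, ← AlgEquiv.mul_apply, ← AlgEquiv.mul_apply, ← AlgEquiv.mul_apply]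
    have : e * u * u⁻¹ * e⁻¹ = 1 := by group
    rw [this]; rfl
  have h1 : (u * e * u⁻¹ * e⁻¹) w - w =
      (u (e y - y) - (e y - y)) - (e (u y - y) - (u y - y)) := by
    simp only [AlgEquiv.mul_apply, map_sub]
    rw [← hy, h0]; ring
  rw [h1]
  refine Submodule.sub_mem _ ?_ ?_
  · have := hu _ _ (he i y hyW)
    rwa [add_assoc, add_comm k j] at this
  · have := he _ _ (hu i y hyW)
    rwa [add_assoc] at this

/-- `u - 1` as an endomorphism -/
noncomputable def Du (u : A) : Module.End (ZMod 2) P := u.toLinearMap - LinearMap.id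

lemma Du_apply (u : A) (p : P) : Du u p = u p - p := rfl

namespace G

/-- terms of the upper chain -/
noncomputable def K (T : Finset ℚ) (j : ℕ) : Subgroup G where
  carrier := {x | Mc T j x.u}
  mul_mem' {x y} hx hy := Mc.mul' hx hy y.u.2
  one_mem' := by
    intro i w _
    simp [one_u]
  inv_mem' {x} hx := Mc.inv' hx x.u.2

lemma mem_K {T : Finset ℚ} {j : ℕ} {x : G} : x ∈ K T j ↔ Mc T j x.u := Iff.rfl

lemma K_normal (T : Finset ℚ) (j : ℕ) : (K T j).Normal := by
  constructor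
  intro n hn g
  rw [mem_K] at *
  intro i w hw
  have h1 : ((g * n * g⁻¹).u : A) = g.u * n.u * (g.u : A)⁻¹ := rfl
  rw [h1]
  set y := (g.u : A)⁻¹ w with hy
  have hyW : y ∈ W T i := W_inv (E.inv_mem g.u.2) hw
  have h0 : (g.u : A) y = w := by
    rw [hy, ← AlgEquiv.mul_apply, mul_inv_cancel]; rfl
  have h2 : (g.u * n.u * (g.u : A)⁻¹ : A) w - w = (g.u : A) ((n.u : A) y - y) := by
    rw [AlgEquiv.mul_apply, AlgEquiv.mul_apply, ← hy, map_sub, h0]
  rw [h2]
  exact W_inv g.u.2 (hn i y hyW)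

lemma K_anti (T : Finset ℚ) (j : ℕ) : K T (j + 1) ≤ K T j := by
  intro x hx i w hw
  exact W_anti T (by omega) (hx i w hw)

/-- terms of the lower chain -/
noncomputable def B (u : A) (n : ℕ) : Subgroup G where
  carrier := {x | x.u = 1 ∧ ∃ p, x.v = (Du u ^ n) p}
  mul_mem' := by
    rintro x y ⟨hx, p, hp⟩ ⟨hy, q, hq⟩
    refine ⟨by rw [mul_u, hx, hy, one_mul], p + q, ?_⟩
    rw [mul_v, hx, map_add, ← hp, ← hq]; rfl
  one_mem' := ⟨rfl, 0, by rw [map_zero]; rfl⟩
  inv_mem' := by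
    rintro x ⟨hx, p, hp⟩
    refine ⟨by rw [inv_u, hx, inv_one], -p, ?_⟩
    rw [inv_v, hx, map_neg, ← hp, inv_one]; rfl

lemma mem_B {u : A} {n : ℕ} {x : G} : x ∈ B u n ↔
    x.u = 1 ∧ ∃ p, x.v = (Du u ^ n) p := Iff.rfl

theorem baer (g : G) : (Subgroup.zpowers g).IsSubnormal := by
  obtain ⟨T, hT⟩ := exists_supp g.u.2
  have hg1 : Mc T 1 g.u := fun i w hw => W_step hT hw
  -- upper chain
  have up : ∀ j, (Subgroup.zpowers g ⊔ K T (j + 1)).IsSubnormal := by
    intro j
    induction j with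
    | zero =>
      have : Subgroup.zpowers g ⊔ K T 1 = K T 1 := by
        rw [sup_eq_right, Subgroup.zpowers_le]; exact hg1
      rw [this]
      exact (K_normal T 1).isSubnormal
    | succ j ih =>
      refine subn_step (K_anti T (j + 1)) ?_ ?_ ?_ ?_ ih
      · exact fun m hm => (K_normal T _).conj_mem m hm g
      · intro m hm
        have := (K_normal T _).conj_mem m hm g⁻¹
        simpa using this
      · exact fun x _ m hm => (K_normal T _).conj_mem m hm x
      · intro x hx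
        exact Mc.comm (k := 1) hx hg1 x.u.2 g.u.2
  -- finite order
  have hpow : ∀ k, Mc T (2 ^ k) ((g.u : A) ^ (2 ^ k)) := by
    intro k
    induction k with
    | zero => simpa using hg1
    | succ k ih =>
      have := Mc.sq ih
      rw [← pow_add] at this
      rw [pow_succ, mul_two]; exact this
  have hone : (g.u : A) ^ (2 ^ (T.card + 1)) = 1 := by
    apply ext_X
    intro c
    have h1 := hpow (T.card + 1) 0 (X c) (X_mem_V (Nat.zero_le _))
    rw [W_bot, Submodule.mem_bot, sub_eq_zero] at h1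
    · exact h1
    · rw [zero_add]
      exact (Nat.lt_succ_self _).trans (Nat.lt_two_pow_self)
  -- nilpotency of `g.u - 1`
  have hD : ∀ k (p : P), (Du g.u ^ (2 ^ k)) p =
      ((g.u : A) ^ (2 ^ k)) p - p := by
    intro k
    induction k with
    | zero => intro p; simp [Du_apply]
    | succ k ih =>
      intro p
      rw [pow_succ 2 k, mul_two, pow_add, pow_add, Module.End.mul_apply, ih, ih,
        AlgEquiv.mul_apply, map_sub]
      linear_combination two_add p - two_add (((g.u : A) ^ 2 ^ k) p)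
  -- lower chain
  have hB0 : B g.u 0 = K T (T.card + 1) := by
    ext x
    rw [mem_B, mem_K]
    constructor
    · rintro ⟨hx, -⟩ i w _
      rw [hx]; simp
    · intro hx
      refine ⟨Subtype.ext (ext_X fun c => ?_), x.v, by simp⟩
      have h1 := hx 0 (X c) (X_mem_V (Nat.zero_le _))
      rw [W_bot (by omega), Submodule.mem_bot, sub_eq_zero] at h1
      exact h1
  have down : ∀ n, (Subgroup.zpowers g ⊔ B g.u n).IsSubnormal := by
    intro n
    induction n with
    | zero => rw [hB0]; exact up _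
    | succ n ih =>
      set D : Module.End (ZMod 2) P := Du g.u with hDdef
      have hcomm : ∀ p : P, (g.u : A) ((D ^ (n + 1)) p) = (D ^ (n + 1)) ((g.u : A) p) := by
        have hc : Commute D ((g.u : A).toLinearMap : Module.End (ZMod 2) P) := by
          rw [hDdef, Du]
          exact (Commute.refl _).sub_left (Commute.one_left _)
        intro p
        have := (hc.pow_left (n + 1)).eq
        exact (LinearMap.congr_fun this p).symm
      have hcomm' : ∀ p : P, (g.u : A)⁻¹ ((D ^ (n + 1)) p) = (D ^ (n + 1)) ((g.u : A)⁻¹ p) := by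
        intro p
        have h1 := hcomm ((g.u : A)⁻¹ p)
        have h2 : (g.u : A) ((g.u : A)⁻¹ p) = p := by
          rw [← AlgEquiv.mul_apply, mul_inv_cancel]; rfl
        rw [h2] at h1
        rw [← h1, ← AlgEquiv.mul_apply, inv_mul_cancel]; rfl
      refine subn_step ?_ ?_ ?_ ?_ ?_ ih
      · rintro x ⟨hx, p, hp⟩
        exact ⟨hx, D p, by rw [hp, pow_succ, Module.End.mul_apply]⟩
      · rintro m ⟨hm, p, hp⟩
        refine ⟨by rw [mul_u, mul_u, inv_u, hm, mul_one, mul_inv_cancel], (g.u : A) p, ?_⟩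
        have hm' : m = t m.v := by ext1 <;> simp [t_v, t_u, hm]
        rw [hm', conj_t, t_v, hp, hcomm]
      · rintro m ⟨hm, p, hp⟩
        refine ⟨by rw [mul_u, mul_u, inv_u, hm, mul_one, inv_mul_cancel], (g.u : A)⁻¹ p, ?_⟩
        have hm' : m = t m.v := by ext1 <;> simp [t_v, t_u, hm]
        have h1 : g⁻¹ * m * g = g⁻¹ * m * (g⁻¹)⁻¹ := by rw [inv_inv]
        rw [h1, hm', conj_t, t_v, hp, ← hcomm']; rfl
      · rintro x ⟨hx, q, hq⟩ m ⟨hm, p, hp⟩
        refine ⟨by rw [mul_u, mul_u, inv_u, hm, mul_one, mul_inv_cancel], p, ?_⟩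
        have hm' : m = t m.v := by ext1 <;> simp [t_v, t_u, hm]
        rw [hm', conj_t, t_v, hx, hp]; rfl
      · rintro x ⟨hx, q, hq⟩
        have hx' : x = t x.v := by ext1 <;> simp [t_v, t_u, hx]
        rw [hx', comm_t]
        refine ⟨rfl, -q, ?_⟩
        rw [t_v, hq, map_neg, pow_succ', Module.End.mul_apply, Du_apply]
        ring
  have hfin : B g.u (2 ^ (T.card + 1)) = ⊥ := by
    rw [eq_bot_iff]
    rintro x ⟨hx, p, hp⟩
    rw [hD, hone] at hp
    rw [Subgroup.mem_bot]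
    ext1
    · rw [hp, one_v]; simp
    · rw [hx, one_u]
  have := down (2 ^ (T.card + 1))
  rwa [hfin, sup_bot_eq] at this

end G

end Pool.Agent.X155.McPoly
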