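import Pool.Agent.X155.McPoly

/-! The semidirect product of the polynomial ring by the McLain group. -/

namespace Pool.Agent.X155.McPoly

open MvPolynomial
open scoped commutatorElement

/-- The group `P ⋊ E`. -/
@[ext]
structure G where
  /-- translation part -/
  v : P
  /-- linear part -/
  u : E

namespace G

noncomputable instance : Mul G := ⟨fun x y => ⟨x.v + (x.u : A) y.v, x.u * y.u⟩⟩
noncomputable instance : One G := ⟨⟨0, 1⟩⟩
noncomputable instance : Inv G := ⟨fun x => ⟨-((x.u⁻¹ : E) : A) x.v, x.u⁻¹⟩⟩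

lemma mul_v (x y : G) : (x * y).v = x.v + (x.u : A) y.v := rfl
lemma mul_u (x y : G) : (x * y).u = x.u * y.u := rfl
lemma one_v : (1 : G).v = 0 := rfl
lemma one_u : (1 : G).u = 1 := rfl
lemma inv_v (x : G) : (x⁻¹).v = -((x.u⁻¹ : E) : A) x.v := rfl
lemma inv_u (x : G) : (x⁻¹).u = x.u⁻¹ := rfl

noncomputable instance : Group G := Group.ofLeftAxioms
  (by
    intro x y z
    ext1
    · simp only [mul_v, mul_u, Subgroup.coe_mul, AlgEquiv.mul_apply, map_add, add_assoc]
    · simp only [mul_u, mul_assoc])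
  (by
    intro x
    ext1
    · simp [mul_v, one_v, one_u]
    · simp [mul_u, one_u])
  (by
    intro x
    ext1
    · simp [mul_v, inv_v, inv_u, one_v]
    · simp [mul_u, inv_u, one_u])

/-- the copy of `P` -/
noncomputable def t (p : P) : G := ⟨p, 1⟩

/-- the copy of `E` -/
noncomputable def e (u : E) : G := ⟨0, u⟩

lemma t_v (p : P) : (t p).v = p := rfl
lemma t_u (p : P) : (t p).u = 1 := rfl
lemma e_v (u : E) : (e u).v = 0 := rfl
lemma e_u (u : E) : (e u).u = u := rfl

lemma t_mul (p q : P) : t p * t q = t (p + q) := by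
  ext1 <;> simp [mul_v, mul_u, t_v, t_u]

lemma t_inv (p : P) : (t p)⁻¹ = t (-p) := by
  ext1 <;> simp [inv_v, inv_u, t_v, t_u]

lemma t_zero : t 0 = 1 := rfl

lemma e_mul (u v : E) : e u * e v = e (u * v) := by
  ext1 <;> simp [mul_v, mul_u, e_v, e_u]

lemma e_one : e 1 = 1 := rfl

lemma e_inv (u : E) : (e u)⁻¹ = e u⁻¹ := by
  ext1 <;> simp [inv_v, inv_u, e_v, e_u]

lemma eq_t_mul_e (g : G) : g = t g.v * e g.u := by
  ext1 <;> simp [mul_v, mul_u, e_v, e_u, t_v, t_u]

/-- commutator of a translation with an arbitrary element -/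
lemma comm_t (p : P) (g : G) : t p * g * (t p)⁻¹ * g⁻¹ = t (p - (g.u : A) p) := by
  ext1
  · simp only [mul_v, mul_u, inv_v, inv_u, t_v, t_u, one_mul, Subgroup.coe_one,
      AlgEquiv.one_apply, inv_one, mul_one, map_neg]
    have : (g.u : A) (((g.u⁻¹ : E) : A) g.v) = g.v := by
      rw [← AlgEquiv.mul_apply, ← Subgroup.coe_mul, mul_inv_cancel]; rfl
    rw [this]; ring
  · simp [mul_u, inv_u, t_u]

lemma conj_t (p : P) (g : G) : g * t p * g⁻¹ = t ((g.u : A) p) := by
  ext1
  · simp only [mul_v, mul_u, inv_v, inv_u, t_v, t_u, mul_one, map_neg]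
    have : (g.u : A) (((g.u⁻¹ : E) : A) g.v) = g.v := by
      rw [← AlgEquiv.mul_apply, ← Subgroup.coe_mul, mul_inv_cancel]; rfl
    rw [this]; ring
  · simp [mul_u, inv_u, t_u]

/-- `tau` as an element of `E` -/
noncomputable def ta (a b : ℚ) (h : a < b) : E := ⟨tau a b h, tau_mem h⟩

lemma ta_coe {a b : ℚ} (h : a < b) : ((ta a b h : E) : A) = tau a b h := rfl

lemma ta_inv {a b : ℚ} (h : a < b) : (ta a b h)⁻¹ = ta a b h := Subtype.ext (tau_inv h)

/-- the centralizer normal closure of any element is everything -/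
theorem pseudo (g : G) : Subgroup.normalClosure (Subgroup.centralizer {g} : Set G) = ⊤ := by
  classical
  obtain ⟨T₀, hT₀⟩ := exists_supp g.u.2
  set T := T₀ ∪ g.v.vars with hT
  set N := Subgroup.normalClosure (Subgroup.centralizer {g} : Set G) with hN
  have hnorm : N.Normal := Subgroup.normalClosure_normal
  -- generators with indices outside `T`
  have h1 : ∀ a b (h : a < b), a ∉ T → b ∉ T → e (ta a b h) ∈ N := by
    intro a b h ha hb
    apply Subgroup.subset_normalClosure
    rw [SetLike.mem_coe, Subgroup.mem_centralizer_singleton_iff]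
    simp only [hT, Finset.mem_union, not_or] at ha hb
    ext1
    · simp only [mul_v, e_v, e_u, map_zero, add_zero, zero_add]
      exact tau_fix h ha.2
    · simp only [mul_u, e_u]
      exact Subtype.ext (tau_comm h hT₀ ha.1 hb.1)
  have hrel : ∀ a b c (h : a < b) (h' : b < c), e (ta a c (h.trans h')) =
      e (ta a b h) * e (ta b c h') * (e (ta a b h))⁻¹ * (e (ta b c h'))⁻¹ := by
    intro a b c h h'
    rw [e_inv, e_inv, ta_inv, ta_inv, e_mul, e_mul, e_mul]
    congr 1
    exact Subtype.ext (tau_tau h h').symm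
  have hr1 : ∀ a b c (h : a < b) (h' : b < c), e (ta b c h') ∈ N → e (ta a c (h.trans h')) ∈ N := by
    intro a b c h h' hm
    rw [hrel a b c h h']
    exact N.mul_mem (hnorm.conj_mem _ hm _) (N.inv_mem hm)
  have hr2 : ∀ a b c (h : a < b) (h' : b < c), e (ta a b h) ∈ N → e (ta a c (h.trans h')) ∈ N := by
    intro a b c h h' hm
    rw [hrel a b c h h', mul_assoc, mul_assoc]
    refine N.mul_mem hm ?_
    rw [← mul_assoc]
    exact hnorm.conj_mem _ (N.inv_mem hm) _
  have havoid : ∀ a b : ℚ, a < b → ∃ c, a < c ∧ c < b ∧ c ∉ T := by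
    intro a b h
    obtain ⟨c, hc, hc'⟩ := (Set.Ioo_infinite h).exists_notMem_finset T
    exact ⟨c, hc.1, hc.2, hc'⟩
  have h2 : ∀ a b (h : a < b), e (ta a b h) ∈ N := by
    intro a b h
    obtain ⟨c, hac, hcb, hc⟩ := havoid a b h
    obtain ⟨d, hcd, hdb, hd⟩ := havoid c b hcb
    exact hr2 a d b (hac.trans hcd) hdb (hr1 a c d hac hcd (h1 c d hcd hc hd))
  have h3 : ∀ u : E, e u ∈ N := by
    rintro ⟨u, hu⟩
    have : ∀ u (hu : u ∈ E), e ⟨u, hu⟩ ∈ N := by
      intro u hu
      induction hu using Subgroup.closure_induction with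
      | mem x hx =>
        obtain ⟨a, b, h, rfl⟩ := hx
        exact h2 a b h
      | one => exact N.one_mem
      | mul x y hx hy h h' =>
        have := N.mul_mem h h'
        rwa [e_mul] at this
      | inv x hx h =>
        have := N.inv_mem h
        rwa [e_inv] at this
    exact this u hu
  have h4 : ∀ p : P, t p ∈ N := by
    intro p
    induction p using MvPolynomial.induction_on with
    | C a =>
      apply Subgroup.subset_normalClosure
      rw [SetLike.mem_coe, Subgroup.mem_centralizer_singleton_iff]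
      ext1
      · simp only [mul_v, t_v, t_u, Subgroup.coe_one, AlgEquiv.one_apply]
        have : (g.u : A) (C a) = C a := (g.u : A).commutes a
        rw [this, add_comm]
      · simp [mul_u, t_u]
    | add p q hp hq =>
      rw [← t_mul]; exact N.mul_mem hp hq
    | mul_X p b _ =>
      obtain ⟨a, hab, ha⟩ := (Set.Iio_infinite b).exists_notMem_finset p.vars
      have hab : a < b := hab
      have hc : t (p * X a) * e (ta a b hab) * (t (p * X a))⁻¹ * (e (ta a b hab))⁻¹ ∈ N :=
        N.mul_mem (hnorm.conj_mem _ (h3 _) _) (N.inv_mem (h3 _))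
      rw [comm_t, e_u, ta_coe, map_mul, tau_fix hab ha, tau_self] at hc
      have : p * X a - p * (X a + X b) = -(p * X b) := by ring
      rw [this, ← t_inv] at hc
      exact (N.inv_mem_iff).1 hc
  rw [eq_top_iff]
  intro x _
  rw [eq_t_mul_e x]
  exact N.mul_mem (h4 _) (h3 _)

/-- Every nilpotent normal subgroup consists of translations. -/
theorem nilp (N : Subgroup G) (hN : N.Normal) (hnil : Group.IsNilpotent N) (g : G) (hg : g ∈ N) :
    g.u = 1 := by
  classical
  by_contra hne
  obtain ⟨n, hn⟩ := (Subgroup.isNilpotent_iff_lowerCentralSeries N).1 hnil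
  obtain ⟨a, ha⟩ : ∃ a, (g.u : A) (X a) ≠ X a := by
    by_contra hcon
    push Not at hcon
    exact hne (Subtype.ext (ext_X (v := 1) hcon))
  obtain ⟨T₀, hT₀⟩ := exists_supp g.u.2
  -- the key step
  have step : ∀ (k : ℕ) (L : Subgroup G) (L' : Subgroup G),
      (∀ x ∈ L, ∀ y ∈ N, ⁅x, y⁆ ∈ L') →
      (∃ (T : Finset ℚ) (h : P), h ≠ 0 ∧ ∀ f : P, (∀ c ∈ f.vars, c ∉ T) → t (h * f) ∈ L) →
      (∃ (T : Finset ℚ) (h : P), h ≠ 0 ∧ ∀ f : P, (∀ c ∈ f.vars, c ∉ T) → t (h * f) ∈ L') := by
    rintro - L L' hL ⟨T, h, hh, hf⟩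
    by_cases hcase : ∃ y ∈ N, (y.u : A) h ≠ h
    · obtain ⟨y, hy, hyh⟩ := hcase
      obtain ⟨T₁, hT₁⟩ := exists_supp y.u.2
      refine ⟨T ∪ T₁, h - (y.u : A) h, fun h0 => hyh (sub_eq_zero.1 h0).symm, fun f hff => ?_⟩
      have h1 := hL _ (hf f (fun c hc hcT => hff c hc (Finset.mem_union_left _ hcT))) y hy
      rw [commutatorElement_def, comm_t, map_mul,
        fix_of_disj hT₁ (fun c hc hcT => hff c hc (Finset.mem_union_right _ hcT))] at h1
      rw [sub_mul]; exact h1
    · push Not at hcase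
      obtain ⟨b, hba, hb⟩ := (Set.Iio_infinite a).exists_notMem_finset (T ∪ T₀)
      have hba : b < a := hba
      rw [Finset.mem_union, not_or] at hb
      -- conjugate of `g`
      set y : G := e (ta b a hba) * g * (e (ta b a hba))⁻¹ with hy
      have hyN : y ∈ N := hN.conj_mem _ hg _
      have hyu : (y.u : A) = tau b a hba * g.u * tau b a hba := by
        rw [hy, mul_u, mul_u, inv_u, e_u, ta_inv]; rfl
      have hyX : (y.u : A) (X b) ≠ X b := by
        rw [hyu, AlgEquiv.mul_apply, AlgEquiv.mul_apply, tau_self, map_add, map_add, hT₀.1 b hb.2,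
          tau_self]
        have h2 : (g.u : A) (X a) = ((g.u : A) (X a) - X a) + X a := by ring
        have h3 : tau b a hba ((g.u : A) (X a)) = (g.u : A) (X a) := by
          rw [h2, map_add, tau_ne hba hba.ne', tau_fix hba]
          intro h4
          exact hb.2 (vars_V (hT₀.2 a) b h4).1
        rw [h3]
        intro h4
        apply ha
        have h5 := two_add (X a)
        linear_combination h4 - h5
      obtain ⟨T₁, hT₁⟩ := exists_supp y.u.2
      refine ⟨T ∪ T₁, h * (X b - (y.u : A) (X b)), mul_ne_zero hh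
        (fun h0 => hyX (sub_eq_zero.1 h0).symm), fun f hff => ?_⟩
      have h1 := hL _ (hf (X b * f) ?_) y hyN
      · rw [commutatorElement_def, comm_t, map_mul, map_mul, hcase y hyN,
          fix_of_disj hT₁ (fun c hc hcT => hff c hc (Finset.mem_union_right _ hcT))] at h1
        have h6 : h * (X b - (y.u : A) (X b)) * f = h * (X b * f) - h * ((y.u : A) (X b) * f) := by
          ring
        rw [h6]; exact h1
      · intro c hc hcT
        rcases Finset.mem_union.1 (vars_mul _ _ hc) with h7 | h7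
        · rw [vars_X, Finset.mem_singleton] at h7
          exact hb.1 (h7 ▸ hcT)
        · exact hff c h7 (Finset.mem_union_left _ hcT)
  have key : ∀ k, ∃ (T : Finset ℚ) (h : P), h ≠ 0 ∧
      ∀ f : P, (∀ c ∈ f.vars, c ∉ T) → t (h * f) ∈ N.lowerCentralSeries k := by
    intro k
    induction k with
    | zero =>
      refine step 0 ⊤ N (fun x _ y hy => ?_) ⟨∅, 1, one_ne_zero, fun f _ => Subgroup.mem_top _⟩
      rw [commutatorElement_def]
      exact N.mul_mem (hN.conj_mem _ hy _) (N.inv_mem hy)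
    | succ k ih =>
      exact step 0 _ _ (fun x hx y hy => Subgroup.commutator_mem_commutator hx hy) ih
  obtain ⟨T, h, hh, hf⟩ := key n
  have := hf 1 (by simp)
  rw [hn, Subgroup.mem_bot, mul_one] at this
  apply hh
  have := congrArg G.v this
  simpa [t_v, one_v] using this

end G

end Pool.Agent.X155.McPoly
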