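import Mathlib

/-! McLain group over `ℚ` acting on a polynomial ring in characteristic two. -/

namespace Pool.Agent.X155.McPoly

open MvPolynomial

/-- Polynomials over `𝔽₂` in variables indexed by the rationals. -/
abbrev P := MvPolynomial ℚ (ZMod 2)

/-- Algebra automorphisms of `P`. -/
abbrev A := P ≃ₐ[ZMod 2] P

lemma two_add (p : P) : p + p = 0 := by
  have : (2 : P) = 0 := by
    have h : (C (2 : ZMod 2) : P) = 0 := by
      rw [show (2 : ZMod 2) = 0 from rfl, C_0]
    have h' : (C (2 : ZMod 2) : P) = 2 := map_ofNat C 2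
    rw [← h', h]
  rw [← two_mul, this, zero_mul]

/-- substitution `X a ↦ X a + X b`. -/
noncomputable def sb (a b : ℚ) : P →ₐ[ZMod 2] P :=
  aeval (fun c => if c = a then X a + X b else X c)

lemma sb_self (a b : ℚ) : sb a b (X a) = X a + X b := by simp [sb]

lemma sb_ne {a b c : ℚ} (h : c ≠ a) : sb a b (X c) = X c := by simp [sb, h]

lemma sb_sb {a b : ℚ} (h : a < b) : (sb a b).comp (sb a b) = AlgHom.id _ _ := by
  apply MvPolynomial.algHom_ext
  intro c
  by_cases hc : c = a
  · subst hc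
    simp only [AlgHom.comp_apply, sb_self, map_add, sb_ne h.ne', AlgHom.id_apply]
    rw [add_assoc, two_add, add_zero]
  · simp [sb_ne hc]

/-- The automorphism `X a ↦ X a + X b`. -/
noncomputable def tau (a b : ℚ) (h : a < b) : A :=
  AlgEquiv.ofAlgHom (sb a b) (sb a b) (sb_sb h) (sb_sb h)

lemma tau_self {a b : ℚ} (h : a < b) : tau a b h (X a) = X a + X b := sb_self a b

lemma tau_ne {a b c : ℚ} (h : a < b) (hc : c ≠ a) : tau a b h (X c) = X c := sb_ne hc

lemma tau_inv {a b : ℚ} (h : a < b) : (tau a b h)⁻¹ = tau a b h := rfl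

lemma ext_X {u v : A} (h : ∀ c, u (X c) = v (X c)) : u = v := by
  apply AlgEquiv.ext
  intro p
  have : (u : P →ₐ[ZMod 2] P) = (v : P →ₐ[ZMod 2] P) := MvPolynomial.algHom_ext (fun c => h c)
  exact DFunLike.congr_fun this p

/-- The McLain group. -/
noncomputable def E : Subgroup A := Subgroup.closure {u | ∃ a b, ∃ h : a < b, u = tau a b h}

lemma tau_mem {a b : ℚ} (h : a < b) : tau a b h ∈ E :=
  Subgroup.subset_closure ⟨a, b, h, rfl⟩

/-- span of the variables in a set -/
noncomputable def V (S : Set ℚ) : Submodule (ZMod 2) P := Submodule.span (ZMod 2) (X '' S)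

lemma X_mem_V {S : Set ℚ} {c : ℚ} (h : c ∈ S) : (X c : P) ∈ V S :=
  Submodule.subset_span ⟨c, h, rfl⟩

lemma V_mono {S T : Set ℚ} (h : S ⊆ T) : V S ≤ V T := Submodule.span_mono (Set.image_mono h)

/-- `u` is supported on `T` and is upper triangular. -/
def Supp (T : Finset ℚ) (u : A) : Prop :=
  (∀ c ∉ T, u (X c) = X c) ∧ ∀ c, u (X c) - X c ∈ V {t | t ∈ T ∧ c < t}

lemma Supp.mono {T T' : Finset ℚ} {u : A} (h : T ⊆ T') (hu : Supp T u) : Supp T' u :=
  ⟨fun c hc => hu.1 c (fun h' => hc (h h')), fun c => V_mono (fun t (ht : t ∈ T ∧ c < t) => (⟨h ht.1, ht.2⟩ : t ∈ T' ∧ c < t)) (hu.2 c)⟩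

/-- invariance of spans of up-closed sets -/
lemma map_V {u : A} {T : Finset ℚ} (hu : Supp T u) {S : Set ℚ}
    (hS : ∀ s ∈ S, ∀ t ∈ T, s < t → t ∈ S) {w : P} (hw : w ∈ V S) : u w ∈ V S := by
  have : V S ≤ (V S).comap u.toLinearMap := by
    apply Submodule.span_le.2
    rintro _ ⟨s, hs, rfl⟩
    have h1 := hu.2 s
    have h2 : u (X s) = (u (X s) - X s) + X s := by ring
    change u (X s) ∈ V S
    rw [h2]
    exact Submodule.add_mem _ (V_mono (fun t ht => hS s hs t ht.1 ht.2) h1) (X_mem_V hs)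
  exact this hw

lemma supp_one : Supp ∅ (1 : A) := ⟨fun _ _ => rfl, fun c => by simp⟩

lemma supp_tau {a b : ℚ} (h : a < b) : Supp {a, b} (tau a b h) := by
  refine ⟨fun c hc => tau_ne h (by rintro rfl; simp at hc), fun c => ?_⟩
  by_cases hc : c = a
  · subst hc
    rw [tau_self]
    have : (X c + X b - X c : P) = X b := by ring
    rw [this]
    exact X_mem_V (by simp [h])
  · rw [tau_ne h hc]; simp

lemma Supp.mul' {T : Finset ℚ} {u v : A} (hu : Supp T u) (hv : Supp T v) : Supp T (u * v) := by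
  refine ⟨fun c hc => ?_, fun c => ?_⟩
  · rw [AlgEquiv.mul_apply, hv.1 c hc, hu.1 c hc]
  · have h1 : (u * v) (X c) - X c = u (v (X c) - X c) + (u (X c) - X c) := by
      rw [AlgEquiv.mul_apply, map_sub]; ring
    rw [h1]
    refine Submodule.add_mem _ (map_V hu ?_ (hv.2 c)) (hu.2 c)
    intro s hs t ht hst
    exact ⟨ht, hs.2.trans hst⟩

lemma exists_supp {u : A} (hu : u ∈ E) : ∃ T, Supp T u := by
  induction hu using Subgroup.closure_induction_left with
  | one => exact ⟨∅, supp_one⟩
  | mul_left x hx y hy ih =>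
    obtain ⟨a, b, h, rfl⟩ := hx
    obtain ⟨T, hT⟩ := ih
    exact ⟨{a, b} ∪ T, ((supp_tau h).mono Finset.subset_union_left).mul'
      (hT.mono Finset.subset_union_right)⟩
  | inv_mul_cancel x hx y hy ih =>
    obtain ⟨a, b, h, rfl⟩ := hx
    rw [tau_inv]
    obtain ⟨T, hT⟩ := ih
    exact ⟨{a, b} ∪ T, ((supp_tau h).mono Finset.subset_union_left).mul'
      (hT.mono Finset.subset_union_right)⟩

lemma fix_of_disj {T : Finset ℚ} {u : A} (hu : Supp T u) {p : P} (hp : ∀ c ∈ p.vars, c ∉ T) :
    u p = p := by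
  have := MvPolynomial.hom_congr_vars (f₁ := (u : P →+* P)) (f₂ := RingHom.id P) (p₁ := p)
    (p₂ := p) ?_ ?_ rfl
  · simpa using this
  · apply RingHom.ext
    intro a
    exact u.commutes a
  · intro i hi _
    simpa using hu.1 i (hp i hi)

lemma tau_fix {a b : ℚ} (h : a < b) {p : P} (hp : a ∉ p.vars) : tau a b h p = p := by
  have := MvPolynomial.hom_congr_vars (f₁ := (tau a b h : P →+* P)) (f₂ := RingHom.id P) (p₁ := p)
    (p₂ := p) ?_ ?_ rfl
  · simpa using this
  · apply RingHom.ext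
    intro a
    exact (tau _ _ h).commutes a
  · intro i hi _
    simpa using tau_ne h (fun h' => hp (h' ▸ hi))

lemma vars_V {S : Set ℚ} {w : P} (hw : w ∈ V S) : ∀ c ∈ w.vars, c ∈ S := by
  classical
  induction hw using Submodule.span_induction with
  | mem x hx =>
    obtain ⟨s, hs, rfl⟩ := hx
    intro c hc
    rw [vars_X] at hc
    simp at hc
    exact hc ▸ hs
  | zero => simp
  | add x y _ _ hx hy =>
    intro c hc
    rcases Finset.mem_union.1 (vars_add_subset x y hc) with h | h
    · exact hx c h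
    · exact hy c h
  | smul a x _ hx =>
    intro c hc
    apply hx c
    rw [smul_eq_C_mul] at hc
    have := vars_mul _ _ hc
    simpa using this

lemma tau_comm {a b : ℚ} (h : a < b) {T : Finset ℚ} {u : A} (hu : Supp T u) (ha : a ∉ T)
    (hb : b ∉ T) : tau a b h * u = u * tau a b h := by
  apply ext_X
  intro c
  rw [AlgEquiv.mul_apply, AlgEquiv.mul_apply]
  by_cases hc : c = a
  · subst hc
    rw [hu.1 c ha, tau_self, map_add, hu.1 c ha, hu.1 b hb]
  · rw [tau_ne h hc]
    have h1 : u (X c) = (u (X c) - X c) + X c := by ring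
    rw [h1, map_add, tau_ne h hc, tau_fix h]
    intro h2
    exact ha (vars_V (hu.2 c) a h2).1

lemma tau_tau {a b c : ℚ} (h : a < b) (h' : b < c) :
    tau a b h * tau b c h' * tau a b h * tau b c h' = tau a c (h.trans h') := by
  have hac := h.trans h'
  apply ext_X
  intro d
  simp only [AlgEquiv.mul_apply]
  by_cases hd : d = a
  · subst hd
    rw [tau_ne h' h.ne, tau_self, map_add, tau_ne h' h.ne, tau_self, map_add, tau_self, map_add,
      tau_ne h h.ne', tau_ne h hac.ne', tau_self]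
    have := two_add (X b)
    linear_combination this
  · by_cases hd' : d = b
    · subst hd'
      rw [tau_self, map_add, tau_ne h hd, tau_ne h hac.ne', map_add, tau_self,
        tau_ne h' h'.ne', tau_ne hac hd, add_assoc, two_add, add_zero, tau_ne h hd]
    · rw [tau_ne h' hd', tau_ne h hd, tau_ne h' hd', tau_ne h hd, tau_ne _ hd]

end Pool.Agent.X155.McPoly
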