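import Mathlib

/-! Dihedral groups of growing order spread over `ℤ²` along a parabola. -/

namespace Pool.Agent.X155.ParaDih

open DihedralGroup
open scoped commutatorElement

/-- The ambient group: `ℤ²` acting by shifts on functions with values in dihedral groups. -/
@[ext]
structure Amb where
  /-- the function part -/
  u : (n : ℕ) → ℤ × ℤ → DihedralGroup (2 ^ n)
  /-- the shift part -/
  k : ℤ × ℤ

namespace Amb

instance : Mul Amb := ⟨fun x y => ⟨fun n g => x.u n g * y.u n (g + x.k), x.k + y.k⟩⟩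
instance : One Amb := ⟨⟨fun _ _ => 1, 0⟩⟩
instance : Inv Amb := ⟨fun x => ⟨fun n g => (x.u n (g - x.k))⁻¹, -x.k⟩⟩

lemma mul_u (x y : Amb) (n : ℕ) (g : ℤ × ℤ) : (x * y).u n g = x.u n g * y.u n (g + x.k) := rfl
lemma mul_k (x y : Amb) : (x * y).k = x.k + y.k := rfl
lemma one_u (n : ℕ) (g : ℤ × ℤ) : (1 : Amb).u n g = 1 := rfl
lemma one_k : (1 : Amb).k = 0 := rfl
lemma inv_u (x : Amb) (n : ℕ) (g : ℤ × ℤ) : (x⁻¹).u n g = (x.u n (g - x.k))⁻¹ := rfl
lemma inv_k (x : Amb) : (x⁻¹).k = -x.k := rfl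

lemma ext' {x y : Amb} (h : ∀ n g, x.u n g = y.u n g) (h' : x.k = y.k) : x = y := by
  ext1
  · funext n g; exact h n g
  · exact h'

instance : Group Amb := Group.ofLeftAxioms
  (by
    intro x y z
    apply ext'
    · intro n g; simp only [mul_u, mul_k, mul_assoc, add_assoc]
    · simp only [mul_k, add_assoc])
  (by
    intro x
    apply ext'
    · intro n g; simp only [mul_u, one_u, one_k, one_mul, add_zero]
    · simp only [mul_k, one_k, zero_add])
  (by
    intro x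
    apply ext'
    · intro n g
      simp only [mul_u, inv_u, inv_k, one_u, ← sub_eq_add_neg, inv_mul_cancel]
    · simp only [mul_k, inv_k, one_k, neg_add_cancel])

/-- the shift homomorphism -/
def kh : Amb →* Multiplicative (ℤ × ℤ) where
  toFun x := Multiplicative.ofAdd x.k
  map_one' := rfl
  map_mul' _ _ := rfl

lemma kh_apply (x : Amb) : kh x = Multiplicative.ofAdd x.k := rfl

lemma comm_k (x y : Amb) : (x * y * x⁻¹ * y⁻¹).k = 0 := by
  simp only [mul_k, inv_k]; abel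

lemma comm_u {x y : Amb} (hx : x.k = 0) (hy : y.k = 0) (n : ℕ) (g : ℤ × ℤ) :
    (x * y * x⁻¹ * y⁻¹).u n g = x.u n g * y.u n g * (x.u n g)⁻¹ * (y.u n g)⁻¹ := by
  simp only [mul_u, mul_k, inv_u, inv_k, hx, hy, add_zero, sub_zero, neg_zero]

lemma pow_u {x : Amb} (hx : x.k = 0) (n : ℕ) (g : ℤ × ℤ) (m : ℕ) :
    (x ^ m).u n g = (x.u n g) ^ m ∧ (x ^ m).k = 0 := by
  induction m with
  | zero => exact ⟨rfl, rfl⟩
  | succ m ih =>
    rw [pow_succ, pow_succ, mul_u, mul_k, ih.1, ih.2, hx]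
    simp

/-- functions -/
def A1 : Subgroup Amb where
  carrier := {x | x.k = 0}
  mul_mem' {x y} hx hy := by
    have hx : x.k = 0 := hx
    have hy : y.k = 0 := hy
    change x.k + y.k = 0
    rw [hx, hy, add_zero]
  one_mem' := rfl
  inv_mem' {x} hx := by
    have hx : x.k = 0 := hx
    change -x.k = 0
    rw [hx, neg_zero]

/-- functions whose values are rotations -/
def A2 : Subgroup Amb where
  carrier := {x | x.k = 0 ∧ ∀ n g, ∃ i, x.u n g = r i}
  mul_mem' {x y} hx hy := by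
    refine ⟨by rw [mul_k, hx.1, hy.1, add_zero], fun n g => ?_⟩
    obtain ⟨i, hi⟩ := hx.2 n g
    obtain ⟨j, hj⟩ := hy.2 n (g + x.k)
    exact ⟨i + j, by rw [mul_u, hi, hj, r_mul_r]⟩
  one_mem' := ⟨rfl, fun n g => ⟨0, rfl⟩⟩
  inv_mem' {x} hx := by
    refine ⟨by rw [inv_k, hx.1, neg_zero], fun n g => ?_⟩
    obtain ⟨i, hi⟩ := hx.2 n (g - x.k)
    exact ⟨-i, by rw [inv_u, hi, inv_r]⟩

lemma comm_dih {n : ℕ} (x y : DihedralGroup n) : ∃ i, x * y * x⁻¹ * y⁻¹ = r i := by
  rcases x with i | i <;> rcases y with j | j <;>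
  simp only [r_mul_r, r_mul_sr, sr_mul_r, sr_mul_sr, inv_r, inv_sr] <;> exact ⟨_, rfl⟩

instance : Group.IsSolvable Amb := by
  rw [Group.isSolvable_def]
  refine ⟨3, ?_⟩
  have h1 : derivedSeries Amb 1 ≤ A1 := by
    rw [derivedSeries_succ, Subgroup.commutator_le]
    intro x _ y _
    exact comm_k x y
  have h2 : derivedSeries Amb 2 ≤ A2 := by
    rw [derivedSeries_succ, Subgroup.commutator_le]
    intro x hx y hy
    refine ⟨comm_k x y, fun n g => ?_⟩
    rw [commutatorElement_def, comm_u (h1 hx) (h1 hy)]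
    exact comm_dih _ _
  rw [eq_bot_iff, derivedSeries_succ, Subgroup.commutator_le]
  intro x hx y hy
  rw [Subgroup.mem_bot, commutatorElement_def]
  apply ext'
  · intro n g
    rw [comm_u (h2 hx).1 (h2 hy).1]
    obtain ⟨i, hi⟩ := (h2 hx).2 n g
    obtain ⟨j, hj⟩ := (h2 hy).2 n g
    rw [hi, hj, r_mul_r, inv_r, inv_r, r_mul_r, r_mul_r, one_u, one_def]
    congr 1; ring
  · exact comm_k x y

/-- points of a parabola -/
def q (n : ℕ) : ℤ × ℤ := ((n : ℤ) + 1, ((n : ℤ) + 1) ^ 2)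

lemma q_ne (n : ℕ) : q n ≠ 0 := by
  intro h
  have := congrArg Prod.fst h
  simp only [q, Prod.fst_zero] at this
  omega

/-- shift by `g` -/
def T (g : ℤ × ℤ) : Amb := ⟨fun _ _ => 1, g⟩

/-- the involution -/
def a : Amb := ⟨fun n g => if g = 0 then sr 0 else if g = q n then sr 1 else 1, 0⟩

lemma a_zero (n : ℕ) : a.u n 0 = sr 0 := by simp [a]

lemma a_q (n : ℕ) : a.u n (q n) = sr 1 := by simp [a, q_ne]

lemma T_mul (g h : ℤ × ℤ) : T g * T h = T (g + h) := by
  apply ext'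
  · intro n x; simp [mul_u, T]
  · rfl

lemma T_inv (g : ℤ × ℤ) : (T g)⁻¹ = T (-g) := by
  apply ext'
  · intro n x; simp [inv_u, T]
  · rfl

/-- The group. -/
def G : Subgroup Amb := Subgroup.closure {T (1, 0), T (0, 1), a}

lemma T1_mem : T (1, 0) ∈ G := Subgroup.subset_closure (by simp)
lemma T2_mem : T (0, 1) ∈ G := Subgroup.subset_closure (by simp)
lemma a_mem : a ∈ G := Subgroup.subset_closure (by simp)

lemma T_nat_mem (m l : ℕ) : T ((m : ℤ), (l : ℤ)) ∈ G := by
  have h1 : ∀ m : ℕ, T ((m : ℤ), 0) ∈ G := by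
    intro m
    induction m with
    | zero => exact G.one_mem
    | succ m ih =>
      have := G.mul_mem ih T1_mem
      rw [T_mul] at this
      convert this using 2
      simp
  induction l with
  | zero => simpa using h1 m
  | succ l ih =>
    have := G.mul_mem ih T2_mem
    rw [T_mul] at this
    convert this using 2
    simp

lemma Tq_mem (n : ℕ) : T (q n) ∈ G := by
  have := T_nat_mem (n + 1) ((n + 1) ^ 2)
  convert this using 2
  simp [q]

/-- the control predicate -/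
def Star (S : Set (ℤ × ℤ)) (x : Amb) : Prop :=
  ∀ n g, (g ∉ S → x.u n g ∈ Subgroup.zpowers (sr 1 : DihedralGroup (2 ^ n))) ∧
    (g - q n ∉ S → x.u n g ∈ Subgroup.zpowers (sr 0 : DihedralGroup (2 ^ n)))

lemma Star.mono {S S' : Set (ℤ × ℤ)} {x : Amb} (h : S ⊆ S') (hx : Star S x) : Star S' x :=
  fun n g => ⟨fun hg => (hx n g).1 (fun h' => hg (h h')), fun hg => (hx n g).2 (fun h' => hg (h h'))⟩

lemma star_one : Star ∅ 1 := fun _ _ => ⟨fun _ => Subgroup.one_mem _, fun _ => Subgroup.one_mem _⟩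

lemma star_T (g : ℤ × ℤ) : Star ∅ (T g) :=
  fun _ _ => ⟨fun _ => Subgroup.one_mem _, fun _ => Subgroup.one_mem _⟩

lemma star_a : Star {0} a := by
  intro n g
  constructor
  · intro hg
    have hg : g ≠ 0 := hg
    simp only [a, if_neg hg]
    split_ifs
    · exact Subgroup.mem_zpowers _
    · exact Subgroup.one_mem _
  · intro hg
    have hg : g ≠ q n := fun h => hg (by simp [h])
    simp only [a, if_neg hg]
    split_ifs
    · exact Subgroup.mem_zpowers _
    · exact Subgroup.one_mem _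

lemma Star.mul {S S' P : Set (ℤ × ℤ)} {x y : Amb} (hx : Star S x) (hy : Star S' y)
    (h1 : S ⊆ P) (h2 : ∀ g, g + x.k ∈ S' → g ∈ P) : Star P (x * y) := by
  intro n g
  rw [mul_u]
  refine ⟨fun hg => Subgroup.mul_mem _ ((hx n g).1 fun h => hg (h1 h))
    ((hy n _).1 fun h => hg (h2 g h)), fun hg => Subgroup.mul_mem _ ((hx n g).2 fun h => hg (h1 h))
    ((hy n _).2 fun h => hg (h2 _ ?_))⟩
  rwa [show g - q n + x.k = g + x.k - q n by abel]

lemma Star.inv {S P : Set (ℤ × ℤ)} {x : Amb} (hx : Star S x)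
    (h2 : ∀ g, g - x.k ∈ S → g ∈ P) : Star P x⁻¹ := by
  intro n g
  rw [inv_u]
  refine ⟨fun hg => Subgroup.inv_mem _ ((hx n _).1 fun h => hg (h2 g h)),
    fun hg => Subgroup.inv_mem _ ((hx n _).2 fun h => hg (h2 _ ?_))⟩
  rwa [show g - q n - x.k = g - x.k - q n by abel]

lemma exists_star {x : Amb} (hx : x ∈ G) : ∃ S : Set (ℤ × ℤ), S.Finite ∧ Star S x := by
  induction hx using Subgroup.closure_induction with
  | mem x hx =>
    rcases hx with rfl | rfl | rfl
    · exact ⟨∅, Set.finite_empty, star_T _⟩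
    · exact ⟨∅, Set.finite_empty, star_T _⟩
    · exact ⟨{0}, Set.finite_singleton _, star_a⟩
  | one => exact ⟨∅, Set.finite_empty, star_one⟩
  | mul x y _ _ hx hy =>
    obtain ⟨S, hS, hSx⟩ := hx
    obtain ⟨S', hS', hSy⟩ := hy
    refine ⟨S ∪ (fun g => g - x.k) '' S', hS.union (hS'.image _),
      hSx.mul hSy Set.subset_union_left fun g hg => Or.inr ⟨_, hg, by simp⟩⟩
  | inv x _ hx =>
    obtain ⟨S, hS, hSx⟩ := hx
    exact ⟨(fun g => g + x.k) '' S, hS.image _, hSx.inv fun g hg => ⟨_, hg, by simp⟩⟩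

/-- each affine line contains finitely many parabola points -/
lemma line (d h : ℤ × ℤ) : ∀ᶠ n in Filter.atTop, ∀ i : ℤ, q n ≠ d + i • h := by
  obtain ⟨d1, d2⟩ := d
  obtain ⟨h1, h2⟩ := h
  rw [Filter.eventually_atTop]
  refine ⟨(|d1| + |h2| + |d2 * h1 - d1 * h2|).toNat, fun n hn i hi => ?_⟩
  have hm : |d1| + |h2| + |d2 * h1 - d1 * h2| < (n : ℤ) + 1 := by
    have := Int.self_le_toNat (|d1| + |h2| + |d2 * h1 - d1 * h2|)
    have : ((|d1| + |h2| + |d2 * h1 - d1 * h2|).toNat : ℤ) ≤ n := by exact_mod_cast hn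
    omega
  have e1 := congrArg Prod.fst hi
  have e2 := congrArg Prod.snd hi
  simp only [q, Prod.fst_add, Prod.snd_add, Prod.smul_fst, Prod.smul_snd, smul_eq_mul] at e1 e2
  set m : ℤ := (n : ℤ) + 1 with hmdef
  have p1 := abs_nonneg d1
  have p2 := abs_nonneg h2
  have p3 := abs_nonneg (d2 * h1 - d1 * h2)
  by_cases hh : h1 = 0
  · rw [hh, mul_zero, add_zero] at e1
    have := le_abs_self d1
    omega
  · have e3 : h1 * m ^ 2 = h2 * m + (d2 * h1 - d1 * h2) := by
      have : m ^ 2 * h1 - m * h2 = d2 * h1 - d1 * h2 := by rw [e2, e1]; ring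
      linarith
    have hm0 : 0 < m := by linarith
    have h4 : m ^ 2 ≤ |h1| * m ^ 2 := by
      have : 1 ≤ |h1| := Int.one_le_abs hh
      nlinarith [sq_nonneg m]
    have h5 : |h1| * m ^ 2 = |h1 * m ^ 2| := by
      rw [abs_mul, abs_of_nonneg (sq_nonneg m)]
    have h6 : |h1 * m ^ 2| ≤ |h2| * m + |d2 * h1 - d1 * h2| := by
      rw [e3]
      refine (abs_add_le _ _).trans ?_
      rw [abs_mul, abs_of_pos hm0]
    nlinarith

end Amb

end Pool.Agent.X155.ParaDih
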