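import Pool.Agent.X155.ParaDih

/-! Finite-exponent-by-nilpotent subgroups. -/

namespace Pool.Agent.X155.ParaDih

open DihedralGroup
open scoped commutatorElement

/-- finite-exponent-by-nilpotent groups -/
def EN (H : Type) [Group H] : Prop :=
  ∃ (K : Subgroup H) (_ : K.Normal), (∃ e : ℕ, 0 < e ∧ ∀ k ∈ K, k ^ e = 1) ∧
    Group.IsNilpotent (H ⧸ K)

lemma en_of_hom {H A : Type} [Group H] [CommGroup A] (φ : H →* A) (e : ℕ) (he : 0 < e)
    (h : ∀ x, φ x = 1 → x ^ e = 1) : EN H := by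
  refine ⟨φ.ker, inferInstance, ⟨e, he, fun k hk => h k hk⟩, ?_⟩
  have : Group.IsNilpotent A := inferInstance
  refine Subgroup.isNilpotent_of_ker_le_center (QuotientGroup.kerLift φ) ?_
  rw [(MonoidHom.ker_eq_bot_iff _).2 (QuotientGroup.kerLift_injective φ)]
  exact bot_le

namespace Amb

lemma zp_sq {n : ℕ} (i : ZMod n) {z : DihedralGroup n} (hz : z ∈ Subgroup.zpowers (sr i)) :
    z ^ 2 = 1 := by
  obtain ⟨k, rfl⟩ := Subgroup.mem_zpowers_iff.1 hz
  rw [← zpow_natCast, ← zpow_mul, mul_comm, zpow_mul, zpow_natCast]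
  rw [pow_two, sr_mul_self, one_zpow]

theorem en_closure (x y : G) (hxy : (x : Amb).k = (y : Amb).k) :
    EN (Subgroup.closure {x, y} : Subgroup G) := by
  obtain ⟨S, hS, hSx⟩ := exists_star x.2
  obtain ⟨S', hS', hSy⟩ := exists_star y.2
  set h := (x : Amb).k with hh
  set U := S ∪ S' with hU
  have hUf : U.Finite := hS.union hS'
  set P : Set (ℤ × ℤ) := {p | ∃ s ∈ U, ∃ i : ℤ, p = s + i • h} with hP
  have hinv : ∀ g (i : ℤ), g + i • h ∈ P → g ∈ P := by
    rintro g i ⟨s, hs, j, hj⟩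
    exact ⟨s, hs, j - i, by rw [sub_smul, ← add_sub_assoc, ← hj, add_sub_cancel_right]⟩
  have hUP : U ⊆ P := fun s hs => ⟨s, hs, 0, by simp⟩
  -- the structure of the elements of the closure
  have hcl : ∀ z ∈ (Subgroup.closure {x, y} : Subgroup G),
      Star P (z : Amb) ∧ ∃ i : ℤ, (z : Amb).k = i • h := by
    intro z hz
    induction hz using Subgroup.closure_induction with
    | mem z hz =>
      rcases hz with rfl | rfl
      · exact ⟨hSx.mono (Set.subset_union_left.trans hUP), 1, by simp [hh]⟩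
      · exact ⟨hSy.mono (Set.subset_union_right.trans hUP), 1, by simp [← hxy]⟩
    | one => exact ⟨star_one.mono (Set.empty_subset _), 0, by simp [one_k]⟩
    | mul z w _ _ hz hw =>
      obtain ⟨hz, i, hi⟩ := hz
      obtain ⟨hw, j, hj⟩ := hw
      refine ⟨hz.mul hw subset_rfl fun g hg => ?_, i + j, ?_⟩
      · rw [hi] at hg; exact hinv g i hg
      · rw [Subgroup.coe_mul, mul_k, hi, hj, add_smul]
    | inv z _ hz =>
      obtain ⟨hz, i, hi⟩ := hz
      refine ⟨hz.inv fun g hg => ?_, -i, ?_⟩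
      · rw [hi, sub_eq_add_neg, ← neg_smul] at hg; exact hinv g _ hg
      · rw [InvMemClass.coe_inv, inv_k, hi, neg_smul]
  -- eventually the two coloured sets are disjoint
  have hev : ∀ᶠ n in Filter.atTop, ∀ d ∈ (fun p : (ℤ × ℤ) × (ℤ × ℤ) => p.1 - p.2) '' (U ×ˢ U),
      ∀ i : ℤ, q n ≠ d + i • h := by
    rw [Filter.eventually_all_finite ((hUf.prod hUf).image _)]
    exact fun d _ => line d h
  obtain ⟨N, hN⟩ := Filter.eventually_atTop.1 hev
  have hdisj : ∀ n, N ≤ n → ∀ g, g ∉ P ∨ g - q n ∉ P := by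
    intro n hn g
    by_contra hcon
    push Not at hcon
    obtain ⟨⟨s, hs, i, hi⟩, ⟨s', hs', j, hj⟩⟩ := hcon
    refine hN n hn (s - s') ⟨(s, s'), ⟨hs, hs'⟩, rfl⟩ (i - j) ?_
    have : q n = g - (g - q n) := by abel
    rw [this, hi, sub_smul]
    rw [hi] at hj
    rw [hj]; abel
  refine en_of_hom ((kh.comp G.subtype).comp (Subgroup.subtype _)) (2 ^ (N + 1)) (by positivity) ?_
  rintro ⟨z, hz⟩ hz1
  have hzk : (z : Amb).k = 0 := by
    have : kh (z : Amb) = 1 := hz1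
    rw [kh_apply] at this
    exact this
  apply Subtype.ext
  apply Subtype.ext
  change (z : Amb) ^ (2 ^ (N + 1)) = 1
  apply ext'
  · intro n g
    rw [(pow_u hzk n g _).1, one_u]
    by_cases hn : N ≤ n
    · have h2 : ((z : Amb).u n g) ^ 2 = 1 := by
        rcases hdisj n hn g with h' | h'
        · exact zp_sq _ (((hcl z hz).1 n g).1 h')
        · exact zp_sq _ (((hcl z hz).1 n g).2 h')
      rw [pow_succ', pow_mul, h2, one_pow]
    · have h3 : ((z : Amb).u n g) ^ Nat.card (DihedralGroup (2 ^ n)) = 1 := pow_card_eq_one'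
      rw [nat_card, ← pow_succ'] at h3
      have h4 : 2 ^ (N + 1) = 2 ^ (n + 1) * 2 ^ (N - n) := by
        rw [← pow_add]; congr 1; omega
      rw [h4, pow_mul, h3, one_pow]
  · exact (pow_u hzk 0 0 _).2

theorem not_en : ¬ EN G := by
  rintro ⟨K, hK, ⟨e, he, hKe⟩, hnil⟩
  obtain ⟨c, hc⟩ := Subgroup.nilpotent_iff_lowerCentralSeries.1 hnil
  have hle : (⊤ : Subgroup G).lowerCentralSeries c ≤ K := by
    have h1 := Subgroup.map_lowerCentralSeries (S := (⊤ : Subgroup G)) (QuotientGroup.mk' K) c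
    rw [← MonoidHom.range_eq_map, MonoidHom.range_eq_top.2 (QuotientGroup.mk'_surjective K), hc,
      Subgroup.map_eq_bot_iff, QuotientGroup.ker_mk'] at h1
    exact h1
  -- elements of the lower central series
  have key : ∀ n c, ∃ z : G, z ∈ (⊤ : Subgroup G).lowerCentralSeries c ∧ (z : Amb).k = 0 ∧
      (z : Amb).u n 0 = r ((2 ^ c : ℕ) : ZMod (2 ^ n)) := by
    intro n c
    induction c with
    | zero =>
      refine ⟨⟨a, a_mem⟩ * (⟨T (q n), Tq_mem n⟩ * ⟨a, a_mem⟩ * ⟨T (q n), Tq_mem n⟩⁻¹),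
        Subgroup.mem_top _, ?_, ?_⟩
      · change (a * (T (q n) * a * (T (q n))⁻¹)).k = 0
        simp [mul_k, inv_k, T, a]
      · change (a * (T (q n) * a * (T (q n))⁻¹)).u n 0 = _
        rw [mul_u, a_zero, T_inv, mul_u, mul_u]
        simp only [T, one_mul, mul_one]
        have : (0 + a.k + q n : ℤ × ℤ) = q n := by simp [a]
        rw [this, a_q, sr_mul_sr]
        simp
    | succ c ih =>
      obtain ⟨z, hz, hk, hu⟩ := ih
      refine ⟨⁅z, ⟨a, a_mem⟩⁆, Subgroup.commutator_mem_commutator hz (Subgroup.mem_top _), ?_, ?_⟩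
      · change ((z : Amb) * a * (z : Amb)⁻¹ * a⁻¹).k = 0
        exact comm_k _ _
      · change ((z : Amb) * a * (z : Amb)⁻¹ * a⁻¹).u n 0 = _
        rw [comm_u hk rfl, hu, a_zero, r_mul_sr, inv_r, inv_sr, sr_mul_r, sr_mul_sr]
        congr 1
        push_cast
        ring
  obtain ⟨z, hz, hk, hu⟩ := key (2 ^ c * e) c
  have h1 : z ^ e = 1 := hKe z (hle hz)
  have h2 : (z : Amb) ^ e = 1 := congrArg Subtype.val h1
  have h3 := (pow_u hk (2 ^ c * e) 0 e).1
  rw [h2, one_u, hu, r_pow, one_def] at h3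
  have h4 : (0 : ZMod (2 ^ (2 ^ c * e))) = ((2 ^ c : ℕ) : ZMod (2 ^ (2 ^ c * e))) * (e : ℕ) := by
    exact DihedralGroup.r.inj h3
  have h5 : (((2 ^ c * e : ℕ)) : ZMod (2 ^ (2 ^ c * e))) = 0 := by
    rw [Nat.cast_mul]; exact h4.symm
  rw [ZMod.natCast_eq_zero_iff] at h5
  have h6 : 0 < 2 ^ c * e := by positivity
  exact absurd (Nat.le_of_dvd h6 h5) (not_le.2 (Nat.lt_two_pow_self))

end Amb

end Pool.Agent.X155.ParaDih
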