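import Pool.Agent.X155.ParaEN

/-! Nilpotent-by-(polycyclic-by-finite) subgroups. -/

namespace Pool.Agent.X155.ParaDih

open DihedralGroup
open scoped commutatorElement

/-- A polycyclic group. -/
def Polyc (P : Type) [Group P] : Prop :=
  ∃ (n : ℕ) (f : ℕ → Subgroup P), f 0 = ⊥ ∧ f n = ⊤ ∧
    ∀ i < n, f i ≤ f (i + 1) ∧ ∃ _ : ((f i).subgroupOf (f (i + 1))).Normal,
      IsCyclic (f (i + 1) ⧸ (f i).subgroupOf (f (i + 1)))

/-- polycyclic-by-finite -/
def PF (Q : Type) [Group Q] : Prop :=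
  ∃ P : Subgroup Q, P.Normal ∧ Polyc P ∧ Finite (Q ⧸ P)

/-- nilpotent-by-(polycyclic-by-finite) -/
def NPF (H : Type) [Group H] : Prop :=
  ∃ (K : Subgroup H) (_ : K.Normal), Group.IsNilpotent K ∧ PF (H ⧸ K)

lemma finite_of_cyclic {C : Type} [Group C] [IsCyclic C] {x : C} (hx : x ≠ 1)
    (hf : IsOfFinOrder x) : Finite C := by
  obtain ⟨γ, hγ⟩ := IsCyclic.exists_generator (α := C)
  obtain ⟨k, hk⟩ := Subgroup.mem_zpowers_iff.1 (hγ x)
  obtain ⟨m, hm, hxm⟩ := isOfFinOrder_iff_pow_eq_one.1 hf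
  have hk0 : k ≠ 0 := by
    rintro rfl
    exact hx (by rw [← hk, zpow_zero])
  have h1 : IsOfFinOrder γ := by
    rw [isOfFinOrder_iff_zpow_eq_one]
    refine ⟨k * m, mul_ne_zero hk0 (by exact_mod_cast hm.ne'), ?_⟩
    rw [zpow_mul, hk, zpow_natCast, hxm]
  have h2 : (Subgroup.zpowers γ : Set C).Finite := by
    rw [finite_zpowers]; exact h1
  exact Set.finite_univ_iff.1 (h2.subset fun y _ => hγ y)

lemma fibre_finite {A B : Type} [Group A] (π : A → B) (K : Subgroup A)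
    (hπ : ∀ x y, π x = π y → x⁻¹ * y ∈ K) (T : Subgroup A) (hB : Finite B)
    (hTK : ((T ⊓ K : Subgroup A) : Set A).Finite) : (T : Set A).Finite := by
  refine Set.Finite.of_finite_fibers π (Set.toFinite _) ?_
  rintro b ⟨x, hx, rfl⟩
  refine (hTK.image (fun z => x * z)).subset ?_
  rintro y ⟨hy, hxy⟩
  exact ⟨x⁻¹ * y, ⟨T.mul_mem (T.inv_mem hx) hy, hπ x y (Eq.symm hxy)⟩, by simp⟩

lemma polyc_torsion {P : Type} [Group P] (hP : Polyc P) (T : Subgroup P)
    (hT : ∀ x ∈ T, IsOfFinOrder x) : (T : Set P).Finite := by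
  obtain ⟨n, f, h0, hn, hf⟩ := hP
  have key : ∀ i ≤ n, ((T ⊓ f i : Subgroup P) : Set P).Finite := by
    intro i
    induction i with
    | zero =>
      intro _
      rw [h0, inf_bot_eq]
      simp
    | succ i ih =>
      intro hi
      have ih := ih (by omega)
      obtain ⟨hle, hnorm, hcyc⟩ := hf i (by omega)
      by_cases hcase : ∀ x ∈ T, x ∈ f (i + 1) → x ∈ f i
      · refine ih.subset ?_
        rintro x ⟨hx, hx'⟩
        exact ⟨hx, hcase x hx hx'⟩
      · push Not at hcase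
        obtain ⟨x, hxT, hx1, hx2⟩ := hcase
        have hfin : Finite (f (i + 1) ⧸ (f i).subgroupOf (f (i + 1))) := by
          apply finite_of_cyclic
            (x := QuotientGroup.mk' ((f i).subgroupOf (f (i + 1))) ⟨x, hx1⟩)
          · intro h1
            have := (QuotientGroup.eq_one_iff _).1 h1
            exact hx2 (Subgroup.mem_subgroupOf.1 this)
          · apply MonoidHom.isOfFinOrder
            have := hT x hxT
            rw [isOfFinOrder_iff_pow_eq_one] at this ⊢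
            obtain ⟨m, hm, hm'⟩ := this
            exact ⟨m, hm, Subtype.ext hm'⟩
        have h3 : ((T.subgroupOf (f (i + 1)) : Subgroup (f (i + 1))) : Set (f (i + 1))).Finite := by
          refine fibre_finite (QuotientGroup.mk' ((f i).subgroupOf (f (i + 1))))
            ((f i).subgroupOf (f (i + 1))) ?_ _ hfin ?_
          · intro x y hxy
            exact QuotientGroup.eq.1 hxy
          · have h4 : (((fun y : f (i + 1) => (y : P)) ⁻¹' ((T ⊓ f i : Subgroup P) : Set P))).Finite :=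
              ih.preimage Subtype.val_injective.injOn
            exact h4.subset fun y hy => ⟨hy.1, hy.2⟩
        refine (h3.image Subtype.val).subset ?_
        rintro y ⟨hy, hy'⟩
        exact ⟨⟨y, hy'⟩, hy, rfl⟩
  have := key n le_rfl
  rwa [hn, inf_top_eq] at this

lemma pf_torsion {Q : Type} [Group Q] (hQ : PF Q) (T : Subgroup Q)
    (hT : ∀ x ∈ T, IsOfFinOrder x) : (T : Set Q).Finite := by
  obtain ⟨P, hPn, hP, hfin⟩ := hQ
  refine fibre_finite (QuotientGroup.mk' P) P (fun x y h => QuotientGroup.eq.1 h) T hfin ?_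
  have h1 := polyc_torsion hP (T.subgroupOf P) (by
    intro x hx
    have := hT x hx
    rw [isOfFinOrder_iff_pow_eq_one] at this ⊢
    obtain ⟨m, hm, hm'⟩ := this
    exact ⟨m, hm, Subtype.ext hm'⟩)
  refine (h1.image Subtype.val).subset ?_
  rintro y ⟨hy, hy'⟩
  exact ⟨⟨y, hy'⟩, hy, rfl⟩

lemma polyc_of_cyclic {C : Type} [Group C] [IsCyclic C] : Polyc C := by
  refine ⟨1, fun i => if i = 0 then ⊥ else ⊤, by simp, by simp, ?_⟩
  intro i hi
  have hi : i = 0 := by omega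
  subst hi
  refine ⟨bot_le, ?_, ?_⟩
  · simp only [if_true]
    infer_instance
  · exact isCyclic_of_surjective _ (QuotientGroup.mk'_surjective _)

lemma pf_of_cyclic {C : Type} [Group C] [IsCyclic C] : PF C := by
  refine ⟨⊤, inferInstance, polyc_of_cyclic, ?_⟩
  infer_instance

namespace Amb

/-- the `h`-invariant hull of a set -/
def hull (U : Set (ℤ × ℤ)) (h : ℤ × ℤ) : Set (ℤ × ℤ) := {p | ∃ s ∈ U, ∃ i : ℤ, p = s + i • h}

lemma hull_inv {U : Set (ℤ × ℤ)} {h : ℤ × ℤ} {g : ℤ × ℤ} {i : ℤ} (hg : g + i • h ∈ hull U h) :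
    g ∈ hull U h := by
  obtain ⟨s, hs, j, hj⟩ := hg
  exact ⟨s, hs, j - i, by rw [sub_smul, ← add_sub_assoc, ← hj, add_sub_cancel_right]⟩

lemma subset_hull (U : Set (ℤ × ℤ)) (h : ℤ × ℤ) : U ⊆ hull U h := fun s hs => ⟨s, hs, 0, by simp⟩

lemma hull_disj {U : Set (ℤ × ℤ)} (hU : U.Finite) (h : ℤ × ℤ) :
    ∃ N, ∀ n, N ≤ n → ∀ g, g ∉ hull U h ∨ g - q n ∉ hull U h := by
  have hev : ∀ᶠ n in Filter.atTop, ∀ d ∈ (fun p : (ℤ × ℤ) × (ℤ × ℤ) => p.1 - p.2) '' (U ×ˢ U),
      ∀ i : ℤ, q n ≠ d + i • h := by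
    rw [Filter.eventually_all_finite ((hU.prod hU).image _)]
    exact fun d _ => line d h
  obtain ⟨N, hN⟩ := Filter.eventually_atTop.1 hev
  refine ⟨N, fun n hn g => ?_⟩
  by_contra hcon
  push Not at hcon
  obtain ⟨⟨s, hs, i, hi⟩, ⟨s', hs', j, hj⟩⟩ := hcon
  refine hN n hn (s - s') ⟨(s, s'), ⟨hs, hs'⟩, rfl⟩ (i - j) ?_
  have : q n = g - (g - q n) := by abel
  rw [this, hi, sub_smul]
  rw [hi] at hj
  rw [hj]; abel

lemma comm_dih2 {n : ℕ} (x y : DihedralGroup n) : ∃ i, x * y * x⁻¹ * y⁻¹ = r (2 * i) := by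
  rcases x with i | i <;> rcases y with j | j <;>
  simp only [r_mul_r, r_mul_sr, sr_mul_r, sr_mul_sr, inv_r, inv_sr]
  · exact ⟨0, by congr 1; ring⟩
  · exact ⟨i, by congr 1; ring⟩
  · exact ⟨-j, by congr 1; ring⟩
  · exact ⟨j - i, by congr 1; ring⟩

lemma comm_dih3 {n : ℕ} (i : ZMod n) (y : DihedralGroup n) :
    ∃ j, r i * y * (r i)⁻¹ * y⁻¹ = r (2 * i * j) := by
  rcases y with j | j <;>
  simp only [r_mul_r, r_mul_sr, sr_mul_sr, inv_r, inv_sr, sr_mul_r]
  · exact ⟨0, by congr 1; ring⟩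
  · exact ⟨1, by congr 1; ring⟩

/-- terms of a descending series -/
def R (N c : ℕ) : Subgroup Amb where
  carrier := {z | z.k = 0 ∧ ∀ n g, (∃ i : ZMod (2 ^ n), z.u n g = r (2 ^ (c + 1) * i)) ∧
    (N ≤ n → z.u n g = 1)}
  mul_mem' {x y} hx hy := by
    refine ⟨by rw [mul_k, hx.1, hy.1, add_zero], fun n g => ⟨?_, fun hn => ?_⟩⟩
    · obtain ⟨i, hi⟩ := (hx.2 n g).1
      obtain ⟨j, hj⟩ := (hy.2 n (g + x.k)).1
      exact ⟨i + j, by rw [mul_u, hi, hj, r_mul_r, mul_add]⟩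
    · rw [mul_u, (hx.2 n g).2 hn, (hy.2 n _).2 hn, one_mul]
  one_mem' := ⟨rfl, fun n g => ⟨⟨0, by rw [one_u, one_def, mul_zero]⟩, fun _ => rfl⟩⟩
  inv_mem' {x} hx := by
    refine ⟨by rw [inv_k, hx.1]; simp, fun n g => ⟨?_, fun hn => ?_⟩⟩
    · obtain ⟨i, hi⟩ := (hx.2 n (g - x.k)).1
      exact ⟨-i, by rw [inv_u, hi, inv_r, mul_neg]⟩
    · rw [inv_u, (hx.2 n _).2 hn, inv_one]

lemma nil_of_hom {K : Type} [Group K] (ι : K →* Amb) (hι : Function.Injective ι) (N : ℕ)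
    (h0 : ∀ z, (ι z).k = 0)
    (h1 : ∀ n, N ≤ n → ∀ g, ∃ i, ∀ z, (ι z).u n g ∈ Subgroup.zpowers (sr i : DihedralGroup (2 ^ n))) :
    Group.IsNilpotent K := by
  rw [Subgroup.nilpotent_iff_lowerCentralSeries]
  have key : ∀ c, (⊤ : Subgroup K).lowerCentralSeries (c + 1) ≤ (R N c).comap ι := by
    intro c
    induction c with
    | zero =>
      rw [Subgroup.lowerCentralSeries_succ, Subgroup.commutator_le]
      intro x _ y _
      rw [Subgroup.mem_comap, commutatorElement_def, map_mul, map_mul, map_mul, map_inv, map_inv]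
      refine ⟨comm_k _ _, fun n g => ?_⟩
      rw [comm_u (h0 x) (h0 y)]
      refine ⟨?_, fun hn => ?_⟩
      · obtain ⟨i, hi⟩ := comm_dih2 ((ι x).u n g) ((ι y).u n g)
        exact ⟨i, by rw [hi]; simp⟩
      · obtain ⟨i, hi⟩ := h1 n hn g
        obtain ⟨k, hk⟩ := Subgroup.mem_zpowers_iff.1 (hi x)
        obtain ⟨l, hl⟩ := Subgroup.mem_zpowers_iff.1 (hi y)
        rw [← hk, ← hl, ← zpow_add, add_comm k l, zpow_add, mul_inv_cancel_right, mul_inv_cancel]
    | succ c ih =>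
      rw [Subgroup.lowerCentralSeries_succ, Subgroup.commutator_le]
      intro x hx y _
      have hx := ih hx
      rw [Subgroup.mem_comap, commutatorElement_def, map_mul, map_mul, map_mul, map_inv, map_inv]
      refine ⟨comm_k _ _, fun n g => ?_⟩
      rw [comm_u (h0 x) (h0 y)]
      refine ⟨?_, fun hn => ?_⟩
      · obtain ⟨i, hi⟩ := (hx.2 n g).1
        rw [hi]
        obtain ⟨j, hj⟩ := comm_dih3 (2 ^ (c + 1) * i) ((ι y).u n g)
        exact ⟨i * j, by rw [hj]; congr 1; ring⟩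
      · rw [(hx.2 n g).2 hn]
        simp
  refine ⟨N + 1, ?_⟩
  rw [eq_bot_iff]
  intro x hx
  have hx := key N hx
  rw [Subgroup.mem_bot]
  apply hι
  rw [map_one]
  apply ext'
  · intro n g
    rw [one_u]
    by_cases hn : N ≤ n
    · exact (hx.2 n g).2 hn
    · obtain ⟨i, hi⟩ := (hx.2 n g).1
      rw [hi, one_def]
      congr 1
      have h2 : ((2 : ZMod (2 ^ n)) ^ (N + 1)) = 0 := by
        have h3 : (((2 ^ (N + 1) : ℕ)) : ZMod (2 ^ n)) = 0 := by
          rw [ZMod.natCast_eq_zero_iff]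
          exact pow_dvd_pow 2 (by omega)
        exact_mod_cast h3
      rw [h2, zero_mul]
  · exact hx.1

theorem npf_closure (x y : G) (hxy : (x : Amb).k = (y : Amb).k) :
    NPF (Subgroup.closure {x, y} : Subgroup G) := by
  obtain ⟨S, hS, hSx⟩ := exists_star x.2
  obtain ⟨S', hS', hSy⟩ := exists_star y.2
  set h := (x : Amb).k with hh
  set P := hull (S ∪ S') h with hP
  have hcl : ∀ z ∈ (Subgroup.closure {x, y} : Subgroup G),
      Star P (z : Amb) ∧ ∃ i : ℤ, (z : Amb).k = i • h := by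
    intro z hz
    induction hz using Subgroup.closure_induction with
    | mem z hz =>
      rcases hz with rfl | rfl
      · exact ⟨hSx.mono (Set.subset_union_left.trans (subset_hull _ _)), 1, by simp [hh]⟩
      · exact ⟨hSy.mono (Set.subset_union_right.trans (subset_hull _ _)), 1, by simp [← hxy]⟩
    | one => exact ⟨star_one.mono (Set.empty_subset _), 0, by simp [one_k]⟩
    | mul z w _ _ hz hw =>
      obtain ⟨hz, i, hi⟩ := hz
      obtain ⟨hw, j, hj⟩ := hw
      refine ⟨hz.mul hw subset_rfl fun g hg => ?_, i + j, ?_⟩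
      · rw [hi] at hg; exact hull_inv hg
      · rw [Subgroup.coe_mul, mul_k, hi, hj, add_smul]
    | inv z _ hz =>
      obtain ⟨hz, i, hi⟩ := hz
      refine ⟨hz.inv fun g hg => ?_, -i, ?_⟩
      · rw [hi, sub_eq_add_neg, ← neg_smul] at hg; exact hull_inv hg
      · rw [InvMemClass.coe_inv, inv_k, hi, neg_smul]
  obtain ⟨N, hN⟩ := hull_disj (hS.union hS') h
  set φ : (Subgroup.closure {x, y} : Subgroup G) →* Multiplicative (ℤ × ℤ) :=
    (kh.comp G.subtype).comp (Subgroup.subtype _) with hφ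
  refine ⟨φ.ker, inferInstance, ?_, ?_⟩
  · refine nil_of_hom ((G.subtype.comp (Subgroup.subtype _)).comp (Subgroup.subtype _)) ?_ N ?_ ?_
    · intro a b hab
      exact Subtype.ext (Subtype.ext (Subtype.ext hab))
    · intro z
      exact z.2
    · intro n hn g
      rcases hN n hn g with h' | h'
      · exact ⟨1, fun z => ((hcl _ z.1.2).1 n g).1 h'⟩
      · exact ⟨0, fun z => ((hcl _ z.1.2).1 n g).2 h'⟩
  · have hcyc : IsCyclic φ.range := by
      have hle : φ.range ≤ Subgroup.zpowers (Multiplicative.ofAdd h) := by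
        rintro _ ⟨z, rfl⟩
        obtain ⟨i, hi⟩ := (hcl _ z.2).2
        rw [Subgroup.mem_zpowers_iff]
        refine ⟨i, ?_⟩
        rw [← ofAdd_zsmul, ← hi]; rfl
      exact isCyclic_of_injective (Subgroup.inclusion hle) (Subgroup.inclusion_injective hle)
    have : IsCyclic ((Subgroup.closure {x, y} : Subgroup G) ⧸ φ.ker) :=
      (QuotientGroup.quotientKerEquivRange φ).isCyclic.2 hcyc
    exact pf_of_cyclic

lemma fin_order (z : G) (hz : (z : Amb).k = 0) : IsOfFinOrder z := by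
  obtain ⟨S, hS, hSz⟩ := exists_star z.2
  obtain ⟨N, hN⟩ := hull_disj hS 0
  have hst := hSz.mono (subset_hull S 0)
  rw [isOfFinOrder_iff_pow_eq_one]
  refine ⟨2 ^ (N + 1), by positivity, Subtype.ext ?_⟩
  change (z : Amb) ^ (2 ^ (N + 1)) = 1
  apply ext'
  · intro n g
    rw [(pow_u hz n g _).1, one_u]
    by_cases hn : N ≤ n
    · have h2 : ((z : Amb).u n g) ^ 2 = 1 := by
        rcases hN n hn g with h' | h'
        · exact zp_sq _ ((hst n g).1 h')
        · exact zp_sq _ ((hst n g).2 h')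
      rw [pow_succ', pow_mul, h2, one_pow]
    · have h3 : ((z : Amb).u n g) ^ Nat.card (DihedralGroup (2 ^ n)) = 1 := pow_card_eq_one'
      rw [nat_card, ← pow_succ'] at h3
      have h4 : 2 ^ (N + 1) = 2 ^ (n + 1) * 2 ^ (N - n) := by
        rw [← pow_add]; congr 1; omega
      rw [h4, pow_mul, h3, one_pow]
  · exact (pow_u hz 0 0 _).2

/-- the conjugates of `a` -/
def cj (m : ℕ) : G :=
  ⟨T ((m : ℤ), (0 : ℤ)), by simpa using T_nat_mem m 0⟩ * ⟨a, a_mem⟩ *
    ⟨T ((m : ℤ), (0 : ℤ)), by simpa using T_nat_mem m 0⟩⁻¹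

lemma cj_k (m : ℕ) : (cj m : Amb).k = 0 := by
  change (T ((m : ℤ), (0 : ℤ)) * a * (T ((m : ℤ), (0 : ℤ)))⁻¹).k = 0
  simp [mul_k, inv_k, T, a]

lemma conj_T_u (g : ℤ × ℤ) {z : Amb} (hz : z.k = 0) (n : ℕ) (x : ℤ × ℤ) :
    (T g * z * (T g)⁻¹).u n x = z.u n (x + g) := by
  rw [mul_u, mul_u, T_inv]
  simp [T]

lemma cj_u (m n : ℕ) (x : ℤ × ℤ) : (cj m : Amb).u n x = a.u n (x + ((m : ℤ), (0 : ℤ))) :=
  conj_T_u _ rfl n x

lemma a_one {n : ℕ} {x : ℤ × ℤ} (h0 : x ≠ 0) (h1 : x ≠ q n) : a.u n x = 1 := by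
  simp [a, h0, h1]

theorem not_npf : ¬ NPF G := by
  rintro ⟨K, hK, hnil, hPF⟩
  obtain ⟨c, hc⟩ := (Subgroup.isNilpotent_iff_lowerCentralSeries K).1 hnil
  set M : Subgroup G := A1.subgroupOf G with hM
  have hfin := pf_torsion hPF (M.map (QuotientGroup.mk' K)) (by
    rintro _ ⟨z, hz, rfl⟩
    exact MonoidHom.isOfFinOrder _ (fin_order z hz))
  -- pigeonhole
  have : Finite (M.map (QuotientGroup.mk' K)) := hfin
  obtain ⟨m₁, m₂, hne, heq⟩ := Finite.exists_ne_map_eq_of_infinite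
    (fun m : ℕ => (⟨QuotientGroup.mk' K (cj m), ⟨cj m, cj_k m, rfl⟩⟩ :
      M.map (QuotientGroup.mk' K)))
  have heq : QuotientGroup.mk' K (cj m₁) = QuotientGroup.mk' K (cj m₂) := congrArg Subtype.val heq
  set b : G := cj m₁ * (cj m₂)⁻¹ with hb
  have hbK : b ∈ K := by
    have h1 : QuotientGroup.mk' K b = 1 := by
      rw [hb, map_mul, map_inv, heq, mul_inv_cancel]
    exact (QuotientGroup.eq_one_iff b).1 h1
  have hbk : (b : Amb).k = 0 := by
    change (cj m₁ : Amb).k + -(cj m₂ : Amb).k = 0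
    rw [cj_k, cj_k]; simp
  have hbu : ∀ n x, (b : Amb).u n x =
      a.u n (x + ((m₁ : ℤ), (0 : ℤ))) * (a.u n (x + ((m₂ : ℤ), (0 : ℤ))))⁻¹ := by
    intro n x
    change (cj m₁ : Amb).u n x * ((cj m₂ : Amb).u n (x + (cj m₁ : Amb).k - (cj m₂ : Amb).k))⁻¹ = _
    rw [cj_k, cj_k, cj_u, cj_u]; simp
  set n := c + 1 with hn
  set p₀ : ℤ × ℤ := (-(m₁ : ℤ), 0) with hp₀
  have hq2 : ((n : ℤ) + 1) ^ 2 ≠ 0 := by positivity
  have hm12 : (m₁ : ℤ) ≠ m₂ := by exact_mod_cast hne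
  have e1 : (b : Amb).u n p₀ = sr 0 := by
    rw [hbu]
    have h1 : p₀ + ((m₁ : ℤ), (0 : ℤ)) = 0 := by simp [hp₀]
    rw [h1, a_zero, a_one, inv_one, mul_one]
    · intro h2
      have := congrArg Prod.fst h2
      simp only [hp₀, Prod.fst_add, Prod.fst_zero] at this
      omega
    · intro h2
      have := congrArg Prod.snd h2
      simp only [hp₀, q, Prod.snd_add, add_zero] at this
      exact hq2 this.symm
  have e2 : (b : Amb).u n (p₀ + q n) = sr 1 := by
    rw [hbu]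
    have h1 : p₀ + q n + ((m₁ : ℤ), (0 : ℤ)) = q n := by
      ext <;> simp [hp₀, q]
    rw [h1, a_q, a_one, inv_one, mul_one]
    · intro h2
      have := congrArg Prod.snd h2
      simp only [hp₀, q, Prod.snd_add, add_zero, zero_add, Prod.snd_zero] at this
      exact hq2 this
    · intro h2
      have := congrArg Prod.fst h2
      simp only [hp₀, q, Prod.fst_add] at this
      omega
  set b' : G := ⟨T (q n), Tq_mem n⟩ * b * ⟨T (q n), Tq_mem n⟩⁻¹ with hb'
  have hb'K : b' ∈ K := hK.conj_mem _ hbK _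
  have hb'k : (b' : Amb).k = 0 := by
    change (T (q n)).k + (b : Amb).k + -(T (q n)).k = 0
    rw [hbk]; simp
  have hb'u : (b' : Amb).u n p₀ = sr 1 := by
    change (T (q n) * (b : Amb) * (T (q n))⁻¹).u n p₀ = sr 1
    rw [conj_T_u _ hbk, e2]
  have key : ∀ j, ∃ z : G, z ∈ K.lowerCentralSeries j ∧ (z : Amb).k = 0 ∧
      (z : Amb).u n p₀ = r ((2 ^ j : ℕ) : ZMod (2 ^ n)) := by
    intro j
    induction j with
    | zero =>
      refine ⟨b * b', K.mul_mem hbK hb'K, ?_, ?_⟩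
      · change (b : Amb).k + (b' : Amb).k = 0
        rw [hbk, hb'k, add_zero]
      · change (b : Amb).u n p₀ * (b' : Amb).u n (p₀ + (b : Amb).k) = _
        rw [hbk, add_zero, e1, hb'u, sr_mul_sr]
        simp
    | succ j ih =>
      obtain ⟨z, hz, hk, hu⟩ := ih
      refine ⟨⁅z, b⁆, Subgroup.commutator_mem_commutator hz hbK, ?_, ?_⟩
      · change ((z : Amb) * (b : Amb) * (z : Amb)⁻¹ * (b : Amb)⁻¹).k = 0
        exact comm_k _ _
      · change ((z : Amb) * (b : Amb) * (z : Amb)⁻¹ * (b : Amb)⁻¹).u n p₀ = _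
        rw [comm_u hk hbk, hu, e1, r_mul_sr, inv_r, inv_sr, sr_mul_r, sr_mul_sr]
        congr 1
        push_cast
        ring
  obtain ⟨z, hz, hk, hu⟩ := key c
  rw [hc, Subgroup.mem_bot] at hz
  rw [hz] at hu
  change (1 : DihedralGroup (2 ^ n)) = _ at hu
  rw [one_def] at hu
  have h4 := DihedralGroup.r.inj hu
  have h5 := (ZMod.natCast_eq_zero_iff _ _).1 h4.symm
  have h6 : 0 < 2 ^ c := by positivity
  have h7 := Nat.le_of_dvd h6 h5
  rw [hn, pow_succ] at h7
  omega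

end Amb

end Pool.Agent.X155.ParaDih
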