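import Mathlib

/-! Dihedral groups of order eight over growing finite grids. -/

namespace Pool.Agent.X155.ParaTwo

open DihedralGroup
open scoped commutatorElement

/-- side length of the `n`-th grid -/
def R (n : ℕ) : ℕ := 2 ^ (3 * (n + 1))

/-- the `n`-th grid -/
abbrev X (n : ℕ) := ZMod (R n) × ZMod (R n)

instance (n : ℕ) : NeZero (R n) := ⟨by unfold R; positivity⟩

/-- reduction of `ℤ²` to the grid -/
def cc (n : ℕ) : ℤ × ℤ →+ X n :=
  AddMonoidHom.prodMap (Int.castAddHom (ZMod (R n))) (Int.castAddHom (ZMod (R n)))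

lemma cc_apply (n : ℕ) (k : ℤ × ℤ) : cc n k = ((k.1 : ZMod (R n)), (k.2 : ZMod (R n))) := rfl

/-- The ambient group. -/
@[ext]
structure Amb where
  /-- the function part -/
  u : (n : ℕ) → X n → DihedralGroup 4
  /-- the shift part -/
  k : ℤ × ℤ

/-- One finite coordinate of the ambient group. -/
@[ext]
structure Fin2 (n : ℕ) where
  /-- the function part -/
  u : X n → DihedralGroup 4
  /-- the shift part -/
  k : X n

namespace Fin2

variable {m : ℕ}

instance : Mul (Fin2 m) := ⟨fun x y => ⟨fun g => x.u g * y.u (g + x.k), x.k + y.k⟩⟩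
instance : One (Fin2 m) := ⟨⟨fun _ => 1, 0⟩⟩
instance : Inv (Fin2 m) := ⟨fun x => ⟨fun g => (x.u (g - x.k))⁻¹, -x.k⟩⟩

lemma mul_u (x y : Fin2 m) (g : X m) : (x * y).u g = x.u g * y.u (g + x.k) := rfl
lemma mul_k (x y : Fin2 m) : (x * y).k = x.k + y.k := rfl
lemma one_u (g : X m) : (1 : Fin2 m).u g = 1 := rfl
lemma one_k : (1 : Fin2 m).k = 0 := rfl
lemma inv_u (x : Fin2 m) (g : X m) : (x⁻¹).u g = (x.u (g - x.k))⁻¹ := rfl
lemma inv_k (x : Fin2 m) : (x⁻¹).k = -x.k := rfl

lemma ext' {x y : Fin2 m} (h : ∀ g, x.u g = y.u g) (h' : x.k = y.k) : x = y := by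
  ext1
  · funext g; exact h g
  · exact h'

instance : Group (Fin2 m) := Group.ofLeftAxioms
  (by
    intro x y z
    apply ext'
    · intro g; simp only [mul_u, mul_k, mul_assoc, add_assoc]
    · simp only [mul_k, add_assoc])
  (by
    intro x
    apply ext'
    · intro g; simp only [mul_u, one_u, one_k, one_mul, add_zero]
    · simp only [mul_k, one_k, zero_add])
  (by
    intro x
    apply ext'
    · intro g
      simp only [mul_u, inv_u, inv_k, one_u, ← sub_eq_add_neg, inv_mul_cancel]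
    · simp only [mul_k, inv_k, one_k, neg_add_cancel])

instance : Finite (Fin2 m) :=
  Finite.of_injective (fun x : Fin2 m => (x.u, x.k)) (fun x y h => by
    apply ext'
    · intro g; exact congrFun (congrArg Prod.fst h) g
    · exact congrArg Prod.snd h)

lemma pow_k (x : Fin2 m) (j : ℕ) : (x ^ j).k = j • x.k := by
  induction j with
  | zero => simp [one_k]
  | succ j ih => rw [pow_succ, mul_k, ih, succ_nsmul]

lemma pow_u {x : Fin2 m} (hx : x.k = 0) (j : ℕ) (g : X m) : (x ^ j).u g = (x.u g) ^ j := by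
  induction j with
  | zero => rfl
  | succ j ih =>
    rw [pow_succ, pow_succ, mul_u, ih, pow_k, hx]
    simp

lemma isPGroup : IsPGroup 2 (Fin2 m) := by
  intro x
  refine ⟨3 * (m + 1) + 3, ?_⟩
  have h1 : (x ^ (R m)).k = 0 := by
    rw [pow_k]
    ext <;> simp
  rw [pow_add, pow_mul]
  change (x ^ (R m)) ^ (2 ^ 3) = 1
  apply ext'
  · intro g
    rw [pow_u h1, one_u]
    have h3 : ((x ^ (R m)).u g) ^ Nat.card (DihedralGroup 4) = 1 := pow_card_eq_one'
    rwa [nat_card] at h3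
  · rw [pow_k, h1]; simp [one_k]

instance : Group.IsNilpotent (Fin2 m) := isPGroup.isNilpotent

end Fin2

namespace Amb

instance : Mul Amb := ⟨fun x y => ⟨fun n g => x.u n g * y.u n (g + cc n x.k), x.k + y.k⟩⟩
instance : One Amb := ⟨⟨fun _ _ => 1, 0⟩⟩
instance : Inv Amb := ⟨fun x => ⟨fun n g => (x.u n (g - cc n x.k))⁻¹, -x.k⟩⟩

lemma mul_u (x y : Amb) (n : ℕ) (g : X n) : (x * y).u n g = x.u n g * y.u n (g + cc n x.k) := rfl
lemma mul_k (x y : Amb) : (x * y).k = x.k + y.k := rfl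
lemma one_u (n : ℕ) (g : X n) : (1 : Amb).u n g = 1 := rfl
lemma one_k : (1 : Amb).k = 0 := rfl
lemma inv_u (x : Amb) (n : ℕ) (g : X n) : (x⁻¹).u n g = (x.u n (g - cc n x.k))⁻¹ := rfl
lemma inv_k (x : Amb) : (x⁻¹).k = -x.k := rfl

lemma ext' {x y : Amb} (h : ∀ n g, x.u n g = y.u n g) (h' : x.k = y.k) : x = y := by
  ext1
  · funext n g; exact h n g
  · exact h'

instance : Group Amb := Group.ofLeftAxioms
  (by
    intro x y z
    apply ext'
    · intro n g; simp only [mul_u, mul_k, mul_assoc, add_assoc, map_add]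
    · simp only [mul_k, add_assoc])
  (by
    intro x
    apply ext'
    · intro n g; simp only [mul_u, one_u, one_k, one_mul, add_zero, map_zero]
    · simp only [mul_k, one_k, zero_add])
  (by
    intro x
    apply ext'
    · intro n g
      simp only [mul_u, inv_u, inv_k, one_u, map_neg, ← sub_eq_add_neg, inv_mul_cancel]
    · simp only [mul_k, inv_k, one_k, neg_add_cancel])

/-- the shift homomorphism -/
def kh : Amb →* Multiplicative (ℤ × ℤ) where
  toFun x := Multiplicative.ofAdd x.k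
  map_one' := rfl
  map_mul' _ _ := rfl

/-- the `n`-th coordinate -/
def coord (n : ℕ) : Amb →* Fin2 n where
  toFun x := ⟨x.u n, cc n x.k⟩
  map_one' := by
    apply Fin2.ext'
    · intro g; rfl
    · change cc n 0 = 0
      exact map_zero _
  map_mul' x y := by
    apply Fin2.ext'
    · intro g; rfl
    · exact map_add (cc n) x.k y.k

lemma comm_k (x y : Amb) : (x * y * x⁻¹ * y⁻¹).k = 0 := by
  simp only [mul_k, inv_k]; abel

lemma comm_u {x y : Amb} (hx : x.k = 0) (hy : y.k = 0) (n : ℕ) (g : X n) :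
    (x * y * x⁻¹ * y⁻¹).u n g = x.u n g * y.u n g * (x.u n g)⁻¹ * (y.u n g)⁻¹ := by
  simp only [mul_u, mul_k, inv_u, inv_k, hx, hy, add_zero, sub_zero, neg_zero, map_zero]

lemma pow_u {x : Amb} (hx : x.k = 0) (n : ℕ) (g : X n) (m : ℕ) :
    (x ^ m).u n g = (x.u n g) ^ m ∧ (x ^ m).k = 0 := by
  induction m with
  | zero => exact ⟨rfl, rfl⟩
  | succ m ih =>
    rw [pow_succ, pow_succ, mul_u, mul_k, ih.1, ih.2, hx]
    simp

/-- functions -/
def A1 : Subgroup Amb where
  carrier := {x | x.k = 0}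
  mul_mem' {x y} hx hy := by
    have hx : x.k = 0 := hx
    have hy : y.k = 0 := hy
    change x.k + y.k = 0
    rw [hx, hy, add_zero]
  one_mem' := rfl
  inv_mem' {x} hx := by
    have hx : x.k = 0 := hx
    change -x.k = 0
    rw [hx, neg_zero]

/-- functions whose values are rotations -/
def A2 : Subgroup Amb where
  carrier := {x | x.k = 0 ∧ ∀ n g, ∃ i, x.u n g = r i}
  mul_mem' {x y} hx hy := by
    refine ⟨by rw [mul_k, hx.1, hy.1, add_zero], fun n g => ?_⟩
    obtain ⟨i, hi⟩ := hx.2 n g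
    obtain ⟨j, hj⟩ := hy.2 n (g + cc n x.k)
    exact ⟨i + j, by rw [mul_u, hi, hj, r_mul_r]⟩
  one_mem' := ⟨rfl, fun n g => ⟨0, rfl⟩⟩
  inv_mem' {x} hx := by
    refine ⟨by rw [inv_k, hx.1, neg_zero], fun n g => ?_⟩
    obtain ⟨i, hi⟩ := hx.2 n (g - cc n x.k)
    exact ⟨-i, by rw [inv_u, hi, inv_r]⟩

lemma comm_dih {n : ℕ} (x y : DihedralGroup n) : ∃ i, x * y * x⁻¹ * y⁻¹ = r i := by
  rcases x with i | i <;> rcases y with j | j <;>
  simp only [r_mul_r, r_mul_sr, sr_mul_r, sr_mul_sr, inv_r, inv_sr] <;> exact ⟨_, rfl⟩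

instance : Group.IsSolvable Amb := by
  rw [Group.isSolvable_def]
  refine ⟨3, ?_⟩
  have h1 : derivedSeries Amb 1 ≤ A1 := by
    rw [derivedSeries_succ, Subgroup.commutator_le]
    intro x _ y _
    exact comm_k x y
  have h2 : derivedSeries Amb 2 ≤ A2 := by
    rw [derivedSeries_succ, Subgroup.commutator_le]
    intro x hx y hy
    refine ⟨comm_k x y, fun n g => ?_⟩
    rw [commutatorElement_def, comm_u (h1 hx) (h1 hy)]
    exact comm_dih _ _
  rw [eq_bot_iff, derivedSeries_succ, Subgroup.commutator_le]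
  intro x hx y hy
  rw [Subgroup.mem_bot, commutatorElement_def]
  apply ext'
  · intro n g
    rw [comm_u (h2 hx).1 (h2 hy).1]
    obtain ⟨i, hi⟩ := (h2 hx).2 n g
    obtain ⟨j, hj⟩ := (h2 hy).2 n g
    rw [hi, hj, r_mul_r, inv_r, inv_r, r_mul_r, r_mul_r, one_u, one_def]
    congr 1; ring
  · exact comm_k x y

/-- points of a parabola -/
def q (n : ℕ) : ℤ × ℤ := ((n : ℤ) + 1, ((n : ℤ) + 1) ^ 2)

/-- shift by `g` -/
def T (g : ℤ × ℤ) : Amb := ⟨fun _ _ => 1, g⟩

/-- the involution -/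
def a : Amb := ⟨fun n g => if g = 0 then sr 0 else if g = cc n (q n) then sr 1 else 1, 0⟩

lemma T_mul (g h : ℤ × ℤ) : T g * T h = T (g + h) := by
  apply ext'
  · intro n x; simp [mul_u, T]
  · rfl

lemma T_inv (g : ℤ × ℤ) : (T g)⁻¹ = T (-g) := by
  apply ext'
  · intro n x; simp [inv_u, T]
  · rfl

/-- The group. -/
def G : Subgroup Amb := Subgroup.closure {T (1, 0), T (0, 1), a}

lemma T1_mem : T (1, 0) ∈ G := Subgroup.subset_closure (by simp)
lemma T2_mem : T (0, 1) ∈ G := Subgroup.subset_closure (by simp)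
lemma a_mem : a ∈ G := Subgroup.subset_closure (by simp)

lemma T_nat_mem (m l : ℕ) : T ((m : ℤ), (l : ℤ)) ∈ G := by
  have h1 : ∀ m : ℕ, T ((m : ℤ), 0) ∈ G := by
    intro m
    induction m with
    | zero => exact G.one_mem
    | succ m ih =>
      have := G.mul_mem ih T1_mem
      rw [T_mul] at this
      convert this using 2
      simp
  induction l with
  | zero => simpa using h1 m
  | succ l ih =>
    have := G.mul_mem ih T2_mem
    rw [T_mul] at this
    convert this using 2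
    simp

lemma Tq_mem (n : ℕ) : T (q n) ∈ G := by
  have := T_nat_mem (n + 1) ((n + 1) ^ 2)
  convert this using 2
  simp [q]

/-- the control predicate -/
def Star (P : (n : ℕ) → Set (X n)) (x : Amb) : Prop :=
  ∀ n g, (g ∉ P n → x.u n g ∈ Subgroup.zpowers (sr 1 : DihedralGroup 4)) ∧
    (g - cc n (q n) ∉ P n → x.u n g ∈ Subgroup.zpowers (sr 0 : DihedralGroup 4))

/-- reduction of a set -/
def red (S : Set (ℤ × ℤ)) (n : ℕ) : Set (X n) := cc n '' S

lemma Star.mono {P P' : (n : ℕ) → Set (X n)} {x : Amb} (h : ∀ n, P n ⊆ P' n) (hx : Star P x) :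
    Star P' x :=
  fun n g => ⟨fun hg => (hx n g).1 (fun h' => hg (h n h')),
    fun hg => (hx n g).2 (fun h' => hg (h n h'))⟩

lemma star_one (P : (n : ℕ) → Set (X n)) : Star P 1 :=
  fun _ _ => ⟨fun _ => Subgroup.one_mem _, fun _ => Subgroup.one_mem _⟩

lemma star_T (g : ℤ × ℤ) (P : (n : ℕ) → Set (X n)) : Star P (T g) :=
  fun _ _ => ⟨fun _ => Subgroup.one_mem _, fun _ => Subgroup.one_mem _⟩

lemma star_a : Star (red {0}) a := by
  intro n g
  constructor
  · intro hg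
    have hg : g ≠ 0 := fun h => hg ⟨0, rfl, by rw [h, map_zero]⟩
    simp only [a, if_neg hg]
    split_ifs
    · exact Subgroup.mem_zpowers _
    · exact Subgroup.one_mem _
  · intro hg
    have hg : g ≠ cc n (q n) := fun h => hg ⟨0, rfl, by rw [h, map_zero, sub_self]⟩
    simp only [a, if_neg hg]
    split_ifs
    · exact Subgroup.mem_zpowers _
    · exact Subgroup.one_mem _

lemma Star.mul {S S' P : (n : ℕ) → Set (X n)} {x y : Amb} (hx : Star S x) (hy : Star S' y)
    (h1 : ∀ n, S n ⊆ P n) (h2 : ∀ n g, g + cc n x.k ∈ S' n → g ∈ P n) : Star P (x * y) := by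
  intro n g
  rw [mul_u]
  refine ⟨fun hg => Subgroup.mul_mem _ ((hx n g).1 fun h => hg (h1 n h))
    ((hy n _).1 fun h => hg (h2 n g h)), fun hg => Subgroup.mul_mem _
    ((hx n g).2 fun h => hg (h1 n h)) ((hy n _).2 fun h => hg (h2 n _ ?_))⟩
  rwa [show g - cc n (q n) + cc n x.k = g + cc n x.k - cc n (q n) by abel]

lemma Star.inv {S P : (n : ℕ) → Set (X n)} {x : Amb} (hx : Star S x)
    (h2 : ∀ n g, g - cc n x.k ∈ S n → g ∈ P n) : Star P x⁻¹ := by
  intro n g
  rw [inv_u]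
  refine ⟨fun hg => Subgroup.inv_mem _ ((hx n _).1 fun h => hg (h2 n g h)),
    fun hg => Subgroup.inv_mem _ ((hx n _).2 fun h => hg (h2 n _ ?_))⟩
  rwa [show g - cc n (q n) - cc n x.k = g - cc n x.k - cc n (q n) by abel]

lemma exists_star {x : Amb} (hx : x ∈ G) : ∃ S : Set (ℤ × ℤ), S.Finite ∧ Star (red S) x := by
  induction hx using Subgroup.closure_induction with
  | mem x hx =>
    rcases hx with rfl | rfl | rfl
    · exact ⟨∅, Set.finite_empty, star_T _ _⟩
    · exact ⟨∅, Set.finite_empty, star_T _ _⟩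
    · exact ⟨{0}, Set.finite_singleton _, star_a⟩
  | one => exact ⟨∅, Set.finite_empty, star_one _⟩
  | mul x y _ _ hx hy =>
    obtain ⟨S, hS, hSx⟩ := hx
    obtain ⟨S', hS', hSy⟩ := hy
    refine ⟨S ∪ (fun g => g - x.k) '' S', hS.union (hS'.image _),
      hSx.mul hSy (fun n => Set.image_mono Set.subset_union_left) ?_⟩
    rintro n g ⟨s, hs, hsg⟩
    refine ⟨s - x.k, Or.inr ⟨s, hs, rfl⟩, ?_⟩
    rw [map_sub, hsg]; abel
  | inv x _ hx =>
    obtain ⟨S, hS, hSx⟩ := hx
    refine ⟨(fun g => g + x.k) '' S, hS.image _, hSx.inv ?_⟩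
    rintro n g ⟨s, hs, hsg⟩
    refine ⟨s + x.k, ⟨s, hs, rfl⟩, ?_⟩
    rw [map_add, hsg]; abel

lemma zne {n : ℕ} {x : ℤ} (h0 : x ≠ 0) (h1 : |x| < (R n : ℤ)) : (x : ZMod (R n)) ≠ 0 := by
  intro h
  rw [ZMod.intCast_zmod_eq_zero_iff_dvd] at h
  exact h0 (Int.eq_zero_of_abs_lt_dvd h h1)

lemma R_bound {n : ℕ} {C : ℤ} (hC : C < (n : ℤ) + 1) :
    C * ((n : ℤ) + 1) ^ 2 < (R n : ℤ) := by
  have h1 : (n : ℤ) + 1 < 2 ^ (n + 1) := by exact_mod_cast Nat.lt_two_pow_self
  have h2 : (R n : ℤ) = 2 ^ (n + 1) * (2 ^ (n + 1)) ^ 2 := by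
    rw [R]; push_cast; ring
  rw [h2]
  have h3 : ((n : ℤ) + 1) ^ 2 ≤ (2 ^ (n + 1)) ^ 2 := by
    apply pow_le_pow_left₀ (by positivity) h1.le
  have h4 : (0 : ℤ) < ((n : ℤ) + 1) ^ 2 := by positivity
  have h5 : (0 : ℤ) < 2 ^ (n + 1) := by positivity
  calc C * ((n : ℤ) + 1) ^ 2 < 2 ^ (n + 1) * ((n : ℤ) + 1) ^ 2 := by
        apply mul_lt_mul_of_pos_right (hC.trans h1) h4
    _ ≤ _ := mul_le_mul_of_nonneg_left h3 h5.le

/-- each affine line misses almost all parabola points -/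
lemma line (d h : ℤ × ℤ) : ∀ᶠ n in Filter.atTop, ∀ i : ℤ, cc n (q n) ≠ cc n (d + i • h) := by
  obtain ⟨d1, d2⟩ := d
  obtain ⟨h1, h2⟩ := h
  rw [Filter.eventually_atTop]
  refine ⟨(2 + |d1| + |h1| + |h2| + |d2 * h1 - d1 * h2|).toNat, fun n hn i hi => ?_⟩
  have hm : 2 + |d1| + |h1| + |h2| + |d2 * h1 - d1 * h2| < (n : ℤ) + 1 := by
    have := Int.self_le_toNat (2 + |d1| + |h1| + |h2| + |d2 * h1 - d1 * h2|)
    have : ((2 + |d1| + |h1| + |h2| + |d2 * h1 - d1 * h2|).toNat : ℤ) ≤ n := by exact_mod_cast hn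
    omega
  have e1 := congrArg Prod.fst hi
  have e2 := congrArg Prod.snd hi
  simp only [cc_apply, q, Prod.fst_add, Prod.snd_add, Prod.smul_fst, Prod.smul_snd,
    smul_eq_mul] at e1 e2
  set m : ℤ := (n : ℤ) + 1 with hmdef
  have p1 := abs_nonneg d1
  have p2 := abs_nonneg h2
  have p4 := abs_nonneg h1
  have p3 := abs_nonneg (d2 * h1 - d1 * h2)
  have hm1 : 1 ≤ m := by linarith
  by_cases hh : h1 = 0
  · rw [hh, mul_zero, add_zero] at e1
    have e3 : ((m - d1 : ℤ) : ZMod (R n)) = 0 := by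
      rw [Int.cast_sub, e1, sub_self]
    refine zne ?_ ?_ e3
    · have := le_abs_self d1
      omega
    · have h5 : |m - d1| ≤ m + |d1| := by
        refine (abs_sub _ _).trans ?_
        rw [abs_of_pos (by linarith : 0 < m)]
      have h6 := R_bound (n := n) (C := 2) (by linarith)
      nlinarith
  · have e3 : ((h1 * m ^ 2 - h2 * m - (d2 * h1 - d1 * h2) : ℤ) : ZMod (R n)) = 0 := by
      push_cast
      push_cast at e1 e2
      linear_combination (h1 : ZMod (R n)) * e2 - (h2 : ZMod (R n)) * e1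
    have h4 : m ^ 2 ≤ |h1| * m ^ 2 := by
      have : 1 ≤ |h1| := Int.one_le_abs hh
      nlinarith [sq_nonneg m]
    have h5 : |h1| * m ^ 2 = |h1 * m ^ 2| := by
      rw [abs_mul, abs_of_nonneg (sq_nonneg m)]
    have h7 : |h2 * m + (d2 * h1 - d1 * h2)| ≤ |h2| * m + |d2 * h1 - d1 * h2| := by
      refine (abs_add_le _ _).trans ?_
      rw [abs_mul, abs_of_pos (by linarith : 0 < m)]
    refine zne ?_ ?_ e3
    · intro h0
      have h6 : |h1 * m ^ 2| ≤ |h2| * m + |d2 * h1 - d1 * h2| := by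
        have : h1 * m ^ 2 = h2 * m + (d2 * h1 - d1 * h2) := by linarith
        rw [this]; exact h7
      nlinarith
    · have h8 : |h1 * m ^ 2 - h2 * m - (d2 * h1 - d1 * h2)| ≤
          |h1| * m ^ 2 + (|h2| * m + |d2 * h1 - d1 * h2|) := by
        have : h1 * m ^ 2 - h2 * m - (d2 * h1 - d1 * h2) =
          h1 * m ^ 2 - (h2 * m + (d2 * h1 - d1 * h2)) := by ring
        rw [this, h5]
        exact (abs_sub _ _).trans (by linarith)
      have h9 := R_bound (n := n) (C := |h1| + |h2| + |d2 * h1 - d1 * h2|) (by linarith)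
      have h10 : m ≤ m ^ 2 := by nlinarith
      have h11 : |h2| * m ≤ |h2| * m ^ 2 := mul_le_mul_of_nonneg_left h10 p2
      have h12 : |d2 * h1 - d1 * h2| ≤ |d2 * h1 - d1 * h2| * m ^ 2 := by
        nlinarith
      have h13 : (|h1| + |h2| + |d2 * h1 - d1 * h2|) * m ^ 2 =
        |h1| * m ^ 2 + (|h2| * m ^ 2 + |d2 * h1 - d1 * h2| * m ^ 2) := by ring
      linarith

end Amb

end Pool.Agent.X155.ParaTwo
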