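import Pool.Agent.X155.ParaTwo

/-! Exponent-two-by-nilpotent subgroups. -/

namespace Pool.Agent.X155.ParaTwo

open DihedralGroup
open scoped commutatorElement

/-- (exponent dividing `m`)-by-nilpotent -/
def EmN (m : ℕ) (H : Type) [Group H] : Prop :=
  ∃ (K : Subgroup H) (_ : K.Normal), (∀ k ∈ K, k ^ m = 1) ∧ Group.IsNilpotent (H ⧸ K)

/-- finite-by-nilpotent -/
def FN (H : Type) [Group H] : Prop :=
  ∃ (K : Subgroup H) (_ : K.Normal), Finite K ∧ Group.IsNilpotent (H ⧸ K)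

/-- (exponent dividing `m`)-by-finite-by-nilpotent -/
def EmFN (m : ℕ) (H : Type) [Group H] : Prop :=
  ∃ (K : Subgroup H) (_ : K.Normal), (∀ k ∈ K, k ^ m = 1) ∧ FN (H ⧸ K)

lemma emn_of_hom {H A : Type} [Group H] [Group A] [Group.IsNilpotent A] (φ : H →* A) (m : ℕ)
    (h : ∀ x, φ x = 1 → x ^ m = 1) : EmN m H := by
  refine ⟨φ.ker, inferInstance, fun k hk => h k hk, ?_⟩
  refine Subgroup.isNilpotent_of_ker_le_center (QuotientGroup.kerLift φ) ?_
  rw [(MonoidHom.ker_eq_bot_iff _).2 (QuotientGroup.kerLift_injective φ)]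
  exact bot_le

namespace Amb

/-- the `h`-invariant hull of a set -/
def hull (U : Set (ℤ × ℤ)) (h : ℤ × ℤ) : Set (ℤ × ℤ) := {p | ∃ s ∈ U, ∃ i : ℤ, p = s + i • h}

lemma hull_inv {U : Set (ℤ × ℤ)} {h : ℤ × ℤ} {n : ℕ} {g : X n} {i : ℤ}
    (hg : g + cc n (i • h) ∈ red (hull U h) n) : g ∈ red (hull U h) n := by
  obtain ⟨_, ⟨s, hs, j, rfl⟩, hj⟩ := hg
  refine ⟨s + (j - i) • h, ⟨s, hs, j - i, rfl⟩, ?_⟩
  have h1 : s + (j - i) • h = (s + j • h) - i • h := by rw [sub_smul]; abel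
  rw [h1, map_sub, hj]; abel

lemma subset_hull (U : Set (ℤ × ℤ)) (h : ℤ × ℤ) : U ⊆ hull U h := fun s hs => ⟨s, hs, 0, by simp⟩

lemma hull_disj {U : Set (ℤ × ℤ)} (hU : U.Finite) (h : ℤ × ℤ) :
    ∃ N, ∀ n, N ≤ n → ∀ g, g ∉ red (hull U h) n ∨ g - cc n (q n) ∉ red (hull U h) n := by
  have hev : ∀ᶠ n in Filter.atTop, ∀ d ∈ (fun p : (ℤ × ℤ) × (ℤ × ℤ) => p.1 - p.2) '' (U ×ˢ U),
      ∀ i : ℤ, cc n (q n) ≠ cc n (d + i • h) := by
    rw [Filter.eventually_all_finite ((hU.prod hU).image _)]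
    exact fun d _ => line d h
  obtain ⟨N, hN⟩ := Filter.eventually_atTop.1 hev
  refine ⟨N, fun n hn g => ?_⟩
  by_contra hcon
  push Not at hcon
  obtain ⟨⟨_, ⟨s, hs, i, rfl⟩, hi⟩, ⟨_, ⟨s', hs', j, rfl⟩, hj⟩⟩ := hcon
  refine hN n hn (s - s') ⟨(s, s'), ⟨hs, hs'⟩, rfl⟩ (i - j) ?_
  have h1 : s - s' + (i - j) • h = (s + i • h) - (s' + j • h) := by rw [sub_smul]; abel
  rw [h1, map_sub, hi, hj]; abel

lemma zp_sq {n : ℕ} (i : ZMod n) {z : DihedralGroup n} (hz : z ∈ Subgroup.zpowers (sr i)) :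
    z ^ 2 = 1 := by
  obtain ⟨k, rfl⟩ := Subgroup.mem_zpowers_iff.1 hz
  rw [← zpow_natCast, ← zpow_mul, mul_comm, zpow_mul, zpow_natCast]
  rw [pow_two, sr_mul_self, one_zpow]

theorem emn_closure (x y : G) (hxy : (x : Amb).k = (y : Amb).k) :
    EmN 2 (Subgroup.closure {x, y} : Subgroup G) := by
  obtain ⟨S, hS, hSx⟩ := exists_star x.2
  obtain ⟨S', hS', hSy⟩ := exists_star y.2
  set h := (x : Amb).k with hh
  set P := red (hull (S ∪ S') h) with hP
  have hcl : ∀ z ∈ (Subgroup.closure {x, y} : Subgroup G),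
      Star P (z : Amb) ∧ ∃ i : ℤ, (z : Amb).k = i • h := by
    intro z hz
    induction hz using Subgroup.closure_induction with
    | mem z hz =>
      rcases hz with rfl | rfl
      · exact ⟨hSx.mono fun n => Set.image_mono (Set.subset_union_left.trans (subset_hull _ _)), 1,
          by simp [hh]⟩
      · exact ⟨hSy.mono fun n => Set.image_mono (Set.subset_union_right.trans (subset_hull _ _)), 1,
          by simp [← hxy]⟩
    | one => exact ⟨star_one _, 0, by simp [one_k]⟩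
    | mul z w _ _ hz hw =>
      obtain ⟨hz, i, hi⟩ := hz
      obtain ⟨hw, j, hj⟩ := hw
      refine ⟨hz.mul hw (fun n => subset_rfl) fun n g hg => ?_, i + j, ?_⟩
      · rw [hi] at hg; exact hull_inv hg
      · rw [Subgroup.coe_mul, mul_k, hi, hj, add_smul]
    | inv z _ hz =>
      obtain ⟨hz, i, hi⟩ := hz
      refine ⟨hz.inv fun n g hg => ?_, -i, ?_⟩
      · rw [hi, sub_eq_add_neg, ← map_neg, ← neg_smul] at hg; exact hull_inv hg
      · rw [InvMemClass.coe_inv, inv_k, hi, neg_smul]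
  obtain ⟨N, hN⟩ := hull_disj (hS.union hS') h
  let Φ : Amb →* ((n : Fin N) → Fin2 n) × Multiplicative (ℤ × ℤ) :=
    MonoidHom.prod (MonoidHom.pi fun n : Fin N => coord n) kh
  refine emn_of_hom ((Φ.comp G.subtype).comp (Subgroup.subtype _)) 2 ?_
  rintro ⟨z, hz⟩ hz1
  have hz1 : Φ (z : Amb) = 1 := hz1
  have hzk : (z : Amb).k = 0 := congrArg Prod.snd hz1
  have hzu : ∀ n (hn : n < N) g, (z : Amb).u n g = 1 := by
    intro n hn g
    have h1 := congrArg Prod.fst hz1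
    have h2 := congrFun h1 ⟨n, hn⟩
    have h3 := congrArg Fin2.u h2
    exact congrFun h3 g
  apply Subtype.ext
  apply Subtype.ext
  change (z : Amb) ^ 2 = 1
  apply ext'
  · intro n g
    rw [(pow_u hzk n g _).1, one_u]
    by_cases hn : N ≤ n
    · rcases hN n hn g with h' | h'
      · exact zp_sq _ (((hcl z hz).1 n g).1 h')
      · exact zp_sq _ (((hcl z hz).1 n g).2 h')
    · rw [hzu n (by omega) g, one_pow]
  · exact (pow_u hzk 0 0 _).2

/-- iterated commutators of the involution with a shift -/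
def b : ℕ → G
  | 0 => ⟨a, a_mem⟩
  | c + 1 => ⁅b c, ⟨T (1, 0), T1_mem⟩⁆

lemma b_mem (c : ℕ) : b c ∈ (⊤ : Subgroup G).lowerCentralSeries c := by
  induction c with
  | zero => exact Subgroup.mem_top _
  | succ c ih => exact Subgroup.commutator_mem_commutator ih (Subgroup.mem_top _)

lemma b_k (c : ℕ) : (b c : Amb).k = 0 := by
  cases c with
  | zero => rfl
  | succ c =>
    change ((b c : Amb) * T (1, 0) * (b c : Amb)⁻¹ * (T (1, 0))⁻¹).k = 0
    exact comm_k _ _

lemma b_succ_u (c n : ℕ) (g : X n) :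
    (b (c + 1) : Amb).u n g = (b c : Amb).u n g * ((b c : Amb).u n (g + cc n (1, 0)))⁻¹ := by
  change ((b c : Amb) * T (1, 0) * (b c : Amb)⁻¹ * (T (1, 0))⁻¹).u n g = _
  simp only [mul_u, mul_k, inv_u, b_k, T, one_mul, mul_one, inv_one, sub_zero, zero_add, map_zero]

lemma b_u (c : ℕ) : ∀ (n : ℕ) (g : X n),
    (∀ j : ℕ, 1 ≤ j → j ≤ c → a.u n (g + cc n ((j : ℤ), 0)) = 1) →
    (b c : Amb).u n g = a.u n g := by
  induction c with
  | zero => intro n g _; rfl
  | succ c ih =>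
    intro n g hg
    rw [b_succ_u, ih n g fun j h1 h2 => hg j h1 (by omega), ih n (g + cc n (1, 0)) ?_]
    · have := hg 1 le_rfl (by omega)
      simp only [Nat.cast_one] at this
      rw [this, inv_one, mul_one]
    · intro j h1 h2
      have := hg (j + 1) (by omega) (by omega)
      rw [add_assoc, ← map_add]
      convert this using 3
      ext <;> simp [add_comm]

lemma conj_T_u (g : ℤ × ℤ) {z : Amb} (hz : z.k = 0) (n : ℕ) (x : X n) :
    (T g * z * (T g)⁻¹).u n x = z.u n (x + cc n g) := by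
  rw [mul_u, mul_u, T_inv]
  simp [T]

/-- conjugates of the iterated commutators -/
def cj (c m : ℕ) : G :=
  ⟨T ((0 : ℤ), (m : ℤ)), by simpa using T_nat_mem 0 m⟩ * b c *
    ⟨T ((0 : ℤ), (m : ℤ)), by simpa using T_nat_mem 0 m⟩⁻¹

lemma cj_k (c m : ℕ) : (cj c m : Amb).k = 0 := by
  change (T ((0 : ℤ), (m : ℤ)) * (b c : Amb) * (T ((0 : ℤ), (m : ℤ)))⁻¹).k = 0
  simp [mul_k, inv_k, b_k]

lemma cj_u (c m n : ℕ) (x : X n) :
    (cj c m : Amb).u n x = (b c : Amb).u n (x + cc n ((0 : ℤ), (m : ℤ))) :=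
  conj_T_u _ (b_k c) n x

lemma a_one {n : ℕ} {x : X n} (h0 : x ≠ 0) (h1 : x ≠ cc n (q n)) : a.u n x = 1 := by
  simp [a, h0, h1]

theorem not_emfn : ¬ EmFN 2 G := by
  rintro ⟨K, hK, hexp, F, hF, hFfin, hnil⟩
  obtain ⟨c, hc⟩ := Subgroup.nilpotent_iff_lowerCentralSeries.1 hnil
  have hle : (⊤ : Subgroup (G ⧸ K)).lowerCentralSeries c ≤ F := by
    have h1 := Subgroup.map_lowerCentralSeries (S := (⊤ : Subgroup (G ⧸ K)))
      (QuotientGroup.mk' F) c
    rw [← MonoidHom.range_eq_map, MonoidHom.range_eq_top.2 (QuotientGroup.mk'_surjective F), hc,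
      Subgroup.map_eq_bot_iff, QuotientGroup.ker_mk'] at h1
    exact h1
  have hbF : QuotientGroup.mk' K (b c) ∈ F := by
    apply hle
    have h1 := Subgroup.map_lowerCentralSeries (S := (⊤ : Subgroup G))
      (QuotientGroup.mk' K) c
    rw [← MonoidHom.range_eq_map, MonoidHom.range_eq_top.2 (QuotientGroup.mk'_surjective K)] at h1
    rw [← h1]
    exact ⟨b c, b_mem c, rfl⟩
  have hcjF : ∀ m, QuotientGroup.mk' K (cj c m) ∈ F := by
    intro m
    rw [cj, map_mul, map_mul, map_inv]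
    exact hF.conj_mem _ hbF _
  obtain ⟨m₁, m₂, hne, heq⟩ := Finite.exists_ne_map_eq_of_infinite
    (fun m : ℕ => (⟨QuotientGroup.mk' K (cj c m), hcjF m⟩ : F))
  have heq : QuotientGroup.mk' K (cj c m₁) = QuotientGroup.mk' K (cj c m₂) :=
    congrArg Subtype.val heq
  set e : G := cj c m₁ * (cj c m₂)⁻¹ with he
  have heK : e ∈ K := by
    have h1 : QuotientGroup.mk' K e = 1 := by
      rw [he, map_mul, map_inv, heq, mul_inv_cancel]
    exact (QuotientGroup.eq_one_iff e).1 h1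
  have hek : (e : Amb).k = 0 := by
    change (cj c m₁ : Amb).k + -(cj c m₂ : Amb).k = 0
    rw [cj_k, cj_k]; simp
  have heu : ∀ n x, (e : Amb).u n x =
      (b c : Amb).u n (x + cc n ((0 : ℤ), (m₁ : ℤ))) *
        ((b c : Amb).u n (x + cc n ((0 : ℤ), (m₂ : ℤ))))⁻¹ := by
    intro n x
    change (cj c m₁ : Amb).u n x *
      ((cj c m₂ : Amb).u n (x + cc n (cj c m₁ : Amb).k - cc n (cj c m₂ : Amb).k))⁻¹ = _
    rw [cj_k, cj_k, cj_u, cj_u]; simp
  set l : ℤ := (m₂ : ℤ) - m₁ with hl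
  have hl0 : l ≠ 0 := by
    rw [hl]; intro h; exact hne (by omega)
  -- choose a large coordinate
  set n : ℕ := 2 + c + l.natAbs with hn
  set m : ℤ := (n : ℤ) + 1 with hm
  have habs : |l| = (l.natAbs : ℤ) := Int.abs_eq_natAbs l
  have hlm : |l| < m := by rw [habs, hm, hn]; push_cast; omega
  have hcm : (c : ℤ) < m := by rw [hm, hn]; push_cast; omega
  have hm3 : 3 ≤ m := by rw [hm, hn]; push_cast; omega
  have hR : 2 * m ^ 2 < (R n : ℤ) := R_bound (by rw [← hm]; linarith)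
  have hl1 : -m < l ∧ l < m := abs_lt.1 hlm
  -- nonvanishing facts
  have f1 : ∀ j : ℕ, 1 ≤ j → j ≤ c → (((j : ℤ)) : ZMod (R n)) ≠ 0 := by
    intro j h1 h2
    have h2' : (j : ℤ) ≤ c := by exact_mod_cast h2
    refine zne (by omega) ?_
    rw [abs_of_nonneg (by omega)]
    nlinarith
  have f2 : ((m ^ 2 : ℤ) : ZMod (R n)) ≠ 0 := by
    refine zne (by nlinarith) ?_
    rw [abs_of_nonneg (by positivity)]
    nlinarith
  have f3 : ((l : ℤ) : ZMod (R n)) ≠ 0 := by
    refine zne hl0 ?_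
    nlinarith
  have f4 : ((m ^ 2 - l : ℤ) : ZMod (R n)) ≠ 0 := by
    refine zne (by nlinarith) ?_
    rw [abs_of_nonneg (by nlinarith)]
    nlinarith
  have f5 : ((m ^ 2 + l : ℤ) : ZMod (R n)) ≠ 0 := by
    refine zne (by nlinarith) ?_
    rw [abs_of_nonneg (by nlinarith)]
    nlinarith
  have hq : q n = (m, m ^ 2) := rfl
  have hzero : ∀ x y : ℤ, ((x : ZMod (R n)) ≠ 0 ∨ (y : ZMod (R n)) ≠ 0) → cc n (x, y) ≠ 0 := by
    rintro x y h h0
    rcases h with h | h
    · exact h (congrArg Prod.fst h0)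
    · exact h (congrArg Prod.snd h0)
  have hquu : ∀ x y : ℤ, (((x - m : ℤ) : ZMod (R n)) ≠ 0 ∨ ((y - m ^ 2 : ℤ) : ZMod (R n)) ≠ 0) →
      cc n (x, y) ≠ cc n (q n) := by
    rintro x y h h0
    rw [hq] at h0
    rcases h with h | h
    · have h1 : (x : ZMod (R n)) = (m : ZMod (R n)) := congrArg Prod.fst h0
      exact h (by rw [Int.cast_sub, h1, sub_self])
    · have h1 : (y : ZMod (R n)) = ((m ^ 2 : ℤ) : ZMod (R n)) := congrArg Prod.snd h0
      exact h (by rw [Int.cast_sub, h1, sub_self])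
  have hneg : ∀ x : ℤ, ((x : ℤ) : ZMod (R n)) ≠ 0 → ((-x : ℤ) : ZMod (R n)) ≠ 0 := by
    intro x h h0
    apply h
    rw [Int.cast_neg, neg_eq_zero] at h0
    exact h0
  have hadd : ∀ k k' : ℤ × ℤ, cc n k + cc n k' = cc n (k + k') := fun k k' => (map_add _ _ _).symm
  -- values of `b c`
  have g1 : (b c : Amb).u n 0 = sr 0 := by
    rw [b_u]
    · simp [a]
    · intro j h1 h2
      rw [zero_add]
      apply a_one
      · exact hzero _ _ (Or.inl (f1 j h1 h2))
      · refine hquu _ _ (Or.inr ?_)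
        rw [zero_sub]; exact hneg _ f2
  have g2 : (b c : Amb).u n (cc n (q n)) = sr 1 := by
    rw [b_u]
    · have : cc n (q n) ≠ 0 := by rw [hq]; exact hzero _ _ (Or.inr f2)
      simp [a, this]
    · intro j h1 h2
      rw [hadd, hq]
      change a.u n (cc n (m + (j : ℤ), m ^ 2 + 0)) = 1
      apply a_one
      · exact hzero _ _ (Or.inr (by rw [add_zero]; exact f2))
      · refine hquu _ _ (Or.inl ?_)
        rw [add_sub_cancel_left]; exact f1 j h1 h2
  have g3 : (b c : Amb).u n (cc n (0, l)) = 1 := by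
    have aux : ∀ x : ℤ, a.u n (cc n (x, l)) = 1 := by
      intro x
      apply a_one
      · exact hzero _ _ (Or.inr f3)
      · refine hquu _ _ (Or.inr ?_)
        have := hneg _ f4
        rwa [neg_sub] at this
    rw [b_u]
    · exact aux 0
    · intro j h1 h2
      rw [hadd]
      change a.u n (cc n (0 + (j : ℤ), l + 0)) = 1
      rw [add_zero]
      exact aux _
  have g4 : (b c : Amb).u n (cc n (q n) + cc n (0, l)) = 1 := by
    have aux : ∀ x : ℤ, a.u n (cc n (x, m ^ 2 + l)) = 1 := by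
      intro x
      apply a_one
      · exact hzero _ _ (Or.inr f5)
      · refine hquu _ _ (Or.inr ?_)
        rw [add_sub_cancel_left]; exact f3
    rw [hadd, hq]
    rw [b_u]
    · exact aux _
    · intro j h1 h2
      rw [hadd]
      change a.u n (cc n (m + 0 + (j : ℤ), m ^ 2 + l + 0)) = 1
      rw [add_zero (m ^ 2 + l)]
      exact aux _
  -- the two noncommuting elements
  set p₀ : X n := -cc n ((0 : ℤ), (m₁ : ℤ)) with hp₀
  have hml : cc n ((0 : ℤ), (m₂ : ℤ)) = cc n (0, l) + cc n ((0 : ℤ), (m₁ : ℤ)) := by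
    rw [hadd]
    change _ = cc n (0 + 0, l + (m₁ : ℤ))
    rw [hl]; congr 1; ext <;> simp
  have e1 : (e : Amb).u n p₀ = sr 0 := by
    rw [heu, hml, hp₀, neg_add_cancel, g1, add_comm, add_assoc, add_neg_cancel, add_zero, g3,
      inv_one, mul_one]
  have e2 : (e : Amb).u n (p₀ + cc n (q n)) = sr 1 := by
    have h1 : p₀ + cc n (q n) + cc n ((0 : ℤ), (m₁ : ℤ)) = cc n (q n) := by
      rw [hp₀]; abel
    have h2 : p₀ + cc n (q n) + cc n ((0 : ℤ), (m₂ : ℤ)) = cc n (q n) + cc n (0, l) := by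
      rw [hml, hp₀]; abel
    rw [heu, h1, h2, g2, g4, inv_one, mul_one]
  set e' : G := ⟨T (q n), Tq_mem n⟩ * e * ⟨T (q n), Tq_mem n⟩⁻¹ with he'
  have he'K : e' ∈ K := hK.conj_mem _ heK _
  have he'k : (e' : Amb).k = 0 := by
    change (T (q n)).k + (e : Amb).k + -(T (q n)).k = 0
    rw [hek]; simp
  have he'u : (e' : Amb).u n p₀ = sr 1 := by
    change (T (q n) * (e : Amb) * (T (q n))⁻¹).u n p₀ = sr 1
    rw [conj_T_u _ hek, e2]
  have hcomm : e * e' = e' * e := by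
    have h1 : e * e = 1 := by rw [← pow_two]; exact hexp e heK
    have h2 : e' * e' = 1 := by rw [← pow_two]; exact hexp e' he'K
    have h3 : (e * e') * (e * e') = 1 := by rw [← pow_two]; exact hexp _ (K.mul_mem heK he'K)
    calc e * e' = e * (e * e' * (e * e')) * e' := by rw [h3, mul_one]
      _ = (e * e) * (e' * e) * (e' * e') := by group
      _ = e' * e := by rw [h1, h2, one_mul, mul_one]
  have hfin := congrArg (fun z : G => (z : Amb).u n p₀) hcomm
  change (e : Amb).u n p₀ * (e' : Amb).u n (p₀ + cc n (e : Amb).k) =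
    (e' : Amb).u n p₀ * (e : Amb).u n (p₀ + cc n (e' : Amb).k) at hfin
  rw [hek, he'k, map_zero, add_zero, e1, he'u] at hfin
  revert hfin
  decide

end Amb

end Pool.Agent.X155.ParaTwo
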