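import Mathlib

/-! Units of the Lipschitz quaternions modulo `128`. -/

namespace X155.QuatU
open Quaternion

/-- Hamilton quaternions with coefficients in `ZMod 128`. -/
abbrev H := Quaternion (ZMod 128)

/-- The quaternion `a + b i + c j + d k`. -/
def q (a b c d : ZMod 128) : H := ⟨a, b, c, d⟩

@[simp] theorem q_re (a b c d : ZMod 128) : (q a b c d).re = a := rfl
@[simp] theorem q_imI (a b c d : ZMod 128) : (q a b c d).imI = b := rfl
@[simp] theorem q_imJ (a b c d : ZMod 128) : (q a b c d).imJ = c := rfl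
@[simp] theorem q_imK (a b c d : ZMod 128) : (q a b c d).imK = d := rfl

theorem l1 : ∀ x : ZMod 128, 2 * x = 0 → ∃ c, x = 64 * c := by decide +kernel
theorem l2 : ∀ x : ZMod 128, 64 * x = 64 → ∃ y, x * y = 1 := by decide +kernel
theorem l3 : ∀ x : ZMod 128, 64 * x = 0 ∨ 64 * x = 64 := by decide +kernel
theorem l4 : ∀ x : ZMod 128, 64 * x = 64 → ∃ k : Fin 32, x = 5 ^ (k : ℕ) ∨ x = -5 ^ (k : ℕ) := by
  decide +kernel
theorem l5 : ∀ x : ZMod 128, 64 * x = 64 → ∃ y, x = 1 + 2 * y := by decide +kernel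
theorem l6 : ∀ x y : ZMod 128, x * y = 1 → 64 * x = 64 := by decide +kernel
theorem l7 : (64 : ZMod 128) ≠ 0 := by decide

instance : CharP H 128 :=
  charP_of_injective_algebraMap (R := ZMod 128) (A := H) Quaternion.algebraMap_injective 128

instance : Finite H := Finite.of_equiv _ (Quaternion.equivProd (ZMod 128)).symm

theorem card_H : Nat.card H = 128 ^ 4 := by
  rw [Nat.card_congr (Quaternion.equivProd (ZMod 128))]
  simp

theorem norm_unit (u : Hˣ) : 64 * normSq (u : H) = 64 := by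
  refine l6 _ (normSq ((u⁻¹ : Hˣ) : H)) ?_
  rw [← map_mul]; simp

theorem sq_form (u : Hˣ) : ∃ r : H, (u : H) ^ 2 = 1 + (2 : ℕ) • r := by
  have h := norm_unit u
  rw [normSq_def'] at h
  obtain ⟨y, hy⟩ := l5 ((u : H).re ^ 2 - (u : H).imI ^ 2 - (u : H).imJ ^ 2 - (u : H).imK ^ 2) (by
    have h128 : (128 : ZMod 128) = 0 := by decide
    linear_combination h - ((u : H).imI ^ 2 + (u : H).imJ ^ 2 + (u : H).imK ^ 2) * h128)
  have key : ∀ v : H, v.re ^ 2 - v.imI ^ 2 - v.imJ ^ 2 - v.imK ^ 2 = 1 + 2 * y →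
      ∃ r : H, v * v = 1 + (r + r) := by
    intro v hv
    refine ⟨q y (v.re * v.imI) (v.re * v.imJ) (v.re * v.imK), ?_⟩
    apply Quaternion.ext
    · simp; linear_combination hv
    · simp; ring
    · simp; ring
    · simp; ring
  obtain ⟨r, hr⟩ := key _ hy
  exact ⟨r, by rw [sq, two_nsmul, hr]⟩

theorem pow_form (u : Hˣ) (s : ℕ) : ∃ r : H, (u : H) ^ (2 ^ (s + 1)) = 1 + (2 ^ (s + 1) : ℕ) • r := by
  induction s with
  | zero => simpa using sq_form u
  | succ s ih =>
    obtain ⟨r, hr⟩ := ih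
    refine ⟨r + (2 ^ s : ℕ) • (r * r), ?_⟩
    have e : 2 ^ (s + 1 + 1) = 2 ^ (s + 1) * 2 := pow_succ 2 (s + 1)
    rw [e, pow_mul, hr, sq]
    simp only [add_mul, mul_add, smul_mul_assoc, mul_smul_comm, one_mul, mul_one, smul_add,
      smul_smul]
    module

theorem pow_128 (u : Hˣ) : u ^ (2 ^ 7) = 1 := by
  obtain ⟨r, hr⟩ := pow_form u 6
  apply Units.ext
  rw [Units.val_pow_eq_pow_val, Units.val_one, hr, nsmul_eq_mul]
  have : ((2 ^ (6 + 1) : ℕ) : H) = 0 := by
    have := CharP.cast_eq_zero H 128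
    simpa using this
  rw [this]; simp

theorem isPGroup : IsPGroup 2 Hˣ := fun g => ⟨7, pow_128 g⟩

theorem q_mul (a b c d a' b' c' d' : ZMod 128) : q a b c d * q a' b' c' d' =
    q (a * a' - b * b' - c * c' - d * d') (a * b' + b * a' + c * d' - d * c')
      (a * c' - b * d' + c * a' + d * b') (a * d' + b * c' - c * b' + d * a') := by
  apply Quaternion.ext <;> simp

theorem q_one : q 1 0 0 0 = 1 := rfl

/-- The units `i`, `j` and `1 + 2 i`. -/
def uI : Hˣ where
  val := q 0 1 0 0
  inv := q 0 (-1) 0 0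
  val_inv := by rw [q_mul, ← q_one]; simp
  inv_val := by rw [q_mul, ← q_one]; simp

/-- The unit `j`. -/
def uJ : Hˣ where
  val := q 0 0 1 0
  inv := q 0 0 (-1) 0
  val_inv := by rw [q_mul, ← q_one]; simp
  inv_val := by rw [q_mul, ← q_one]; simp

theorem e77 : (77 : ZMod 128) - 2 * 102 = 1 := by decide
theorem e102 : (102 : ZMod 128) + 2 * 77 = 0 := by decide

/-- The unit `1 + 2 i`. -/
def u0 : Hˣ where
  val := q 1 2 0 0
  inv := q 77 102 0 0
  val_inv := by
    rw [q_mul, ← q_one]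
    congr 1
  inv_val := by
    rw [q_mul, ← q_one]
    congr 1

theorem u0_pow : (u0 : H) ^ 32 = q 65 64 0 0 := by
  have h1 : (u0 : H) ^ 2 = q 125 4 0 0 := by
    change (q 1 2 0 0) ^ 2 = _
    rw [sq, q_mul]; congr 1
  have h2 : (u0 : H) ^ 4 = q 121 104 0 0 := by
    rw [show 4 = 2 * 2 from rfl, pow_mul, h1, sq, q_mul]; congr 1
  have h3 : (u0 : H) ^ 8 = q 113 80 0 0 := by
    rw [show 8 = 4 * 2 from rfl, pow_mul, h2, sq, q_mul]; congr 1
  have h4 : (u0 : H) ^ 16 = q 97 32 0 0 := by
    rw [show 16 = 8 * 2 from rfl, pow_mul, h3, sq, q_mul]; congr 1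
  rw [show 32 = 16 * 2 from rfl, pow_mul, h4, sq, q_mul]; congr 1

theorem u0_pow_ne : u0 ^ 32 ≠ 1 := by
  intro h
  have h1 : (u0 : H) ^ 32 = 1 := by rw [← Units.val_pow_eq_pow_val, h, Units.val_one]
  rw [u0_pow] at h1
  have h2 := congrArg (fun z : H => z.imI) h1
  simp at h2
  exact l7 h2

/-! ### Rings of characteristic two -/

theorem many_units {S : Type} [Ring S] [Finite S] [CharP S 2] (x : S) (m : ℕ) (hx : x ^ m ≠ 0)
    (hnil : IsNilpotent x) : 2 ^ m ≤ Nat.card Sˣ := by
  classical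
  have h2 : ∀ z : S, z + z = 0 := fun z => CharTwo.add_self_eq_zero z
  set N := nilpotencyClass x with hN
  have hNx : x ^ N = 0 := pow_nilpotencyClass hnil
  have hmN : m < N := by
    by_contra hlt
    push Not at hlt
    exact hx (by rw [← Nat.sub_add_cancel hlt, pow_add, hNx, mul_zero])
  have : Nontrivial S := ⟨x ^ m, 0, hx⟩
  have hpred : x ^ (N - 1) ≠ 0 := pow_pred_nilpotencyClass hnil
  let f : Finset ℕ → S := fun T => ∑ k ∈ T, x ^ (k + 1)
  have hfsum : ∀ T T' : Finset ℕ, f T + f T' = f (symmDiff T T') := by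
    intro T T'
    have e1 : f T = f (T \ T') + f (T ∩ T') := by
      change ∑ k ∈ T, _ = ∑ k ∈ _, _ + ∑ k ∈ _, _
      rw [add_comm, Finset.sum_inter_add_sum_sdiff]
    have e2 : f T' = f (T' \ T) + f (T ∩ T') := by
      change ∑ k ∈ T', _ = ∑ k ∈ _, _ + ∑ k ∈ _, _
      rw [add_comm, Finset.inter_comm, Finset.sum_inter_add_sum_sdiff]
    have e3 : f (symmDiff T T') = f (T \ T') + f (T' \ T) := by
      change ∑ k ∈ symmDiff T T', _ = ∑ k ∈ _, _ + ∑ k ∈ _, _
      rw [← Finset.sum_union (disjoint_sdiff_sdiff)]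
      rfl
    rw [e1, e2, e3]
    calc f (T \ T') + f (T ∩ T') + (f (T' \ T) + f (T ∩ T'))
        = f (T \ T') + f (T' \ T) + (f (T ∩ T') + f (T ∩ T')) := by abel
      _ = _ := by rw [h2, add_zero]
  have hf0 : ∀ D : Finset ℕ, D ⊆ Finset.range m → f D = 0 → D = ∅ := by
    intro D hD hf
    by_contra hne
    have hne' : D.Nonempty := Finset.nonempty_iff_ne_empty.mpr hne
    set k0 := D.min' hne' with hk0
    have hk0D : k0 ∈ D := D.min'_mem hne'
    have hk0m : k0 < m := Finset.mem_range.mp (hD hk0D)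
    have h3 : x ^ (N - 1 - (k0 + 1)) * f D = x ^ (N - 1) := by
      change x ^ (N - 1 - (k0 + 1)) * ∑ k ∈ D, _ = _
      rw [Finset.mul_sum, Finset.sum_eq_single_of_mem k0 hk0D]
      · rw [← pow_add]; congr 1; omega
      · intro k hk hkk
        have hlt : k0 < k := lt_of_le_of_ne (D.min'_le k hk) (Ne.symm hkk)
        rw [← pow_add, show N - 1 - (k0 + 1) + (k + 1) = N + (k - k0 - 1) by omega, pow_add, hNx,
          zero_mul]
    rw [hf, mul_zero] at h3
    exact hpred h3.symm
  have hunit : ∀ T : Finset ℕ, IsUnit (1 + f T) := by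
    intro T
    have : IsNilpotent (f T) := by
      have e : f T = x * ∑ k ∈ T, x ^ k := by
        change ∑ k ∈ T, _ = _
        rw [Finset.mul_sum]
        exact Finset.sum_congr rfl fun k _ => pow_succ' x k
      rw [e]
      refine Commute.isNilpotent_mul_right ?_ hnil
      exact Commute.sum_right _ _ _ fun k _ => Commute.pow_right (Commute.refl x) k
    exact this.isUnit_one_add
  let g : {T // T ∈ (Finset.range m).powerset} → Sˣ := fun T => (hunit T.1).unit
  have hg : Function.Injective g := by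
    intro T T' h
    have h1 : (1 : S) + f T.1 = 1 + f T'.1 := by
      have := congrArg (fun u : Sˣ => (u : S)) h
      simpa [g] using this
    have h3 : f T.1 = f T'.1 := add_left_cancel h1
    have h4 : f (symmDiff T.1 T'.1) = 0 := by rw [← hfsum, h3, h2]
    have h5 := hf0 _ (by
      intro k hk
      rw [Finset.mem_symmDiff] at hk
      rcases hk with hk | hk
      · exact Finset.mem_powerset.mp T.2 hk.1
      · exact Finset.mem_powerset.mp T'.2 hk.1) h4
    exact Subtype.ext (symmDiff_eq_bot.mp h5)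
  have := Nat.card_le_card_of_injective g hg
  rw [Nat.card_eq_fintype_card, Fintype.card_coe, Finset.card_powerset, Finset.card_range] at this
  exact this

theorem not_char_two (S : Type) [Ring S] [Finite S] [CharP S 2] : IsEmpty (Sˣ ≃* Hˣ) := by
  refine ⟨fun e => ?_⟩
  set u : Sˣ := e.symm u0 with hu
  have hu32 : u ^ 32 ≠ 1 := by
    intro h
    apply u0_pow_ne
    have := congrArg e h
    simpa [hu] using this
  have hu128 : u ^ 128 = 1 := by
    have : u0 ^ 128 = 1 := pow_128 u0
    rw [hu, ← map_pow, this, map_one]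
  have hexp : ∀ k : ℕ, ((u : S) - 1) ^ (2 ^ k) = (u : S) ^ (2 ^ k) - 1 := by
    intro k
    rw [sub_pow_char_pow_of_commute (p := 2) (R := S) (n := k) (Commute.one_right _)]
    simp
  have h1 : ((u : S) - 1) ^ 32 ≠ 0 := by
    have := hexp 5
    norm_num at this
    rw [this]
    intro h
    apply hu32
    apply Units.ext
    rw [Units.val_pow_eq_pow_val, Units.val_one]
    exact sub_eq_zero.mp h
  have h2 : IsNilpotent ((u : S) - 1) := by
    refine ⟨128, ?_⟩
    have := hexp 7
    norm_num at this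
    rw [this, ← Units.val_pow_eq_pow_val, hu128]
    simp
  have h3 := many_units ((u : S) - 1) 32 h1 h2
  have h4 : Nat.card Sˣ = Nat.card Hˣ := Nat.card_congr e.toEquiv
  have h5 : Nat.card Hˣ ≤ Nat.card H :=
    Nat.card_le_card_of_injective (fun u : Hˣ => (u : H)) Units.val_injective
  rw [card_H] at h5
  rw [h4] at h3
  have h6 : 2 ^ 32 ≤ 128 ^ 4 := h3.trans h5
  norm_num at h6

/-! ### Indecomposability -/

theorem comm_IJ {x y : H} (h : x * y = y * x) : 2 * (x.imI * y.imJ - x.imJ * y.imI) = 0 := by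
  have := congrArg (fun z : H => z.imK) h
  simp at this
  linear_combination this

theorem comm_IK {x y : H} (h : x * y = y * x) : 2 * (x.imI * y.imK - x.imK * y.imI) = 0 := by
  have := congrArg (fun z : H => z.imJ) h
  simp at this
  linear_combination -this

theorem comm_JK {x y : H} (h : x * y = y * x) : 2 * (x.imJ * y.imK - x.imK * y.imJ) = 0 := by
  have := congrArg (fun z : H => z.imI) h
  simp at this
  linear_combination this

theorem central {x : H} (h1 : 2 * x.imI = 0) (h2 : 2 * x.imJ = 0) (h3 : 2 * x.imK = 0) (y : H) :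
    x * y = y * x := by
  apply Quaternion.ext
  · simp; ring
  · simp; linear_combination y.imK * h2 - y.imJ * h3
  · simp; linear_combination y.imI * h3 - y.imK * h1
  · simp; linear_combination y.imJ * h1 - y.imI * h2

theorem thirtytwo_two (x : ZMod 128) (h : 2 * x = 0) : 64 * x = 0 := by
  linear_combination 32 * h

theorem cast_128 : (128 : H) = 0 := by
  have := CharP.cast_eq_zero H 128
  simpa using this

theorem square_form (c : H) : (1 + 32 * c) * (1 + 32 * c) = 1 + 64 * c := by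
  have h32 : (32 : H) * c = c * 32 := by
    have := (Nat.cast_commute 32 c).eq
    simpa using this
  have e : (1 + 32 * c) * (1 + 32 * c) = 1 + 64 * c + 128 * (8 * (c * c)) := by
    rw [mul_add, mul_one, add_mul, one_mul]
    have : 32 * c * (32 * c) = 128 * (8 * (c * c)) := by
      calc 32 * c * (32 * c) = 32 * (c * 32) * c := by noncomm_ring
        _ = 32 * (32 * c) * c := by rw [h32]
        _ = 128 * (8 * (c * c)) := by noncomm_ring
    rw [this]
    noncomm_ring
  rw [e, cast_128]; simp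

theorem core (pA pB : Hˣ →* Hˣ) (hm : ∀ g, pA g * pB g = g)
    (hc : ∀ g h, pA g * pB h = pB h * pA g) (hp : ∀ g, pB (pB g) = pB g)
    (hodd : 64 * (pA uI : H).imI = 64) (g : Hˣ) : pB g = 1 := by
  -- everything in terms of elements of `H`
  have hm' : ∀ g : Hˣ, (pA g : H) * (pB g : H) = g := fun g => by rw [← Units.val_mul, hm]
  have hc' : ∀ g h : Hˣ, (pA g : H) * (pB h : H) = (pB h : H) * (pA g : H) := fun g h => by
    rw [← Units.val_mul, hc, Units.val_mul]
  have hcA : ∀ g : Hˣ, (g : H) * (pA g : H) = (pA g : H) * g := fun g => by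
    rw [← hm' g, mul_assoc, ← hc']
  have hcB : ∀ g : Hˣ, (g : H) * (pB g : H) = (pB g : H) * g := fun g => by
    rw [← hm' g, hc', mul_assoc, ← hc']
  set a : H := (pA uI : H) with ha
  set b : H := (pB uI : H) with hb
  set a' : H := (pA uJ : H) with ha'
  set b' : H := (pB uJ : H) with hb'
  have hI : (uI : H) = q 0 1 0 0 := rfl
  have hJ : (uJ : H) = q 0 0 1 0 := rfl
  have a1 : 2 * a.imJ = 0 := by simpa [hI] using comm_IJ (hcA uI)
  have a2 : 2 * a.imK = 0 := by simpa [hI] using comm_IK (hcA uI)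
  have b1 : 2 * b.imJ = 0 := by simpa [hI] using comm_IJ (hcB uI)
  have b2 : 2 * b.imK = 0 := by simpa [hI] using comm_IK (hcB uI)
  have c1 : 2 * a'.imI = 0 := by simpa [hJ] using comm_IJ (hcA uJ)
  have c2 : 2 * a'.imK = 0 := by simpa [hJ] using comm_JK (hcA uJ)
  have d1 : 2 * b'.imI = 0 := by simpa [hJ] using comm_IJ (hcB uJ)
  have d2 : 2 * b'.imK = 0 := by simpa [hJ] using comm_JK (hcB uJ)
  -- `b'` is central
  obtain ⟨y, hy⟩ := l2 _ hodd
  have d3 : 2 * b'.imJ = 0 := by
    have := comm_IJ (hc' uI uJ)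
    linear_combination y * this - 2 * b'.imJ * hy + y * b'.imI * a1
  -- `a'.imJ` is odd
  have e1 : 64 * (a'.imJ * b'.re) = 64 := by
    have := congrArg (fun z : H => z.imJ) (hm' uJ)
    simp only [hJ, Quaternion.imJ_mul, q_imJ] at this
    linear_combination 64 * this - 32 * a'.re * d3 + 32 * b'.imK * c1 - 32 * b'.imI * c2
  obtain ⟨y', hy'⟩ := l2 _ e1
  have b3 : 2 * b.imI = 0 := by
    have := comm_IJ (hc' uJ uI)
    linear_combination -(y' * b'.re) * this - 2 * b.imI * hy' + y' * b'.re * a'.imI * b1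
  -- all values of `pB` are central
  have hcI : ∀ g : Hˣ, (pB g : H) * (uI : H) = (uI : H) * (pB g : H) := fun g => by
    rw [← hm' uI, ← mul_assoc, ← hc', mul_assoc, mul_assoc, central b3 b1 b2]
  have hcJ : ∀ g : Hˣ, (pB g : H) * (uJ : H) = (uJ : H) * (pB g : H) := fun g => by
    rw [← hm' uJ, ← mul_assoc, ← hc', mul_assoc, mul_assoc, central d1 d3 d2]
  have w1 : ∀ g : Hˣ, 2 * (pB g : H).imI = 0 := fun g => by simpa [hJ] using comm_IJ (hcJ g)
  have w2 : ∀ g : Hˣ, 2 * (pB g : H).imJ = 0 := fun g => by simpa [hI] using comm_IJ (hcI g)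
  have w3 : ∀ g : Hˣ, 2 * (pB g : H).imK = 0 := fun g => by simpa [hI] using comm_IK (hcI g)
  have hcen : ∀ g h : Hˣ, pB g * h = h * pB g := fun g h =>
    Units.ext (by rw [Units.val_mul, Units.val_mul, central (w1 g) (w2 g) (w3 g)])
  -- the elements whose image under `pB` is a square of a value of `pB`
  let N : Submonoid Hˣ :=
    { carrier := {g | ∃ h, pB g = pB h ^ 2}
      one_mem' := ⟨1, by simp⟩
      mul_mem' := by
        rintro x y ⟨h, hh⟩ ⟨k, hk⟩
        refine ⟨h * k, ?_⟩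
        rw [map_mul, map_mul, hh, hk]
        exact ((show Commute (pB h) (pB k) from hcen h _).mul_pow 2).symm }
  have hNsq : ∀ h : Hˣ, h * h ∈ N := fun h => ⟨h, by rw [map_mul, sq]⟩
  have hNconj : ∀ h k : Hˣ, h * (k * h * k⁻¹) ∈ N := fun h k => ⟨h, by
    rw [map_mul, map_mul, map_mul, sq, hcen k, mul_assoc, ← map_mul, mul_inv_cancel, map_one,
      mul_one]⟩
  have hneg : (-1 : Hˣ) ∈ N := by
    have : uI * uI = -1 := by
      apply Units.ext
      rw [Units.val_mul, hI, q_mul, Units.val_neg, Units.val_one, ← q_one]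
      apply Quaternion.ext <;> simp
    rw [← this]; exact hNsq _
  have h5 : u0 * (uJ * u0 * uJ⁻¹) ∈ N := hNconj _ _
  set u5 : Hˣ := u0 * (uJ * u0 * uJ⁻¹) with hu5
  have h5v : (u5 : H) = q 5 0 0 0 := by
    change q 1 2 0 0 * (q 0 0 1 0 * q 1 2 0 0 * q 0 0 (-1) 0) = _
    rw [q_mul, q_mul, q_mul]
    apply Quaternion.ext
    · simp; decide
    · simp
    · simp
    · simp
  have h5k : ∀ k : ℕ, ((u5 ^ k : Hˣ) : H) = q (5 ^ k) 0 0 0 := by
    intro k
    induction k with
    | zero => rw [pow_zero, pow_zero]; rfl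
    | succ k ih => rw [pow_succ, Units.val_mul, ih, h5v, q_mul, pow_succ]; simp
  have hNall : ∀ g : Hˣ, pB g ∈ N := by
    intro g
    set w : H := (pB g : H) with hw
    obtain ⟨x1, hx1⟩ := l1 _ (w1 g)
    obtain ⟨x2, hx2⟩ := l1 _ (w2 g)
    obtain ⟨x3, hx3⟩ := l1 _ (w3 g)
    have hre : 64 * w.re = 64 := by
      have h := norm_unit (pB g)
      rw [normSq_def', ← hw] at h
      have h2 : 64 * (w.re * w.re) = 64 := by
        linear_combination h - 32 * w.imI * w1 g - 32 * w.imJ * w2 g - 32 * w.imK * w3 g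
      obtain ⟨z, hz⟩ := l2 _ h2
      exact l6 _ (w.re * z) (by rw [← mul_assoc]; exact hz)
    have ht4 : (1 + 32 * q 0 x1 x2 x3) * ((1 + 32 * q 0 x1 x2 x3) * ((1 + 32 * q 0 x1 x2 x3) *
        (1 + 32 * q 0 x1 x2 x3))) = 1 := by
      rw [square_form, ← mul_assoc, square_form]
      have : (1 + 64 * q 0 x1 x2 x3) * (1 + 64 * q 0 x1 x2 x3) = 1 + 64 * (2 * q 0 x1 x2 x3) := by
        have := square_form (2 * q 0 x1 x2 x3)
        rw [← this]; noncomm_ring
      rw [this]
      have : (64 : H) * (2 * q 0 x1 x2 x3) = 128 * q 0 x1 x2 x3 := by noncomm_ring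
      rw [this, cast_128]; simp
    let t : Hˣ :=
      { val := 1 + 32 * q 0 x1 x2 x3
        inv := (1 + 32 * q 0 x1 x2 x3) * ((1 + 32 * q 0 x1 x2 x3) * (1 + 32 * q 0 x1 x2 x3))
        val_inv := ht4
        inv_val := by
          have h := ht4
          simp only [← mul_assoc] at h ⊢
          exact h }
    have htt : ((t * t : Hˣ) : H) = q 1 (64 * x1) (64 * x2) (64 * x3) := by
      rw [Units.val_mul]
      change (1 + 32 * q 0 x1 x2 x3) * (1 + 32 * q 0 x1 x2 x3) = _
      rw [square_form]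
      have : (64 : H) = q 64 0 0 0 := rfl
      rw [this, q_mul]
      apply Quaternion.ext <;> simp
    have hprod : ∀ p : ZMod 128, 64 * p = 64 →
        q p 0 0 0 * q 1 (64 * x1) (64 * x2) (64 * x3) = q p (64 * x1) (64 * x2) (64 * x3) := by
      intro p hp
      rw [q_mul]
      apply Quaternion.ext
      · simp
      · simp; linear_combination x1 * hp
      · simp; linear_combination x2 * hp
      · simp; linear_combination x3 * hp
    have hwq : w = q w.re (64 * x1) (64 * x2) (64 * x3) := by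
      rw [← hx1, ← hx2, ← hx3]
      rfl
    obtain ⟨k, hk | hk⟩ := l4 _ hre
    · have : pB g = u5 ^ (k : ℕ) * (t * t) := by
        apply Units.ext
        rw [Units.val_mul, h5k, htt, ← hk, hprod _ hre, ← hwq]
      rw [this]
      exact N.mul_mem (N.pow_mem h5 _) (hNsq t)
    · have : pB g = (-1) * u5 ^ (k : ℕ) * (t * t) := by
        apply Units.ext
        have e : ((-1 : Hˣ) : H) * q (5 ^ (k : ℕ)) 0 0 0 = q w.re 0 0 0 := by
          rw [Units.val_neg, Units.val_one, hk]
          apply Quaternion.ext <;> simp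
        rw [Units.val_mul, Units.val_mul, h5k, htt, e, hprod _ hre, ← hwq]
      rw [this]
      exact N.mul_mem (N.mul_mem hneg (N.pow_mem h5 _)) (hNsq t)
  have hsq : ∀ g : Hˣ, ∃ h, pB g = pB h ^ 2 := by
    intro g
    obtain ⟨h, hh⟩ := hNall g
    exact ⟨h, by rw [← hh, hp]⟩
  have hpow : ∀ n : ℕ, ∀ g : Hˣ, ∃ h, pB g = pB h ^ (2 ^ n) := by
    intro n
    induction n with
    | zero => exact fun g => ⟨g, by simp⟩
    | succ n ih =>
      intro g
      obtain ⟨h, hh⟩ := ih g
      obtain ⟨k, hk⟩ := hsq h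
      exact ⟨k, by rw [hh, hk, ← pow_mul, pow_succ, mul_comm]⟩
  obtain ⟨h, hh⟩ := hpow 7 g
  rw [hh, ← map_pow, pow_128, map_one]

theorem factor_trivial {A B : Type} [Group A] [Group B] (e : Hˣ ≃* A × B)
    (h : 64 * ((e.symm ((e uI).1, 1) : Hˣ) : H).imI = 64) : Subsingleton B := by
  let pA : Hˣ →* Hˣ := e.symm.toMonoidHom.comp ((MonoidHom.inl A B).comp
    ((MonoidHom.fst A B).comp e.toMonoidHom))
  let pB : Hˣ →* Hˣ := e.symm.toMonoidHom.comp ((MonoidHom.inr A B).comp
    ((MonoidHom.snd A B).comp e.toMonoidHom))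
  have hA : ∀ g, pA g = e.symm ((e g).1, 1) := fun g => rfl
  have hB : ∀ g, pB g = e.symm (1, (e g).2) := fun g => rfl
  have key := core pA pB (fun g => by rw [hA, hB, ← map_mul]; simp)
    (fun g h => by rw [hA, hB, ← map_mul, ← map_mul]; simp)
    (fun g => by rw [hB, hB]; simp) h
  refine ⟨fun x y => ?_⟩
  have : ∀ z : B, z = 1 := by
    intro z
    have := key (e.symm (1, z))
    rw [hB] at this
    simpa using this
  rw [this x, this y]

theorem indecomposable (A B : Type) [Group A] [Group B] (e : Hˣ ≃* A × B) :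
    Subsingleton A ∨ Subsingleton B := by
  rcases l3 ((e.symm ((e uI).1, 1) : Hˣ) : H).imI with h | h
  · left
    let e' : Hˣ ≃* B × A := e.trans MulEquiv.prodComm
    refine factor_trivial e' ?_
    have h1 : e'.symm ((e' uI).1, 1) = e.symm (1, (e uI).2) := rfl
    rw [h1]
    have hm : (e.symm ((e uI).1, 1) : Hˣ) * e.symm (1, (e uI).2) = uI := by
      rw [← map_mul]; simp
    have hm' : (e.symm (1, (e uI).2) : Hˣ) * e.symm ((e uI).1, 1) = uI := by
      rw [← map_mul]; simp
    set a : Hˣ := e.symm ((e uI).1, 1) with ha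
    set b : Hˣ := e.symm (1, (e uI).2) with hb
    have hIa : (uI : H) * (a : H) = a * uI := by
      rw [← Units.val_mul, ← Units.val_mul]
      congr 1
      conv_lhs => rw [← hm]
      conv_rhs => rw [← hm']
      rw [mul_assoc]
    have hI : (uI : H) = q 0 1 0 0 := rfl
    have a1 : 2 * (a : H).imJ = 0 := by simpa [hI] using comm_IJ hIa
    have a2 : 2 * (a : H).imK = 0 := by simpa [hI] using comm_IK hIa
    have h2 : ((a * b : Hˣ) : H) = q 0 1 0 0 := by rw [hm]; rfl
    have h3 := congrArg (fun z : H => z.imI) h2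
    simp only [Units.val_mul, Quaternion.imI_mul, q_imI] at h3
    have h4 : 64 * ((a : H).re * (b : H).imI) = 64 := by
      linear_combination 64 * h3 - (b : H).re * h - 32 * (b : H).imK * a1 + 32 * (b : H).imJ * a2
    obtain ⟨y, hy⟩ := l2 _ h4
    exact l6 _ ((a : H).re * y) (by linear_combination hy)
  · exact Or.inr (factor_trivial e h)

end X155.QuatU
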