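import Pool.Agent.X155.CoshZero

/-!
The group of bounded eventually constant functions on a linear order of uncountable cofinality,
and a discontinuous sequentially continuous character on its dual.
-/

set_option autoImplicit false

open Filter Topology Set
open scoped BoundedContinuousFunction

namespace Pool.Agent.X155.SGrp

/-- `P` with an added point at infinity, with the discrete topology -/
def Pt (P : Type) : Type := Option P

instance (P : Type) : TopologicalSpace (Pt P) := ⊥
instance (P : Type) : DiscreteTopology (Pt P) := ⟨rfl⟩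

/-- the finite points -/
def fin {P : Type} (a : P) : Pt P := Option.some a

/-- the point at infinity -/
def inf (P : Type) : Pt P := Option.none

theorem pt_cases {P : Type} {C : Pt P → Prop} (h1 : ∀ a, C (fin a)) (h2 : C (inf P)) (x : Pt P) :
    C x := by
  cases x with
  | none => exact h2
  | some a => exact h1 a

section

variable (P : Type) [LinearOrder P] [Nonempty P]

/-- bounded functions on `P ∪ {∞}` which are constant near `∞` -/
def GG : Submodule ℝ (Pt P →ᵇ ℝ) where
  carrier := {f | ∃ a : P, ∀ b : P, a ≤ b → f (fin b) = f (inf P)}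
  add_mem' := by
    rintro f g ⟨a, ha⟩ ⟨b, hb⟩
    refine ⟨max a b, fun c hc => ?_⟩
    have h1 := ha c ((le_max_left _ _).trans hc)
    have h2 := hb c ((le_max_right _ _).trans hc)
    rw [BoundedContinuousFunction.add_apply, BoundedContinuousFunction.add_apply, h1, h2]
  zero_mem' := by
    obtain ⟨a⟩ := (inferInstance : Nonempty P)
    exact ⟨a, fun b _ => rfl⟩
  smul_mem' := by
    rintro c f ⟨a, ha⟩
    refine ⟨a, fun b hb => ?_⟩
    have h1 := ha b hb
    rw [BoundedContinuousFunction.smul_apply, BoundedContinuousFunction.smul_apply, h1]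

variable {P}

open Classical in
/-- the indicator function of `(a, ∞]`, as a plain function -/
noncomputable def ind (a : P) : Pt P → ℝ := fun x =>
  Option.casesOn (motive := fun _ => ℝ) x 1 (fun b => if a < b then 1 else 0)

omit [Nonempty P] in
theorem ind_inf (a : P) : ind a (inf P) = 1 := rfl

omit [Nonempty P] in
theorem ind_fin (a b : P) (h : a < b) : ind a (fin b) = 1 := by
  show (if a < b then (1 : ℝ) else 0) = 1
  rw [if_pos h]

omit [Nonempty P] in
theorem ind_fin' (a b : P) (h : ¬ a < b) : ind a (fin b) = 0 := by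
  show (if a < b then (1 : ℝ) else 0) = 0
  rw [if_neg h]

omit [Nonempty P] in
theorem ind_le (a : P) (x : Pt P) : ‖ind a x‖ ≤ 1 := by
  revert x
  apply pt_cases
  · intro b
    by_cases h : a < b
    · rw [ind_fin a b h, norm_one]
    · rw [ind_fin' a b h, norm_zero]
      exact zero_le_one
  · rw [ind_inf, norm_one]

/-- the indicator function of `(a, ∞]`, bounded -/
noncomputable def indB (a : P) : Pt P →ᵇ ℝ :=
  BoundedContinuousFunction.ofNormedAddCommGroupDiscrete (ind a) 1 (ind_le a)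

omit [Nonempty P] in
theorem indB_apply (a : P) (x : Pt P) : indB a x = ind a x := rfl

variable (hU : ∀ s : ℕ → P, ∃ b, ∀ n, s n < b)

include hU in
theorem indB_mem (a : P) : indB a ∈ GG P := by
  obtain ⟨b, hb⟩ := hU (fun _ => a)
  refine ⟨b, fun c hc => ?_⟩
  rw [indB_apply, indB_apply, ind_inf, ind_fin]
  exact (hb 0).trans_le hc

/-- the indicator function of `(a, ∞]`, in the group -/
noncomputable def gen (a : P) : GG P := ⟨indB a, indB_mem hU a⟩

theorem gen_inf (a : P) : (gen hU a).1 (inf P) = 1 := rfl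

theorem gen_fin (a b : P) (h : a < b) : (gen hU a).1 (fin b) = 1 := ind_fin a b h

theorem gen_fin' (a b : P) (h : ¬ a < b) : (gen hU a).1 (fin b) = 0 := ind_fin' a b h

include hU in
/-- the elements of a separable subset are all constant beyond one point -/
theorem separable_const (K : Set (GG P)) (hK : TopologicalSpace.IsSeparable K) :
    ∃ a : P, ∀ f ∈ K, ∀ b, a ≤ b → f.1 (fin b) = f.1 (inf P) := by
  obtain ⟨c, hc, hKc⟩ := hK
  rcases c.eq_empty_or_nonempty with h0 | hne
  · obtain ⟨a⟩ := (inferInstance : Nonempty P)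
    refine ⟨a, fun f hf => ?_⟩
    have := hKc hf
    rw [h0, closure_empty] at this
    exact absurd this (Set.notMem_empty f)
  · obtain ⟨s, hs⟩ := hc.exists_eq_range hne
    choose t ht using fun n => (s n).2
    obtain ⟨a, ha⟩ := hU t
    refine ⟨a, fun f hf b hb => ?_⟩
    have hcl : IsClosed {f : GG P | f.1 (fin b) = f.1 (inf P)} := by
      apply isClosed_eq
      · exact (BoundedContinuousFunction.lipschitz_eval_const (fin b)).continuous.comp
          continuous_subtype_val
      · exact (BoundedContinuousFunction.lipschitz_eval_const (inf P)).continuous.comp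
          continuous_subtype_val
    have hsub : closure c ⊆ {f : GG P | f.1 (fin b) = f.1 (inf P)} := by
      apply closure_minimal _ hcl
      rw [hs]
      rintro _ ⟨n, rfl⟩
      exact ht n b ((ha n).le.trans hb)
    exact hsub (hKc hf)

include hU in
theorem not_separable : ¬ TopologicalSpace.SeparableSpace (GG P) := by
  intro h
  have h1 : TopologicalSpace.IsSeparable (Set.univ : Set (GG P)) :=
    TopologicalSpace.isSeparable_univ_iff.2 h
  obtain ⟨a, ha⟩ := separable_const hU _ h1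
  have h2 := ha (gen hU a) (Set.mem_univ _) a le_rfl
  rw [gen_inf, gen_fin' hU a a (lt_irrefl a)] at h2
  exact zero_ne_one h2

/-! ### real representatives -/

theorem exists_rep (θ : AddCircle (1 : ℝ)) : ∃ r : ℝ, (r : AddCircle (1 : ℝ)) = θ ∧ |r| = ‖θ‖ := by
  obtain ⟨x, rfl⟩ := QuotientAddGroup.mk_surjective θ
  refine ⟨x - round x, ?_, ?_⟩
  · have h1 : ((round x : ℝ) : AddCircle (1 : ℝ)) = 0 := by
      rw [AddCircle.coe_eq_zero_iff]
      exact ⟨round x, by simp⟩
    rw [AddCircle.coe_sub, h1, sub_zero]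
  · exact (UnitAddCircle.norm_eq (x := x)).symm

theorem norm_small (x : ℝ) (h0 : 0 ≤ x) (h1 : x < 1 / 2) : ‖(x : AddCircle (1 : ℝ))‖ = x := by
  have h2 : ‖(x : AddCircle (1 : ℝ))‖ = |x - round x| := UnitAddCircle.norm_eq (x := x)
  have h3 : round x = 0 := by
    rw [round_eq_zero_iff]
    constructor <;> linarith
  rw [h2, h3]
  simp [abs_of_nonneg h0]

theorem sum_small (t : ℕ → ℝ) (h0 : ∀ n, 0 ≤ t n) (h1 : ∀ n, t n < 1 / 8)
    (h2 : ∀ N, ‖((∑ n ∈ Finset.range N, t n : ℝ) : AddCircle (1 : ℝ))‖ < 1 / 8) (N : ℕ) :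
    ∑ n ∈ Finset.range N, t n < 1 / 8 := by
  induction N with
  | zero => norm_num
  | succ N ih =>
    have h3 := h2 (N + 1)
    have h4 : 0 ≤ ∑ n ∈ Finset.range (N + 1), t n := Finset.sum_nonneg (fun n _ => h0 n)
    have h5 : ∑ n ∈ Finset.range (N + 1), t n < 1 / 2 := by
      rw [Finset.sum_range_succ]
      have := h1 N
      linarith
    rwa [norm_small _ h4 h5] at h3

theorem no_lower (t : ℕ → ℝ) (ε : ℝ) (hε : 0 < ε) (h0 : ∀ n, ε ≤ t n) (h1 : ∀ n, t n < 1 / 8)
    (h2 : ∀ N, ‖((∑ n ∈ Finset.range N, t n : ℝ) : AddCircle (1 : ℝ))‖ < 1 / 8) : False := by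
  obtain ⟨N, hN⟩ := exists_nat_gt (1 / ε)
  have h3 := sum_small t (fun n => hε.le.trans (h0 n)) h1 h2 N
  have h4 : (N : ℝ) * ε ≤ ∑ n ∈ Finset.range N, t n := by
    have := Finset.sum_le_sum (s := Finset.range N) (fun n _ => h0 n)
    simpa using this
  have h5 : 1 < (N : ℝ) * ε := by
    rw [div_lt_iff₀ hε] at hN
    exact hN
  linarith

/-! ### characters of the group -/

/-- difference of two generators -/
noncomputable def dif (a b : P) : GG P := gen hU a - gen hU b

theorem dif_inf (a b : P) : (dif hU a b).1 (inf P) = 0 := by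
  show (gen hU a).1 (inf P) - (gen hU b).1 (inf P) = 0
  rw [gen_inf, gen_inf, sub_self]

theorem dif_low (a b c : P) (h : c ≤ a) (hab : a ≤ b) : (dif hU a b).1 (fin c) = 0 := by
  show (gen hU a).1 (fin c) - (gen hU b).1 (fin c) = 0
  rw [gen_fin' hU a c (not_lt.2 h), gen_fin' hU b c (not_lt.2 (h.trans hab)), sub_self]

theorem dif_high (a b c : P) (h : b < c) (hab : a ≤ b) : (dif hU a b).1 (fin c) = 0 := by
  show (gen hU a).1 (fin c) - (gen hU b).1 (fin c) = 0
  rw [gen_fin hU a c (hab.trans_lt h), gen_fin hU b c h, sub_self]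

theorem dif_mid (a b c : P) (h : a < c) (h' : c ≤ b) : (dif hU a b).1 (fin c) = 1 := by
  show (gen hU a).1 (fin c) - (gen hU b).1 (fin c) = 1
  rw [gen_fin hU a c h, gen_fin' hU b c (not_lt.2 h'), sub_zero]

theorem dif_abs (a b : P) (hab : a ≤ b) (x : Pt P) : |(dif hU a b).1 x| ≤ 1 := by
  revert x
  apply pt_cases
  · intro c
    rcases le_or_gt c a with h | h
    · rw [dif_low hU a b c h hab, abs_zero]
      exact zero_le_one
    · rcases le_or_gt c b with h' | h'
      · rw [dif_mid hU a b c h h', abs_one]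
      · rw [dif_high hU a b c h' hab, abs_zero]
        exact zero_le_one
  · rw [dif_inf, abs_zero]
    exact zero_le_one

theorem norm_le_of (f : GG P) (C : ℝ) (hC : 0 ≤ C) (h : ∀ x, |f.1 x| ≤ C) : ‖f‖ ≤ C := by
  show ‖f.1‖ ≤ C
  rw [BoundedContinuousFunction.norm_le hC]
  exact h

/-- the partial sums of disjoint blocks are bounded -/
theorem sum_bound (c : ℝ) (hc : 0 ≤ c) (a B C : ℕ → P) (s : ℕ → ℝ) (hs : ∀ n, |s n| = 1)
    (hB : ∀ n, a n ≤ B n) (hC : ∀ n, B n ≤ C n) (ha : ∀ n, a (n + 1) = C n) (N : ℕ) :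
    (∀ x, |(∑ n ∈ Finset.range N, (s n * c) • dif hU (B n) (C n) : GG P).1 x| ≤ c) ∧
    (∀ b, a N < b → (∑ n ∈ Finset.range N, (s n * c) • dif hU (B n) (C n) : GG P).1 (fin b) = 0) ∧
    (∑ n ∈ Finset.range N, (s n * c) • dif hU (B n) (C n) : GG P).1 (inf P) = 0 := by
  induction N with
  | zero =>
    refine ⟨fun x => ?_, fun b _ => rfl, rfl⟩
    have : (∑ n ∈ Finset.range 0, (s n * c) • dif hU (B n) (C n) : GG P).1 x = 0 := rfl
    rw [this, abs_zero]
    exact hc
  | succ N ih =>
    obtain ⟨ih1, ih2, ih3⟩ := ih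
    have hadd : ∀ x, (∑ n ∈ Finset.range (N + 1), (s n * c) • dif hU (B n) (C n) : GG P).1 x =
        (∑ n ∈ Finset.range N, (s n * c) • dif hU (B n) (C n) : GG P).1 x +
        (s N * c) * (dif hU (B N) (C N)).1 x := by
      intro x
      rw [Finset.sum_range_succ]
      rfl
    have hmul : ∀ x, |(s N * c) * (dif hU (B N) (C N)).1 x| ≤ c := by
      intro x
      rw [abs_mul, abs_mul, hs, one_mul, abs_of_nonneg hc]
      calc c * |(dif hU (B N) (C N)).1 x| ≤ c * 1 :=
            mul_le_mul_of_nonneg_left (dif_abs hU _ _ (hC N) x) hc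
        _ = c := mul_one c
    refine ⟨?_, ?_, ?_⟩
    · apply pt_cases
      · intro b
        rcases lt_or_ge (a N) b with h | h
        · rw [hadd, ih2 b h, zero_add]
          exact hmul _
        · rw [hadd, dif_low hU _ _ b (h.trans (hB N)) (hC N), mul_zero, add_zero]
          exact ih1 _
      · rw [hadd, ih3, zero_add]
        exact hmul _
    · intro b hb
      rw [ha] at hb
      rw [hadd, ih2 b (((hB N).trans (hC N)).trans_lt hb), dif_high hU _ _ b hb (hC N), mul_zero,
        add_zero]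
    · rw [hadd, ih3, dif_inf, mul_zero, add_zero]

theorem exists_small (χ : GG P →ₜ+ AddCircle (1 : ℝ)) :
    ∃ m : ℕ, 0 < m ∧ ∀ f : GG P, ‖f‖ ≤ 1 / (m : ℝ) → ‖χ f‖ < 1 / 8 := by
  have h1 : ContinuousAt χ 0 := (map_continuous χ).continuousAt
  rw [Metric.continuousAt_iff] at h1
  obtain ⟨δ, hδ, h2⟩ := h1 (1 / 8) (by norm_num)
  obtain ⟨m, hm⟩ := exists_nat_gt (1 / δ)
  have hm0 : (0 : ℝ) < m := (one_div_pos.2 hδ).trans hm
  refine ⟨m, by exact_mod_cast hm0, fun f hf => ?_⟩
  have h3 : dist f 0 < δ := by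
    have h5 : dist f 0 = ‖f‖ := dist_zero_right f.1
    rw [h5]
    refine hf.trans_lt ?_
    rw [div_lt_iff₀ hm0]
    rw [div_lt_iff₀ hδ] at hm
    linarith
  have h4 := h2 h3
  rwa [map_zero, dist_zero_right] at h4

theorem tail_small (χ : GG P →ₜ+ AddCircle (1 : ℝ)) (m : ℕ) (hm : 0 < m)
    (hsm : ∀ f : GG P, ‖f‖ ≤ 1 / (m : ℝ) → ‖χ f‖ < 1 / 8) (ε : ℝ) (hε : 0 < ε) :
    ∃ a : P, ∀ b c, a ≤ b → b ≤ c → ‖χ ((1 / (m : ℝ)) • dif hU b c)‖ < ε := by
  by_contra hcon
  push Not at hcon
  choose B C hB hC hBC using hcon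
  obtain ⟨a0⟩ := (inferInstance : Nonempty P)
  let a : ℕ → P := fun n => Nat.rec a0 (fun _ x => C x) n
  have ha : ∀ n, a (n + 1) = C (a n) := fun n => rfl
  have hm0 : (0 : ℝ) ≤ 1 / (m : ℝ) := by positivity
  have hex : ∀ n, ∃ s : ℝ, |s| = 1 ∧ ∃ t : ℝ,
      (t : AddCircle (1 : ℝ)) = χ ((s * (1 / (m : ℝ))) • dif hU (B (a n)) (C (a n))) ∧
      ε ≤ t ∧ t < 1 / 8 := by
    intro n
    obtain ⟨r, hr1, hr2⟩ := exists_rep (χ ((1 / (m : ℝ)) • dif hU (B (a n)) (C (a n))))
    have hlt : ‖χ ((1 / (m : ℝ)) • dif hU (B (a n)) (C (a n)))‖ < 1 / 8 := by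
      apply hsm
      apply norm_le_of _ _ hm0
      intro x
      show |1 / (m : ℝ) * (dif hU (B (a n)) (C (a n))).1 x| ≤ 1 / (m : ℝ)
      rw [abs_mul, abs_of_nonneg hm0]
      calc 1 / (m : ℝ) * |(dif hU (B (a n)) (C (a n))).1 x| ≤ 1 / (m : ℝ) * 1 :=
            mul_le_mul_of_nonneg_left (dif_abs hU _ _ (hC _) x) hm0
        _ = 1 / (m : ℝ) := mul_one _
    have hge := hBC (a n)
    rcases le_total 0 r with h | h
    · refine ⟨1, abs_one, r, ?_, ?_, ?_⟩
      · rw [one_mul, hr1]
      · rw [abs_of_nonneg h] at hr2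
        rw [hr2]
        exact hge
      · rw [abs_of_nonneg h] at hr2
        rw [hr2]
        exact hlt
    · refine ⟨-1, by rw [abs_neg, abs_one], -r, ?_, ?_, ?_⟩
      · rw [AddCircle.coe_neg, hr1, ← map_neg]
        apply congrArg χ
        rw [neg_one_mul]
        exact (neg_smul (1 / (m : ℝ)) (dif hU (B (a n)) (C (a n)))).symm
      · rw [abs_of_nonpos h] at hr2
        rw [hr2]
        exact hge
      · rw [abs_of_nonpos h] at hr2
        rw [hr2]
        exact hlt
  choose s hs t ht ht1 ht2 using hex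
  apply no_lower t ε hε ht1 ht2
  intro N
  have hb := (sum_bound hU (1 / (m : ℝ)) hm0 a (fun n => B (a n)) (fun n => C (a n)) s hs
    (fun n => hB _) (fun n => hC _) ha N).1
  have hn := norm_le_of _ _ hm0 hb
  have h1 := hsm _ hn
  have h2 : ∀ N, ((∑ n ∈ Finset.range N, t n : ℝ) : AddCircle (1 : ℝ)) =
      χ (∑ n ∈ Finset.range N, (s n * (1 / (m : ℝ))) • dif hU (B (a n)) (C (a n))) := by
    intro N
    induction N with
    | zero => 
      rw [Finset.sum_range_zero, Finset.sum_range_zero, map_zero]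
      rfl
    | succ N ih =>
      rw [Finset.sum_range_succ, Finset.sum_range_succ, map_add, AddCircle.coe_add, ih, ht]
  rw [h2]
  exact h1

/-- a continuous character is eventually constant on the final segments -/
theorem eventually_const (χ : GG P →ₜ+ AddCircle (1 : ℝ)) :
    ∃ a : P, ∀ b, a ≤ b → χ (gen hU b) = χ (gen hU a) := by
  obtain ⟨m, hm, hsm⟩ := exists_small χ
  choose α hα using fun k : ℕ => tail_small hU χ m hm hsm (1 / ((k : ℝ) + 1)) (by positivity)
  obtain ⟨a, ha⟩ := hU α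
  refine ⟨a, fun b hb => ?_⟩
  have h1 : χ ((1 / (m : ℝ)) • dif hU a b) = 0 := by
    rw [← norm_le_zero_iff]
    apply le_of_forall_pos_lt_add
    intro ε hε
    rw [zero_add]
    obtain ⟨k, hk⟩ := exists_nat_one_div_lt hε
    exact (hα k a b (ha k).le hb).trans hk
  have h2 : dif hU a b = m • ((1 / (m : ℝ)) • dif hU a b) := by
    have hm0 : (m : ℝ) ≠ 0 := by exact_mod_cast hm.ne'
    rw [← Nat.cast_smul_eq_nsmul ℝ, smul_smul, mul_one_div_cancel hm0, one_smul]
  have h3 : χ (dif hU a b) = 0 := by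
    rw [h2, map_nsmul, h1, smul_zero]
  have h4 : χ (dif hU a b) = χ (gen hU a) - χ (gen hU b) := map_sub χ _ _
  rw [h4] at h3
  exact (sub_eq_zero.1 h3).symm

/-- the eventual value -/
noncomputable def Phi (χ : GG P →ₜ+ AddCircle (1 : ℝ)) : AddCircle (1 : ℝ) :=
  χ (gen hU (Classical.choose (eventually_const hU χ)))

theorem Phi_spec (χ : GG P →ₜ+ AddCircle (1 : ℝ)) :
    ∃ a : P, ∀ b, a ≤ b → χ (gen hU b) = Phi hU χ :=
  ⟨_, Classical.choose_spec (eventually_const hU χ)⟩

theorem Phi_eq (χ : GG P →ₜ+ AddCircle (1 : ℝ)) (v : AddCircle (1 : ℝ)) (a : P)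
    (h : ∀ b, a ≤ b → χ (gen hU b) = v) : Phi hU χ = v := by
  obtain ⟨c, hc⟩ := Phi_spec hU χ
  rw [← h (max a c) (le_max_left _ _), hc (max a c) (le_max_right _ _)]

theorem Phi_add (χ ψ : GG P →ₜ+ AddCircle (1 : ℝ)) : Phi hU (χ + ψ) = Phi hU χ + Phi hU ψ := by
  obtain ⟨c, hc⟩ := Phi_spec hU χ
  obtain ⟨d, hd⟩ := Phi_spec hU ψ
  apply Phi_eq hU _ _ (max c d)
  intro b hb
  rw [← hc b ((le_max_left _ _).trans hb), ← hd b ((le_max_right _ _).trans hb)]
  rfl

/-- the eventual value as a homomorphism -/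
noncomputable def PhiHom : (GG P →ₜ+ AddCircle (1 : ℝ)) →+ AddCircle (1 : ℝ) :=
  AddMonoidHom.mk' (Phi hU) (Phi_add hU)

theorem PhiHom_apply (χ : GG P →ₜ+ AddCircle (1 : ℝ)) : PhiHom hU χ = Phi hU χ := rfl

theorem continuous_ev (f : GG P) :
    Continuous (fun χ : GG P →ₜ+ AddCircle (1 : ℝ) => χ f) := by
  exact continuous_eval_const f

/-- the eventual value is sequentially continuous -/
theorem Phi_seq (s : ℕ → (GG P →ₜ+ AddCircle (1 : ℝ))) (hs : Tendsto s atTop (𝓝 0)) :
    Tendsto (fun n => PhiHom hU (s n)) atTop (𝓝 0) := by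
  choose a ha using fun n => Phi_spec hU (s n)
  obtain ⟨b, hb⟩ := hU a
  have h1 : ∀ n, PhiHom hU (s n) = s n (gen hU b) := fun n => (ha n b (hb n).le).symm
  simp only [h1]
  exact ((continuous_ev (gen hU b)).tendsto 0).comp hs

/-- the characters showing discontinuity -/
noncomputable def bad (a : P) : GG P →ₜ+ AddCircle (1 : ℝ) where
  toFun f := (((f.1 (inf P) - f.1 (fin a)) / 2 : ℝ) : AddCircle (1 : ℝ))
  map_zero' := by
    have h : (((0 : GG P).1 (inf P) - (0 : GG P).1 (fin a)) / 2 : ℝ) = 0 := by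
      show ((0 : ℝ) - 0) / 2 = 0
      norm_num
    rw [h]
    rfl
  map_add' f g := by
    rw [← AddCircle.coe_add]
    congr 1
    show ((f.1 (inf P) + g.1 (inf P)) - (f.1 (fin a) + g.1 (fin a))) / 2 = _
    ring
  continuous_toFun := by
    apply (AddCircle.continuous_mk' (1 : ℝ)).comp
    apply Continuous.div_const
    apply Continuous.sub
    · exact (BoundedContinuousFunction.lipschitz_eval_const (inf P)).continuous.comp
        continuous_subtype_val
    · exact (BoundedContinuousFunction.lipschitz_eval_const (fin a)).continuous.comp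
        continuous_subtype_val

theorem bad_apply (a : P) (f : GG P) :
    bad a f = (((f.1 (inf P) - f.1 (fin a)) / 2 : ℝ) : AddCircle (1 : ℝ)) := rfl

theorem Phi_bad (a : P) : PhiHom hU (bad a) = ((1 / 2 : ℝ) : AddCircle (1 : ℝ)) := by
  rw [PhiHom_apply]
  apply Phi_eq hU _ _ a
  intro b hb
  rw [bad_apply, gen_inf, gen_fin' hU b a (not_lt.2 hb), sub_zero]

include hU in
theorem bad_tendsto : Tendsto (fun a : P => bad a) atTop (𝓝 0) := by
  rw [(ContinuousAddMonoidHom.isInducing_toContinuousMap _ _).tendsto_nhds_iff]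
  rw [ContinuousMap.tendsto_iff_forall_isCompact_tendstoUniformlyOn]
  intro K hK
  obtain ⟨a, ha⟩ := separable_const hU K hK.isSeparable
  intro u hu
  filter_upwards [eventually_ge_atTop a] with b hb f hf
  have h1 : bad b f = 0 := by
    rw [bad_apply, ha f hf b hb, sub_self, zero_div]
    rfl
  have h2 : ((0 : GG P →ₜ+ AddCircle (1 : ℝ)) f, bad b f) = ((0 : AddCircle (1 : ℝ)), 0) := by
    rw [h1]
    rfl
  show ((0 : GG P →ₜ+ AddCircle (1 : ℝ)) f, bad b f) ∈ u
  rw [h2]
  exact refl_mem_uniformity hu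

theorem half_ne : ((1 / 2 : ℝ) : AddCircle (1 : ℝ)) ≠ 0 := by
  intro h
  have h1 := UnitAddCircle.norm_eq (x := (1 / 2 : ℝ))
  rw [h, norm_zero] at h1
  have h2 : round (1 / 2 : ℝ) = 1 := by
    norm_num [round_eq]
  rw [h2] at h1
  norm_num at h1

/-- the eventual value is not continuous -/
theorem Phi_not_continuous : ¬ Continuous (PhiHom hU) := by
  intro hc
  have h1 : Tendsto (fun a : P => PhiHom hU (bad a)) atTop (𝓝 (PhiHom hU 0)) :=
    (hc.tendsto 0).comp (bad_tendsto hU)
  simp only [Phi_bad, map_zero] at h1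
  exact half_ne (tendsto_nhds_unique tendsto_const_nhds h1)

end

end Pool.Agent.X155.SGrp
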