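import Mathlib

/-! Semisparse subgroups of string C-groups. -/

namespace X155.SemiSp
open Pointwise

variable {G : Type*} [Group G]

/-- The subgroup generated by the `ρ l` with `l ∈ I`. -/
def gen (ρ : ℕ → G) (I : Set ℕ) : Subgroup G := Subgroup.closure (ρ '' I)

theorem gen_mono (ρ : ℕ → G) {I J : Set ℕ} (h : I ⊆ J) : gen ρ I ≤ gen ρ J :=
  Subgroup.closure_mono (Set.image_mono h)

theorem mem_gen (ρ : ℕ → G) {I : Set ℕ} {i : ℕ} (h : i ∈ I) : ρ i ∈ gen ρ I :=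
  Subgroup.subset_closure ⟨i, h, rfl⟩

/-- The subgroup generated by the `ρ l` with `a ≤ l < b`. -/
abbrev C (ρ : ℕ → G) (a b : ℕ) : Subgroup G := gen ρ (Set.Ico a b)

theorem C_mono (ρ : ℕ → G) {a b c d : ℕ} (h : c ≤ a) (h' : b ≤ d) : C ρ a b ≤ C ρ c d :=
  gen_mono ρ (Set.Ico_subset_Ico h h')

theorem C_comm {ρ : ℕ → G} {N : ℕ}
    (hc : ∀ i j, i < N → j < N → i + 2 ≤ j → ρ i * ρ j = ρ j * ρ i)
    {a b c d : ℕ} (hbc : b + 1 ≤ c) (hd : d ≤ N) {x y : G} (hx : x ∈ C ρ a b) (hy : y ∈ C ρ c d) :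
    x * y = y * x := by
  have h1 : ∀ i ∈ Set.Ico a b, ∀ y ∈ C ρ c d, ρ i * y = y * ρ i := by
    intro i hi y hy
    induction hy using Subgroup.closure_induction with
    | mem z hz =>
      obtain ⟨j, hj, rfl⟩ := hz
      have h1 := hi.2
      have h2 := hj.1
      have h3 := hj.2
      exact hc i j (by omega) (by omega) (by omega)
    | one => simp
    | mul u v _ _ hu hv => rw [← mul_assoc, hu, mul_assoc, hv, mul_assoc]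
    | inv u _ hu =>
      have : Commute (ρ i) u := hu
      exact this.inv_right
  induction hx using Subgroup.closure_induction with
  | mem z hz =>
    obtain ⟨i, hi, rfl⟩ := hz
    exact h1 i hi y hy
  | one => simp
  | mul u v _ _ hu hv => rw [mul_assoc, hv, ← mul_assoc, hu, mul_assoc]
  | inv u _ hu =>
    have : Commute u y := hu
    exact this.inv_left

/-- Elements of `⟨ρ_l : a ≤ l < b, l ≠ k⟩` are products. -/
theorem decomp {ρ : ℕ → G} {N : ℕ}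
    (hc : ∀ i j, i < N → j < N → i + 2 ≤ j → ρ i * ρ j = ρ j * ρ i) {a b k : ℕ} (hb : b ≤ N)
    {x : G} (hx : x ∈ gen ρ {l | (a ≤ l ∧ l < b) ∧ l ≠ k}) :
    ∃ u ∈ C ρ (k + 1) b, ∃ v ∈ C ρ a k, x = u * v := by
  induction hx using Subgroup.closure_induction with
  | mem z hz =>
    obtain ⟨l, ⟨hl, hk⟩, rfl⟩ := hz
    rcases lt_or_gt_of_ne hk with h | h
    · exact ⟨1, one_mem _, ρ l, mem_gen ρ ⟨hl.1, h⟩, by simp⟩
    · exact ⟨ρ l, mem_gen ρ ⟨h, hl.2⟩, 1, one_mem _, by simp⟩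
  | one => exact ⟨1, one_mem _, 1, one_mem _, by simp⟩
  | mul p q _ _ hp hq =>
    obtain ⟨u, hu, v, hv, rfl⟩ := hp
    obtain ⟨u', hu', v', hv', rfl⟩ := hq
    refine ⟨u * u', mul_mem hu hu', v * v', mul_mem hv hv', ?_⟩
    have := C_comm hc (a := a) (b := k) (c := k + 1) (d := b) le_rfl hb hv hu'
    calc u * v * (u' * v') = u * (v * u') * v' := by group
      _ = u * (u' * v) * v' := by rw [this]
      _ = _ := by group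
  | inv p _ hp =>
    obtain ⟨u, hu, v, hv, rfl⟩ := hp
    refine ⟨u⁻¹, inv_mem hu, v⁻¹, inv_mem hv, ?_⟩
    have := C_comm hc (a := a) (b := k) (c := k + 1) (d := b) le_rfl hb hv hu
    rw [← this]; group

/-- The main condition follows from conditions (2) and (3) of semisparseness (for all conjugates). -/
theorem D_of (ρ : ℕ → G) (S : Subgroup G) (a b : ℕ)
    (h2 : ∀ φ i k j, a ≤ i → i < k → k < j → j < b → ∀ x ∈ C ρ (i + 1) b, ∀ y ∈ C ρ a j,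
      φ * (y⁻¹ * x) * φ⁻¹ ∈ S → ∃ u ∈ C ρ (k + 1) b, ∃ v ∈ C ρ a k, ∃ z ∈ C ρ (i + 1) j,
        φ * ((u * v * z)⁻¹ * x) * φ⁻¹ ∈ S)
    (h3 : ∀ φ i, a ≤ i → i + 1 < b → ∀ x ∈ C ρ (i + 1) b, ∀ y ∈ C ρ a (i + 1),
      φ * (y⁻¹ * x) * φ⁻¹ ∈ S → φ * x * φ⁻¹ ∈ S) :
    ∀ m φ i j, j = i + 1 + m → a ≤ i → j < b → ∀ x ∈ C ρ (i + 1) b, ∀ y ∈ C ρ a j,
      φ * (y⁻¹ * x) * φ⁻¹ ∈ S → ∃ z ∈ C ρ (i + 1) j, φ * (z⁻¹ * x) * φ⁻¹ ∈ S := by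
  intro m
  induction m with
  | zero =>
    intro φ i j hj hai hjb x hx y hy h
    subst hj
    exact ⟨1, one_mem _, by simpa using h3 φ i hai hjb x hx y hy h⟩
  | succ m ih =>
    intro φ i j hj hai hjb x hx y hy h
    obtain ⟨u, hu, v, hv, z, hz, h4⟩ := h2 φ i (i + 1) j hai (by omega) (by omega) hjb x hx y hy h
    -- `x = u z σ₁`
    have h5 : (φ * z⁻¹) * (z * (u * z)⁻¹ * x * z⁻¹) * (φ * z⁻¹)⁻¹ ∈ S := by
      have := h3 (φ * z⁻¹) i hai (by omega) (u⁻¹ * x * z⁻¹)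
        (mul_mem (mul_mem (inv_mem (C_mono ρ (by omega) le_rfl hu)) hx)
          (inv_mem (C_mono ρ le_rfl hjb.le hz))) v hv (by
          convert h4 using 1; group)
      convert this using 1; group
    have h6 : φ * ((u * z)⁻¹ * x) * φ⁻¹ ∈ S := by
      convert h5 using 1; group
    -- `u ∈ C a j * T`
    obtain ⟨w, hw, h7⟩ := ih (φ * z⁻¹) (i + 1) j (by omega) (by omega) hjb u hu (y * z⁻¹)
      (mul_mem hy (inv_mem (C_mono ρ (by omega) le_rfl hz))) (by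
        have := mul_mem h (inv_mem h6)
        convert this using 1; group)
    refine ⟨w * z, mul_mem (C_mono ρ (by omega) le_rfl hw) hz, ?_⟩
    have := mul_mem h7 h6
    convert this using 1; group

/-- The main condition passes from the facets and vertex figures to the whole group. -/
theorem main_D (ρ : ℕ → G) (S : Subgroup G) (n : ℕ)
    (hI : ∀ x, x ∈ C ρ 1 (n + 1) → x ∈ C ρ 0 n → x ∈ C ρ 1 n)
    (star : ∀ φ, ∀ p ∈ C ρ 1 (n + 1), ∀ q ∈ C ρ 0 n, φ * (p * q) * φ⁻¹ ∈ S →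
      ∃ p' ∈ C ρ 1 (n + 1), ∃ q' ∈ C ρ 0 n, φ * p' * φ⁻¹ ∈ S ∧ φ * q' * φ⁻¹ ∈ S ∧ p * q = p' * q')
    (D0 : ∀ φ i j, 1 ≤ i → i < j → j < n + 1 → ∀ x ∈ C ρ (i + 1) (n + 1), ∀ y ∈ C ρ 1 j,
      φ * (y⁻¹ * x) * φ⁻¹ ∈ S → ∃ z ∈ C ρ (i + 1) j, φ * (z⁻¹ * x) * φ⁻¹ ∈ S)
    (Dn : ∀ φ i j, i < j → j < n → ∀ x ∈ C ρ (i + 1) n, ∀ y ∈ C ρ 0 j,
      φ * (y⁻¹ * x) * φ⁻¹ ∈ S → ∃ z ∈ C ρ (i + 1) j, φ * (z⁻¹ * x) * φ⁻¹ ∈ S) :
    ∀ φ i j, i < j → j < n + 1 → ∀ x ∈ C ρ (i + 1) (n + 1), ∀ y ∈ C ρ 0 j,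
      φ * (y⁻¹ * x) * φ⁻¹ ∈ S → ∃ z ∈ C ρ (i + 1) j, φ * (z⁻¹ * x) * φ⁻¹ ∈ S := by
  intro φ i j hij hj x hx y hy h
  have hx1 : x ∈ C ρ 1 (n + 1) := C_mono ρ (by omega) le_rfl hx
  have hyn : y ∈ C ρ 0 n := C_mono ρ le_rfl (by omega) hy
  obtain ⟨p, hp, q, hq, hpS, hqS, e⟩ := star φ x⁻¹ (inv_mem hx1) y hyn (by
    have := inv_mem h
    convert this using 1; group)
  -- `δ = x p = y q⁻¹`
  have e2 : x * p = y * q⁻¹ := by
    have : p = x⁻¹ * y * q⁻¹ := by rw [e]; group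
    rw [this]; group
  have hδ : x * p ∈ C ρ 1 n := hI _ (mul_mem hx1 hp) (by rw [e2]; exact mul_mem hyn (inv_mem hq))
  obtain ⟨z, hz, hzS⟩ : ∃ z ∈ C ρ 1 j, φ * (z⁻¹ * (x * p)) * φ⁻¹ ∈ S := by
    rcases Nat.lt_or_ge j n with h1 | h1
    · refine Dn φ 0 j (by omega) h1 (x * p) hδ y hy ?_
      rw [e2]
      have := inv_mem hqS
      convert this using 1; group
    · have : j = n := by omega
      subst this
      exact ⟨x * p, hδ, by simp⟩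
  have hzx : φ * (z⁻¹ * x) * φ⁻¹ ∈ S := by
    have := mul_mem hzS (inv_mem hpS)
    convert this using 1; group
  rcases Nat.eq_zero_or_pos i with h1 | h1
  · subst h1
    exact ⟨z, hz, hzx⟩
  · exact D0 φ i j h1 hij hj x hx z hz hzx

/-- Condition (1) passes from the facets and vertex figures to the whole group. -/
theorem main_one (ρ : ℕ → G) (S : Subgroup G) (n : ℕ) (hn : 1 ≤ n)
    (hc : ∀ i j, i < n + 1 → j < n + 1 → i + 2 ≤ j → ρ i * ρ j = ρ j * ρ i)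
    (hI : ∀ x, x ∈ C ρ 1 (n + 1) → x ∈ C ρ 0 n → x ∈ C ρ 1 n)
    (star : ∀ φ, ∀ p ∈ C ρ 1 (n + 1), ∀ q ∈ C ρ 0 n, φ * (p * q) * φ⁻¹ ∈ S →
      ∃ p' ∈ C ρ 1 (n + 1), ∃ q' ∈ C ρ 0 n, φ * p' * φ⁻¹ ∈ S ∧ φ * q' * φ⁻¹ ∈ S ∧ p * q = p' * q')
    (Dn : ∀ φ i j, i < j → j < n → ∀ x ∈ C ρ (i + 1) n, ∀ y ∈ C ρ 0 j,
      φ * (y⁻¹ * x) * φ⁻¹ ∈ S → ∃ z ∈ C ρ (i + 1) j, φ * (z⁻¹ * x) * φ⁻¹ ∈ S)
    (O0 : ∀ φ i, 1 ≤ i → i < n + 1 → ∀ g ∈ gen ρ {l | (1 ≤ l ∧ l < n + 1) ∧ l ≠ i},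
      φ * (g * ρ i) * φ⁻¹ ∉ S)
    (On : ∀ φ, ∀ g ∈ C ρ 1 n, φ * (g * ρ 0) * φ⁻¹ ∉ S) :
    ∀ φ i, i < n + 1 → ∀ g ∈ gen ρ {l | (0 ≤ l ∧ l < n + 1) ∧ l ≠ i},
      φ * (g * ρ i) * φ⁻¹ ∉ S := by
  intro φ i hi g hg h
  rcases Nat.eq_zero_or_pos i with h1 | h1
  · subst h1
    have hle : gen ρ {l | (0 ≤ l ∧ l < n + 1) ∧ l ≠ 0} ≤ C ρ 1 (n + 1) :=
      gen_mono ρ fun l hl => ⟨Nat.one_le_iff_ne_zero.mpr hl.2, hl.1.2⟩
    have hg1 : g ∈ C ρ 1 (n + 1) := hle hg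
    have h0 : ρ 0 ∈ C ρ 0 n := mem_gen ρ ⟨le_rfl, hn⟩
    obtain ⟨p, hp, q, hq, hpS, hqS, e⟩ := star φ g hg1 (ρ 0) h0 h
    have e2 : q * (ρ 0)⁻¹ = p⁻¹ * g := by
      have : q = p⁻¹ * (g * ρ 0) := by rw [e]; group
      rw [this]; group
    refine On φ (q * (ρ 0)⁻¹) (hI _ ?_ (mul_mem hq (inv_mem h0))) ?_
    · rw [e2]; exact mul_mem (inv_mem hp) hg1
    · convert hqS using 1; group
  · obtain ⟨u, hu, v, hv, rfl⟩ := decomp hc le_rfl hg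
    have huv : u * v = v * u :=
      (C_comm hc (a := 0) (b := i) (c := i + 1) (d := n + 1) le_rfl le_rfl hv hu).symm
    have hu1 : u ∈ C ρ 1 (n + 1) := C_mono ρ (by omega) le_rfl hu
    have hi1 : ρ i ∈ C ρ 1 (n + 1) := mem_gen ρ ⟨h1, hi⟩
    have hvn : v ∈ C ρ 0 n := C_mono ρ le_rfl (by omega) hv
    -- conjugate by `v`
    obtain ⟨p, hp, q, hq, hpS, hqS, e⟩ := star (φ * v) (u * ρ i) (mul_mem hu1 hi1) v hvn (by
      convert h using 1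
      rw [huv]; group)
    have e2 : q * v⁻¹ = p⁻¹ * (u * ρ i) := by
      have : q = p⁻¹ * (u * ρ i * v) := by rw [e]; group
      rw [this]; group
    have hδ : q * v⁻¹ ∈ C ρ 1 n :=
      hI _ (by rw [e2]; exact mul_mem (inv_mem hp) (mul_mem hu1 hi1)) (mul_mem hq (inv_mem hvn))
    obtain ⟨z, hz, hzS⟩ : ∃ z ∈ C ρ 1 i, (φ * v) * (z⁻¹ * (q * v⁻¹)⁻¹) * (φ * v)⁻¹ ∈ S := by
      rcases Nat.lt_or_ge i n with h2 | h2
      · refine Dn (φ * v) 0 i h1 h2 _ (inv_mem hδ) v hv ?_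
        have := inv_mem hqS
        convert this using 1; group
      · have : i = n := by omega
        subst this
        exact ⟨(q * v⁻¹)⁻¹, inv_mem hδ, by simp⟩
    have e3 : p = u * ρ i * (q * v⁻¹)⁻¹ := by rw [e2]; group
    have hle1 : C ρ 1 i ≤ gen ρ {l | (1 ≤ l ∧ l < n + 1) ∧ l ≠ i} :=
      gen_mono ρ fun l hl => ⟨⟨hl.1, hl.2.trans hi⟩, hl.2.ne⟩
    have hle2 : C ρ (i + 1) (n + 1) ≤ gen ρ {l | (1 ≤ l ∧ l < n + 1) ∧ l ≠ i} :=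
      gen_mono ρ fun l hl => ⟨⟨(Nat.succ_le_of_lt h1).trans ((Nat.le_succ i).trans hl.1), hl.2⟩,
        ((Nat.lt_succ_self i).trans_le hl.1).ne'⟩
    refine O0 (φ * v * z⁻¹) i h1 hi (z * u) (mul_mem (hle1 hz) (hle2 hu)) ?_
    · have := mul_mem hpS (inv_mem hzS)
      rw [e3] at this
      convert this using 1; group

end X155.SemiSp
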