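import Pool.Agent.X155.LampMain

/-! The lamplighter group over the free group of rank two. -/

namespace Pool.Agent.X155.TreeLamp

open Pool.Agent.X155.Lamp

/-- positions -/
abbrev F := FreeGroup Bool
/-- letters -/
abbrev L := Bool × Bool

/-- the code of a position: the last letter comes first -/
def code (w : F) : List L := (w⁻¹).toWord

/-- the neighbour of `w` whose code is obtained by putting `c` in front -/
def nb (w : F) (c : L) : F := w * (FreeGroup.mk [c])⁻¹

/-- the opposite letter -/
def op (c : L) : L := (c.1, !c.2)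

lemma code_inj {u v : F} : code u = code v ↔ u = v := by
  unfold code
  rw [FreeGroup.toWord_inj, inv_inj]

lemma code_one : code 1 = [] := by simp [code]

lemma code_eq_nil {w : F} : code w = [] ↔ w = 1 := by
  rw [← code_one, code_inj]

lemma code_nb (w : F) (c : L) : code (nb w c) = FreeGroup.reduce (c :: code w) := by
  unfold code nb
  have h : (w * (FreeGroup.mk [c])⁻¹)⁻¹ = FreeGroup.mk (c :: (w⁻¹).toWord) := by
    rw [mul_inv_rev, inv_inv]
    conv_lhs => rw [← FreeGroup.mk_toWord (x := w⁻¹)]
    rw [FreeGroup.mul_mk]; rfl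
  rw [h, FreeGroup.toWord_mk]

lemma red_code (w : F) : FreeGroup.reduce (code w) = code w := FreeGroup.reduce_toWord _

lemma code_nb_cases (w : F) (c : L) :
    code (nb w c) = c :: code w ∨ code w = op c :: code (nb w c) := by
  rw [code_nb, FreeGroup.reduce.cons, red_code]
  rcases hc : code w with _ | ⟨d, l⟩
  · left; rfl
  · simp only
    split_ifs with h
    · right
      have : d = op c := by
        ext
        · exact h.1.symm
        · simp [op, h.2]
      rw [this]
    · left; rfl

/-- moving to a child is possible for each admissible letter -/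
lemma code_nb_child {w : F} {c : L} (h : FreeGroup.reduce (c :: code w) = c :: code w) :
    code (nb w c) = c :: code w := by rw [code_nb, h]

lemma op_op (c : L) : op (op c) = c := by simp [op]

lemma mk_op (c : L) : (FreeGroup.mk [op c] : F) = (FreeGroup.mk [c])⁻¹ := by
  rw [FreeGroup.inv_mk]; rfl

lemma nb_nb (w : F) (c : L) : nb (nb w c) (op c) = w := by
  unfold nb
  rw [mk_op, inv_inv, mul_assoc, inv_mul_cancel, mul_one]

/-- the parent -/
lemma code_nb_parent {w : F} {c : L} {l : List L} (h : code w = c :: l) :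
    code (nb w (op c)) = l := by
  rcases code_nb_cases w (op c) with h1 | h1
  · -- impossible
    have h2 := red_code (nb w (op c))
    rw [h1, h] at h2
    rw [FreeGroup.reduce.cons] at h2
    have h3 : FreeGroup.reduce (c :: l) = c :: l := by rw [← h]; exact red_code w
    rw [h3] at h2
    simp only at h2
    rw [if_pos (by simp [op])] at h2
    have := congrArg List.length h2
    simp at this
    omega
  · rw [h, op_op] at h1
    exact (List.cons.inj h1).2.symm

/-- a suffix of a code is reduced -/
lemma reduced_suffix {l l' : List L} (h : FreeGroup.reduce (l' ++ l) = l' ++ l) :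
    FreeGroup.reduce l = l := by
  induction l' with
  | nil => simpa using h
  | cons c l' ih =>
    apply ih
    rw [List.cons_append, FreeGroup.reduce.cons] at h
    rcases h1 : FreeGroup.reduce (l' ++ l) with _ | ⟨d, m⟩
    · rw [h1] at h
      simp only at h
      exact (List.cons.inj h).2
    · rw [h1] at h
      simp only at h
      split_ifs at h with h2
      · -- length
        exfalso
        have hl : (FreeGroup.reduce (l' ++ l)).length ≤ (l' ++ l).length :=
          (FreeGroup.reduce.red (L := l' ++ l)).length_le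
        rw [h1] at hl
        have := congrArg List.length h
        simp at this hl
        omega
      · exact (List.cons.inj h).2

lemma red_double {c : L} {l : List L} (h : FreeGroup.reduce (c :: l) = c :: l) :
    FreeGroup.reduce (c :: c :: l) = c :: c :: l := by
  rw [FreeGroup.reduce.cons, h]
  simp

/-- The lamplighter group over the free group: lamps and a position. -/
@[ext]
structure G where
  /-- lamps -/
  f : F →₀ ZMod 2
  /-- position -/
  w : F

namespace G

noncomputable instance : Mul G :=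
  ⟨fun x y => ⟨x.f + y.f.equivMapDomain (Equiv.mulLeft x.w), x.w * y.w⟩⟩
noncomputable instance : One G := ⟨⟨0, 1⟩⟩
noncomputable instance : Inv G :=
  ⟨fun x => ⟨x.f.equivMapDomain (Equiv.mulLeft x.w).symm, x.w⁻¹⟩⟩

lemma mul_f (x y : G) (i : F) : (x * y).f i = x.f i + y.f (x.w⁻¹ * i) := rfl
lemma mul_w (x y : G) : (x * y).w = x.w * y.w := rfl
lemma one_f (i : F) : (1 : G).f i = 0 := rfl
lemma one_w : (1 : G).w = 1 := rfl
lemma inv_f (x : G) (i : F) : (x⁻¹).f i = x.f (x.w * i) := rfl
lemma inv_w (x : G) : (x⁻¹).w = x.w⁻¹ := rfl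

lemma ext' {x y : G} (h : ∀ i, x.f i = y.f i) (h' : x.w = y.w) : x = y :=
  G.ext (Finsupp.ext h) h'

noncomputable instance : Group G := Group.ofLeftAxioms
  (by
    intro x y z
    apply ext'
    · intro i
      simp only [mul_f, mul_w, add_assoc, mul_inv_rev, mul_assoc]
    · simp only [mul_w, mul_assoc])
  (by
    intro x
    apply ext'
    · intro i; simp [mul_f, one_f, one_w]
    · simp [mul_w, one_w])
  (by
    intro x
    apply ext'
    · intro i
      simp only [mul_f, inv_f, inv_w, one_f, inv_inv]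
      exact CharTwo.add_self_eq_zero _
    · simp [mul_w, inv_w, one_w])

/-- toggle the lamp at the current place -/
noncomputable def a : G := ⟨Finsupp.single 1 1, 1⟩
/-- step along a free generator -/
noncomputable def x (b : Bool) : G := ⟨0, FreeGroup.of b⟩

/-- The generating set: switch, and switch-walk-switch. -/
def S : Set G := insert a (⋃ b : Bool, {x b, a * x b, x b * a, a * x b * a})

lemma S_finite : S.Finite := by
  unfold S
  refine Set.Finite.insert _ (Set.finite_iUnion fun b => Set.toFinite _)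

lemma mem_S {z : G} : z ∈ S ↔ z = a ∨ ∃ b, z = x b ∨ z = a * x b ∨ z = x b * a ∨ z = a * x b * a := by
  simp [S, Set.mem_insert_iff, Set.mem_iUnion]

lemma single_iff (i j : F) [Decidable (i = j)] :
    (Finsupp.single i (1 : ZMod 2)) j = if i = j then 1 else 0 := by
  classical
  rw [Finsupp.single_apply]

lemma zmod2 (x : ZMod 2) : x = 0 ∨ x = 1 := by
  revert x; decide

lemma S_spec {z : G} (hz : z ∈ S) : (z.w = 1 ∨ ∃ b, z.w = FreeGroup.of b) ∧
    ∀ i, i ≠ 1 → i ≠ z.w → z.f i = 0 := by
  rw [mem_S] at hz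
  rcases hz with rfl | ⟨b, rfl | rfl | rfl | rfl⟩
  · refine ⟨Or.inl rfl, fun i h _ => ?_⟩
    simp [a, single_iff, Ne.symm h]
  · exact ⟨Or.inr ⟨b, rfl⟩, fun i _ _ => rfl⟩
  · refine ⟨Or.inr ⟨b, by simp [mul_w, a, x]⟩, fun i h _ => ?_⟩
    simp [mul_f, a, x, single_iff, Ne.symm h]
  · refine ⟨Or.inr ⟨b, by simp [mul_w, a, x]⟩, fun i h h' => ?_⟩
    have h2 : ¬ ((1 : F) = (FreeGroup.of b)⁻¹ * i) := by
      intro h3
      apply h'
      rw [eq_inv_mul_iff_mul_eq] at h3
      simp [mul_w, a, x, ← h3]
    simp [mul_f, a, x, single_iff, h2]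
  · refine ⟨Or.inr ⟨b, by simp [mul_w, a, x]⟩, fun i h h' => ?_⟩
    have h2 : ¬ ((1 : F) = (FreeGroup.of b)⁻¹ * i) := by
      intro h3
      apply h'
      rw [eq_inv_mul_iff_mul_eq] at h3
      simp [mul_w, a, x, ← h3]
    simp [mul_f, mul_w, a, x, single_iff, h2, Ne.symm h]

/-- description of edges -/
lemma adj_spec {g h : G} (hgh : (cay S).Adj g h) :
    (h.w = g.w ∨ ∃ c, h.w = nb g.w c) ∧ ∀ i, i ≠ g.w → i ≠ h.w → h.f i = g.f i := by
  have key : ∀ {g h : G}, g⁻¹ * h ∈ S → (h.w = g.w ∨ ∃ b, h.w = g.w * FreeGroup.of b) ∧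
      ∀ i, i ≠ g.w → i ≠ h.w → h.f i = g.f i := by
    intro g h hx
    obtain ⟨h1, h2⟩ := S_spec hx
    set z := g⁻¹ * h with hz
    have hh : h = g * z := by rw [hz]; group
    have hw : h.w = g.w * z.w := by rw [hh]; rfl
    refine ⟨?_, fun i hi hi' => ?_⟩
    · rw [hw]
      rcases h1 with h1 | ⟨b, h1⟩
      · left; rw [h1, mul_one]
      · right; exact ⟨b, by rw [h1]⟩
    · have hf : h.f i = g.f i + z.f (g.w⁻¹ * i) := by rw [hh]; rfl
      rw [hf, h2, add_zero]
      · intro h3; rw [inv_mul_eq_one] at h3; exact hi h3.symm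
      · intro h3
        apply hi'
        rw [hw, ← h3]; group
  rcases hgh.2 with h1 | h1
  · obtain ⟨h2, h3⟩ := key h1
    refine ⟨?_, h3⟩
    rcases h2 with h2 | ⟨b, h2⟩
    · exact Or.inl h2
    · right
      refine ⟨(b, false), ?_⟩
      rw [h2, nb, FreeGroup.inv_mk]; rfl
  · obtain ⟨h2, h3⟩ := key h1
    refine ⟨?_, fun i hi hi' => (h3 i hi' hi).symm⟩
    rcases h2 with h2 | ⟨b, h2⟩
    · exact Or.inl h2.symm
    · right
      refine ⟨(b, true), ?_⟩
      rw [h2, nb]
      change h.w = h.w * FreeGroup.of b * (FreeGroup.of b)⁻¹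
      group

/-- constructing edges: same place -/
lemma adj_same {g h : G} (hne : g ≠ h) (hw : h.w = g.w) (hf : ∀ i, i ≠ g.w → h.f i = g.f i) :
    (cay S).Adj g h := by
  refine ⟨hne, Or.inl ?_⟩
  rw [mem_S]; left
  rw [inv_mul_eq_iff_eq_mul]
  apply ext'
  · intro i
    rw [mul_f]
    simp only [a, single_iff]
    by_cases hi : i = g.w
    · subst hi
      rw [inv_mul_cancel, if_pos rfl]
      have h1 : h.f g.w ≠ g.f g.w := by
        intro h2
        apply hne
        apply ext'
        · intro j
          by_cases hj : j = g.w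
          · rw [hj, h2]
          · exact (hf j hj).symm
        · exact hw.symm
      rcases zmod2 (h.f g.w) with h2 | h2 <;> rcases zmod2 (g.f g.w) with h3 | h3 <;>
        rw [h2, h3] at h1 ⊢
      · exact absurd rfl h1
      · decide
      · decide
      · exact absurd rfl h1
    · rw [if_neg, add_zero, hf i hi]
      intro h1
      rw [eq_comm, inv_mul_eq_one] at h1
      exact hi h1.symm
  · simp [mul_w, a, hw]

lemma adj_fwd {g h : G} (b : Bool) (hw : h.w = g.w * FreeGroup.of b)
    (hf : ∀ i, i ≠ g.w → i ≠ h.w → h.f i = g.f i) : g⁻¹ * h ∈ S := by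
  have hne : g.w ≠ h.w := by rw [hw]; simp
  have hob : ¬ ((1 : F) = (FreeGroup.of b)⁻¹) := by simp [eq_comm]
  rw [mem_S]; right; refine ⟨b, ?_⟩
  -- the four cases
  have hval : ∀ i, i ≠ g.w → i ≠ h.w → h.f i = g.f i := hf
  have hi1 : ∀ i : F, i ≠ g.w → ¬ ((1 : F) = g.w⁻¹ * i) := by
    intro i hi h1
    rw [eq_comm, inv_mul_eq_one] at h1
    exact hi h1.symm
  have hi2 : ∀ i : F, i ≠ h.w → ¬ ((1 : F) = (FreeGroup.of b)⁻¹ * (g.w⁻¹ * i)) := by
    intro i hi h1
    apply hi
    rw [hw]
    rw [eq_inv_mul_iff_mul_eq, eq_inv_mul_iff_mul_eq] at h1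
    rw [← h1, mul_one]
  have e1 : (1 : F) = g.w⁻¹ * g.w := by group
  have e2 : (1 : F) = (FreeGroup.of b)⁻¹ * (g.w⁻¹ * h.w) := by rw [hw]; group
  have n1 : ¬ ((1 : F) = (FreeGroup.of b)⁻¹ * (g.w⁻¹ * g.w)) := hi2 _ hne
  have n2 : ¬ ((1 : F) = g.w⁻¹ * h.w) := hi1 _ hne.symm
  rcases zmod2 (h.f g.w - g.f g.w) with h1 | h1 <;> rcases zmod2 (h.f h.w - g.f h.w) with h2 | h2
  · left
    rw [inv_mul_eq_iff_eq_mul]
    apply ext'
    · intro i
      rw [mul_f]
      simp only [x, Finsupp.coe_zero, Pi.zero_apply, add_zero]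
      by_cases hi : i = g.w
      · rw [hi]; exact sub_eq_zero.1 h1
      by_cases hi' : i = h.w
      · rw [hi']; exact sub_eq_zero.1 h2
      exact hf i hi hi'
    · simp [mul_w, x, hw]
  · right; right; left
    rw [inv_mul_eq_iff_eq_mul]
    apply ext'
    · intro i
      simp only [mul_f, x, a, Finsupp.coe_zero, Pi.zero_apply, zero_add, single_iff]
      by_cases hi : i = g.w
      · rw [hi, if_neg n1, add_zero]; exact sub_eq_zero.1 h1
      by_cases hi' : i = h.w
      · rw [hi', if_pos e2]; exact sub_eq_iff_eq_add'.1 h2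
      rw [if_neg (hi2 i hi'), add_zero]
      exact hf i hi hi'
    · simp [mul_w, x, a, hw]
  · right; left
    rw [inv_mul_eq_iff_eq_mul]
    apply ext'
    · intro i
      simp only [mul_f, x, a, Finsupp.coe_zero, Pi.zero_apply, add_zero, single_iff]
      by_cases hi : i = g.w
      · rw [hi, if_pos e1]; exact sub_eq_iff_eq_add'.1 h1
      by_cases hi' : i = h.w
      · rw [hi', if_neg n2, add_zero]; exact sub_eq_zero.1 h2
      rw [if_neg (hi1 i hi), add_zero]
      exact hf i hi hi'
    · simp [mul_w, x, a, hw]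
  · right; right; right
    rw [inv_mul_eq_iff_eq_mul]
    apply ext'
    · intro i
      simp only [mul_f, mul_w, x, a, Finsupp.coe_zero, Pi.zero_apply, add_zero, single_iff, one_mul]
      by_cases hi : i = g.w
      · rw [hi, if_pos e1, if_neg n1, add_zero]; exact sub_eq_iff_eq_add'.1 h1
      by_cases hi' : i = h.w
      · rw [hi', if_neg n2, if_pos e2, zero_add]; exact sub_eq_iff_eq_add'.1 h2
      rw [if_neg (hi1 i hi), if_neg (hi2 i hi'), add_zero, add_zero]
      exact hf i hi hi'
    · simp [mul_w, x, a, hw]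

lemma nb_ne (w : F) (c : L) : nb w c ≠ w := by
  intro h
  rcases code_nb_cases w c with h1 | h1
  · rw [h] at h1
    have := congrArg List.length h1
    simp at this
  · rw [h] at h1
    have := congrArg List.length h1
    simp at this

/-- constructing edges: neighbouring places -/
lemma adj_move {g h : G} (c : L) (hw : h.w = nb g.w c)
    (hf : ∀ i, i ≠ g.w → i ≠ h.w → h.f i = g.f i) : (cay S).Adj g h := by
  refine ⟨fun he => nb_ne g.w c ?_, ?_⟩
  · rw [← hw, ← he]
  obtain ⟨b, β⟩ := c
  cases β
  · left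
    refine adj_fwd b ?_ hf
    rw [hw, nb, FreeGroup.inv_mk]; rfl
  · right
    refine adj_fwd b ?_ fun i hi hi' => (hf i hi' hi).symm
    rw [hw, nb]
    change g.w = g.w * (FreeGroup.of b)⁻¹ * FreeGroup.of b
    group

theorem closure_S : Subgroup.closure S = ⊤ := by
  classical
  rw [eq_top_iff]
  have ha : a ∈ Subgroup.closure S := Subgroup.subset_closure (mem_S.2 (Or.inl rfl))
  have hx : ∀ b, x b ∈ Subgroup.closure S := fun b =>
    Subgroup.subset_closure (mem_S.2 (Or.inr ⟨b, Or.inl rfl⟩))
  have hw : ∀ w : F, (⟨0, w⟩ : G) ∈ Subgroup.closure S := by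
    intro w
    induction w using FreeGroup.induction_on with
    | C1 => exact one_mem _
    | of b => exact hx b
    | inv_of b _ =>
      have h1 := inv_mem (hx b)
      have h2 : (x b)⁻¹ = (⟨0, (FreeGroup.of b)⁻¹⟩ : G) := by
        apply ext'
        · intro i; rfl
        · rfl
      rwa [h2] at h1
    | mul u v hu hv =>
      have h1 := mul_mem hu hv
      have h2 : (⟨0, u⟩ : G) * ⟨0, v⟩ = (⟨0, u * v⟩ : G) := by
        apply ext'
        · intro i; rw [mul_f]; rfl
        · rfl
      rwa [h2] at h1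
  have hs : ∀ u : F, (⟨Finsupp.single u 1, 1⟩ : G) ∈ Subgroup.closure S := by
    intro u
    have h1 := mul_mem (mul_mem (hw u) ha) (inv_mem (hw u))
    have h2 : (⟨0, u⟩ : G) * a * (⟨0, u⟩ : G)⁻¹ = ⟨Finsupp.single u 1, 1⟩ := by
      apply ext'
      · intro i
        simp only [mul_f, mul_w, inv_f, a, Finsupp.coe_zero, Pi.zero_apply, zero_add, add_zero,
          single_iff]
        by_cases hi : u = i
        · subst hi; simp
        · rw [if_neg hi, if_neg]
          intro h3
          rw [eq_comm, inv_mul_eq_one] at h3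
          exact hi h3
      · simp [mul_w, inv_w, a]
    rwa [h2] at h1
  have hf : ∀ f : F →₀ ZMod 2, (⟨f, 1⟩ : G) ∈ Subgroup.closure S := by
    intro f
    induction f using Finsupp.induction with
    | zero => exact one_mem _
    | single_add u b f _ hb ih =>
      have hb1 : b = 1 := (zmod2 b).resolve_left hb
      subst hb1
      have h1 := mul_mem (hs u) ih
      have h2 : (⟨Finsupp.single u 1, 1⟩ : G) * ⟨f, 1⟩ = ⟨Finsupp.single u 1 + f, 1⟩ := by
        apply ext'
        · intro i
          rw [mul_f]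
          simp
        · simp [mul_w]
      rwa [h2] at h1
  intro g _
  have h1 := mul_mem (hf g.f) (hw g.w)
  have h2 : (⟨g.f, 1⟩ : G) * ⟨0, g.w⟩ = g := by
    apply ext'
    · intro i; rw [mul_f]; simp
    · simp [mul_w]
  rwa [h2] at h1

end G

end Pool.Agent.X155.TreeLamp
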