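import Pool.Agent.X155.TreeLamp1

/-! The word norm. -/

namespace Pool.Agent.X155.TreeLamp

open Pool.Agent.X155.Lamp

namespace G

/-- the convex hull -/
noncomputable def H (g : G) : Finset (List L) :=
  (insert g.w g.f.support).biUnion (fun u => (code u).tails.toFinset)

lemma mem_H {g : G} {l : List L} :
    l ∈ H g ↔ l <:+ code g.w ∨ ∃ u, g.f u ≠ 0 ∧ l <:+ code u := by
  simp [H]

/-- the norm function -/
noncomputable def Phi (g : G) : ℤ := 2 * ((H g).card - 1) - (code g.w).length

lemma nil_mem_H (g : G) : ([] : List L) ∈ H g := mem_H.2 (Or.inl (List.nil_suffix))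

lemma len_lt (g : G) : (code g.w).length + 1 ≤ (H g).card := by
  have h1 : (code g.w).tails.toFinset ⊆ H g := by
    intro l hl
    rw [List.mem_toFinset, List.mem_tails] at hl
    exact mem_H.2 (Or.inl hl)
  have h2 : (code g.w).tails.Nodup := by
    have hn : ∀ l : List L, l.tails.Nodup := by
      intro l
      induction l with
      | nil => simp
      | cons a l ih =>
        rw [List.tails_cons, List.nodup_cons]
        refine ⟨fun h => ?_, ih⟩
        rw [List.mem_tails] at h
        have := h.length_le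
        simp at this
    exact hn _
  have h3 := Finset.card_le_card h1
  rw [List.toFinset_card_of_nodup h2, List.length_tails] at h3
  exact h3

lemma Phi_ge (g : G) : ((code g.w).length : ℤ) ≤ Phi g := by
  have := len_lt g
  unfold Phi
  omega

lemma Phi_ge_card (g : G) : ((H g).card : ℤ) - 1 ≤ Phi g := by
  have := len_lt g
  unfold Phi
  omega

/-- going to a child -/
lemma H_child {g h : G} {c : L} (hw : code h.w = c :: code g.w)
    (hf : ∀ i, i ≠ g.w → i ≠ h.w → h.f i = g.f i) : H h = insert (code h.w) (H g) := by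
  have hsuf : code g.w <:+ code h.w := by rw [hw]; exact List.suffix_cons _ _
  ext l
  rw [Finset.mem_insert, mem_H, mem_H]
  constructor
  · have hl : ∀ l : List L, l <:+ code h.w → l = code h.w ∨ l <:+ code g.w := by
      intro l hl
      rw [hw, List.suffix_cons_iff] at hl
      rw [hw]
      exact hl
    rintro (h1 | ⟨u, hu, h1⟩)
    · rcases hl l h1 with h2 | h2
      · exact Or.inl h2
      · exact Or.inr (Or.inl h2)
    · by_cases hu1 : u = h.w
      · subst hu1
        rcases hl l h1 with h2 | h2
        · exact Or.inl h2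
        · exact Or.inr (Or.inl h2)
      by_cases hu2 : u = g.w
      · subst hu2; exact Or.inr (Or.inl h1)
      · right; right
        exact ⟨u, by rw [← hf u hu2 hu1]; exact hu, h1⟩
  · rintro (rfl | h1 | ⟨u, hu, h1⟩)
    · exact Or.inl List.suffix_rfl
    · exact Or.inl (h1.trans hsuf)
    · by_cases hu1 : u = g.w
      · subst hu1; exact Or.inl (h1.trans hsuf)
      by_cases hu2 : u = h.w
      · subst hu2; exact Or.inl h1
      · right
        exact ⟨u, by rw [hf u hu1 hu2]; exact hu, h1⟩

lemma H_same {g h : G} (hw : h.w = g.w) (hf : ∀ i, i ≠ g.w → h.f i = g.f i) : H h = H g := by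
  ext l
  rw [mem_H, mem_H, hw]
  constructor
  · rintro (h1 | ⟨u, hu, h1⟩)
    · exact Or.inl h1
    · by_cases hu2 : u = g.w
      · subst hu2; exact Or.inl h1
      · exact Or.inr ⟨u, by rw [← hf u hu2]; exact hu, h1⟩
  · rintro (h1 | ⟨u, hu, h1⟩)
    · exact Or.inl h1
    · by_cases hu2 : u = g.w
      · subst hu2; exact Or.inl h1
      · exact Or.inr ⟨u, by rw [hf u hu2]; exact hu, h1⟩

lemma Phi_child_new {g h : G} {c : L} (hw : code h.w = c :: code g.w)
    (hf : ∀ i, i ≠ g.w → i ≠ h.w → h.f i = g.f i) (hnew : code h.w ∉ H g) :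
    Phi h = Phi g + 1 := by
  unfold Phi
  rw [H_child hw hf, Finset.card_insert_of_notMem hnew, hw]
  simp only [List.length_cons]
  push_cast; ring

lemma Phi_child_old {g h : G} {c : L} (hw : code h.w = c :: code g.w)
    (hf : ∀ i, i ≠ g.w → i ≠ h.w → h.f i = g.f i) (hold : code h.w ∈ H g) :
    Phi h = Phi g - 1 := by
  unfold Phi
  rw [H_child hw hf, Finset.insert_eq_of_mem hold, hw]
  simp only [List.length_cons]
  push_cast; ring

lemma Phi_child {g h : G} {c : L} (hw : code h.w = c :: code g.w)
    (hf : ∀ i, i ≠ g.w → i ≠ h.w → h.f i = g.f i) :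
    Phi h = Phi g + 1 ∨ Phi h = Phi g - 1 := by
  by_cases h1 : code h.w ∈ H g
  · exact Or.inr (Phi_child_old hw hf h1)
  · exact Or.inl (Phi_child_new hw hf h1)

lemma Phi_adj {g h : G} (hgh : (cay S).Adj g h) : Phi h ≤ Phi g + 1 := by
  obtain ⟨h1, h2⟩ := adj_spec hgh
  rcases h1 with h1 | ⟨c, h1⟩
  · have : H h = H g := H_same h1 fun i hi => h2 i hi (by rw [h1]; exact hi)
    unfold Phi
    rw [this, h1]; omega
  · rcases code_nb_cases g.w c with h3 | h3
    · rw [← h1] at h3
      rcases Phi_child h3 h2 with h4 | h4 <;> omega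
    · rw [← h1] at h3
      rcases Phi_child h3 (fun i hi hi' => (h2 i hi' hi).symm) with h4 | h4 <;> omega

lemma Phi_one : Phi 1 = 0 := by
  have : H (1 : G) = {[]} := by
    ext l
    rw [mem_H]
    simp [one_w, one_f, code_one]
  unfold Phi
  rw [this, one_w, code_one]; simp

/-- lower bound for the norm -/
lemma Phi_le (g : G) : Phi g ≤ ((cay S).dist 1 g : ℤ) :=
  lip_dist closure_S Phi Phi_one (fun _ _ h => Phi_adj h) g

/-- descending -/
lemma descend (g : G) (hg : 1 ≤ Phi g) :
    ∃ h : G, (∃ c, h.w = nb g.w c) ∧ (∀ i, i ≠ g.w → i ≠ h.w → h.f i = g.f i) ∧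
      Phi h = Phi g - 1 := by
  classical
  by_cases hA : ∃ u, g.f u ≠ 0 ∧ code g.w <:+ code u ∧ u ≠ g.w
  · obtain ⟨u, hu, ⟨l, hl⟩, hne⟩ := hA
    -- the next letter
    have hlne : l ≠ [] := by
      rintro rfl
      rw [List.nil_append, code_inj] at hl
      exact hne hl.symm
    obtain ⟨m, c, hmc⟩ : ∃ m c, l = m ++ [c] := by
      refine ⟨l.dropLast, l.getLast hlne, (List.dropLast_append_getLast hlne).symm⟩
    have hl2 : m ++ (c :: code g.w) = code u := by
      rw [← hl, hmc]; simp
    have hred : FreeGroup.reduce (c :: code g.w) = c :: code g.w := by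
      refine reduced_suffix (l' := m) ?_
      rw [hl2]; exact red_code u
    have hcode := code_nb_child hred
    refine ⟨⟨g.f, nb g.w c⟩, ⟨c, rfl⟩, fun i _ _ => rfl, ?_⟩
    refine Phi_child_old (g := g) (h := ⟨g.f, nb g.w c⟩) (c := c) hcode (fun i _ _ => rfl) ?_
    rw [mem_H]
    right
    refine ⟨u, hu, ?_⟩
    change code (nb g.w c) <:+ code u
    rw [hcode, ← hl2]
    exact List.suffix_append _ _
  · push Not at hA
    rcases hc : code g.w with _ | ⟨c, l⟩
    · exfalso
      have hH : H g = {[]} := by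
        ext l
        rw [mem_H, Finset.mem_singleton]
        constructor
        · rintro (h1 | ⟨u, hu, h1⟩)
          · rw [hc] at h1; exact List.suffix_nil.1 h1
          · have := hA u hu (by rw [hc]; exact List.nil_suffix)
            rw [this, hc] at h1; exact List.suffix_nil.1 h1
        · rintro rfl; exact Or.inl List.nil_suffix
      unfold Phi at hg
      rw [hH, hc] at hg
      simp at hg
    · have hpar := code_nb_parent hc
      set h : G := ⟨g.f.erase g.w, nb g.w (op c)⟩ with hh
      have hcode : code g.w = c :: code h.w := by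
        rw [hc]; change c :: l = c :: code (nb g.w (op c)); rw [hpar]
      have hf : ∀ i, i ≠ g.w → h.f i = g.f i := by
        intro i hi
        exact Finsupp.erase_ne hi
      refine ⟨h, ⟨op c, rfl⟩, fun i hi _ => hf i hi, ?_⟩
      have := Phi_child_new (g := h) (h := g) hcode (fun i _ hi => (hf i hi).symm) ?_
      · omega
      · rw [mem_H]
        rintro (h1 | ⟨u, hu, h1⟩)
        · have := h1.length_le
          rw [hcode] at this
          simp at this
        · by_cases hu1 : u = g.w
          · subst hu1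
            exact hu (Finsupp.erase_same)
          · rw [hf u hu1] at hu
            exact hu1 (hA u hu h1)

lemma Phi_zero {g : G} (hg : Phi g = 0) : g.w = 1 ∧ ∀ u, u ≠ 1 → g.f u = 0 := by
  have h1 := Phi_ge_card g
  have h2 := Phi_ge g
  have hc : (H g).card ≤ 1 := by omega
  have hnil : ∀ l ∈ H g, l = [] := fun l hl =>
    Finset.card_le_one.1 hc l hl [] (nil_mem_H g)
  refine ⟨code_eq_nil.1 (hnil _ (mem_H.2 (Or.inl List.suffix_rfl))), fun u hu => ?_⟩
  by_contra h
  exact hu (code_eq_nil.1 (hnil _ (mem_H.2 (Or.inr ⟨u, h, List.suffix_rfl⟩))))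

lemma cay_conn : (cay S).Connected := by
  refine ⟨fun g h => ?_⟩
  have h1 : (cay S).Reachable 1 g := reach_of_closure (by rw [closure_S]; trivial)
  have h2 : (cay S).Reachable 1 h := reach_of_closure (by rw [closure_S]; trivial)
  exact h1.symm.trans h2

lemma dist_le_Phi (m : ℕ) : ∀ g : G, Phi g = m + 1 → (cay S).dist 1 g ≤ m + 1 := by
  have hstep : ∀ {g h : G} {k : ℕ}, (cay S).Adj g h → (cay S).dist 1 h ≤ k →
      (cay S).dist 1 g ≤ k + 1 := by
    intro g h k hgh hk
    have := cay_conn.dist_triangle (u := 1) (v := h) (w := g)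
    rw [SimpleGraph.dist_eq_one_iff_adj.2 hgh.symm] at this
    omega
  induction m with
  | zero =>
    intro g hg
    obtain ⟨h, ⟨c, hc⟩, hf, hP⟩ := descend g (by omega)
    obtain ⟨h1, h2⟩ := Phi_zero (g := h) (by rw [hP, hg]; simp)
    have hadj : (cay S).Adj g 1 := by
      refine adj_move c ?_ ?_
      · rw [one_w, ← h1]; exact hc
      · intro i hi hi'
        rw [one_f]
        rw [one_w] at hi'
        rw [← hf i hi (by rw [h1]; exact hi'), h2 i hi']
    exact hstep (k := 0) hadj (by simp)
  | succ m ih =>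
    intro g hg
    obtain ⟨h, ⟨c, hc⟩, hf, hP⟩ := descend g (by omega)
    exact hstep (adj_move c hc hf) (ih h (by rw [hP, hg]; push_cast; ring))

/-- the norm -/
lemma dist_eq {g : G} (hg : 1 ≤ Phi g) : ((cay S).dist 1 g : ℤ) = Phi g := by
  apply le_antisymm _ (Phi_le g)
  have := dist_le_Phi (Phi g - 1).toNat g (by omega)
  omega

end G

end Pool.Agent.X155.TreeLamp
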