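import Pool.Agent.X155.TreeLamp2
import Pool.Agent.X155.LampEnd

/-! One-endedness, pockets and barriers. -/

namespace Pool.Agent.X155.TreeLamp

open Pool.Agent.X155.Lamp

/-- elements in an infinite component outside the ball of radius `m` -/
def outer {H : Type} [Group H] (S : Set H) (m : ℤ) : Set H :=
  {g | ∃ hg : g ∈ (ball S m)ᶜ,
    (((cay S).induce (ball S m)ᶜ).connectedComponentMk ⟨g, hg⟩).supp.Infinite}

lemma walk_closed {H : Type} [Group H] {S U R : Set H}
    (hR : ∀ g h, g ∈ R → g ∈ U → (cay S).Adj g h → h ∈ U → h ∈ R) {u v : U}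
    (w : ((cay S).induce U).Walk u v) : (u : H) ∈ R → (v : H) ∈ R := by
  induction w with
  | nil => exact id
  | @cons u v' v h p ih =>
    intro hu
    exact ih (hR _ _ hu u.2 h v'.2)

lemma outer_of_ray {H : Type} [Group H] {S : Set H} {m : ℤ} (g : ℕ → H)
    (hinj : Function.Injective g) (h1 : ∀ k, g k ∈ (ball S m)ᶜ)
    (h2 : ∀ k, (cay S).Adj (g k) (g (k + 1))) (k : ℕ) : g k ∈ outer S m := by
  have hc : ∀ j, Conn S (ball S m)ᶜ (g 0) (g j) := by
    intro j
    induction j with
    | zero => exact Conn.refl (h1 0)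
    | succ j ih => exact ih.trans (Conn.step (h1 j) (h1 (j + 1)) (h2 j))
  refine ⟨h1 k, ?_⟩
  refine Set.infinite_of_injective_forall_mem
    (f := fun j : ℕ => (⟨g j, h1 j⟩ : ↑(ball S m)ᶜ)) ?_ ?_
  · intro i j h
    exact hinj (congrArg Subtype.val h)
  · intro j
    rw [SimpleGraph.ConnectedComponent.mem_supp_iff, SimpleGraph.ConnectedComponent.eq]
    exact ((hc j).symm.trans (hc k)).2.2

lemma nb_false (w : F) (b : Bool) : nb w (b, false) = w * FreeGroup.of b := by
  rw [nb, FreeGroup.inv_mk]; rfl

lemma nb_true (w : F) (b : Bool) : nb w (b, true) = w * (FreeGroup.of b)⁻¹ := rfl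

lemma code_ray (b : Bool) (m : ℕ) : code ((FreeGroup.of b : F) ^ m) = List.replicate m (b, false) := by
  induction m with
  | zero => simp [code_one]
  | succ m ih =>
    rw [pow_succ, ← nb_false, code_nb, ih, FreeGroup.reduce.cons]
    have h1 : FreeGroup.reduce (List.replicate m (b, false)) = List.replicate m (b, false) := by
      rw [← ih]; exact red_code _
    rw [h1]
    cases m with
    | zero => rfl
    | succ m => simp [List.replicate_succ]

lemma fin_depth (M : ℕ) : {u : F | (code u).length ≤ M}.Finite :=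
  (List.finite_length_le L M).preimage (fun _ _ _ _ h => code_inj.1 h)

/-- all lamps up to depth `D` -/
noncomputable def full (D : ℕ) : F →₀ ZMod 2 :=
  Finsupp.onFinset (fin_depth D).toFinset (fun u => if (code u).length ≤ D then 1 else 0)
    (by intro u hu; rw [Set.Finite.mem_toFinset]; by_contra h; exact hu (if_neg h))

lemma full_apply (D : ℕ) (u : F) : full D u = if (code u).length ≤ D then 1 else 0 := rfl

lemma extend (v : F) (hv : v ≠ 1) (k : ℕ) :
    ∃ u, (code u).length = (code v).length + k ∧ code v <:+ code u := by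
  suffices h : ∃ u, (code u).length = (code v).length + k ∧ code v <:+ code u ∧ u ≠ 1 by
    obtain ⟨u, h1, h2, -⟩ := h; exact ⟨u, h1, h2⟩
  induction k with
  | zero => exact ⟨v, rfl, List.suffix_rfl, hv⟩
  | succ k ih =>
    obtain ⟨u, h1, h2, h3⟩ := ih
    rcases hc : code u with _ | ⟨c, l⟩
    · exact absurd (code_eq_nil.1 hc) h3
    · have hr : FreeGroup.reduce (c :: code u) = c :: code u := by
        have := red_code u
        rw [hc] at this ⊢
        exact red_double this
      have h4 := code_nb_child hr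
      refine ⟨nb u c, ?_, ?_, ?_⟩
      · rw [h4, List.length_cons, h1]; ring
      · rw [h4]; exact h2.trans (List.suffix_cons _ _)
      · rw [Ne, ← code_eq_nil, h4]; simp

namespace G

/-- the box -/
def Box (M : ℕ) : Set G := {g | (code g.w).length ≤ M ∧ ∀ i, g.f i ≠ 0 → (code i).length ≤ M}

lemma Box_finite (M : ℕ) : (Box M).Finite := by
  classical
  have hinj : Function.Injective (fun g : G => (g.w, g.f.support)) := by
    intro g h hgh
    apply ext'
    · intro i
      have h1 : g.f.support = h.f.support := congrArg Prod.snd hgh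
      by_cases hi : g.f i = 0
      · have : i ∉ h.f.support := by rw [← h1]; simpa using hi
        rw [hi]; simpa using (Finsupp.notMem_support_iff.1 this).symm
      · have : i ∈ h.f.support := by rw [← h1]; simpa using hi
        have h2 := Finsupp.mem_support_iff.1 this
        rcases zmod2 (g.f i) with h3 | h3
        · exact absurd h3 hi
        · rcases zmod2 (h.f i) with h4 | h4
          · exact absurd h4 h2
          · rw [h3, h4]
    · exact congrArg Prod.fst hgh
  refine Set.Finite.of_finite_image ?_ hinj.injOn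
  refine ((((fin_depth M).toFinset) ×ˢ ((fin_depth M).toFinset).powerset :
    Finset (F × Finset F)).finite_toSet).subset ?_
  rintro _ ⟨g, hg, rfl⟩
  obtain ⟨h1, h3⟩ := hg
  simp only [Finset.coe_product, Set.mem_prod, Finset.mem_coe, Finset.mem_powerset,
    Set.Finite.mem_toFinset, Set.mem_setOf_eq]
  refine ⟨h1, fun i hi => ?_⟩
  rw [Set.Finite.mem_toFinset]
  exact h3 i (Finsupp.mem_support_iff.1 hi)

lemma mem_Box (g : G) : ∃ M : ℕ, g ∈ Box M := by
  classical
  refine ⟨((code g.w).length + g.f.support.sup fun u => (code u).length), ?_, ?_⟩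
  · omega
  · intro i hi
    have : (code i).length ≤ g.f.support.sup fun u => (code u).length :=
      Finset.le_sup (f := fun u => (code u).length) (Finsupp.mem_support_iff.2 hi)
    omega

lemma Box_mono {M M' : ℕ} (h : M ≤ M') : Box M ⊆ Box M' := by
  rintro g ⟨h1, h3⟩
  exact ⟨h1.trans h, fun i hi => (h3 i hi).trans h⟩

lemma finite_subset_Box {T : Set G} (hT : T.Finite) : ∃ M : ℕ, T ⊆ Box M := by
  induction T, hT using Set.Finite.induction_on with
  | empty => exact ⟨0, Set.empty_subset _⟩
  | insert _ _ ih =>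
    rename_i g F' _ _
    obtain ⟨M, hM⟩ := ih
    obtain ⟨M', hM'⟩ := mem_Box g
    refine ⟨max M M', ?_⟩
    rintro x (rfl | hx)
    · exact Box_mono (le_max_right _ _) hM'
    · exact Box_mono (le_max_left _ _) (hM hx)

lemma adj_walk (f : F →₀ ZMod 2) (p : F) (c : L) : (cay S).Adj (⟨f, p⟩ : G) ⟨f, nb p c⟩ :=
  adj_move c rfl (fun _ _ _ => rfl)

lemma adj_toggle (f : F →₀ ZMod 2) (p : F) :
    (cay S).Adj (⟨f, p⟩ : G) ⟨f + Finsupp.single p 1, p⟩ := by
  classical
  refine adj_same ?_ rfl ?_
  · intro h
    have h1 := congrArg (fun g : G => g.f p) h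
    simp at h1
  · intro i hi
    change (f + Finsupp.single p 1 : F →₀ ZMod 2) i = f i
    rw [Finsupp.add_apply, single_iff, if_neg (Ne.symm hi), add_zero]

lemma conn_walk {U : Set G} (f : F →₀ ZMod 2) (h : ∀ q, (⟨f, q⟩ : G) ∈ U) (p p' : F) :
    Conn S U ⟨f, p⟩ ⟨f, p'⟩ := by
  have key : ∀ z p : F, Conn S U ⟨f, p⟩ ⟨f, p * z⟩ := by
    intro z
    induction z using FreeGroup.induction_on with
    | C1 => intro p; rw [mul_one]; exact Conn.refl (h p)
    | of b =>
      intro p
      rw [← nb_false]
      exact Conn.step (h _) (h _) (adj_walk f p _)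
    | inv_of b _ =>
      intro p
      rw [← nb_true]
      exact Conn.step (h _) (h _) (adj_walk f p _)
    | mul u v hu hv =>
      intro p
      rw [← mul_assoc]
      exact (hu p).trans (hv _)
  have := key (p⁻¹ * p') p
  rwa [mul_inv_cancel_left] at this

/-- a lit lamp outside allows to walk and clear the others -/
lemma clear {M : ℕ} {j : F} (hj : M < (code j).length) (m : ℕ) :
    ∀ (f : F →₀ ZMod 2), f j ≠ 0 → f.support.card ≤ m → ∀ p p' : F,
      Conn S (Box M)ᶜ ⟨f, p⟩ ⟨Finsupp.single j 1, p'⟩ := by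
  classical
  have hU : ∀ (f : F →₀ ZMod 2), f j ≠ 0 → ∀ q, (⟨f, q⟩ : G) ∈ (Box M)ᶜ :=
    fun f hf q hq => absurd (hq.2 j hf) (by omega)
  induction m with
  | zero =>
    intro f hf hc
    have : f.support = ∅ := Finset.card_eq_zero.1 (by omega)
    exact absurd (by rw [Finsupp.support_eq_empty.1 this]; rfl) hf
  | succ m ih =>
    intro f hf hc p p'
    by_cases h : ∃ i, i ≠ j ∧ f i ≠ 0
    · obtain ⟨i, hij, hi⟩ := h
      have h1 := conn_walk (U := (Box M)ᶜ) f (hU f hf) p i
      have hi1 : f i = 1 := (zmod2 (f i)).resolve_left hi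
      have hg : (f + Finsupp.single i 1 : F →₀ ZMod 2) j ≠ 0 := by
        rw [Finsupp.add_apply, single_iff, if_neg hij, add_zero]; exact hf
      have h2 := Conn.step (hU f hf i) (hU _ hg i) (adj_toggle f i)
      refine h1.trans (h2.trans (ih _ hg ?_ _ _))
      have hsub : (f + Finsupp.single i 1 : F →₀ ZMod 2).support ⊆ f.support.erase i := by
        intro k hk
        rw [Finsupp.mem_support_iff, Finsupp.add_apply, single_iff] at hk
        rw [Finset.mem_erase, Finsupp.mem_support_iff]
        by_cases hki : i = k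
        · subst hki
          rw [if_pos rfl, hi1] at hk
          exact absurd (by decide) hk
        · rw [if_neg hki, add_zero] at hk
          exact ⟨fun h => hki h.symm, hk⟩
      have hcard := Finset.card_le_card hsub
      rw [Finset.card_erase_of_mem (Finsupp.mem_support_iff.2 hi)] at hcard
      have : 0 < f.support.card := Finset.card_pos.2 ⟨i, Finsupp.mem_support_iff.2 hi⟩
      omega
    · push Not at h
      have hfs : f = Finsupp.single j 1 := by
        ext k
        rw [single_iff]
        by_cases hk : j = k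
        · subst hk; rw [if_pos rfl]; exact (zmod2 _).resolve_left hf
        · rw [if_neg hk]; exact h k (fun h' => hk h'.symm)
      subst hfs
      exact conn_walk _ (hU _ hf) p p'

/-- a far point -/
noncomputable def far (M : ℕ) : F := (FreeGroup.of false) ^ (M + 1)

lemma len_far (M : ℕ) : (code (far M)).length = M + 1 := by
  rw [far, code_ray]; simp

/-- everything outside the box is connected to a base point -/
lemma conn_base {M : ℕ} {g : G} (hg : g ∉ Box M) : Conn S (Box M)ᶜ g ⟨0, far M⟩ := by
  classical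
  have hM1 : M < (code (far M)).length := by rw [len_far]; omega
  have h1 : ∀ p, Conn S (Box M)ᶜ ⟨Finsupp.single (far M) 1, p⟩ (⟨0, far M⟩ : G) := by
    intro p
    refine (clear hM1 1 (Finsupp.single (far M) 1) (by simp) ?_ p (far M)).trans ?_
    · exact (Finset.card_le_card Finsupp.support_single_subset).trans (by simp)
    · refine Conn.step ?_ ?_ ?_
      · intro hq; exact absurd (hq.2 (far M) (by simp)) (by omega)
      · intro hq; exact absurd hq.1 (by simp only; omega)
      · have := (adj_toggle 0 (far M))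
        rw [zero_add] at this
        exact this.symm
  have h2 : ∀ (f : F →₀ ZMod 2) (p j : F), f j ≠ 0 → M < (code j).length →
      Conn S (Box M)ᶜ ⟨f, p⟩ (⟨0, far M⟩ : G) := by
    intro f p j hf hj
    by_cases hjM : j = far M
    · subst hjM
      exact (clear hj _ f hf le_rfl p (far M)).trans (h1 _)
    · have h3 := clear hj _ f hf le_rfl p (far M)
      have h4 := adj_toggle (Finsupp.single j 1) (far M)
      have h5 : (Finsupp.single j 1 + Finsupp.single (far M) 1 : F →₀ ZMod 2) (far M) ≠ 0 := by
        rw [Finsupp.add_apply, single_iff, single_iff, if_neg hjM, if_pos rfl]; decide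
      refine h3.trans ((Conn.step ?_ ?_ h4).trans ((clear hM1 _ _ h5 le_rfl _ 1).trans (h1 _)))
      · intro hq; exact absurd (hq.2 j (by simp)) (by omega)
      · intro hq; exact absurd (hq.2 (far M) h5) (by omega)
  obtain ⟨f, p⟩ := g
  by_cases hcase : ∃ j, f j ≠ 0 ∧ M < (code j).length
  · obtain ⟨j, hj, hj'⟩ := hcase
    exact h2 f p j hj hj'
  · push Not at hcase
    have hp : M < (code p).length := by
      by_contra h
      push Not at h
      exact hg ⟨h, fun i hi => hcase i hi⟩
    have h6 := adj_toggle f p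
    have h0 : f p = 0 := by
      by_contra h
      exact absurd (hcase _ h) (by omega)
    have h5 : (f + Finsupp.single p 1 : F →₀ ZMod 2) p ≠ 0 := by
      rw [Finsupp.add_apply, single_iff, if_pos rfl, h0]; decide
    refine (Conn.step hg ?_ h6).trans (h2 _ p p h5 hp)
    intro hq
    exact absurd (hq.2 p h5) (by omega)

instance : Infinite G :=
  Infinite.of_injective (fun m : ℕ => (⟨0, (FreeGroup.of false) ^ m⟩ : G)) (fun p q h => by
    have h1 := congrArg (fun g : G => (code g.w).length) h
    simpa [code_ray] using h1)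

theorem oneEnded : OneEnded S := by
  refine ⟨inferInstance, fun T hT => ?_⟩
  obtain ⟨M, hM⟩ := finite_subset_Box hT
  have hsub : (Box M)ᶜ ⊆ Tᶜ := Set.compl_subset_compl.2 hM
  set z : G := ⟨0, far M⟩ with hz
  have hzB : z ∉ Box M := by
    intro hq; have := hq.1; simp [hz, len_far] at this
  have hbase : ∀ g, g ∉ Box M → Conn S Tᶜ g z := fun g hg =>
    (conn_base hg).mono hsub
  have hinf : (Box M)ᶜ.Infinite := (Box_finite M).infinite_compl
  refine ⟨((cay S).induce Tᶜ).connectedComponentMk ⟨z, hsub hzB⟩, ?_, ?_⟩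
  · have h1 : (Subtype.val '' (((cay S).induce Tᶜ).connectedComponentMk ⟨z, hsub hzB⟩).supp).Infinite := by
      refine hinf.mono ?_
      intro g hg
      obtain ⟨h2, h3, h4⟩ := hbase g hg
      refine ⟨⟨g, h2⟩, ?_, rfl⟩
      rw [SimpleGraph.ConnectedComponent.mem_supp_iff, SimpleGraph.ConnectedComponent.eq]
      exact h4
    exact Set.Infinite.of_image _ h1
  · intro C hC
    have h1 : (Subtype.val '' C.supp).Infinite := hC.image Subtype.val_injective.injOn
    obtain ⟨g, hgC, hgB⟩ := h1.exists_notMem_finite (Box_finite M)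
    obtain ⟨g', hg', rfl⟩ := hgC
    obtain ⟨h2, h3, h4⟩ := hbase g' hgB
    rw [SimpleGraph.ConnectedComponent.mem_supp_iff] at hg'
    rw [← hg', SimpleGraph.ConnectedComponent.eq]
    exact h4

/-! ### pockets -/

/-- number of vertices of the ball of radius `D` in the tree -/
noncomputable def N (D : ℕ) : ℕ := (H (⟨full D, 1⟩ : G)).card

lemma H_sub {D : ℕ} {g : G} (hg : g ∈ Box D) : H g ⊆ H (⟨full D, 1⟩ : G) := by
  have hone : ∀ u, (code u).length ≤ D → full D u ≠ 0 := by
    intro u hu; rw [full_apply, if_pos hu]; decide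
  intro l hl
  rw [mem_H] at hl ⊢
  right
  rcases hl with h1 | ⟨u, hu, h1⟩
  · exact ⟨g.w, hone _ hg.1, h1⟩
  · exact ⟨u, hone _ (hg.2 u hu), h1⟩

lemma H_full {D : ℕ} {w : F} (hw : (code w).length ≤ D) :
    H (⟨full D, w⟩ : G) = H (⟨full D, 1⟩ : G) := by
  refine Finset.Subset.antisymm (H_sub ⟨hw, ?_⟩) ?_
  · intro i hi
    by_contra h
    exact hi (by rw [full_apply, if_neg h])
  · intro l hl
    rw [mem_H] at hl ⊢
    rcases hl with h1 | h1
    · left
      have h2 : l <:+ code (1 : F) := h1
      rw [code_one] at h2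
      rw [List.suffix_nil.1 h2]
      exact List.nil_suffix
    · exact Or.inr h1

lemma Phi_full {D : ℕ} {w : F} (hw : (code w).length ≤ D) :
    Phi (⟨full D, w⟩ : G) = 2 * ((N D : ℤ) - 1) - (code w).length := by
  unfold Phi
  rw [H_full hw]
  rfl

lemma Phi_box {D : ℕ} {g : G} (hg : g ∈ Box D) : Phi g ≤ 2 * ((N D : ℤ) - 1) - (code g.w).length := by
  have := Finset.card_le_card (H_sub hg)
  unfold Phi N
  omega

/-- the pocket -/
def Pk (D : ℕ) : Set G := {g | g ∈ Box D ∧ (code g.w).length < D}

lemma len_adj {g h : G} (hgh : (cay S).Adj g h) :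
    (code h.w).length ≤ (code g.w).length + 1 := by
  obtain ⟨h1, h2⟩ := adj_spec hgh
  rcases h1 with h1 | ⟨c, h1⟩
  · rw [h1]; omega
  · rcases code_nb_cases g.w c with h3 | h3
    · rw [h1, h3]; simp
    · have := congrArg List.length h3
      rw [← h1] at this
      simp at this
      omega

lemma Pk_step {D : ℕ} {m : ℤ} (hm : 2 * ((N D : ℤ) - 1) - D ≤ m) {g h : G} (hg : g ∈ Pk D)
    (hgh : (cay S).Adj g h) (hh : h ∈ (ball S m)ᶜ) : h ∈ Pk D := by
  obtain ⟨⟨h1, h2⟩, h3⟩ := hg
  have h4 := len_adj hgh
  obtain ⟨-, h5⟩ := adj_spec hgh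
  have hbox : h ∈ Box D := by
    refine ⟨by omega, fun i hi => ?_⟩
    by_cases hi1 : i = g.w
    · rw [hi1]; exact h1
    by_cases hi2 : i = h.w
    · rw [hi2]; omega
    rw [h5 i hi1 hi2] at hi
    exact h2 i hi
  refine ⟨hbox, ?_⟩
  by_contra hcon
  have hlen : (code h.w).length = D := by have := hbox.1; omega
  have h6 := Phi_box hbox
  have h7 := Phi_ge h
  have h8 : 1 ≤ Phi h := by omega
  have h9 := dist_eq h8
  apply hh
  change ((cay S).dist 1 h : ℤ) ≤ m
  omega

/-- pockets are closed -/
theorem pocket {D : ℕ} (hD : 1 ≤ D) {m : ℤ} (hm : 2 * ((N D : ℤ) - 1) - D ≤ m) :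
    (⟨full D, 1⟩ : G) ∉ outer S m := by
  rintro ⟨hg, hinf⟩
  have h1 : (⟨full D, 1⟩ : G) ∈ Pk D := by
    refine ⟨⟨by simp [code_one], ?_⟩, by simp [code_one]; omega⟩
    intro i hi
    by_contra h
    exact hi (by change full D i = 0; rw [full_apply, if_neg h])
  have h2 : (Subtype.val '' (((cay S).induce (ball S m)ᶜ).connectedComponentMk
      ⟨(⟨full D, 1⟩ : G), hg⟩).supp).Infinite := hinf.image Subtype.val_injective.injOn
  refine h2 ((Box_finite D).subset ?_)
  rintro _ ⟨v, hv, rfl⟩
  rw [SimpleGraph.ConnectedComponent.mem_supp_iff, SimpleGraph.ConnectedComponent.eq] at hv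
  obtain ⟨w⟩ := hv.symm
  exact (walk_closed (R := Pk D) (fun g h hg _ hgh hh => Pk_step hm hg hgh hh) w h1).1

lemma dist_centre {D : ℕ} (hD : 1 ≤ D) :
    ((cay S).dist 1 (⟨full D, 1⟩ : G) : ℤ) = 2 * ((N D : ℤ) - 1) := by
  have h1 := Phi_full (D := D) (w := 1) (by simp [code_one])
  have h2 := Phi_full (D := D) (w := (FreeGroup.of false) ^ D) (by rw [code_ray]; simp)
  have h3 := Phi_ge (⟨full D, (FreeGroup.of false) ^ D⟩ : G)
  simp only [code_ray, List.length_replicate, code_one, List.length_nil] at h1 h2 h3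
  rw [dist_eq (by omega), h1]; simp

/-! ### barriers -/

/-- the critical radius -/
noncomputable def n (D : ℕ) : ℕ := 2 * (N D - 1) - D

lemma n_eq (D : ℕ) : (n D : ℤ) = 2 * ((N D : ℤ) - 1) - D ∧ D ≤ n D := by
  have h2 := Phi_full (D := D) (w := (FreeGroup.of false) ^ D) (by rw [code_ray]; simp)
  have h3 := Phi_ge (⟨full D, (FreeGroup.of false) ^ D⟩ : G)
  simp only [code_ray, List.length_replicate] at h2 h3
  unfold n
  omega

lemma Phi_ray (D : ℕ) (b : Bool) (m : ℕ) :
    Phi (⟨full D, (FreeGroup.of b) ^ (D + m)⟩ : G) = n D + m := by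
  induction m with
  | zero =>
    rw [Phi_full (by rw [code_ray]; simp), code_ray, (n_eq D).1]; simp
  | succ m ih =>
    have hc : code ((FreeGroup.of b : F) ^ (D + (m + 1))) =
        (b, false) :: code ((FreeGroup.of b : F) ^ (D + m)) := by
      rw [code_ray, code_ray, ← add_assoc, List.replicate_succ]
    rw [Phi_child_new (g := ⟨full D, (FreeGroup.of b) ^ (D + m)⟩)
      (h := ⟨full D, (FreeGroup.of b) ^ (D + (m + 1))⟩) hc (fun _ _ _ => rfl), ih]
    · push_cast; ring
    · rw [mem_H]
      change ¬ (code ((FreeGroup.of b : F) ^ (D + (m + 1))) <:+ code ((FreeGroup.of b : F) ^ (D + m)) ∨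
        ∃ u, full D u ≠ 0 ∧ code ((FreeGroup.of b : F) ^ (D + (m + 1))) <:+ code u)
      rintro (h | ⟨u, hu, h⟩)
      · have := h.length_le
        rw [code_ray, code_ray] at this
        simp at this
      · have h1 := h.length_le
        rw [code_ray] at h1
        simp at h1
        apply hu
        rw [full_apply, if_neg (by omega)]

lemma ray_outer {D : ℕ} (hD : 1 ≤ D) (b : Bool) :
    (⟨full D, (FreeGroup.of b) ^ D⟩ : G) ∈ outer S ((n D : ℤ) - 1) := by
  have := outer_of_ray (S := S) (m := (n D : ℤ) - 1)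
    (fun m : ℕ => (⟨full D, (FreeGroup.of b) ^ (D + m)⟩ : G)) ?_ ?_ ?_ 0
  · simpa using this
  · intro i j h
    have h1 := congrArg (fun g : G => (code g.w).length) h
    simp only [code_ray, List.length_replicate] at h1
    omega
  · intro k hk
    have h1 : ((cay S).dist 1 (⟨full D, (FreeGroup.of b) ^ (D + k)⟩ : G) : ℤ) ≤ (n D : ℤ) - 1 := hk
    have h2 := Phi_ray D b k
    have h3 := (n_eq D).2
    rw [dist_eq (by omega), h2] at h1
    omega
  · intro k
    have := adj_walk (full D) ((FreeGroup.of b) ^ (D + k)) (b, false)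
    rw [nb_false, ← pow_succ] at this
    exact this

/-- the part of the tree behind the barrier -/
def T : Set F := {u | [((true, false) : L)] <:+ code u}

/-- the region -/
def Reg (D r : ℕ) : Set G := {g | (∀ u ∈ T, (code u).length = D → g.f u ≠ 0) ∧
  (∀ u ∈ T, g.f u ≠ 0 → (code u).length ≤ D) ∧
  (g.w ∈ T → (code g.w).length < D ∧ 2 * (((H g).card : ℤ) - 1) ≤ n D + r)}

lemma full_mem {D : ℕ} {g : G} (hg : ∀ u ∈ T, (code u).length = D → g.f u ≠ 0) {v : F}
    (hv : v ∈ T) (hl : (code v).length ≤ D) : code v ∈ H g := by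
  have hv1 : v ≠ 1 := by
    rintro rfl
    have h1 : [((true, false) : L)] <:+ code 1 := hv
    rw [code_one] at h1
    exact absurd (List.suffix_nil.1 h1) (by simp)
  obtain ⟨u, h1, h2⟩ := extend v hv1 (D - (code v).length)
  refine mem_H.2 (Or.inr ⟨u, hg u ?_ (by omega), h2⟩)
  exact List.IsSuffix.trans hv h2

lemma Reg_step {D r : ℕ} (hD : 1 ≤ D) (hr : r < D) {g h : G} (hg : g ∈ Reg D r)
    (hgU : ((cay S).dist 1 g : ℤ) ≤ n D + r) (hgh : (cay S).Adj g h)
    (hh : (n D : ℤ) ≤ (cay S).dist 1 h) : h ∈ Reg D r := by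
  obtain ⟨g1, g2, g3⟩ := hg
  obtain ⟨a1, a2⟩ := adj_spec hgh
  have hcase : h.w = g.w ∨ (∃ c, code h.w = c :: code g.w) ∨ (∃ c, code g.w = c :: code h.w) := by
    rcases a1 with a1 | ⟨c, a1⟩
    · exact Or.inl a1
    · right
      rcases code_nb_cases g.w c with h3 | h3
      · left; exact ⟨c, by rw [a1, h3]⟩
      · right; exact ⟨op c, by rw [a1]; exact h3⟩
  rcases hcase with hw | ⟨c, hw⟩ | ⟨c, hw⟩
  · -- same place
    refine ⟨?_, ?_, ?_⟩
    · intro u hu hl
      by_cases hu1 : u = g.w
      · subst hu1; exact absurd (g3 hu).1 (by omega)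
      · rw [a2 u hu1 (by rw [hw]; exact hu1)]; exact g1 u hu hl
    · intro u hu hfu
      by_cases hu1 : u = g.w
      · subst hu1; exact (g3 hu).1.le
      · rw [a2 u hu1 (by rw [hw]; exact hu1)] at hfu; exact g2 u hu hfu
    · intro hT
      have hH : H h = H g := H_same hw fun i hi => a2 i hi (by rw [hw]; exact hi)
      rw [hH, hw]
      rw [hw] at hT
      exact g3 hT
  · -- child
    have key : h.w ∈ T → (code h.w).length < D ∧ 2 * (((H h).card : ℤ) - 1) ≤ n D + r := by
      intro hT
      have hA : (code g.w).length < D ∧ 2 * (((H g).card : ℤ) - 1) ≤ n D + r := by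
        by_cases hgT : g.w ∈ T
        · exact g3 hgT
        · have h1 : [((true, false) : L)] <:+ code h.w := hT
          rw [hw, List.suffix_cons_iff] at h1
          rcases h1 with h1 | h1
          · have h2 : code g.w = [] := (List.cons.inj h1).2.symm
            rw [h2]
            refine ⟨by simp only [List.length_nil]; omega, ?_⟩
            have h3 : Phi g = 2 * (((H g).card : ℤ) - 1) := by unfold Phi; rw [h2]; simp
            have h4 := Phi_le g
            omega
          · exact absurd h1 hgT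
      have hlen : (code h.w).length = (code g.w).length + 1 := by rw [hw]; simp
      have hmem : code h.w ∈ H g := full_mem g1 hT (by omega)
      have hH : H h = H g := by
        rw [H_child hw a2, Finset.insert_eq_of_mem hmem]
      refine ⟨?_, by rw [hH]; exact hA.2⟩
      by_contra hcon
      have hlD : (code h.w).length = D := by omega
      have h5 : Phi h = 2 * (((H g).card : ℤ) - 1) - D := by
        unfold Phi; rw [hH, hlD]
      have h6 := Phi_ge h
      rw [dist_eq (by omega), h5] at hh
      omega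
    refine ⟨?_, ?_, key⟩
    · intro u hu hl
      by_cases hu1 : u = g.w
      · subst hu1; exact absurd (g3 hu).1 (by omega)
      by_cases hu2 : u = h.w
      · subst hu2; exact absurd (key hu).1 (by omega)
      rw [a2 u hu1 hu2]; exact g1 u hu hl
    · intro u hu hfu
      by_cases hu1 : u = g.w
      · subst hu1; exact (g3 hu).1.le
      by_cases hu2 : u = h.w
      · subst hu2; exact (key hu).1.le
      rw [a2 u hu1 hu2] at hfu; exact g2 u hu hfu
  · -- parent
    have hTT : h.w ∈ T → g.w ∈ T := by
      intro h1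
      have h2 : [((true, false) : L)] <:+ code h.w := h1
      change [((true, false) : L)] <:+ code g.w
      rw [hw]
      exact h2.trans (List.suffix_cons _ _)
    have hlen : (code g.w).length = (code h.w).length + 1 := by rw [hw]; simp
    have k1 : ∀ u ∈ T, (code u).length = D → h.f u ≠ 0 := by
      intro u hu hl
      by_cases hu1 : u = g.w
      · subst hu1; exact absurd (g3 hu).1 (by omega)
      by_cases hu2 : u = h.w
      · subst hu2; have := (g3 (hTT hu)).1; omega
      rw [a2 u hu1 hu2]; exact g1 u hu hl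
    refine ⟨k1, ?_, ?_⟩
    · intro u hu hfu
      by_cases hu1 : u = g.w
      · subst hu1; exact (g3 hu).1.le
      by_cases hu2 : u = h.w
      · subst hu2; have := (g3 (hTT hu)).1; omega
      rw [a2 u hu1 hu2] at hfu; exact g2 u hu hfu
    · intro hT
      obtain ⟨h1, h2⟩ := g3 (hTT hT)
      have hH : H g = H h := by
        rw [H_child (g := h) (h := g) hw (fun i hi hi' => (a2 i hi' hi).symm),
          Finset.insert_eq_of_mem (full_mem k1 (hTT hT) (by omega))]
      rw [← hH]
      exact ⟨by omega, h2⟩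

theorem not_conn {D r : ℕ} (hD : 1 ≤ D) (hr : r < D) :
    ¬ ((cay S).induce (ball S ((n D : ℤ) + r) ∩ outer S ((n D : ℤ) - 1))).Connected := by
  intro hconn
  have hn := (n_eq D).2
  have hin : ∀ b, (⟨full D, (FreeGroup.of b) ^ D⟩ : G) ∈
      ball S ((n D : ℤ) + r) ∩ outer S ((n D : ℤ) - 1) := by
    intro b
    refine ⟨?_, ray_outer hD b⟩
    have h1 := Phi_ray D b 0
    rw [add_zero] at h1
    change ((cay S).dist 1 (⟨full D, (FreeGroup.of b) ^ D⟩ : G) : ℤ) ≤ (n D : ℤ) + r
    rw [dist_eq (by omega), h1]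
    simp
  obtain ⟨w⟩ := hconn.preconnected ⟨_, hin false⟩ ⟨_, hin true⟩
  have h1 := walk_closed (R := Reg D r) ?_ w ?_
  · have h2 : (code ((FreeGroup.of true : F) ^ D)).length < D := by
      refine (h1.2.2 ?_).1
      change [((true, false) : L)] <:+ code ((FreeGroup.of true : F) ^ D)
      obtain ⟨D', rfl⟩ : ∃ D', D = D' + 1 := ⟨D - 1, by omega⟩
      rw [code_ray, List.replicate_succ']
      exact List.suffix_append _ _
    rw [code_ray] at h2
    simp at h2
  · intro g h hg hgU hgh hhU
    refine Reg_step hD hr hg hgU.1 hgh ?_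
    obtain ⟨h3, -⟩ := hhU.2
    have h4 : ¬ (((cay S).dist 1 h : ℤ) ≤ (n D : ℤ) - 1) := h3
    omega
  · refine ⟨?_, ?_, ?_⟩
    · intro u _ hl
      change full D u ≠ 0
      rw [full_apply, if_pos hl.le]; decide
    · intro u _ hu
      by_contra h
      exact hu (by change full D u = 0; rw [full_apply, if_neg h])
    · intro hT
      exfalso
      have h2 : [((true, false) : L)] <:+ code ((FreeGroup.of false : F) ^ D) := hT
      rw [code_ray] at h2
      have h3 : ((true, false) : L) ∈ List.replicate D ((false, false) : L) :=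
        h2.subset (by simp)
      rw [List.mem_replicate] at h3
      exact absurd h3.2 (by decide)

end G

end Pool.Agent.X155.TreeLamp
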