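import Pool.Agent.X155.TreeLamp3

/-! The plane. -/

namespace Pool.Agent.X155.TreeLamp

open Pool.Agent.X155.Lamp

namespace Plane

/-- the group -/
abbrev Q := Multiplicative (ℤ × ℤ)

/-- a point -/
def pt (x y : ℤ) : Q := Multiplicative.ofAdd (x, y)

/-- generators -/
def T : Set Q := {1, pt 1 0, pt 0 1}

/-- the norm -/
def nm (q : Q) : ℤ := |(Multiplicative.toAdd q).1| + |(Multiplicative.toAdd q).2|

lemma nm_pt (x y : ℤ) : nm (pt x y) = |x| + |y| := rfl

lemma pt_eta (q : Q) : pt (Multiplicative.toAdd q).1 (Multiplicative.toAdd q).2 = q := rfl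

lemma pt_inj {x y x' y' : ℤ} (h : pt x y = pt x' y') : x = x' ∧ y = y' := by
  have h1 := congrArg Multiplicative.toAdd h
  exact ⟨congrArg Prod.fst h1, congrArg Prod.snd h1⟩

lemma inv_mul_pt (x y x' y' : ℤ) : (pt x y)⁻¹ * pt x' y' = pt (x' - x) (y' - y) := by
  change Multiplicative.ofAdd (-(x, y) + (x', y')) = Multiplicative.ofAdd (x' - x, y' - y)
  congr 1
  ext <;> simp <;> ring

lemma adj_x (x y : ℤ) : (cay T).Adj (pt x y) (pt (x + 1) y) := by
  refine ⟨fun h => by have := (pt_inj h).1; omega, Or.inl ?_⟩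
  rw [inv_mul_pt]
  simp [T]

lemma adj_y (x y : ℤ) : (cay T).Adj (pt x y) (pt x (y + 1)) := by
  refine ⟨fun h => by have := (pt_inj h).2; omega, Or.inl ?_⟩
  rw [inv_mul_pt]
  simp [T]

lemma adj_x' (x y : ℤ) : (cay T).Adj (pt x y) (pt (x - 1) y) := by
  have := adj_x (x - 1) y
  rw [sub_add_cancel] at this
  exact this.symm

lemma adj_y' (x y : ℤ) : (cay T).Adj (pt x y) (pt x (y - 1)) := by
  have := adj_y x (y - 1)
  rw [sub_add_cancel] at this
  exact this.symm

lemma nm_adj {g h : Q} (hgh : (cay T).Adj g h) : nm h ≤ nm g + 1 := by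
  have key : ∀ x y x' y' : ℤ, (pt x y)⁻¹ * pt x' y' ∈ T → |x' - x| + |y' - y| ≤ 1 := by
    intro x y x' y' h
    rw [inv_mul_pt] at h
    rcases h with h | h | h
    · obtain ⟨h1, h2⟩ := pt_inj (x := x' - x) (y := y' - y) (x' := 0) (y' := 0) h
      rw [h1, h2]; simp
    · obtain ⟨h1, h2⟩ := pt_inj h
      rw [h1, h2]; simp
    · obtain ⟨h1, h2⟩ := pt_inj h
      rw [h1, h2]; simp
  rw [← pt_eta g, ← pt_eta h] at hgh ⊢
  rw [nm_pt, nm_pt]
  set x := (Multiplicative.toAdd g).1
  set y := (Multiplicative.toAdd g).2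
  set x' := (Multiplicative.toAdd h).1
  set y' := (Multiplicative.toAdd h).2
  have h1 : |x' - x| + |y' - y| ≤ 1 := by
    rcases hgh.2 with h | h
    · exact key _ _ _ _ h
    · have := key _ _ _ _ h
      rwa [abs_sub_comm, abs_sub_comm y y'] at this
  have h2 : |x'| ≤ |x| + |x' - x| := by
    have := abs_add_le x (x' - x)
    rwa [add_sub_cancel] at this
  have h3 : |y'| ≤ |y| + |y' - y| := by
    have := abs_add_le y (y' - y)
    rwa [add_sub_cancel] at this
  omega

lemma reach (q : Q) : (cay T).Reachable 1 q ∧ ((cay T).dist 1 q : ℤ) ≤ nm q := by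
  obtain ⟨m, hm⟩ : ∃ m : ℕ, nm q = m := ⟨(nm q).toNat, by
    rw [Int.toNat_of_nonneg]; unfold nm; positivity⟩
  induction m generalizing q with
  | zero =>
    have h1 : q = 1 := by
      rw [← pt_eta q] at hm ⊢
      rw [nm_pt] at hm
      have h2 := abs_nonneg (Multiplicative.toAdd q).1
      have h3 := abs_nonneg (Multiplicative.toAdd q).2
      have h4 : (Multiplicative.toAdd q).1 = 0 := abs_eq_zero.1 (by push_cast at hm; omega)
      have h5 : (Multiplicative.toAdd q).2 = 0 := abs_eq_zero.1 (by push_cast at hm; omega)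
      rw [h4, h5]; rfl
    rw [hm, h1]; simp
  | succ m ih =>
    have key : ∀ q' : Q, (cay T).Adj q' q → nm q' = m → (cay T).Reachable 1 q ∧
        ((cay T).dist 1 q : ℤ) ≤ nm q := by
      intro q' h1 h2
      obtain ⟨h3, h4⟩ := ih q' h2
      refine ⟨h3.trans h1.reachable, ?_⟩
      obtain ⟨w, hw⟩ := h3.exists_walk_length_eq_dist
      have h5 := SimpleGraph.dist_le (w.concat h1)
      rw [SimpleGraph.Walk.length_concat, hw] at h5
      have h6 : ((cay T).dist 1 q : ℤ) ≤ (cay T).dist 1 q' + 1 := by exact_mod_cast h5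
      rw [hm]; push_cast
      omega
    rw [← pt_eta q] at hm key ⊢
    set x := (Multiplicative.toAdd q).1
    set y := (Multiplicative.toAdd q).2
    rw [nm_pt] at hm
    push_cast at hm
    rcases lt_trichotomy x 0 with hx | hx | hx
    · refine key (pt (x + 1) y) (adj_x x y).symm ?_
      rw [nm_pt, abs_of_nonpos (by omega : x + 1 ≤ 0)]
      rw [abs_of_neg hx] at hm
      omega
    · rw [hx] at hm
      rcases lt_trichotomy y 0 with hy | hy | hy
      · refine key (pt x (y + 1)) ?_ ?_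
        · exact (adj_y x y).symm
        · rw [nm_pt, hx, abs_of_nonpos (by omega : y + 1 ≤ 0)]
          rw [abs_of_neg hy] at hm
          simp at hm ⊢
          omega
      · rw [hy] at hm; simp at hm; omega
      · refine key (pt x (y - 1)) ?_ ?_
        · exact (adj_y' x y).symm
        · rw [nm_pt, hx, abs_of_nonneg (by omega : 0 ≤ y - 1)]
          rw [abs_of_pos hy] at hm
          simp at hm ⊢
          omega
    · refine key (pt (x - 1) y) (adj_x' x y).symm ?_
      rw [nm_pt, abs_of_nonneg (by omega : 0 ≤ x - 1)]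
      rw [abs_of_pos hx] at hm
      omega

lemma dist_eq (q : Q) : ((cay T).dist 1 q : ℤ) = nm q := by
  refine le_antisymm (reach q).2 ?_
  obtain ⟨w, hw⟩ := (reach q).1.exists_walk_length_eq_dist
  rw [← hw]
  have key : ∀ {x y : Q} (w : (cay T).Walk x y), nm y ≤ nm x + w.length := by
    intro x y w
    induction w with
    | nil => simp
    | cons h p ih =>
      have := nm_adj h
      rw [SimpleGraph.Walk.length_cons]
      push_cast
      linarith
  have := key w
  have h1 : nm (1 : Q) = 0 := rfl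
  rw [h1] at this
  linarith

/-- the band -/
def Band (n : ℤ) : Set Q := {q | n ≤ nm q ∧ nm q ≤ n + 1}

lemma mem_Band {n x y : ℤ} : pt x y ∈ Band n ↔ n ≤ |x| + |y| ∧ |x| + |y| ≤ n + 1 := Iff.rfl

/-- on the right -/
lemma right {n : ℤ} : ∀ k : ℕ, ∀ x y : ℤ, 0 ≤ x → |y| = k → x + |y| = n →
    Conn T (Band n) (pt x y) (pt n 0) := by
  intro k
  induction k with
  | zero =>
    intro x y hx hy hn
    have hy0 : y = 0 := abs_eq_zero.1 (by simpa using hy)
    subst hy0
    simp at hn
    subst hn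
    refine Conn.refl ?_
    rw [mem_Band, abs_of_nonneg hx]; simp
  | succ k ih =>
    intro x y hx hy hn
    have hy' : |y| = k + 1 := by rw [hy]; push_cast; ring
    have h1 : pt x y ∈ Band n := by rw [mem_Band, abs_of_nonneg hx]; omega
    have h2 : pt (x + 1) y ∈ Band n := by
      rw [mem_Band, abs_of_nonneg (by omega : 0 ≤ x + 1)]; omega
    refine (Conn.step h1 h2 (adj_x x y)).trans ?_
    rcases lt_or_ge y 0 with hy0 | hy0
    · rw [abs_of_neg hy0] at hy' hn
      have h3 : |y + 1| = k := by rw [abs_of_nonpos (by omega)]; omega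
      have h4 : pt (x + 1) (y + 1) ∈ Band n := by
        rw [mem_Band, abs_of_nonneg (by omega : 0 ≤ x + 1), h3]; omega
      exact (Conn.step h2 h4 (adj_y _ _)).trans (ih _ _ (by omega) h3 (by rw [h3]; omega))
    · rw [abs_of_nonneg hy0] at hy' hn
      have h3 : |y - 1| = k := by rw [abs_of_nonneg (by omega)]; omega
      have h4 : pt (x + 1) (y - 1) ∈ Band n := by
        rw [mem_Band, abs_of_nonneg (by omega : 0 ≤ x + 1), h3]; omega
      exact (Conn.step h2 h4 (adj_y' _ _)).trans (ih _ _ (by omega) h3 (by rw [h3]; omega))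

/-- everything of norm `n` -/
lemma sphere {n : ℤ} : ∀ k : ℕ, ∀ x y : ℤ, -k ≤ x → |x| + |y| = n →
    Conn T (Band n) (pt x y) (pt n 0) := by
  intro k
  induction k with
  | zero =>
    intro x y hx hn
    have hx0 : 0 ≤ x := by simpa using hx
    exact right _ x y hx0 (Int.natCast_natAbs y).symm (by rw [← hn, abs_of_nonneg hx0])
  | succ k ih =>
    intro x y hx hn
    push_cast at hx
    by_cases hx0 : 0 ≤ x
    · exact right _ x y hx0 (Int.natCast_natAbs y).symm (by rw [← hn, abs_of_nonneg hx0])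
    push Not at hx0
    rw [abs_of_neg hx0] at hn
    have h1 : pt x y ∈ Band n := by rw [mem_Band, abs_of_neg hx0]; omega
    rcases lt_or_ge y 0 with hy0 | hy0
    · rw [abs_of_neg hy0] at hn
      have h2 : pt x (y - 1) ∈ Band n := by
        rw [mem_Band, abs_of_neg hx0, abs_of_neg (by omega : y - 1 < 0)]; omega
      have h3 : |x + 1| + |y - 1| = n := by
        rw [abs_of_nonpos (by omega : x + 1 ≤ 0), abs_of_neg (by omega : y - 1 < 0)]; omega
      have h4 : pt (x + 1) (y - 1) ∈ Band n := by rw [mem_Band, h3]; omega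
      exact (Conn.step h1 h2 (adj_y' _ _)).trans ((Conn.step h2 h4 (adj_x _ _)).trans
        (ih _ _ (by omega) h3))
    · rw [abs_of_nonneg hy0] at hn
      have h2 : pt x (y + 1) ∈ Band n := by
        rw [mem_Band, abs_of_neg hx0, abs_of_nonneg (by omega : 0 ≤ y + 1)]; omega
      have h3 : |x + 1| + |y + 1| = n := by
        rw [abs_of_nonpos (by omega : x + 1 ≤ 0), abs_of_nonneg (by omega : 0 ≤ y + 1)]; omega
      have h4 : pt (x + 1) (y + 1) ∈ Band n := by rw [mem_Band, h3]; omega
      exact (Conn.step h1 h2 (adj_y _ _)).trans ((Conn.step h2 h4 (adj_x _ _)).trans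
        (ih _ _ (by omega) h3))

lemma band {n : ℤ} (hn0 : 0 ≤ n) {q : Q} (hq : q ∈ Band n) : Conn T (Band n) q (pt n 0) := by
  rw [← pt_eta q] at hq ⊢
  set x := (Multiplicative.toAdd q).1
  set y := (Multiplicative.toAdd q).2
  have hq' := mem_Band.1 hq
  have hsph : ∀ x y : ℤ, |x| + |y| = n → Conn T (Band n) (pt x y) (pt n 0) := fun x y h =>
    sphere x.natAbs x y (by omega) h
  by_cases h : |x| + |y| = n
  · exact hsph x y h
  have h1 : |x| + |y| = n + 1 := by omega
  rcases lt_trichotomy x 0 with hx | hx | hx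
  · have h2 : |x + 1| + |y| = n := by
      rw [abs_of_nonpos (by omega : x + 1 ≤ 0)]; rw [abs_of_neg hx] at h1; omega
    exact (Conn.step hq (by rw [mem_Band, h2]; omega) (adj_x _ _)).trans (hsph _ _ h2)
  · rw [hx] at h1 hq ⊢
    rcases lt_trichotomy y 0 with hy | hy | hy
    · have h2 : |(0 : ℤ)| + |y + 1| = n := by
        rw [abs_of_nonpos (by omega : y + 1 ≤ 0)]; rw [abs_of_neg hy] at h1; simp at h1 ⊢; omega
      exact (Conn.step hq (by rw [mem_Band, h2]; omega) (adj_y _ _)).trans (hsph _ _ h2)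
    · rw [hy] at h1; simp at h1; omega
    · have h2 : |(0 : ℤ)| + |y - 1| = n := by
        rw [abs_of_nonneg (by omega : 0 ≤ y - 1)]; rw [abs_of_pos hy] at h1; simp at h1 ⊢; omega
      exact (Conn.step hq (by rw [mem_Band, h2]; omega) (adj_y' _ _)).trans (hsph _ _ h2)
  · have h2 : |x - 1| + |y| = n := by
      rw [abs_of_nonneg (by omega : 0 ≤ x - 1)]; rw [abs_of_pos hx] at h1; omega
    exact (Conn.step hq (by rw [mem_Band, h2]; omega) (adj_x' _ _)).trans (hsph _ _ h2)

lemma ball_eq (m : ℤ) : (ball T m)ᶜ = {q | m < nm q} := by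
  ext q
  change ¬ (((cay T).dist 1 q : ℤ) ≤ m) ↔ m < nm q
  rw [dist_eq]; omega

/-- points far out are connected to a base point -/
lemma conn_base {m : ℤ} {q : Q} (hq : m < nm q) {k : ℤ} (hk : m < k) (hk0 : 0 ≤ k) :
    Conn T {q | m < nm q} q (pt k 0) := by
  have hq0 : 0 ≤ nm q := by unfold nm; positivity
  have h1 : Conn T (Band (nm q)) q (pt (nm q) 0) := band hq0 ⟨le_rfl, by omega⟩
  have h2 : Conn T {q | m < nm q} q (pt (nm q) 0) :=
    h1.mono fun z hz => lt_of_lt_of_le hq hz.1
  refine h2.trans ?_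
  have hup : ∀ j : ℕ, ∀ x : ℤ, m < x → 0 ≤ x → Conn T {q | m < nm q} (pt x 0) (pt (x + j) 0) := by
    intro j
    induction j with
    | zero =>
      intro x hx hx0
      simp only [Nat.cast_zero, add_zero]
      exact Conn.refl (by change m < |x| + |0|; rw [abs_of_nonneg hx0]; simpa using hx)
    | succ j ih =>
      intro x hx hx0
      refine (ih x hx hx0).trans ?_
      have h3 := adj_x (x + j) 0
      have h4 : x + ((j + 1 : ℕ) : ℤ) = x + j + 1 := by push_cast; ring
      rw [h4]
      refine Conn.step ?_ ?_ h3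
      · change m < |x + j| + |0|; rw [abs_of_nonneg (by positivity)]; simp; omega
      · change m < |x + j + 1| + |0|; rw [abs_of_nonneg (by positivity)]; simp; omega
  rcases le_total (nm q) k with h | h
  · have := hup (k - nm q).toNat (nm q) hq hq0
    rwa [Int.toNat_of_nonneg (by omega), add_sub_cancel] at this
  · have := hup (nm q - k).toNat k hk hk0
    rw [Int.toNat_of_nonneg (by omega), add_sub_cancel] at this
    exact this.symm

lemma outer_eq (m : ℤ) : outer T m = (ball T m)ᶜ := by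
  ext q
  constructor
  · rintro ⟨h, -⟩; exact h
  · intro hq
    have hq' : m < nm q := by rw [ball_eq] at hq; exact hq
    refine ⟨hq, ?_⟩
    have h1 : ∀ j : ℕ, Conn T (ball T m)ᶜ q (pt (max m 0 + 1 + j) 0) := by
      intro j
      rw [ball_eq]
      exact conn_base hq' (by omega) (by omega)
    refine Set.infinite_of_injective_forall_mem
      (f := fun j : ℕ => (⟨pt (max m 0 + 1 + j) 0, (h1 j).2.1⟩ : ↑(ball T m)ᶜ)) ?_ ?_
    · intro i j h
      have h2 : max m 0 + 1 + (i : ℤ) = max m 0 + 1 + (j : ℤ) :=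
        (pt_inj (congrArg Subtype.val h)).1
      omega
    · intro j
      rw [SimpleGraph.ConnectedComponent.mem_supp_iff, SimpleGraph.ConnectedComponent.eq]
      exact (h1 j).2.2.symm

lemma finite_le (m : ℤ) : {q : Q | nm q ≤ m}.Finite := by
  refine Set.Finite.subset ((((Finset.Icc (-m) m) ×ˢ (Finset.Icc (-m) m) :
    Finset (ℤ × ℤ)).finite_toSet).image Multiplicative.ofAdd) ?_
  intro q hq
  refine ⟨Multiplicative.toAdd q, ?_, rfl⟩
  have h1 : |(Multiplicative.toAdd q).1| + |(Multiplicative.toAdd q).2| ≤ m := hq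
  have h2 := abs_nonneg (Multiplicative.toAdd q).1
  have h3 := abs_nonneg (Multiplicative.toAdd q).2
  have h4 := abs_le.1 (show |(Multiplicative.toAdd q).1| ≤ m by omega)
  have h5 := abs_le.1 (show |(Multiplicative.toAdd q).2| ≤ m by omega)
  simp only [Finset.coe_product, Set.mem_prod, Finset.mem_coe, Finset.mem_Icc]
  exact ⟨h4, h5⟩

theorem oneEnded : OneEnded T := by
  refine ⟨inferInstance, fun U hU => ?_⟩
  obtain ⟨m, hm0, hm⟩ : ∃ m : ℤ, 0 ≤ m ∧ ∀ q ∈ U, nm q ≤ m := by
    induction U, hU using Set.Finite.induction_on with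
    | empty => exact ⟨0, le_rfl, fun q hq => absurd hq (Set.notMem_empty q)⟩
    | insert _ _ ih =>
      rename_i a s _ _
      obtain ⟨m, h0, h1⟩ := ih
      refine ⟨max m (nm a), le_max_of_le_left h0, ?_⟩
      rintro q (rfl | hq)
      · exact le_max_right _ _
      · exact (h1 q hq).trans (le_max_left _ _)
  have hsub : {q : Q | m < nm q} ⊆ Uᶜ := by
    intro q hq hqU
    have := hm q hqU
    have h2 : m < nm q := hq
    omega
  set z : Q := pt (m + 1) 0 with hz
  have hzn : m < nm z := by rw [hz, nm_pt, abs_of_nonneg (by omega)]; simp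
  have hbase : ∀ q, m < nm q → Conn T Uᶜ q z := fun q hq =>
    (conn_base hq (by omega) (by omega)).mono hsub
  have hinf : {q : Q | m < nm q}.Infinite := by
    have := (finite_le m).infinite_compl
    refine this.mono ?_
    intro q hq
    by_contra h
    exact hq (show nm q ≤ m from not_lt.1 h)
  refine ⟨((cay T).induce Uᶜ).connectedComponentMk ⟨z, hsub hzn⟩, ?_, ?_⟩
  · have h1 : (Subtype.val '' (((cay T).induce Uᶜ).connectedComponentMk ⟨z, hsub hzn⟩).supp).Infinite := by
      refine hinf.mono ?_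
      intro g hg
      obtain ⟨h2, h3, h4⟩ := hbase g hg
      refine ⟨⟨g, h2⟩, ?_, rfl⟩
      rw [SimpleGraph.ConnectedComponent.mem_supp_iff, SimpleGraph.ConnectedComponent.eq]
      exact h4
    exact Set.Infinite.of_image _ h1
  · intro C hC
    have h1 : (Subtype.val '' C.supp).Infinite := hC.image Subtype.val_injective.injOn
    obtain ⟨g, hgC, hgB⟩ := h1.exists_notMem_finite (finite_le m)
    obtain ⟨g', hg', rfl⟩ := hgC
    obtain ⟨h2, h3, h4⟩ := hbase g' (not_le.1 hgB)
    rw [SimpleGraph.ConnectedComponent.mem_supp_iff] at hg'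
    rw [← hg', SimpleGraph.ConnectedComponent.eq]
    exact h4

theorem annulus_conn (n : ℕ) :
    ((cay T).induce (ball T ((n : ℤ) + (1 : ℕ)) ∩ outer T ((n : ℤ) - 1))).Connected := by
  have hset : ball T ((n : ℤ) + (1 : ℕ)) ∩ outer T ((n : ℤ) - 1) = Band n := by
    rw [outer_eq, ball_eq]
    ext q
    constructor
    · rintro ⟨h1, h2⟩
      have h3 : ((cay T).dist 1 q : ℤ) ≤ (n : ℤ) + (1 : ℕ) := h1
      have h4 : (n : ℤ) - 1 < nm q := h2
      rw [dist_eq] at h3
      exact ⟨by omega, by push_cast at h3; omega⟩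
    · rintro ⟨h1, h2⟩
      refine ⟨?_, ?_⟩
      · change ((cay T).dist 1 q : ℤ) ≤ (n : ℤ) + (1 : ℕ)
        rw [dist_eq]; push_cast; omega
      · change (n : ℤ) - 1 < nm q
        omega
  rw [hset]
  have hn : pt (n : ℤ) 0 ∈ Band n := by
    rw [mem_Band, abs_of_nonneg (by positivity)]; simp
  have : Nonempty (Band (n : ℤ)) := ⟨⟨_, hn⟩⟩
  refine ⟨fun u v => ?_⟩
  obtain ⟨a1, a2, a3⟩ := band (by positivity) u.2
  obtain ⟨b1, b2, b3⟩ := band (by positivity) v.2
  exact a3.trans b3.symm

theorem rd_zero (q : Q) : q ∈ outer T (((cay T).dist 1 q : ℤ) - (0 : ℕ) - 1) := by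
  rw [outer_eq, ball_eq]
  change ((cay T).dist 1 q : ℤ) - (0 : ℕ) - 1 < nm q
  rw [dist_eq]; simp

end Plane

/-- the projection -/
noncomputable def proj : G →* Plane.Q where
  toFun g := FreeGroup.lift (fun b : Bool => if b then Plane.pt 0 1 else Plane.pt 1 0) g.w
  map_one' := by rw [G.one_w, map_one]
  map_mul' g h := by rw [G.mul_w, map_mul]

lemma proj_a : proj G.a = 1 := by
  change FreeGroup.lift (fun b : Bool => if b then Plane.pt 0 1 else Plane.pt 1 0) (1 : F) = 1
  rw [map_one]

lemma proj_x (b : Bool) : proj (G.x b) = if b then Plane.pt 0 1 else Plane.pt 1 0 := by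
  change FreeGroup.lift (fun b : Bool => if b then Plane.pt 0 1 else Plane.pt 1 0)
    (FreeGroup.of b : F) = _
  rw [FreeGroup.lift_apply_of]

lemma proj_S : proj '' G.S = Plane.T := by
  ext q
  constructor
  · rintro ⟨z, hz, rfl⟩
    rw [G.mem_S] at hz
    rcases hz with rfl | ⟨b, rfl | rfl | rfl | rfl⟩
    · rw [proj_a]; left; rfl
    all_goals
      simp only [map_mul, proj_a, proj_x, one_mul, mul_one]
      cases b
      · right; left; rfl
      · right; right; rfl
  · rintro (rfl | rfl | rfl)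
    · exact ⟨G.a, G.mem_S.2 (Or.inl rfl), proj_a⟩
    · exact ⟨G.x false, G.mem_S.2 (Or.inr ⟨false, Or.inl rfl⟩), by rw [proj_x]; rfl⟩
    · exact ⟨G.x true, G.mem_S.2 (Or.inr ⟨true, Or.inl rfl⟩), by rw [proj_x]; rfl⟩

lemma proj_surj : Function.Surjective proj := by
  intro q
  have h1 : ∀ k : ℤ, proj (G.x false ^ k) = Plane.pt k 0 := by
    intro k
    rw [map_zpow, proj_x]
    change Multiplicative.ofAdd (k • ((1, 0) : ℤ × ℤ)) = Multiplicative.ofAdd (k, 0)
    simp
  have h2 : ∀ k : ℤ, proj (G.x true ^ k) = Plane.pt 0 k := by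
    intro k
    rw [map_zpow, proj_x]
    change Multiplicative.ofAdd (k • ((0, 1) : ℤ × ℤ)) = Multiplicative.ofAdd (0, k)
    simp
  refine ⟨G.x false ^ (Multiplicative.toAdd q).1 * G.x true ^ (Multiplicative.toAdd q).2, ?_⟩
  rw [map_mul, h1, h2]
  change Multiplicative.ofAdd (((Multiplicative.toAdd q).1, (0 : ℤ)) + (0, (Multiplicative.toAdd q).2)) = q
  simp

end Pool.Agent.X155.TreeLamp
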