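import Mathlib

/-! Rooted trees given by a parent function, and labelled tree ultrametrics. -/

namespace X155.UR

open SimpleGraph Set

variable {V : Type*}

/-- The ultrametric of `V` is generated by the labelled tree `T(l)`. -/
def GeneratedBy [Dist V] (T : SimpleGraph V) (l : V → ℝ) : Prop :=
  T.IsTree ∧ (∀ v, 0 ≤ l v) ∧ ∀ u v : V, u ≠ v → ∀ p : T.Walk u v, p.IsPath →
    IsGreatest {r | ∃ w ∈ p.support, l w = r} (dist u v)

/-- A ray: distinct vertices `x 0, x 1, ...` and the edges `x n, x (n+1)`. -/
def IsRay (R : SimpleGraph V) : Prop :=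
  ∃ x : ℕ → V, Function.Bijective x ∧ ∀ m n, R.Adj (x m) (x n) ↔ (m + 1 = n ∨ n + 1 = m)

/-- Exactly one vertex has degree greater than two. -/
def Starlike (T : SimpleGraph V) : Prop := ∃! v, 2 < (T.neighborSet v).encard

/-- No ray is a subgraph. -/
def Rayless (T : SimpleGraph V) : Prop :=
  ¬ ∃ x : ℕ → V, Function.Injective x ∧ ∀ n, T.Adj (x n) (x (n + 1))

/-- A parent function. -/
structure PT (V : Type*) where
  c : V
  par : V → V
  dep : V → ℕ
  dep_c : dep c = 0
  dep_par : ∀ v, v ≠ c → dep v = dep (par v) + 1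

namespace PT

variable (P : PT V)

/-- The graph of a parent function. -/
def graph : SimpleGraph V where
  Adj u v := (u ≠ P.c ∧ P.par u = v) ∨ (v ≠ P.c ∧ P.par v = u)
  symm := ⟨fun _ _ h => h.symm⟩
  loopless := ⟨fun v h => by
    rcases h with h | h <;> · have := P.dep_par v h.1; rw [h.2] at this; omega⟩

lemma adj_iff {u v : V} :
    P.graph.Adj u v ↔ (u ≠ P.c ∧ P.par u = v) ∨ (v ≠ P.c ∧ P.par v = u) := Iff.rfl

lemma down {u v : V} (p : P.graph.Walk u v) : p.IsPath → ∀ u0 : V, u ≠ P.c → P.par u = u0 →
    u0 ∉ p.support → P.dep u ≤ P.dep v := by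
  induction p with
  | nil => intros; exact le_rfl
  | @cons u w v h p ih =>
    intro hp u0 huc hu hn
    rw [Walk.cons_isPath_iff] at hp
    rcases P.adj_iff.1 h with h1 | h1
    · exfalso
      apply hn
      rw [← hu, h1.2, Walk.support_cons]
      exact List.mem_cons_of_mem _ p.start_mem_support
    · have h2 := ih hp.1 u h1.1 h1.2 hp.2
      have h3 := P.dep_par w h1.1
      rw [h1.2] at h3
      omega

/-- A path starting at the deeper vertex starts with the parent. -/
lemma first {u v : V} (p : P.graph.Walk u v) (hp : p.IsPath) (huv : u ≠ v)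
    (hd : P.dep v ≤ P.dep u) :
    u ≠ P.c ∧ ∃ (h : P.graph.Adj u (P.par u)) (q : P.graph.Walk (P.par u) v),
      q.IsPath ∧ p = Walk.cons h q := by
  cases p with
  | nil => exact absurd rfl huv
  | @cons _ w _ h q =>
    rw [Walk.cons_isPath_iff] at hp
    rcases P.adj_iff.1 h with h1 | h1
    · obtain ⟨h1, rfl⟩ := h1
      exact ⟨h1, h, q, hp.1, rfl⟩
    · exfalso
      have h2 := P.down q hp.1 u h1.1 h1.2 hp.2
      have h3 := P.dep_par w h1.1
      rw [h1.2] at h3
      omega

lemma reach (v : V) : P.graph.Reachable v P.c := by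
  induction hn : P.dep v generalizing v with
  | zero =>
    by_cases h : v = P.c
    · rw [h]
    · have := P.dep_par v h; omega
  | succ n ih =>
    by_cases h : v = P.c
    · rw [h]
    · have := P.dep_par v h
      have h2 := ih (P.par v) (by omega)
      exact (Adj.reachable (P.adj_iff.2 (Or.inl ⟨h, rfl⟩))).trans h2

lemma uniq (n : ℕ) : ∀ (u v : V) (p q : P.graph.Walk u v), P.dep u + P.dep v = n →
    p.IsPath → q.IsPath → p = q := by
  induction n with
  | zero =>
    intro u v p q hn hp hq
    by_cases huv : u = v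
    · subst huv
      rw [Walk.isPath_iff_eq_nil] at hp hq
      rw [hp, hq]
    · obtain ⟨h, -⟩ := P.first p hp huv (by omega)
      have := P.dep_par u h
      omega
  | succ n ih =>
    have key : ∀ (u v : V) (p q : P.graph.Walk u v), P.dep u + P.dep v = n + 1 →
        P.dep v ≤ P.dep u → p.IsPath → q.IsPath → p = q := by
      intro u v p q hn hd hp hq
      by_cases huv : u = v
      · subst huv
        rw [Walk.isPath_iff_eq_nil] at hp hq
        rw [hp, hq]
      · obtain ⟨h, h1, p', hp', rfl⟩ := P.first p hp huv hd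
        obtain ⟨-, h2, q', hq', rfl⟩ := P.first q hq huv hd
        have h3 := P.dep_par u h
        rw [ih _ _ p' q' (by omega) hp' hq']
    intro u v p q hn hp hq
    by_cases hd : P.dep v ≤ P.dep u
    · exact key u v p q hn hd hp hq
    · have := key v u p.reverse q.reverse (by omega) (by omega) hp.reverse hq.reverse
      have h2 := congrArg Walk.reverse this
      simpa using h2

lemma isTree : P.graph.IsTree := by
  classical
  refine isTree_iff_existsUnique_path.2 ⟨⟨P.c⟩, fun u v => ?_⟩
  obtain ⟨p⟩ := (P.reach u).trans (P.reach v).symm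
  exact ⟨p.bypass, p.bypass_isPath, fun q hq => P.uniq _ u v q _ rfl hq p.bypass_isPath⟩

end PT

open Classical in
/-- The distance, with the label on the diagonal. -/
noncomputable def dl [Dist V] (l : V → ℝ) (u v : V) : ℝ := if u = v then l u else dist u v

lemma dl_self [Dist V] (l : V → ℝ) (u : V) : dl l u u = l u := by simp [dl]
lemma dl_ne [Dist V] (l : V → ℝ) {u v : V} (h : u ≠ v) : dl l u v = dist u v := by simp [dl, h]
lemma dl_comm [MetricSpace V] (l : V → ℝ) (u v : V) : dl l u v = dl l v u := by
  by_cases h : u = v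
  · subst h; rfl
  · rw [dl_ne l h, dl_ne l (Ne.symm h), _root_.dist_comm]

lemma greatest_cons {G : SimpleGraph V} (l : V → ℝ) {u w v : V} (h : G.Adj u w)
    (q : G.Walk w v) (a : ℝ) (hq : IsGreatest {r | ∃ x ∈ q.support, l x = r} a) :
    IsGreatest {r | ∃ x ∈ (Walk.cons h q).support, l x = r} (max (l u) a) := by
  constructor
  · rcases le_total (l u) a with h1 | h1
    · rw [max_eq_right h1]
      obtain ⟨x, hx, hxa⟩ := hq.1
      exact ⟨x, by rw [Walk.support_cons]; exact List.mem_cons_of_mem _ hx, hxa⟩
    · rw [max_eq_left h1]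
      exact ⟨u, by simp, rfl⟩
  · rintro r ⟨x, hx, rfl⟩
    rw [Walk.support_cons, List.mem_cons] at hx
    rcases hx with rfl | hx
    · exact le_max_left _ _
    · exact le_max_of_le_right (hq.2 ⟨x, hx, rfl⟩)

/-- The recursion characterizes the generated ultrametric. -/
lemma PT.gen_of_rec [MetricSpace V] (P : PT V) (l : V → ℝ) (hl : ∀ v, 0 ≤ l v)
    (hr : ∀ u v, u ≠ v → P.dep v ≤ P.dep u → dist u v = max (l u) (dl l (P.par u) v)) :
    GeneratedBy P.graph l := by
  refine ⟨P.isTree, hl, ?_⟩
  have main : ∀ (n : ℕ) (u v : V) (p : P.graph.Walk u v), P.dep u + P.dep v = n →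
      p.IsPath → IsGreatest {r | ∃ w ∈ p.support, l w = r} (dl l u v) := by
    intro n
    induction n with
    | zero =>
      intro u v p hn hp
      by_cases huv : u = v
      · subst huv
        rw [Walk.isPath_iff_eq_nil] at hp
        subst hp
        rw [dl_self]
        exact ⟨⟨u, by simp, rfl⟩, by rintro r ⟨w, hw, rfl⟩; simp at hw; rw [hw]⟩
      · obtain ⟨h, -⟩ := P.first p hp huv (by omega)
        have := P.dep_par u h
        omega
    | succ n ih =>
      have key : ∀ (u v : V) (p : P.graph.Walk u v), P.dep u + P.dep v = n + 1 →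
          P.dep v ≤ P.dep u → p.IsPath →
          IsGreatest {r | ∃ w ∈ p.support, l w = r} (dl l u v) := by
        intro u v p hn hd hp
        by_cases huv : u = v
        · subst huv
          rw [Walk.isPath_iff_eq_nil] at hp
          subst hp
          rw [dl_self]
          exact ⟨⟨u, by simp, rfl⟩, by rintro r ⟨w, hw, rfl⟩; simp at hw; rw [hw]⟩
        · obtain ⟨h, h1, p', hp', rfl⟩ := P.first p hp huv hd
          have h3 := P.dep_par u h
          have h4 := ih _ _ p' (by omega) hp'
          rw [dl_ne l huv, hr u v huv hd]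
          exact greatest_cons l h1 p' _ h4
      intro u v p hn hp
      by_cases hd : P.dep v ≤ P.dep u
      · exact key u v p hn hd hp
      · have h := key v u p.reverse (by omega) (by omega) hp.reverse
        rw [dl_comm]
        have h2 : {r | ∃ w ∈ p.reverse.support, l w = r} = {r | ∃ w ∈ p.support, l w = r} := by
          ext r; simp [Walk.support_reverse]
        rwa [h2] at h
  intro u v huv p hp
  have := main _ u v p rfl hp
  rwa [dl_ne l huv] at this

lemma PT.rec_of_gen [MetricSpace V] (P : PT V) (l : V → ℝ) (hg : GeneratedBy P.graph l)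
    (u v : V) (huv : u ≠ v) (hd : P.dep v ≤ P.dep u) :
    dist u v = max (l u) (dl l (P.par u) v) := by
  obtain ⟨p, hp, -⟩ := hg.1.existsUnique_path u v
  have h0 := hg.2.2 u v huv p hp
  obtain ⟨h, h1, q, hq, rfl⟩ := P.first p hp huv hd
  have h2 : IsGreatest {r | ∃ w ∈ q.support, l w = r} (dl l (P.par u) v) := by
    by_cases h3 : P.par u = v
    · subst h3
      rw [Walk.isPath_iff_eq_nil] at hq
      subst hq
      rw [dl_self]
      exact ⟨⟨P.par u, by simp, rfl⟩, by rintro r ⟨w, hw, rfl⟩; simp at hw; rw [hw]⟩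
    · rw [dl_ne l h3]
      exact hg.2.2 _ _ h3 q hq
  exact h0.unique (greatest_cons l h1 q _ h2)

/-- A tree rooted at `c` is the graph of a parent function. -/
lemma exists_PT (T : SimpleGraph V) (hT : T.IsTree) (c : V) :
    ∃ P : PT V, P.c = c ∧ P.graph = T := by
  classical
  have hpath : ∀ v, ∃ p : T.Walk v c, p.IsPath := fun v => (hT.existsUnique_path v c).exists
  choose p hp using hpath
  have huniq : ∀ v (q : T.Walk v c), q.IsPath → q = p v := fun v q hq =>
    (hT.existsUnique_path v c).unique hq (hp v)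
  have hstep : ∀ v, v ≠ c → ∃ h : T.Adj v (p v).snd, p v = Walk.cons h (p (p v).snd) := by
    intro v hv
    have hnn : ¬ (p v).Nil := Walk.not_nil_of_ne hv
    refine ⟨Walk.adj_snd hnn, ?_⟩
    have h1 : (p v).tail.IsPath := (hp v).tail
    have h2 := huniq _ _ h1
    rw [← h2]
    exact (Walk.cons_tail_eq (p v) hnn).symm
  have hlen : ∀ v, v ≠ c → (p v).length = (p (p v).snd).length + 1 := by
    intro v hv
    obtain ⟨h, he⟩ := hstep v hv
    have := congrArg Walk.length he
    rwa [Walk.length_cons] at this
  have hc0 : (p c).length = 0 := by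
    have := hp c
    rw [Walk.isPath_iff_eq_nil] at this
    rw [this]; rfl
  let P : PT V := ⟨c, fun v => (p v).snd, fun v => (p v).length, hc0, hlen⟩
  refine ⟨P, rfl, ?_⟩
  ext u v
  rw [PT.adj_iff]
  constructor
  · rintro (⟨h, h1⟩ | ⟨h, h1⟩)
    · obtain ⟨h2, -⟩ := hstep u h
      have h3 : (p u).snd = v := h1
      rwa [h3] at h2
    · obtain ⟨h2, -⟩ := hstep v h
      have h3 : (p v).snd = u := h1
      rw [h3] at h2
      exact h2.symm
  · intro h
    by_cases hv : v ∈ (p u).support
    · left
      have huc : u ≠ c := by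
        rintro rfl
        have h1 := hp u
        rw [Walk.isPath_iff_eq_nil] at h1
        rw [h1] at hv
        simp at hv
        exact h.ne hv.symm
      refine ⟨huc, ?_⟩
      obtain ⟨h2, he⟩ := hstep u huc
      by_contra hne
      -- two paths from u to v
      have h3 := hT.2.eq_snd_of_adj_start (hp u) h hv
      exact hne h3.symm
    · right
      have h1 : (Walk.cons h.symm (p u)).IsPath := by
        rw [Walk.cons_isPath_iff]; exact ⟨hp u, hv⟩
      have h2 := huniq v _ h1
      have hvc : v ≠ c := by
        rintro rfl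
        exact hv (p u).end_mem_support
      refine ⟨hvc, ?_⟩
      change (p v).snd = u
      rw [← h2]
      exact Walk.snd_cons _ _

end X155.UR
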