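import Pool.Agent.X155.UltraA

/-! Completions of totally bounded ray-generated ultrametric spaces are generated by starlike
rayless trees. -/

namespace X155.UR

open SimpleGraph Set Filter Topology

variable {X : Type*}

lemma dist_greatest_cons {a : ℕ → ℝ} {i j : ℕ} {s : ℝ} (hij : i ≤ j)
    (h : IsGreatest {r | ∃ k, i ≤ k ∧ k ≤ j ∧ a k = r} s) :
    IsGreatest {r | ∃ k, i ≤ k ∧ k ≤ j + 1 ∧ a k = r} (max (a (j + 1)) s) := by
  constructor
  · rcases le_total (a (j + 1)) s with h1 | h1
    · rw [max_eq_right h1]
      obtain ⟨k, h2, h3, h4⟩ := h.1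
      exact ⟨k, h2, by omega, h4⟩
    · rw [max_eq_left h1]
      exact ⟨j + 1, by omega, le_rfl, rfl⟩
  · rintro r ⟨k, h2, h3, rfl⟩
    rcases Nat.lt_or_ge j k with h4 | h4
    · obtain rfl : k = j + 1 := by omega
      exact le_max_left _ _
    · exact le_max_of_le_right (h.2 ⟨k, h2, h4, rfl⟩)

lemma seq_of_ray {Y : Type*} [MetricSpace Y] (R : SimpleGraph Y) (l : Y → ℝ) (x : ℕ → Y)
    (hx : Function.Bijective x) (hR : ∀ m n, R.Adj (x m) (x n) ↔ (m + 1 = n ∨ n + 1 = m))
    (hg : GeneratedBy R l) (i j : ℕ) (hij : i < j) :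
    IsGreatest {r | ∃ k, i ≤ k ∧ k ≤ j ∧ l (x k) = r} (dist (x i) (x j)) := by
  have hs : ∀ n, (Equiv.ofBijective x hx).symm (x n) = n := fun n =>
    Equiv.ofBijective_symm_apply_apply x hx n
  let P : PT Y := ⟨x 0, fun v => x ((Equiv.ofBijective x hx).symm v - 1),
    fun v => (Equiv.ofBijective x hx).symm v, hs 0, by
      intro v hv
      obtain ⟨n, rfl⟩ := hx.2 v
      rw [hs, hs]
      have : n ≠ 0 := by rintro rfl; exact hv rfl
      omega⟩
  have hPR : P.graph = R := by
    ext u v
    obtain ⟨m, rfl⟩ := hx.2 u
    obtain ⟨n, rfl⟩ := hx.2 v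
    rw [P.adj_iff, hR]
    have h1 : ∀ k, P.par (x k) = x (k - 1) := fun k => by
      change x ((Equiv.ofBijective x hx).symm (x k) - 1) = _
      rw [hs]
    have h2 : P.c = x 0 := rfl
    rw [h1, h1, h2, ne_eq, ne_eq, hx.1.eq_iff, hx.1.eq_iff, hx.1.eq_iff, hx.1.eq_iff]
    omega
  have hrec : ∀ m n, n < m → dist (x m) (x n) = max (l (x m)) (dl l (x (m - 1)) (x n)) := by
    intro m n hmn
    have h := P.rec_of_gen l (hPR ▸ hg) (x m) (x n) (fun h => by have := hx.1 h; omega) (by
      change (Equiv.ofBijective x hx).symm (x n) ≤ (Equiv.ofBijective x hx).symm (x m)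
      rw [hs, hs]; omega)
    rw [h]
    change max _ (dl l (x ((Equiv.ofBijective x hx).symm (x m) - 1)) (x n)) = _
    rw [hs]
  rw [_root_.dist_comm]
  clear hPR
  clear P
  induction j, hij using Nat.le_induction with
  | base =>
    rw [hrec _ _ (Nat.lt_succ_self i), Nat.succ_sub_one, dl_self]
    refine dist_greatest_cons (a := fun k => l (x k)) le_rfl ?_
    exact ⟨⟨i, le_rfl, le_rfl, rfl⟩, by
      rintro r ⟨k, h1, h2, rfl⟩
      obtain rfl : k = i := by omega
      exact le_rfl⟩
  | succ j hj ih =>
    rw [hrec _ _ (by omega), Nat.add_sub_cancel, dl_ne l (fun h => by have := hx.1 h; omega)]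
    exact dist_greatest_cons (a := fun k => l (x k)) (by omega) ih

/-- In a ray in the graph of a parent function one goes from parents to children eventually. -/
lemma PT.ray_down (P : PT X) (z : ℕ → X) (hz : Function.Injective z)
    (h : ∀ n, P.graph.Adj (z n) (z (n + 1))) :
    ∃ N, ∀ n, N ≤ n → z (n + 1) ≠ P.c ∧ P.par (z (n + 1)) = z n := by
  have h1 : ∃ N, z (N + 1) ≠ P.c ∧ P.par (z (N + 1)) = z N := by
    by_contra hcon
    push Not at hcon
    have h2 : ∀ n, z n ≠ P.c ∧ P.par (z n) = z (n + 1) := by
      intro n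
      rcases P.adj_iff.1 (h n) with h3 | h3
      · exact h3
      · exact absurd h3.2 (hcon n h3.1)
    have h3 : ∀ n, P.dep (z n) + n = P.dep (z 0) := by
      intro n
      induction n with
      | zero => rfl
      | succ n ih =>
        have h4 := P.dep_par (z n) (h2 n).1
        rw [(h2 n).2] at h4
        omega
    have h5 := h3 (P.dep (z 0) + 1)
    omega
  obtain ⟨N, hN⟩ := h1
  refine ⟨N, fun n hn => ?_⟩
  induction n, hn using Nat.le_induction with
  | base => exact hN
  | succ n hn ih =>
    rcases P.adj_iff.1 (h (n + 1)) with h3 | h3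
    · exfalso
      have h4 : z n = z (n + 1 + 1) := by rw [← ih.2, h3.2]
      have := hz h4
      omega
    · exact h3

theorem forward [MetricSpace X] [IsUltrametricDist X] [CompleteSpace X] (y : ℕ → X) (a : ℕ → ℝ)
    (hinj : Function.Injective y) (ha : ∀ k, 0 ≤ a k)
    (hg : ∀ i j, i < j → IsGreatest {r | ∃ k, i ≤ k ∧ k ≤ j ∧ a k = r} (dist (y i) (y j)))
    (htb : TotallyBounded (range y)) (hne : range y ≠ univ) (hd : Dense (range y)) :
    CompactSpace X ∧ ∃ (T : SimpleGraph X) (l : X → ℝ),
      Starlike T ∧ Rayless T ∧ GeneratedBy T l := by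
  classical
  have hlow : ∀ i j k, i < j → i ≤ k → k ≤ j → a k ≤ dist (y i) (y j) :=
    fun i j k h1 h2 h3 => (hg i j h1).2 ⟨k, h2, h3, rfl⟩
  have hatt : ∀ i j, i < j → ∃ k, i ≤ k ∧ k ≤ j ∧ a k = dist (y i) (y j) :=
    fun i j h1 => (hg i j h1).1
  -- finiteness of the level sets
  have hfin : ∀ ε : ℝ, 0 < ε → {k | ε ≤ a k}.Finite := by
    intro ε hε
    by_contra hinf
    obtain ⟨t, ht, hcov⟩ := Metric.totallyBounded_iff.1 htb ε hε
    have h1 : ∀ k, ∃ p ∈ t, dist (y k) p < ε := by
      intro k
      have := hcov ⟨k, rfl⟩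
      simpa using this
    choose f hf hfd using h1
    obtain ⟨i, hi, j, hj, hij, hfij⟩ :=
      Set.Infinite.exists_ne_map_eq_of_mapsTo hinf (fun k _ => hf k : MapsTo f _ t) ht
    have key : ∀ i j, i < j → ε ≤ a i → f i = f j → False := by
      intro i j hij hi hfij
      have h2 := hlow i j i hij le_rfl hij.le
      have h3 := dist_triangle_max (y i) (f i) (y j)
      have h4 := hfd i
      have h5 := hfd j
      rw [← hfij, _root_.dist_comm] at h5
      have h6 := max_lt h4 h5
      linarith
    rcases lt_or_gt_of_ne hij with h | h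
    · exact key i j h hi hfij
    · exact key j i h hj hfij.symm
  have hsmall : ∀ ε : ℝ, 0 < ε → ∃ N, ∀ k, N ≤ k → a k < ε := by
    intro ε hε
    obtain ⟨B, hB⟩ := (hfin ε hε).bddAbove
    refine ⟨B + 1, fun k hk => ?_⟩
    by_contra h
    have := hB (show k ∈ {k | ε ≤ a k} from not_lt.1 h)
    omega
  have hcau : CauchySeq y := by
    rw [Metric.cauchySeq_iff']
    intro ε hε
    obtain ⟨N, hN⟩ := hsmall ε hε
    refine ⟨N, fun n hn => ?_⟩
    rcases eq_or_lt_of_le hn with rfl | h
    · rw [_root_.dist_self]; exact hε
    · obtain ⟨k, h1, h2, h3⟩ := hatt N n h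
      rw [_root_.dist_comm, ← h3]
      exact hN k h1
  obtain ⟨c, hc⟩ := cauchySeq_tendsto_of_complete hcau
  have hcomp : IsCompact (insert c (range y)) := hc.isCompact_insert_range
  have huniv : insert c (range y) = univ := by
    have h1 : closure (range y) ⊆ insert c (range y) :=
      closure_minimal (subset_insert _ _) hcomp.isClosed
    rw [hd.closure_eq] at h1
    exact eq_univ_of_univ_subset h1
  have hcn : c ∉ range y := by
    intro h
    rw [insert_eq_of_mem h] at huniv
    exact hne huniv
  have hcy : ∀ k, y k ≠ c := fun k h => hcn ⟨k, h⟩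
  refine ⟨⟨huniv ▸ hcomp⟩, ?_⟩
  have hall : ∀ v : X, v = c ∨ ∃ k, v = y k := by
    intro v
    have : v ∈ insert c (range y) := huniv ▸ mem_univ v
    rcases this with h | ⟨k, h⟩
    · exact Or.inl h
    · exact Or.inr ⟨k, h.symm⟩
  -- the distances from `c`
  have hDpos : ∀ k, 0 < dist c (y k) := fun k => dist_pos.2 (hcy k).symm
  have hD : ∀ k, (∀ i, k ≤ i → a i ≤ dist c (y k)) ∧ ∃ i, k ≤ i ∧ a i = dist c (y k) := by
    intro k
    obtain ⟨J, hJ⟩ := (Metric.tendsto_atTop.1 hc) _ (hDpos k)
    have h1 : ∀ j, J ≤ j → dist (y j) (y k) = dist c (y k) := by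
      intro j hj
      have h2 := hJ j hj
      rw [IsUltrametricDist.dist_eq_max_of_dist_ne_dist (y j) c (y k) h2.ne, max_eq_right h2.le]
    constructor
    · intro i hi
      have h2 := hlow k (max i J + 1) i (by omega) hi (by omega)
      rwa [_root_.dist_comm, h1 _ (by omega)] at h2
    · obtain ⟨i, h3, h4, h5⟩ := hatt k (max k J + 1) (by omega)
      refine ⟨i, h3, ?_⟩
      rwa [_root_.dist_comm, h1 _ (by omega)] at h5
  have hDmono : ∀ k i, k ≤ i → dist c (y i) ≤ dist c (y k) := by
    intro k i h
    obtain ⟨j, h1, h2⟩ := (hD i).2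
    rw [← h2]
    exact (hD k).1 j (by omega)
  have hDstep : ∀ k, dist c (y k) = max (a k) (dist c (y (k + 1))) := by
    intro k
    apply le_antisymm
    · obtain ⟨j, h1, h2⟩ := (hD k).2
      rcases eq_or_lt_of_le h1 with rfl | h3
      · rw [← h2]; exact le_max_left _ _
      · rw [← h2]; exact le_max_of_le_right ((hD (k + 1)).1 j h3)
    · exact max_le ((hD k).1 k le_rfl) (hDmono k (k + 1) (by omega))
  have hrec : ∀ k, ∃ j, k ≤ j ∧ a j = dist c (y j) := by
    intro k
    obtain ⟨i, h1, h2⟩ := (hD k).2
    refine ⟨i, h1, le_antisymm ((hD i).1 i le_rfl) ?_⟩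
    rw [h2]
    exact hDmono k i h1
  obtain ⟨ρ, hρ1, hρ2, hρ3⟩ : ∃ ρ : ℕ → ℕ, (∀ k, k ≤ ρ k) ∧
      (∀ k, a (ρ k) = dist c (y (ρ k))) ∧ ∀ k j, k ≤ j → a j = dist c (y j) → ρ k ≤ j := by
    refine ⟨fun k => Nat.find (hrec k), fun k => (Nat.find_spec (hrec k)).1,
      fun k => (Nat.find_spec (hrec k)).2, fun k j h1 h2 => Nat.find_min' (hrec k) ⟨h1, h2⟩⟩
  have hρr : ∀ k, a k = dist c (y k) → ρ k = k := fun k h =>
    le_antisymm (hρ3 k k le_rfl h) (hρ1 k)
  have hρn : ∀ k, a k ≠ dist c (y k) → ρ k = ρ (k + 1) := by
    intro k h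
    apply le_antisymm
    · exact hρ3 k _ (by have := hρ1 (k + 1); omega) (hρ2 _)
    · have h1 : ρ k ≠ k := by
        intro h2
        apply h
        have := hρ2 k
        rwa [h2] at this
      exact hρ3 (k + 1) _ (by have := hρ1 k; omega) (hρ2 _)
  -- the parent function
  obtain ⟨idx, hidx⟩ : ∃ idx : X → ℕ, ∀ k, idx (y k) = k :=
    ⟨Function.invFun y, Function.leftInverse_invFun hinj⟩
  let par : X → X := fun v => if a (idx v) = dist c (y (idx v)) then c else y (idx v + 1)
  let dep : X → ℕ := fun v => if v = c then 0 else ρ (idx v) - idx v + 1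
  let l : X → ℝ := fun v => if v = c then 0 else a (idx v)
  have hparr : ∀ k, a k = dist c (y k) → par (y k) = c := by
    intro k h
    simp only [par, hidx, if_pos h]
  have hparn : ∀ k, a k ≠ dist c (y k) → par (y k) = y (k + 1) := by
    intro k h
    simp only [par, hidx, if_neg h]
  have hdepc : dep c = 0 := by simp [dep]
  have hdep : ∀ k, dep (y k) = ρ k - k + 1 := by
    intro k
    simp only [dep, hidx, if_neg (hcy k)]
  have hlc : l c = 0 := by simp [l]
  have hly : ∀ k, l (y k) = a k := by
    intro k
    simp only [l, hidx, if_neg (hcy k)]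
  let P : PT X := ⟨c, par, dep, hdepc, by
    intro v hv
    rcases hall v with h | ⟨k, rfl⟩
    · exact absurd h hv
    · by_cases h : a k = dist c (y k)
      · rw [hdep, hparr k h, hdepc, hρr k h]; omega
      · rw [hdep, hparn k h, hdep, hρn k h]
        have := hρ1 (k + 1)
        omega⟩
  have hl0 : ∀ v, 0 ≤ l v := by
    intro v
    rcases hall v with rfl | ⟨k, rfl⟩
    · rw [hlc]
    · rw [hly]; exact ha k
  refine ⟨P.graph, l, ?_, ?_, ?_⟩
  · -- starlike
    refine ⟨c, ?_, ?_⟩
    · change 2 < (P.graph.neighborSet c).encard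
      have h1 : y '' {k | a k = dist c (y k)} ⊆ P.graph.neighborSet c := by
        rintro v ⟨k, hk, rfl⟩
        exact P.adj_iff.2 (Or.inr ⟨hcy k, hparr k hk⟩)
      have h2 : {k | a k = dist c (y k)}.Infinite := by
        intro h
        obtain ⟨B, hB⟩ := h.bddAbove
        obtain ⟨j, hj, hj2⟩ := hrec (B + 1)
        have := hB (show j ∈ {k | a k = dist c (y k)} from hj2)
        omega
      have h3 : (P.graph.neighborSet c).Infinite := (h2.image hinj.injOn).mono h1
      rw [h3.encard_eq]
      exact ENat.natCast_lt_top 2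
    · intro v hv
      by_contra hvc
      rcases hall v with h | ⟨k, rfl⟩
      · exact hvc h
      · have h1 : P.graph.neighborSet (y k) ⊆ {par (y k), y (k - 1)} := by
          intro w hw
          rcases P.adj_iff.1 hw with h2 | h2
          · exact Or.inl h2.2.symm
          · right
            rcases hall w with h3 | ⟨m, rfl⟩
            · exact absurd h3 h2.1
            · have h3 : par (y m) = y k := h2.2
              by_cases h4 : a m = dist c (y m)
              · rw [hparr m h4] at h3
                exact absurd h3.symm (hcy k)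
              · rw [hparn m h4] at h3
                have h5 := hinj h3
                rw [← h5]; rfl
        have h2 := (encard_le_encard h1).trans (encard_insert_le _ _)
        rw [encard_singleton] at h2
        change 2 < (P.graph.neighborSet (y k)).encard at hv
        have h3 := lt_of_lt_of_le hv h2
        exact absurd h3 (by norm_num)
  · -- rayless
    rintro ⟨z, hz, hadj⟩
    obtain ⟨N, hN⟩ := P.ray_down z hz hadj
    have h1 : ∀ n, N + 1 ≤ n → z n ≠ c := by
      intro n hn
      have := (hN (n - 1) (by omega)).1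
      rwa [show n - 1 + 1 = n by omega] at this
    have h2 : ∀ n, N + 1 ≤ n → idx (z (n + 1)) + 1 = idx (z n) := by
      intro n hn
      have h3 : par (z (n + 1)) = z n := (hN n (by omega)).2
      rcases hall (z (n + 1)) with h4 | ⟨k, h4⟩
      · exact absurd h4 (h1 _ (by omega))
      · rw [h4] at h3 ⊢
        by_cases h5 : a k = dist c (y k)
        · rw [hparr k h5] at h3
          exact absurd h3.symm (h1 n hn)
        · rw [hparn k h5] at h3
          rw [← h3, hidx, hidx]
    have h3 : ∀ n, idx (z (N + 1 + n)) + n = idx (z (N + 1)) := by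
      intro n
      induction n with
      | zero => rfl
      | succ n ih =>
        have := h2 (N + 1 + n) (by omega)
        rw [show N + 1 + (n + 1) = N + 1 + n + 1 by omega]
        omega
    have h4 := h3 (idx (z (N + 1)) + 1)
    omega
  · -- generated
    refine P.gen_of_rec l hl0 ?_
    intro u v huv hdl
    change dep v ≤ dep u at hdl
    change dist u v = max (l u) (dl l (par u) v)
    rcases hall u with rfl | ⟨k, rfl⟩
    · exfalso
      rcases hall v with h | ⟨m, rfl⟩
      · exact huv h.symm
      · rw [hdep, hdepc] at hdl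
        omega
    · rcases hall v with rfl | ⟨m, rfl⟩
      · -- v = c
        by_cases h : a k = dist v (y k)
        · rw [hparr k h, dl_self, hlc, hly, max_eq_left (ha k), h, _root_.dist_comm]
        · rw [hparn k h, dl_ne l (hcy _), hly, _root_.dist_comm (y k) v, hDstep k,
            _root_.dist_comm (y (k + 1)) v]
      · have hkm : k ≠ m := fun h => huv (by rw [h])
        have hd0 : a k ≤ dist (y k) (y m) := by
          rcases lt_or_gt_of_ne hkm with h | h
          · exact hlow k m k h le_rfl h.le
          · rw [_root_.dist_comm]; exact hlow m k k h h.le le_rfl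
        by_cases h : a k = dist c (y k)
        · rw [hparr k h, dl_ne l (hcy m).symm, hly, h]
          by_cases h1 : dist (y k) c = dist c (y m)
          · rw [← h1, _root_.dist_comm (y k) c, max_self]
            apply le_antisymm
            · have h2 := dist_triangle_max (y k) c (y m)
              rwa [← h1, max_self, _root_.dist_comm (y k) c] at h2
            · rw [← h]; exact hd0
          · rw [IsUltrametricDist.dist_eq_max_of_dist_ne_dist (y k) c (y m) h1,
              _root_.dist_comm (y k) c]
        · rw [hparn k h, hly]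
          by_cases h1 : m = k + 1
          · subst h1
            rw [dl_self, hly]
            apply (hg k (k + 1) (by omega)).unique
            rw [max_comm]
            refine dist_greatest_cons (a := a) le_rfl ?_
            exact ⟨⟨k, le_rfl, le_rfl, rfl⟩, by
              rintro r ⟨j, h1, h2, rfl⟩
              obtain rfl : j = k := by omega
              exact le_rfl⟩
          · rw [dl_ne l (fun h2 => h1 (hinj h2).symm)]
            rcases lt_or_gt_of_ne hkm with h2 | h2
            · -- k + 1 < m
              apply le_antisymm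
              · obtain ⟨j, h3, h4, h5⟩ := hatt k m h2
                rw [← h5]
                rcases eq_or_lt_of_le h3 with rfl | h6
                · exact le_max_left _ _
                · exact le_max_of_le_right (hlow (k + 1) m j (by omega) h6 h4)
              · refine max_le hd0 ?_
                obtain ⟨j, h3, h4, h5⟩ := hatt (k + 1) m (by omega)
                rw [← h5]
                exact hlow k m j h2 (by omega) h4
            · -- m < k
              have h3 : ∃ r, m ≤ r ∧ r < k ∧ a r = dist c (y r) := by
                refine ⟨ρ m, hρ1 m, ?_, hρ2 m⟩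
                by_contra h4
                have h5 : ρ k ≤ ρ m := hρ3 k _ (by omega) (hρ2 m)
                rw [hdep, hdep] at hdl
                have := hρ1 k
                omega
              obtain ⟨r, h4, h5, h6⟩ := h3
              rw [_root_.dist_comm (y k) (y m), _root_.dist_comm (y (k + 1)) (y m)]
              have h7 : a (k + 1) ≤ dist (y m) (y k) := by
                have h8 := (hD r).1 (k + 1) (by omega)
                rw [← h6] at h8
                exact h8.trans (hlow m k r h2 h4 h5.le)
              apply le_antisymm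
              · obtain ⟨j, h8, h9, h10⟩ := hatt m k h2
                rw [← h10]
                exact le_max_of_le_right (hlow m (k + 1) j (by omega) h8 (by omega))
              · refine max_le (hlow m k k h2 h2.le le_rfl) ?_
                obtain ⟨j, h8, h9, h10⟩ := hatt m (k + 1) (by omega)
                rw [← h10]
                rcases Nat.lt_or_ge k j with h11 | h11
                · obtain rfl : j = k + 1 := by omega
                  exact h7
                · exact hlow m k j h2 h8 h11

end X155.UR
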