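import Pool.Agent.X155.UltraB

/-! Compact ultrametric spaces generated by starlike trees are completions of totally bounded
ray-generated subspaces. -/

namespace X155.UR

open SimpleGraph Set Filter Topology

variable {X : Type*}

/-- Enumeration in increasing order. -/
lemma exists_enum {Y K : Type*} [Infinite Y] [LinearOrder K] (key : Y → K)
    (hinj : Function.Injective key) (hfin : ∀ u, {v | key v < key u}.Finite) :
    ∃ x : ℕ → Y, Function.Bijective x ∧ StrictMono fun n => key (x n) := by
  classical
  set r : Y → ℕ := fun u => {v | key v < key u}.ncard with hr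
  have hmono : ∀ u w, key u < key w → r u < r w := by
    intro u w h
    refine ncard_lt_ncard ?_ (hfin w)
    refine ⟨fun v hv => lt_trans hv h, fun hsub => ?_⟩
    exact lt_irrefl _ (hsub h)
  have hrinj : Function.Injective r := by
    intro u w h
    by_contra hne
    rcases lt_or_gt_of_ne (fun h1 => hne (hinj h1) : key u ≠ key w) with h1 | h1
    · exact absurd h (hmono u w h1).ne
    · exact absurd h (hmono w u h1).ne'
  have hpred : ∀ u n, r u = n + 1 → ∃ v, r v = n := by
    intro u n hn
    have hne : {v | key v < key u}.Nonempty := by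
      rw [nonempty_iff_ne_empty]
      intro h
      simp only [hr, h, ncard_empty] at hn
      omega
    obtain ⟨v, hv, hmax⟩ := Set.exists_max_image _ key (hfin u) hne
    refine ⟨v, ?_⟩
    have h1 : {w | key w < key v} = {w | key w < key u} \ {v} := by
      ext w
      simp only [Set.mem_sdiff, mem_singleton_iff, mem_ofPred_eq]
      constructor
      · intro h
        exact ⟨lt_trans h hv, fun h2 => by rw [h2] at h; exact lt_irrefl _ h⟩
      · rintro ⟨h2, h3⟩
        exact lt_of_le_of_ne (hmax w h2) (fun h4 => h3 (hinj h4))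
    simp only [hr]
    rw [h1, ncard_sdiff_singleton_of_mem hv]
    simp only [hr] at hn
    omega
  have hdown : ∀ k u n, r u = n + k → ∃ v, r v = n := by
    intro k
    induction k with
    | zero => intro u n h; exact ⟨u, h⟩
    | succ k ih =>
      intro u n h
      obtain ⟨v, hv⟩ := hpred u (n + k) (by omega)
      exact ih v n hv
  have hsurj : Function.Surjective r := by
    intro n
    by_contra hcon
    have h1 : ∀ u, r u < n := by
      intro u
      by_contra h2
      exact hcon (hdown (r u - n) u n (by omega))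
    have h2 : Function.Injective (fun u => (⟨r u, h1 u⟩ : Fin n)) := by
      intro u v h
      exact hrinj (by simpa using h)
    have := Finite.of_injective _ h2
    exact not_finite Y
  let e := Equiv.ofBijective r ⟨hrinj, hsurj⟩
  have he : ∀ n, r (e.symm n) = n := fun n => e.apply_symm_apply n
  refine ⟨e.symm, e.symm.bijective, ?_⟩
  intro m n hmn
  change key (e.symm m) < key (e.symm n)
  by_contra h
  rcases eq_or_lt_of_le (not_lt.1 h) with h1 | h1
  · have := e.symm.injective (hinj h1)
    omega
  · have := hmono _ _ h1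
    rw [he, he] at this
    omega

/-- The parent function of a ray. -/
noncomputable def rayPT {Y : Type*} (x : ℕ → Y) (hx : Function.Bijective x) : PT Y :=
  ⟨x 0, fun v => x ((Equiv.ofBijective x hx).symm v - 1),
    fun v => (Equiv.ofBijective x hx).symm v, Equiv.ofBijective_symm_apply_apply x hx 0, by
      intro v hv
      obtain ⟨n, rfl⟩ := hx.2 v
      rw [Equiv.ofBijective_symm_apply_apply x hx, Equiv.ofBijective_symm_apply_apply x hx]
      have : n ≠ 0 := by rintro rfl; exact hv rfl
      omega⟩

lemma rayPT_dep {Y : Type*} (x : ℕ → Y) (hx : Function.Bijective x) (n : ℕ) :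
    (rayPT x hx).dep (x n) = n := Equiv.ofBijective_symm_apply_apply x hx n

lemma rayPT_par {Y : Type*} (x : ℕ → Y) (hx : Function.Bijective x) (n : ℕ) :
    (rayPT x hx).par (x n) = x (n - 1) := by
  change x ((Equiv.ofBijective x hx).symm (x n) - 1) = _
  rw [Equiv.ofBijective_symm_apply_apply x hx n]

lemma rayPT_isRay {Y : Type*} (x : ℕ → Y) (hx : Function.Bijective x) :
    IsRay (rayPT x hx).graph := by
  refine ⟨x, hx, fun m n => ?_⟩
  rw [PT.adj_iff, rayPT_par, rayPT_par]
  have h2 : (rayPT x hx).c = x 0 := rfl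
  rw [h2, ne_eq, ne_eq, hx.1.eq_iff, hx.1.eq_iff, hx.1.eq_iff, hx.1.eq_iff]
  omega

open Classical in
/-- The top of the block of a vertex and the position in the block. -/
noncomputable def blk (P : PT X) (Q : X → Prop) : ℕ → X → X × ℕ
  | 0, u => (u, 0)
  | n + 1, u => if Q u then (u, 0) else ((blk P Q n (P.par u)).1, (blk P Q n (P.par u)).2 + 1)

lemma blk_pos (P : PT X) (Q : X → Prop) (u : X) (hu : u ≠ P.c) (hQ : Q u) :
    blk P Q (P.dep u) u = (u, 0) := by
  rw [P.dep_par u hu]
  simp only [blk, if_pos hQ]

lemma blk_neg (P : PT X) (Q : X → Prop) (u : X) (hu : u ≠ P.c) (hQ : ¬ Q u) :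
    blk P Q (P.dep u) u = ((blk P Q (P.dep (P.par u)) (P.par u)).1,
      (blk P Q (P.dep (P.par u)) (P.par u)).2 + 1) := by
  rw [P.dep_par u hu]
  simp only [blk, if_neg hQ]

lemma dl_sub [MetricSpace X] {s : Set X} (l : X → ℝ) (u v : s) :
    dl (fun w : s => l w) u v = dl l (u : X) (v : X) := by
  by_cases h : u = v
  · subst h; rw [dl_self, dl_self]
  · rw [dl_ne _ h, dl_ne _ (fun h2 => h (Subtype.ext h2))]; rfl

lemma le_dist_of_gen [MetricSpace X] {T : SimpleGraph X} {l : X → ℝ} (hg : GeneratedBy T l)
    (u v : X) (huv : u ≠ v) : l u ≤ dist u v := by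
  obtain ⟨p, hp, -⟩ := hg.1.existsUnique_path u v
  exact (hg.2.2 u v huv p hp).2 ⟨u, p.start_mem_support, rfl⟩

lemma acc_eq [MetricSpace X] [Infinite X] {T : SimpleGraph X} {l : X → ℝ}
    (hg : GeneratedBy T l) (c : X) (hcu : ∀ v, 2 < (T.neighborSet v).encard → v = c)
    (z : X) (K : Set X) (hz : AccPt z (𝓟 K)) : z = c := by
  have h1 : ∀ v, v ≠ z → ∃ w ∈ T.neighborSet z, dist z w ≤ dist z v := by
    intro v hv
    obtain ⟨p, hp, -⟩ := hg.1.existsUnique_path z v
    have h2 := hg.2.2 z v hv.symm p hp
    cases p with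
    | nil => exact absurd rfl hv
    | @cons _ w _ h q =>
      refine ⟨w, h, ?_⟩
      have h3 : (Walk.cons h (Walk.nil : T.Walk w w)).IsPath := by
        rw [Walk.cons_isPath_iff]
        exact ⟨Walk.IsPath.nil, by simpa using h.ne⟩
      obtain ⟨y, hy, hyl⟩ := (hg.2.2 z w h.ne _ h3).1
      rw [← hyl]
      refine h2.2 ⟨y, ?_, rfl⟩
      rw [Walk.support_cons] at hy ⊢
      rcases List.mem_cons.1 hy with rfl | hy
      · exact List.mem_cons_self
      · apply List.mem_cons_of_mem
        rw [Walk.support_nil, List.mem_singleton] at hy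
        rw [hy]
        exact q.start_mem_support
  apply hcu
  by_cases hfin : (T.neighborSet z).Finite
  · exfalso
    obtain ⟨v0, hv0⟩ := exists_ne z
    obtain ⟨w0, hw0, -⟩ := h1 v0 hv0
    obtain ⟨w, hw, hmin⟩ := Set.exists_min_image _ (fun w => dist z w) hfin ⟨w0, hw0⟩
    have hwz : z ≠ w := T.ne_of_adj hw
    obtain ⟨y, hy, hyz⟩ := accPt_iff_nhds.1 hz _ (Metric.ball_mem_nhds z (dist_pos.2 hwz))
    obtain ⟨w', hw', hle⟩ := h1 y hyz
    have h3 := hmin w' hw'
    have h4 : dist y z < dist z w := hy.1
    rw [_root_.dist_comm y z] at h4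
    linarith
  · rw [(show (T.neighborSet z).Infinite from hfin).encard_eq]
    exact ENat.natCast_lt_top 2

end X155.UR
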