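import Pool.Agent.X155.UltraC

namespace X155.UR

open SimpleGraph Set Filter Topology

variable {X : Type*}

theorem backward [MetricSpace X] [IsUltrametricDist X] [Infinite X] [CompactSpace X]
    (T : SimpleGraph X) (l : X → ℝ) (hs : Starlike T) (hg : GeneratedBy T l) :
    ∃ X₀ : Set X, X₀ ≠ univ ∧ TotallyBounded X₀ ∧
      (∃ (R : SimpleGraph X₀) (l₀ : X₀ → ℝ), IsRay R ∧ GeneratedBy R l₀) ∧
      CompleteSpace X ∧ Dense X₀ := by
  classical
  obtain ⟨c, -, hcu⟩ := hs
  simp only at hcu
  have hacc : ∀ (z : X) (K : Set X), AccPt z (𝓟 K) → z = c := acc_eq hg c hcu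
  have hle := le_dist_of_gen hg
  have hcacc : AccPt c (𝓟 (univ : Set X)) := by
    obtain ⟨z, -, hz⟩ := Set.Infinite.exists_accPt_of_subset_isCompact
      (infinite_univ : (univ : Set X).Infinite) isCompact_univ (subset_univ _)
    rwa [hacc z _ hz] at hz
  have hcl : ∀ ε : ℝ, 0 < ε → ∃ y, y ≠ c ∧ dist y c < ε := by
    intro ε hε
    obtain ⟨y, hy, hyz⟩ := accPt_iff_nhds.1 hcacc _ (Metric.ball_mem_nhds c hε)
    exact ⟨y, hyz, hy.1⟩
  have hlc : l c = 0 := by
    apply le_antisymm _ (hg.2.1 c)
    by_contra h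
    obtain ⟨y, hy, hyd⟩ := hcl (l c) (not_le.1 h)
    have := hle c y hy.symm
    rw [_root_.dist_comm] at this
    linarith
  have hlev : ∀ ε : ℝ, 0 < ε → {v : X | ε ≤ dist v c}.Finite := by
    intro ε hε
    by_contra hinf
    obtain ⟨z, -, hz⟩ := Set.Infinite.exists_accPt_of_subset_isCompact hinf isCompact_univ
      (subset_univ _)
    obtain rfl := hacc z _ hz
    obtain ⟨y, hy, hyz⟩ := accPt_iff_nhds.1 hz _ (Metric.ball_mem_nhds z hε)
    have h1 : dist y z < ε := hy.1
    have h2 : ε ≤ dist y z := hy.2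
    linarith
  obtain ⟨P, hPc, hPT⟩ := exists_PT T hg.1 c
  subst hPT
  subst hPc
  -- degrees
  have hS1 : ∀ u v, u ≠ P.c → v ≠ P.c → P.par u = P.par v → P.par u ≠ P.c → u = v := by
    intro u v hu hv huv hw
    by_contra hne
    apply hw
    apply hcu
    have h1 : ({P.par (P.par u), u, v} : Set X) ⊆ P.graph.neighborSet (P.par u) := by
      rintro w (rfl | rfl | rfl)
      · exact P.adj_iff.2 (Or.inl ⟨hw, rfl⟩)
      · exact P.adj_iff.2 (Or.inr ⟨hu, rfl⟩)
      · exact P.adj_iff.2 (Or.inr ⟨hv, huv.symm⟩)
    have d1 := P.dep_par u hu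
    have d2 := P.dep_par v hv
    have d3 := P.dep_par (P.par u) hw
    rw [← huv] at d2
    have h2 : ({P.par (P.par u), u, v} : Set X).encard = 3 := by
      rw [encard_insert_of_notMem, encard_pair hne]
      · norm_num
      · rintro (h | h)
        · rw [h] at d3; omega
        · rw [mem_singleton_iff] at h; rw [h] at d3; omega
    have h3 := encard_le_encard h1
    rw [h2] at h3
    exact lt_of_lt_of_le (by norm_num) h3
  -- the distances from the centre
  have hD : ∀ u, u ≠ P.c → dist u P.c = max (l u) (dist (P.par u) P.c) := by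
    intro u hu
    rw [P.rec_of_gen l hg u P.c hu (by rw [P.dep_c]; omega)]
    by_cases h : P.par u = P.c
    · rw [h, dl_self, hlc, _root_.dist_self]
    · rw [dl_ne l h]
  have hDl : ∀ u, l u ≤ dist u P.c := by
    intro u
    by_cases hu : u = P.c
    · rw [hu, hlc, _root_.dist_self]
    · rw [hD u hu]; exact le_max_left _ _
  have hpar : ∀ u, u ≠ P.c → l u ≠ dist u P.c → P.par u ≠ P.c ∧
      dist (P.par u) P.c = dist u P.c := by
    intro u hu h
    have h1 := hD u hu
    constructor
    · intro h2
      rw [h2, _root_.dist_self, max_eq_left (hg.2.1 u)] at h1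
      exact h h1.symm
    · rcases max_choice (l u) (dist (P.par u) P.c) with h2 | h2
      · rw [h2] at h1; exact absurd h1.symm h
      · rw [h2] at h1; exact h1.symm
  -- the blocks
  obtain ⟨rr, kk, hQ1, hQ2⟩ : ∃ (rr : X → X) (kk : X → ℕ),
      (∀ u, u ≠ P.c → l u = dist u P.c → rr u = u ∧ kk u = 0) ∧
      (∀ u, u ≠ P.c → l u ≠ dist u P.c → rr u = rr (P.par u) ∧ kk u = kk (P.par u) + 1) := by
    refine ⟨fun u => (blk P (fun u => l u = dist u P.c) (P.dep u) u).1,
      fun u => (blk P (fun u => l u = dist u P.c) (P.dep u) u).2, ?_, ?_⟩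
    · intro u hu h
      simp only
      rw [blk_pos P (fun u => l u = dist u P.c) u hu h]
      exact ⟨rfl, rfl⟩
    · intro u hu h
      simp only
      rw [blk_neg P (fun u => l u = dist u P.c) u hu h]
      exact ⟨rfl, rfl⟩
  have hF1 : ∀ n u, P.dep u = n → u ≠ P.c → dist (rr u) P.c = dist u P.c ∧ rr u ≠ P.c ∧
      P.dep u = P.dep (rr u) + kk u := by
    intro n
    induction n with
    | zero =>
      intro u hn hu
      have := P.dep_par u hu
      omega
    | succ n ih =>
      intro u hn hu
      by_cases h : l u = dist u P.c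
      · obtain ⟨h1, h2⟩ := hQ1 u hu h
        rw [h1, h2]
        exact ⟨rfl, hu, rfl⟩
      · obtain ⟨h1, h2⟩ := hQ2 u hu h
        obtain ⟨h3, h4⟩ := hpar u hu h
        have h5 := P.dep_par u hu
        obtain ⟨h6, h7, h8⟩ := ih (P.par u) (by omega) h3
        rw [h1, h2]
        refine ⟨by rw [h6, h4], h7, by omega⟩
  have hF2 : ∀ n u v, kk u = n → u ≠ P.c → v ≠ P.c → rr u = rr v → kk u = kk v → u = v := by
    intro n
    induction n with
    | zero =>
      intro u v hn hu hv hr hk
      have h1 : l u = dist u P.c := by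
        by_contra h
        have := (hQ2 u hu h).2
        omega
      have h2 : l v = dist v P.c := by
        by_contra h
        have := (hQ2 v hv h).2
        omega
      rw [← (hQ1 u hu h1).1, ← (hQ1 v hv h2).1, hr]
    | succ n ih =>
      intro u v hn hu hv hr hk
      have h1 : l u ≠ dist u P.c := by
        intro h
        have := (hQ1 u hu h).2
        omega
      have h2 : l v ≠ dist v P.c := by
        intro h
        have := (hQ1 v hv h).2
        omega
      obtain ⟨h3, h4⟩ := hQ2 u hu h1
      obtain ⟨h5, h6⟩ := hQ2 v hv h2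
      have h7 := (hpar u hu h1).1
      have h8 := (hpar v hv h2).1
      exact hS1 u v hu hv (ih _ _ (by omega) h7 h8 (by rw [← h3, ← h5, hr]) (by omega)) h7
  have hF3 : ∀ u v, u ≠ P.c → v ≠ P.c → rr u = rr v → kk u = kk v → u = v :=
    fun u v => hF2 _ u v rfl
  -- different blocks
  have hP : ∀ n u v, P.dep u + P.dep v = n → u ≠ P.c → v ≠ P.c → rr u ≠ rr v →
      dist u v = max (dist u P.c) (dist v P.c) := by
    intro n
    induction n using Nat.strong_induction_on with
    | _ n ih =>
      have key : ∀ u v, P.dep u + P.dep v = n → P.dep v ≤ P.dep u → u ≠ P.c → v ≠ P.c →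
          rr u ≠ rr v → dist u v = max (dist u P.c) (dist v P.c) := by
        intro u v hn hd hu hv hr
        have huv : u ≠ v := fun h => hr (by rw [h])
        have h0 := P.rec_of_gen l hg u v huv hd
        by_cases h : l u = dist u P.c
        · by_cases h1 : dist u P.c = dist P.c v
          · apply le_antisymm
            · have := dist_triangle_max u P.c v
              rwa [_root_.dist_comm P.c v] at this
            · rw [_root_.dist_comm v P.c, ← h1, max_self, ← h, h0]
              exact le_max_left _ _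
          · rw [IsUltrametricDist.dist_eq_max_of_dist_ne_dist u P.c v h1,
              _root_.dist_comm P.c v]
        · obtain ⟨h1, h2⟩ := hpar u hu h
          obtain ⟨h3, h4⟩ := hQ2 u hu h
          have h5 : P.par u ≠ v := by
            rintro h6
            rw [h6] at h3
            exact hr h3
          have h6 := P.dep_par u hu
          have h7 := ih (P.dep (P.par u) + P.dep v) (by omega) (P.par u) v rfl h1 hv
            (by rw [← h3]; exact hr)
          rw [h0, dl_ne l h5, h7, h2, ← max_assoc, max_eq_right (hDl u)]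
      intro u v hn hu hv hr
      rcases le_total (P.dep v) (P.dep u) with h | h
      · exact key u v hn h hu hv hr
      · rw [_root_.dist_comm, max_comm]
        exact key v u (by omega) h hv hu hr.symm
  have hP' : ∀ u v, u ≠ P.c → v ≠ P.c → rr u ≠ rr v →
      dist u v = max (dist u P.c) (dist v P.c) := fun u v => hP _ u v rfl
  -- the same block
  have hchain : ∀ u, u ≠ P.c → l u ≠ dist u P.c → ∀ n z, kk z = kk u + n → z ≠ P.c →
      rr z = rr u → dist z (P.par u) = max (dl l z u) (l (P.par u)) := by
    intro u hu hQ n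
    obtain ⟨hp1, hp2⟩ := hpar u hu hQ
    obtain ⟨hq1, hq2⟩ := hQ2 u hu hQ
    have d1 := (hF1 _ u rfl hu).2.2
    have d2 := P.dep_par u hu
    induction n with
    | zero =>
      intro z hk hz hr
      obtain rfl := hF3 z u hz hu hr hk
      rw [dl_self, P.rec_of_gen l hg z (P.par z) (fun h => by rw [← h] at d2; omega) (by omega),
        dl_self]
    | succ n ih =>
      intro z hk hz hr
      have hzQ : l z ≠ dist z P.c := by
        intro h
        have := (hQ1 z hz h).2
        omega
      obtain ⟨hp3, hp4⟩ := hpar z hz hzQ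
      obtain ⟨hq3, hq4⟩ := hQ2 z hz hzQ
      have d3 := (hF1 _ z rfl hz).2.2
      rw [hr] at d3
      have h1 := ih (P.par z) (by omega) hp3 (by rw [← hq3, hr])
      have hzu : z ≠ u := by rintro rfl; omega
      have hzp : z ≠ P.par u := by rintro h; have := congrArg kk h; omega
      have hpp : P.par z ≠ P.par u := by
        intro h
        rw [h] at hq4
        omega
      rw [P.rec_of_gen l hg z (P.par u) hzp (by omega), dl_ne l hpp, h1, dl_ne l hzu,
        P.rec_of_gen l hg z u hzu (by omega), max_assoc]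
  -- the enumeration
  have hcount : ({P.c}ᶜ : Set X).Countable := by
    have h1 : ({P.c}ᶜ : Set X) ⊆ ⋃ n : ℕ, {v : X | (1 : ℝ) / (n + 1) ≤ dist v P.c} := by
      intro v hv
      obtain ⟨n, hn⟩ := exists_nat_one_div_lt (dist_pos.2 (show v ≠ P.c from hv))
      exact mem_iUnion.2 ⟨n, hn.le⟩
    exact (countable_iUnion fun n : ℕ => (hlev ((1 : ℝ) / (n + 1)) (by positivity)).countable).mono h1
  obtain ⟨ι, hι⟩ := countable_iff_exists_injOn.1 hcount
  have hinfY : Infinite ({P.c}ᶜ : Set X) := (finite_singleton P.c).infinite_compl.to_subtype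
  let key : ({P.c}ᶜ : Set X) → ℝ ×ₗ (ℕ ×ₗ ℤ) := fun u =>
    toLex (-dist (u : X) P.c, toLex (ι (rr u), -(kk u : ℤ)))
  have hkey : ∀ u v, key u < key v ↔ dist (v : X) P.c < dist (u : X) P.c ∨
      (dist (u : X) P.c = dist (v : X) P.c ∧ (ι (rr u) < ι (rr v) ∨
        (ι (rr u) = ι (rr v) ∧ kk v < kk u))) := by
    intro u v
    simp only [key, Prod.Lex.toLex_lt_toLex, neg_lt_neg_iff, neg_inj, Nat.cast_lt]
  have hYc : ∀ u : ({P.c}ᶜ : Set X), (u : X) ≠ P.c := fun u => u.2
  have hιr : ∀ u v : ({P.c}ᶜ : Set X), ι (rr u) = ι (rr v) → rr u = rr v := by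
    intro u v h
    exact hι (hF1 _ _ rfl (hYc u)).2.1 (hF1 _ _ rfl (hYc v)).2.1 h
  have hkinj : Function.Injective key := by
    intro u v h
    simp only [key, EmbeddingLike.apply_eq_iff_eq, Prod.mk.injEq, neg_inj, Nat.cast_inj] at h
    exact Subtype.ext (hF3 _ _ (hYc u) (hYc v) (hιr _ _ h.2.1) h.2.2)
  have hkfin : ∀ u, {v | key v < key u}.Finite := by
    intro u
    have h1 : (Subtype.val '' {v | key v < key u}) ⊆ {v | dist (u : X) P.c ≤ dist v P.c} := by
      rintro v ⟨w, hw, rfl⟩
      rcases (hkey w u).1 hw with h | h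
      · exact h.le
      · exact h.1.ge
    exact ((hlev _ (dist_pos.2 (hYc u))).subset h1).of_finite_image Subtype.val_injective.injOn
  obtain ⟨x, hx, hxm⟩ := exists_enum key hkinj hkfin
  have hcons : ∀ n w, ¬ (key (x n) < key w ∧ key w < key (x (n + 1))) := by
    rintro n w ⟨h1, h2⟩
    obtain ⟨m, rfl⟩ := hx.2 w
    have h3 := hxm.lt_iff_lt.1 h1
    have h4 := hxm.lt_iff_lt.1 h2
    omega
  have hmain : ∀ m n, m ≤ n → dist (x (n + 1) : X) (x m) =
      max (l (x (n + 1))) (dl l (x n : X) (x m)) := by
    intro m n hmn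
    have k1 : key (x n) < key (x (n + 1)) := hxm (Nat.lt_succ_self n)
    have k2 : x m = x n ∨ key (x m) < key (x n) := by
      rcases eq_or_lt_of_le hmn with h | h
      · exact Or.inl (by rw [h])
      · exact Or.inr (hxm h)
    have hcn := hcons n
    have hxn1 : x (n + 1) ≠ x m := by
      intro h
      have := hx.1 h
      omega
    generalize x (n + 1) = v at k1 hcn hxn1 ⊢
    generalize x n = u at k1 k2 hcn ⊢
    generalize x m = z at k2 hxn1 ⊢
    have hu := hYc u
    have hv := hYc v
    have hz := hYc z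
    obtain ⟨fu1, fu2, fu3⟩ := hF1 _ _ rfl hu
    obtain ⟨fv1, fv2, fv3⟩ := hF1 _ _ rfl hv
    obtain ⟨fz1, fz2, fz3⟩ := hF1 _ _ rfl hz
    have hDz : dist (u : X) P.c ≤ dist (z : X) P.c := by
      rcases k2 with h | h
      · rw [h]
      · rcases (hkey _ _).1 h with h | h
        · exact h.le
        · exact h.1.ge
    have hDv : dist (v : X) P.c ≤ dist (u : X) P.c := by
      rcases (hkey _ _).1 k1 with h | h
      · exact h.le
      · exact h.1.ge
    by_cases hQ : l u = dist (u : X) P.c
    · -- `u` is the top of its block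
      have hru := (hQ1 u hu hQ).1
      have hku := (hQ1 u hu hQ).2
      have hrvz : rr v ≠ rr z := by
        intro h
        have e1 : dist (v : X) P.c = dist (z : X) P.c := by rw [← fv1, ← fz1, h]
        have e2 : dist (u : X) P.c = dist (v : X) P.c := le_antisymm (by rw [e1]; exact hDz) hDv
        have e3 : ι (rr u) ≤ ι (rr v) := by
          rcases (hkey _ _).1 k1 with h1 | ⟨-, h1 | h1⟩
          · exact absurd e2 h1.ne'
          · exact h1.le
          · exact h1.1.le
        have e4 : ι (rr z) ≤ ι (rr u) := by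
          rcases k2 with h1 | h1
          · rw [h1]
          · rcases (hkey _ _).1 h1 with h1 | ⟨-, h1 | h1⟩
            · exact absurd (e2.trans e1) h1.ne
            · exact h1.le
            · exact h1.1.le
        rw [← h] at e4
        have e5 : ι (rr u) = ι (rr v) := le_antisymm e3 e4
        rcases (hkey _ _).1 k1 with h1 | ⟨-, h1 | h1⟩
        · exact absurd e2 h1.ne'
        · exact absurd e5 h1.ne
        · omega
      rw [hP' v z hv hz hrvz, max_eq_right (hDv.trans hDz)]
      have e6 : dl l (u : X) z = dist (z : X) P.c := by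
        by_cases h : (u : X) = z
        · rw [← h, dl_self, hQ]
        · rw [dl_ne l h]
          by_cases h1 : rr u = rr z
          · have e7 : dist (z : X) P.c = dist (u : X) P.c := by rw [← fz1, ← fu1, h1]
            apply le_antisymm
            · have := dist_triangle_max (u : X) P.c z
              rwa [_root_.dist_comm P.c (z : X), e7, max_self, ← e7] at this
            · rw [e7, ← hQ]
              exact hle _ _ h
          · rw [hP' u z hu hz h1, max_eq_right hDz]
      rw [e6, max_eq_right ((hDl v).trans (hDv.trans hDz))]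
    · -- `v` is the parent of `u`
      obtain ⟨hp1, hp2⟩ := hpar u hu hQ
      obtain ⟨hq1, hq2⟩ := hQ2 u hu hQ
      have hvp : (v : X) = P.par u := by
        have g1 : ¬ key ⟨P.par u, hp1⟩ < key v := fun h => hcn ⟨P.par u, hp1⟩
          ⟨(hkey _ _).2 (Or.inr ⟨hp2.symm, Or.inr ⟨by rw [hq1], by
            change kk (P.par u) < kk u; omega⟩⟩), h⟩
        rw [hkey] at g1
        simp only at g1
        push Not at g1
        obtain ⟨g2, g3⟩ := g1
        rw [hp2] at g2 g3
        have g4 : dist (u : X) P.c = dist (v : X) P.c := le_antisymm g2 hDv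
        obtain ⟨g5, g6⟩ := g3 g4
        rw [← hq1] at g5 g6
        rcases (hkey _ _).1 k1 with h1 | ⟨-, h1 | h1⟩
        · exact absurd g4 h1.ne'
        · exact absurd g5 (not_le.2 h1)
        · have g7 := g6 h1.1
          refine hF3 _ _ hv hp1 ?_ (by omega)
          rw [← hq1, hιr u v h1.1]
      rw [hvp]
      by_cases h1 : rr z = rr u
      · have g1 : ∃ n, kk z = kk u + n := by
          rcases k2 with h | h
          · exact ⟨0, by rw [h]; rfl⟩
          · rcases (hkey _ _).1 h with h | ⟨-, h | h⟩
            · exact absurd (by rw [← fu1, ← fz1, h1]) h.ne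
            · rw [h1] at h; exact absurd h (lt_irrefl _)
            · exact ⟨kk z - kk u, by omega⟩
        obtain ⟨n, hn⟩ := g1
        rw [_root_.dist_comm, hchain u hu hQ n z hn hz h1, max_comm, dl_comm]
      · have h2 : (u : X) ≠ z := fun h => h1 (by rw [h])
        rw [hP' (P.par u) z hp1 hz (by rw [← hq1]; exact fun h => h1 h.symm), hp2,
          dl_ne l h2, hP' u z hu hz (fun h => h1 h.symm), ← max_assoc,
          max_eq_right ((hDl (P.par u)).trans hp2.le)]
  -- conclusion
  refine ⟨{P.c}ᶜ, ?_, ?_, ?_, inferInstance, ?_⟩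
  · intro h
    have : P.c ∈ ({P.c}ᶜ : Set X) := h ▸ mem_univ _
    exact this rfl
  · exact isCompact_univ.totallyBounded.subset (subset_univ _)
  · refine ⟨(rayPT x hx).graph, fun w => l w, rayPT_isRay x hx, ?_⟩
    refine PT.gen_of_rec _ _ (fun v => hg.2.1 _) ?_
    intro u v huv hd
    obtain ⟨k, rfl⟩ := hx.2 u
    obtain ⟨m, rfl⟩ := hx.2 v
    rw [rayPT_dep, rayPT_dep] at hd
    rw [rayPT_par]
    have hkm : m ≠ k := fun h => huv (by rw [h])
    obtain ⟨n, rfl⟩ : ∃ n, k = n + 1 := ⟨k - 1, by omega⟩
    rw [dl_sub, Nat.add_sub_cancel]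
    exact hmain m n (by omega)
  · intro v
    by_cases hv : v = P.c
    · subst hv
      rw [Metric.mem_closure_iff]
      intro ε hε
      obtain ⟨y, hy, hyd⟩ := hcl ε hε
      exact ⟨y, hy, by rw [_root_.dist_comm]; exact hyd⟩
    · exact subset_closure hv

end X155.UR
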